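import Pool.Agent.Lib.MP_813db1_ag.AS.FDefs
import Pool.Agent.Lib.MP_813db1_ag.HS.Calc

/-! One-forms under a change of charts. -/

namespace Pool.Agent.Lib.MP_813db1_ag.AS

open Pool.Agent.Lib.MP_813db1_ag.HS Filter Topology Set Matrix
open scoped ContDiff

namespace F1

variable {ι X : Type} [Fintype ι] [DecidableEq ι] [TopologicalSpace X] {M : Atl ι X}
  {e e' : Ch ι X} {z : V ι}

theorem an (he : e ∈ M.A) (he' : e' ∈ M.A) (hz : z ∈ e.target) (hz' : e.symm z ∈ e'.source) :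
    AnalyticAt ℂ (e' ∘ e.symm) z := by
  have := M.hol e he e' he' _ (e.map_target hz) hz'
  rwa [e.right_inv hz] at this

theorem sm (he : e ∈ M.A) (he' : e' ∈ M.A) (hz : z ∈ e.target) (hz' : e.symm z ∈ e'.source) :
    ContDiffAt ℝ ∞ (e' ∘ e.symm) z :=
  ((an he he' hz hz').contDiffAt (n := ∞)).restrict_scalars ℝ

theorem ev (hz : z ∈ e.target) {U : Set X} (hU : IsOpen U) (hz' : e.symm z ∈ U) :
    ∀ᶠ w in 𝓝 z, w ∈ e.target ∧ e.symm w ∈ U :=
  (e.open_target.eventually_mem hz).and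
    ((e.continuousAt_symm hz).eventually (hU.eventually_mem hz'))

theorem comp_ev {W : Type} (F : X → W) (hz : z ∈ e.target) (hz' : e.symm z ∈ e'.source) :
    F ∘ e.symm =ᶠ[𝓝 z] (F ∘ e'.symm) ∘ (e' ∘ e.symm) :=
  (ev hz e'.open_source hz').mono fun w hw => by simp [e'.left_inv hw.2]

theorem rep1_tr (a : X → Cv ι) (he : e ∈ M.A) (he' : e' ∈ M.A) (hz : z ∈ e.target)
    (hz' : e.symm z ∈ e'.source) :
    rep1 M a e z = (rep1 M a e' (e' (e.symm z))).comp (fderiv ℝ (e' ∘ e.symm) z) := by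
  have h1 := (sm he he' hz hz').differentiableAt (by simp)
  have h2 : DifferentiableAt ℝ (M.ch (e.symm z) ∘ e'.symm) (e' (e.symm z)) :=
    (sm he' (M.ch_mem _) (e'.map_source hz') (by rw [e'.left_inv hz']; exact M.mem _)).differentiableAt
      (by simp)
  rw [rep1, rep1, e'.left_inv hz', (comp_ev _ hz hz').fderiv_eq, fderiv_comp z h2 h1,
    ContinuousLinearMap.comp_assoc]
  rfl

theorem rep1_self (a : X → Cv ι) (x : X) : rep1 M a (M.ch x) (M.ch x x) = a x := by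
  have h : (M.ch x ∘ (M.ch x).symm) =ᶠ[𝓝 (M.ch x x)] id :=
    ((M.ch x).open_target.eventually_mem ((M.ch x).map_source (M.mem x))).mono fun w hw =>
      (M.ch x).right_inv hw
  rw [rep1, (M.ch x).left_inv (M.mem x), h.fderiv_eq, fderiv_id]
  rfl

/-- the exterior derivative commutes with pull backs. -/
theorem d_pull {A : V ι → Cv ι} {φ : V ι → V ι} (hA : ContDiffAt ℝ ∞ A (φ z))
    (hφ : ContDiffAt ℝ ∞ φ z) :
    ContDiffAt ℝ ∞ (fun w => (A (φ w)).comp (fderiv ℝ φ w)) z ∧ ∀ u v,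
      fderiv ℝ (fun w => (A (φ w)).comp (fderiv ℝ φ w)) z u v -
        fderiv ℝ (fun w => (A (φ w)).comp (fderiv ℝ φ w)) z v u =
      fderiv ℝ A (φ z) (fderiv ℝ φ z u) (fderiv ℝ φ z v) -
        fderiv ℝ A (φ z) (fderiv ℝ φ z v) (fderiv ℝ φ z u) := by
  have h1 : ContDiffAt ℝ ∞ (fun w => A (φ w)) z := hA.comp z hφ
  have h2 : ContDiffAt ℝ ∞ (fderiv ℝ φ) z := hφ.fderiv_right (by simp)
  refine ⟨h1.clm_comp h2, fun u v => ?_⟩
  have hs := hφ.isSymmSndFDerivAt (by simp; exact ENat.LEInfty.out) u v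
  have h3 : fderiv ℝ (fun w => A (φ w)) z = (fderiv ℝ A (φ z)).comp (fderiv ℝ φ z) :=
    fderiv_comp z (hA.differentiableAt (by simp)) (hφ.differentiableAt (by simp))
  rw [fderiv_clm_comp (h1.differentiableAt (by simp)) (h2.differentiableAt (by simp)), h3]
  simp [hs]

theorem prim_loc (ha : RepA) (hm : MatS) {g : X → Mat ι} {a : X → Cv ι} {U : Set X}
    (h : ∀ x ∈ U, ContDiffAt ℝ ∞ (rep1 M a (M.ch x)) (M.ch x x) ∧ ∀ u v,
      fderiv ℝ (rep1 M a (M.ch x)) (M.ch x x) u v - fderiv ℝ (rep1 M a (M.ch x)) (M.ch x x) v u =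
        (ipV (M.repF g (M.ch x) (M.ch x x)) u v).im) : Prim M g a U := by
  intro e he z hz hU
  have he' := M.ch_mem (e.symm z)
  have hz' := M.mem (e.symm z)
  obtain ⟨h1, h2⟩ := h _ hU
  have hev : rep1 M a e =ᶠ[𝓝 z] fun w => (rep1 M a (M.ch (e.symm z))
      ((M.ch (e.symm z) ∘ e.symm) w)).comp (fderiv ℝ (M.ch (e.symm z) ∘ e.symm) w) :=
    (ev hz (M.ch (e.symm z)).open_source hz').mono fun w hw => rep1_tr a he he' hw.1 hw.2
  obtain ⟨h3, h4⟩ := d_pull (A := rep1 M a (M.ch (e.symm z))) (φ := M.ch (e.symm z) ∘ e.symm) h1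
    (sm he he' hz hz')
  refine ⟨h3.congr_of_eventuallyEq hev, fun u v => ?_⟩
  have h5 := (ha ι X M).repF_tr g e he _ he' _ (e.map_target hz) hz'
  have hd : (tj e (M.ch (e.symm z)) (e.symm z)).det ≠ 0 :=
    (ha ι X M).tj_det e he _ he' _ (e.map_target hz) hz'
  have h6 : ∀ u, fderiv ℝ (M.ch (e.symm z) ∘ e.symm) z u = tj e (M.ch (e.symm z)) (e.symm z) *ᵥ u :=
    fun u => by
      rw [tj, e.right_inv hz, jac_mulVec,
        (an he he' hz hz').differentiableAt.fderiv_restrictScalars ℝ]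
      rfl
  rw [e.right_inv hz] at h5
  rw [hev.fderiv_eq, h4, h5, (hm.pull_pd ι _ _ hd).2.2.2.2.2.2, h6, h6]
  exact h2 _ _

theorem dif_loc {a b : X → Cv ι} {f : X → ℝ} {U : Set X}
    (h : ∀ x ∈ U, ContDiffAt ℝ ∞ (f ∘ (M.ch x).symm) (M.ch x x) ∧
      a x - b x = fderiv ℝ (f ∘ (M.ch x).symm) (M.ch x x)) : Dif M a b f U := by
  intro e he z hz hU
  have he' := M.ch_mem (e.symm z)
  have hz' := M.mem (e.symm z)
  obtain ⟨h1, h2⟩ := h _ hU
  have h3 := sm he he' hz hz'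
  refine ⟨(ContDiffAt.comp z h1 h3).congr_of_eventuallyEq (comp_ev f hz hz'), ?_⟩
  rw [(comp_ev f hz hz').fderiv_eq, fderiv_comp z (h1.differentiableAt (by simp))
    (h3.differentiableAt (by simp)), rep1, rep1, ← ContinuousLinearMap.sub_comp, h2]
  rfl

end F1

end Pool.Agent.Lib.MP_813db1_ag.AS
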