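import Pool.Agent.Lib.MP_813db1_ag.HS.StmtAY

/-! Stage 2: the operator `box` twisted by a weight `exp φ`, and the statements of the steps. -/

namespace Pool.Agent.Lib.MP_813db1_ag.HS

open MeasureTheory Complex Matrix Filter Topology Set Metric
open scoped ContDiff ComplexOrder ENNReal

noncomputable section

variable {ι X : Type} [Fintype ι] [DecidableEq ι] [TopologicalSpace X]

/-- the Laplacian with a first order term. -/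
def boxG (c : ι → V ι → ℂ) (H : V ι → Mat ι) (F : V ι → ℂ) (z : V ι) : ℂ :=
  lapL H F z - ∑ i, ∑ j, (H z)⁻¹ j i * c i z * dzb F j z

/-- the first order coefficient of the twisted operator. -/
def cfT (a : ℕ) (H : V ι → Mat ι) (φ : V ι → ℂ) (i : ι) (z : V ι) : ℂ :=
  a * dz (lg H) i z - dz φ i z

/-- the twisted weight. -/
def wtT (a : ℕ) (g h : X → Mat ι) (φ : X → ℝ) (x : X) : ℝ := wt a g h x * Real.exp (φ x)

/-- the twisted operator on sections. -/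
def Atl.boxT (M : Atl ι X) (a : ℕ) (h : X → Mat ι) (φ : X → ℝ) (σ : X → ℂ) (x : X) : ℂ :=
  boxG (cfT a (M.repF h (M.ch x)) (fn φ (M.ch x))) (M.repF h (M.ch x)) (M.rep a σ (M.ch x))
    (M.ch x x)

/-- the local potential of the twisted metric on the canonical bundle. -/
def Atl.psi (M : Atl ι X) (h : X → Mat ι) (φ : X → ℝ) (e : Ch ι X) (z : V ι) : ℝ :=
  Real.log (M.repF h e z).det.re - φ (e.symm z)

/-- the twisted `L²` product of sections. -/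
def Atl.ip0T [MeasurableSpace X] (_M : Atl ι X) (μ : Measure X) (a : ℕ) (g h : X → Mat ι)
    (φ : X → ℝ) (σ τ : X → ℂ) : ℂ :=
  ∫ x, σ x * star (τ x) * wtT a g h φ x ∂μ

/-- the twisted `L²` product of `dbar` of sections. -/
def Atl.ip1T [MeasurableSpace X] (M : Atl ι X) (μ : Measure X) (a : ℕ) (g h : X → Mat ι)
    (φ : X → ℝ) (σ τ : X → ℂ) : ℂ :=
  ∫ x, ipV (h x) (M.shpX a h σ x) (M.shpX a h τ x) * wtT a g h φ x ∂μ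

/-- ellipticity and Hoelder bounds for the coefficients of `boxT m h φ`. -/
def Cov.EllT {M : Atl ι X} (C : Cov M) (m : ℕ) (L : ℝ) (h : X → Mat ι) (φ : X → ℝ) : Prop :=
  ∀ a, HolM L (M.repF h (C.e a)) (ball 0 (2 * C.r a)) ∧
    HolM L (fun z => (M.repF h (C.e a) z)⁻¹) (ball 0 (2 * C.r a)) ∧
    ∀ i, Hol L (cfT m (M.repF h (C.e a)) (fn φ (C.e a)) i) (ball 0 (2 * C.r a))

end

/-- the family of base metrics `H ε` and weights `φ ε`. -/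
structure FamT {ι X : Type} [Fintype ι] [DecidableEq ι] [TopologicalSpace X] [MeasurableSpace X]
    (M : Atl ι X) (g : X → Mat ι) (μ : Measure X) (H : ℝ → X → Mat ι) (φ : ℝ → X → ℝ) : Prop where
  k : ∀ ε ∈ Ioc (0 : ℝ) 1, M.IsK (H ε) ∧ M.Ck ∞ (φ ε)
  ric : ∀ ε ∈ Ioc (0 : ℝ) 1, ∀ x, M.ricF (H ε) x + M.ddc (φ ε) x = (ε : ℂ) • g x - H ε x
  tr : ∀ ε ∈ Ioc (0 : ℝ) 1, ∀ x, ε * trm (H ε x) (g x) ≤ 2 * Fintype.card ι
  lim : Tendsto (fun ε => ∫ x, ε * trm (H ε x) (g x) * rat (H ε) g x ∂μ) (𝓝[>] 0) (𝓝 0)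
  good : ∀ (C : Cov M) (a0 : Fin C.n), ∃ L : ℝ, ∃ c > (0 : ℝ), ∀ᶠ ε in 𝓝[>] (0 : ℝ), ∃ O,
    IsOpen O ∧ O ⊆ ball 0 (C.r a0) ∧ c ≤ (volume O).toReal ∧ ∀ y ∈ O,
      Bd L (M.repF (H ε) (C.e a0) y) ∧ Bd L (M.repF (H ε) (C.e a0) y)⁻¹ ∧
      ε * trm (M.repF (H ε) (C.e a0) y) (M.repF g (C.e a0) y) ≤ 1 / 2

def FamTS : Prop := ∀ (ι X : Type) [Fintype ι] [DecidableEq ι] [TopologicalSpace X] [T2Space X]
  [CompactSpace X] [ConnectedSpace X] [MeasurableSpace X] [BorelSpace X] (M : Atl ι X)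
  (g : X → Mat ι) (μ : Measure X), M.IsK g → M.IsVol g μ →
  (∀ ε ∈ Ioc (0 : ℝ) 1, ∃ u, M.Sol g ε u) → 0 < M.vol μ g 0 → ∃ H φ, FamT M g μ H φ

/-- covariance of the twisted operator. -/
def RepTS : Prop := ∀ (ι X : Type) [Fintype ι] [DecidableEq ι] [TopologicalSpace X] (M : Atl ι X)
  (a : ℕ) (h : X → Mat ι) (φ : X → ℝ) (σ : X → ℂ), M.IsK h → M.Ck ∞ φ → ∀ e ∈ M.A,
  ∀ x ∈ e.source, ContDiffAt ℝ 2 (M.rep a σ e) (e x) → M.rep a (M.boxT a h φ σ) e (e x) =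
    boxG (cfT a (M.repF h e) (fn φ e)) (M.repF h e) (M.rep a σ e) (e x)

structure GreenTS : Prop where
  sec : ∀ (ι X : Type) [Fintype ι] [DecidableEq ι] [TopologicalSpace X] [T2Space X]
    [CompactSpace X] [MeasurableSpace X] [BorelSpace X] (M : Atl ι X) (g h : X → Mat ι)
    (φ : X → ℝ) (μ : Measure X) (a : ℕ) (σ τ : X → ℂ), M.IsK g → M.IsK h → M.Ck ∞ φ →
    M.IsVol g μ → M.CkS 2 a σ → M.CkS 1 a τ → M.CkS 0 a (M.boxT a h φ σ) ∧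
    M.ip0T μ a g h φ (M.boxT a h φ σ) τ = -M.ip1T μ a g h φ σ τ
  cont : ∀ (ι X : Type) [Fintype ι] [DecidableEq ι] [TopologicalSpace X] (M : Atl ι X)
    (g h : X → Mat ι) (φ : X → ℝ) (a : ℕ) (σ τ : X → ℂ), M.IsK g → M.IsK h → M.Ck ∞ φ →
    (M.CkS 0 a σ → M.CkS 0 a τ → Continuous fun x => σ x * star (τ x) * (wtT a g h φ x : ℂ)) ∧
    (M.CkS 1 a σ → M.CkS 1 a τ → ∀ B, M.SmF B →
      Continuous fun x => ipV (B x) (M.shpX a h σ x) (M.shpX a h τ x) * (wtT a g h φ x : ℂ)) ∧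
    (M.CkS 2 a σ → Continuous fun x => M.nDX a h σ x * wtT a g h φ x) ∧ ∀ x, 0 < wtT a g h φ x

/-- the local parametrix. -/
def LocTS : Prop := ∀ (ι : Type) [Fintype ι] [DecidableEq ι] (L : ℝ), ∃ ρ0 > (0 : ℝ),
  ∃ t0 ≥ (1 : ℝ), ∀ (z0 : V ι) (ρ : ℝ), 0 < ρ → ρ ≤ ρ0 → ∃ C ≥ (0 : ℝ),
  ∀ (c : ι → V ι → ℂ) (H : V ι → Mat ι) (U : Set (V ι)), closedBall z0 ρ ⊆ U →
  (∀ z ∈ U, (H z).PosDef) → HolM L H U → HolM L (fun z => (H z)⁻¹) U → (∀ i, Hol L (c i) U) →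
  ∀ t ≥ t0, ∀ (f : V ι → ℂ) (B : ℝ), HolT t B f univ → (∀ z ∉ closedBall z0 (ρ / 2), f z = 0) →
  ∃ w E : V ι → ℂ, Hol2 (C * B) w univ ∧ HolT t (C * B / t ^ 2) E univ ∧
    (∀ z ∉ closedBall z0 ρ, w z = 0 ∧ E z = 0) ∧
    ∀ z, (t : ℂ) ^ 4 * w z - boxG c H w z = f z - E z

def RegTS : Prop := ∀ (ι : Type) [Fintype ι] [DecidableEq ι] (U : Set (V ι)) (c : ι → V ι → ℂ)
  (d : ℂ) (H : V ι → Mat ι) (v f : V ι → ℂ), IsOpen U → KOn H U →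
  (∀ i, ∀ z ∈ U, ContDiffAt ℝ ∞ (c i) z) → (∀ z ∈ U, ContDiffAt ℝ ∞ f z) → Hk 2 v U →
  (∀ z ∈ U, d * v z - boxG c H v z = f z) → ∀ z ∈ U, ContDiffAt ℝ ∞ v z

/-- solvability for one large parameter. -/
def LinETS : Prop := ∀ (ι X : Type) [Fintype ι] [DecidableEq ι] [TopologicalSpace X] [T2Space X]
  (M : Atl ι X) (C : Cov M) (a : ℕ) (L : ℝ), ∃ lam ≥ (1 : ℝ), ∃ C1 ≥ (0 : ℝ),
  ∀ h φ, M.IsK h → M.Ck ∞ φ → C.EllT a L h φ → ∀ f B, 0 ≤ B → C.SH a B f →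
    ∃ v, C.SH2 a (C1 * B) v ∧ ∀ x, (lam : ℂ) * v x - M.boxT a h φ v x = f x

/-- comparison of the norms, and dissipativity. -/
def L2TS : Prop := ∀ (ι X : Type) [Fintype ι] [DecidableEq ι] [TopologicalSpace X] [T2Space X]
  [CompactSpace X] [MeasurableSpace X] [BorelSpace X] (M : Atl ι X) (g h : X → Mat ι) (φ : X → ℝ)
  (μ : Measure X) (C : Cov M) (a : ℕ), M.IsK g → M.IsK h → M.Ck ∞ φ → M.IsVol g μ →
  ∃ c ≥ (0 : ℝ), (∀ f B, C.SH a B f → (M.ip0T μ a g h φ f f).re ≤ (c * B) ^ 2) ∧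
    (∀ v P, 0 ≤ P → M.CkS 0 a v → (M.ip0T μ a g h φ v v).re ≤ P ^ 2 → ∀ b,
      ∫ z in ball (0 : V ι) (2 * C.r b), ‖M.rep a v (C.e b) z‖ ^ 2 ≤ (c * P) ^ 2) ∧
    ∀ (η : ℝ) v, 0 ≤ η → M.CkS 2 a v → η ^ 2 * (M.ip0T μ a g h φ v v).re ≤
      (M.ip0T μ a g h φ (fun x => (η : ℂ) * v x - M.boxT a h φ v x)
        (fun x => (η : ℂ) * v x - M.boxT a h φ v x)).re

def Lin2TS : Prop := ∀ (ι X : Type) [Fintype ι] [DecidableEq ι] [TopologicalSpace X] [T2Space X]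
  [CompactSpace X] [MeasurableSpace X] [BorelSpace X] (M : Atl ι X) (g h : X → Mat ι) (φ : X → ℝ)
  (μ : Measure X) (C : Cov M) (a : ℕ), M.IsK g → M.IsK h → M.Ck ∞ φ → M.IsVol g μ →
  ∃ C2 ≥ (0 : ℝ), ∀ η ∈ Ioc (0 : ℝ) 1,
    (∀ v B B' P, 0 ≤ P → C.SH2 a B' v → C.SH a B (fun x => (η : ℂ) * v x - M.boxT a h φ v x) →
      (M.ip0T μ a g h φ v v).re ≤ P ^ 2 → C.SH2 a (C2 * (B + P)) v) ∧
    ∀ f B, C.SH a B f → ∃ v B', C.SH2 a B' v ∧ (∀ x, (η : ℂ) * v x - M.boxT a h φ v x = f x) ∧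
      (M.CkS ∞ a f → M.CkS ∞ a v)

def SmoTS : Prop := ∀ (ι X : Type) [Fintype ι] [DecidableEq ι] [TopologicalSpace X] (M : Atl ι X)
  (C : Cov M) (a : ℕ) (h : X → Mat ι) (φ : X → ℝ), M.IsK h → M.Ck ∞ φ → ∃ L, C.EllT a L h φ

/-- limits of almost holomorphic sections. -/
def CompTS : Prop := ∀ (ι X : Type) [Fintype ι] [DecidableEq ι] [TopologicalSpace X] [T2Space X]
  [CompactSpace X] [MeasurableSpace X] [BorelSpace X] (M : Atl ι X) (g h : X → Mat ι) (φ : X → ℝ)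
  (μ : Measure X) (C : Cov M) (a : ℕ) (B : ℝ) (σ : ℕ → X → ℂ), M.IsK g → M.IsK h → M.Ck ∞ φ →
  M.IsVol g μ → (∀ k, C.SH2 a B (σ k)) →
  Tendsto (fun k => (M.ip1T μ a g h φ (σ k) (σ k)).re) atTop (𝓝 0) →
  ∃ σ' : X → ℂ, M.HolS a σ' ∧ M.CkS ∞ a σ' ∧ ∀ δ > 0, ∃ k,
    (M.ip0T μ a g h φ (fun x => σ k x - σ' x) fun x => σ k x - σ' x).re < δ

/-- the count for a fixed power. -/
def FixTS : Prop := ∀ (ι X : Type) [Fintype ι] [DecidableEq ι] [TopologicalSpace X] [T2Space X]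
  [CompactSpace X] [MeasurableSpace X] [BorelSpace X] (M : Atl ι X) (g h : X → Mat ι) (φ : X → ℝ)
  (μ : Measure X) (θ : ℝ) (a Q N1 : ℕ) (f0 : Fin Q → X → ℂ), M.IsK g → M.IsK h → M.Ck ∞ φ →
  M.IsVol g μ → 0 < θ → (∀ j, M.CkS ∞ a (f0 j)) →
  (∀ i j, M.ip0T μ a g h φ (f0 i) (f0 j) = if i = j then 1 else 0) →
  (∀ d : Fin Q → ℂ, (M.ip1T μ a g h φ (fun x => ∑ j, d j * f0 j x)
    fun x => ∑ j, d j * f0 j x).re ≤ θ / 4 * ∑ j, ‖d j‖ ^ 2) →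
  (∀ (Q' : ℕ) (f : Fin Q' → X → ℂ), (∀ j, M.CkS ∞ a (f j)) →
    (∀ i j, M.ip1T μ a g h φ (f i) (f j) = if i = j then 1 else 0) →
    (∀ d : Fin Q' → ℂ, (M.ip0T μ a g h φ (M.boxT a h φ fun x => ∑ j, d j * f j x)
      (M.boxT a h φ fun x => ∑ j, d j * f j x)).re ≤ θ * ∑ j, ‖d j‖ ^ 2) → Q' ≤ N1) →
  ∃ σ : Fin (Q - N1) → X → ℂ, (∀ j, M.HolS a (σ j)) ∧ LinearIndependent ℂ σ

/-- the Bochner-Kodaira identity. -/
def BKTS : Prop := ∀ (ι X : Type) [Fintype ι] [DecidableEq ι] [TopologicalSpace X] [T2Space X]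
  [CompactSpace X] [MeasurableSpace X] [BorelSpace X] (M : Atl ι X) (g h : X → Mat ι) (φ : X → ℝ)
  (μ : Measure X) (b : ℕ) (σ : X → ℂ), M.IsK g → M.IsK h → M.Ck ∞ φ → M.IsVol g μ →
  M.CkS ∞ (b + 1) σ →
  (M.ip0T μ (b + 1) g h (fun x => b * φ x) (M.boxT (b + 1) h (fun x => b * φ x) σ)
    (M.boxT (b + 1) h (fun x => b * φ x) σ)).re =
    ∫ x, M.nDX (b + 1) h σ x * wtT (b + 1) g h (fun x => b * φ x) x ∂μ +
      b * ∫ x, nV (-(M.ricF h x + M.ddc φ x)) (M.shpX (b + 1) h σ x) *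
        wtT (b + 1) g h (fun x => b * φ x) x ∂μ

/-- the dictionary between sections and functions in a chart. -/
def DictTS : Prop := ∀ (ι X : Type) [Fintype ι] [DecidableEq ι] [TopologicalSpace X] (M : Atl ι X)
  (g h : X → Mat ι) (φ : X → ℝ), M.IsK g → M.IsK h → M.Ck ∞ φ → ∀ e ∈ M.A, ∀ z ∈ e.target,
  ContDiffAt ℝ ∞ (M.psi h φ e) z ∧
  (∀ ε : ℝ, (∀ x, M.ricF h x + M.ddc φ x = (ε : ℂ) • g x - h x) →
    levi (fun w => (M.psi h φ e w : ℂ)) z = M.repF h e z - (ε : ℂ) • M.repF g e z) ∧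
  ∀ (b : ℕ) (σ : X → ℂ),
    (M.repF g e z).det.re * (‖σ (e.symm z)‖ ^ 2 * wtT (b + 1) g h (fun x => b * φ x) (e.symm z)) =
      ‖M.rep (b + 1) σ e z‖ ^ 2 * Real.exp (-b * M.psi h φ e z) ∧
    (ContDiffAt ℝ 2 (M.rep (b + 1) σ e) z →
      (∀ B : X → Mat ι, (M.repF g e z).det.re * (nV (B (e.symm z)) (M.shpX (b + 1) h σ (e.symm z)) *
          wtT (b + 1) g h (fun x => b * φ x) (e.symm z)) =
        nV (M.repF B e z) (shp (M.repF h e) (M.rep (b + 1) σ e) z) *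
          Real.exp (-b * M.psi h φ e z)) ∧
      (M.repF g e z).det.re * (M.nDX (b + 1) h σ (e.symm z) *
          wtT (b + 1) g h (fun x => b * φ x) (e.symm z)) =
        nD (M.repF h e) (shp (M.repF h e) (M.rep (b + 1) σ e)) z * Real.exp (-b * M.psi h φ e z))

/-- many peak sections. -/
def PeakTS : Prop := ∀ (ι X : Type) [Fintype ι] [DecidableEq ι] [TopologicalSpace X] [T2Space X]
  [CompactSpace X] [Nonempty X] [MeasurableSpace X] [BorelSpace X] (M : Atl ι X) (g : X → Mat ι)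
  (μ : Measure X) (H : ℝ → X → Mat ι) (φ : ℝ → X → ℝ), M.IsK g → M.IsVol g μ → FamT M g μ H φ →
  ∃ c0 > 0, ∀ᶠ ε in 𝓝[>] (0 : ℝ), ∀ᶠ b : ℕ in atTop, ∃ (Q : ℕ) (f : Fin Q → X → ℂ),
    c0 * (b : ℝ) ^ Fintype.card ι ≤ Q ∧ (∀ j, M.CkS ∞ (b + 1) (f j)) ∧
    (∀ i j, M.ip0T μ (b + 1) g (H ε) (fun x => b * φ ε x) (f i) (f j) = if i = j then 1 else 0) ∧
    ∀ c : Fin Q → ℂ, (M.ip1T μ (b + 1) g (H ε) (fun x => b * φ ε x) (fun x => ∑ j, c j * f j x)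
      fun x => ∑ j, c j * f j x).re ≤ b / 16 * ∑ j, ‖c j‖ ^ 2

/-- the upper bound for the number of low energy sections. -/
def CntTS : Prop := ∀ (ι X : Type) [Fintype ι] [DecidableEq ι] [TopologicalSpace X] [T2Space X]
  [CompactSpace X] [MeasurableSpace X] [BorelSpace X] (M : Atl ι X) (g : X → Mat ι)
  (μ : Measure X) (H : ℝ → X → Mat ι) (φ : ℝ → X → ℝ), M.IsK g → M.IsVol g μ → FamT M g μ H φ →
  ∀ κ > 0, ∀ᶠ ε in 𝓝[>] (0 : ℝ), ∀ᶠ b : ℕ in atTop, ∀ (Q : ℕ) (f : Fin Q → X → ℂ),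
    (∀ j, M.CkS ∞ (b + 1) (f j)) →
    (∀ i j, M.ip1T μ (b + 1) g (H ε) (fun x => b * φ ε x) (f i) (f j) = if i = j then 1 else 0) →
    (∀ c : Fin Q → ℂ, (M.ip0T μ (b + 1) g (H ε) (fun x => b * φ ε x)
      (M.boxT (b + 1) (H ε) (fun x => b * φ ε x) fun x => ∑ j, c j * f j x)
      (M.boxT (b + 1) (H ε) (fun x => b * φ ε x) fun x => ∑ j, c j * f j x)).re ≤
        b / 4 * ∑ j, ‖c j‖ ^ 2) →
    (Q : ℝ) ≤ κ * (b : ℝ) ^ Fintype.card ι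

end Pool.Agent.Lib.MP_813db1_ag.HS
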