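import Pool.Agent.Lib.MP_813db1_ag.HS.Stmt2

/-! Real one-forms on a complex manifold and the statement of the vanishing step. -/

namespace Pool.Agent.Lib.MP_813db1_ag.AS

open Pool.Agent.Lib.MP_813db1_ag.HS
open scoped ContDiff

noncomputable section

/-- real covectors. -/
abbrev Cv (ι : Type) [Fintype ι] : Type := V ι →L[ℝ] ℝ

variable {ι X : Type} [Fintype ι] [DecidableEq ι] [TopologicalSpace X]

/-- a one-form (values in the preferred charts), read in the chart `e`. -/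
def rep1 (M : Atl ι X) (a : X → Cv ι) (e : Ch ι X) (z : V ι) : Cv ι :=
  (a (e.symm z)).comp (fderiv ℝ (M.ch (e.symm z) ∘ e.symm) z)

/-- `a` is a smooth primitive of the Kaehler form of `g` on `U`. -/
def Prim (M : Atl ι X) (g : X → Mat ι) (a : X → Cv ι) (U : Set X) : Prop :=
  ∀ e ∈ M.A, ∀ z ∈ e.target, e.symm z ∈ U → ContDiffAt ℝ ∞ (rep1 M a e) z ∧
    ∀ u v, fderiv ℝ (rep1 M a e) z u v - fderiv ℝ (rep1 M a e) z v u =
      (ipV (M.repF g e z) u v).im

/-- `f` is smooth on `U` with differential `a - b`. -/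
def Dif (M : Atl ι X) (a b : X → Cv ι) (f : X → ℝ) (U : Set X) : Prop :=
  ∀ e ∈ M.A, ∀ z ∈ e.target, e.symm z ∈ U → ContDiffAt ℝ ∞ (f ∘ e.symm) z ∧
    rep1 M a e z - rep1 M b e z = fderiv ℝ (f ∘ e.symm) z

end

/-- a Kaehler form has no primitives with exact differences on a cover of multiplicity at most
the real dimension. -/
def F3S : Prop := ∀ (ι X κ : Type) [Fintype ι] [DecidableEq ι] [TopologicalSpace X] [T2Space X]
  [CompactSpace X] [Nonempty X] [Fintype κ] (M : Atl ι X) (g : X → Mat ι) (U : κ → Set X)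
  (a : κ → X → Cv ι) (f : κ → κ → X → ℝ), M.IsK g → (∀ i, IsOpen (U i)) → (∀ x, ∃ i, x ∈ U i) →
  (∀ x, {i | x ∈ U i}.ncard ≤ 2 * Fintype.card ι) → (∀ i, Prim M g (a i) (U i)) →
  (∀ i k, Dif M (a i) (a k) (f i k) (U i ∩ U k)) → False

end Pool.Agent.Lib.MP_813db1_ag.AS
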