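import Pool.Agent.Lib.MP_813db1_ag.AS.Top
import Pool.Agent.Lib.MP_813db1_ag.HS.Stmt2

/-! Twisted Kaehler-Einstein metrics for nef canonical classes: statements. -/

namespace Pool.Agent.Lib.MP_813db1_ag.AS

open Pool.Agent.Lib.MP_813db1_ag.HS
open MeasureTheory Complex Matrix Filter Topology Set Metric
open scoped ContDiff ComplexOrder Manifold

/-- the canonical class is nef. -/
def NefA {ι X : Type} [Fintype ι] [DecidableEq ι] [TopologicalSpace X] (M : Atl ι X)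
    (g : X → Mat ι) : Prop :=
  ∀ ε : ℝ, 0 < ε → ∃ w, M.Ck ∞ w ∧ ∀ x, (-M.ricF g x + M.ddc w x + (ε : ℂ) • g x).PosSemidef

/-- twisted Kaehler-Einstein metrics. -/
def SolA : Prop := ∀ (ι X : Type) [Fintype ι] [DecidableEq ι] [Nonempty ι] [TopologicalSpace X]
  [T2Space X] [CompactSpace X] [MeasurableSpace X] [BorelSpace X] (M : Atl ι X) (g : X → Mat ι),
  M.IsK g → NefA M g → ∀ ε ∈ Ioc (0 : ℝ) 1, ∃ u, M.Sol g ε u

/-- their Ricci curvature and volume. -/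
def SolB : Prop := ∀ (ι X : Type) [Fintype ι] [DecidableEq ι] [TopologicalSpace X]
  [T2Space X] [CompactSpace X] [Nonempty X] [MeasurableSpace X] [BorelSpace X] (M : Atl ι X)
  (g : X → Mat ι) (μ : Measure X), M.IsK g → M.IsVol g μ →
  (∀ ε > (0 : ℝ), ∀ u, M.Sol g ε u → ∀ x, (M.ricF (M.hm g ε u) x + M.hm g ε u x).PosSemidef) ∧
  (M.vol μ g 0 ≤ 0 → ∀ v > (0 : ℝ), ∃ ε ∈ Ioc (0 : ℝ) 1, ∀ u ν, M.Sol g ε u →
    M.IsVol (M.hm g ε u) ν → ν.real univ ≤ v)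

/-- nef canonical bundles of positive volume are big. -/
def BigS : Prop := ∀ (ι X : Type) [Fintype ι] [DecidableEq ι] [Nonempty ι] [TopologicalSpace X]
  [T2Space X] [CompactSpace X] [ConnectedSpace X] [MeasurableSpace X] [BorelSpace X] (M : Atl ι X)
  (g : X → Mat ι) (μ : Measure X), M.IsK g → M.IsVol g μ →
  (∀ ε ∈ Ioc (0 : ℝ) 1, ∃ u, M.Sol g ε u) → 0 < M.vol μ g 0 →
  ∃ c : ℝ, 0 < c ∧ ∀ᶠ a : ℕ in atTop, ∃ (Q : ℕ) (σ : Fin Q → X → ℂ),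
    c * (a : ℝ) ^ Fintype.card ι ≤ Q ∧ (∀ j, M.HolS a (σ j)) ∧ LinearIndependent ℂ σ

/-- the theorem. -/
def MainS : Prop := ∀ (ι X Y G : Type) [Fintype ι] [DecidableEq ι] [Nonempty ι]
  [TopologicalSpace X] [T2Space X] [CompactSpace X] [ConnectedSpace X] [ChartedSpace (ι → ℂ) X]
  [IsManifold 𝓘(ℂ, ι → ℂ) ω X] [TopologicalSpace Y] [SimplyConnectedSpace Y] [Group G]
  [MulAction G Y] (K : Kahler ι X) (p : Y → X), IsQuotientCoveringMap p G → NefK K → Exact K p →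
  NoAb G ∨ FinRep G → ∃ c : ℝ, 0 < c ∧ ∀ᶠ a : ℕ in atTop, ∃ (Q : ℕ)
    (s : Fin Q → OpenPartialHomeomorph X (ι → ℂ) → (ι → ℂ) → ℂ),
    c * (a : ℝ) ^ Fintype.card ι ≤ Q ∧ (∀ j, IsPluri a (s j)) ∧ Indep s

end Pool.Agent.Lib.MP_813db1_ag.AS
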