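import Pool.Agent.Lib.MP_813db1_ag.AS.Top
import Pool.Agent.Lib.MP_bbd4b9_ag.HR.Stmt

/-! The group theory: a Margulis lemma with a rank bound, the choice of a scale, commensurated
nilpotent subgroups and central extensions. -/

namespace Pool.Agent.Lib.MP_813db1_ag.AS

open Filter Topology Set Metric Pool.Agent.Lib.MP_bbd4b9_ag
open scoped Pointwise Classical

noncomputable section

/-! ### definitions -/

/-- a normed group with a covering bound on the scales in `[δ, 1]`, generated at scale `δ`. -/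
structure NG (Q : Type) [Group Q] (ν : Q → ℝ) (C : ℝ) (d : ℕ) (δ : ℝ) : Prop where
  pos : 0 < δ
  one : ν 1 = 0
  inv : ∀ g, ν g⁻¹ = ν g
  mul : ∀ g h, ν (g * h) ≤ ν g + ν h
  fin : {g | ν g < 1}.Finite
  cov : ∀ r R : ℝ, δ ≤ r → r ≤ R → R ≤ 1 → ∃ T : Finset Q, (T.card : ℝ) ≤ C * (R / r) ^ d ∧
    ∀ g, ν g < R → ∃ t ∈ T, ν (t⁻¹ * g) < r
  gen : Subgroup.closure {g | ν g < δ} = ⊤

/-- the quotient norm. -/
def qn {Q Q' : Type} [Group Q] [Group Q'] (f : Q →* Q') (ν : Q → ℝ) (q : Q') : ℝ :=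
  sInf (ν '' (f ⁻¹' {q}))

/-- decreasing chains of subgroups of `K` have at most `n` steps of infinite index. -/
def Rk {Q : Type} [Group Q] (K : Subgroup Q) (n : ℕ) : Prop :=
  ∀ (s : ℕ → Subgroup Q) (T : Finset ℕ), s 0 ≤ K → Antitone s →
    (∀ i ∈ T, (s (i + 1)).relIndex (s i) = 0) → T.card ≤ n

/-- a sequence of normed groups with uniformly totally bounded balls. -/
structure NSU (G : ℕ → Type) [∀ j, Group (G j)] (n : ∀ j, G j → ℝ) : Prop where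
  one : ∀ j, n j 1 = 0
  inv : ∀ j g, n j g⁻¹ = n j g
  mul : ∀ j g h, n j (g * h) ≤ n j g + n j h
  fin : ∀ R, ∀ᶠ j in atTop, {g | n j g ≤ R}.Finite
  cov : ∀ R ε : ℝ, 0 < ε → ∃ C : ℕ, ∀ᶠ j in atTop, ∃ X : Finset (G j), X.card ≤ C ∧
    ∀ g, n j g ≤ R → ∃ x ∈ X, n j (x⁻¹ * g) ≤ ε

/-- a good model for a sequence of normed groups. -/
structure ModU (G : ℕ → Type) [∀ j, Group (G j)] (n : ∀ j, G j → ℝ) (L : Type) [Group L]
    [TopologicalSpace L] where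
  U : Ultrafilter ℕ
  le : (U : Filter ℕ) ≤ atTop
  Γ : Subgroup (∀ j, G j)
  π : Γ →* L
  surj : Function.Surjective π
  bd : ∀ g ∈ Γ, ∃ R, ∀ᶠ j in U, n j (g j) ≤ R
  cpt : ∃ C : Set L, IsCompact C ∧ ∀ g : ∀ j, G j, Tendsto (fun j => n j (g j)) U (𝓝 0) →
    ∃ h : g ∈ Γ, π ⟨g, h⟩ ∈ C
  int : ∀ K W : Set L, IsCompact K → IsOpen W → K ⊆ W → ∃ A : ∀ j, Finset (G j),
    (∀ g : Γ, π g ∈ K → ∀ᶠ j in U, g.1 j ∈ A j) ∧
    ∀ g : ∀ j, G j, (∀ᶠ j in U, g j ∈ A j) → ∃ h : g ∈ Γ, π ⟨g, h⟩ ∈ W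

/-- a discrete cocompact isometric action on a `δ`-geodesic space with a covering bound. -/
structure Geo (G Y : Type) [Group G] [MulAction G Y] [PseudoMetricSpace Y] (C : ℝ) (m : ℕ)
    (δ D : ℝ) : Prop where
  iso : ∀ (g : G) (y y' : Y), dist (g • y) (g • y') = dist y y'
  geo : ∀ (y y' : Y) (L : ℝ), dist y y' < L → ∃ (k : ℕ) (s : ℕ → Y), s 0 = y ∧ s k = y' ∧
    (∀ i < k, dist (s i) (s (i + 1)) ≤ δ) ∧ ∑ i ∈ Finset.range k, dist (s i) (s (i + 1)) < L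
  cov : ∀ (y : Y) (r R : ℝ), 0 < r → r ≤ R → R ≤ 1 → ∃ T : Finset Y,
    (T.card : ℝ) ≤ C * (R / r) ^ m ∧ ball y R ⊆ ⋃ t ∈ T, ball t r
  disc : ∃ r > (0 : ℝ), ∀ (y : Y) (g : G), dist y (g • y) < r → g = 1
  diam : ∀ y y' : Y, ∃ g : G, dist y (g • y') ≤ D

/-- the subgroup generated by the elements that move `y` by less than `r`. -/
def Hs (G : Type) {Y : Type} [Group G] [MulAction G Y] [PseudoMetricSpace Y] (y : Y) (r : ℝ) :
    Subgroup G := Subgroup.closure {g | dist y (g • y) < r}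

/-- a central extension by the real line. -/
structure CE (G E : Type) [Group G] [Group E] where
  π : E →* G
  ζ : Multiplicative ℝ →* E
  surj : Function.Surjective π
  inj : Function.Injective ζ
  ker : ∀ x, π x = 1 ↔ ∃ t, ζ t = x
  cen : ∀ t x, ζ t * x = x * ζ t

/-- canonical lifts for the subgroups that are virtually contained in `N`. -/
structure Can {G E : Type} [Group G] [Group E] (c : CE G E) (N : Subgroup G) (T : Set E) :
    Prop where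
  conj : ∀ x ∈ T, ∀ y, y * x * y⁻¹ ∈ T
  inj : ∀ x ∈ T, ∀ y ∈ T, c.π x = c.π y → x = y
  sec : ∀ H : Subgroup G, N.relIndex H ≠ 0 → ∃ τ : H →* E, ∀ h, c.π (τ h) = h ∧ τ h ∈ T

end

/-! ### the Margulis lemma -/

/-- quotients, subgroups and the loss of one dimension. -/
structure NgS : Prop where
  mono : ∀ (Q : Type) [Group Q] (ν : Q → ℝ) (C : ℝ) (d : ℕ) (δ δ' : ℝ), NG Q ν C d δ → δ ≤ δ' →
    NG Q ν C d δ'
  fg : ∀ (Q : Type) [Group Q] (ν : Q → ℝ) (C : ℝ) (d : ℕ) (δ : ℝ), NG Q ν C d δ → δ ≤ 1 →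
    Group.FG Q
  quo : ∀ (Q Q' : Type) [Group Q] [Group Q'] (f : Q →* Q') (ν : Q → ℝ) (C : ℝ) (d : ℕ) (δ : ℝ),
    Function.Surjective f → NG Q ν C d δ → NG Q' (qn f ν) C d δ
  sub : ∀ (Q : Type) [Group Q] (ν : Q → ℝ) (C : ℝ) (d : ℕ) (δ lam : ℝ) (S : Set Q),
    NG Q ν C d δ → 2 * δ ≤ lam → (∀ g ∈ S, ν g < lam) →
    NG (Subgroup.closure S) (fun g => ν g) (2 ^ d * C) d lam
  drop : ∀ (Q Q' : Type) [Group Q] [Group Q'] (f : Q →* Q') (ν : Q → ℝ) (C : ℝ) (d : ℕ)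
    (δ lam : ℝ) (S : Set Q), Function.Surjective f → NG Q ν C (d + 1) δ → 2 * δ ≤ lam →
    (∀ g ∈ S, ν g < lam) → f.ker = Subgroup.closure S → Infinite f.ker →
    NG Q' (fun q => 2 * qn f ν q) (3 * 4 ^ (d + 1) * C) d (2 * lam)
  zero : ∀ C : ℝ, ∃ δ > (0 : ℝ), ∀ (Q : Type) [Group Q] (ν : Q → ℝ), NG Q ν C 0 δ → Finite Q

/-- the rank. -/
structure RkS : Prop where
  fin : ∀ (Q : Type) [Group Q] (K : Subgroup Q), Finite K → Rk K 0
  cyc : ∀ (Q : Type) [Group Q] (u : Q), Rk (Subgroup.zpowers u) 1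
  ext : ∀ (Q Q' : Type) [Group Q] [Group Q'] (f : Q →* Q') (a b : ℕ), Rk f.ker a →
    Rk (⊤ : Subgroup Q') b → Rk (⊤ : Subgroup Q) (a + b)
  top : ∀ (Q : Type) [Group Q] (K : Subgroup Q) (n : ℕ), Rk (⊤ : Subgroup K) n ↔ Rk K n
  virt : ∀ (Q : Type) [Group Q] (K K' : Subgroup Q) (n : ℕ), K.relIndex K' ≠ 0 → Rk K n → Rk K' n
  lt : ∀ (Q : Type) [Group Q] (K K' : Subgroup Q) (n : ℕ), K' ≤ K → K'.relIndex K = 0 →
    (Rk K (n + 1) → Rk K' n) ∧ ¬ Rk K 0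
  conj : ∀ (Q : Type) [Group Q] (K : Subgroup Q) (g : Q) (n : ℕ), Rk K n →
    Rk (MulAut.conj g • K) n
  mono : ∀ (Q : Type) [Group Q] (K : Subgroup Q) (n n' : ℕ), n ≤ n' → Rk K n → Rk K n'

/-- the locally compact model. -/
def ModUS : Prop := ∀ (G : ℕ → Type) [∀ j, Group (G j)] (n : ∀ j, G j → ℝ), NSU G n →
  ∃ (L : Type) (_ : Group L) (_ : TopologicalSpace L), IsTopologicalGroup L ∧ T2Space L ∧
    LocallyCompactSpace L ∧ Nonempty (ModU G n L)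

/-- strong approximate groups in a good model. -/
def StrU : Prop := ∀ (G : ℕ → Type) [∀ j, Group (G j)] (n : ∀ j, G j → ℝ) (L : Type) [Group L]
  [TopologicalSpace L] [IsTopologicalGroup L] [T2Space L] [LocallyCompactSpace L]
  (M : ModU G n L), HR.Nss L → ∃ (A : ∀ j, Finset (G j)) (K T₁ : ℕ),
    (∀ N, ∃ T₂, ∀ᶠ j in M.U, HR.Str K T₁ N T₂ (A j)) ∧
    (∀ m : ℕ, ∃ O ∈ 𝓝 (1 : L), ∀ g : M.Γ, M.π g ∈ O → ∀ᶠ j in M.U, HR.Esc (A j) m (g.1 j)) ∧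
    ∀ g : ∀ j, G j, (∀ᶠ j in M.U, g j ∈ A j) → g ∈ M.Γ

/-- almost central elements, with their location. -/
def GleU : Prop := ∀ K T₁ : ℕ, ∃ N : ℕ, ∀ T₂ : ℕ, ∃ m : ℕ, ∀ (G : Type) [Group G] (A : Finset G),
  HR.Str K T₁ N T₂ A → A = {1} ∨ ∃ (u : G) (F : Finset G), u ≠ 1 ∧ u ∈ F ∧ F ⊆ A ∧
    ∀ s, HR.Esc A m s → ∀ f ∈ F, s * f * s⁻¹ ∈ F

/-- short elements with finitely many conjugates. -/
def FcU : Prop := ∀ (C : ℝ) (d : ℕ) (lam : ℝ), 0 < lam → ∃ δ > (0 : ℝ),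
  ∀ (Q : Type) [Group Q] (ν : Q → ℝ), NG Q ν C d δ → Nontrivial Q → ∃ F : Finset Q,
    (∃ u ∈ F, u ≠ 1) ∧ (∀ u ∈ F, ν u < lam) ∧ ∀ g, ∀ u ∈ F, g * u * g⁻¹ ∈ F

/-- facts on virtually nilpotent groups and on finite conjugacy classes. -/
structure VnS : Prop where
  max : ∀ (Q : Type) [Group Q], Group.FG Q → Group.IsVirtuallyNilpotent Q →
    ∃ (T : Subgroup Q) (_ : T.Normal), Finite T ∧
      ∀ N : Subgroup (Q ⧸ T), N.Normal → Finite N → N = ⊥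
  cent : ∀ (Q : Type) [Group Q] (S : Set Q), S.Finite → (∀ u ∈ S, {v | IsConj u v}.Finite) →
    (Subgroup.normalClosure S).FG ∧ ∃ C : Subgroup Q, C.Normal ∧ C.FiniteIndex ∧
      ∀ c ∈ C, ∀ x ∈ Subgroup.normalClosure S, c * x = x * c
  ab : ∀ (Q : Type) [Group Q] (F : Finset Q), (∀ g, ∀ u ∈ F, g * u * g⁻¹ ∈ F) →
    (∀ N : Subgroup Q, N.Normal → Finite N → N = ⊥) →
    (Subgroup.closure (F : Set Q)).Normal ∧ IsMulCommutative (Subgroup.closure (F : Set Q)) ∧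
      ∀ u ∈ Subgroup.closure (F : Set Q), IsOfFinOrder u → u = 1
  cen : ∀ (Q : Type) [Group Q], Group.FG Q → Group.IsNilpotent Q → Infinite Q →
    Infinite (Subgroup.center Q)

/-- the Margulis lemma. -/
def MgS : Prop := ∀ (d : ℕ) (C : ℝ), ∃ f : ℕ, ∃ δ > (0 : ℝ), δ ≤ 1 ∧ ∀ (Q : Type) [Group Q]
  (ν : Q → ℝ), NG Q ν C d δ → Group.IsVirtuallyNilpotent Q ∧ Rk (⊤ : Subgroup Q) f

/-! ### the scale -/

structure GeoS : Prop where
  chain : ∀ (C : ℝ) (m : ℕ) (R r : ℝ), 0 < r → ∃ N : ℕ, ∀ (G Y : Type) [Group G] [MulAction G Y]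
    [PseudoMetricSpace Y] (δ D : ℝ), Geo G Y C m δ D → δ ≤ 1 / 2 → ∀ y : Y, ∃ T : Finset Y,
      T.card ≤ N ∧ ball y R ⊆ ⋃ t ∈ T, ball t r
  fin : ∀ (G Y : Type) [Group G] [MulAction G Y] [PseudoMetricSpace Y] (C : ℝ) (m : ℕ) (δ D : ℝ),
    Geo G Y C m δ D → δ ≤ 1 / 2 → ∀ (y : Y) (R : ℝ), {g : G | dist y (g • y) < R}.Finite
  gen : ∀ (G Y : Type) [Group G] [MulAction G Y] [PseudoMetricSpace Y] (C : ℝ) (m : ℕ) (δ D : ℝ),
    Geo G Y C m δ D → δ ≤ 1 / 2 → ∀ y : Y, Hs G y (2 * D + 1) = ⊤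
  ng : ∀ (G Y : Type) [Group G] [MulAction G Y] [PseudoMetricSpace Y] (C : ℝ) (m : ℕ) (δ D : ℝ),
    Geo G Y C m δ D → δ ≤ 1 / 2 → ∀ (y : Y) (r : ℝ), 0 < r →
    NG (Hs G y r) (fun g => dist y ((g : G) • y)) (2 ^ m * C) m r
  conj : ∀ (G Y : Type) [Group G] [MulAction G Y] [PseudoMetricSpace Y] (C : ℝ) (m : ℕ) (δ D : ℝ),
    Geo G Y C m δ D → ∀ (y : Y) (r : ℝ) (g : G), Hs G (g • y) r = MulAut.conj g • Hs G y r
  cos : ∀ (G Y : Type) [Group G] [MulAction G Y] [PseudoMetricSpace Y] (C : ℝ) (m : ℕ) (δ D : ℝ),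
    Geo G Y C m δ D → ∀ (x y : Y) (R r r' : ℝ) (T : Finset Y), dist x y ≤ R → 0 < r' →
    r' * T.card ≤ 1 → ball y (2 * R + 1) ⊆ ⋃ t ∈ T, ball t (r / 2) →
    (Hs G y r).relIndex (Hs G x r') ≠ 0

/-- the choice of the scale. -/
def ScS : Prop := ∀ (C D : ℝ) (m : ℕ), ∃ w > (0 : ℝ), ∃ N₀ : ℕ, ∀ (G Y : Type) [Group G]
  [MulAction G Y] [PseudoMetricSpace Y] [Nonempty Y] (δ : ℝ), Geo G Y C m δ D → δ ≤ 1 / 2 →
    Group.FG G ∧ (∃ y : Fin N₀ → Y, ∀ z, ∃ (i : Fin N₀) (g : G), dist (y i) (g • z) < w) ∧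
    ∃ N : Subgroup G, N.FG ∧ Group.IsVirtuallyNilpotent N ∧ Cmn N ∧
      ∀ y : Y, N.relIndex (Hs G y (10 * w)) ≠ 0

/-! ### algebra -/

structure FrS : Prop where
  quo : ∀ (G Q : Type) [Group G] [Group Q] (f : G →* Q), Function.Surjective f → FinRep G →
    FinRep Q
  sub : ∀ (G : Type) [Group G] (H : Subgroup G), H.FiniteIndex → FinRep G → FinRep H
  real : ∀ (G : Type) [Group G] (φ : G →* Multiplicative ℝ), FinRep G → ∀ g, φ g = 1
  ab : ∀ (G W : Type) [Group G] [Group W] (φ : G →* W), Group.FG G → FinRep G →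
    (Subgroup.center W).FiniteIndex → Finite φ.range

/-- the representation on a commensurated abelian subgroup. -/
def RepS : Prop := ∀ (Q : Type) [Group Q] (A : Subgroup Q), Group.FG Q → FinRep Q → A.FG →
  IsMulCommutative A → Cmn A → Infinite A →
  ∃ a ∈ A, ¬ IsOfFinOrder a ∧ {v | IsConj a v}.Finite

/-- commensurated nilpotent subgroups contain commensurated abelian subgroups. -/
def ComS : Prop := ∀ (Q : Type) [Group Q] (N : Subgroup Q), N.FG → Group.IsVirtuallyNilpotent N →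
  Cmn N → Infinite N → ∃ A ≤ N, A.FG ∧ IsMulCommutative A ∧ Cmn A ∧ Infinite A

/-- the second term of the series of finite conjugacy classes is the first. -/
def Fc2S : Prop := ∀ (G Q : Type) [Group G] [Group Q] (f : G →* Q), Group.FG G → FinRep G →
  Function.Surjective f → (∀ g, f g = 1 → {v | IsConj g v}.Finite) →
  ∀ a, {v | IsConj (f a) v}.Finite → {v | IsConj a v}.Finite

/-- commensurated nilpotent subgroups are virtually central. -/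
def ZS : Prop := ∀ (G : Type) [Group G] (N : Subgroup G), Group.FG G → FinRep G → N.FG →
  Group.IsVirtuallyNilpotent N → Cmn N → ∃ Z G₁ : Subgroup G, Z.Normal ∧ G₁.Normal ∧
    G₁.FiniteIndex ∧ Z ≤ G₁ ∧ (∀ z ∈ Z, ∀ g ∈ G₁, z * g = g * z) ∧ Z.relIndex N ≠ 0

/-- canonical lifts. -/
def CanS : Prop := ∀ (G E : Type) [Group G] [Group E] (c : CE G E) (Z G₁ : Subgroup G), Z.Normal →
  G₁.Normal → G₁.FiniteIndex → Z ≤ G₁ → (∀ z g, c.π z ∈ Z → c.π g ∈ G₁ → z * g = g * z) →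
  ∃ T, Can c Z T

/-- the algebraic part. -/
def AlgS : Prop := ∀ (G E : Type) [Group G] [Group E] (c : CE G E) (N : Subgroup G), Group.FG G →
  NoAb G ∨ FinRep G → N.FG → Group.IsVirtuallyNilpotent N → Cmn N → ∃ T, Can c N T

/-- lifts of the action groupoids. -/
def LiftS : Prop := ∀ (G E κ : Type) [Group G] [Group E] (c : CE G E) (N : Subgroup G) (T : Set E)
  (H : κ → Subgroup G), Can c N T → (∀ i, N.relIndex (H i) ≠ 0) →
  ∃ (L : ∀ i, G → G ⧸ H i → E) (lam : ∀ i k, G ⧸ H i → G ⧸ H k → ℝ),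
    (∀ i g q, c.π (L i g q) = g) ∧ (∀ i g g' q, L i (g * g') q = L i g (g' • q) * L i g' q) ∧
    ∀ i k g q q', L i g q =
      L k g q' * c.ζ (Multiplicative.ofAdd (lam i k (g • q) (g • q') - lam i k q q'))

end Pool.Agent.Lib.MP_813db1_ag.AS
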