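import Pool.Agent.Lib.MP_813db1_ag.AS.Top2
import Pool.Agent.Lib.MP_813db1_ag.AS.StmtG
import Pool.Agent.Lib.MP_813db1_ag.AS.FDefs

/-! Statements for an arbitrary connected normal covering and an arbitrary closed two-form. -/

namespace Pool.Agent.Lib.MP_813db1_ag.AS

open Pool.Agent.Lib.MP_813db1_ag.HS MeasureTheory Filter Topology Set
open scoped ContDiff Manifold

/-- the central extension. -/
def ExtS2 : Prop := ∀ (ι X Y G : Type) [Fintype ι] [TopologicalSpace X] [TopologicalSpace Y]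
  [Group G] [MulAction G Y] [ConnectedSpace Y] (S : Set (Ch ι X)) (p : Y → X)
  (α : Ch ι X → Y → V ι →L[ℝ] ℝ) (v : G → Y → ℝ), (∀ x, ∃ e ∈ S, x ∈ e.source) →
  IsQuotientCoveringMap p G →
  (∀ e ∈ S, ∀ z ∈ e.target, ∀ s : V ι → Y, ContinuousAt s z →
    (∀ᶠ w in 𝓝 z, p (s w) = e.symm w) → ∀ g, ContDiffAt ℝ ∞ (fun w => v g (s w)) z ∧
      fderiv ℝ (fun w => v g (s w)) z = α e (g • s z) - α e (s z)) →
  ∃ (E : Type) (_ : Group E) (c : CE G E) (u : E → Y → ℝ),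
    (∀ x x' y, u (x * x') y = u x (c.π x' • y) + u x' y) ∧
    (∀ t y, u (c.ζ (Multiplicative.ofAdd t)) y = t) ∧
    ∀ x, ∀ e ∈ S, ∀ z ∈ e.target, ∀ s : V ι → Y, ContinuousAt s z →
      (∀ᶠ w in 𝓝 z, p (s w) = e.symm w) → ContDiffAt ℝ ∞ (fun w => u x (s w)) z ∧
        fderiv ℝ (fun w => u x (s w)) z = α e (c.π x • s z) - α e (s z)

/-- `a` is a smooth primitive on `U` of the two-form `W` (values in the preferred charts). -/
def Prim2 {ι X : Type} [Fintype ι] [DecidableEq ι] [TopologicalSpace X] (M : Atl ι X)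
    (W : X → V ι → V ι → ℝ) (a : X → Cv ι) (U : Set X) : Prop :=
  (∀ e ∈ M.A, ∀ z ∈ e.target, e.symm z ∈ U → ContDiffAt ℝ ∞ (rep1 M a e) z) ∧
    ∀ x ∈ U, ∀ u v, fderiv ℝ (rep1 M a (M.ch x)) (M.ch x x) u v -
      fderiv ℝ (rep1 M a (M.ch x)) (M.ch x x) v u = W x u v

/-- the top power vanishes in cohomology. -/
def F3S2 : Prop := ∀ (ι X κ : Type) [Fintype ι] [DecidableEq ι] [Nonempty ι] [TopologicalSpace X]
  [T2Space X] [CompactSpace X] [MeasurableSpace X] [BorelSpace X] [Fintype κ] (M : Atl ι X)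
  (g : X → Mat ι) (μ : Measure X) (W : X → V ι → V ι → ℝ) (U : κ → Set X) (a : κ → X → Cv ι)
  (f : κ → κ → X → ℝ), M.IsK g → M.IsVol g μ → (∀ i, IsOpen (U i)) → (∀ x, ∃ i, x ∈ U i) →
  (∀ x, {i | x ∈ U i}.ncard ≤ 2 * Fintype.card ι) → (∀ i, Prim2 M W (a i) (U i)) →
  (∀ i k, Dif M (a i) (a k) (f i k) (U i ∩ U k)) → ∫ x, topF (W x) / (g x).det.re ∂μ = 0

/-- a cover of small multiplicity by sets with almost nilpotent monodromy does not exist. -/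
def VanS2 : Prop := ∀ (ι X Y G κ : Type) [Fintype ι] [DecidableEq ι] [Nonempty ι]
  [TopologicalSpace X] [T2Space X] [CompactSpace X] [MeasurableSpace X] [BorelSpace X]
  [ChartedSpace (ι → ℂ) X] [TopologicalSpace Y] [ConnectedSpace Y] [Group G] [MulAction G Y]
  [Fintype κ] (K : Kahler ι X) (M : Atl ι X) (g : X → Mat ι) (p : Y → X) (N : Subgroup G)
  (H : κ → Subgroup G) (U : κ → Set X) (k : ∀ i, Y → G ⧸ H i), atlas (ι → ℂ) X ⊆ M.A →
  (∀ x, M.ch x = chartAt (ι → ℂ) x) → M.IsK g →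
  (∀ e ∈ atlas (ι → ℂ) X, ∀ z ∈ e.target, M.repF g e z = K.g e z) → IsQuotientCoveringMap p G →
  Ess G K p → Group.FG G → NoAb G ∨ FinRep G → N.FG → Group.IsVirtuallyNilpotent N → Cmn N →
  (∀ i, N.relIndex (H i) ≠ 0) → (∀ i, IsOpen (U i)) → (∀ x, ∃ i, x ∈ U i) →
  (∀ x, {i | x ∈ U i}.ncard ≤ 2 * Fintype.card ι) →
  (∀ i (γ : G) y, p y ∈ U i → k i (γ • y) = γ • k i y) →
  (∀ i y, p y ∈ U i → ∀ᶠ y' in 𝓝 y, k i y' = k i y) → False

/-- the case of the universal covering and the Kaehler form. -/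
def EssS : Prop := ∀ (ι X Y G : Type) [Fintype ι] [DecidableEq ι] [TopologicalSpace X] [T2Space X]
  [CompactSpace X] [Nonempty X] [MeasurableSpace X] [BorelSpace X] [ChartedSpace (ι → ℂ) X]
  [IsManifold 𝓘(ℂ, ι → ℂ) ω X] [TopologicalSpace Y] [SimplyConnectedSpace Y] [Group G]
  [MulAction G Y] (K : Kahler ι X) (p : Y → X), IsQuotientCoveringMap p G → Exact K p → Ess G K p

/-- the theorem. -/
def MainS2 : Prop := ∀ (ι X Y G : Type) [Fintype ι] [DecidableEq ι] [Nonempty ι]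
  [TopologicalSpace X] [T2Space X] [CompactSpace X] [ConnectedSpace X] [MeasurableSpace X]
  [BorelSpace X] [ChartedSpace (ι → ℂ) X] [IsManifold 𝓘(ℂ, ι → ℂ) ω X] [TopologicalSpace Y]
  [ConnectedSpace Y] [Group G] [MulAction G Y] (K : Kahler ι X) (p : Y → X),
  IsQuotientCoveringMap p G → NefK K → Ess G K p → NoAb G ∨ FinRep G →
  ∃ c : ℝ, 0 < c ∧ ∀ᶠ a : ℕ in atTop, ∃ (Q : ℕ)
    (s : Fin Q → OpenPartialHomeomorph X (ι → ℂ) → (ι → ℂ) → ℂ),
    c * (a : ℝ) ^ Fintype.card ι ≤ Q ∧ (∀ j, IsPluri a (s j)) ∧ Indep s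

end Pool.Agent.Lib.MP_813db1_ag.AS
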