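import Pool.Agent.Lib.MP_813db1_ag.AS.Ext
import Pool.Agent.Lib.MP_813db1_ag.AS.Stmt3

/-! The central extension for a connected covering. -/

namespace Pool.Agent.Lib.MP_813db1_ag.AS

open Filter Topology Set
open scoped ContDiff

theorem extT : ExtS2 := by
  intro ι X Y G _ _ _ _ _ _ A p α v hA hq h
  have := hq.toContinuousConstSMul
  have hp := hq.isCoveringMap.isLocalHomeomorph
  have hG : ∀ (g : G) y, p (g • y) = p y := fun g _ => hq.map_smul g
  have hz : ∀ t : ℝ, (⟨1, fun _ => t⟩ : SD G Y) ∈ ext hG A α := fun t y e _ s z _ _ => by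
    change HasFDerivAt (fun _ => t) (α e ((1 : G) • y) - α e y) z
    rw [one_smul, sub_self]
    exact hasFDerivAt_const _ _
  obtain ⟨y₀⟩ : Nonempty Y := inferInstance
  refine ⟨ext hG A α, inferInstance,
    { π := MonoidHom.mk' (fun x => x.1.g) fun _ _ => rfl
      ζ := MonoidHom.mk' (fun t => ⟨_, hz t.toAdd⟩) fun a b =>
        Subtype.ext (SD.ext (one_mul _).symm rfl)
      surj := fun g => ⟨⟨⟨g, v g⟩, fun y e he s z hs hy => ?_⟩, rfl⟩
      inj := fun a b h => congrFun (congrArg (fun x : ext hG A α => x.1.u) h) y₀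
      ker := fun x => ⟨fun h => ?_, ?_⟩
      cen := fun t x => Subtype.ext (SD.ext ((one_mul _).trans (mul_one _).symm) (funext fun y => ?_)) },
    fun x => x.1.u, fun _ _ _ => rfl, fun _ _ => rfl, fun x e he z hz s h3 h4 => ?_⟩
  · obtain ⟨a, b⟩ := h e he z hs.mem s hs.cont hs.ev g
    subst hy
    have c := (a.differentiableAt (by simp)).hasFDerivAt
    rwa [b] at c
  · have h' : x.1.g = 1 := h
    have a : IsLocallyConstant x.1.u := (IsLocallyConstant.iff_eventually_eq _).2 fun y => by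
      obtain ⟨c, hc⟩ := PrAt.const hp hA (y := y) (Eventually.of_forall x.2)
        (Eventually.of_forall (by rw [h']; exact hz 0))
      filter_upwards [hc] with w hw
      rw [hw, hc.self_of_nhds]
    exact ⟨Multiplicative.ofAdd (x.1.u y₀), Subtype.ext (SD.ext h'.symm
      (funext fun y => a.apply_eq_of_preconnectedSpace _ _))⟩
  · rintro ⟨t, rfl⟩
    rfl
  · change t.toAdd + x.1.u y = x.1.u ((1 : G) • y) + t.toAdd
    rw [one_smul, add_comm]
  · refine ⟨PrAt.smooth hp x.2 he ⟨hz, h3, h4⟩ ?_, (x.2 _ e he s z ⟨hz, h3, h4⟩ rfl).fderiv⟩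
    refine ((h e he z hz s h3 h4 x.1.g).1.fderiv_right (m := ∞) le_rfl).congr_of_eventuallyEq ?_
    filter_upwards [(⟨hz, h3, h4⟩ : Sec p e s z).near hp] with w hw
    exact (h e he w hw.mem s hw.cont hw.ev x.1.g).2.symm

end Pool.Agent.Lib.MP_813db1_ag.AS
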