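import Pool.Agent.Lib.MP_813db1_ag.AS.F3
import Pool.Agent.Lib.MP_813db1_ag.AS.Stmt3

/-! The top power of a two-form with primitives on a cover of small multiplicity vanishes. -/

namespace Pool.Agent.Lib.MP_813db1_ag.AS

open Pool.Agent.Lib.MP_813db1_ag.HS Pool.Agent.Lib.MP_813db1_ag.HS.RepA Pf
open MeasureTheory Filter Topology Set Function Matrix
open scoped ContDiff ComplexOrder

namespace F3

variable {ι X : Type} [Fintype ι] [DecidableEq ι] [TopologicalSpace X] {M : Atl ι X}

theorem bs_eq (q : ι × Fin 2) : bs ι q = reB q := by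
  obtain ⟨i, s⟩ := q
  simp only [bs, Module.Basis.reindex_apply, Equiv.sigmaEquivProd_symm_apply, Pi.basis_apply, reB]
  fin_cases s <;> simp

theorem top_eq {W : V ι → V ι → ℝ} {B : Bil (V ι)} (h : ∀ u v, B u v - B v u = W u v) :
    topF W = 2 ^ Fintype.card ι * P (fun _ => B) (bs ι) := by
  rw [P_alt, P, topF, Finset.mul_sum]
  refine Finset.sum_congr rfl fun σ _ => ?_
  simp only [alt_apply, h, bs_eq, Finset.prod_mul_distrib, Finset.prod_const, Finset.card_univ, sg]
  rw [mul_left_comm, ← mul_assoc (2 ^ _), ← mul_pow]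
  norm_num

theorem alt_chart {W : X → V ι → V ι → ℝ} {a : X → Cv ι} {U : Set X} (h : Prim2 M W a U)
    {e : Ch ι X} (he : e ∈ M.A) {z : V ι} (hz : z ∈ e.target) (hU : e.symm z ∈ U) (u v : V ι) :
    fderiv ℝ (rep1 M a e) z u v - fderiv ℝ (rep1 M a e) z v u =
      W (e.symm z) (fderiv ℝ (M.ch (e.symm z) ∘ e.symm) z u)
        (fderiv ℝ (M.ch (e.symm z) ∘ e.symm) z v) := by
  obtain ⟨x, hx, rfl⟩ : ∃ x ∈ e.source, e x = z := ⟨_, e.map_target hz, e.right_inv hz⟩
  rw [e.left_inv hx] at hU ⊢
  rw [(rep1_ev a he (M.ch_mem x) hx (M.mem x)).fderiv_eq, alt_pull (by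
      rw [tr_apply _ hx]; exact df (Sm.at h.1 (M.ch_mem x) (M.mem x) hU))
      (tr_cd he (M.ch_mem x) hx (M.mem x)), tr_apply _ hx, h.2 x hU]

end F3

open F3 in
theorem f3S2 (hp : PouS) : F3S2 := by
  intro ι X κ _ _ _ _ _ _ _ _ _ M g μ W U a f hg hμ hU hc hm ha hf
  classical
  have hv := (volS (repA mat) mat ι X M g hg).2 μ hμ
  obtain ⟨χ, x1, x2⟩ := hp ι X M κ U hU hc
  choose i hi using hc
  have mt : ∀ x, M.ch x x ∈ (M.ch x).target := fun x => (M.ch x).map_source (M.mem x)
  have li : ∀ x, (M.ch x).symm (M.ch x x) = x := fun x => (M.ch x).left_inv (M.mem x)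
  let γ : X → Cv ι := fun x => ∑ j, χ j x • a j x + ∑ j, ∑ k, (χ k x * f j k x) • dd M (χ j) x
  have rg : ∀ e ∈ M.A, ∀ z ∈ e.target, rep1 M γ e =ᶠ[𝓝 z] fun y =>
      ∑ j, (χ j ∘ e.symm) y • rep1 M (a j) e y +
        ∑ j, ∑ k, ((χ k ∘ e.symm) y * (f j k ∘ e.symm) y) • fderiv ℝ (χ j ∘ e.symm) y := by
    intro e he z hz
    filter_upwards [e.open_target.mem_nhds hz] with y hy
    simp only [← fun j => rep1_dd (x1 j).1 he hy]
    simp only [rep1, γ, ContinuousLinearMap.add_comp, ContinuousLinearMap.finsetSum_comp,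
      ContinuousLinearMap.smul_comp, Function.comp_apply]
  have loc := fun e (he : e ∈ M.A) z (hz : z ∈ e.target) => loc_alt (χ := fun j => χ j ∘ e.symm)
    (a := fun j => rep1 M (a j) e) (f := fun j k => f j k ∘ e.symm) (z := z)
    (S := fun j => e.symm z ∈ U j) (w := fun u v => W (e.symm z)
      (fderiv ℝ (M.ch (e.symm z) ∘ e.symm) z u) (fderiv ℝ (M.ch (e.symm z) ∘ e.symm) z v))
    (fun j => contDiffAt_ofReal.1 ((x1 j).1 e he z hz)) (fun y => x2 _)
    (fun j h => ev_zero (x1 j).2.2 hz h) 
    (fun j h => ⟨(ha j).1 e he z hz h, alt_chart (ha j) he hz h⟩)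
    fun j k h h' => hf j k e he z hz ⟨h, h'⟩
  have sγ : ∀ T, Sm M γ T := fun T e he z hz _ =>
    (loc e he z hz).1.congr_of_eventuallyEq (rg e he z hz)
  have sa : ∀ j, Sm M (a j) (U j) := fun j => (ha j).1
  have aW : ∀ j, ∀ x ∈ U j, ∀ u v, nab M (a j) x u v - nab M (a j) x v u = W x u v :=
    fun j => (ha j).2
  have van : ∀ x, P (fun _ => nab M (a (i x)) x - nab M γ x) (bs ι) = 0 := fun x => by
    obtain ⟨-, l2, l3⟩ := loc _ (M.ch_mem x) _ (mt x)
    obtain ⟨w, h1, h2⟩ := ker _ (S := {j | x ∈ U j}) (hi x) (by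
      rw [Module.finrank_eq_card_basis (bs ι), Fintype.card_prod, Fintype.card_fin, mul_comm]
      exact hm x) (fun j h => by
        rw [(ev_zero (x1 j).2.2 (mt x) (by rwa [li])).fderiv_eq]; simp) l2
    refine P_zero _ _ h1 fun _ u => ?_
    have h3 := l3 w u h2
    rw [← (rg _ (M.ch_mem x) _ (mt x)).fderiv_eq,
      ← alt_chart (ha (i x)) (M.ch_mem x) (mt x) (by rw [li]; exact hi x)] at h3
    simp only [_root_.sub_apply, nab] at h3 ⊢
    linarith
  have op : ∀ y, IsOpen ((M.ch y).source ∩ U (i y)) := fun y => (M.ch y).open_source.inter (hU _)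
  obtain ⟨t, ht⟩ := isCompact_univ.elim_finite_subcover _ op fun x _ =>
    mem_iUnion.2 ⟨x, M.mem x, hi x⟩
  obtain ⟨ψ, y1, y2⟩ := hp ι X M t (fun s => (M.ch s).source ∩ U (i s)) (fun s => op s) fun x => by
    obtain ⟨s, s1, s2⟩ := mem_iUnion₂.1 (ht (mem_univ x))
    exact ⟨⟨s, s1⟩, s2⟩
  have sη : ∀ s T, Sm M (fun x => ψ s x • γ x) T := fun s T e he z hz h =>
    (contDiffAt_ofReal.1 ((y1 s).1 e he z hz)).smul (sγ T e he z hz h)
  have sn : ∀ x, nab M γ x = ∑ s, nab M (fun x => ψ s x • γ x) x := fun x => by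
    simp only [nab]
    rw [← fderiv_fun_sum fun s _ => df ((sη s univ).at (M.ch_mem x) (M.mem x) trivial)]
    congr 1
    funext z
    simp only [rep1, ← ContinuousLinearMap.finsetSum_comp, ← Finset.sum_smul, y2, one_smul]
  let B : Finset ι → X → ι → Bil (V ι) := fun S x =>
    S.piecewise (fun _ => nab M (a (i x)) x - nab M γ x) fun _ => nab M (a (i x)) x
  have := hv.fin
  have ig : ∀ {F : X → ℝ}, Continuous F → Integrable F μ := fun h =>
    h.integrable_of_hasCompactSupport (HasCompactSupport.of_compactSpace _)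
  have key : ∀ S, (Continuous fun x => den g (B ∅) x - den g (B S) x) ∧
      ∫ x, den g (B ∅) x - den g (B S) x ∂μ = 0 := by
    intro S
    induction S using Finset.induction_on with
    | empty => simp [continuous_const]
    | insert k S hk ih =>
      have Z := fun s : t => zero_int hv hg (M.ch_mem s) (hU (i s)) (isClosed_tsupport (ψ s))
        (y1 s).2.2 (B := B S)
        (c := S.piecewise (fun _ x => a (i s) x - γ x) fun _ => a (i s)) (fun l => by
          by_cases c : l ∈ S
          · rw [Finset.piecewise_eq_of_mem _ _ _ c]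
            exact fun e he z hz h => (sa _ e he z hz h).sub (sγ _ e he z hz h)
          · rw [Finset.piecewise_eq_of_notMem _ _ _ c]
            exact sa _) (fun x hx l u v => by
          have h1 := aW _ x hx u v
          have h2 := aW _ x (hi x) u v
          by_cases c : l ∈ S
          · have h3 : nab M (fun x => a (i s) x - γ x) x = nab M (a (i s)) x - nab M γ x :=
              fderiv_fun_sub (df ((sa _).at (M.ch_mem x) (M.mem x) hx))
                (df ((sγ univ).at (M.ch_mem x) (M.mem x) trivial))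
            simp only [B, Finset.piecewise_eq_of_mem _ _ _ c, h3, _root_.sub_apply]
            linarith
          · simp only [B, Finset.piecewise_eq_of_notMem _ _ _ c]
            linarith) (sη s _)
        (fun y hy => by simp [image_eq_zero_of_notMem_tsupport hy]) k
      have e : (fun x => den g (B ∅) x - den g (B (insert k S)) x) = fun x =>
          (den g (B ∅) x - den g (B S) x) + ∑ s : t,
            den g (fun x => update (B S x) k (nab M (fun x => ψ s x • γ x) x)) x := funext fun x => by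
        have h1 : B S x = update (B S x) k (nab M (a (i x)) x) := by
          rw [← Finset.piecewise_eq_of_notMem S (fun _ => nab M (a (i x)) x - nab M γ x)
            (fun _ => nab M (a (i x)) x) hk, update_eq_self]
        have h2 : B (insert k S) x = update (B S x) k (nab M (a (i x)) x - nab M γ x) :=
          Finset.piecewise_insert _ _ _ _
        have h3 := P_sub (B S x) k (nab M (a (i x)) x) (nab M (a (i x)) x - nab M γ x) (bs ι)
        rw [← h1, ← h2, _root_.sub_sub_cancel (nab M (a (i x)) x), sn, P_sum] at h3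
        simp only [den, ← Finset.sum_div, ← h3]
        ring
      have c2 := continuous_finsetSum Finset.univ fun s _ => (Z s).1
      rw [e, integral_add (ig ih.1) (ig c2), ih.2, integral_finsetSum _ fun s _ => ig (Z s).1]
      exact ⟨ih.1.add c2, by simp only [fun s => (Z s).2, Finset.sum_const_zero, add_zero]⟩
  have h := (key Finset.univ).2
  have e : ∀ x, topF (W x) / (g x).det.re =
      2 ^ Fintype.card ι * (den g (B ∅) x - den g (B Finset.univ) x) := fun x => by
    simp only [den, B, Finset.piecewise_empty, Finset.piecewise_univ, van, zero_div, sub_zero]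
    rw [top_eq (aW _ x (hi x)), mul_div_assoc]
  simp only [e]
  rw [integral_const_mul, h, mul_zero]

end Pool.Agent.Lib.MP_813db1_ag.AS
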