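import Pool.Agent.Lib.MP_813db1_ag.AS.F12b

/-! The vanishing step for an arbitrary closed two-form, assembled. -/

namespace Pool.Agent.Lib.MP_813db1_ag.AS

open Pool.Agent.Lib.MP_813db1_ag.HS Filter Topology Set MeasureTheory
open scoped ContDiff

theorem vanS2 (h1 : ExtS2) (h2 : AlgS) (h3 : LiftS) (h4 : F12S2) (h5 : F3S2) (hv : VolS)
    (ha : RepA) : VanS2 := by
  intro ι X Y G κ _ _ _ _ _ _ _ _ _ _ _ _ _ _ K M g p N H U k hA hc hg hr hq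
    ⟨β, α, v, μ', a1, a2, a3, a4⟩ hG hL n1 n2 n3 hH u1 u2 u3 k1 k2
  obtain ⟨E, _, c, u, e1, e2, e3⟩ := h1 ι X Y G _ p α v
    (fun x => ⟨_, chart_mem_atlas _ x, mem_chart_source _ x⟩) hq
    fun e he z hz s s1 s2 => (a2 e he z hz s s1 s2).2
  obtain ⟨T, hT⟩ := h2 G E c N hG hL n1 n2 n3
  obtain ⟨L, lam, l1, l2, l3⟩ := h3 G E κ c N T H hT hH
  obtain ⟨a, f, b1, b2⟩ := h4 ι X Y G E κ M β _ p α c u H L lam U k hA
    (fun x => hc x ▸ chart_mem_atlas _ x) hq a1 (fun e he z hz s s1 s2 => (a2 e he z hz s s1 s2).1)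
    e1 e2 e3 l1 l2 l3 u1 k1 k2
  obtain ⟨⟨μ, hμ⟩, hV⟩ := hv ι X M g hg
  obtain rfl : μ' = μ := by
    refine (hV μ hμ).uniq μ' fun x => ?_
    rw [hμ _ (M.ch_mem x), hc x, a3 _ (chart_mem_atlas _ x)]
    congr 1
    refine withDensity_congr_ae ?_
    filter_upwards [ae_restrict_mem (chartAt (ι → ℂ) x).open_target.measurableSet] with w hw
    rw [hr _ (chart_mem_atlas _ x) w hw]
  have h6 : ∀ x, g x = K.g (chartAt (ι → ℂ) x) (chartAt (ι → ℂ) x x) := fun x => by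
    rw [← (ha ι X M).repF_self g x, hc x, hr _ (chart_mem_atlas _ x) _ (mem_chart_target _ x)]
  have h7 := h5 ι X κ M g μ' _ U a f hg hμ u1 u2 u3 b1 b2
  simp only [h6, hc] at h7
  exact a4 h7

end Pool.Agent.Lib.MP_813db1_ag.AS
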