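import Mathlib

/-! Non collapsed quotients have bounded diameter. -/

namespace Pool.Agent.Lib.MP_813db1_ag.AS

open MeasureTheory Set Metric

/-- a sequence with small steps passes near every intermediate value. -/
theorem diam_mid {f : ℕ → ℝ} {k : ℕ} {t : ℝ} (h0 : f 0 ≤ t + 1 / 2) (hk : t ≤ f k)
    (hs : ∀ i < k, f (i + 1) ≤ f i + 1 / 2) : ∃ i, t ≤ f i ∧ f i ≤ t + 1 / 2 := by
  induction k with
  | zero => exact ⟨0, hk, h0⟩
  | succ k ih =>
    by_cases h : t ≤ f k
    · exact ih h fun i hi => hs i (hi.trans k.lt_succ_self)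
    · exact ⟨k + 1, hk, by linarith [hs k k.lt_succ_self, not_le.1 h]⟩

theorem diam (b r : ℝ) (hb : 0 < b) : ∃ D : ℝ, ∀ (G Z X : Type) [Group G] [MulAction G Z]
    [PseudoMetricSpace Z] [MeasurableSpace X] (q : Z → X) (ν : Measure X) [IsFiniteMeasure ν],
    (∀ (g : G) (y y' : Z), dist (g • y) (g • y') = dist y y') →
    (∀ (y y' : Z) (L : ℝ), dist y y' < L → ∃ (k : ℕ) (s : ℕ → Z), s 0 = y ∧ s k = y' ∧
      (∀ i < k, dist (s i) (s (i + 1)) ≤ 1 / 2) ∧
      ∑ i ∈ Finset.range k, dist (s i) (s (i + 1)) < L) →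
    (∀ z z', q z = q z' → ∃ g : G, z' = g • z) → 0 < ν.real univ →
    (∀ z, ∃ S, MeasurableSet S ∧ b * ν.real univ ≤ ν.real S ∧
      ∀ x ∈ S, ∃ z', q z' = x ∧ dist z z' ≤ r) →
    ∀ z z' : Z, ∃ g : G, dist z (g • z') ≤ D := by
  obtain ⟨N, hN⟩ := exists_nat_gt (1 / b)
  refine ⟨N * (2 * |r| + 1) + 1, fun G Z X _ _ _ _ q ν _ iso geo fib hV hS z z' => ?_⟩
  by_contra hc
  push Not at hc
  set ρ : Z → ℝ := fun w => ⨅ g : G, dist z (g • w) with hρ
  have bd : ∀ w : Z, BddBelow (range fun g : G => dist z (g • w)) := fun w =>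
    ⟨0, by rintro _ ⟨g, rfl⟩; exact dist_nonneg⟩
  have lip : ∀ (w w' : Z) (g : G), ρ w' ≤ ρ w + dist w (g • w') := fun w w' g => by
    rw [← sub_le_iff_le_add]
    refine le_ciInf fun c => ?_
    have h1 : ρ w' ≤ dist z ((c * g) • w') := ciInf_le (bd w') (c * g)
    have h2 := dist_triangle z (c • w) ((c * g) • w')
    rw [mul_smul, iso] at h2
    rw [mul_smul] at h1
    linarith
  have h0 : ρ z ≤ 0 := by simpa using ciInf_le (bd z) (1 : G)
  have h1 : N * (2 * |r| + 1) + 1 ≤ ρ z' := le_ciInf fun g => (hc g).le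
  obtain ⟨k, s, s0, sk, s1, -⟩ := geo z z' _ (lt_add_one _)
  have hr := abs_nonneg r
  have hw : ∀ j : Fin N, ∃ w, j * (2 * |r| + 1) ≤ ρ w ∧ ρ w ≤ j * (2 * |r| + 1) + 1 / 2 := by
    intro j
    have hj : (j : ℝ) ≤ N := by exact_mod_cast j.2.le
    have hj0 : (0 : ℝ) ≤ j * (2 * |r| + 1) := by positivity
    obtain ⟨i, hi⟩ := diam_mid (f := fun i => ρ (s i)) (k := k) (t := j * (2 * |r| + 1))
      (by simp only [s0]; linarith) (by simp only [sk]; nlinarith) fun i hi => by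
        have := lip (s i) (s (i + 1)) 1
        rw [one_smul] at this
        linarith [s1 i hi]
    exact ⟨_, hi⟩
  choose w w1 w2 using hw
  choose S S1 S2 S3 using hS
  have key : ∀ i j : Fin N, i < j → Disjoint (S (w i)) (S (w j)) := fun i j hij => by
    rw [Set.disjoint_left]
    intro x hi hj
    obtain ⟨y, y1, y2⟩ := S3 _ x hi
    obtain ⟨y', y3, y4⟩ := S3 _ x hj
    obtain ⟨g, rfl⟩ := fib y' y (y3.trans y1.symm)
    have a1 := lip (w i) (w j) g
    have a2 := dist_triangle (w i) (g • y') (g • w j)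
    rw [iso, dist_comm y'] at a2
    have a3 : (i : ℝ) + 1 ≤ j := by exact_mod_cast hij
    nlinarith [w1 j, w2 i, le_abs_self r]
  have hd : Pairwise (Function.onFun Disjoint fun i => S (w i)) := fun i j hij => by
    rcases lt_or_gt_of_ne hij with h | h
    · exact key i j h
    · exact (key j i h).symm
  have h2 := measureReal_iUnion_fintype (μ := ν) hd fun i => S1 _
  have h3 : ν.real (⋃ i, S (w i)) ≤ ν.real univ := measureReal_mono (subset_univ _)
  have h4 : ∑ _i : Fin N, b * ν.real univ ≤ ∑ i, ν.real (S (w i)) :=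
    Finset.sum_le_sum fun i _ => S2 _
  rw [Finset.sum_const, Finset.card_univ, Fintype.card_fin, nsmul_eq_mul] at h4
  rw [div_lt_iff₀ hb] at hN
  nlinarith

end Pool.Agent.Lib.MP_813db1_ag.AS
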