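import Pool.Agent.Lib.MP_813db1_ag.HS.Vol
import Pool.Agent.Lib.MP_813db1_ag.HS.Mat
import Pool.Agent.Lib.MP_813db1_ag.HS.RepA
import Pool.Agent.Lib.MP_bbd4b9_ag.LC.Defs

/-! The image of a Kaehler manifold under `2 n` Lipschitz functions has small measure. -/

set_option autoImplicit false

namespace Pool.Agent.Lib.MP_813db1_ag.AS

open Pool.Agent.Lib.MP_813db1_ag.HS
open MeasureTheory Complex Matrix Filter Topology Set Metric
open scoped ContDiff ComplexOrder ENNReal NNReal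

namespace EVol

variable {ι : Type} [Fintype ι] [DecidableEq ι]

/-- a unitary frame with its real determinant. -/
theorem frame {H : Mat ι} (h : H.PosDef) : ∃ S : Mat ι,
    (∀ a, nV H a = ∑ i, ‖(S *ᵥ a) i‖ ^ 2) ∧ IsUnit S.det ∧
      LinearMap.det ((Matrix.toLin' S).restrictScalars ℝ) = H.det.re := by
  obtain ⟨S, hS⟩ := Mat.fac h.posSemidef.transpose
  rw [← star_eq_conjTranspose] at hS
  have hd : H.det.re = normSq S.det := by
    rw [← det_transpose, hS, det_mul, star_eq_conjTranspose, det_conjTranspose, mul_comm]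
    simp [mul_conj]
  refine ⟨S, fun a => ?_, ?_, ?_⟩
  · have : ipV H a a = star (S *ᵥ a) ⬝ᵥ S *ᵥ a := by
      rw [star_mulVec, ← dotProduct_mulVec, mulVec_mulVec, ← star_eq_conjTranspose, ← hS]
      simp only [ipV, dotProduct, mulVec, transpose_apply, Finset.mul_sum, Pi.star_apply]
      rw [Finset.sum_comm]
      exact Finset.sum_congr rfl fun i _ => Finset.sum_congr rfl fun j _ => by ring
    rw [nV, this, dotProduct, re_sum]
    refine Finset.sum_congr rfl fun i _ => ?_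
    rw [Pi.star_apply, RCLike.star_def, mul_comm, mul_conj', ← ofReal_pow, ofReal_re]
  · have p := (mat.det ι H h).1
    rw [hd] at p
    exact isUnit_iff_ne_zero.2 fun e => by rw [e] at p; simp at p
  · rw [LinearMap.det_restrictScalars, LinearMap.det_toLin', Algebra.norm_complex_apply, hd]

omit [DecidableEq ι] in
theorem sqrt_le (v : V ι) : √(∑ i, ‖v i‖ ^ 2) ≤ (Fintype.card ι + 1) * ‖v‖ := by
  refine Real.sqrt_le_iff.2 ⟨by positivity, ?_⟩
  have h1 : ∑ i, ‖v i‖ ^ 2 ≤ ∑ _i : ι, ‖v‖ ^ 2 := Finset.sum_le_sum fun i _ => by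
    have := norm_le_pi_norm v i
    gcongr
  rw [Finset.sum_const, Finset.card_univ, nsmul_eq_mul] at h1
  have h2 : (0 : ℝ) ≤ Fintype.card ι := Nat.cast_nonneg _
  nlinarith [sq_nonneg ‖v‖, mul_nonneg (mul_nonneg h2 h2) (sq_nonneg ‖v‖),
    mul_nonneg h2 (sq_nonneg ‖v‖)]

/-- the estimate for a constant metric. -/
theorem loc (ι : Type) [Fintype ι] [DecidableEq ι] : ∃ C : ℝ, 0 < C ∧ ∀ H : Mat ι, H.PosDef →
    ∀ L : ℝ, 0 ≤ L → ∀ (S : Set (V ι)) (F : V ι → Fin (2 * Fintype.card ι) → ℝ),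
      (∀ z ∈ S, ∀ w ∈ S, ∀ j, |F z j - F w j| ≤ L * √(nV H (w - z))) →
      volume (F '' S) ≤ ENNReal.ofReal (C * L ^ (2 * Fintype.card ι) * H.det.re) * volume S := by
  have hr : Module.finrank ℝ (V ι) = 2 * Fintype.card ι := by
    rw [Module.finrank_pi_fintype]
    simp [mul_comm]
  obtain ⟨c, hc⟩ : ∃ c : ℝ≥0, (μH[((2 * Fintype.card ι : ℕ) : ℝ)] : Measure (V ι)) =
      c • (volume : Measure (V ι)) := by
    rw [← hr]
    exact ⟨_, Measure.isAddLeftInvariant_eq_smul _ _⟩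
  refine ⟨(c + 1) * (Fintype.card ι + 1) ^ (2 * Fintype.card ι), by positivity,
    fun H hH L hL S F hF => ?_⟩
  obtain ⟨P, h1, h2, h3⟩ := frame hH
  have hd := (mat.det ι H hH).1
  let T : V ι →ₗ[ℝ] V ι := (Matrix.toLin' P).restrictScalars ℝ
  have hT : ∀ z, P⁻¹ *ᵥ T z = z := fun z => by
    show P⁻¹ *ᵥ (P *ᵥ z) = z
    rw [mulVec_mulVec, nonsing_inv_mul _ h2, one_mulVec]
  have e : F '' S = (fun w => F (P⁻¹ *ᵥ w)) '' (T '' S) := by
    rw [image_image]
    simp only [hT]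
  obtain ⟨K, hK⟩ : ∃ K : ℝ≥0, (K : ℝ) = L * (Fintype.card ι + 1) := ⟨⟨_, by positivity⟩, rfl⟩
  have lip : LipschitzOnWith K (fun w => F (P⁻¹ *ᵥ w)) (T '' S) := by
    refine LipschitzOnWith.of_dist_le_mul ?_
    rintro _ ⟨z, hz, rfl⟩ _ ⟨w, hw, rfl⟩
    rw [hT, hT]
    refine (dist_pi_le_iff (by positivity)).2 fun j => ?_
    rw [Real.dist_eq, dist_comm (T z), dist_eq_norm, ← map_sub]
    refine (hF z hz w hw j).trans ?_
    rw [h1, hK, mul_assoc]
    exact mul_le_mul_of_nonneg_left (sqrt_le _) hL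
  have k := lip.hausdorffMeasure_image_le (d := ((2 * Fintype.card ι : ℕ) : ℝ)) (Nat.cast_nonneg _)
  have hp := hausdorffMeasure_pi_real (ι := Fin (2 * Fintype.card ι))
  rw [Fintype.card_fin] at hp
  rw [hp, hc, Measure.smul_apply, Measure.addHaar_image_linearMap, h3, abs_of_pos hd,
    ENNReal.rpow_natCast] at k
  rw [e]
  refine k.trans ?_
  rw [ENNReal.smul_def, smul_eq_mul, ← mul_assoc, ← mul_assoc]
  refine mul_le_mul_left ?_ _
  rw [ENNReal.ofReal_mul (by positivity)]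
  refine mul_le_mul_left ?_ _
  rw [← ENNReal.coe_pow, ← ENNReal.coe_mul, ← ENNReal.ofReal_coe_nnreal]
  refine ENNReal.ofReal_le_ofReal ?_
  rw [NNReal.coe_mul, NNReal.coe_pow, hK, mul_pow]
  have : (0 : ℝ) ≤ L ^ (2 * Fintype.card ι) * (Fintype.card ι + 1) ^ (2 * Fintype.card ι) := by
    positivity
  nlinarith

/-- gluing local estimates on a compact space. -/
theorem glue {X Z : Type} [TopologicalSpace X] [CompactSpace X] [MeasurableSpace X] [BorelSpace X]
    [MeasurableSpace Z] (ν : Measure X) (m : Measure Z) (f : X → Z)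
    (h : ∀ x, ∃ W ∈ 𝓝 x, ∀ B, MeasurableSet B → B ⊆ W → m (f '' B) ≤ ν B) :
    m (range f) ≤ ν univ := by
  classical
  choose W hW hB using h
  obtain ⟨t, ht⟩ := CompactSpace.elim_nhds_subcover (fun x => interior (W x))
    fun x => interior_mem_nhds.2 (hW x)
  have key : ∀ s : Finset X, ∀ B, MeasurableSet B → B ⊆ ⋃ x ∈ s, interior (W x) →
      m (f '' B) ≤ ν B := by
    intro s
    induction s using Finset.induction_on with
    | empty =>
      intro B _ h
      have : B = ∅ := by simpa using h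
      simp [this]
    | insert a s _ ih =>
      intro B hm h
      have ma : MeasurableSet (interior (W a)) := isOpen_interior.measurableSet
      rw [← measure_inter_add_sdiff B ma]
      conv_lhs => rw [← inter_union_sdiff B (interior (W a)), image_union]
      refine (measure_union_le _ _).trans (add_le_add
        (hB a _ (hm.inter ma) (inter_subset_right.trans interior_subset))
        (ih _ (hm.diff ma) fun x hx => ?_))
      have := h hx.1
      rw [Finset.set_biUnion_insert] at this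
      exact this.resolve_left hx.2
  rw [← image_univ]
  exact key t univ MeasurableSet.univ (by rw [ht]; exact fun _ _ => trivial)

theorem cont {G : V ι → Mat ι} {U : Set (V ι)} (h : KOn G U) {z : V ι} (hz : z ∈ U) :
    ContinuousAt G z :=
  continuousAt_pi.2 fun i => continuousAt_pi.2 fun j => (h.1.1 z hz i j).continuousAt

/-- nearby metrics are comparable. -/
theorem near {G : V ι → Mat ι} {z : V ι} (h : ContinuousAt G z) (hz : (G z).PosDef) :
    ∃ c > 0, (∀ v, c * ‖v‖ ^ 2 ≤ nV (G z) v) ∧ ∀ᶠ w in 𝓝 z, ∀ v, nV (G w) v ≤ 2 * nV (G z) v := by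
  obtain ⟨L, hL⟩ : ∃ L, Bd L (G z) ∧ Bd L (G z)⁻¹ := by
    refine ⟨∑ i, ∑ j, (‖G z i j‖ + ‖(G z)⁻¹ i j‖), fun i j => ?_, fun i j => ?_⟩ <;>
    · refine le_trans ?_ (Finset.single_le_sum
        (f := fun i => ∑ j, (‖G z i j‖ + ‖(G z)⁻¹ i j‖)) (fun i _ => by positivity)
        (Finset.mem_univ i))
      refine le_trans ?_ (Finset.single_le_sum
        (f := fun j => ‖G z i j‖ + ‖(G z)⁻¹ i j‖) (fun i _ => by positivity) (Finset.mem_univ j))
      simp
  obtain ⟨c, hc, h1⟩ := mat.nv ι L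
  refine ⟨c, hc, fun v => (h1 _ hz hL.1 hL.2 v).1, ?_⟩
  have hη : 0 < c / (Fintype.card ι ^ 2 + 1) := by positivity
  have ev : ∀ᶠ w in 𝓝 z, Bd (c / (Fintype.card ι ^ 2 + 1)) (G w - G z) :=
    eventually_all.2 fun i => eventually_all.2 fun j => by
      have := (continuousAt_pi.1 (continuousAt_pi.1 h i) j).eventually (closedBall_mem_nhds _ hη)
      filter_upwards [this] with w hw
      rwa [dist_eq_norm] at hw
  filter_upwards [ev] with w hw v
  have a1 := (le_abs_self _).trans (Mat.nv_le hw v)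
  have a2 := (Mat.nv_lin 1 (G w) (G z) v).2
  rw [ofReal_one, one_smul, one_mul] at a2
  have a3 := (h1 _ hz hL.1 hL.2 v).1
  have a4 : (Fintype.card ι : ℝ) ^ 2 * |c / (Fintype.card ι ^ 2 + 1)| ≤ c := by
    rw [abs_of_pos hη, mul_div_assoc', div_le_iff₀ (by positivity)]
    nlinarith
  have a5 := mul_le_mul_of_nonneg_right a4 (sq_nonneg ‖v‖)
  linarith

end EVol

open EVol

/-- functions that are locally `L`-Lipschitz for the frozen metric in some chart. -/
theorem eVol (ι : Type) [Fintype ι] [DecidableEq ι] : ∃ C : ℝ, 0 < C ∧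
    ∀ (X : Type) [TopologicalSpace X] [T2Space X] [CompactSpace X] [MeasurableSpace X]
      [BorelSpace X] (M : Atl ι X) (g h : X → Mat ι) (μ : Measure X), M.IsK g → M.IsK h →
      M.IsVol g μ → ∀ L : ℝ, 0 ≤ L → ∀ ρ : Fin (2 * Fintype.card ι) → X → ℝ,
      (∀ x, ∃ e ∈ M.A, x ∈ e.source ∧ ∀ j, ∀ᶠ q in 𝓝 (e x, e x),
        |ρ j (e.symm q.1) - ρ j (e.symm q.2)| ≤ L * √(nV (M.repF h e (e x)) (q.2 - q.1))) →
      volume (range fun x j => ρ j x) ≤
        ENNReal.ofReal (C * L ^ (2 * Fintype.card ι) * ∫ x, rat h g x ∂μ) := by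
  obtain ⟨C, hC, hl⟩ := loc ι
  refine ⟨2 * C, by positivity, fun X _ _ _ _ _ M g h μ hg hh hμ L hL ρ hρ => ?_⟩
  have ha := repA mat ι X M
  have hv := (volS (repA mat) mat ι X M g hg).2 μ hμ
  have := hv.fin
  have cr : Continuous (rat h g) :=
    ha.cont _ fun e he z hz => (ha.ck_rat h g (fun e he => (hh e he).1.1) hg e he z hz).of_le bot_le
  have pr : ∀ x, 0 ≤ rat h g x := fun x => div_nonneg
    (mat.det ι _ (((ha.isK_iff h).1 hh).2 x)).1.le (mat.det ι _ (((ha.isK_iff g).1 hg).2 x)).1.le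
  have hK : 0 ≤ 2 * C * L ^ (2 * Fintype.card ι) := by positivity
  rw [ENNReal.ofReal_mul hK, ofReal_integral_eq_lintegral_ofReal
    (cr.integrable_of_hasCompactSupport (HasCompactSupport.of_compactSpace _))
    (Eventually.of_forall pr)]
  have key := glue (ENNReal.ofReal (2 * C * L ^ (2 * Fintype.card ι)) •
    μ.withDensity fun x => ENNReal.ofReal (rat h g x)) volume (fun x j => ρ j x) fun x => ?_
  · rwa [Measure.smul_apply, withDensity_apply _ MeasurableSet.univ, Measure.restrict_univ,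
      smul_eq_mul] at key
  obtain ⟨e, he, hx, hq⟩ := hρ x
  have hz := e.map_source hx
  have hH := (hh e he).2 _ hz
  have hd := (mat.det ι _ hH).1
  obtain ⟨O, hO, hO'⟩ : ∃ O ∈ 𝓝 (e x), ∀ z ∈ O, ∀ w ∈ O, ∀ j,
      |ρ j (e.symm z) - ρ j (e.symm w)| ≤ L * √(nV (M.repF h e (e x)) (w - z)) := by
    have := eventually_all.2 hq
    rw [nhds_prod_eq] at this
    obtain ⟨O, h1, h2⟩ := mem_prod_self_iff.1 this
    exact ⟨O, h1, fun z hz w hw => h2 (mk_mem_prod hz hw)⟩
  have c1 : ContinuousAt (fun z => (M.repF h e z).det.re) (e x) :=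
    continuous_re.continuousAt.comp
      ((continuous_id.matrix_det).continuousAt.comp (f := M.repF h e) (cont (hh e he) hz))
  have hO2 : ∀ᶠ z in 𝓝 (e x), (M.repF h e (e x)).det.re / 2 < (M.repF h e z).det.re :=
    c1.eventually (lt_mem_nhds (half_lt_self hd))
  refine ⟨e.source ∩ e ⁻¹' (O ∩ {z | (M.repF h e (e x)).det.re / 2 < (M.repF h e z).det.re}),
    inter_mem (e.open_source.mem_nhds hx) (e.continuousAt hx (inter_mem hO hO2)), fun B hB hs => ?_⟩
  have mS := Vol.ms_pre e hB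
  have eB : e.source ∩ e ⁻¹' (e.symm ⁻¹' B ∩ e.target) = B := by
    ext y
    constructor
    · rintro ⟨h1, h2, -⟩
      rwa [mem_preimage, e.left_inv h1] at h2
    · intro hy
      exact ⟨(hs hy).1, by rwa [mem_preimage, e.left_inv (hs hy).1], e.map_source (hs hy).1⟩
  have sO : ∀ z ∈ e.symm ⁻¹' B ∩ e.target,
      z ∈ O ∧ (M.repF h e (e x)).det.re / 2 < (M.repF h e z).det.re := fun z hz => by
    have := (hs hz.1).2
    rwa [mem_preimage, e.right_inv hz.2] at this
  have eI : (fun x j => ρ j x) '' B =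
      (fun z j => ρ j (e.symm z)) '' (e.symm ⁻¹' B ∩ e.target) := by
    ext y
    constructor
    · rintro ⟨p, hp, rfl⟩
      exact ⟨e p, ⟨by rwa [mem_preimage, e.left_inv (hs hp).1], e.map_source (hs hp).1⟩,
        by simp only [e.left_inv (hs hp).1]⟩
    · rintro ⟨z, hz, rfl⟩
      exact ⟨_, hz.1, rfl⟩
  have k := hl _ hH L hL (e.symm ⁻¹' B ∩ e.target) (fun z j => ρ j (e.symm z))
    fun z hz w hw j => hO' z (sO z hz).1 w (sO w hw).1 j
  rw [eI, Measure.smul_apply, withDensity_apply _ hB, smul_eq_mul]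
  refine k.trans ?_
  have e2 : C * L ^ (2 * Fintype.card ι) * (M.repF h e (e x)).det.re =
      2 * C * L ^ (2 * Fintype.card ι) * ((M.repF h e (e x)).det.re / 2) := by ring
  rw [e2, ENNReal.ofReal_mul hK, mul_assoc]
  refine mul_le_mul_right ?_ _
  conv_rhs => rw [← eB]
  rw [hv.lint e he _ mS inter_subset_right, ← setLIntegral_const]
  refine setLIntegral_mono' mS fun z hz => ?_
  have gp := (mat.det ι _ ((hg e he).2 z hz.2)).1
  have r := ha.rat_rep h g e he _ (e.map_target hz.2)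
  rw [e.right_inv hz.2] at r
  rw [← ENNReal.ofReal_mul gp.le, ← r, mul_div_cancel₀ _ gp.ne']
  exact ENNReal.ofReal_le_ofReal (sO z hz).2.le

/-- functions that are locally Lipschitz for the symmetrised cost. -/
theorem eVolC (ι : Type) [Fintype ι] [DecidableEq ι] : ∃ C : ℝ, 0 < C ∧
    ∀ (X : Type) [TopologicalSpace X] [T2Space X] [CompactSpace X] [MeasurableSpace X]
      [BorelSpace X] (M : Atl ι X) (g h : X → Mat ι) (μ : Measure X) (c : X → X → ℝ), M.IsK g →
      M.IsK h → M.IsVol g μ → MP_bbd4b9_ag.LC.Cost M h c → ∀ L : ℝ, 0 ≤ L →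
      ∀ ρ : Fin (2 * Fintype.card ι) → X → ℝ,
      (∀ j x, ∀ᶠ q in 𝓝 (x, x), |ρ j q.1 - ρ j q.2| ≤ L * √(c q.1 q.2 + c q.2 q.1)) →
      volume (range fun x j => ρ j x) ≤
        ENNReal.ofReal (C * L ^ (2 * Fintype.card ι) * ∫ x, rat h g x ∂μ) := by
  obtain ⟨C, hC, hl⟩ := eVol ι
  refine ⟨C * 3 ^ (2 * Fintype.card ι), by positivity,
    fun X _ _ _ _ _ M g h μ c hg hh hμ hc L hL ρ hρ => ?_⟩
  have key := hl X M g h μ hg hh hμ (3 * L) (by positivity) ρ fun x => ?_
  · rwa [mul_pow, ← mul_assoc] at key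
  refine ⟨M.ch x, M.ch_mem x, M.mem x, fun j => ?_⟩
  set e := M.ch x
  have he : e ∈ M.A := M.ch_mem x
  have hx : x ∈ e.source := M.mem x
  have hz := e.map_source hx
  obtain ⟨b, hb, h1, h2⟩ := near (cont (hh e he) hz) ((hh e he).2 _ hz)
  obtain ⟨D, hD⟩ := hc.jet e he _ hz
  have t0 : Tendsto e.symm (𝓝 (e x)) (𝓝 x) := by
    have := e.continuousAt_symm hz
    rwa [ContinuousAt, e.left_inv hx] at this
  have f1 : Tendsto (fun q : V ι × V ι => q.1) (𝓝 (e x, e x)) (𝓝 (e x)) := continuousAt_fst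
  have f2 : Tendsto (fun q : V ι × V ι => q.2) (𝓝 (e x, e x)) (𝓝 (e x)) := continuousAt_snd
  have f3 : Tendsto (fun q : V ι × V ι => |D| * ‖q.2 - q.1‖) (𝓝 (e x, e x)) (𝓝 0) := by
    have := ((f2.sub f1).norm).const_mul |D|
    rwa [sub_self, norm_zero, mul_zero] at this
  filter_upwards [((t0.comp f1).prodMk_nhds (t0.comp f2)).eventually (hρ j x), hD,
    (f2.prodMk_nhds f1).eventually hD, f1.eventually h2, f2.eventually h2,
    f3.eventually (gt_mem_nhds hb)] with q q0 q1 q2 q3 q4 q5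
  refine q0.trans ?_
  have ng : nV (M.repF h e (e x)) (q.1 - q.2) = nV (M.repF h e (e x)) (q.2 - q.1) := by
    rw [← neg_sub, nV, nV, ipV, ipV]
    simp only [Pi.neg_apply, star_neg, mul_neg, neg_mul, neg_neg]
  have a1 := (abs_le.1 q1).2
  have a2 := (abs_le.1 q2).2
  have a3 := q3 (q.2 - q.1)
  have a4 := q4 (q.1 - q.2)
  have a5 := h1 (q.2 - q.1)
  rw [ng] at a4
  simp only [MP_bbd4b9_ag.LC.fn2, norm_sub_rev q.1 q.2] at a1 a2
  have a6 : D * ‖q.2 - q.1‖ ^ 3 ≤ b * ‖q.2 - q.1‖ ^ 2 := by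
    have b1 := mul_le_mul_of_nonneg_right q5.le (sq_nonneg ‖q.2 - q.1‖)
    have b2 := mul_le_mul_of_nonneg_right (le_abs_self D) (pow_nonneg (norm_nonneg (q.2 - q.1)) 3)
    nlinarith
  have a7 : 0 ≤ b * ‖q.2 - q.1‖ ^ 2 := by positivity
  have a8 : √(c (e.symm q.1) (e.symm q.2) + c (e.symm q.2) (e.symm q.1)) ≤
      3 * √(nV (M.repF h e (e x)) (q.2 - q.1)) := by
    refine Real.sqrt_le_iff.2 ⟨by positivity, ?_⟩
    rw [mul_pow, Real.sq_sqrt (a7.trans a5)]
    linarith
  have := mul_le_mul_of_nonneg_left a8 hL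
  simp only [Function.comp_apply]
  linarith

/-- the version in the preferred charts, with the volume measure of `h` itself. -/
theorem eVolP (ι : Type) [Fintype ι] [DecidableEq ι] (L : ℝ) : ∃ C : ℝ, 0 < C ∧
    ∀ (X : Type) [TopologicalSpace X] [T2Space X] [CompactSpace X] [MeasurableSpace X]
      [BorelSpace X] (M : Atl ι X) (h : X → Mat ι) (ν : Measure X)
      (ρ : Fin (2 * Fintype.card ι) → X → ℝ), M.IsK h → M.IsVol h ν →
      (∀ j x, ∀ᶠ q in 𝓝 (x, x),
        |ρ j q.1 - ρ j q.2| ≤ L * √(nV (h x) (M.ch x q.2 - M.ch x q.1))) →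
      volume (range fun x j => ρ j x) ≤ ENNReal.ofReal (C * ν.real univ) := by
  obtain ⟨C, hC, hl⟩ := eVol ι
  refine ⟨C * (|L| + 1) ^ (2 * Fintype.card ι), by positivity,
    fun X _ _ _ _ _ M h ν ρ hh hν hρ => ?_⟩
  have ha := repA mat ι X M
  have key := hl X M h h ν hh hh hν (|L| + 1) (by positivity) ρ fun x => ?_
  · have e : rat h h = fun _ => 1 :=
      funext fun x => div_self (mat.det ι _ (((ha.isK_iff h).1 hh).2 x)).1.ne'
    rwa [e, integral_const, smul_eq_mul, mul_one] at key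
  refine ⟨M.ch x, M.ch_mem x, M.mem x, fun j => ?_⟩
  have hz := (M.ch x).map_source (M.mem x)
  have t0 : Tendsto (M.ch x).symm (𝓝 (M.ch x x)) (𝓝 x) := by
    have := (M.ch x).continuousAt_symm hz
    rwa [ContinuousAt, (M.ch x).left_inv (M.mem x)] at this
  have f1 : Tendsto (fun q : V ι × V ι => q.1) (𝓝 (M.ch x x, M.ch x x)) (𝓝 (M.ch x x)) :=
    continuousAt_fst
  have f2 : Tendsto (fun q : V ι × V ι => q.2) (𝓝 (M.ch x x, M.ch x x)) (𝓝 (M.ch x x)) :=
    continuousAt_snd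
  filter_upwards [((t0.comp f1).prodMk_nhds (t0.comp f2)).eventually (hρ j x),
    f1.eventually ((M.ch x).open_target.mem_nhds hz),
    f2.eventually ((M.ch x).open_target.mem_nhds hz)] with q q0 q1 q2
  simp only [Function.comp_apply, (M.ch x).right_inv q1, (M.ch x).right_inv q2] at q0
  rw [ha.repF_self]
  exact q0.trans (mul_le_mul_of_nonneg_right ((le_abs_self L).trans (by linarith))
    (Real.sqrt_nonneg _))

end Pool.Agent.Lib.MP_813db1_ag.AS
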