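import Pool.Agent.Lib.MP_813db1_ag.AS.ECov
import Pool.Agent.Lib.MP_813db1_ag.AS.StmtG
import Pool.Agent.Lib.MP_813db1_ag.AS.EVol

/-! A cover of small multiplicity by small balls, with the cosets attached to its members. -/

namespace Pool.Agent.Lib.MP_813db1_ag.AS

open Pool.Agent.Lib.MP_813db1_ag.HS MeasureTheory Filter Topology Set Metric

/-- the cover of multiplicity at most the real dimension. -/
def EAllS : Prop := ∀ (ι : Type) [Fintype ι] [DecidableEq ι] (L w : ℝ) (N : ℕ), 0 < w →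
  ∃ v > (0 : ℝ), ∀ (X Y G Z : Type) [TopologicalSpace X] [T2Space X] [CompactSpace X]
  [MeasurableSpace X] [BorelSpace X] [TopologicalSpace Y] [Group G] [MulAction G Y]
  [MulAction G Z] [PseudoMetricSpace Z] (M : Atl ι X) (h : X → Mat ι) (ν : Measure X) (p : Y → X)
  (Φ : Y → Z) (z : Fin N → Z), IsQuotientCoveringMap p G → M.IsK h → M.IsVol h ν →
  ν.real univ ≤ v → (∀ (g : G) (y y' : Z), dist (g • y) (g • y') = dist y y') →
  (∀ (g : G) y, Φ (g • y) = g • Φ y) →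
  (∀ y0, ∀ᶠ q : Y × Y in 𝓝 (y0, y0), dist (Φ q.1) (Φ q.2) ≤
    L * √(nV (h (p y0)) (M.ch (p y0) (p q.2) - M.ch (p y0) (p q.1)))) →
  (∀ y, ∃ (i : Fin N) (g : G), dist (z i) (g • Φ y) < w) →
  ∃ (U : Fin N → Set X) (k : ∀ i, Y → G ⧸ Hs G (z i) (10 * w)), (∀ i, IsOpen (U i)) ∧
    (∀ x, ∃ i, x ∈ U i) ∧ (∀ x, {i | x ∈ U i}.ncard ≤ 2 * Fintype.card ι) ∧
    (∀ i (g : G) y, p y ∈ U i → k i (g • y) = g • k i y) ∧
    ∀ i y, p y ∈ U i → ∀ᶠ y' in 𝓝 y, k i y' = k i y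

namespace EA

theorem small {ι X : Type} [Fintype ι] [DecidableEq ι] [TopologicalSpace X] (M : Atl ι X)
    (H : Mat ι) (L : ℝ) (x0 : X) :
    Tendsto (fun x => L * √(nV H (M.ch x0 x - M.ch x0 x0))) (𝓝 x0) (𝓝 0) := by
  have c1 : Continuous fun v : V ι => L * √(nV H (v - M.ch x0 x0)) := by
    unfold nV ipV
    fun_prop
  have := (c1.tendsto (M.ch x0 x0)).comp ((M.ch x0).continuousAt (M.mem x0))
  simpa [nV, ipV, Function.comp_def] using this

variable {X Y G Z : Type} [TopologicalSpace X] [TopologicalSpace Y] [Group G] [MulAction G Y]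
  [MulAction G Z] [PseudoMetricSpace Z] {p : Y → X} {Φ : Y → Z}

theorem lt_iff (hp : IsQuotientCoveringMap p G) (hΦ : ∀ (g : G) y, Φ (g • y) = g • Φ y) (z : Z)
    (y : Y) (r : ℝ) : infDist z (Φ '' (p ⁻¹' {p y})) < r ↔ ∃ g : G, dist z (g • Φ y) < r := by
  rw [infDist_lt_iff (s := Φ '' (p ⁻¹' {p y})) ⟨Φ y, y, rfl, rfl⟩]
  constructor
  · rintro ⟨_, ⟨y', h1, rfl⟩, h2⟩
    obtain ⟨g, rfl⟩ := hp.apply_eq_iff_mem_orbit.1 h1
    exact ⟨g, hΦ g y ▸ h2⟩
  · rintro ⟨g, hg⟩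
    exact ⟨_, ⟨g • y, hp.map_smul g, hΦ g y⟩, hg⟩

theorem lip (hp : IsQuotientCoveringMap p G)
    (hi : ∀ (g : G) (y y' : Z), dist (g • y) (g • y') = dist y y')
    (hΦ : ∀ (g : G) y, Φ (g • y) = g • Φ y) (z : Z) (y y' : Y) :
    |infDist z (Φ '' (p ⁻¹' {p y})) - infDist z (Φ '' (p ⁻¹' {p y'}))| ≤ dist (Φ y) (Φ y') := by
  have key : ∀ y y' : Y, infDist z (Φ '' (p ⁻¹' {p y})) - dist (Φ y) (Φ y') ≤
      infDist z (Φ '' (p ⁻¹' {p y'})) := fun y y' => by
    refine le_of_forall_gt fun r hr => ?_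
    obtain ⟨g, hg⟩ := (lt_iff hp hΦ z y' r).1 hr
    refine sub_lt_iff_lt_add.2 ((lt_iff hp hΦ z y _).2 ⟨g, ?_⟩)
    have := dist_triangle_right z (g • Φ y) (g • Φ y')
    rw [hi] at this
    linarith
  have k1 := key y y'
  have k2 := key y' y
  rw [dist_comm (Φ y')] at k2
  exact abs_le.2 ⟨by linarith, by linarith⟩

theorem sec (hp : IsQuotientCoveringMap p G) (y0 : Y) :
    ∃ s : X → Y, Tendsto s (𝓝 (p y0)) (𝓝 y0) ∧ ∀ᶠ x in 𝓝 (p y0), p (s x) = x := by
  obtain ⟨e, he, rfl⟩ := hp.isCoveringMap.isLocalHomeomorph y0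
  refine ⟨e.symm, e.tendsto_symm he, ?_⟩
  filter_upwards [e.open_target.mem_nhds (e.map_source he)] with x hx
  exact e.right_inv hx

end EA

theorem eAllS : EAllS := by
  intro ι _ _ L w N hw
  obtain ⟨C, -, hC⟩ := eVolP ι L
  set m := 2 * Fintype.card ι with hm
  have d0 : 0 < (N : ℝ) ^ m * |C| + 1 := by positivity
  refine ⟨w ^ m / ((N : ℝ) ^ m * |C| + 1), by positivity, ?_⟩
  intro X Y G Z _ _ _ _ _ _ _ _ _ _ M h ν p Φ z hp hh hν hv hi hΦ hL hz
  classical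
  have pc : Continuous p := hp.isCoveringMap.continuous
  set ρ : Fin N → X → ℝ := fun i x => infDist (z i) (Φ '' (p ⁻¹' {x})) with hρ
  have lp : ∀ i x0, ∀ᶠ q : X × X in 𝓝 (x0, x0),
      |ρ i q.1 - ρ i q.2| ≤ L * √(nV (h x0) (M.ch x0 q.2 - M.ch x0 q.1)) := by
    intro i x0
    obtain ⟨y0, rfl⟩ := hp.surjective x0
    obtain ⟨s, s1, s2⟩ := EA.sec hp y0
    have t1 : Tendsto (fun q : X × X => q.1) (𝓝 (p y0, p y0)) (𝓝 (p y0)) := continuousAt_fst
    have t2 : Tendsto (fun q : X × X => q.2) (𝓝 (p y0, p y0)) (𝓝 (p y0)) := continuousAt_snd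
    filter_upwards [((s1.comp t1).prodMk_nhds (s1.comp t2)).eventually (hL y0), t1.eventually s2,
      t2.eventually s2] with q q1 q2 q3
    have := EA.lip hp hi hΦ (z i) (s q.1) (s q.2)
    simp only [Function.comp_apply, q2, q3] at q1 this
    exact this.trans q1
  have ct : ∀ i, Continuous (ρ i) := fun i => continuous_iff_continuousAt.2 fun x0 => by
    refine tendsto_iff_dist_tendsto_zero.2 (squeeze_zero' (Eventually.of_forall fun _ =>
      dist_nonneg) ?_ (EA.small M (h x0) L x0))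
    have t : Tendsto (fun x => (x0, x)) (𝓝 x0) (𝓝 (x0, x0)) :=
      tendsto_const_nhds.prodMk_nhds tendsto_id
    filter_upwards [t.eventually (lp i x0)] with x hx
    rwa [dist_comm, Real.dist_eq]
  obtain ⟨U, u1, u2, u3, u4⟩ := eCov' (m := m) (v := |C| * (w ^ m / ((N : ℝ) ^ m * |C| + 1))) hw ρ
    ct (fun x => by
      obtain ⟨y, rfl⟩ := hp.surjective x
      obtain ⟨i, g, hg⟩ := hz y
      exact ⟨i, (EA.lt_iff hp hΦ _ y w).2 ⟨g, hg⟩⟩)
    (fun I => (hC X M h ν (fun j => ρ (I j)) hh hν fun j => lp (I j)).trans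
      (ENNReal.ofReal_le_ofReal ((mul_le_mul_of_nonneg_right (le_abs_self C)
        measureReal_nonneg).trans (mul_le_mul_of_nonneg_left hv (abs_nonneg C))))) (by
      rw [← mul_assoc, ← mul_div_assoc, div_lt_iff₀ d0]
      have : 0 < w ^ m := by positivity
      nlinarith)
  have ex : ∀ i y, ∃ g : G, p y ∈ U i → dist (g • z i) (Φ y) < 3 * w := fun i y => by
    by_cases hy : p y ∈ U i
    · obtain ⟨g, hg⟩ := (EA.lt_iff hp hΦ _ y _).1 (u3 i _ hy)
      refine ⟨g⁻¹, fun _ => ?_⟩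
      rwa [← hi g, smul_inv_smul]
    · exact ⟨1, fun h' => absurd h' hy⟩
  choose k hk using ex
  have un : ∀ i y (g : G), p y ∈ U i → dist (g • z i) (Φ y) < 3 * w →
      (k i y : G ⧸ Hs G (z i) (10 * w)) = g := fun i y g hy hg => by
    refine QuotientGroup.eq.2 (Subgroup.subset_closure ?_)
    have := dist_triangle_right (k i y • z i) (g • z i) (Φ y)
    have h1 := hk i y hy
    change dist _ _ < _
    rw [← hi (k i y), smul_smul, mul_inv_cancel_left]
    linarith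
  refine ⟨U, fun i y => (k i y : G ⧸ Hs G (z i) (10 * w)), u1, u2, fun x => ?_,
    fun i g y hy => ?_, fun i y hy => ?_⟩
  · rw [Set.ncard_eq_toFinset_card _ (toFinite _)]
    exact u4 x _ fun i hi => by simpa using hi
  · refine un i (g • y) (g * k i y) (by rwa [hp.map_smul]) ?_
    rw [mul_smul, hΦ, hi]
    exact hk i y hy
  · have t : Tendsto (fun y' => (y, y')) (𝓝 y) (𝓝 (y, y)) :=
      tendsto_const_nhds.prodMk_nhds tendsto_id
    have t2 := ((EA.small M (h (p y)) L (p y)).comp pc.continuousAt).eventually_lt_const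
      (sub_pos.2 (hk i y hy))
    filter_upwards [t.eventually (hL y), t2, pc.continuousAt.preimage_mem_nhds
      ((u1 i).mem_nhds hy)] with y' y1 y2 y3
    refine un i y' _ y3 ?_
    have := dist_triangle (k i y • z i) (Φ y) (Φ y')
    simp only [Function.comp_apply] at y1 y2
    linarith

end Pool.Agent.Lib.MP_813db1_ag.AS
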