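import Pool.Agent.Lib.MP_bbd4b9_ag.LC.Rob

/-! A normal covering of a compact space is described by a local cocycle. -/

namespace Pool.Agent.Lib.MP_813db1_ag.AS

open Pool.Agent.Lib.MP_bbd4b9_ag.LC Filter Topology Set

namespace Tr

variable {X Y G : Type} [TopologicalSpace X] [TopologicalSpace Y] [Group G] [MulAction G Y]
  {p : Y → X}

/-- two continuous lifts that agree at a point agree near it. -/
theorem lift_eq (hp : IsQuotientCoveringMap p G) {Z : Type} [TopologicalSpace Z] {s t : Z → Y}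
    {z : Z} (hs : ContinuousAt s z) (ht : ContinuousAt t z) (h0 : s z = t z)
    (h : ∀ᶠ w in 𝓝 z, p (s w) = p (t w)) : ∀ᶠ w in 𝓝 z, s w = t w := by
  obtain ⟨U, oU, mU, iU⟩ := hp.isCoveringMap.isLocalHomeomorph.isLocallyInjective (s z)
  filter_upwards [h, hs.preimage_mem_nhds (oU.mem_nhds mU),
    ht.preimage_mem_nhds (oU.mem_nhds (h0 ▸ mU))] with w h1 h2 h3
  exact iU h2 h3 h1

/-- finitely many local sections, subordinate to a neighbourhood of the diagonal. -/
theorem secs [T2Space X] [CompactSpace X] (hp : IsQuotientCoveringMap p G) :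
    ∃ (t : Finset X) (U : X → Set X) (s : X → X → Y) (i : X → X), (∀ j, IsOpen (U j)) ∧
      (∀ j, ∀ x ∈ U j, ContinuousAt (s j) x ∧ p (s j x) = x) ∧ (∀ x, i x ∈ t) ∧
      ∀ x, ∃ W ∈ 𝓝 x, ∀ q ∈ W, W ⊆ U (i q) := by
  choose y hy using hp.surjective
  choose e he hpe using fun x => hp.isCoveringMap.isLocalHomeomorph (y x)
  have hm : ∀ x, x ∈ (e x).target := fun x => by
    have := (e x).map_source (he x)
    rwa [← hpe x, hy] at this
  obtain ⟨t, ht⟩ := isCompact_univ.elim_finite_subcover (fun x => (e x).target)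
    (fun x => (e x).open_target) fun x _ => mem_iUnion.2 ⟨x, hm x⟩
  let : UniformSpace X := uniformSpaceOfCompactR1
  obtain ⟨V, hV, hb⟩ := lebesgue_number_lemma (U := fun j : t => (e j).target) isCompact_univ
    (fun j => (e j).open_target) fun x hx => by
      obtain ⟨j, hj, h⟩ := mem_iUnion₂.1 (ht hx)
      exact mem_iUnion.2 ⟨⟨j, hj⟩, h⟩
  choose i hi using fun x => hb x (mem_univ x)
  refine ⟨t, fun x => (e x).target, fun x => (e x).symm, fun x => i x, fun x => (e x).open_target,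
    fun j x hx => ⟨(e j).continuousAt_symm hx, ?_⟩, fun x => (i x).2, fun x => ?_⟩
  · rw [hpe j]
    exact (e j).right_inv hx
  · have h1 : V ∈ 𝓝 x ×ˢ 𝓝 x := by
      rw [← nhds_prod_eq]
      exact nhds_le_uniformity x hV
    obtain ⟨W, hW, k⟩ := mem_prod_self_iff.1 h1
    exact ⟨W, hW, fun q hq u hu => hi q (k (mk_mem_prod hq hu))⟩

/-- chains with steps in `P`. -/
def Ch (a : X → X → G) (P : X → X → Prop) (x y : X) (c : G) : Prop :=
  ∃ (k : ℕ) (s : ℕ → X), s 0 = x ∧ s k = y ∧ lab a s k = c ∧ ∀ i < k, P (s i) (s (i + 1))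

omit [TopologicalSpace X] in
theorem Ch.one {a : X → X → G} {P : X → X → Prop} {x y : X} (h : P x y) : Ch a P x y (a x y) :=
  ⟨1, fun i => if i = 0 then x else y, by simp, by simp, by simp [lab], fun i hi => by
    obtain rfl : i = 0 := by omega
    simpa using h⟩

omit [TopologicalSpace X] in
theorem Ch.cat {a : X → X → G} {P : X → X → Prop} {x y z : X} {c c' : G} (h : Ch a P x y c)
    (h' : Ch a P y z c') : Ch a P x z (c * c') := by
  obtain ⟨k, s, h0, hk, hl, hA⟩ := h
  obtain ⟨k', s', h0', hk', hl', hA'⟩ := h'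
  have e1 : ∀ i ≤ k, (fun i => if i ≤ k then s i else s' (i - k)) i = s i := fun i hi => if_pos hi
  have e2 : (fun i => (fun i => if i ≤ k then s i else s' (i - k)) (k + i)) = s' := by
    funext i
    rcases Nat.eq_zero_or_pos i with rfl | hi
    · simp [hk, h0']
    · have : ¬ k + i ≤ k := by omega
      simp [this]
  refine ⟨k + k', fun i => if i ≤ k then s i else s' (i - k), ?_, ?_, ?_, fun i hi => ?_⟩
  · rw [e1 0 k.zero_le, h0]
  · rw [← hk']; exact congrFun e2 k'
  · rw [Rob.lab_add, e2, Rob.lab_congr a _ s k e1, hl, hl']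
  · by_cases hik : i < k
    · rw [e1 i hik.le, e1 (i + 1) hik]
      exact hA i hik
    · obtain ⟨j, rfl⟩ := Nat.exists_eq_add_of_le (not_lt.1 hik)
      have a1 := congrFun e2 j
      have a2 := congrFun e2 (j + 1)
      simp only at a1 a2 ⊢
      rw [add_assoc, a1, a2]
      exact hA' j (by omega)

end Tr

/-- the local cocycle and the labels of a normal covering. -/
theorem tr {X Y G : Type} [TopologicalSpace X] [T2Space X] [CompactSpace X] [TopologicalSpace Y]
    [PreconnectedSpace Y] [Group G] [MulAction G Y] {p : Y → X} (hp : IsQuotientCoveringMap p G) :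
    ∃ (a : X → X → G) (γ : Y → G), (∀ x, Coh a x) ∧
      (∀ P : X → X → Prop, (∀ x, ∀ᶠ q : X × X in 𝓝 (x, x), P q.1 q.2) → ∀ x y c,
        ∃ (k : ℕ) (s : ℕ → X), s 0 = x ∧ s k = y ∧ lab a s k = c ∧
          ∀ i < k, P (s i) (s (i + 1))) ∧
      Function.Bijective (fun y => (p y, γ y)) ∧ (∀ g y, γ (g • y) = g * γ y) ∧
      ∀ y0, ∀ᶠ y in 𝓝 y0, γ y = γ y0 * a (p y0) (p y) := by
  classical
  have := hp.isCancelSMul
  have := hp.toContinuousConstSMul
  have pc : Continuous p := hp.isCoveringMap.continuous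
  obtain ⟨t, U, s, i, oU, hs, hi, hW⟩ := Tr.secs hp
  have ex : ∀ y y' : Y, ∃ g : G, p y = p y' → y = g • y' := fun y y' => by
    by_cases h : p y = p y'
    · obtain ⟨g, hg⟩ := hp.apply_eq_iff_mem_orbit.1 h
      exact ⟨g, fun _ => hg.symm⟩
    · exact ⟨1, fun h' => absurd h' h⟩
  choose T hT using ex
  have un : ∀ (g g' : G) (y : Y), g • y = g' • y → g = g' := fun g g' y h =>
    IsCancelSMul.right_cancel g g' y h
  have self : ∀ x, x ∈ U (i x) := fun x => by
    obtain ⟨W, h1, h2⟩ := hW x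
    exact h2 x (mem_of_mem_nhds h1) (mem_of_mem_nhds h1)
  have pσ : ∀ x, p (s (i x) x) = x := fun x => (hs _ x (self x)).2
  have ha : ∀ x q, q ∈ U (i x) → s (i x) q = T (s (i x) q) (s (i q) q) • s (i q) q :=
    fun x q hq => hT _ _ ((hs _ q hq).2.trans (pσ q).symm)
  have hγ : ∀ y, y = T y (s (i (p y)) (p y)) • s (i (p y)) (p y) := fun y => hT _ _ (pσ _).symm
  have coh : ∀ x, Coh (fun x q => T (s (i x) q) (s (i q) q)) x := by
    intro x
    obtain ⟨W, h1, h2⟩ := hW x
    have h3 : ∀ᶠ q in 𝓝 x, ∀ j ∈ t, ∀ l ∈ t, x ∈ U j → x ∈ U l →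
        s j q = T (s j x) (s l x) • s l q := by
      refine (eventually_all_finset t).2 fun j _ => (eventually_all_finset t).2 fun l _ => ?_
      by_cases hj : x ∈ U j
      · by_cases hl : x ∈ U l
        · have := Tr.lift_eq hp (t := fun q => T (s j x) (s l x) • s l q) (hs j x hj).1
            ((hs l x hl).1.const_smul _) (hT _ _ ((hs j x hj).2.trans (hs l x hl).2.symm)) (by
              filter_upwards [(oU j).mem_nhds hj, (oU l).mem_nhds hl] with w w1 w2
              rw [hp.map_smul, (hs j w w1).2, (hs l w w2).2])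
          exact this.mono fun q hq _ _ => hq
        · exact Eventually.of_forall fun q _ h => absurd h hl
      · exact Eventually.of_forall fun q h => absurd h hj
    have xW := mem_of_mem_nhds h1
    refine ⟨_, inter_mem h1 h3, fun q hq u hu v hv => un _ _ (s (i v) v) ?_⟩
    have e1 := ha q u (h2 q hq.1 hu.1)
    have e2 := hu.2 _ (hi q) _ (hi u) (h2 q hq.1 xW) (h2 u hu.1 xW)
    have e3 := hv.2 _ (hi q) _ (hi u) (h2 q hq.1 xW) (h2 u hu.1 xW)
    simp only
    rw [mul_smul, ← ha u v (h2 u hu.1 hv.1), ← ha q v (h2 q hq.1 hv.1),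
      un _ _ _ (e1.symm.trans e2), ← e3]
  have eqv : ∀ (g : G) y, T (g • y) (s (i (p (g • y))) (p (g • y))) =
      g * T y (s (i (p y)) (p y)) := fun g y => by
    refine un _ _ (s (i (p y)) (p y)) ?_
    have := hγ (g • y)
    rw [hp.map_smul] at this ⊢
    rw [mul_smul, ← hγ y, ← this]
  have loc : ∀ y0, ∀ᶠ y in 𝓝 y0, T y (s (i (p y)) (p y)) =
      T y0 (s (i (p y0)) (p y0)) * T (s (i (p y0)) (p y)) (s (i (p y)) (p y)) := by
    intro y0
    have m : ∀ᶠ y in 𝓝 y0, p y ∈ U (i (p y0)) :=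
      pc.continuousAt.preimage_mem_nhds ((oU _).mem_nhds (self _))
    have := Tr.lift_eq hp (s := id) (t := fun y => T y0 (s (i (p y0)) (p y0)) • s (i (p y0)) (p y))
      continuousAt_id (((hs _ _ (self (p y0))).1.comp pc.continuousAt).const_smul _) (hγ y0) (by
        filter_upwards [m] with w w1
        rw [hp.map_smul, (hs _ _ w1).2, id])
    filter_upwards [m, this] with y y1 y2
    refine un _ _ (s (i (p y)) (p y)) ?_
    rw [mul_smul, ← ha _ _ y1, ← hγ y]
    exact y2
  have sur : ∀ (x : X) (c : G), ∃ y, p y = x ∧ T y (s (i (p y)) (p y)) = c := fun x c => by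
    refine ⟨c • s (i x) x, by rw [hp.map_smul, pσ], un _ _ (s (i x) x) ?_⟩
    have := hγ (c • s (i x) x)
    rw [hp.map_smul, pσ] at this ⊢
    exact this.symm
  refine ⟨fun x q => T (s (i x) q) (s (i q) q), fun y => T y (s (i (p y)) (p y)), coh, ?_,
    ⟨fun y y' h => ?_, fun q => ?_⟩, eqv, loc⟩
  · intro P hP x y c
    have key := PreconnectedSpace.induction₂' (fun y y' : Y =>
      Tr.Ch (fun x q => T (s (i x) q) (s (i q) q)) P (p y) (p y')
        ((T y (s (i (p y)) (p y)))⁻¹ * T y' (s (i (p y')) (p y')))) (fun y0 => ?_)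
      ⟨fun y y' y'' h1 h2 => by simpa [mul_assoc] using h1.cat h2⟩
    · obtain ⟨y1, rfl, e1⟩ := sur x 1
      obtain ⟨y2, rfl, e2⟩ := sur y c
      have := key y1 y2
      rw [e1, e2, inv_one, one_mul] at this
      exact this
    · obtain ⟨W, h1, h2⟩ := coh (p y0)
      have xW := mem_of_mem_nhds h1
      have t1 : Tendsto (fun y => (p y0, p y)) (𝓝 y0) (𝓝 (p y0, p y0)) :=
        tendsto_const_nhds.prodMk_nhds pc.continuousAt
      have t2 : Tendsto (fun y => (p y, p y0)) (𝓝 y0) (𝓝 (p y0, p y0)) :=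
        pc.continuousAt.tendsto.prodMk_nhds tendsto_const_nhds
      filter_upwards [loc y0, t1.eventually (hP _), t2.eventually (hP _),
        pc.continuousAt.preimage_mem_nhds h1] with y l1 l2 l3 l4
      have o1 := mul_eq_left.1 (h2 _ xW _ xW _ xW)
      have o2 := (h2 _ xW _ l4 _ xW).trans o1
      rw [l1, inv_mul_cancel_left, mul_inv_rev, inv_mul_cancel_right,
        ← eq_inv_of_mul_eq_one_right o2]
      exact ⟨Tr.Ch.one l2, Tr.Ch.one l3⟩
  · simp only [Prod.mk.injEq] at h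
    rw [hγ y, hγ y', h.2, h.1]
  · obtain ⟨y, h1, h2⟩ := sur q.1 q.2
    exact ⟨y, Prod.ext h1 h2⟩

/-- the statement of `tr`. -/
def TrS : Prop := ∀ (X Y G : Type) [TopologicalSpace X] [T2Space X] [CompactSpace X]
  [TopologicalSpace Y] [PreconnectedSpace Y] [Group G] [MulAction G Y] (p : Y → X),
  IsQuotientCoveringMap p G → ∃ (a : X → X → G) (γ : Y → G), (∀ x, Coh a x) ∧
    (∀ P : X → X → Prop, (∀ x, ∀ᶠ q : X × X in 𝓝 (x, x), P q.1 q.2) → ∀ x y c,
      ∃ (k : ℕ) (s : ℕ → X), s 0 = x ∧ s k = y ∧ lab a s k = c ∧ ∀ i < k, P (s i) (s (i + 1))) ∧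
    Function.Bijective (fun y => (p y, γ y)) ∧ (∀ g y, γ (g • y) = g * γ y) ∧
    ∀ y0, ∀ᶠ y in 𝓝 y0, γ y = γ y0 * a (p y0) (p y)

theorem trS : TrS := fun _ _ _ _ _ _ _ _ _ _ _ hp => tr hp

end Pool.Agent.Lib.MP_813db1_ag.AS
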