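import Pool.Agent.Lib.MP_813db1_ag.AS.FAll
import Pool.Agent.Lib.MP_813db1_ag.AS.EAll
import Pool.Agent.Lib.MP_813db1_ag.AS.Tr

/-! No collapse with bounded geometry of the covering. -/

namespace Pool.Agent.Lib.MP_813db1_ag.AS

open Pool.Agent.Lib.MP_813db1_ag.HS Pool.Agent.Lib.MP_bbd4b9_ag.LC MeasureTheory Filter Topology Set

/-- the volume is bounded below in terms of the geometry of the covering. -/
def EndS : Prop := ∀ (ι : Type) [Fintype ι] [DecidableEq ι] (C D L : ℝ) (m : ℕ), ∃ v > (0 : ℝ),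
  ∀ (X Y G Z : Type) [TopologicalSpace X] [T2Space X] [CompactSpace X] [MeasurableSpace X]
  [BorelSpace X] [ChartedSpace (ι → ℂ) X] [TopologicalSpace Y] [SimplyConnectedSpace Y] [Group G]
  [MulAction G Y] [MulAction G Z] [PseudoMetricSpace Z] (K : Kahler ι X) (M : Atl ι X)
  (g h : X → Mat ι) (ν : Measure X) (p : Y → X) (Φ : Y → Z), atlas (ι → ℂ) X ⊆ M.A →
  (∀ x, M.ch x = chartAt (ι → ℂ) x) → M.IsK g →
  (∀ e ∈ atlas (ι → ℂ) X, ∀ z ∈ e.target, M.repF g e z = K.g e z) → IsQuotientCoveringMap p G →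
  Exact K p → NoAb G ∨ FinRep G → M.IsK h → M.IsVol h ν → Geo G Z C m (1 / 2) D →
  (∀ (γ : G) y, Φ (γ • y) = γ • Φ y) →
  (∀ y0, ∀ᶠ q : Y × Y in 𝓝 (y0, y0), dist (Φ q.1) (Φ q.2) ≤
    L * √(nV (h (p y0)) (M.ch (p y0) (p q.2) - M.ch (p y0) (p q.1)))) → v < ν.real univ

theorem endS (h1 : ScS) (h2 : EAllS) (h3 : VanS) : EndS := by
  intro ι _ _ C D L m
  obtain ⟨w, hw, N₀, hS⟩ := h1 C D m
  obtain ⟨v, hv, hE⟩ := h2 ι L w N₀ hw
  refine ⟨v, hv, ?_⟩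
  intro X Y G Z _ _ _ _ _ _ _ _ _ _ _ _ K M g h ν p Φ hA hc hg hr hp he hG hh hν hZ hΦ hL
  by_contra hn
  have : Nonempty Y := inferInstance
  have : Nonempty Z := Nonempty.map Φ this
  have : Nonempty X := Nonempty.map p inferInstance
  obtain ⟨fg, ⟨z, hz⟩, N, n1, n2, n3, n4⟩ := hS G Z (1 / 2) hZ le_rfl
  obtain ⟨U, k, u1, u2, u3, k1, k2⟩ := hE X Y G Z M h ν p Φ z hp hh hν (not_lt.1 hn) hZ.iso hΦ hL
    fun y => hz (Φ y)
  exact h3 ι X Y G (Fin N₀) K M g p N (fun i => Hs G (z i) (10 * w)) U k hA hc hg hr hp he fg hG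
    n1 n2 n3 (fun i => n4 (z i)) u1 u2 u3 k1 k2

/-- labels of nearby points. -/
theorem tr_near {X Y G : Type} [TopologicalSpace X] [TopologicalSpace Y] [Group G] {p : Y → X}
    (hp : Continuous p) {a : X → X → G} {γ : Y → G} (ha : ∀ x, Coh a x)
    (hγ : ∀ y0, ∀ᶠ y in 𝓝 y0, γ y = γ y0 * a (p y0) (p y)) {P : X → G → X → G → Prop} (y0 : Y)
    (hP : ∀ᶠ q : X × X in 𝓝 (p y0, p y0), ∀ c, P q.1 c q.2 (c * a q.1 q.2)) :
    ∀ᶠ q : Y × Y in 𝓝 (y0, y0), P (p q.1) (γ q.1) (p q.2) (γ q.2) := by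
  obtain ⟨W, h1, h2⟩ := ha (p y0)
  have t1 : Tendsto (fun q : Y × Y => q.1) (𝓝 (y0, y0)) (𝓝 y0) := continuousAt_fst
  have t2 : Tendsto (fun q : Y × Y => q.2) (𝓝 (y0, y0)) (𝓝 y0) := continuousAt_snd
  have s1 := (hp.tendsto y0).comp t1
  have s2 := (hp.tendsto y0).comp t2
  filter_upwards [(s1.prodMk_nhds s2).eventually hP, t1.eventually (hγ y0), t2.eventually (hγ y0),
    s1.eventually h1, s2.eventually h1] with q q0 q1 q2 q3 q4
  have := q0 (γ q.1)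
  simp only [Function.comp_apply] at this q3 q4
  rw [q2, ← h2 _ (mem_of_mem_nhds h1) _ q3 _ q4, ← mul_assoc, ← q1]
  exact this

end Pool.Agent.Lib.MP_813db1_ag.AS
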