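import Pool.Agent.Lib.MP_813db1_ag.HS.Stmt2

/-! The gap estimate for twisted Kaehler-Einstein metrics: statements. -/

namespace Pool.Agent.Lib.MP_813db1_ag.AS

open Pool.Agent.Lib.MP_813db1_ag.HS
open MeasureTheory Complex Matrix Filter Topology Set Metric
open scoped ContDiff ComplexOrder

/-- a lower barrier for `Ψ` at `y`. -/
def Barr {ι X : Type} [Fintype ι] [DecidableEq ι] [TopologicalSpace X] (M : Atl ι X)
    (h : X → Mat ι) (Ψ : X → ℝ) (A : ℝ) (y : X) : Prop :=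
  ∃ β : V ι → ℝ, ContDiffAt ℝ 2 β (M.ch y y) ∧ β (M.ch y y) = Ψ y ∧
    (∀ᶠ z in 𝓝 (M.ch y y), β z ≤ Ψ ((M.ch y).symm z)) ∧
    -A ≤ trm (h y) (levi (fun z => (β z : ℂ)) (M.ch y y))

/-- exponential tails of quasi-plurisubharmonic functions. -/
def TailH : Prop := ∀ (ι X : Type) [Fintype ι] [DecidableEq ι] [TopologicalSpace X] [T2Space X]
  [CompactSpace X] [ConnectedSpace X] [MeasurableSpace X] [BorelSpace X] (M : Atl ι X)
  (g : X → Mat ι) (μ : Measure X) (L : ℝ), M.IsK g → M.IsVol g μ → ∃ a > (0 : ℝ), ∃ B > (0 : ℝ),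
  ∀ ψ, M.Ck ∞ ψ → (∀ x, ((L : ℂ) • g x + M.ddc ψ x).PosSemidef) → ∀ x0, (∀ x, ψ x ≤ ψ x0) →
  ∀ T ≥ (0 : ℝ), μ.real {x | T ≤ ψ x0 - ψ x} ≤ B * Real.exp (-(a * T))

/-- small superlevel sets of almost subharmonic functions are followed by null sets. -/
def GapS : Prop := ∀ (ι X : Type) [Fintype ι] [DecidableEq ι] [Nonempty ι] [TopologicalSpace X]
  [T2Space X] [CompactSpace X] [ConnectedSpace X] [MeasurableSpace X] [BorelSpace X] (M : Atl ι X)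
  (g : X → Mat ι), M.IsK g → ∀ A δ : ℝ, 0 ≤ A → 0 < δ → ∃ φ > (0 : ℝ), ∀ ε ∈ Ioc (0 : ℝ) 1,
  ∀ (u : X → ℝ) (ν : Measure X), M.Sol g ε u → M.IsVol (M.hm g ε u) ν → ∀ (Ψ : X → ℝ) (s : ℝ),
    UpperSemicontinuous Ψ → BddBelow (range Ψ) → (∀ y, s ≤ Ψ y → Barr M (M.hm g ε u) Ψ A y) →
    ν.real {y | s ≤ Ψ y} ≤ φ * ν.real univ → ν {y | s + δ ≤ Ψ y} = 0

end Pool.Agent.Lib.MP_813db1_ag.AS
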