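import Pool.Agent.Lib.MP_813db1_ag.AS.StmtG
import Pool.Agent.Lib.MP_bbd4b9_ag.AF.Stmt

/-! The metric on the covering space: definitions and statements. -/

namespace Pool.Agent.Lib.MP_813db1_ag.AS

open Pool.Agent.Lib.MP_813db1_ag.HS Pool.Agent.Lib.MP_bbd4b9_ag Pool.Agent.Lib.MP_bbd4b9_ag.LC
open MeasureTheory Filter Topology Set Metric
open scoped ContDiff ComplexOrder

noncomputable section

/-- the covering space as a set. -/
def Tot (X G : Type) : Type := X × G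

/-- a point of the covering space. -/
def Tot.mk {X G : Type} (x : X) (γ : G) : Tot X G := (x, γ)

instance {X G : Type} [Group G] : MulAction G (Tot X G) where
  smul g y := (y.1, g * y.2)
  one_smul y := Prod.ext rfl (one_mul y.2)
  mul_smul g h y := Prod.ext rfl (mul_assoc g h y.2)

theorem Tot.smul_mk {X G : Type} [Group G] (g : G) (x : X) (γ : G) :
    g • Tot.mk x γ = Tot.mk x (g * γ) := rfl

theorem Tot.smul_fst {X G : Type} [Group G] (g : G) (y : Tot X G) : (g • y).1 = y.1 := rfl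

theorem Tot.smul_snd {X G : Type} [Group G] (g : G) (y : Tot X G) : (g • y).2 = g * y.2 := rfl

/-- the covering space is connected. -/
def Conn {X G : Type} [TopologicalSpace X] [Group G] (a : X → X → G) : Prop :=
  ∀ P : X → X → Prop, (∀ x, ∀ᶠ q : X × X in 𝓝 (x, x), P q.1 q.2) → ∀ (x y : X) (γ : G),
    ∃ (k : ℕ) (s : ℕ → X), s 0 = x ∧ s k = y ∧ lab a s k = γ ∧ ∀ i < k, P (s i) (s (i + 1))

/-- `Ψ` has a lower barrier at `y` whose Laplacian is at least `-A`. -/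
def Bar {ι X : Type} [Fintype ι] [DecidableEq ι] [TopologicalSpace X] (M : Atl ι X)
    (h : X → Mat ι) (A : ℝ) (Ψ : X → ℝ) (y : X) : Prop :=
  ∃ β : V ι → ℝ, ContDiffAt ℝ 2 β (M.ch y y) ∧ β (M.ch y y) = Ψ y ∧
    (∀ᶠ z in 𝓝 (M.ch y y), β z ≤ Ψ ((M.ch y).symm z)) ∧
    -A ≤ trm (h y) (levi (fun z => (β z : ℂ)) (M.ch y y))

/-- the properties of the metric on the covering space. -/
structure Met {ι X G : Type} [Fintype ι] [DecidableEq ι] [TopologicalSpace X] [Group G]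
    (M : Atl ι X) (h : X → Mat ι) (a : X → X → G) (C L A r₁ : ℝ)
    [PseudoMetricSpace (Tot X G)] : Prop where
  iso : ∀ (g : G) (y y' : Tot X G), dist (g • y) (g • y') = dist y y'
  geo : ∀ (y y' : Tot X G) (L : ℝ), dist y y' < L → ∃ (k : ℕ) (s : ℕ → Tot X G), s 0 = y ∧ s k = y' ∧
    (∀ i < k, dist (s i) (s (i + 1)) ≤ 1 / 2) ∧
    ∑ i ∈ Finset.range k, dist (s i) (s (i + 1)) < L
  cov : ∀ (y : Tot X G) (r R : ℝ), 0 < r → r ≤ R → R ≤ 1 → ∃ T : Finset (Tot X G),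
    (T.card : ℝ) ≤ C * (R / r) ^ (2 * Fintype.card ι) ∧ ball y R ⊆ ⋃ t ∈ T, ball t r
  disc : ∃ r > (0 : ℝ), ∀ (y : Tot X G) (g : G), dist y (g • y) < r → g = 1
  lip : ∀ x : X, ∀ᶠ q : X × X in 𝓝 (x, x), ∀ γ : G,
    dist (Tot.mk q.1 γ) (Tot.mk q.2 (γ * a q.1 q.2)) ≤ L * √(nV (h x) (M.ch x q.2 - M.ch x q.1))
  bar : ∀ x : X, ∃ Ψ : X → ℝ, UpperSemicontinuous Ψ ∧ (∀ y, 0 ≤ Ψ y ∧ Ψ y ≤ 1) ∧
    (∀ᶠ y in 𝓝 x, 1 / 2 ≤ Ψ y) ∧
    ∀ y, 0 < Ψ y → Bar M h A Ψ y ∧ ∃ γ : G, dist (Tot.mk x 1) (Tot.mk y γ) < r₁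

end

/-- the metric on the covering space. -/
def MetS : Prop := ∀ (ι : Type) [Fintype ι] [DecidableEq ι] [Nonempty ι], ∃ C L A r₁ : ℝ,
  0 ≤ L ∧ 0 ≤ A ∧ 0 < r₁ ∧ ∀ (X G : Type) [TopologicalSpace X] [T2Space X] [CompactSpace X]
  [MeasurableSpace X] [BorelSpace X] [Group G] (M : Atl ι X) (h : X → Mat ι) (a : X → X → G),
  M.IsK h → (∀ x, (M.ricF h x + h x).PosSemidef) → (∀ x, Coh a x) → Conn a →
  ∃ d : PseudoMetricSpace (Tot X G), @Met ι X G _ _ _ _ M h a C L A r₁ d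

/-! ### the pieces -/

/-- the symmetric length of a step. -/
noncomputable def ell {X : Type} (c : X → X → ℝ) (p q : X) : ℝ := √(c p q + c q p)

/-- the local structure of chains at scale `δ`. -/
structure LM {X G : Type} [TopologicalSpace X] [Group G] (c : X → X → ℝ) (a : X → X → G)
    (δ : ℝ) : Prop where
  pos : 0 < δ
  zero : ∀ p, c p p = 0
  sep : ∀ p q, p ≠ q → 0 < c p q
  cont : Continuous fun q : X × X => c q.1 q.2
  up : ∀ p q, c p q ≤ δ ^ 2 → ell c p q ^ 2 ≤ 4 * c p q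
  merge : ∀ (t : ℕ → X) (m : ℕ), act (ell c) m t ≤ δ →
    ell c (t 0) (t m) ≤ 2 * act (ell c) m t ∧ a (t 0) (t m) = lab a t m
  div : ∀ p q, ell c p q ≤ δ → ∀ m : ℕ, 1 ≤ m → ∃ t : ℕ → X, t 0 = p ∧ t m = q ∧
    ∀ i < m, ell c (t i) (t (i + 1)) ≤ 2 * ell c p q / m

/-- the local structure exists. -/
def LmS : Prop := ∀ (ι X G : Type) [Fintype ι] [DecidableEq ι] [TopologicalSpace X] [T2Space X]
  [CompactSpace X] [Group G] (M : Atl ι X) (h : X → Mat ι) (c : X → X → ℝ) (a : X → X → G),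
  M.IsK h → Cost M h c → (∀ x, Coh a x) → (∃ δ ≤ (1 : ℝ), LM c a δ) ∧
    ∀ x : X, ∀ᶠ q : X × X in 𝓝 (x, x),
      ell c q.1 q.2 ≤ 2 * √(nV (h x) (M.ch x q.2 - M.ch x q.1))

/-- the metric defined by chains, and its comparison with the energy. -/
structure DM {X G : Type} [Group G] (c : X → X → ℝ) (a : X → X → G) (δ : ℝ)
    [PseudoMetricSpace (Tot X G)] : Prop where
  iso : ∀ (g : G) (y y' : Tot X G), dist (g • y) (g • y') = dist y y'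
  geo : ∀ (y y' : Tot X G) (L : ℝ), dist y y' < L → ∃ (k : ℕ) (s : ℕ → Tot X G), s 0 = y ∧
    s k = y' ∧ (∀ i < k, dist (s i) (s (i + 1)) ≤ 1 / 2) ∧
    ∑ i ∈ Finset.range k, dist (s i) (s (i + 1)) < L
  disc : ∀ (y : Tot X G) (g : G), dist y (g • y) < δ → g = 1
  step : ∀ (p q : X) (γ : G), ell c p q ≤ δ / 2 →
    dist (Tot.mk p γ) (Tot.mk q (γ * a p q)) ≤ ell c p q
  le : ∀ R : ℝ, ∀ᶠ k : ℕ in atTop, ∀ (s : ℕ → X) (γ : G), k * act c k s ≤ R →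
    dist (Tot.mk (s 0) γ) (Tot.mk (s k) (γ * lab a s k)) ≤ 2 * √(k * act c k s)
  ge : ∀ L : ℝ, ∀ᶠ k : ℕ in atTop, ∀ (x y : X) (γ γ' : G), dist (Tot.mk x γ) (Tot.mk y γ') < L →
    ∃ s : ℕ → X, s 0 = x ∧ s k = y ∧ γ * lab a s k = γ' ∧ k * act c k s ≤ 64 * L ^ 2

def DmS : Prop := ∀ (X G : Type) [TopologicalSpace X] [Group G] (c : X → X → ℝ) (a : X → X → G)
  (δ : ℝ), δ ≤ 1 → LM c a δ → Conn a → ∃ d : PseudoMetricSpace (Tot X G), @DM X G _ c a δ d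

/-- the covering bound. -/
def CovS : Prop := ∀ (ι : Type) [Fintype ι] [DecidableEq ι] [Nonempty ι], ∃ C : ℝ,
  ∀ (X G : Type) [TopologicalSpace X] [T2Space X] [CompactSpace X] [MeasurableSpace X]
  [BorelSpace X] [Group G] (M : Atl ι X) (h : X → Mat ι) (c : X → X → ℝ) (a : X → X → G) (δ : ℝ)
  [PseudoMetricSpace (Tot X G)], M.IsK h → Cost M h c →
  (∀ x, (M.ricF h x + (((48 ^ 2 : ℝ)⁻¹ : ℝ) : ℂ) • h x).PosSemidef) → (∀ x, Coh a x) → DM c a δ →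
  ∀ (y : Tot X G) (r R : ℝ), 0 < r → r ≤ R → R ≤ 1 → ∃ T : Finset (Tot X G),
    (T.card : ℝ) ≤ C * (R / r) ^ (2 * Fintype.card ι) ∧ ball y R ⊆ ⋃ t ∈ T, ball t r

/-- the barrier function. -/
def BrS : Prop := ∀ (ι X : Type) [Fintype ι] [DecidableEq ι] [TopologicalSpace X] [T2Space X]
  [CompactSpace X] (M : Atl ι X) (h : X → Mat ι) (c : X → X → ℝ), M.IsK h → Cost M h c →
  (∀ x, (M.ricF h x + h x).PosSemidef) → ∀ x : X, ∀ᶠ k : ℕ in atTop, ∃ Ψ : X → ℝ,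
    UpperSemicontinuous Ψ ∧ (∀ y, 0 ≤ Ψ y ∧ Ψ y ≤ 1) ∧ (∀ᶠ y in 𝓝 x, 1 / 2 ≤ Ψ y) ∧
    ∀ y, 0 < Ψ y → Bar M h (Fintype.card ι + 2) Ψ y ∧
      ∃ s : ℕ → X, s 0 = x ∧ s k = y ∧ k * act c k s ≤ 1

end Pool.Agent.Lib.MP_813db1_ag.AS
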