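import Pool.Agent.Lib.MP_813db1_ag.AS.All
import Pool.Agent.Lib.MP_813db1_ag.AS.Main2
import Pool.Agent.Lib.MP_813db1_ag.AS.ExtT
import Pool.Agent.Lib.MP_813db1_ag.AS.FAll2
import Pool.Agent.Lib.MP_813db1_ag.AS.F3b

/-! All steps together, for an arbitrary connected normal covering. -/

namespace Pool.Agent.Lib.MP_813db1_ag.AS

open Pool.Agent.Lib.MP_813db1_ag.HS AY

theorem vanAll2 : VanS2 := vanS2 extT algAll liftS (f12S2 pouAll) (f3S2 pouAll) volS' repA'

theorem mainAll2 : MainS2 :=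
  main2 (maxAtl repA') repA' volS' solA solB gapAll metAll scAll eAllS vanAll2 bigS

end Pool.Agent.Lib.MP_813db1_ag.AS
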