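import Mathlib

/-! Local primitives glue on a simply connected space. -/

namespace Pool.Agent.Lib.MP_813db1_ag.AS

open Filter Topology Set

theorem cech {Y : Type} [TopologicalSpace Y] [SimplyConnectedSpace Y]
    [LocallyPathConnectedSpace Y] (f : Y → Y → ℝ)
    (h : ∀ y, ∀ᶠ z in 𝓝 y, ∃ c, ∀ᶠ w in 𝓝 z, f y w = f z w + c) :
    ∃ u : Y → ℝ, ∀ y, ∃ c, ∀ᶠ w in 𝓝 y, u w = f y w + c := by
  let B : Y → Set Y := fun y => interior {z | ∃ c, ∀ᶠ w in 𝓝 z, f y w = f z w + c}
  have hB : ∀ i j x, x ∈ B i → x ∈ B j →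
      ∀ᶠ w in 𝓝 x, f i w - f j w = f i x - f j x := fun i j x hi hj => by
    obtain ⟨c, hc⟩ := interior_subset hi
    obtain ⟨c', hc'⟩ := interior_subset hj
    have a := hc.self_of_nhds
    have b := hc'.self_of_nhds
    filter_upwards [hc, hc'] with w h1 h2
    linarith
  let Z : FiberBundleCore Y Y (WithDiscreteTopology ℝ) :=
    { baseSet := B
      isOpen_baseSet := fun _ => isOpen_interior
      indexAt := id
      mem_baseSet_at := fun x => mem_interior_iff_mem_nhds.2 (h x)
      coordChange := fun i j x v => WithTopology.toTopology ⊥ (v.ofTopology + (f i x - f j x))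
      coordChange_self := fun i x _ v => by simp
      continuousOn_coordChange := fun i j q hq => by
        refine ContinuousAt.continuousWithinAt ?_
        have e : (fun p : Y × WithDiscreteTopology ℝ =>
            (WithTopology.toTopology ⊥ (p.2.ofTopology + (f i p.1 - f j p.1)) :
              WithDiscreteTopology ℝ)) =ᶠ[𝓝 q]
            fun _ => WithTopology.toTopology ⊥ (q.2.ofTopology + (f i q.1 - f j q.1)) := by
          have a : ∀ᶠ p : Y × WithDiscreteTopology ℝ in 𝓝 q, p.2 = q.2 :=
            continuous_snd.continuousAt.eventually (isOpen_discrete {q.2} |>.mem_nhds rfl)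
          filter_upwards [a, continuous_fst.continuousAt.eventually (hB i j q.1 hq.1.1 hq.1.2)]
            with p h1 h2
          rw [h1, h2]
        exact continuousAt_const.congr e.symm
      coordChange_comp := fun i j k x _ v => by
        congr 1
        simp only
        ring }
  have hc : IsCoveringMap (Bundle.TotalSpace.proj : Z.TotalSpace → Y) :=
    FiberBundle.isCoveringMap (F := WithDiscreteTopology ℝ) (E := Z.Fiber)
  obtain ⟨y₀⟩ : Nonempty Y := inferInstance
  obtain ⟨F, ⟨-, hF⟩, -⟩ := hc.existsUnique_continuousMap_lifts (ContinuousMap.id Y) y₀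
    ⟨y₀, WithTopology.toTopology ⊥ 0⟩ rfl
  have hF1 : ∀ y, (F y).1 = y := fun y => congrFun hF y
  refine ⟨fun y => WithTopology.ofTopology (t := ⊥) (F y).2 + f (F y).1 (F y).1, fun y => ?_⟩
  have h1 : ContinuousAt (fun w => ((Z.localTriv y) (F w)).2) y := by
    refine continuousAt_snd.comp (ContinuousAt.comp (f := F) ?_ F.continuous.continuousAt)
    refine (Z.localTriv y).continuousAt ?_
    rw [Z.mem_localTriv_source, hF1]
    exact Z.mem_baseSet_at y
  have h2 := h1.eventually ((isOpen_discrete {((Z.localTriv y) (F y)).2}).mem_nhds rfl)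
  refine ⟨WithTopology.ofTopology (t := ⊥) ((Z.localTriv y) (F y)).2, ?_⟩
  filter_upwards [h2] with w hw
  have h3 : ((Z.localTriv y) (F w)).2 = ((Z.localTriv y) (F y)).2 := hw
  rw [← h3, Z.localTriv_apply]
  change _ = f y w + (WithTopology.ofTopology (t := ⊥) (F w).2 +
    (f (F w).1 (F w).1 - f y (F w).1))
  rw [hF1]
  ring

end Pool.Agent.Lib.MP_813db1_ag.AS
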