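import Pool.Agent.Lib.MP_813db1_ag.AS.StmtG
import Pool.Agent.Lib.MP_813db1_ag.AS.Cech
import Pool.Agent.Lib.MP_813db1_ag.HS.Defs

/-! The central extension attached to a primitive of an invariant two-form on a simply connected
covering. -/

namespace Pool.Agent.Lib.MP_813db1_ag.AS

open Filter Topology Set Metric
open scoped ContDiff

noncomputable section

variable {W X Y : Type} [NormedAddCommGroup W] [NormedSpace ℝ W] [TopologicalSpace X]
  [TopologicalSpace Y]

/-- `s` is a local inverse of `e ∘ p` at `z`. -/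
structure Sec (p : Y → X) (e : OpenPartialHomeomorph X W) (s : W → Y) (z : W) : Prop where
  mem : z ∈ e.target
  cont : ContinuousAt s z
  ev : ∀ᶠ w in 𝓝 z, p (s w) = e.symm w

namespace Sec

variable {p : Y → X} {e : OpenPartialHomeomorph X W} {s : W → Y} {z : W}

omit [NormedSpace ℝ W] in
theorem src (h : Sec p e s z) : p (s z) ∈ e.source := by
  rw [h.ev.self_of_nhds]
  exact e.map_target h.mem

omit [NormedSpace ℝ W] in
theorem pt (h : Sec p e s z) : e (p (s z)) = z := by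
  rw [h.ev.self_of_nhds, e.right_inv h.mem]

omit [NormedSpace ℝ W] in
theorem tend (hp : IsLocalHomeomorph p) (h : Sec p e s z) :
    Tendsto (fun y => e (p y)) (𝓝 (s z)) (𝓝 z) := by
  have a := (e.continuousAt h.src).comp hp.continuous.continuousAt
  rwa [ContinuousAt, Function.comp_apply, h.pt] at a

omit [NormedSpace ℝ W] in
theorem can (h : Sec p e s z) {φ : OpenPartialHomeomorph Y X} (h1 : s z ∈ φ.source)
    (h2 : p = φ) : ∀ᶠ w in 𝓝 z, s w = φ.symm (e.symm w) := by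
  filter_upwards [h.ev, h.cont.eventually (φ.open_source.mem_nhds h1)] with w a b
  rw [← a, h2, φ.left_inv b]

omit [NormedSpace ℝ W] in
theorem near (hp : IsLocalHomeomorph p) (h : Sec p e s z) : ∀ᶠ w in 𝓝 z, Sec p e s w := by
  obtain ⟨φ, h1, h2⟩ := hp (s z)
  have a : e.symm z ∈ φ.target := by
    rw [← h.ev.self_of_nhds, h2]
    exact φ.map_source h1
  filter_upwards [(h.can h1 h2).eventually_nhds, h.ev.eventually_nhds,
    e.open_target.mem_nhds h.mem,
    (e.continuousAt_symm h.mem).eventually (φ.open_target.mem_nhds a)] with w b c d f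
  exact ⟨d, ((φ.continuousAt_symm f).comp (e.continuousAt_symm d)).congr (EventuallyEq.symm b), c⟩

omit [NormedSpace ℝ W] in
theorem inv (hp : IsLocalHomeomorph p) (h : Sec p e s z) :
    ∀ᶠ y in 𝓝 (s z), s (e (p y)) = y := by
  obtain ⟨φ, h1, h2⟩ := hp (s z)
  filter_upwards [(h.tend hp).eventually (h.can h1 h2), φ.open_source.mem_nhds h1,
    hp.continuous.continuousAt.eventually (e.open_source.mem_nhds h.src)] with y a b c
  rw [a, e.left_inv c, h2, φ.left_inv b]

omit [NormedSpace ℝ W] in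
theorem ex (hp : IsLocalHomeomorph p) {y : Y} (h : p y ∈ e.source) :
    ∃ s, Sec p e s (e (p y)) ∧ s (e (p y)) = y := by
  obtain ⟨φ, h1, h2⟩ := hp y
  have a : e.symm (e (p y)) ∈ φ.target := by
    rw [e.left_inv h, h2]
    exact φ.map_source h1
  refine ⟨fun w => φ.symm (e.symm w), ⟨e.map_source h,
    (φ.continuousAt_symm a).comp (e.continuousAt_symm (e.map_source h)), ?_⟩, ?_⟩
  · filter_upwards [(e.continuousAt_symm (e.map_source h)).eventually (φ.open_target.mem_nhds a)]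
      with w b
    rw [h2, φ.right_inv b]
  · beta_reduce
    rw [e.left_inv h, h2, φ.left_inv h1]

omit [NormedSpace ℝ W] in
theorem smul {G : Type} [Group G] [MulAction G Y] [ContinuousConstSMul G Y]
    (hG : ∀ (g : G) y, p (g • y) = p y) (h : Sec p e s z) (g : G) :
    Sec p e (fun w => g • s w) z :=
  ⟨h.mem, h.cont.const_smul g, h.ev.mono fun w a => by rw [hG, a]⟩

end Sec

/-- one-forms on the covering. -/
abbrev F1 (W X Y : Type) [NormedAddCommGroup W] [NormedSpace ℝ W] [TopologicalSpace X] : Type :=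
  OpenPartialHomeomorph X W → Y → W →L[ℝ] ℝ

/-- `u` has differential `β` at `y`. -/
def PrAt (A : Set (OpenPartialHomeomorph X W)) (p : Y → X) (β : F1 W X Y) (u : Y → ℝ) (y : Y) :
    Prop :=
  ∀ e ∈ A, ∀ s z, Sec p e s z → s z = y → HasFDerivAt (fun w => u (s w)) (β e y) z

variable {A : Set (OpenPartialHomeomorph X W)} {p : Y → X} {β : F1 W X Y}

theorem PrAt.congr {u u' : Y → ℝ} {y : Y} {c : ℝ} (h : PrAt A p β u y)
    (h1 : ∀ᶠ w in 𝓝 y, u' w = u w + c) : PrAt A p β u' y := fun e he s z hs hz => by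
  refine ((h e he s z hs hz).add_const c).congr_of_eventuallyEq ?_
  subst hz
  exact hs.cont.eventually h1

theorem PrAt.const (hp : IsLocalHomeomorph p) (hA : ∀ x, ∃ e ∈ A, x ∈ e.source) {u u' : Y → ℝ}
    {y : Y} (h : ∀ᶠ w in 𝓝 y, PrAt A p β u w) (h' : ∀ᶠ w in 𝓝 y, PrAt A p β u' w) :
    ∃ c, ∀ᶠ w in 𝓝 y, u w = u' w + c := by
  obtain ⟨e, he, hy⟩ := hA (p y)
  obtain ⟨s, hs, h1⟩ := Sec.ex hp hy
  have a : ∀ᶠ w in 𝓝 (e (p y)),
      HasFDerivAt (fun w => u (s w) - u' (s w)) (0 : W →L[ℝ] ℝ) w := by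
    have t : Tendsto s (𝓝 (e (p y))) (𝓝 y) := by
      have := hs.cont
      rwa [ContinuousAt, h1] at this
    filter_upwards [hs.near hp, t.eventually h, t.eventually h'] with w b c d
    simpa using (c e he s w b rfl).fun_sub (d e he s w b rfl)
  obtain ⟨r, hr, hb⟩ := Metric.eventually_nhds_iff_ball.1 a
  have b : ∀ w ∈ ball (e (p y)) r, u (s w) - u' (s w) = u (s (e (p y))) - u' (s (e (p y))) :=
    fun w hw => isOpen_ball.is_const_of_fderiv_eq_zero (𝕜 := ℝ) (convex_ball _ _).isPreconnected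
      (fun v hv => (hb v hv).differentiableAt.differentiableWithinAt)
      (fun v hv => (hb v hv).fderiv) hw (mem_ball_self hr)
  refine ⟨u y - u' y, ?_⟩
  have i := hs.inv hp
  have t := hs.tend hp
  rw [h1] at i t b
  filter_upwards [i, t.eventually (ball_mem_nhds _ hr)] with w c d
  have := b _ d
  rw [c] at this
  linarith

/-- compatible one-forms. -/
def Cmp (A : Set (OpenPartialHomeomorph X W)) (p : Y → X) (β : F1 W X Y) : Prop :=
  ∀ e ∈ A, ∀ e' ∈ A, ∀ y, p y ∈ e.source → p y ∈ e'.source →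
    β e y = (β e' y).comp (fderiv ℝ (e' ∘ e.symm) (e (p y)))

theorem exists_prAt [CompleteSpace W] (hp : IsLocalHomeomorph p)
    (hA : ∀ x, ∃ e ∈ A, x ∈ e.source)
    (hT : ∀ e ∈ A, ∀ e' ∈ A, ∀ x ∈ e.source, x ∈ e'.source →
      DifferentiableAt ℝ (e' ∘ e.symm) (e x))
    (h1 : Cmp A p β)
    (h2 : ∀ e ∈ A, ∀ s z, Sec p e s z → DifferentiableAt ℝ (fun w => β e (s w)) z ∧
      ∀ a b, fderiv ℝ (fun w => β e (s w)) z a b = fderiv ℝ (fun w => β e (s w)) z b a)
    (y : Y) : ∃ f : Y → ℝ, ∀ᶠ w in 𝓝 y, PrAt A p β f w := by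
  obtain ⟨e, he, hy⟩ := hA (p y)
  obtain ⟨s, hs, hz⟩ := Sec.ex hp hy
  obtain ⟨r, hr, hb⟩ := Metric.eventually_nhds_iff_ball.1 (hs.near hp)
  obtain ⟨F, hF⟩ : ∃ F : W → ℝ, ∀ w ∈ ball (e (p y)) r, HasFDerivAt F (β e (s w)) w :=
    (convex_ball (e (p y)) r).exists_forall_hasFDerivAt_of_fderiv_symmetric isOpen_ball
    (fun w hw => (h2 e he s w (hb w hw)).1.differentiableWithinAt)
    (fun w hw => (h2 e he s w (hb w hw)).2)
  refine ⟨fun w => F (e (p w)), ?_⟩
  have i := hs.inv hp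
  have t := hs.tend hp
  rw [hz] at i t
  filter_upwards [i, t.eventually (ball_mem_nhds _ hr),
    hp.continuous.continuousAt.eventually (e.open_source.mem_nhds hy)] with w a b c
  intro e' he' s' z' hs' hz'
  have d : p w ∈ e'.source := hz' ▸ hs'.src
  have q : e' (p w) = z' := hz' ▸ hs'.pt
  have k := hF _ b
  rw [a] at k
  have m := (hT e' he' e he (p w) d c).hasFDerivAt
  have n : (e ∘ e'.symm) (e' (p w)) = e (p w) := by simp [e'.left_inv d]
  rw [← n] at k
  have o := k.comp (e' (p w)) m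
  rw [← h1 e' he' e he w d c, q] at o
  refine o.congr_of_eventuallyEq ?_
  filter_upwards [hs'.ev] with v hv
  simp [hv]

theorem exists_pr [CompleteSpace W] [SimplyConnectedSpace Y] [LocallyPathConnectedSpace Y]
    (hp : IsLocalHomeomorph p) (hA : ∀ x, ∃ e ∈ A, x ∈ e.source)
    (hT : ∀ e ∈ A, ∀ e' ∈ A, ∀ x ∈ e.source, x ∈ e'.source →
      DifferentiableAt ℝ (e' ∘ e.symm) (e x))
    (h1 : Cmp A p β)
    (h2 : ∀ e ∈ A, ∀ s z, Sec p e s z → DifferentiableAt ℝ (fun w => β e (s w)) z ∧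
      ∀ a b, fderiv ℝ (fun w => β e (s w)) z a b = fderiv ℝ (fun w => β e (s w)) z b a) :
    ∃ u : Y → ℝ, ∀ y, PrAt A p β u y := by
  choose f hf using exists_prAt hp hA hT h1 h2
  obtain ⟨u, hu⟩ := cech f fun y => (hf y).eventually_nhds.mono fun z hz =>
    PrAt.const hp hA hz (hf z)
  refine ⟨u, fun y => ?_⟩
  obtain ⟨c, hc⟩ := hu y
  exact (hf y).self_of_nhds.congr hc

theorem PrAt.smooth (hp : IsLocalHomeomorph p) {u : Y → ℝ} (h : ∀ y, PrAt A p β u y)
    {e : OpenPartialHomeomorph X W} (he : e ∈ A) {s : W → Y} {z : W} (hs : Sec p e s z)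
    (h1 : ContDiffAt ℝ ∞ (fun w => β e (s w)) z) : ContDiffAt ℝ ∞ (fun w => u (s w)) z := by
  refine contDiffAt_infty.2 fun n => ?_
  refine ContDiffAt.of_le (n := (n : ℕ) + 1) ?_ le_self_add
  refine contDiffAt_succ_iff_hasFDerivAt.2 ⟨_, ⟨_, hs.near hp, fun w hw => ?_⟩,
    contDiffAt_infty.1 h1 n⟩
  exact h _ e he s w hw rfl

/-- the semidirect product of the group and the functions. -/
@[ext] structure SD (G Y : Type) where
  g : G
  u : Y → ℝ

variable {G : Type} [Group G] [MulAction G Y]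

instance : Group (SD G Y) where
  mul a b := ⟨a.g * b.g, fun y => a.u (b.g • y) + b.u y⟩
  one := ⟨1, fun _ => 0⟩
  inv a := ⟨a.g⁻¹, fun y => -a.u (a.g⁻¹ • y)⟩
  mul_assoc a b c := SD.ext (mul_assoc _ _ _) (funext fun y => by
    change a.u (b.g • c.g • y) + b.u (c.g • y) + c.u y =
      a.u ((b.g * c.g) • y) + (b.u (c.g • y) + c.u y)
    rw [mul_smul, add_assoc])
  one_mul a := SD.ext (one_mul _) (funext fun y => zero_add _)
  mul_one a := SD.ext (mul_one _) (funext fun y => by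
    change a.u ((1 : G) • y) + 0 = a.u y
    rw [one_smul, add_zero])
  inv_mul_cancel a := SD.ext (inv_mul_cancel _) (funext fun y => by
    change -a.u (a.g⁻¹ • a.g • y) + a.u y = 0
    rw [inv_smul_smul, neg_add_cancel])

/-- the pairs `(g, u)` with `d u = g^* α - α`. -/
def ext [ContinuousConstSMul G Y] (hG : ∀ (g : G) y, p (g • y) = p y)
    (A : Set (OpenPartialHomeomorph X W)) (α : F1 W X Y) : Subgroup (SD G Y) where
  carrier := {x | ∀ y, PrAt A p (fun e y => α e (x.g • y) - α e y) x.u y}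
  one_mem' := fun y e _ s z _ _ => by
    change HasFDerivAt (fun _ => (0 : ℝ)) (α e ((1 : G) • y) - α e y) z
    rw [one_smul, sub_self]
    exact hasFDerivAt_const _ _
  mul_mem' := fun {a b} ha hb y e he s z hs hz => by
    have h := (ha (b.g • y) e he _ z (hs.smul hG b.g) (by rw [hz])).fun_add (hb y e he s z hs hz)
    change HasFDerivAt (fun w => a.u (b.g • s w) + b.u (s w))
      (α e ((a.g * b.g) • y) - α e y) z
    simpa only [mul_smul, sub_add_sub_cancel] using h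
  inv_mem' := fun {a} ha y e he s z hs hz => by
    have h := (ha (a.g⁻¹ • y) e he _ z (hs.smul hG a.g⁻¹) (by rw [hz])).fun_neg
    change HasFDerivAt (fun w => -a.u (a.g⁻¹ • s w)) (α e (a.g⁻¹ • y) - α e y) z
    simpa only [smul_inv_smul, neg_sub] using h

/-- the central extension. -/
theorem ext_ex [CompleteSpace W] [SimplyConnectedSpace Y] [LocallyPathConnectedSpace Y]
    [ContinuousConstSMul G Y] (hp : IsLocalHomeomorph p) (hG : ∀ (g : G) y, p (g • y) = p y)
    (hA : ∀ x, ∃ e ∈ A, x ∈ e.source)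
    (hT : ∀ e ∈ A, ∀ e' ∈ A, ∀ x ∈ e.source, x ∈ e'.source →
      DifferentiableAt ℝ (e' ∘ e.symm) (e x))
    (α : F1 W X Y) (Om : OpenPartialHomeomorph X W → W → W → W → ℝ)
    (h1 : ∀ e ∈ A, ∀ e' ∈ A, ∀ y, p y ∈ e.source → p y ∈ e'.source →
      α e y = (α e' y).comp (fderiv ℝ (e' ∘ e.symm) (e (p y))))
    (h2 : ∀ e ∈ A, ∀ z ∈ e.target, ∀ s : W → Y, ContinuousAt s z →
      (∀ᶠ w in 𝓝 z, p (s w) = e.symm w) → ContDiffAt ℝ ∞ (fun w => α e (s w)) z ∧
        ∀ a b, fderiv ℝ (fun w => α e (s w)) z a b - fderiv ℝ (fun w => α e (s w)) z b a =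
          Om e z a b) :
    ∃ (E : Type) (_ : Group E) (c : CE G E) (u : E → Y → ℝ),
      (∀ x x' y, u (x * x') y = u x (c.π x' • y) + u x' y) ∧
      (∀ t y, u (c.ζ (Multiplicative.ofAdd t)) y = t) ∧
      ∀ x, ∀ e ∈ A, ∀ z ∈ e.target, ∀ s : W → Y, ContinuousAt s z →
        (∀ᶠ w in 𝓝 z, p (s w) = e.symm w) → ContDiffAt ℝ ∞ (fun w => u x (s w)) z ∧
          fderiv ℝ (fun w => u x (s w)) z = α e (c.π x • s z) - α e (s z) := by
  have hs : ∀ (g : G), ∀ e ∈ A, ∀ s z, Sec p e s z →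
      ContDiffAt ℝ ∞ (fun w => α e (g • s w) - α e (s w)) z ∧
      ∀ a b, fderiv ℝ (fun w => α e (g • s w) - α e (s w)) z a b =
        fderiv ℝ (fun w => α e (g • s w) - α e (s w)) z b a := fun g e he s z h => by
    obtain ⟨a1, a2⟩ := h2 e he z h.mem s h.cont h.ev
    obtain ⟨b1, b2⟩ := h2 e he z h.mem _ (h.smul hG g).cont (h.smul hG g).ev
    refine ⟨b1.sub a1, fun a b => ?_⟩
    rw [fderiv_fun_sub (b1.differentiableAt (by simp)) (a1.differentiableAt (by simp))]
    simp only [sub_apply]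
    linarith [a2 a b, b2 a b]
  have hz : ∀ t : ℝ, (⟨1, fun _ => t⟩ : SD G Y) ∈ ext hG A α := fun t y e _ s z _ _ => by
    change HasFDerivAt (fun _ => t) (α e ((1 : G) • y) - α e y) z
    rw [one_smul, sub_self]
    exact hasFDerivAt_const _ _
  obtain ⟨y₀⟩ : Nonempty Y := inferInstance
  refine ⟨ext hG A α, inferInstance,
    { π := MonoidHom.mk' (fun x => x.1.g) fun _ _ => rfl
      ζ := MonoidHom.mk' (fun t => ⟨_, hz t.toAdd⟩) fun a b =>
        Subtype.ext (SD.ext (one_mul _).symm rfl)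
      surj := fun g => ?_
      inj := fun a b h => congrFun (congrArg (fun x : ext hG A α => x.1.u) h) y₀
      ker := fun x => ⟨fun h => ?_, ?_⟩
      cen := fun t x => Subtype.ext (SD.ext ((one_mul _).trans (mul_one _).symm) (funext fun y => ?_)) },
    fun x => x.1.u, fun _ _ _ => rfl, fun _ _ => rfl, fun x e he z hz s h3 h4 => ?_⟩
  · obtain ⟨u, hu⟩ := exists_pr (β := fun e y => α e (g • y) - α e y) hp hA hT
      (fun e he e' he' y a b => by
        have := h1 e he e' he' (g • y) (by rwa [hG]) (by rwa [hG])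
        rw [hG] at this
        beta_reduce
        rw [this, h1 e he e' he' y a b, ContinuousLinearMap.sub_comp])
      fun e he s z h => ⟨(hs g e he s z h).1.differentiableAt (by simp), (hs g e he s z h).2⟩
    exact ⟨⟨⟨g, u⟩, hu⟩, rfl⟩
  · have h' : x.1.g = 1 := h
    have a : IsLocallyConstant x.1.u := (IsLocallyConstant.iff_eventually_eq _).2 fun y => by
      obtain ⟨c, hc⟩ := PrAt.const hp hA (y := y) (Eventually.of_forall x.2)
        (Eventually.of_forall (by rw [h']; exact hz 0))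
      filter_upwards [hc] with w hw
      rw [hw, hc.self_of_nhds]
    exact ⟨Multiplicative.ofAdd (x.1.u y₀), Subtype.ext (SD.ext h'.symm
      (funext fun y => a.apply_eq_of_preconnectedSpace _ _))⟩
  · rintro ⟨t, rfl⟩
    rfl
  · change t.toAdd + x.1.u y = x.1.u ((1 : G) • y) + t.toAdd
    rw [one_smul, add_comm]
  · exact ⟨PrAt.smooth hp x.2 he ⟨hz, h3, h4⟩ (hs _ e he s z ⟨hz, h3, h4⟩).1,
      (x.2 _ e he s z ⟨hz, h3, h4⟩ rfl).fderiv⟩

omit [NormedSpace ℝ W] in
theorem lpc [LocallyPathConnectedSpace W] (hp : IsLocalHomeomorph p)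
    (hA : ∀ x, ∃ e ∈ A, x ∈ e.source) : LocallyPathConnectedSpace Y := by
  choose φ h1 h2 using hp
  choose e _ h3 using hA
  let _ : ChartedSpace W Y :=
    { atlas := range fun y => (φ y).trans (e (p y))
      chartAt := fun y => (φ y).trans (e (p y))
      mem_chart_source := fun y => ⟨h1 y, by
        change φ y y ∈ (e (p y)).source
        rw [← h2 y]
        exact h3 _⟩
      chart_mem_atlas := fun y => ⟨y, rfl⟩ }
  exact ChartedSpace.locallyPathConnectedSpace W Y

end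

open Pool.Agent.Lib.MP_813db1_ag.HS in
/-- the central extension on the universal covering. -/
def ExtS : Prop := ∀ (ι X Y G : Type) [Fintype ι] [TopologicalSpace X] [TopologicalSpace Y]
  [Group G] [MulAction G Y] [SimplyConnectedSpace Y] (M : Atl ι X) (S : Set (Ch ι X)) (p : Y → X)
  (α : Ch ι X → Y → V ι →L[ℝ] ℝ) (Om : Ch ι X → V ι → V ι → V ι → ℝ),
  S ⊆ M.A → (∀ x, ∃ e ∈ S, x ∈ e.source) → IsQuotientCoveringMap p G →
  (∀ e ∈ S, ∀ e' ∈ S, ∀ y, p y ∈ e.source → p y ∈ e'.source →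
    α e y = (α e' y).comp (fderiv ℝ (e' ∘ e.symm) (e (p y)))) →
  (∀ e ∈ S, ∀ z ∈ e.target, ∀ s : V ι → Y, ContinuousAt s z →
    (∀ᶠ w in 𝓝 z, p (s w) = e.symm w) → ContDiffAt ℝ ∞ (fun w => α e (s w)) z ∧
      ∀ a b, fderiv ℝ (fun w => α e (s w)) z a b - fderiv ℝ (fun w => α e (s w)) z b a =
        Om e z a b) →
  ∃ (E : Type) (_ : Group E) (c : CE G E) (u : E → Y → ℝ),
    (∀ x x' y, u (x * x') y = u x (c.π x' • y) + u x' y) ∧
    (∀ t y, u (c.ζ (Multiplicative.ofAdd t)) y = t) ∧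
    ∀ x, ∀ e ∈ S, ∀ z ∈ e.target, ∀ s : V ι → Y, ContinuousAt s z →
      (∀ᶠ w in 𝓝 z, p (s w) = e.symm w) → ContDiffAt ℝ ∞ (fun w => u x (s w)) z ∧
        fderiv ℝ (fun w => u x (s w)) z = α e (c.π x • s z) - α e (s z)

theorem extS : ExtS := fun _ _ _ _ _ _ _ _ _ _ M _ _ α Om hS hA hp h1 h2 => by
  have := hp.toContinuousConstSMul
  have := lpc hp.isCoveringMap.isLocalHomeomorph hA
  exact ext_ex hp.isCoveringMap.isLocalHomeomorph (fun g _ => hp.map_smul g) hA
    (fun e he e' he' x a b =>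
      (M.hol e (hS he) e' (hS he') x a b).differentiableAt.restrictScalars ℝ) α Om h1 h2

end Pool.Agent.Lib.MP_813db1_ag.AS
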