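import Pool.Agent.Lib.MP_813db1_ag.AS.F3b
import Pool.Agent.Lib.MP_813db1_ag.AS.Ext
import Pool.Agent.Lib.MP_813db1_ag.HS.AYAll
import Pool.Agent.Lib.MP_813db1_ag.HS.Cov

/-! An exact Kaehler form on the universal covering gives an essential class. -/

namespace Pool.Agent.Lib.MP_813db1_ag.AS

open Pool.Agent.Lib.MP_813db1_ag.HS Pf
open MeasureTheory Filter Topology Set Function Matrix
open scoped ContDiff ComplexOrder

theorem half_bil {ι : Type} [Fintype ι] [DecidableEq ι] {H : Mat ι} (hH : H.IsHermitian) :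
    ∃ B : Bil (V ι), ∀ u v, B u v - B v u = (ipV H u v).im := by
  let b : V ι →ₗ[ℝ] V ι →ₗ[ℝ] ℝ := LinearMap.mk₂ ℝ (fun u v => (ipV H u v).im / 2)
    (fun a b c => by
      simp only [ipV, Pi.add_apply, mul_add, add_mul, Finset.sum_add_distrib, Complex.add_im]
      ring)
    (fun t a b => by
      simp only [ipV, Pi.smul_apply, Complex.real_smul, smul_eq_mul, ← mul_div_assoc,
        ← Complex.im_ofReal_mul, Finset.mul_sum]
      congr 2
      exact Finset.sum_congr rfl fun i _ => Finset.sum_congr rfl fun j _ => by ring)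
    (fun a b c => by
      simp only [ipV, Pi.add_apply, star_add, mul_add, Finset.sum_add_distrib, Complex.add_im]
      ring)
    (fun t a b => by
      simp only [ipV, Pi.smul_apply, Complex.real_smul, smul_eq_mul, ← mul_div_assoc,
        ← Complex.im_ofReal_mul, Finset.mul_sum, star_mul', Complex.star_def, Complex.conj_ofReal]
      congr 2
      exact Finset.sum_congr rfl fun i _ => Finset.sum_congr rfl fun j _ => by ring)
  refine ⟨LinearMap.toContinuousLinearMap
    ((LinearMap.toContinuousLinearMap (E := V ι) (F' := ℝ)).toLinearMap ∘ₗ b), fun u v => ?_⟩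
  have e : ipV H v u = star (ipV H u v) := by
    simp only [ipV, star_sum, star_mul', star_star]
    rw [Finset.sum_comm]
    refine Finset.sum_congr rfl fun i _ => Finset.sum_congr rfl fun j _ => ?_
    rw [hH.apply]
    ring
  change (ipV H u v).im / 2 - (ipV H v u).im / 2 = _
  rw [e, Complex.star_def, Complex.conj_im]
  ring

theorem essS : EssS := by
  intro ι X Y G _ _ _ _ _ _ _ _ _ _ _ _ _ _ K p hq ⟨α, a1, a2⟩
  obtain ⟨M, g, hA, -, hg, hr⟩ := maxAtl AY.repA' ι X K
  obtain ⟨E, _, c, u, -, -, e3⟩ := extS ι X Y G M _ p α _ hA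
    (fun x => ⟨_, chart_mem_atlas _ x, mem_chart_source _ x⟩) hq a1 a2
  obtain ⟨⟨μ, hμ⟩, hV⟩ := AY.volS' ι X M g hg
  choose l hl using c.surj
  refine ⟨fun e z a b => (ipV (K.g e z) a b).im, α, fun γ => u (l γ), μ, a1,
    fun e he z hz s s1 s2 => ⟨a2 e he z hz s s1 s2, fun γ => ?_⟩, fun e he => ?_, ?_⟩
  · have h := e3 (l γ) e he z hz s s1 s2
    rwa [hl] at h
  · rw [hμ e (hA he)]
    congr 1
    refine withDensity_congr_ae ?_
    filter_upwards [ae_restrict_mem e.open_target.measurableSet] with z hz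
    rw [hr e he z hz]
  · have := (hV μ hμ).fin
    have := (hV μ hμ).pos
    have e : ∀ x, topF (fun a b => (ipV (K.g (chartAt (ι → ℂ) x) (chartAt (ι → ℂ) x x)) a b).im) /
        (K.g (chartAt (ι → ℂ) x) (chartAt (ι → ℂ) x x)).det.re =
        2 ^ Fintype.card ι * ((-1 / 2) ^ Fintype.card ι * c0 ι) := fun x => by
      have hp := K.pos _ (chart_mem_atlas _ x) _ (mem_chart_target _ x)
      obtain ⟨B, hB⟩ := half_bil hp.1
      rw [F3.top_eq hB, mul_div_assoc, F3.P_form hp hB]
    simp only [e, integral_const, smul_eq_mul]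
    exact mul_ne_zero (ENNReal.toReal_pos (isOpen_univ.measure_pos μ univ_nonempty).ne'
      (measure_ne_top μ _)).ne' (mul_ne_zero (pow_ne_zero _ (by norm_num))
        (mul_ne_zero (pow_ne_zero _ (by norm_num)) c0_pos.ne'))

end Pool.Agent.Lib.MP_813db1_ag.AS
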