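import Pool.Agent.Lib.MP_813db1_ag.AS.S2Stmt
import Pool.Agent.Lib.MP_813db1_ag.HS.AYAll

/-! Algebra of the twisted operator. -/

namespace Pool.Agent.Lib.MP_813db1_ag.HS

open Complex Matrix Filter Topology Set Metric
open scoped ContDiff ComplexOrder

variable {ι X : Type} [Fintype ι] [DecidableEq ι] [TopologicalSpace X]

section Local

variable {a : ℕ} {c : ι → V ι → ℂ} {H : V ι → Mat ι} {F G φ : V ι → ℂ} {z : V ι}

theorem boxG_eq (h : ContDiffAt ℝ 2 F z) : boxG c H F z =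
    ∑ i, ∑ j, leviL i j (fderiv ℝ (fderiv ℝ F) z) * (H z)⁻¹ j i -
      ∑ i, ∑ j, (H z)⁻¹ j i * c i z * dzbL j (fderiv ℝ F z) := by
  simp only [boxG, lapL, trace, diag, Matrix.mul_apply, levi_eq h, dzb_eq]

theorem boxG_congr (h : F =ᶠ[𝓝 z] G) : boxG c H F z = boxG c H G z := by
  simp only [boxG, lapL, levi_congr h, dzb_congr h]

theorem boxG_zero : boxG c H (fun _ => 0) z = 0 := by
  rw [boxG_eq contDiffAt_const]
  have e : fderiv ℝ (fun _ : V ι => (0 : ℂ)) = fun _ => 0 := funext fun _ => by simp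
  simp [e]

theorem boxG_add (hF : ContDiffAt ℝ 2 F z) (hG : ContDiffAt ℝ 2 G z) :
    boxG c H (fun w => F w + G w) z = boxG c H F z + boxG c H G z := by
  simp only [boxG, lapL, levi_add' hF hG, dzb_add (hF.differentiableAt two_ne_zero)
    (hG.differentiableAt two_ne_zero), Matrix.add_mul, trace_add, mul_add, Finset.sum_add_distrib]
  ring

theorem boxG_cmul (d : ℂ) (hF : ContDiffAt ℝ 2 F z) :
    boxG c H (fun w => d * F w) z = d * boxG c H F z := by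
  simp only [boxG, lapL, levi_cmul' d hF, dzb_cmul d (hF.differentiableAt two_ne_zero),
    Matrix.smul_mul, trace_smul, smul_eq_mul, mul_sub, Finset.mul_sum]
  congr 1
  refine Finset.sum_congr rfl fun i _ => Finset.sum_congr rfl fun j _ => by ring

theorem boxG_bound (c : ι → V ι → ℂ) (H : V ι → Mat ι) (z : V ι) : ∃ k ≥ (0 : ℝ),
    ∀ (F : V ι → ℂ) (B : ℝ), ContDiffAt ℝ 2 F z → ‖fderiv ℝ F z‖ ≤ B →
    ‖fderiv ℝ (fderiv ℝ F) z‖ ≤ B → ‖boxG c H F z‖ ≤ k * B := by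
  refine ⟨∑ i, ∑ j, ‖(H z)⁻¹ j i‖ + ∑ i, ∑ j, ‖(H z)⁻¹ j i * c i z‖, by positivity,
    fun F B h h1 h2 => ?_⟩
  rw [boxG_eq h, add_mul, Finset.sum_mul, Finset.sum_mul]
  refine (norm_sub_le _ _).trans (add_le_add ?_ ?_)
  · refine norm_sum_le_of_le _ fun i _ => ?_
    rw [Finset.sum_mul]
    refine norm_sum_le_of_le _ fun j _ => ?_
    rw [norm_mul, mul_comm]
    exact mul_le_mul_of_nonneg_left ((norm_leviL i j _).trans (by linarith)) (norm_nonneg _)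
  · refine norm_sum_le_of_le _ fun i _ => ?_
    rw [Finset.sum_mul]
    refine norm_sum_le_of_le _ fun j _ => ?_
    rw [norm_mul]
    exact mul_le_mul_of_nonneg_left (((dzbL j).le_of_opNorm_le (norm_dzbL j) _).trans
      (by linarith)) (norm_nonneg _)

/-- the twisted operator is `boxL` plus a first order term. -/
theorem boxG_cfT (a : ℕ) (H : V ι → Mat ι) (φ F : V ι → ℂ) (z : V ι) :
    boxG (cfT a H φ) H F z = boxL a H F z + ∑ i, dz φ i z * shp H F z i := by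
  simp only [boxG, boxL, cfT, shp, Finset.mul_sum]
  rw [sub_add, ← Finset.sum_sub_distrib]
  congr 1
  refine Finset.sum_congr rfl fun i _ => ?_
  rw [← Finset.sum_sub_distrib]
  exact Finset.sum_congr rfl fun j _ => by ring

theorem cd_cfT (hH : CdM ∞ H z) (h0 : (H z).PosDef) (hφ : ContDiffAt ℝ ∞ φ z) (i : ι) :
    ContDiffAt ℝ ∞ (cfT a H φ i) z :=
  (contDiffAt_const.mul (contDiffAt_dz_top (hH.lg (Green.det_pos h0).ne') i)).sub
    (contDiffAt_dz_top hφ i)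

theorem cd_boxG (hH : CdM ∞ H z) (h0 : (H z).PosDef) (hc : ∀ i, ContDiffAt ℝ ∞ (c i) z)
    (hF : ContDiffAt ℝ ∞ F z) : ContDiffAt ℝ ∞ (boxG c H F) z := by
  have h1 : (H z).det ≠ 0 := h0.det_pos.ne'
  have hl : CdM ∞ (levi F) z := fun i j => contDiffAt_levi_top hF i j
  refine ((hl.mul (hH.inv h1)).tr).sub ?_
  refine ContDiffAt.sum fun i _ => ContDiffAt.sum fun j _ => ?_
  exact ((hH.inv h1 j i).mul (hc i)).mul (contDiffAt_dzb_top hF j)

end Local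

variable {M : Atl ι X} {C : Cov M} {a : ℕ} {σ τ : X → ℂ} {h : X → Mat ι} {φ : X → ℝ}

theorem boxT_eq (a : ℕ) (h : X → Mat ι) (φ : X → ℝ) (σ : X → ℂ) (x : X) :
    M.boxT a h φ σ x = M.box a h σ x + ∑ i, M.dfn φ x i * M.shpX a h σ x i :=
  boxG_cfT _ _ _ _ _

theorem boxT_add (hσ : M.CkS 2 a σ) (hτ : M.CkS 2 a τ) (x : X) :
    M.boxT a h φ (fun y => σ y + τ y) x = M.boxT a h φ σ x + M.boxT a h φ τ x := by
  simp only [Atl.boxT, rep_add]
  exact boxG_add (ckS_at hσ x) (ckS_at hτ x)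

theorem boxT_cmul (c : ℂ) (hσ : M.CkS 2 a σ) (x : X) :
    M.boxT a h φ (fun y => c * σ y) x = c * M.boxT a h φ σ x := by
  simp only [Atl.boxT, rep_cmul]
  exact boxG_cmul c (ckS_at hσ x)

theorem boxT_sub (hσ : M.CkS 2 a σ) (hτ : M.CkS 2 a τ) (x : X) :
    M.boxT a h φ (fun y => σ y - τ y) x = M.boxT a h φ σ x - M.boxT a h φ τ x := by
  have e : (fun y => σ y - τ y) = fun y => σ y + (-1) * τ y := funext fun _ => by ring
  rw [e, boxT_add hσ (ckS_cmul _ hτ), boxT_cmul _ hτ]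
  ring

theorem boxT_congr {x : X} (e : σ =ᶠ[𝓝 x] τ) : M.boxT a h φ σ x = M.boxT a h φ τ x :=
  boxG_congr (rep_congr (M.mem x) e)

theorem boxT_zero' (x : X) : M.boxT a h φ (fun _ => 0) x = 0 := by
  simp only [Atl.boxT, rep_zero]
  exact boxG_zero

theorem boxT_sum {κ : Type} (S : Finset κ) {F : κ → X → ℂ} (hF : ∀ j ∈ S, M.CkS 2 a (F j)) :
    M.CkS 2 a (fun y => ∑ j ∈ S, F j y) ∧
      ∀ x, M.boxT a h φ (fun y => ∑ j ∈ S, F j y) x = ∑ j ∈ S, M.boxT a h φ (F j) x := by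
  classical
  induction S using Finset.induction_on with
  | empty =>
    simp only [Finset.sum_empty]
    exact ⟨fun e _ z _ => rep_zero (M := M) e ▸ contDiffAt_const, boxT_zero'⟩
  | insert j S hj ih =>
    simp only [Finset.sum_insert hj]
    have h1 := hF j (Finset.mem_insert_self _ _)
    have h2 := ih fun k hk => hF k (Finset.mem_insert_of_mem hk)
    exact ⟨ckS_add h1 h2.1, fun x => by rw [boxT_add h1 h2.1, h2.2]⟩

theorem repT : RepTS := by
  intro ι X _ _ _ M a h φ σ hh hφ e he x hx hs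
  have hB := AY.repB' ι X M
  have k1 := hB.box_rep a h σ hh e he x hx hs
  have k2 := hB.shp_rep a h σ e he x hx (hs.differentiableAt two_ne_zero)
  have k3 := hB.dfn_rep φ e he x hx ((hφ e he _ (e.map_source hx)).differentiableAt (by simp))
  have k4 : ∑ i, dz (fn φ e) i (e x) * shp (M.repF h e) (M.rep a σ e) (e x) i =
      (tj e (M.ch x) x).det ^ a * ∑ i, M.dfn φ x i * M.shpX a h σ x i := by
    change (fun i => dz (fn φ e) i (e x)) ⬝ᵥ shp (M.repF h e) (M.rep a σ e) (e x) =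
      _ * (M.dfn φ x ⬝ᵥ M.shpX a h σ x)
    rw [k3, ← dotProduct_mulVec, k2, dotProduct_smul, smul_eq_mul]
  rw [boxG_cfT, ← k1, k4, rep_at _ hx, rep_at _ hx, boxT_eq, mul_add]

theorem boxT_bound (hR : RepTS) (hh : M.IsK h) (hφ : M.Ck ∞ φ) (C : Cov M) (a : ℕ) (x : X) :
    ∃ c ≥ (0 : ℝ), ∀ σ B, C.SH2 a B σ → ‖M.boxT a h φ σ x‖ ≤ c * B := by
  obtain ⟨b, h1, h2⟩ := C.cover2 x
  obtain ⟨c, hc, k⟩ := boxG_bound (cfT a (M.repF h (C.e b)) (fn φ (C.e b))) (M.repF h (C.e b))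
    (C.e b x)
  refine ⟨‖(tj (C.e b) (M.ch x) x).det ^ a‖⁻¹ * c, by positivity, fun σ B hσ => ?_⟩
  have := k _ B ((hσ b).1 _ h2) ((hσ b).2.2.1.1 _ h2) ((hσ b).2.2.2.1 _ h2)
  rw [← hR ι X M a h φ σ hh hφ _ (C.mem b) x h1 ((hσ b).1 _ h2), rep_at _ h1, norm_mul] at this
  rwa [mul_assoc, le_inv_mul_iff₀ (norm_pos_iff.2 (rep_fac (AY.repA' ι X M) (C.mem b) h1))]

theorem boxT_ev (hR : RepTS) (hh : M.IsK h) (hφ : M.Ck ∞ φ) (hσ : M.CkS 2 a σ) {e : Ch ι X}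
    (he : e ∈ M.A) {z : V ι} (hz : z ∈ e.target) : M.rep a (M.boxT a h φ σ) e =ᶠ[𝓝 z]
      boxG (cfT a (M.repF h e) (fn φ e)) (M.repF h e) (M.rep a σ e) := by
  filter_upwards [e.open_target.mem_nhds hz] with w hw
  have := hR ι X M a h φ σ hh hφ e he _ (e.map_target hw)
  rw [e.right_inv hw] at this
  exact this (hσ e he w hw)

theorem boxT_ck (hR : RepTS) (hh : M.IsK h) (hφ : M.Ck ∞ φ) (hσ : M.CkS ∞ a σ) :
    M.CkS ∞ a (M.boxT a h φ σ) := fun e he z hz =>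
  (cd_boxG ((hh e he).1.1.cd hz) ((hh e he).2 z hz)
    (cd_cfT ((hh e he).1.1.cd hz) ((hh e he).2 z hz) (hφ e he z hz)) (hσ e he z hz)).congr_of_eventuallyEq
    (boxT_ev hR hh hφ (fun e he z hz => (hσ e he z hz).of_le (by norm_cast)) he hz)

end Pool.Agent.Lib.MP_813db1_ag.HS
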