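import Pool.Agent.Lib.MP_813db1_ag.HS.BK
import Pool.Agent.Lib.MP_813db1_ag.HS.AYAll
import Pool.Agent.Lib.MP_813db1_ag.AS.S2Stmt

/-! The twisted Bochner-Kodaira identity. -/

namespace Pool.Agent.Lib.MP_813db1_ag.HS

open MeasureTheory Complex Matrix Filter Topology Set Metric
open scoped ContDiff ComplexOrder

namespace BKT

open Green

variable {ι : Type} [Fintype ι] [DecidableEq ι] {H : V ι → Mat ι} {F Φ : V ι → ℂ} {z : V ι}
  {O : Set (V ι)}

theorem boxG_eq (a : ℕ) (H : V ι → Mat ι) (Φ F : V ι → ℂ) :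
    boxG (cfT a H Φ) H F = fun z => boxL a H F z + ∑ j, dz Φ j z * shp H F z j := by
  funext z
  simp only [boxG, boxL, cfT, shp, Finset.mul_sum]
  rw [sub_add, ← Finset.sum_sub_distrib]
  refine congrArg _ (Finset.sum_congr rfl fun i _ => ?_)
  rw [← Finset.sum_sub_distrib]
  exact Finset.sum_congr rfl fun j _ => by ring

theorem cd_boxG (a : ℕ) (hH : CdM ∞ H z) (h : (H z).PosDef) (hF : ContDiffAt ℝ ∞ F z)
    (hΦ : ContDiffAt ℝ ∞ Φ z) : ContDiffAt ℝ ∞ (boxG (cfT a H Φ) H F) z := by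
  rw [boxG_eq]
  exact (BK.cd_box a hH h hF).add (ContDiffAt.sum fun j _ => (contDiffAt_dz_top hΦ j).mul
    (cd_shp hH (det_ne h) hF (by simp) j))

theorem dzb_boxG (a : ℕ) (hH : KOn H O) (hF : ∀ w ∈ O, ContDiffAt ℝ ∞ F w) (hz : z ∈ O)
    (hΦ : ContDiffAt ℝ 2 Φ z) (i : ι) : dzb (boxG (cfT a H Φ) H F) i z = dzb (boxL a H F) i z +
      ∑ j, (levi Φ z j i * shp H F z j + dz Φ j z * dzb (fun w => shp H F w j) i z) := by
  have d1 := (BK.cd_box a (hH.1.1.cd hz) (hH.2 z hz) (hF z hz)).differentiableAt (by simp)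
  have d2 := fun j => differentiableAt_dz hΦ j
  have d3 := fun j => (BK.cd_U hH hF hz j).differentiableAt two_ne_zero
  rw [boxG_eq, dzb_add d1 (DifferentiableAt.fun_sum fun j _ => (d2 j).fun_mul (d3 j)),
    dzb_sum _ fun j _ => (d2 j).fun_mul (d3 j)]
  refine congrArg _ (Finset.sum_congr rfl fun j _ => ?_)
  rw [dzb_mul (d2 j) (d3 j), ← dz_dzb_comm hΦ]
  rfl

theorem div_vf (hc : CurvS) (b : ℕ) (hO : IsOpen O) (hH : KOn H O)
    (hF : ∀ w ∈ O, ContDiffAt ℝ ∞ F w) (hz : z ∈ O) (hΦ : ContDiffAt ℝ 2 Φ z) :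
    ∑ j, dz (fun w => (cexp (Φ w) • BK.vf (b + 1) H F w) j) j z =
      cexp (Φ z) * ex (b + 1) H z * (nD H (shp H F) z +
        star (ipV (H z) (shp H F z) (shp H (boxG (cfT (b + 1) H Φ) H F) z)) +
        (b * ipV (levi (lg H) z) (shp H F z) (shp H F z) -
          ipV (levi Φ z) (shp H F z) (shp H F z))) := by
  have hp := hH.2 z hz
  have d1 := hΦ.differentiableAt two_ne_zero
  have d2 := fun j => (BK.cd_vf (b + 1) hH hF hz j).differentiableAt one_ne_zero
  have e : ∀ j, dz (fun w => (cexp (Φ w) • BK.vf (b + 1) H F w) j) j z = cexp (Φ z) *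
      (dz Φ j z * BK.vf (b + 1) H F z j + dz (fun w => BK.vf (b + 1) H F w j) j z) := fun j => by
    simp only [Pi.smul_apply, smul_eq_mul]
    rw [dz_mul d1.cexp (d2 j), dz_hol_comp (hasDerivAt_exp _) d1]
    ring
  have e2 : star (ipV (H z) (shp H F z) (shp H (boxG (cfT (b + 1) H Φ) H F) z)) =
      star (ipV (H z) (shp H F z) (shp H (boxL (b + 1) H F) z)) +
        ipV (levi Φ z) (shp H F z) (shp H F z) +
        ∑ j, dz Φ j z * (BK.dm (shp H F) z *ᵥ star (shp H F z)) j := by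
    rw [ipV_shp hp.1 (det_ne hp), ipV_shp hp.1 (det_ne hp), star_sum, star_sum, ipV, add_assoc]
    simp only [star_mul', star_star, dzb_boxG (b + 1) hH hF hz hΦ, mul_add,
      Finset.sum_add_distrib, Finset.mul_sum, mulVec, dotProduct, BK.dm, of_apply, Pi.star_apply]
    congr 2
    · rw [Finset.sum_comm]
      exact Finset.sum_congr rfl fun j _ => Finset.sum_congr rfl fun i _ => by ring
    · rw [Finset.sum_comm]
      exact Finset.sum_congr rfl fun j _ => Finset.sum_congr rfl fun i _ => by ring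
  have e3 : ∑ j, dz Φ j z * BK.vf (b + 1) H F z j =
      ex (b + 1) H z * ∑ j, dz Φ j z * (BK.dm (shp H F) z *ᵥ star (shp H F z)) j := by
    rw [Finset.mul_sum]
    refine Finset.sum_congr rfl fun j _ => ?_
    simp only [BK.vf, Pi.smul_apply, smul_eq_mul]
    ring
  simp only [e, ← Finset.mul_sum, Finset.sum_add_distrib]
  rw [BK.div_vf hc b hO hH hF hz, e2, e3]
  ring

omit [DecidableEq ι] in
theorem ipV_comb (b : ℂ) (A B : Mat ι) (s : V ι) :
    b * ipV (-(-A + B)) s s = b * ipV A s s - ipV (b • B) s s := by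
  simp only [ipV, Finset.mul_sum, ← Finset.sum_sub_distrib, Matrix.neg_apply, Matrix.add_apply,
    Matrix.smul_apply, smul_eq_mul]
  exact Finset.sum_congr rfl fun j _ => Finset.sum_congr rfl fun i _ => by ring

variable {X : Type} [TopologicalSpace X] {M : Atl ι X} {h : X → Mat ι} {σ : X → ℂ} {φ : X → ℝ}

theorem box_ev (hR : RepTS) (hh : M.IsK h) (hφ : M.Ck ∞ φ) {a : ℕ} (hσ : M.CkS ∞ a σ) {e : Ch ι X}
    (he : e ∈ M.A) (hz : z ∈ e.target) : M.rep a (M.boxT a h φ σ) e =ᶠ[𝓝 z]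
      boxG (cfT a (M.repF h e) (fn φ e)) (M.repF h e) (M.rep a σ e) := by
  filter_upwards [e.open_target.mem_nhds hz] with w hw
  have := hR ι X M a h φ σ hh hφ e he _ (e.map_target hw)
  rw [e.right_inv hw] at this
  exact this ((hσ e he w hw).of_le (by norm_cast))

theorem box_ck (hR : RepTS) (hh : M.IsK h) (hφ : M.Ck ∞ φ) {a : ℕ} (hσ : M.CkS ∞ a σ) :
    M.CkS ∞ a (M.boxT a h φ σ) := fun e he z hz =>
  (cd_boxG a ((hh e he).1.1.cd hz) ((hh e he).2 z hz) (hσ e he z hz)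
    (hφ e he z hz)).congr_of_eventuallyEq (box_ev hR hh hφ hσ he hz)

omit [Fintype ι] [DecidableEq ι] in
theorem fn_mul (b : ℕ) (φ : X → ℝ) (e : Ch ι X) :
    fn (fun x => b * φ x) e = fun z => (b : ℂ) * fn φ e z := by
  funext z
  simp [fn]

omit [DecidableEq ι] in
theorem ck_mul (b : ℕ) (hφ : M.Ck ∞ φ) : M.Ck ∞ fun x => b * φ x := fun e he z hz => by
  rw [fn_mul]
  exact contDiffAt_const.mul (hφ e he z hz)

end BKT

open Green in
theorem bkTS (ha : RepA) (hb : RepB) (hd : DivS) (hc : CurvS) (hm : MatS) (hv : VolS)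
    (hR : RepTS) (hG : GreenTS) : BKTS := by
  intro ι X _ _ _ _ _ _ _ M g h φ μ b σ hg hh hφ hμ hσ
  have ha := ha ι X M
  have hb := hb ι X M
  have := ((hv ι X M g hg).2 μ hμ).fin
  have hψ := BKT.ck_mul b hφ
  have hψ' := BKT.fn_mul (ι := ι) b φ
  generalize (fun x => (b : ℝ) * φ x) = ψ at hψ hψ' ⊢
  have h2 : M.CkS 2 (b + 1) σ := fun e he z hz => (hσ e he z hz).of_le (by norm_cast)
  have h1 : M.CkS 1 (b + 1) σ := fun e he z hz => (hσ e he z hz).of_le (by norm_cast)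
  have hτ : M.CkS 1 (b + 1) (M.boxT (b + 1) h ψ σ) := fun e he z hz =>
    (BKT.box_ck hR hh hψ hσ e he z hz).of_le (by norm_cast)
  have hB : M.SmF fun x => -(M.ricF h x + M.ddc φ x) := fun e he => by
    simpa only [ofReal_neg, ofReal_one, neg_smul, one_smul]
      using (ha.clF_smul (-1) _ (ha.clF_add _ _ (hb.ric_cl h hh) (hb.ddc_cl φ hφ)) e he).1
  have i1 := intg (μ := μ)
    (continuous_ofReal.comp ((hG.cont ι X M g h ψ (b + 1) σ σ hg hh hψ).2.2.1 h2))
  have c2 := (hG.cont ι X M g h ψ (b + 1) σ _ hg hh hψ).2.1 h1 hτ h fun e he => (hh e he).1.1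
  have i2 := intg (μ := μ) c2.star
  have i3 := intg (μ := μ) ((hG.cont ι X M g h ψ (b + 1) σ σ hg hh hψ).2.1 h1 h1 _ hB)
  have key := div_zero ha hd hg hμ
    (fun e w => cexp (fn ψ e w) • BK.vf (b + 1) (M.repF h e) (M.rep (b + 1) σ e) w)
    (fun x => cexp (ψ x) •
      BK.vf (b + 1) (M.repF h (M.ch x)) (M.rep (b + 1) σ (M.ch x)) (M.ch x x))
    (fun x => ((M.nDX (b + 1) h σ x * wtT (b + 1) g h ψ x : ℝ) : ℂ) +
      star (ipV (h x) (M.shpX (b + 1) h σ x) (M.shpX (b + 1) h (M.boxT (b + 1) h ψ σ) x) *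
        (wtT (b + 1) g h ψ x : ℂ)) +
      b * (ipV (-(M.ricF h x + M.ddc φ x)) (M.shpX (b + 1) h σ x) (M.shpX (b + 1) h σ x) *
        (wtT (b + 1) g h ψ x : ℂ)))
    (fun e he z hz i => ((hψ e he z hz).of_le (by norm_cast)).cexp.mul
      (BK.cd_vf _ (hh e he) (hσ e he) hz i))
    (fun e he x hx => by
      rw [mulVec_smul, BK.vf_rep ha hm hh hσ he hx, fn, e.left_inv hx, smul_comm]) fun x => by
      have he := M.ch_mem x
      have hz := (M.ch x).map_source (M.mem x)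
      have h3 : ((g x).det.re : ℂ) ≠ 0 := ofReal_ne_zero.2 (det_pos (pd ha hg x)).ne'
      have e1 : M.shpX (b + 1) h (M.boxT (b + 1) h ψ σ) x = shp (M.repF h (M.ch x))
          (boxG (cfT (b + 1) (M.repF h (M.ch x)) (fn ψ (M.ch x))) (M.repF h (M.ch x))
            (M.rep (b + 1) σ (M.ch x))) (M.ch x x) := by
        funext i
        simp only [Atl.shpX, shp, dzb_congr (BKT.box_ev hR hh hψ hσ he hz)]
      have e2 : M.ricF h x = -levi (lg (M.repF h (M.ch x))) (M.ch x x) := rfl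
      have e3 : levi (fn ψ (M.ch x)) (M.ch x x) = (b : ℂ) • M.ddc φ x := by
        rw [hψ', levi_cmul _ ((hφ _ he _ hz).of_le (by norm_cast)), Atl.ddc]
      rw [BKT.div_vf hc b (M.ch x).open_target (hh _ he) (hσ _ he) hz
        ((hψ _ he _ hz).of_le (by norm_cast)), ex_eq _ (det_pos ((hh _ he).2 _ hz)), e3,
        ← BKT.ipV_comb, ← e2, ha.repF_self, e1, star_mul', RCLike.star_def, conj_ofReal, fn,
        (M.ch x).left_inv (M.mem x)]
      simp only [Atl.nDX, Atl.shpX, wtT, wt, rat, ofReal_div, ofReal_mul, ofReal_exp]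
      field_simp
  have k := congrArg re ((congrArg₂ (· + ·) (integral_add i1 i2) (integral_const_mul _ _)).symm.trans
    ((integral_add (i1.add i2) (i3.const_mul (b : ℂ))).symm.trans key))
  have e1 := reCLM.integral_comp_comm i3
  simp only [reCLM_apply, re_mul_ofReal] at e1
  rw [(hG.sec ι X M g h ψ μ (b + 1) σ _ hg hh hψ hμ h2 hτ).2, neg_re, Atl.ip1T]
  simp only [nV, e1]
  simp only [Function.comp, RCLike.star_def, integral_conj, integral_complex_ofReal, add_re,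
    ofReal_re, conj_re, zero_re, ← ofReal_natCast, re_ofReal_mul] at k
  linarith

theorem bkT (hR : RepTS) (hG : GreenTS) : BKTS :=
  bkTS AY.repA' AY.repB' AY.divS' AY.curvS' mat AY.volS' hR hG

end Pool.Agent.Lib.MP_813db1_ag.HS
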