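import Pool.Agent.Lib.MP_813db1_ag.AS.S2Stmt
import Pool.Agent.Lib.MP_813db1_ag.HS.CntX
import Pool.Agent.Lib.MP_813db1_ag.HS.Count
import Pool.Agent.Lib.MP_813db1_ag.HS.Mat
import Pool.Agent.Lib.MP_813db1_ag.HS.RepA
import Pool.Agent.Lib.MP_813db1_ag.HS.Vol
import Pool.Agent.Lib.MP_813db1_ag.HS.Cov

/-! The count of low energy sections for the twisted operator. -/

namespace Pool.Agent.Lib.MP_813db1_ag.HS

open MeasureTheory Complex Matrix Filter Topology Set Metric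
open scoped ContDiff ComplexOrder ENNReal

namespace TCnt

open CntX

variable {ι X : Type} [Fintype ι] [DecidableEq ι] [TopologicalSpace X] {M : Atl ι X}
  {g h : X → Mat ι} {φ : X → ℝ} {C : Cov M} {ε : ℝ}

omit [DecidableEq ι] in
theorem ckm (hφ : M.Ck ∞ φ) (b : ℝ) : M.Ck ∞ fun x => b * φ x := fun e he z hz => by
  have e1 : fn (fun x => b * φ x) e = fun w => (b : ℂ) * fn φ e w :=
    funext fun w => by simp only [fn, ofReal_mul]
  rw [e1]
  exact contDiffAt_const.mul (hφ e he z hz)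

theorem t_eq (ha : RepA' M) (k : Fin C.n) {z : V ι} (hz : z ∈ (C.e k).target) :
    trm (M.repF h (C.e k) z) (M.repF g (C.e k) z) =
      trm (h ((C.e k).symm z)) (g ((C.e k).symm z)) := by
  have e1 := ha.trm_rep h g _ (C.mem k) _ ((C.e k).map_target hz)
  rwa [(C.e k).right_inv hz] at e1

theorem cont_e (hG : GreenTS) (hg : M.IsK g) (hh : M.IsK h) (hφ : M.Ck ∞ φ) {a : ℕ} {σ : X → ℂ}
    (h1 : M.CkS ∞ a σ) {B : X → Mat ι} (hB : M.IsK B) :
    Continuous fun x => nV (B x) (M.shpX a h σ x) * wtT a g h φ x := by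
  have k1 : M.CkS 1 a σ := fun e he z hz => (h1 e he z hz).of_le (by exact_mod_cast le_top)
  have := continuous_re.comp ((hG.cont ι X M g h φ a σ σ hg hh hφ).2.1 k1 k1 B
    fun e he => (hB e he).1.1)
  refine this.congr fun x => ?_
  simp only [Function.comp, nV, mul_re, ofReal_re, ofReal_im, mul_zero, sub_zero]

/-- the set where the trace is large. -/
def KK (C : Cov M) (ε : ℝ) (g h : X → Mat ι) (k : Fin C.n) : Set (V ι) :=
  closedBall 0 (C.r k) ∩ (fun y => ε * trm (M.repF h (C.e k) y) (M.repF g (C.e k) y)) ⁻¹' Ici (1 / 2)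

/-- its neighbourhood. -/
def OO (C : Cov M) (ε : ℝ) (g h : X → Mat ι) (k : Fin C.n) : Set (V ι) :=
  ball 0 (2 * C.r k) ∩ (fun y => ε * trm (M.repF h (C.e k) y) (M.repF g (C.e k) y)) ⁻¹' Ioi (1 / 4)

omit [DecidableEq ι] in
theorem b2 (C : Cov M) (k : Fin C.n) : ball (0 : V ι) (2 * C.r k) ⊆ (C.e k).target :=
  fun _ hz => tgt C k (ball_subset_ball (by linarith [C.pos k]) hz)

theorem sets (hg : M.IsK g) (hh : M.IsK h) (k : Fin C.n) :
    IsCompact (KK C ε g h k) ∧ IsOpen (OO C ε g h k) ∧ KK C ε g h k ⊆ OO C ε g h k ∧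
      OO C ε g h k ⊆ ball 0 (2 * C.r k) := by
  have hr := C.pos k
  have c : ContinuousOn (fun y => ε * trm (M.repF h (C.e k) y) (M.repF g (C.e k) y))
      (ball 0 (2 * C.r k)) :=
    (continuousOn_const.mul (cont_trm (hh _ (C.mem k)) (hg _ (C.mem k)))).mono (b2 C k)
  refine ⟨(isCompact_closedBall _ _).of_isClosed_subset
    ((c.mono (closedBall_subset_ball (by linarith))).preimage_isClosed_of_isClosed isClosed_closedBall
      isClosed_Ici) inter_subset_left, c.isOpen_inter_preimage isOpen_ball isOpen_Ioi,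
    fun y hy => ⟨closedBall_subset_ball (by linarith) hy.1, ?_⟩, inter_subset_left⟩
  have := hy.2
  simp only [mem_preimage, mem_Ici, mem_Ioi] at this ⊢
  linarith

variable [CompactSpace X] [MeasurableSpace X] [BorelSpace X] {μ : Measure X}

theorem e_sum [IsFiniteMeasure μ] (hG : GreenTS) (hg : M.IsK g) (hh : M.IsK h) (hφ : M.Ck ∞ φ)
    {a Q : ℕ} {f : Fin Q → X → ℂ} (h1 : ∀ j, M.CkS ∞ a (f j))
    (h2 : ∀ i j, M.ip1T μ a g h φ (f i) (f j) = if i = j then 1 else 0) (c : Fin Q → ℂ) :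
    ∫ x, nV (h x) (M.shpX a h (fun x => ∑ j, c j * f j x) x) * wtT a g h φ x ∂μ =
      ∑ j, ‖c j‖ ^ 2 := by
  have k1 : ∀ j, M.CkS 1 a (f j) := fun j e he z hz =>
    (h1 j e he z hz).of_le (by exact_mod_cast le_top)
  have hi : ∀ i j, Integrable (fun x => c i * star (c j) *
      (ipV (h x) (M.shpX a h (f i) x) (M.shpX a h (f j) x) * (wtT a g h φ x : ℂ))) μ := fun i j =>
    (Green.intg ((hG.cont ι X M g h φ a (f i) (f j) hg hh hφ).2.1 (k1 i) (k1 j) h
      fun e he => (hh e he).1.1)).const_mul _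
  have e : ∀ x, nV (h x) (M.shpX a h (fun x => ∑ j, c j * f j x) x) * wtT a g h φ x =
      RCLike.re (∑ i, ∑ j, c i * star (c j) *
        (ipV (h x) (M.shpX a h (f i) x) (M.shpX a h (f j) x) * (wtT a g h φ x : ℂ))) := fun x => by
    simp only [← mul_assoc, ← Finset.sum_mul]
    rw [← ipV_sum, ← shpX_sum c h1 x]
    simp only [nV, RCLike.re_to_complex, mul_re, ofReal_re, ofReal_im, mul_zero, sub_zero]
  simp only [e]
  rw [integral_re (integrable_finsetSum _ fun i _ => integrable_finsetSum _ fun j _ => hi i j),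
    integral_finsetSum _ fun i _ => integrable_finsetSum _ fun j _ => hi i j]
  simp only [integral_finsetSum _ fun j _ => hi _ j, integral_const_mul]
  simp only [Atl.ip1T] at h2
  simp only [h2, mul_ite, mul_one, mul_zero, Finset.sum_ite_eq, Finset.mem_univ, if_true,
    ← Green.nsq, RCLike.re_to_complex, re_sum, ofReal_re]

theorem low (hM : MatS) (ha : RepA' M) (hG : GreenTS) [IsFiniteMeasure μ] (hg : M.IsK g)
    (hh : M.IsK h) {ψ : X → ℝ} (hψ : M.Ck ∞ ψ) (hε : 0 ≤ ε) {b : ℕ} (hb : 0 < b) {σ : X → ℂ} {n : ℝ}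
    (h1 : M.CkS ∞ (b + 1) σ) (hn : ∀ x, ε * trm (h x) (g x) ≤ n) (hn0 : 0 ≤ n)
    (hric : ∀ x, M.ricF h x + M.ddc φ x = (ε : ℂ) • g x - h x)
    (h2 : ∫ x, nV (h x) (M.shpX (b + 1) h σ x) * wtT (b + 1) g h ψ x ∂μ = 1)
    (h3 : ∫ x, M.nDX (b + 1) h σ x * wtT (b + 1) g h ψ x ∂μ +
      b * ∫ x, nV (-(M.ricF h x + M.ddc φ x)) (M.shpX (b + 1) h σ x) * wtT (b + 1) g h ψ x ∂μ ≤
        b / 4) :
    ∫⁻ x, ENNReal.ofReal (nV (h x) (M.shpX (b + 1) h σ x) * wtT (b + 1) g h ψ x +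
      M.nDX (b + 1) h σ x * wtT (b + 1) g h ψ x / b) ∂μ ≤ ENNReal.ofReal (n + 1) ∧
    ENNReal.ofReal (1 / (4 * (n + 1))) ≤ ∫⁻ x in {x | 1 / 2 ≤ ε * trm (h x) (g x)},
      ENNReal.ofReal (nV (h x) (M.shpX (b + 1) h σ x) * wtT (b + 1) g h ψ x) ∂μ := by
  have ce := cont_e hG hg hh hψ h1 hh
  have cg := cont_e hG hg hh hψ h1 hg
  obtain ⟨-, -, cd, hw⟩ := hG.cont ι X M g h ψ (b + 1) σ σ hg hh hψ
  replace cd := cd fun e he z hz => (h1 e he z hz).of_le FG.two_le
  have ct : Continuous fun x => ε * trm (h x) (g x) :=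
    continuous_const.mul (ha.cont _ fun e he z hz => (ha.ck_trm h g hh (fun e he => (hg e he).1.1)
      e he z hz).of_le (by simp))
  have e0 : ∀ x, 0 ≤ nV (h x) (M.shpX (b + 1) h σ x) * wtT (b + 1) g h ψ x := fun x =>
    mul_nonneg (FG.nV_nonneg (Green.pd ha hh x).posSemidef _) (hw x).le
  have d0 : ∀ x, 0 ≤ M.nDX (b + 1) h σ x * wtT (b + 1) g h ψ x := fun x =>
    mul_nonneg (FG.nV_dbar hM ((hh _ (M.ch_mem x)).2 _ ((M.ch x).map_source (M.mem x))) _ 0).2
      (hw x).le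
  have er : ∀ x, nV (-(M.ricF h x + M.ddc φ x)) (M.shpX (b + 1) h σ x) * wtT (b + 1) g h ψ x =
      nV (h x) (M.shpX (b + 1) h σ x) * wtT (b + 1) g h ψ x -
        ε * (nV (g x) (M.shpX (b + 1) h σ x) * wtT (b + 1) g h ψ x) := fun x => by
    have e := FG.nV_lin 1 (-ε) (h x) (g x) (M.shpX (b + 1) h σ x)
    rw [ofReal_one, one_smul, ofReal_neg, neg_smul, ← sub_eq_add_neg] at e
    rw [hric, neg_sub, e]
    ring
  simp only [er] at h3
  refine low0 ce cg cd ct (by exact_mod_cast hb) e0 d0 hn hn0 (fun x => ?_) h2 h3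
  have := mul_le_mul_of_nonneg_right (nV_le hM (Green.pd ha hh x) (Green.pd ha hg x).posSemidef hε
    (M.shpX (b + 1) h σ x)) (hw x).le
  linarith

omit [CompactSpace X] [BorelSpace X] in
theorem boxl (hv : VolA' M g μ) (hg : M.IsK g) (k : Fin C.n) {S : Set (V ι)}
    (hS : MeasurableSet S) (hS' : S ⊆ ball 0 (2 * C.r k)) {Φ : X → ℝ} {F : V ι → ℝ}
    (e : ∀ z ∈ S, (M.repF g (C.e k) z).det.re * Φ ((C.e k).symm z) = F z) :
    ∫⁻ x in (C.e k).source ∩ C.e k ⁻¹' S, ENNReal.ofReal (Φ x) ∂μ =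
      ∫⁻ y in S, ENNReal.ofReal (F y) := by
  rw [hv.lint _ (C.mem k) S hS (hS'.trans (b2 C k))]
  refine setLIntegral_congr_fun hS fun z hz => ?_
  simp only [← e z hz,
    ENNReal.ofReal_mul (FG.det_pos ((hg _ (C.mem k)).2 z (b2 C k (hS' hz)))).le]

theorem Ib (hM : MatS) (ha : RepA' M) (hv : VolA' M g μ) (hg : M.IsK g) (hh : M.IsK h)
    (hε : 0 ≤ ε) (k : Fin C.n) :
    ∫⁻ y in OO C ε g h k, ENNReal.ofReal (M.repF h (C.e k) y).det.re ≤
      ENNReal.ofReal (4 * ∫ x, ε * trm (h x) (g x) * rat h g x ∂μ) := by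
  have := hv.fin
  obtain ⟨-, o1, -, o2⟩ := sets (C := C) (ε := ε) hg hh k
  have cΦ : Continuous fun x => ε * trm (h x) (g x) * rat h g x :=
    (continuous_const.mul (ha.cont _ fun e he z hz => (ha.ck_trm h g hh (fun e he => (hg e he).1.1)
      e he z hz).of_le (by simp))).mul
      (ha.cont _ fun e he z hz => (ha.ck_rat h g (fun e he => (hh e he).1.1) hg e he z hz).of_le
        (by simp))
  have Φ0 : ∀ x, 0 ≤ ε * trm (h x) (g x) * rat h g x := fun x =>
    mul_nonneg (mul_nonneg hε (hM.trm_nonneg _ _ _ (Green.pd ha hh x) (Green.pd ha hg x).posSemidef))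
      (div_pos (FG.det_pos (Green.pd ha hh x)) (FG.det_pos (Green.pd ha hg x))).le
  have e := boxl (μ := μ) hv hg k o1.measurableSet o2
    (Φ := fun x => ε * trm (h x) (g x) * rat h g x)
    (F := fun y => ε * trm (M.repF h (C.e k) y) (M.repF g (C.e k) y) * (M.repF h (C.e k) y).det.re)
    fun z hz => by
      have ht := b2 C k (o2 hz)
      have e1 := ha.rat_rep h g _ (C.mem k) _ ((C.e k).map_target ht)
      rw [(C.e k).right_inv ht] at e1
      have := FG.det_pos ((hg _ (C.mem k)).2 z ht)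
      rw [t_eq ha k ht, ← e1]
      field_simp
  have i1 : ∫⁻ x in (C.e k).source ∩ C.e k ⁻¹' OO C ε g h k,
      ENNReal.ofReal (ε * trm (h x) (g x) * rat h g x) ∂μ ≤
      ENNReal.ofReal (∫ x, ε * trm (h x) (g x) * rat h g x ∂μ) := by
    rw [ofReal_integral_eq_lintegral_ofReal (intg cΦ) (ae_of_all _ Φ0)]
    exact setLIntegral_le_lintegral _ _
  rw [e] at i1
  rw [ENNReal.ofReal_mul (by positivity)]
  refine le_trans ?_ (mul_le_mul_right i1 _)
  rw [← lintegral_const_mul' _ _ ENNReal.ofReal_ne_top]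
  refine setLIntegral_mono' o1.measurableSet fun y hy => ?_
  rw [← ENNReal.ofReal_mul (by positivity)]
  refine ENNReal.ofReal_le_ofReal ?_
  have p1 := FG.det_pos ((hh _ (C.mem k)).2 y (b2 C k (o2 hy)))
  have p2 : 1 / 4 < ε * trm (M.repF h (C.e k) y) (M.repF g (C.e k) y) := hy.2
  nlinarith

omit [CompactSpace X] [BorelSpace X] in
theorem chart (hM : MatS) (ha : RepA' M) (hd : DictTS) (hv : VolA' M g μ) (hg : M.IsK g)
    (hh : M.IsK h) (hφ : M.Ck ∞ φ) (hε : 0 ≤ ε) (k : Fin C.n) {n κ Cc I : ℝ} (hn0 : 0 ≤ n)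
    (hκ : 0 ≤ κ) (hC0 : 0 ≤ Cc) (hI0 : 0 ≤ I) (hC : CB ι (n + 1) κ Cc)
    (hn : ∀ x, ε * trm (h x) (g x) ≤ n)
    (hric : ∀ x, M.ricF h x + M.ddc φ x = (ε : ℂ) • g x - h x)
    (hI : ∫⁻ y in OO C ε g h k, ENNReal.ofReal (M.repF h (C.e k) y).det.re ≤ ENNReal.ofReal I) :
    ∀ᶠ b : ℕ in atTop, ∀ (Q : ℕ) (f : Fin Q → X → ℂ), (∀ j, M.CkS ∞ (b + 1) (f j)) →
      (∀ c : Fin Q → ℂ, ∫⁻ x, ENNReal.ofReal (nV (h x) (M.shpX (b + 1) h
        (fun x => ∑ j, c j * f j x) x) * wtT (b + 1) g h (fun x => b * φ x) x) ∂μ ≤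
          ENNReal.ofReal (∑ j, ‖c j‖ ^ 2)) →
      (∀ j, ∫⁻ x, ENNReal.ofReal (nV (h x) (M.shpX (b + 1) h (f j) x) *
        wtT (b + 1) g h (fun x => b * φ x) x + M.nDX (b + 1) h (f j) x *
          wtT (b + 1) g h (fun x => b * φ x) x / b) ∂μ ≤ ENNReal.ofReal (n + 1)) →
      ∑ j, ∫⁻ x in (C.e k).source ∩ C.e k ⁻¹' KK C ε g h k, ENNReal.ofReal
        (nV (h x) (M.shpX (b + 1) h (f j) x) * wtT (b + 1) g h (fun x => b * φ x) x) ∂μ ≤
        ENNReal.ofReal (Cc * (b : ℝ) ^ Fintype.card ι * I + κ * (Q * (n + 1))) := by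
  obtain ⟨o0, o1, o4, o2⟩ := sets (C := C) (ε := ε) hg hh k
  have o3 := b2 C k
  have hK := hh _ (C.mem k)
  have dd := hd ι X M g h φ hg hh hφ _ (C.mem k)
  have key := hC (ball 0 (2 * C.r k)) _ _ (M.repF h (C.e k)) (M.psi h φ (C.e k))
    isOpen_ball o1 o0 o4 o2 (hK.1.1.mono o3) fun y hy => by
      have p1 := hK.2 y (o3 hy)
      have p2 := ((hg _ (C.mem k)).2 y (o3 hy)).posSemidef
      have e := (dd y (o3 hy)).2.1 ε hric
      have hT : ε * trm (M.repF h (C.e k) y) (M.repF g (C.e k) y) ≤ n := by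
        rw [t_eq ha k (o3 hy)]
        exact hn _
      refine ⟨p1, (dd y (o3 hy)).1, ?_, ?_⟩
      · convert (p1.posSemidef.smul (a := (n : ℂ)) (by exact_mod_cast hn0)).add
          (p2.smul (a := (ε : ℂ)) (by exact_mod_cast hε)) using 1
        rw [e]
        push_cast
        module
      · convert psd hM (T := n + 2) p1 p2 hε (by linarith) using 1
        rw [e]
        push_cast
        module
  filter_upwards [key] with b hb Q f h1 h2 h3
  have E1 : ∀ (σ : X → ℂ) (S : Set (V ι)), MeasurableSet S → S ⊆ ball 0 (2 * C.r k) →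
      M.CkS ∞ (b + 1) σ → ∫⁻ x in (C.e k).source ∩ C.e k ⁻¹' S, ENNReal.ofReal
        (nV (h x) (M.shpX (b + 1) h σ x) * wtT (b + 1) g h (fun x => b * φ x) x) ∂μ =
      ∫⁻ y in S, ENNReal.ofReal (nV (M.repF h (C.e k) y) (shp (M.repF h (C.e k))
        (M.rep (b + 1) σ (C.e k)) y) * Real.exp (-b * M.psi h φ (C.e k) y)) :=
    fun σ S s1 s2 s3 => boxl hv hg k s1 s2 fun z hz => (((dd z (o3 (s2 hz))).2.2 b σ).2
      ((s3 _ (C.mem k) z (o3 (s2 hz))).of_le FG.two_le)).1 h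
  have rs : ∀ c : Fin Q → ℂ, M.rep (b + 1) (fun x => ∑ j, c j * f j x) (C.e k) =
      fun w => ∑ j, c j * M.rep (b + 1) (f j) (C.e k) w := fun c =>
    funext fun w => by simp only [Atl.rep, Finset.mul_sum, mul_left_comm]
  refine le_trans (le_of_eq ?_) ((hb Q (fun j y => shp (M.repF h (C.e k))
    (M.rep (b + 1) (f j) (C.e k)) y) (fun j y hy => ?_) fun c => ?_).trans ?_)
  · exact Finset.sum_congr rfl fun j _ => E1 _ _ o0.measurableSet (o4.trans o2) (h1 j)
  · exact (contDiffAt_pi.2 fun i => (Green.cd_shp (hK.1.1.cd (o3 hy)) (hK.2 y (o3 hy)).det_pos.ne'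
      (h1 j _ (C.mem k) y (o3 hy)) le_rfl i).of_le FG.two_le).contDiffWithinAt
  · refine le_trans (le_of_eq ?_) ((setLIntegral_le_lintegral
      ((C.e k).source ∩ C.e k ⁻¹' ball 0 (2 * C.r k)) _).trans (h2 c))
    rw [E1 _ _ measurableSet_ball le_rfl fun e he z hz => by
      have q : M.rep (b + 1) (fun x => ∑ j, c j * f j x) e =
          fun w => ∑ j, c j * M.rep (b + 1) (f j) e w :=
        funext fun w => by simp only [Atl.rep, Finset.mul_sum, mul_left_comm]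
      rw [q]
      exact ContDiffAt.sum fun j _ => contDiffAt_const.mul (h1 j e he z hz)]
    refine setLIntegral_congr_fun measurableSet_ball fun y hy => ?_
    simp only [rs, shp_sum c fun j => (h1 j _ (C.mem k) y (o3 hy)).differentiableAt (by simp)]
  · have q : ∀ j, ∫⁻ y in ball (0 : V ι) (2 * C.r k), ENNReal.ofReal
        ((nV (M.repF h (C.e k) y) (shp (M.repF h (C.e k)) (M.rep (b + 1) (f j) (C.e k)) y) +
          nD (M.repF h (C.e k)) (fun y => shp (M.repF h (C.e k)) (M.rep (b + 1) (f j) (C.e k)) y) y /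
            b) * Real.exp (-b * M.psi h φ (C.e k) y)) ≤ ENNReal.ofReal (n + 1) := fun j => by
      refine le_trans (le_of_eq ?_) ((setLIntegral_le_lintegral
        ((C.e k).source ∩ C.e k ⁻¹' ball 0 (2 * C.r k)) _).trans (h3 j))
      refine (boxl hv hg k measurableSet_ball le_rfl fun z hz => ?_).symm
      obtain ⟨q1, q2⟩ := ((dd z (o3 hz)).2.2 b (f j)).2
        ((h1 j _ (C.mem k) z (o3 hz)).of_le FG.two_le)
      rw [add_mul, div_mul_eq_mul_div, ← q2, ← q1 h]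
      ring
    rw [ENNReal.ofReal_add (by positivity) (by positivity), ENNReal.ofReal_mul (q := I)
      (by positivity), ENNReal.ofReal_mul hκ]
    refine add_le_add (mul_le_mul_right hI _) (mul_le_mul_right ?_ _)
    refine (Finset.sum_le_sum fun j _ => q j).trans (le_of_eq ?_)
    rw [Finset.sum_const, Finset.card_univ, Fintype.card_fin, nsmul_eq_mul,
      ENNReal.ofReal_mul (Nat.cast_nonneg _), ENNReal.ofReal_natCast]

end TCnt

open TCnt in
theorem cntT (hd : DictTS) (hG : GreenTS) (hb : BKTS) : CntTS := by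
  intro ι X _ _ _ _ _ _ _ M g μ H φ hg hμ hF κ hκ
  have ha := repA mat ι X M
  have hv := (volS (repA mat) mat ι X M g hg).2 μ hμ
  have := hv.fin
  obtain ⟨C, -⟩ := covS ι X M (fun _ => True) fun x => by
    obtain ⟨e, h1, h2, h3⟩ := ha.center x
    exact ⟨e, h1, trivial, h2, h3⟩
  set n : ℝ := 2 * (Fintype.card ι : ℝ) with hn
  have hn0 : 0 ≤ n := by positivity
  set κ' : ℝ := 1 / (8 * (n + 1) ^ 2 * (C.n + 1)) with hκ'
  have hκ0 : 0 < κ' := by positivity
  obtain ⟨Cc, hC0, hC⟩ := count mat ι (n + 1) κ' hκ0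
  have l1 := hF.lim.const_mul (8 * (n + 1) * Cc * (C.n * 4))
  rw [mul_zero] at l1
  filter_upwards [Ioc_mem_nhdsGT (zero_lt_one' ℝ), l1.eventually (gt_mem_nhds hκ)] with ε hε hJ
  obtain ⟨hh, hφ⟩ := hF.k ε hε
  have hric := hF.ric ε hε
  have tn := hF.tr ε hε
  generalize H ε = h at *
  generalize φ ε = ψ at *
  set J := ∫ x, ε * trm (h x) (g x) * rat h g x ∂μ with hJ'
  have J0 : 0 ≤ J := integral_nonneg fun x => mul_nonneg (mul_nonneg hε.1.le
    (mat.trm_nonneg _ _ _ (Green.pd ha hh x) (Green.pd ha hg x).posSemidef))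
    (div_pos (FG.det_pos (Green.pd ha hh x)) (FG.det_pos (Green.pd ha hg x))).le
  filter_upwards [eventually_all.2 fun k => chart (C := C) mat ha hd hv hg hh hφ hε.1.le k hn0 hκ0.le
    hC0 (by positivity) hC tn hric (Ib mat ha hv hg hh hε.1.le k),
    eventually_gt_atTop 0] with b hb' hb0 Q f h1 h2 h3
  have hψ := ckm hφ (b : ℝ)
  have es := e_sum hG hg hh hψ h1 h2
  have one : ∀ j, (fun x => ∑ i, (Pi.single j 1 : Fin Q → ℂ) i * f i x) = f j := fun j =>
    funext fun x => by simp [Pi.single_apply]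
  have nrm : ∀ j, ∑ i, ‖(Pi.single j 1 : Fin Q → ℂ) i‖ ^ 2 = 1 := fun j => by
    simp [Pi.single_apply, apply_ite]
  have lo := fun j => low (μ := μ) mat ha hG hg hh hψ hε.1.le hb0 (h1 j) tn hn0 hric
    (by simpa only [one, nrm] using es (Pi.single j 1))
    (by simpa only [one, nrm, mul_one, hb ι X M g h ψ μ b (f j) hg hh hφ hμ (h1 j)] using
      h3 (Pi.single j 1))
  have cs : ∀ c : Fin Q → ℂ, M.CkS ∞ (b + 1) fun x => ∑ j, c j * f j x := fun c e he z hz => by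
    have q : M.rep (b + 1) (fun x => ∑ j, c j * f j x) e =
        fun w => ∑ j, c j * M.rep (b + 1) (f j) e w :=
      funext fun w => by simp only [Atl.rep, Finset.mul_sum, mul_left_comm]
    rw [q]
    exact ContDiffAt.sum fun j _ => contDiffAt_const.mul (h1 j e he z hz)
  have up := fun k => hb' k Q f h1 (fun c => by
    rw [← ofReal_integral_eq_lintegral_ofReal (CntX.intg (cont_e hG hg hh hψ (cs c) hh))
      (ae_of_all _ fun x => mul_nonneg (FG.nV_nonneg (Green.pd ha hh x).posSemidef _)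
        ((hG.cont ι X M g h _ (b + 1) (fun _ => 0) (fun _ => 0) hg hh hψ).2.2.2 x).le), es c])
    fun j => (lo j).1
  have sub : {x | 1 / 2 ≤ ε * trm (h x) (g x)} ⊆
      ⋃ k, (C.e k).source ∩ C.e k ⁻¹' KK C ε g h k := by
    intro x hx
    obtain ⟨k, x1, x2⟩ := C.cover x
    have e := ha.trm_rep h g _ (C.mem k) _ x1
    exact mem_iUnion.2 ⟨k, x1, mem_closedBall_zero_iff.2 x2.le, by
      simpa only [mem_preimage, mem_Ici, e, mem_ofPred_eq] using hx⟩
  have fin : ENNReal.ofReal (Q * (1 / (4 * (n + 1)))) ≤ ENNReal.ofReal (∑ _k : Fin C.n,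
      (Cc * (b : ℝ) ^ Fintype.card ι * (4 * J) + κ' * (Q * (n + 1)))) := by
    rw [ENNReal.ofReal_sum_of_nonneg fun k _ => by positivity]
    refine le_trans ?_ (Finset.sum_le_sum fun k _ => up k)
    rw [Finset.sum_comm, ENNReal.ofReal_mul (Nat.cast_nonneg _), ENNReal.ofReal_natCast]
    refine le_trans (le_of_eq ?_) (Finset.sum_le_sum fun j _ => (lo j).2.trans
      ((lintegral_mono_set sub).trans ((lintegral_iUnion_le _ _).trans_eq (tsum_fintype _))))
    rw [Finset.sum_const, Finset.card_univ, Fintype.card_fin, nsmul_eq_mul]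
  rw [ENNReal.ofReal_le_ofReal_iff (Finset.sum_nonneg fun k _ => by positivity), Finset.sum_const,
    Finset.card_univ, Fintype.card_fin, nsmul_eq_mul, mul_add (C.n : ℝ)] at fin
  have p1 : (C.n : ℝ) * (κ' * (Q * (n + 1))) ≤ Q * (1 / (8 * (n + 1))) := by
    rw [hκ']
    have : (0 : ℝ) ≤ Q := Nat.cast_nonneg _
    field_simp
    nlinarith
  have p2 : (Q : ℝ) * (1 / (8 * (n + 1))) ≤ C.n * (Cc * (b : ℝ) ^ Fintype.card ι * (4 * J)) := by
    have : (Q : ℝ) * (1 / (4 * (n + 1))) = 2 * (Q * (1 / (8 * (n + 1)))) := by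
      field_simp
      ring
    linarith
  rw [mul_one_div, div_le_iff₀ (by positivity)] at p2
  have p3 := mul_le_mul_of_nonneg_right hJ.le (by positivity : 0 ≤ (b : ℝ) ^ Fintype.card ι)
  linarith

end Pool.Agent.Lib.MP_813db1_ag.HS
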