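import Pool.Agent.Lib.MP_813db1_ag.AS.S2Stmt
import Pool.Agent.Lib.MP_813db1_ag.HS.AYAll

/-! Stage 2: the dictionary between sections and functions in a chart. -/

namespace Pool.Agent.Lib.MP_813db1_ag.HS

open Complex Matrix Filter Topology Set Metric
open scoped ContDiff ComplexOrder

theorem dictT : DictTS := by
  intro ι X _ _ _ M g h φ hg hh hφ e he z hz
  have A := AY.repA' ι X M
  have B := AY.repB' ι X M
  obtain ⟨x, hx, rfl⟩ : ∃ x ∈ e.source, e x = z := ⟨_, e.map_target hz, e.right_inv hz⟩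
  have p0 := Green.det_pos ((hh e he).2 _ hz)
  have g0 := Green.det_pos ((hg e he).2 _ hz)
  have c1 : ContDiffAt ℝ ∞ (lg (M.repF h e)) (e x) := ((hh e he).1.1.cd hz).lg p0.ne'
  have c2 : ContDiffAt ℝ ∞ (fn φ e) (e x) := hφ e he _ hz
  have e1 : (fun w => (M.psi h φ e w : ℂ)) = fun w => lg (M.repF h e) w - fn φ e w := by
    funext w
    simp only [Atl.psi, lg, fn, ofReal_sub]
  have two : (2 : WithTop ℕ∞) ≤ ∞ := by norm_cast
  have W : ∀ (b : ℕ) (y : ℝ), (M.repF g e (e x)).det.re *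
      (y * wtT (b + 1) g h (fun x => b * φ x) x) =
      (‖(tj e (M.ch x) x).det‖ ^ 2) ^ (b + 1) * y * Real.exp (-b * M.psi h φ e (e x)) := by
    intro b y
    rw [wtT, ← Green.wtL_rep A mat (b + 1) g h he hx, Green.wtL, Atl.psi, e.left_inv hx, mul_sub,
      Real.exp_sub, neg_mul, neg_mul, Real.exp_neg, Real.exp_neg, ← Real.log_pow,
      Real.exp_log (pow_pos p0 _)]
    field_simp
    ring
  refine ⟨contDiffAt_ofReal.1 (e1 ▸ c1.sub c2), fun ε hε => ?_, fun b σ => ⟨?_, fun r2 =>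
    ⟨fun Q => ?_, ?_⟩⟩⟩
  · have r1 : _ = -levi (lg (M.repF h e)) (e x) := B.ric_rep h hh e he _ hz
    have r2 := B.ddc_rep φ e he x hx (c2.of_le two)
    have r3 := congrArg (pull (tj e (M.ch x) x)) (hε x)
    rw [e1, levi_sub (c1.of_le two) (c2.of_le two), ← r2, ← neg_neg (levi (lg _) _), ← r1]
    simp only [Green.repF_eq _ hx, pull, Matrix.mul_add, Matrix.add_mul, Matrix.mul_sub,
      Matrix.sub_mul, Matrix.mul_smul, Matrix.smul_mul] at r3 ⊢
    rw [← neg_add', r3, neg_sub]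
  · rw [e.left_inv hx, W, Green.rep_eq _ σ hx, norm_mul, norm_pow, mul_pow, pow_right_comm]
  · rw [e.left_inv hx, W, nV, nV, Green.repF_eq Q hx,
      (mat.pull_pd ι _ (Q x) (Green.tj_ne A he hx)).2.2.2.2.2.2,
      B.shp_rep (b + 1) h σ e he x hx (r2.differentiableAt two_ne_zero), Green.ipV_smul,
      star_pow, ← mul_pow, ← Green.nsq, ← ofReal_pow, re_ofReal_mul]
  · rw [e.left_inv hx, W, B.nD_rep (b + 1) h σ hh e he x hx r2]

end Pool.Agent.Lib.MP_813db1_ag.HS
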