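import Pool.Agent.Lib.MP_813db1_ag.AS.S2Good
import Pool.Agent.Lib.MP_813db1_ag.AS.S2Stmt

/-! The family of base metrics and weights, and the good set. -/

namespace Pool.Agent.Lib.MP_813db1_ag.AS

open Pool.Agent.Lib.MP_813db1_ag.HS Pool.Agent.Lib.MP_813db1_ag.HS.AY
open MeasureTheory Complex Matrix Filter Topology Set Metric
open scoped ContDiff ComplexOrder ENNReal

namespace G2

variable {ι : Type} [Fintype ι] [DecidableEq ι]

theorem tr_le {h G : Mat ι} (hh : h.PosDef) (hG : G.PosDef) {t : ℝ} (ht : 0 ≤ t) :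
    t * trm (h + (t : ℂ) • G) G ≤ Fintype.card ι := by
  have hH : (h + (t : ℂ) • G).PosDef := hh.add_posSemidef (hG.posSemidef.smul (zero_le_real.2 ht))
  have h1 := mat.trm_nonneg _ _ _ hH hh.posSemidef
  have h2 := Schw.trm_lin (h + (t : ℂ) • G) G (h + (t : ℂ) • G) t
  have h3 : trm (h + (t : ℂ) • G) (h + (t : ℂ) • G) = Fintype.card ι := by
    rw [trm, mul_nonsing_inv _ ((isUnit_iff_isUnit_det _).1 hH.isUnit)]
    simp
  rw [h3, show (t : ℂ) • G - (h + (t : ℂ) • G) = -h by abel, Schw.trm_neg] at h2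
  linarith

end G2

open G2 in
theorem famT : FamTS := by
  intro ι X _ _ _ _ _ _ _ _ M g μ hg hμ hu hv0
  choose! u hu using hu
  have A := repA' ι X M
  have B := repB' ι X M
  have pg := ((A.isK_iff g).1 hg).2
  have hf : ∀ ε ∈ Ioc (0 : ℝ) 1, ε / 2 ∈ Ioc (0 : ℝ) 1 := fun ε hε =>
    ⟨half_pos hε.1, by linarith [hε.1, hε.2]⟩
  have e2 : ∀ ε : ℝ, 2 * (ε / 2) = ε := fun ε => by ring
  have hK : ∀ ε ∈ Ioc (0 : ℝ) 1, M.IsK (M.hm g ε (u (ε / 2))) := fun ε hε => by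
    have := hm_two_isK hg (hf ε hε).1.le (hu _ (hf ε hε))
    rwa [e2] at this
  have rp : ∀ ε ∈ Ioc (0 : ℝ) 1, ∀ x, 0 < rat (M.hm g ε (u (ε / 2))) g x := fun ε hε x =>
    div_pos (mat.det _ _ (((A.isK_iff _).1 (hK ε hε)).2 x)).1 (mat.det _ _ (pg x)).1
  have cl : ∀ ε ∈ Ioc (0 : ℝ) 1, M.Ck ∞ fun x => Real.log (rat (M.hm g ε (u (ε / 2))) g x) :=
    fun ε hε => B.ck_comp ⊤ _ Real.log (A.ck_rat _ g (fun e he => (hK ε hε e he).1.1) hg)
      fun x => Real.contDiffAt_log.2 (rp ε hε x).ne'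
  have t : Tendsto (fun ε : ℝ => ε / 2) (𝓝[>] 0) (𝓝[>] 0) :=
    tendsto_nhdsWithin_iff.2 ⟨by
      simpa using ((continuous_id.div_const (2 : ℝ)).tendsto 0).mono_left nhdsWithin_le_nhds,
      eventually_mem_nhdsWithin.mono fun ε hε => half_pos (mem_Ioi.1 hε)⟩
  obtain ⟨hbad, hgood⟩ := good2 ι X M g μ u hg hμ hu hv0
  refine ⟨fun ε => M.hm g ε (u (ε / 2)),
    fun ε x => Real.log (rat (M.hm g ε (u (ε / 2))) g x) + -1 * u (ε / 2) x,
    fun ε hε => ⟨hK ε hε, (B.ck_add ⊤ _ _ (cl ε hε) (B.ck_comp ⊤ _ (fun t => -1 * t)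
      (hu _ (hf ε hε)).1 fun x => by fun_prop)).1⟩, fun ε hε x => ?_, fun ε hε x => ?_, ?_, ?_⟩
  · rw [B.ric_rat _ g (hK ε hε) hg x, B.ddc_add _ _ (Schw.ck_le (cl ε hε) 2)
      (Schw.ck_le (hu _ (hf ε hε)).1 2)]
    simp only [Atl.hm]
    push_cast
    module
  · have h1 := tr_le (((A.isK_iff _).1 (hu _ (hf ε hε)).2.1).2 x) (pg x) (hf ε hε).1.le
    rw [← hm_two, e2] at h1
    linarith
  · have l := (hbad.comp t).const_mul 2
    rw [mul_zero] at l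
    refine l.congr fun ε => ?_
    simp only [Function.comp, e2]
    rw [← integral_const_mul]
    congr 1
    funext x
    ring
  · intro C a0
    obtain ⟨L, c, hc, hO⟩ := hgood C a0
    refine ⟨L, c, hc, (t.eventually hO).mono fun ε ⟨O, o1, o2, o3, o4⟩ =>
      ⟨O, o1, o2, o3, fun y hy => ?_⟩⟩
    have := o4 y hy
    rw [e2] at this
    exact ⟨this.1, this.2.1, by linarith [this.2.2]⟩

end Pool.Agent.Lib.MP_813db1_ag.AS
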