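import Pool.Agent.Lib.MP_813db1_ag.AS.S2Stmt
import Pool.Agent.Lib.MP_813db1_ag.HS.AYAll
import Pool.Agent.Lib.MP_813db1_ag.HS.Sec
import Pool.Agent.Lib.MP_813db1_ag.HS.EndAbs

/-! Stage 2: the count of holomorphic sections for a fixed power. -/

namespace Pool.Agent.Lib.MP_813db1_ag.HS

open MeasureTheory Complex Matrix Filter Topology Set Metric
open scoped ContDiff ComplexOrder

namespace TFix

open Sec

variable {ι X : Type} [Fintype ι] [DecidableEq ι] [TopologicalSpace X] {M : Atl ι X} {a : ℕ}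
  {h : X → Mat ι} {φ : X → ℝ} {σ τ : X → ℂ}

/-- smooth sections. -/
def SS (M : Atl ι X) (a : ℕ) : Submodule ℂ (X → ℂ) where
  carrier := {σ | M.CkS ∞ a σ}
  add_mem' := ckS_add
  zero_mem' := fun e z _ _ => by
    rw [show M.rep a (0 : X → ℂ) e = fun _ => 0 from rep_zero e]
    exact contDiffAt_const
  smul_mem' := fun d _ h => ckS_cmul d h

theorem add (hσ : M.CkS ∞ a σ) (hτ : M.CkS ∞ a τ) (x : X) :
    M.boxT a h φ (σ + τ) x = M.boxT a h φ σ x + M.boxT a h φ τ x := by
  have hF : ContDiffAt ℝ 2 _ _ := (ckS_at hσ x).of_le (by norm_cast)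
  have hG : ContDiffAt ℝ 2 _ _ := (ckS_at hτ x).of_le (by norm_cast)
  have e : M.rep a (σ + τ) (M.ch x) = fun z => M.rep a σ (M.ch x) z + M.rep a τ (M.ch x) z :=
    rep_add _
  simp only [Atl.boxT, e, boxG, lapL, levi_add' hF hG, dzb_add (hF.differentiableAt two_ne_zero)
    (hG.differentiableAt two_ne_zero), Matrix.add_mul, trace_add, mul_add, Finset.sum_add_distrib]
  ring

theorem smul (c : ℂ) (hσ : M.CkS ∞ a σ) (x : X) :
    M.boxT a h φ (c • σ) x = c * M.boxT a h φ σ x := by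
  have hF : ContDiffAt ℝ 2 _ _ := (ckS_at hσ x).of_le (by norm_cast)
  have e : M.rep a (c • σ) (M.ch x) = fun z => c * M.rep a σ (M.ch x) z := rep_cmul c _
  simp only [Atl.boxT, e, boxG, lapL, levi_cmul' c hF,
    dzb_cmul c (hF.differentiableAt two_ne_zero), Matrix.smul_mul, trace_smul, smul_eq_mul, mul_sub,
    Finset.mul_sum]
  congr 1
  exact Finset.sum_congr rfl fun i _ => Finset.sum_congr rfl fun j _ => by ring

theorem mem (hR : RepTS) (hh : M.IsK h) (hφ : M.Ck ∞ φ) (hσ : M.CkS ∞ a σ) :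
    M.CkS ∞ a (M.boxT a h φ σ) := fun e he z hz => by
  have hH : CdM ∞ (M.repF h e) z := (hh e he).1.1.cd hz
  have h0 := (mat.det _ _ ((hh e he).2 z hz)).1.ne'
  have h1 : (M.repF h e z).det ≠ 0 := fun e => h0 (by rw [e]; rfl)
  have hF := hσ e he z hz
  have hl : CdM ∞ (levi (M.rep a σ e)) z := fun i j => contDiffAt_levi_top hF i j
  refine ContDiffAt.congr_of_eventuallyEq
    (f := boxG (cfT a (M.repF h e) (fn φ e)) (M.repF h e) (M.rep a σ e)) ?_ ?_
  · refine ((hl.mul (hH.inv h1)).tr).sub ?_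
    refine ContDiffAt.sum fun i _ => ContDiffAt.sum fun j _ => ?_
    exact ((hH.inv h1 j i).mul ((contDiffAt_const.mul (contDiffAt_dz_top (hH.lg h0) i)).sub
      (contDiffAt_dz_top (hφ e he z hz) i))).mul (contDiffAt_dzb_top hF j)
  · filter_upwards [e.open_target.mem_nhds hz] with w hw
    have := hR ι X M a h φ σ hh hφ e he _ (e.map_target hw)
      (by rw [e.right_inv hw]; exact (hσ e he w hw).of_le (by norm_cast))
    rwa [e.right_inv hw] at this

theorem coe_comb {Q : ℕ} (c : Fin Q → ℂ) (f : Fin Q → SS M a) :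
    ((∑ j, c j • f j : SS M a) : X → ℂ) = fun x => ∑ j, c j * (f j : X → ℂ) x := by
  funext x
  simp [Finset.sum_apply]

end TFix

open Sec TFix in
theorem fixT (hR : RepTS) (hG : GreenTS) (hl : Lin2TS) (hc : CompTS) : FixTS := by
  intro ι X _ _ _ _ _ _ _ M g h φ μ θ a Q N1 f0 hg hh hφ hμ hθ h1 h2 h3 h4
  have := ((AY.volS' ι X M g hg).2 μ hμ).fin
  have hA := AY.repA' ι X M
  obtain ⟨C, -⟩ := covS ι X M (fun _ => True) fun x => by
    obtain ⟨e, h1, h2, h3⟩ := hA.center x
    exact ⟨e, h1, trivial, h2, h3⟩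
  have hpd := ((hA.isK_iff h).1 hh).2
  have hw : ∀ x, 0 < wtT a g h φ x := (hG.cont ι X M g h φ a 0 0 hg hh hφ).2.2.2
  obtain ⟨p0, e0, s0, n0⟩ := exists_form (S := SS M a) μ
    (fun f f' x => (f : X → ℂ) x * star ((f' : X → ℂ) x) * (wtT a g h φ x : ℂ))
    (fun f f' => (hG.cont ι X M g h φ a f f' hg hh hφ).1 (ck_le f.2 (by simp))
      (ck_le f'.2 (by simp)))
    (fun f f' f'' x => by simp only [Submodule.coe_add, Pi.add_apply]; ring)
    (fun d f f' x => by simp only [Submodule.coe_smul, Pi.smul_apply, smul_eq_mul]; ring)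
    (fun f f' x => by
      rw [star_mul', star_mul', star_star, Complex.star_def, Complex.conj_ofReal]; ring)
    (fun f x => by
      rw [Complex.star_def, Complex.mul_conj, ← Complex.ofReal_mul, Complex.ofReal_re]
      exact mul_nonneg (Complex.normSq_nonneg _) (hw x).le)
  obtain ⟨p1, e1, s1, n1⟩ := exists_form (S := SS M a) μ
    (fun f f' x => ipV (h x) (M.shpX a h f x) (M.shpX a h f' x) * (wtT a g h φ x : ℂ))
    (fun f f' => (hG.cont ι X M g h φ a f f' hg hh hφ).2.1 (ck_le f.2 (by simp))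
      (ck_le f'.2 (by simp)) h fun e he => (hh e he).1.1)
    (fun f f' f'' x => by
      simp only [Submodule.coe_add, shp_add f.2 f'.2, ipV_add]; ring)
    (fun d f f' x => by simp only [Submodule.coe_smul, shp_smul d f.2, ipV_smul]; ring)
    (fun f f' x => by
      rw [star_mul', ipV_st (hpd x).1, Complex.star_def, Complex.conj_ofReal])
    (fun f x => by
      rw [Complex.re_mul_ofReal]
      exact mul_nonneg (mat.nv_mono _ _ _ (hpd x).posSemidef) (hw x).le)
  have e0' : ∀ f f' : SS M a, p0 f f' = M.ip0T μ a g h φ f f' := e0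
  have e1' : ∀ f f' : SS M a, p1 f f' = M.ip1T μ a g h φ f f' := e1
  let B : SS M a →ₗ[ℂ] SS M a :=
    { toFun := fun f => ⟨M.boxT a h φ f, mem hR hh hφ f.2⟩
      map_add' := fun f f' => Subtype.ext (funext (add f.2 f'.2))
      map_smul' := fun d f => Subtype.ext (funext (smul d f.2)) }
  have eB : ∀ f : SS M a, ((B f : SS M a) : X → ℂ) = M.boxT a h φ f := fun _ => rfl
  let Ho : Submodule ℂ (SS M a) :=
    { carrier := {f | M.HolS a f}
      add_mem' := fun {f f'} hf hf' e he => by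
        have e' : M.rep a ((f + f' : SS M a) : X → ℂ) e =
            fun z => M.rep a f e z + M.rep a f' e z := rep_add _
        rw [e']
        exact (hf e he).add (hf' e he)
      zero_mem' := fun e _ => by
        have e' : M.rep a ((0 : SS M a) : X → ℂ) e = fun _ => 0 := rep_zero e
        rw [e']
        exact differentiableOn_const _
      smul_mem' := fun d f hf e he => by
        have e' : M.rep a ((d • f : SS M a) : X → ℂ) e = fun z => d * M.rep a f e z :=
          rep_cmul d _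
        rw [e']
        exact (hf e he).const_mul d }
  obtain ⟨-, hs2, hs3, -⟩ := smo AY.repA' AY.curvS' mat ι X M C a
  obtain ⟨C2, -, hl2⟩ := hl ι X M g h φ μ C a hg hh hφ hμ
  choose B0 hB0 hB0' using fun j => hs2 (f0 j) (h1 j)
  let F0 : Fin Q → SS M a := fun j => ⟨f0 j, h1 j⟩
  obtain ⟨σ, hσ1, hσ2⟩ := endAbs (SS M a) p0 p1 B Ho Q N1 θ F0 hθ s0 s1 n0 n1
    (fun f f' => by
      rw [e0', e1', eB]
      exact (hG.sec ι X M g h φ μ a f f' hg hh hφ hμ (ck_le f.2 (by norm_cast))
        (ck_le f'.2 (by simp))).2)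
    (fun η hη j => by
      obtain ⟨v, -, -, hv2, hv3⟩ := (hl2 η hη).2 (f0 j) (B0 j) (hs3 _ _ (hB0' j)).2
      exact ⟨⟨v, hv3 (h1 j)⟩, Subtype.ext (funext hv2)⟩)
    (fun Q' f hf1 hf2 => h4 Q' (fun j => f j) (fun j => (f j).2) (fun i j => by rw [← e1', hf1])
      fun d => by rw [← TFix.coe_comb, ← eB, ← e0']; exact hf2 d)
    (fun i j => by rw [e0']; exact h2 i j)
    (fun d => by rw [e1', TFix.coe_comb]; exact h3 d)
    (fun η v d hη hd hv1 hv2 hv3 => by
      have hd1 : ∀ k j, ‖d k j‖ ≤ 1 := fun k j => by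
        have := Finset.single_le_sum (f := fun j => ‖d k j‖ ^ 2) (fun j _ => sq_nonneg _)
          (Finset.mem_univ j)
        rw [hd k] at this
        nlinarith [norm_nonneg (d k j)]
      have hbd : ∀ k, C.SH2 a (C2 * (∑ j, 8 * B0 j + 2)) (v k) := fun k => by
        obtain ⟨B', -, hB'⟩ := hs2 (v k) (v k).2
        refine (hl2 (η k) (hη k)).1 (v k) _ B' 2 (by norm_num) hB' ?_ (by
          rw [← e0']; linarith [hv2 k])
        have e2 : ∀ x, (η k : ℂ) * (v k : X → ℂ) x - M.boxT a h φ (v k) x =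
            ∑ j, ((η k : ℂ) * d k j) * f0 j x := fun x => by
          have := congrFun (congrArg Subtype.val (hv1 k)) x
          rw [Submodule.coe_smul, TFix.coe_comb] at this
          simp only [mul_assoc, ← Finset.mul_sum]
          exact this
        refine Cov.SH.congr (Cov.SH2.sh (Cov.SH2.sum Finset.univ fun j _ => ?_)) e2
        refine ((hB0' j).cmul _).mono ?_
        rw [norm_mul, Complex.norm_real, Real.norm_of_nonneg (hη k).1.le]
        have := mul_le_one₀ (hη k).2 (norm_nonneg _) (hd1 k j)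
        nlinarith [hB0 j]
      obtain ⟨σ', q1, q2, q4⟩ := hc ι X M g h φ μ C a _ (fun k => v k) hg hh hφ hμ hbd
        (by simpa only [← e1'] using hv3)
      refine ⟨⟨σ', q2⟩, q1, fun δ hδ => ?_⟩
      obtain ⟨k, hk⟩ := q4 δ hδ
      exact ⟨k, by rw [e0']; exact hk⟩)
  exact ⟨fun j => σ j, hσ1, hσ2.map' (SS M a).subtype (Submodule.ker_subtype _)⟩

end Pool.Agent.Lib.MP_813db1_ag.HS
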