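import Pool.Agent.Lib.MP_813db1_ag.AS.S2Alg

/-! Green's formula for the twisted operator. -/

namespace Pool.Agent.Lib.MP_813db1_ag.HS

open MeasureTheory Complex Matrix Filter Topology Set Metric
open scoped ContDiff ComplexOrder

namespace TGreen

open Green

variable {ι X : Type} [Fintype ι] [DecidableEq ι] [TopologicalSpace X] {M : Atl ι X}
  {g h : X → Mat ι} {φ : X → ℝ} {a : ℕ} {σ τ : X → ℂ}

theorem rep_exp (e : Ch ι X) : M.rep a (fun x => (Real.exp (φ x) : ℂ) * τ x) e =
    fun z => cexp (fn φ e z) * M.rep a τ e z := by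
  funext z
  simp only [Atl.rep, fn, ofReal_exp]
  ring

theorem cont_exp (hφ : M.Ck ∞ φ) : Continuous fun x => Real.exp (φ x) :=
  Real.continuous_exp.comp ((AY.repA' ι X M).cont φ fun e he z hz => (hφ e he z hz).of_le zero_le)

theorem ip_exp (hh : M.IsK h) (hφ : M.Ck ∞ φ) (hτ : M.CkS 1 a τ) (s : V ι) (x : X) :
    ipV (h x) s (M.shpX a h (fun x => (Real.exp (φ x) : ℂ) * τ x) x) =
      Real.exp (φ x) * (ipV (h x) s (M.shpX a h τ x) + (∑ i, M.dfn φ x i * s i) * star (τ x)) := by
  have ha := AY.repA' ι X M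
  have hp := pd ha hh x
  have k := fun T => ipV_shp (H := M.repF h (M.ch x)) (T := T) (z := M.ch x x)
    (by rw [ha.repF_self]; exact hp.1) (by rw [ha.repF_self]; exact hp.det_pos.ne') s
  rw [ha.repF_self] at k
  have d1 : DifferentiableAt ℝ (fn φ (M.ch x)) (M.ch x x) :=
    (hφ _ (M.ch_mem x) _ ((M.ch x).map_source (M.mem x))).differentiableAt (by simp)
  have d2 := (ckS_at hτ x).differentiableAt one_ne_zero
  have e1 : cexp (fn φ (M.ch x) (M.ch x x)) = Real.exp (φ x) := by
    simp only [fn, (M.ch x).left_inv (M.mem x), ofReal_exp]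
  have e2 : ∀ i, dzb (fun z => cexp (fn φ (M.ch x) z)) i (M.ch x x) =
      Real.exp (φ x) * star (M.dfn φ x i) := fun i => by
    rw [dzb_hol_comp (Complex.hasDerivAt_exp _) d1, e1]
    congr 1
    exact dzb_ofReal (fun z => φ ((M.ch x).symm z)) i _
  rw [Atl.shpX, Atl.shpX, k, k, rep_exp]
  simp only [dzb_mul d1.cexp d2, e1, e2, ha.rep_self, star_add, star_mul', star_star,
    RCLike.star_def, conj_ofReal, conj_conj, Finset.mul_sum, Finset.sum_mul, mul_add,
    ← Finset.sum_add_distrib]
  exact Finset.sum_congr rfl fun i _ => by ring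

end TGreen

open TGreen Green in
theorem greenT (hR : RepTS) : GreenTS where
  cont := by
    intro ι X _ _ _ M g h φ a σ τ hg hh hφ
    obtain ⟨c1, c2, c3, c4⟩ := AY.greenS.cont ι X M g h a σ τ hg hh
    have ce := cont_exp hφ
    refine ⟨fun h1 h2 => ((c1 h1 h2).mul (continuous_ofReal.comp ce)).congr fun x => ?_,
      fun h1 h2 B hB => ((c2 h1 h2 B hB).mul (continuous_ofReal.comp ce)).congr fun x => ?_,
      fun h1 => ((c3 h1).mul ce).congr fun x => ?_, fun x => mul_pos (c4 x) (Real.exp_pos _)⟩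
    · simp only [wtT, Function.comp, Pi.mul_apply, ofReal_mul, mul_assoc]
    · simp only [wtT, Function.comp, Pi.mul_apply, ofReal_mul, mul_assoc]
    · simp only [wtT, Pi.mul_apply, mul_assoc]
  sec := by
    intro ι X _ _ _ _ _ _ _ M g h φ μ a σ τ hg hh hφ hμ hσ hτ
    have ha := AY.repA' ι X M
    have hb := AY.repB' ι X M
    have := ((AY.volS' ι X M g hg).2 μ hμ).fin
    have k0 : M.CkS 0 a (M.boxT a h φ σ) := fun e he z hz => by
      refine ContDiffAt.congr_of_eventuallyEq ?_ (boxT_ev hR hh hφ hσ he hz)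
      have h0 : CdM 0 (M.repF h e) z := ((hh e he).1.1.cd hz).of_le zero_le
      have h1 := det_ne ((hh e he).2 z hz)
      exact (cd_lapL h0 h1 (hσ e he z hz)).sub (ContDiffAt.sum fun i _ => ContDiffAt.sum fun j _ =>
        ((h0.inv h1 j i).mul ((cd_cfT ((hh e he).1.1.cd hz) ((hh e he).2 z hz) (hφ e he z hz)
          i).of_le zero_le)).mul (contDiffAt_dzb (hσ e he z hz) (by norm_num) j))
    have k1 : M.CkS 1 a fun x => (Real.exp (φ x) : ℂ) * τ x := fun e he z hz => by
      rw [rep_exp]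
      exact ((hφ e he z hz).of_le (by norm_cast)).cexp.mul (hτ e he z hz)
    have σ1 : M.CkS 1 a σ := fun e he z hz => (hσ e he z hz).of_le one_le_two
    have τ0 : M.CkS 0 a τ := fun e he z hz => (hτ e he z hz).of_le zero_le
    have ce := continuous_ofReal.comp (cont_exp hφ)
    have i1 : Integrable (fun x => M.boxT a h φ σ x * star (τ x) * (wtT a g h φ x : ℂ)) μ :=
      intg (((cont0 ha mat hg hh k0 τ0).mul ce).congr fun x => by
        simp only [wtT, Function.comp, Pi.mul_apply, ofReal_mul, mul_assoc])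
    have i2 : Integrable (fun x => ipV (h x) (M.shpX a h σ x) (M.shpX a h τ x) *
        (wtT a g h φ x : ℂ)) μ :=
      intg (((cont1 ha hb mat hg hh σ1 hτ fun e he => (hh e he).1.1).mul ce).congr fun x => by
        simp only [wtT, Function.comp, Pi.mul_apply, ofReal_mul, mul_assoc])
    refine ⟨k0, eq_neg_of_add_eq_zero_left ?_⟩
    rw [Atl.ip0T, Atl.ip1T, ← integral_add i1 i2,
      ← sec_zero ha hb AY.divS' AY.curvS' mat hg hh hμ hσ k1]
    refine integral_congr_ae (Eventually.of_forall fun x => ?_)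
    simp only [ip_exp hh hφ hτ, boxT_eq, wtT, ofReal_mul, star_mul', RCLike.star_def, conj_ofReal]
    ring

end Pool.Agent.Lib.MP_813db1_ag.HS
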