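import Pool.Agent.Lib.MP_813db1_ag.AS.S2Alg
import Pool.Agent.Lib.MP_813db1_ag.HS.Comp

/-! Comparison of norms, dissipativity and compactness for the twisted operator. -/

namespace Pool.Agent.Lib.MP_813db1_ag.HS

open MeasureTheory Complex Matrix Filter Topology Set Metric
open scoped ContDiff ComplexOrder

namespace TL2

open L2

variable {ι X : Type} [Fintype ι] [DecidableEq ι] [TopologicalSpace X] {M : Atl ι X}
  {g h : X → Mat ι} {φ : X → ℝ} {a : ℕ}

theorem ip0_re [MeasurableSpace X] (μ : Measure X) (a : ℕ) (g h : X → Mat ι) (φ : X → ℝ)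
    (σ : X → ℂ) : (M.ip0T μ a g h φ σ σ).re = ∫ x, ‖σ x‖ ^ 2 * wtT a g h φ x ∂μ := by
  simp only [Atl.ip0T, sq_eq]
  rw [integral_complex_ofReal, ofReal_re]

theorem cont_sq (hg : GreenTS) {σ : X → ℂ} (h1 : M.IsK g) (h2 : M.IsK h) (hφ : M.Ck ∞ φ)
    (h3 : M.CkS 0 a σ) : Continuous fun x => ‖σ x‖ ^ 2 * wtT a g h φ x := by
  have := continuous_re.comp ((hg.cont ι X M g h φ a σ σ h1 h2 hφ).1 h3 h3)
  simpa only [Function.comp_def, sq_eq, ofReal_re] using this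

variable [CompactSpace X] [MeasurableSpace X] [BorelSpace X] {μ : Measure X}

theorem cmp [IsFiniteMeasure μ] (hφ : Continuous φ) : ∃ E ≥ (1 : ℝ), ∀ f : X → ℝ, Continuous f →
    (∀ x, 0 ≤ f x) → ∫ x, f x * Real.exp (φ x) ∂μ ≤ E * ∫ x, f x ∂μ ∧
      ∫ x, f x ∂μ ≤ E * ∫ x, f x * Real.exp (φ x) ∂μ := by
  obtain ⟨B, hB⟩ := isCompact_univ.exists_bound_of_continuousOn hφ.continuousOn
  refine ⟨Real.exp |B|, Real.one_le_exp (abs_nonneg B), fun f hf h0 => ?_⟩
  have i1 : Integrable f μ := integ hf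
  have i2 : Integrable (fun x => f x * Real.exp (φ x)) μ :=
    integ (hf.mul (Real.continuous_exp.comp hφ))
  have b := fun x => abs_le.1 ((hB x (mem_univ x)).trans (le_abs_self B))
  rw [← integral_const_mul, ← integral_const_mul]
  refine ⟨integral_mono i2 (i1.const_mul _) fun x => ?_,
    integral_mono i1 (i2.const_mul _) fun x => ?_⟩
  · simp only [mul_comm (f x)]
    exact mul_le_mul_of_nonneg_right (Real.exp_le_exp.2 (b x).2) (h0 x)
  · simp only [mul_left_comm (Real.exp |B|), ← Real.exp_add]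
    exact le_mul_of_one_le_right (h0 x) (Real.one_le_exp (by linarith [(b x).1]))

variable [T2Space X]

theorem diss (hg : GreenTS) [IsFiniteMeasure μ] {η : ℝ} {v : X → ℂ} (h1 : M.IsK g) (h2 : M.IsK h)
    (hφ : M.Ck ∞ φ) (h3 : M.IsVol g μ) (h4 : ∀ x, (h x).PosDef) (hη : 0 ≤ η) (hv : M.CkS 2 a v) :
    η ^ 2 * (M.ip0T μ a g h φ v v).re ≤
      (M.ip0T μ a g h φ (fun x => (η : ℂ) * v x - M.boxT a h φ v x)
        (fun x => (η : ℂ) * v x - M.boxT a h φ v x)).re := by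
  have v1 : M.CkS 1 a v := ckS_le hv (by norm_num)
  have v0 : M.CkS 0 a v := ckS_le hv (by norm_num)
  obtain ⟨b0, gr⟩ := hg.sec ι X M g h φ μ a v v h1 h2 hφ h3 hv v1
  have f0 : M.CkS 0 a fun x => (η : ℂ) * v x - M.boxT a h φ v x := fun e he z hz =>
    rep_sub (M := M) e ▸ (ckS_cmul (η : ℂ) v0 e he z hz).sub (b0 e he z hz)
  have hw := (hg.cont ι X M g h φ a v v h1 h2 hφ).2.2.2
  have i1 : Integrable (fun x => ‖v x‖ ^ 2 * wtT a g h φ x) μ := integ (cont_sq hg h1 h2 hφ v0)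
  have i2 : Integrable (fun x => M.boxT a h φ v x * star (v x) * (wtT a g h φ x : ℂ)) μ :=
    integ ((hg.cont ι X M g h φ a _ v h1 h2 hφ).1 b0 v0)
  have i3 : Integrable (fun x => ipV (h x) (M.shpX a h v x) (M.shpX a h v x) *
      (wtT a g h φ x : ℂ)) μ :=
    integ ((hg.cont ι X M g h φ a v v h1 h2 hφ).2.1 v1 v1 h fun e he => (h2 e he).1.1)
  have i2' : Integrable (fun x => (M.boxT a h φ v x * star (v x) * (wtT a g h φ x : ℂ)).re) μ :=
    i2.re
  have p1 : 0 ≤ (M.ip1T μ a g h φ v v).re := by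
    have e : (M.ip1T μ a g h φ v v).re = _ := (integral_re i3).symm
    rw [e]
    refine integral_nonneg fun x => ?_
    change 0 ≤ (ipV (h x) (M.shpX a h v x) (M.shpX a h v x) * (wtT a g h φ x : ℂ)).re
    rw [re_mul_ofReal]
    exact mul_nonneg (mat.nv_mono ι _ _ (h4 x).posSemidef) (hw x).le
  have p2 : ∫ x, (M.boxT a h φ v x * star (v x) * (wtT a g h φ x : ℂ)).re ∂μ =
      -(M.ip1T μ a g h φ v v).re := by
    rw [← neg_re, ← gr]
    exact integral_re i2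
  have p3 := integral_mono ((i1.const_mul (η ^ 2)).sub (i2'.const_mul (2 * η)))
    (integ (μ := μ) (cont_sq hg h1 h2 hφ f0)) fun x => by
      have := mul_le_mul_of_nonneg_right (sq_le η (v x) (M.boxT a h φ v x)) (hw x).le
      simp only [Pi.sub_apply, re_mul_ofReal]
      linarith
  rw [ip0_re, ip0_re]
  refine le_trans ?_ p3
  rw [integral_sub' (i1.const_mul (η ^ 2)) (i2'.const_mul (2 * η)), integral_const_mul,
    integral_const_mul, p2]
  nlinarith [mul_nonneg hη p1]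

theorem cmp0 (h1 : M.IsK g) (h2 : M.IsK h) (hφ : M.Ck ∞ φ) (h3 : M.IsVol g μ) (a : ℕ) :
    ∃ E ≥ (1 : ℝ), (∀ v, M.CkS 0 a v → (M.ip0T μ a g h φ v v).re ≤ E * (M.ip0 μ a g h v v).re ∧
      (M.ip0 μ a g h v v).re ≤ E * (M.ip0T μ a g h φ v v).re) ∧
    ∀ v, M.CkS 1 a v → 0 ≤ (M.ip1 μ a g h v v).re ∧
      (M.ip1 μ a g h v v).re ≤ E * (M.ip1T μ a g h φ v v).re := by
  have hA := AY.repA' ι X M
  have := ((AY.volS' ι X M g h1).2 μ h3).fin
  have cφ : Continuous φ := hA.cont φ fun e he z hz => (hφ e he z hz).of_le zero_le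
  obtain ⟨E, E1, hE⟩ := cmp (μ := μ) cφ
  have hw := (AY.greenS.cont ι X M g h a 0 0 h1 h2).2.2.2
  refine ⟨E, E1, fun v hv => ?_, fun v hv => ?_⟩
  · simp only [ip0_re, L2.ip0_re, wtT, ← mul_assoc]
    exact hE _ (L2.cont_sq AY.greenS h1 h2 hv) fun x => mul_nonneg (sq_nonneg _) (hw x).le
  · have c := (AY.greenS.cont ι X M g h a v v h1 h2).2.1 hv hv h fun e he => (h2 e he).1.1
    have n : ∀ x, 0 ≤ (ipV (h x) (M.shpX a h v x) (M.shpX a h v x) * (wt a g h x : ℂ)).re :=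
      fun x => by
        rw [re_mul_ofReal]
        exact mul_nonneg (mat.nv_mono ι _ _ (Green.pd hA h2 x).posSemidef) (hw x).le
    have e1 : (M.ip1 μ a g h v v).re = ∫ x, (ipV (h x) (M.shpX a h v x) (M.shpX a h v x) *
        (wt a g h x : ℂ)).re ∂μ := (integral_re (integ c)).symm
    have e2 : (M.ip1T μ a g h φ v v).re = ∫ x, (ipV (h x) (M.shpX a h v x) (M.shpX a h v x) *
        (wt a g h x : ℂ)).re * Real.exp (φ x) ∂μ := by
      simp only [Atl.ip1T, wtT, ofReal_mul, ← mul_assoc, ← re_mul_ofReal]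
      exact (integral_re (integ (c.mul (continuous_ofReal.comp
        (Real.continuous_exp.comp cφ))))).symm
    rw [e1, e2]
    exact ⟨integral_nonneg n, (hE _ (continuous_re.comp c) n).2⟩

end TL2

theorem l2T (hG : GreenTS) : L2TS := by
  intro ι X _ _ _ _ _ _ _ M g h φ μ C a h1 h2 hφ h3
  have hA := AY.repA' ι X M
  have := ((AY.volS' ι X M g h1).2 μ h3).fin
  obtain ⟨s1, -, -, s4⟩ := smo AY.repA' AY.curvS' mat ι X M C a
  obtain ⟨L, hL⟩ := s1 h h2
  obtain ⟨c, c0, hc⟩ := l2S AY.repA' mat AY.volS' AY.greenS ι X M g μ C a L h1 h3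
  obtain ⟨q1, q2, -⟩ := hc h h2 hL
  obtain ⟨E, E1, hE, -⟩ := TL2.cmp0 h1 h2 hφ h3 a
  have EE : E ≤ E ^ 2 := by nlinarith
  refine ⟨c * E, by positivity, fun f B hf => ?_, fun v P hP v0 hv b => ?_,
    fun η v hη v2 => TL2.diss hG h1 h2 hφ h3 (Green.pd hA h2) hη v2⟩
  · refine ((hE f (s4 f B hf)).1.trans (mul_le_mul_of_nonneg_left (q1 f B hf)
      (by linarith))).trans ?_
    nlinarith [mul_le_mul_of_nonneg_right EE (sq_nonneg (c * B))]
  · rw [mul_assoc]
    refine q2 v (E * P) (by positivity) v0 (((hE v v0).2.trans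
      (mul_le_mul_of_nonneg_left hv (by linarith))).trans ?_) b
    nlinarith [mul_le_mul_of_nonneg_right EE (sq_nonneg P)]

theorem compT : CompTS := by
  intro ι X _ _ _ _ _ _ _ M g h φ μ C a B σ h1 h2 hφ h3 hσ ht
  have hA := AY.repA' ι X M
  obtain ⟨E, E1, hE, hE'⟩ := TL2.cmp0 h1 h2 hφ h3 a
  have k1 := fun k => hE' (σ k) (L2.ckS_le ((hσ k).ckS hA) one_le_two)
  obtain ⟨σ', 𝒰, q1, q2, -, q4⟩ := comp AY.repA' AY.repB' mat cau AY.volS' ι X M g h μ C a B σ h1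
    h2 h3 hσ (squeeze_zero (fun k => (k1 k).1) (fun k => (k1 k).2)
      (by simpa only [mul_zero] using ht.const_mul E))
  refine ⟨σ', q1, q2, fun δ hδ => ?_⟩
  have t := q4.const_mul E
  rw [mul_zero] at t
  obtain ⟨k, hk⟩ := (t.eventually (gt_mem_nhds hδ)).exists
  refine ⟨k, (hE _ fun e he z hz => ?_).1.trans_lt hk⟩
  rw [rep_sub]
  exact (((hσ k).ckS hA e he z hz).of_le zero_le).sub ((q2 e he z hz).of_le zero_le)

end Pool.Agent.Lib.MP_813db1_ag.HS
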