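import Pool.Agent.Lib.MP_813db1_ag.AS.S2Alg

/-! The linear theory of the twisted operator: a priori estimate and method of continuity. -/

namespace Pool.Agent.Lib.MP_813db1_ag.HS

open MeasureTheory Complex Matrix Filter Topology Set Metric
open scoped ContDiff ComplexOrder

namespace TLin2

variable {ι X : Type} [Fintype ι] [DecidableEq ι] [TopologicalSpace X] {M : Atl ι X} {C : Cov M}
  {a : ℕ} {h : X → Mat ι} {φ : X → ℝ}

/-- smoothness of the solutions. -/
theorem smooth (hA : RepA' M) (hR : RepTS) (hk : HkS) (hr : RegTS) (hh : M.IsK h)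
    (hφ : M.Ck ∞ φ) {c : ℂ}
    {v f : X → ℂ} {N : ℝ} (hv : C.SH2 a N v) (e : ∀ x, c * v x - M.boxT a h φ v x = f x)
    (hf : M.CkS ∞ a f) : M.CkS ∞ a v := by
  refine hA.ckS_loc ⊤ a v fun x => ?_
  obtain ⟨b, h1, h2⟩ := C.cover2 x
  have s := C.ball_sub2 b
  obtain ⟨⟨k1, k2, k3⟩, k4⟩ := hh _ (C.mem b)
  refine ⟨C.e b, C.mem b, h1, hr ι (ball 0 (2 * C.r b))
    (cfT a (M.repF h (C.e b)) (fn φ (C.e b))) c (M.repF h (C.e b)) _
    (M.rep a f (C.e b)) isOpen_ball ⟨⟨fun z hz => k1 z (s hz), fun z hz => k2 z (s hz),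
      fun z hz => k3 z (s hz)⟩, fun z hz => k4 z (s hz)⟩
    (fun i z hz => cd_cfT (k1.cd (s hz)) (k4 z (s hz)) (hφ _ (C.mem b) z (s hz)) i)
    (fun z hz => hf _ (C.mem b) z (s hz))
    ((hk.two ι _ _ isOpen_ball).2 fun z hz => ?_) (fun z hz => ?_) _ h2⟩
  · obtain ⟨r, h3, h4⟩ := Metric.isOpen_iff.1 isOpen_ball z hz
    exact ⟨r, h3, N, (hv b).subset h4⟩
  · obtain ⟨y, hy, rfl⟩ : ∃ y ∈ (C.e b).source, C.e b y = z :=
      ⟨_, (C.e b).map_target (s hz), (C.e b).right_inv (s hz)⟩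
    rw [← hR ι X M a h φ v hh hφ _ (C.mem b) y hy ((hv b).1 _ hz), rep_at _ hy, rep_at _ hy,
      rep_at _ hy, ← e]
    ring

/-- solvability for the parameter `m`, with constant `K`. -/
def Solv (C : Cov M) (a : ℕ) (h : X → Mat ι) (φ : X → ℝ) (K m : ℝ) : Prop :=
  ∀ f B, 0 ≤ B → C.SH a B f →
    ∃ v, C.SH2 a (K * B) v ∧ ∀ x, (m : ℂ) * v x - M.boxT a h φ v x = f x

/-- one step of the method of continuity. -/
theorem step (hA : RepA' M) (hR : RepTS) (hi : IterS) (hh : M.IsK h) (hφ : M.Ck ∞ φ) {K m m' : ℝ}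
    (hK : 0 ≤ K) (hm : |m - m'| * K ≤ 1 / 2) (hs : Solv C a h φ K m) :
    Solv C a h φ (2 * K) m' := fun f B h0 hf => by
  obtain ⟨v, h1, h2⟩ := hi ι X M C a (fun v x => f x - ((m' : ℂ) * v x - M.boxT a h φ v x)) 1 K B
    le_rfl hK h0 (Cov.sh_iff.1 (hf.congr fun x => by simp [boxT_zero'])) (fun v B' p0 _ hv hp => by
      obtain ⟨w, h1, h2⟩ := hs _ B' p0 (Cov.sh_iff.2 hp)
      refine ⟨w, h1, Cov.sh_iff.1 (((h1.sh.cmul ((m - m' : ℝ) : ℂ)).congr fun x => ?_).mono ?_)⟩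
      · rw [boxT_add (hv.ckS hA) (h1.ckS hA)]
        push_cast
        linear_combination -h2 x
      · rw [Complex.norm_real, Real.norm_eq_abs, ← mul_assoc]
        linarith [mul_le_mul_of_nonneg_right hm p0]) fun v x hv ε hε => by
      obtain ⟨c1, p1, k1⟩ := Cov.SH.bound hA C a x
      obtain ⟨c2, p2, k2⟩ := boxT_bound hR hh hφ C a x
      have p : 0 < ‖(m' : ℂ)‖ * c1 + c2 + 1 := by positivity
      refine ⟨ε / (‖(m' : ℂ)‖ * c1 + c2 + 1), div_pos hε p, fun v' hv' hd => ?_⟩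
      have e1 := k1 _ _ hd.sh
      have e2 := k2 _ _ hd
      rw [boxT_sub (hv.ckS hA) (hv'.ckS hA)] at e2
      have e3 := mul_div_cancel₀ ε p.ne'
      have e4 := div_pos hε p
      generalize ε / (‖(m' : ℂ)‖ * c1 + c2 + 1) = δ at *
      calc _ = ‖(M.boxT a h φ v x - M.boxT a h φ v' x) - (m' : ℂ) * (v x - v' x)‖ := by
            congr 1
            ring
        _ ≤ c2 * δ + ‖(m' : ℂ)‖ * (c1 * δ) := (norm_sub_le _ _).trans (add_le_add e2 (by
            rw [norm_mul]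
            exact mul_le_mul_of_nonneg_left e1 (norm_nonneg _)))
        _ ≤ ε := by nlinarith
  exact ⟨v, h1, fun x => (sub_eq_zero.1 (h2 x)).symm⟩

end TLin2

theorem lin2T (hR : RepTS) (hr : RegTS) (hs : SmoTS) (h1 : LinETS) (h2 : L2TS) : Lin2TS := by
  intro ι X _ _ _ _ _ _ _ M g h φ μ C a hg hh hφ hμ
  have hA := AY.repA' ι X M
  have hc := cau
  have hi := AY.iterS
  obtain ⟨L, hL⟩ := hs ι X M C a h φ hh hφ
  obtain ⟨l, hl, C1, p1, k1⟩ := h1 ι X M C a L
  replace k1 := k1 h φ hh hφ hL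
  obtain ⟨c, p2, q1, q2, q3⟩ := h2 ι X M g h φ μ C a hg hh hφ hμ
  have l0 : 0 < l := by linarith
  obtain ⟨D, p3, k3⟩ := Lin2.interp hc C a (δ := 1 / (2 * (C1 + 1) * l)) (by positivity)
  have p4 : 0 ≤ 2 * C1 * (1 + l * D * c) := by positivity
  refine ⟨c + 2 * C1 * (1 + l * D * c), by positivity, ?_⟩
  have two : ∀ {v N}, C.SH2 a N v → M.CkS 0 a v := fun hv e he z hz =>
    (hv.ckS hA e he z hz).of_le (by norm_num)
  have uq : ∀ v N, C.SH2 a N v → (∀ x, (l : ℂ) * v x - M.boxT a h φ v x = 0) → ∀ x, v x = 0 :=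
    fun v N hv e x => by
      have e1 := q3 l v l0.le (hv.ckS hA)
      rw [funext e] at e1
      have e2 := e1.trans (q1 _ 0 (Cov.SH.zero le_rfl))
      have e3 : (M.ip0T μ a g h φ v v).re ≤ 0 ^ 2 := by nlinarith [pow_pos l0 2]
      obtain ⟨c1, p5, k5⟩ := Cov.SH.bound hA C a x
      refine norm_le_zero_iff.1 (le_of_forall_pos_le_add fun ε hε => ?_)
      have p : 0 < c1 * |N| + 1 := by positivity
      obtain ⟨D', -, k6⟩ := Lin2.interp hc C a (div_pos hε p)
      have e4 := k5 _ _ (k6 v N (c * 0) (by simp) hv (q2 v 0 le_rfl (two hv) e3))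
      have e5 := mul_div_cancel₀ ε p.ne'
      have e6 := div_pos hε p
      generalize ε / (c1 * |N| + 1) = δ at *
      nlinarith [mul_le_mul_of_nonneg_left (le_abs_self N) (mul_nonneg p5 e6.le)]
  have ap : ∀ m : ℝ, 0 < m → m ≤ l → ∀ v B N P, 0 ≤ P → C.SH2 a N v →
      C.SH a B (fun x => (m : ℂ) * v x - M.boxT a h φ v x) → (M.ip0T μ a g h φ v v).re ≤ P ^ 2 →
      C.SH2 a ((c + 2 * C1 * (1 + l * D * c)) * (B + P)) v := fun m m0 ml v B N P hP hv hf hq b => by
    have B0 := (hf b).nonneg (C.zero_mem b)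
    refine (((hv.absorb (B := C1 * B + C1 * (l * D * c * P)) fun N hv => ?_).mono ?_) b)
    · have N0 := (hv.sh b).nonneg (C.zero_mem b)
      have e1 := k3 v N (c * P) (by positivity) hv (q2 v P hP (two hv) hq)
      have e2 := hf.add (e1.cmul ((l - m : ℝ) : ℂ))
      obtain ⟨w, e3, e4⟩ := k1 _ _ (by positivity) e2
      have e5 := uq _ _ (hv.sub e3) fun x => by
        rw [boxT_sub (hv.ckS hA) (e3.ckS hA)]
        have := e4 x
        push_cast at this
        linear_combination -this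
      refine (e3.congr fun x => sub_eq_zero.1 (e5 x)).mono ?_
      rw [Complex.norm_real, Real.norm_of_nonneg (sub_nonneg.2 ml)]
      have e6 : C1 * (l * (1 / (2 * (C1 + 1) * l) * N)) ≤ N / 2 := by
        have : C1 * (l * (1 / (2 * (C1 + 1) * l) * N)) = C1 / (C1 + 1) * (N / 2) := by field_simp
        rw [this]
        exact mul_le_of_le_one_left (by positivity) ((div_le_one (by positivity)).2 (by linarith))
      have e7 : 0 ≤ C1 * (m * (1 / (2 * (C1 + 1) * l) * N + D * (c * P))) := by positivity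
      nlinarith
    · have : 0 ≤ c * (B + P) + 2 * C1 * P + 2 * C1 * (l * D * c * B) := by positivity
      nlinarith
  generalize hC : c + 2 * C1 * (1 + l * D * c) = C2 at *
  have p5 : c ≤ C2 := by linarith
  have p6 : 0 ≤ C2 := p2.trans p5
  refine fun η hη => ⟨ap η hη.1 (hη.2.trans hl), fun f B hf => ?_⟩
  have η0 := hη.1
  have up : ∀ m K, η ≤ m → m ≤ l → TLin2.Solv C a h φ K m →
      TLin2.Solv C a h φ (C2 * (1 + c / η)) m := fun m K m1 m2 hs f B B0 hf => by
      have m0 := η0.trans_le m1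
      obtain ⟨v, e1, e2⟩ := hs f B B0 hf
      refine ⟨v, (ap m m0 m2 v B _ (c * B / m) (by positivity) e1 (hf.congr e2) ?_).mono ?_, e2⟩
      · have e3 := q3 m v m0.le (e1.ckS hA)
        rw [funext e2] at e3
        rw [div_pow, le_div_iff₀' (pow_pos m0 2)]
        exact e3.trans (q1 f B hf)
      · rw [mul_assoc, add_mul, one_mul, div_mul_eq_mul_div]
        gcongr
  have K0 : 0 ≤ C2 * (1 + c / η) := by positivity
  generalize C2 * (1 + c / η) = K at *
  have all : ∀ k : ℕ, ∀ m, η ≤ m → m ≤ l → l - m ≤ k / (2 * K + 2) → TLin2.Solv C a h φ K m := by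
    intro k
    induction k with
    | zero =>
      intro m m1 m2 m3
      obtain rfl : m = l := le_antisymm m2 (by simpa using m3)
      exact up m C1 m1 m2 k1
    | succ k ih =>
      intro m m1 m2 m3
      have s0 : 0 < 1 / (2 * K + 2) := by positivity
      have s1 : 0 ≤ k / (2 * K + 2) := by positivity
      have s2 : m ≤ min l (m + 1 / (2 * K + 2)) := le_min m2 (by linarith)
      rw [Nat.cast_succ, add_div] at m3
      refine up m _ m1 m2 (TLin2.step hA hR hi hh hφ K0 ?_ (ih (min l (m + 1 / (2 * K + 2)))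
        (m1.trans s2) (min_le_left _ _) ?_))
      · rw [abs_of_nonneg (sub_nonneg.2 s2)]
        refine (mul_le_mul_of_nonneg_right (sub_le_iff_le_add'.2 (min_le_right _ _)) K0).trans ?_
        rw [one_div_mul_eq_div, div_le_div_iff₀ (by positivity) two_pos]
        linarith
      · rcases min_choice l (m + 1 / (2 * K + 2)) with e | e <;> rw [e] <;> linarith
  obtain ⟨k, hk'⟩ := exists_nat_ge ((l - η) * (2 * K + 2))
  obtain ⟨v, e1, e2⟩ := all k η le_rfl (hη.2.trans hl) ((le_div_iff₀ (by positivity)).2 hk') f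
    (max B 0) (le_max_right _ _) (hf.mono (le_max_left _ _))
  exact ⟨v, _, e1, e2, TLin2.smooth hA hR hk hr hh hφ e1 e2⟩

end Pool.Agent.Lib.MP_813db1_ag.HS
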