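import Pool.Agent.Lib.MP_813db1_ag.AS.S2Alg

/-! Solvability of the twisted linear equation for one large parameter. -/

namespace Pool.Agent.Lib.MP_813db1_ag.HS

open Complex Matrix Filter Topology Set Metric
open scoped ContDiff ComplexOrder

namespace TLinE

open LinE

variable {ι X : Type} [Fintype ι] [DecidableEq ι] [TopologicalSpace X] {M : Atl ι X}

/-- the local identity, extended by zero. -/
theorem box_ext (hA : RepA' M) (hR : RepTS) {a : ℕ} {h : X → Mat ι} {φ : X → ℝ} (hh : M.IsK h)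
    (hφ : M.Ck ∞ φ) {e : Ch ι X}
    (he : e ∈ M.A) {w g E : V ι → ℂ} {c : ℂ} (hw : ∀ z, ContDiffAt ℝ 2 w z)
    (h1 : ∀ x ∈ e.source, M.rep a (M.ext a e w) e =ᶠ[𝓝 (e x)] w)
    (h2 : ∀ x ∉ e.source, ∀ᶠ y in 𝓝 x, M.ext a e w y = 0)
    (h3 : ∀ z, c * w z - boxG (cfT a (M.repF h e) (fn φ e)) (M.repF h e) w z = g z - E z) (x : X) :
    c * M.ext a e w x - M.boxT a h φ (M.ext a e w) x = M.ext a e g x - M.ext a e E x := by
  by_cases hx : x ∈ e.source
  · have k := hR ι X M a h φ (M.ext a e w) hh hφ e he x hx ((hw _).congr_of_eventuallyEq (h1 x hx))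
    rw [rep_at _ hx, boxG_congr (h1 x hx)] at k
    have k2 : M.boxT a h φ (M.ext a e w) x =
        (tj (M.ch x) e x).det ^ a * boxG (cfT a (M.repF h e) (fn φ e)) (M.repF h e) w (e x) := by
      rw [← k, ← mul_assoc, det_inv hA he hx, one_mul]
    rw [k2, ext_pos hx, ext_pos hx, ext_pos hx]
    linear_combination (tj (M.ch x) e x).det ^ a * h3 (e x)
  · rw [boxT_congr (τ := fun _ => 0) (h2 x hx), boxT_zero', ext_neg hx, ext_neg hx, ext_neg hx]
    simp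

/-- the global parametrix. -/
theorem par [T2Space X] (hA : RepA' M) (hR : RepTS) (he : ExtAS) (hl : LocTS) (C : Cov M) (a : ℕ)
    (L : ℝ) : ∃ t0 ≥ (1 : ℝ), ∃ D ≥ (0 : ℝ), ∀ h φ, M.IsK h → M.Ck ∞ φ → C.EllT a L h φ → ∀ t ≥ t0, ∀ f B, 0 ≤ B →
      C.SHT a t B f → ∃ w E, C.SH2 a (D * B) w ∧ C.SHT a t (D * B / t ^ 2) E ∧
        ∀ x, (t : ℂ) ^ 4 * w x - M.boxT a h φ w x = f x - E x := by
  obtain ⟨ρ0, h0, t0, ht0, hl⟩ := hl ι L
  obtain ⟨T, ρ, c, hρ, hT, hc, hp⟩ := part hA he C h0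
  have h1 := fun p : Σ _ : Fin C.n, V ι => hl p.2 (ρ p.1) (hρ _).1 (hρ _).2
  choose C1 C0 h1 using h1
  have h2 := fun (p : Σ _ : Fin C.n, V ι) (hp : p ∈ T) =>
    he ι X M C a (C.e p.1) (C.mem _) _ (isCompact_closedBall p.2 (ρ p.1))
      ((hT p hp).trans (C.ball_sub2 _))
  choose! K0 K1 h2 using h2
  refine ⟨t0, ht0, ∑ p ∈ T, K0 p * (C1 p * c p),
    Finset.sum_nonneg fun p hp => mul_nonneg (K1 p hp) (mul_nonneg (C0 p) (hc p)),
    fun h φ hh hφ hE t ht f B hB0 hf => ?_⟩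
  have t1 : 1 ≤ t := ht0.trans ht
  obtain ⟨F, F1, F2, F3⟩ := hp a t B f t1 hB0 hf
  have h3 := fun (p : Σ _ : Fin C.n, V ι) (hp : p ∈ T) =>
    h1 p _ (M.repF h (C.e p.1)) _ (hT p hp)
      (fun z hz => (hh _ (C.mem p.1)).2 z (C.ball_sub2 _ hz)) (hE p.1).1 (hE p.1).2.1 (hE p.1).2.2
      t ht (F p) _ (F1 p hp) (F2 p)
  choose! w E w1 E1 w0 hw using h3
  have k1 : ∀ p ∈ T, C.SH2 a (K0 p * (C1 p * (c p * B))) (M.ext a (C.e p.1) (w p)) :=
    fun p hp => (h2 p hp (w p) fun z hz => (w0 p hp z hz).1).2.2.2 _ (w1 p hp)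
  have k2 : ∀ p ∈ T, C.SHT a t (K0 p * (C1 p * (c p * B) / t ^ 2)) (M.ext a (C.e p.1) (E p)) :=
    fun p hp => (h2 p hp (E p) fun z hz => (w0 p hp z hz).2).2.2.1 t t1 _ (E1 p hp)
  refine ⟨fun x => ∑ p ∈ T, M.ext a (C.e p.1) (w p) x, fun x => ∑ p ∈ T, M.ext a (C.e p.1) (E p) x,
    (Cov.SH2.sum T k1).mono (le_of_eq ?_), (Cov.SHT.sum T (by linarith) k2).mono (le_of_eq ?_),
    fun x => ?_⟩
  · rw [Finset.sum_mul]
    exact Finset.sum_congr rfl fun p _ => by ring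
  · rw [Finset.sum_mul, Finset.sum_div]
    exact Finset.sum_congr rfl fun p _ => by ring
  · rw [(boxT_sum T fun p hp => (k1 p hp).ckS hA).2, ← F3, Finset.mul_sum, ← Finset.sum_sub_distrib,
      ← Finset.sum_sub_distrib]
    refine Finset.sum_congr rfl fun p hp => ?_
    have k := h2 p hp (w p) fun z hz => (w0 p hp z hz).1
    exact box_ext hA hR hh hφ (C.mem _) (fun z => (w1 p hp).1 z trivial) k.1
      (fun y hy => k.2.1 y fun h => absurd h hy) (hw p hp) x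

end TLinE

theorem linET (hR : RepTS) (hl : LocTS) : LinETS := by
  intro ι X _ _ _ _ M C a L
  have hA := AY.repA' ι X M
  obtain ⟨t0, ht0, D, hD, hp⟩ := TLinE.par hA hR (extS AY.repA') hl C a L
  obtain ⟨t, ht, htD⟩ : ∃ t ≥ t0, 2 * D ≤ t := ⟨max t0 (2 * D), le_max_left _ _, le_max_right _ _⟩
  have t1 : 1 ≤ t := ht0.trans ht
  refine ⟨t ^ 4, one_le_pow₀ t1, 2 * D * t, by positivity, fun h φ hh hφ hE f B hB0 hf => ?_⟩
  obtain ⟨v, v1, v2⟩ := AY.iterS ι X M C a (fun v x => f x - ((t : ℂ) ^ 4 * v x - M.boxT a h φ v x)) t D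
    (t * B) t1 hD (by positivity) ((hf.sht t1).congr fun x => by simp [boxT_zero'])
    (fun v B' h0 _ hv hΦ => by
      obtain ⟨w, E, w1, E1, hw⟩ := hp h φ hh hφ hE t ht _ B' h0 hΦ
      refine ⟨w, w1, (E1.mono ?_).congr fun x => ?_⟩
      · rw [div_le_div_iff₀ (by positivity) two_pos]
        have : 2 * D ≤ t ^ 2 := by nlinarith
        nlinarith
      · rw [boxT_add (hv.ckS hA) (w1.ckS hA)]
        linear_combination -hw x)
    (fun v x hv ε hε => by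
      obtain ⟨c1, c10, h1⟩ := Cov.SH.bound hA C a x
      obtain ⟨c2, c20, h2⟩ := boxT_bound hR hh hφ C a x
      refine ⟨ε / (t ^ 4 * c1 + c2 + 1), by positivity, fun v' hv' hd => ?_⟩
      have e : f x - ((t : ℂ) ^ 4 * v x - M.boxT a h φ v x) -
          (f x - ((t : ℂ) ^ 4 * v' x - M.boxT a h φ v' x)) =
          M.boxT a h φ (fun y => v y - v' y) x - (t : ℂ) ^ 4 * (v x - v' x) := by
        rw [boxT_sub (hv.ckS hA) (hv'.ckS hA)]
        ring
      have a1 := h1 _ _ hd.sh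
      have a2 := h2 _ _ hd
      have a3 : 0 < ε / (t ^ 4 * c1 + c2 + 1) := by positivity
      have a4 : (t ^ 4 * c1 + c2 + 1) * (ε / (t ^ 4 * c1 + c2 + 1)) = ε := by field_simp
      have a5 := mul_le_mul_of_nonneg_left a1 (by positivity : 0 ≤ t ^ 4)
      change ‖_ - _‖ ≤ ε
      rw [e]
      refine (norm_sub_le _ _).trans ?_
      rw [norm_mul, norm_pow, Complex.norm_real, Real.norm_of_nonneg (by linarith)]
      nlinarith)
  refine ⟨v, v1.mono (le_of_eq (by ring)), fun x => ?_⟩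
  push_cast
  exact (sub_eq_zero.1 (v2 x)).symm

end Pool.Agent.Lib.MP_813db1_ag.HS
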