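import Pool.Agent.Lib.MP_813db1_ag.AS.S2Stmt
import Pool.Agent.Lib.MP_813db1_ag.HS.AYAll

/-! Stage 2: the local parametrix, the regularity theorem and the Hoelder bounds. -/

namespace Pool.Agent.Lib.MP_813db1_ag.HS

open Complex Matrix Filter Topology Set Metric
open scoped ContDiff ComplexOrder

theorem TLoc.box_zero {ι : Type} [Fintype ι] [DecidableEq ι] (c : ι → V ι → ℂ) (H : V ι → Mat ι)
    {F : V ι → ℂ} {z : V ι} (e : F =ᶠ[𝓝 z] fun _ => 0) : boxG c H F z = 0 := by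
  simp [boxG, lapL, levi_congr e, levi_const, dzb_congr e, dzb_const]

theorem locT : LocTS := by
  intro ι _ _ L
  have hL1 : (1 : ℝ) ≤ max L 1 := le_max_right _ _
  have hLL : L ≤ max L 1 := le_max_left _ _
  generalize max L 1 = L1 at hL1 hLL
  obtain ⟨η, hη, C0, t0, ht0, hP⟩ := AY.pertS ι (2 * L1)
  refine ⟨(η / L1) ^ 2, by positivity, t0, ht0, fun z0 ρ hρ hρ0 => ?_⟩
  obtain ⟨π, hπ1, hπ2, hπ3⟩ := Loc.retract z0 hρ
  obtain ⟨ψ, p, hp1, hψ, hψ1, hψ0⟩ := Loc.cutoff z0 hρ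
  obtain ⟨K, hK⟩ : ∃ K, K = 2 * p * (2 * L1) + 2 * (2 * (2 * L1) * (2 * L1)) * p := ⟨_, rfl⟩
  have hK0 : 0 ≤ K := by rw [hK]; positivity
  obtain ⟨N, hN⟩ : ∃ N : ℝ, N = ∑ _i : ι, ∑ _j : ι, (2 * K + 2 * K + 2 * K) := ⟨_, rfl⟩
  have hN0 : 0 ≤ N := by rw [hN]; positivity
  refine ⟨(8 * p + N) * |C0|, by positivity,
    fun c H U hU hpos hH hHi hb t ht f B hf hf0 => ?_⟩
  have ht1 : 1 ≤ t := ht0.trans ht
  have ht' : 0 ≤ t := zero_le_one.trans ht1
  have hz0 : z0 ∈ U := hU (mem_closedBall_self hρ.le)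
  have hm : MapsTo π univ U := fun z _ => hU (hπ1 z)
  have hA : ∀ i j, Hol (2 * L1) (fun z => (H (π z))⁻¹ i j) univ := fun i j =>
    ((hHi i j).mono hLL).comp (τ := π) one_le_two hm fun z _ w _ => hπ3 z w
  have hβ : ∀ i, Hol (2 * L1) (fun z => c i (π z)) univ := fun i =>
    ((hb i).mono hLL).comp (τ := π) one_le_two hm fun z _ w _ => hπ3 z w
  obtain ⟨⟨v, hv, hve⟩, -⟩ := hP (H z0)⁻¹ (fun z => (H (π z))⁻¹) (hpos z0 hz0).inv
    (fun i j => ((hHi i j).1 z0 hz0).trans (by linarith))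
    (fun i j => by
      rw [nonsing_inv_nonsing_inv _ ((isUnit_iff_isUnit_det _).1 (hpos z0 hz0).isUnit)]
      exact ((hH i j).1 z0 hz0).trans (by linarith))
    (fun z => ⟨(hpos _ (hm (mem_univ z))).inv.posSemidef, fun i j => by
      have h1 := ((hHi i j).mono hLL).2 _ (hm (mem_univ z)) z0 hz0
      have h2 : √‖π z - z0‖ ≤ η / L1 := by
        refine Real.sqrt_le_iff.2 ⟨by positivity, ?_⟩
        exact (mem_closedBall_iff_norm.1 (hπ1 z)).trans hρ0
      rw [Matrix.sub_apply]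
      refine h1.trans ?_
      rwa [le_div_iff₀' (by linarith)] at h2⟩)
    (fun i j z w => (hA i j).2 z (mem_univ z) w (mem_univ w)) t ht f B hf
  have hB : 0 ≤ B := hf.nonneg ht' (mem_univ 0)
  have hM : 0 ≤ C0 * B := hv.2.2.2.nonneg ht' (mem_univ 0)
  have hMB : C0 * B ≤ |C0| * B := mul_le_mul_of_nonneg_right (le_abs_self C0) hB
  have v0 : HolT t (C0 * B / t ^ 2) v univ := hv.2.1.mono
    (div_le_div_of_nonneg_left hM (by positivity) (pow_le_pow_right₀ ht1 (by norm_num)))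
  have k1 : ∀ i j, Hol K (fun z => levi ψ z i j * (H (π z))⁻¹ j i -
      (H (π z))⁻¹ j i * c i (π z) * dzb ψ j z) univ := fun i j =>
    hK ▸ ((hψ.levi i j).mul (hA j i)).sub (((hA j i).mul (hβ i)).mul (hψ.dzb j))
  have k2 : ∀ i j, Hol K (fun z => dzb ψ j z * (H (π z))⁻¹ j i) univ := fun i j =>
    ((hψ.dzb j).mul (hA j i)).mono (by
      rw [hK]
      exact le_add_of_nonneg_right (by positivity))
  have k3 : ∀ i j, Hol K (fun z => dz ψ i z * (H (π z))⁻¹ j i -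
      (H (π z))⁻¹ j i * c i (π z) * ψ z) univ := fun i j =>
    hK ▸ ((hψ.dz i).mul (hA j i)).sub (((hA j i).mul (hβ i)).mul hψ.2.1)
  have hE := HolT.sum Finset.univ ht' fun i _ => HolT.sum Finset.univ ht' fun j _ =>
    ((v0.mul ht1 (k1 i j)).add ht' ((hv.2.2.1.dz ht' i).mul ht1 (k2 i j))).add ht'
      ((hv.2.2.1.dzb ht' j).mul ht1 (k3 i j))
  have hz : ∀ z ∉ closedBall z0 ρ, ψ z = 0 ∧ levi ψ z = 0 ∧ (∀ i, dz ψ i z = 0) ∧
      ∀ i, dzb ψ i z = 0 := fun z hz =>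
    ⟨(hψ0 z hz).eq_of_nhds, by rw [levi_congr (hψ0 z hz), levi_const],
      fun i => by rw [dz_congr (hψ0 z hz), dz_const], fun i => by
        rw [dzb_congr (hψ0 z hz), dzb_const]⟩
  refine ⟨fun z => ψ z * v z, _, (hψ.mul (hv.hol2 ht1 hM)).mono ?_, hE.mono ?_,
    fun z hz' => ?_, fun z => ?_⟩
  · have := mul_nonneg hN0 (mul_nonneg (abs_nonneg C0) hB)
    have := mul_le_mul_of_nonneg_left hMB (by positivity : 0 ≤ 8 * p)
    nlinarith
  · have e : ∑ _i : ι, ∑ _j : ι, (2 * K * (C0 * B / t ^ 2) + 2 * K * (C0 * B / t ^ 2) +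
        2 * K * (C0 * B / t ^ 2)) = N * (C0 * B) / t ^ 2 := by
      rw [hN, mul_div_assoc _ (C0 * B)]
      simp only [Finset.sum_mul, add_mul]
    rw [e]
    refine div_le_div_of_nonneg_right ?_ (by positivity)
    have := mul_nonneg (by positivity : 0 ≤ 8 * p) (mul_nonneg (abs_nonneg C0) hB)
    have := mul_le_mul_of_nonneg_left hMB hN0
    nlinarith
  · obtain ⟨a0, a1, a2, a3⟩ := hz z hz'
    simp [a0, a1, a2, a3]
  · have hfψ : f z = ψ z * f z := by
      by_cases h : z ∈ closedBall z0 (ρ / 2)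
      · rw [hψ1 z h, one_mul]
      · rw [hf0 z h, mul_zero]
    by_cases h : z ∈ closedBall z0 ρ
    · have c1 := hψ.1 z (mem_univ z)
      have c2 := hv.1 z (mem_univ z)
      have hve' := hve z
      rw [hfψ, ← hve']
      simp only [hπ2 z h, boxG, lapL, trace, diag, Matrix.mul_apply, levi_mul c1 c2,
        dzb_mul (c1.differentiableAt two_ne_zero) (c2.differentiableAt two_ne_zero), mul_sub,
        Finset.mul_sum]
      rw [sub_sub, ← Finset.sum_sub_distrib, ← Finset.sum_add_distrib, mul_left_comm]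
      congr 1
      refine Finset.sum_congr rfl fun i _ => ?_
      rw [← Finset.sum_sub_distrib, ← Finset.sum_add_distrib]
      exact Finset.sum_congr rfl fun j _ => by ring
    · obtain ⟨a0, a1, a2, a3⟩ := hz z h
      have e : (fun z => ψ z * v z) =ᶠ[𝓝 z] fun _ => 0 := by
        filter_upwards [hψ0 z h] with w hw
        rw [hw, zero_mul]
      rw [TLoc.box_zero c H e, hfψ]
      simp [a0, a1, a2, a3]

open RegL in
theorem regT : RegTS := by
  intro ι _ _ U c d H v f hU hH hc hf hv he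
  have hi : ∀ k i j, Hk k (fun z => (H z)⁻¹ i j) U := fun k =>
    (hk.inv ι k H U hU fun i j => hk.of_smooth ι k _ U hU fun z hz => hH.1.1 z hz i j).2
      fun z hz => (hH.2 z hz).det_pos.ne'
  have hl : ∀ k i, Hk k (c i) U := fun k i => hk.of_smooth ι k _ U hU (hc i)
  have hall : ∀ k, Hk (k + 2) v U := fun k => by
    induction k with
    | zero => exact hv
    | succ k ih =>
      refine regL AY.dqS hk ι U (k + 1) (fun z => (H z)⁻¹) v (fun z => (d * v z + (-1) * f z) +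
        ∑ i, ∑ j, (H z)⁻¹ j i * c i z * dzb v j z) hU (fun z hz => (hH.2 z hz).inv)
        (hi (k + 1)) ?_ hv fun z hz => ?_
      · exact hk.add ι _ _ _ U hU (hk.add ι _ _ _ U hU
          (hk.mul ι _ _ _ U hU (hk_const hk hU _ _) (hk.mono ι _ v U hU ih))
          (hk.mul ι _ _ _ U hU (hk_const hk hU _ _) (hk.of_smooth ι _ f U hU hf)))
          (hk.sum ι ι _ _ _ U hU fun i _ =>
            hk.sum ι ι _ _ _ U hU fun j _ => hk.mul ι _ _ _ U hU
              (hk.mul ι _ _ _ U hU (hi _ j i) (hl _ i)) (hk.dz ι _ v U j hU ih).2)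
      · rw [← he z hz]
        simp only [boxG, lapL]
        ring
  exact hk.smooth ι v U hU fun k => mono_le hk hU (Nat.le_add_right k 2) (hall k)

open CovJ in
theorem smoT : SmoTS := by
  intro ι X _ _ _ M C m h φ hh hφ
  obtain ⟨L1, l1⟩ := (smo AY.repA' AY.curvS' mat ι X M C m).1 h hh
  have h1 : ∀ a, ∀ z ∈ (C.e a).target, CdM ∞ (M.repF h (C.e a)) z := fun a z hz =>
    (hh _ (C.mem a)).1.1 z hz
  have h2 : ∀ a, ∀ z ∈ (C.e a).target, 0 < (M.repF h (C.e a) z).det.re := fun a z hz =>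
    (mat.det _ _ ((hh _ (C.mem a)).2 z hz)).1
  obtain ⟨L3, -, l3⟩ := unif (P := fun (k : Fin C.n × ι) L =>
      Hol L (cfT m (M.repF h (C.e k.1)) (fn φ (C.e k.1)) k.2) (ball 0 (2 * C.r k.1)))
    (fun _ _ _ e h => Hol.mono h e) fun k => hol_ball (C.pos k.1) (C.sub k.1)
      fun z hz => (contDiffAt_const.mul
        ((contDiffAt_dz_top ((h1 k.1 z hz).lg (h2 k.1 z hz).ne') k.2).of_le (by simp))).sub
        ((contDiffAt_dz_top (hφ _ (C.mem k.1) z hz) k.2).of_le (by simp))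
  exact ⟨max L1 L3, fun a => ⟨fun i j => ((l1 a).1 i j).mono (le_max_left _ _),
    fun i j => ((l1 a).2.1 i j).mono (le_max_left _ _),
    fun i => (l3 (a, i)).mono (le_max_right _ _)⟩⟩

end Pool.Agent.Lib.MP_813db1_ag.HS
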