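import Pool.Agent.Lib.MP_813db1_ag.AS.S2Big
import Pool.Agent.Lib.MP_813db1_ag.AS.S2Alg
import Pool.Agent.Lib.MP_813db1_ag.AS.S2Loc
import Pool.Agent.Lib.MP_813db1_ag.AS.S2Green
import Pool.Agent.Lib.MP_813db1_ag.AS.S2BK
import Pool.Agent.Lib.MP_813db1_ag.AS.S2LinE
import Pool.Agent.Lib.MP_813db1_ag.AS.S2L2
import Pool.Agent.Lib.MP_813db1_ag.AS.S2Lin2
import Pool.Agent.Lib.MP_813db1_ag.AS.S2Fix
import Pool.Agent.Lib.MP_813db1_ag.AS.S2Dict
import Pool.Agent.Lib.MP_813db1_ag.AS.S2Peak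
import Pool.Agent.Lib.MP_813db1_ag.AS.S2Cnt
import Pool.Agent.Lib.MP_813db1_ag.AS.S2Fam

/-! Nef canonical bundles of positive volume are big. -/

namespace Pool.Agent.Lib.MP_813db1_ag.AS

open Pool.Agent.Lib.MP_813db1_ag.HS

theorem greenTS : GreenTS := greenT repT

theorem bigS : BigS :=
  bigOf AY.repB' famT
    (fixT repT greenTS (lin2T repT regT smoT (linET repT locT) (l2T greenTS)) compT)
    (peakT dictT greenTS) (cntT dictT greenTS (bkT repT greenTS))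

end Pool.Agent.Lib.MP_813db1_ag.AS
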