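import Pool.Agent.Lib.MP_813db1_ag.AS.Pf

/-! Local calculus for the mixed Pfaffian: the theorem of Stokes and the glued primitive. -/

namespace Pool.Agent.Lib.MP_813db1_ag.AS.Pf

open Equiv Function Filter Topology MeasureTheory
open scoped ContDiff

variable {ι E : Type} [Fintype ι] [DecidableEq ι] [NormedAddCommGroup E] [NormedSpace ℝ E]

theorem df {F : Type} [NormedAddCommGroup F] [NormedSpace ℝ F] {f : E → F} {z : E}
    (h : ContDiffAt ℝ ∞ f z) : DifferentiableAt ℝ f z := h.differentiableAt (by simp)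

theorem cdf {F : Type} [NormedAddCommGroup F] [NormedSpace ℝ F] {f : E → F} {z : E}
    (h : ContDiffAt ℝ ∞ f z) : ContDiffAt ℝ ∞ (fderiv ℝ f) z := h.fderiv_right (by simp)

theorem sym2 {F : Type} [NormedAddCommGroup F] [NormedSpace ℝ F] {f : E → F} {z : E}
    (h : ContDiffAt ℝ ∞ f z) (u v : E) :
    fderiv ℝ (fderiv ℝ f) z u v = fderiv ℝ (fderiv ℝ f) z v u :=
  (h.isSymmSndFDerivAt (by simp only [minSmoothness_of_isRCLikeNormedField]; norm_cast)).eq u v

theorem fd_term {c : ι → E → E →L[ℝ] ℝ} {z : E} (hc : ∀ k, ContDiffAt ℝ ∞ (c k) z) (k0 : ι)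
    (p q : ι → E) (u : E) :
    fderiv ℝ (fun y => c k0 y (q k0) * ∏ k ∈ Finset.univ.erase k0, fderiv ℝ (c k) y (p k) (q k)) z u =
      fderiv ℝ (c k0) z u (q k0) * ∏ k ∈ Finset.univ.erase k0, fderiv ℝ (c k) z (p k) (q k) +
      ∑ l ∈ Finset.univ.erase k0, c k0 z (q k0) *
        ((∏ k ∈ (Finset.univ.erase k0).erase l, fderiv ℝ (c k) z (p k) (q k)) *
          fderiv ℝ (fderiv ℝ (c l)) z u (p l) (q l)) := by
  have h1 := (df (hc k0)).hasFDerivAt.clm_apply (hasFDerivAt_const (q k0) z)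
  have h2 := HasFDerivAt.finsetProd (u := Finset.univ.erase k0) fun k _ =>
    ((df (cdf (hc k))).hasFDerivAt.clm_apply (hasFDerivAt_const (p k) z)).clm_apply
      (hasFDerivAt_const (q k) z)
  rw [(h1.fun_mul h2).fderiv]
  simp [-Finset.sum_erase_eq_sub, Finset.mul_sum, add_comm, mul_comm]

theorem P_div {c : ι → E → E →L[ℝ] ℝ} {z : E} (hc : ∀ k, ContDiffAt ℝ ∞ (c k) z) (k0 : ι)
    (v : ι × Fin 2 → E) : P (fun k => fderiv ℝ (c k) z) v = ∑ σ : Perm (ι × Fin 2), sg σ *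
      fderiv ℝ (fun y => c k0 y (v (σ (k0, 1))) * ∏ k ∈ Finset.univ.erase k0,
        fderiv ℝ (c k) y (v (σ (k, 0))) (v (σ (k, 1)))) z (v (σ (k0, 0))) := by
  rw [Finset.sum_congr rfl fun (σ : Perm (ι × Fin 2)) _ => congrArg (sg σ * ·)
    (fd_term hc k0 (fun k => v (σ (k, 0))) (fun k => v (σ (k, 1))) (v (σ (k0, 0))))]
  simp only [mul_add, Finset.sum_add_distrib, Finset.mul_sum]
  rw [Finset.sum_comm, Finset.sum_eq_zero (s := Finset.univ.erase k0), add_zero]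
  · exact Finset.sum_congr rfl fun σ _ => by
      rw [← Finset.mul_prod_erase Finset.univ _ (Finset.mem_univ k0)]
  intro l hl
  have hl := (Finset.mem_erase.1 hl).1
  refine sum_sg _ (p := (k0, 0)) (q := (l, 0)) (by simp [hl.symm]) fun σ => ?_
  simp only [Perm.mul_apply, swap_apply_left, swap_apply_right]
  rw [swap_apply_of_ne_of_ne (by simp) (by simp), swap_apply_of_ne_of_ne (by simp) (by simp),
    sym2 (hc l)]
  congr 2
  refine Finset.prod_congr rfl fun j hj => ?_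
  have h1 := (Finset.mem_erase.1 hj).1
  have h2 := (Finset.mem_erase.1 (Finset.mem_erase.1 hj).2).1
  rw [swap_apply_of_ne_of_ne (by simp [h2]) (by simp [h1]),
    swap_apply_of_ne_of_ne (by simp) (by simp)]

section Int

variable [FiniteDimensional ℝ E] [MeasurableSpace E] [BorelSpace E] (μ : Measure E)
  [μ.IsAddHaarMeasure]

theorem int_fd {G : E → ℝ} {O K : Set E} (hO : IsOpen O) (hK : IsCompact K) (hs : K ⊆ O)
    (hG : ∀ z ∈ O, ContDiffAt ℝ ∞ G z) (h0 : ∀ z ∈ O, z ∉ K → G z = 0) (u : E) :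
    IntegrableOn (fun z => fderiv ℝ G z u) O μ ∧ ∫ z in O, fderiv ℝ G z u ∂μ = 0 := by
  have z0 : ∀ z ∉ K, O.indicator G z = 0 := fun z hz => by
    by_cases h : z ∈ O
    · rw [Set.indicator_of_mem h, h0 z h hz]
    · exact Set.indicator_of_notMem h _
  have e0 : ∀ z ∉ K, O.indicator G =ᶠ[𝓝 z] fun _ => 0 := fun z hz =>
    mem_of_superset (hK.isClosed.isOpen_compl.mem_nhds hz) z0
  have e1 : ∀ z ∈ O, O.indicator G =ᶠ[𝓝 z] G := fun z hz =>
    mem_of_superset (hO.mem_nhds hz) fun w hw => Set.indicator_of_mem hw _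
  have hc : ContDiff ℝ ∞ (O.indicator G) := contDiff_iff_contDiffAt.2 fun z => by
    by_cases h : z ∈ O
    · exact (hG z h).congr_of_eventuallyEq (e1 z h)
    · exact contDiffAt_const.congr_of_eventuallyEq (e0 z fun k => h (hs k))
  have hk : HasCompactSupport (O.indicator G) := HasCompactSupport.intro hK z0
  have h1 : Integrable (fun z => fderiv ℝ (O.indicator G) z u) μ :=
    ((hc.continuous_fderiv (by simp)).clm_apply continuous_const).integrable_of_hasCompactSupport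
      (hk.fderiv_apply ℝ u)
  have e2 : ∀ z ∈ O, fderiv ℝ (O.indicator G) z u = fderiv ℝ G z u := fun z hz => by
    rw [(e1 z hz).fderiv_eq]
  refine ⟨h1.integrableOn.congr_fun e2 hO.measurableSet, ?_⟩
  rw [← setIntegral_congr_fun hO.measurableSet e2,
    setIntegral_eq_integral_of_forall_compl_eq_zero fun z hz => by
      rw [(e0 z fun k => hz (hs k)).fderiv_eq]; simp]
  simpa using integral_mul_fderiv_eq_neg_fderiv_mul_of_integrable (μ := μ) (v := u)
    (f := fun _ : E => (1 : ℝ)) (g := O.indicator G) (by simp) (by simpa using h1)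
    (by simpa using hc.continuous.integrable_of_hasCompactSupport hk) (fun _ _ => by fun_prop)
    fun x _ => hc.differentiable (by simp) x

theorem stokes {c : ι → E → E →L[ℝ] ℝ} {O K : Set E} (hO : IsOpen O) (hK : IsCompact K)
    (hs : K ⊆ O) (hc : ∀ k, ∀ z ∈ O, ContDiffAt ℝ ∞ (c k) z) (k0 : ι)
    (h0 : ∀ z ∈ O, z ∉ K → c k0 z = 0) (v : ι × Fin 2 → E) :
    ∫ z in O, P (fun k => fderiv ℝ (c k) z) v ∂μ = 0 := by
  have h := fun σ : Perm (ι × Fin 2) => int_fd μ (G := fun y => c k0 y (v (σ (k0, 1))) *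
      ∏ k ∈ Finset.univ.erase k0, fderiv ℝ (c k) y (v (σ (k, 0))) (v (σ (k, 1)))) hO hK hs
    (fun z hz => ((hc k0 z hz).clm_apply contDiffAt_const).mul (contDiffAt_prod fun k _ =>
      ((cdf (hc k z hz)).clm_apply contDiffAt_const).clm_apply contDiffAt_const))
    (fun z hz hk => by simp [h0 z hz hk]) (v (σ (k0, 0)))
  rw [setIntegral_congr_fun hO.measurableSet fun z hz => P_div (fun k => hc k z hz) k0 v,
    integral_finsetSum _ fun σ _ => (h σ).1.const_mul _]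
  exact Finset.sum_eq_zero fun σ _ => by rw [integral_const_mul, (h σ).2, mul_zero]

end Int

theorem alt_pull {A : E → E →L[ℝ] ℝ} {φ : E → E} {z : E} (hA : DifferentiableAt ℝ A (φ z))
    (hφ : ContDiffAt ℝ ∞ φ z) (u v : E) :
    fderiv ℝ (fun y => (A (φ y)).comp (fderiv ℝ φ y)) z u v -
      fderiv ℝ (fun y => (A (φ y)).comp (fderiv ℝ φ y)) z v u =
    fderiv ℝ A (φ z) (fderiv ℝ φ z u) (fderiv ℝ φ z v) -
      fderiv ℝ A (φ z) (fderiv ℝ φ z v) (fderiv ℝ φ z u) := by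
  have h := (hA.hasFDerivAt.comp z (df hφ).hasFDerivAt).clm_comp (df (cdf hφ)).hasFDerivAt
  have e := h.fderiv
  simp only [Function.comp_def] at e
  rw [e]
  simp [sym2 hφ u v]

theorem fd_smul {F : Type} [NormedAddCommGroup F] [NormedSpace ℝ F] {χ : E → ℝ} {a : E → F} {z : E}
    (hχ : ContDiffAt ℝ ∞ χ z) (h : ContDiffAt ℝ ∞ a z ∨ χ =ᶠ[𝓝 z] fun _ => 0) :
    ContDiffAt ℝ ∞ (fun y => χ y • a y) z ∧ ∀ u, fderiv ℝ (fun y => χ y • a y) z u =
      fderiv ℝ χ z u • a z + χ z • fderiv ℝ a z u := by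
  rcases h with h | h
  · refine ⟨hχ.smul h, fun u => ?_⟩
    rw [fderiv_fun_smul (df hχ) (df h)]
    simp [add_comm]
  · have e : (fun y => χ y • a y) =ᶠ[𝓝 z] fun _ => 0 := h.mono fun y hy => by simp [hy]
    refine ⟨contDiffAt_const.congr_of_eventuallyEq e, fun u => ?_⟩
    rw [e.fderiv_eq, h.fderiv_eq, h.self_of_nhds]
    simp

theorem fd_smul' {χ ψ f : E → ℝ} {z : E} (hχ : ContDiffAt ℝ ∞ χ z) (hψ : ContDiffAt ℝ ∞ ψ z)
    (h : ContDiffAt ℝ ∞ f z ∨ (χ =ᶠ[𝓝 z] fun _ => 0) ∨ ψ =ᶠ[𝓝 z] fun _ => 0) :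
    ContDiffAt ℝ ∞ (fun y => (χ y * f y) • fderiv ℝ ψ y) z ∧
      ∀ u v, fderiv ℝ (fun y => (χ y * f y) • fderiv ℝ ψ y) z u v =
        (fderiv ℝ χ z u * f z + χ z * fderiv ℝ f z u) * fderiv ℝ ψ z v +
          χ z * f z * fderiv ℝ (fderiv ℝ ψ) z u v := by
  by_cases c : ψ =ᶠ[𝓝 z] fun _ => 0
  · have e1 : fderiv ℝ ψ =ᶠ[𝓝 z] fun _ => 0 := (c.fderiv (𝕜 := ℝ)).mono fun y hy => by simp [hy]
    have e : (fun y => (χ y * f y) • fderiv ℝ ψ y) =ᶠ[𝓝 z] fun _ => 0 :=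
      e1.mono fun y hy => by simp [hy]
    refine ⟨contDiffAt_const.congr_of_eventuallyEq e, fun u v => ?_⟩
    rw [e.fderiv_eq, e1.fderiv_eq, e1.self_of_nhds]
    simp
  · have h1 := fd_smul hχ (a := f) (by tauto)
    have h2 := fd_smul (χ := fun y => χ y * f y) h1.1 (Or.inl (cdf hψ))
    refine ⟨h2.1, fun u v => ?_⟩
    have h3 := h1.2 u
    simp only [smul_eq_mul] at h3
    rw [h2.2 u, h3]
    simp

theorem loc_alt {κ : Type} [Fintype κ] {χ : κ → E → ℝ} {a : κ → E → E →L[ℝ] ℝ} {f : κ → κ → E → ℝ}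
    {z : E} {S : κ → Prop} {w : E → E → ℝ} (hχ : ∀ i, ContDiffAt ℝ ∞ (χ i) z)
    (h1 : ∀ y, ∑ i, χ i y = 1) (hS : ∀ i, ¬ S i → χ i =ᶠ[𝓝 z] fun _ => 0)
    (ha : ∀ i, S i → ContDiffAt ℝ ∞ (a i) z ∧
      ∀ u v, fderiv ℝ (a i) z u v - fderiv ℝ (a i) z v u = w u v)
    (hf : ∀ i k, S i → S k → ContDiffAt ℝ ∞ (f i k) z ∧ a i z - a k z = fderiv ℝ (f i k) z) :
    ContDiffAt ℝ ∞ (fun y => ∑ i, χ i y • a i y + ∑ i, ∑ k, (χ k y * f i k y) • fderiv ℝ (χ i) y) z ∧
    ∑ i, fderiv ℝ (χ i) z = 0 ∧ ∀ u v, (∀ i, fderiv ℝ (χ i) z u = 0) →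
      fderiv ℝ (fun y => ∑ i, χ i y • a i y + ∑ i, ∑ k, (χ k y * f i k y) • fderiv ℝ (χ i) y) z u v -
      fderiv ℝ (fun y => ∑ i, χ i y • a i y + ∑ i, ∑ k, (χ k y * f i k y) • fderiv ℝ (χ i) y) z v u =
      w u v := by
  have A := fun i => fd_smul (hχ i) (a := a i) (by
    by_cases c : S i
    exacts [Or.inl (ha i c).1, Or.inr (hS i c)])
  have B := fun i k => fd_smul' (hχ k) (hχ i) (f := f i k) (by
    by_cases c : S i
    · by_cases c' : S k
      exacts [Or.inl (hf i k c c').1, Or.inr (Or.inl (hS k c'))]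
    · exact Or.inr (Or.inr (hS i c)))
  have s0 : ∑ i, fderiv ℝ (χ i) z = 0 := by
    rw [← fderiv_fun_sum fun i _ => df (hχ i)]
    simp [h1]
  have c1 := ContDiffAt.sum (s := Finset.univ) fun i _ => (A i).1
  have c2 := fun i => ContDiffAt.sum (s := Finset.univ) fun k _ => (B i k).1
  have c3 := ContDiffAt.sum (s := Finset.univ) fun i _ => c2 i
  refine ⟨c1.add c3, s0, fun u v hu => ?_⟩
  have D : ∀ u v, fderiv ℝ (fun y => ∑ i, χ i y • a i y +
      ∑ i, ∑ k, (χ k y * f i k y) • fderiv ℝ (χ i) y) z u v =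
      ∑ i, (fderiv ℝ (χ i) z u * a i z v + χ i z * fderiv ℝ (a i) z u v) +
      ∑ i, ∑ k, ((fderiv ℝ (χ k) z u * f i k z + χ k z * (a i z u - a k z u)) * fderiv ℝ (χ i) z v +
          χ k z * f i k z * fderiv ℝ (fderiv ℝ (χ i)) z u v) := fun u v => by
    rw [fderiv_fun_add (df c1) (df c3), fderiv_fun_sum fun i _ => df (A i).1,
      fderiv_fun_sum fun i _ => df (c2 i)]
    simp only [_root_.add_apply, _root_.sum_apply]
    congr 1
    · exact Finset.sum_congr rfl fun i _ => by rw [(A i).2]; simp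
    · refine Finset.sum_congr rfl fun i _ => ?_
      rw [fderiv_fun_sum fun k _ => df (B i k).1]
      simp only [_root_.sum_apply]
      refine Finset.sum_congr rfl fun k _ => ?_
      rw [(B i k).2]
      by_cases c : S i
      · by_cases c' : S k
        · rw [← (hf i k c c').2]; simp
        · simp [(hS k c').self_of_nhds]
      · simp [(hS i c).fderiv_eq]
  have e1 : ∑ i, χ i z * fderiv ℝ (a i) z u v = ∑ i, χ i z * fderiv ℝ (a i) z v u + w u v := by
    rw [← one_mul (w u v), ← h1 z, Finset.sum_mul, ← Finset.sum_add_distrib]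
    refine Finset.sum_congr rfl fun i _ => ?_
    by_cases c : S i
    · rw [← (ha i c).2]; ring
    · simp [(hS i c).self_of_nhds]
  have e2 : ∑ i, ∑ k, χ k z * (a i z u - a k z u) * fderiv ℝ (χ i) z v =
      ∑ i, fderiv ℝ (χ i) z v * a i z u := by
    have : ∑ i, fderiv ℝ (χ i) z v = 0 := by rw [← _root_.sum_apply, s0]; rfl
    simp only [mul_sub, sub_mul, Finset.sum_sub_distrib, ← Finset.sum_mul, h1]
    rw [← Finset.mul_sum, this]
    simp [mul_comm]
  rw [D, D]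
  simp only [hu, zero_mul, zero_add, mul_zero, Finset.sum_add_distrib, e1, e2,
    fun i => sym2 (hχ i) u v]
  ring

end Pool.Agent.Lib.MP_813db1_ag.AS.Pf
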