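import Pool.Agent.Lib.MP_813db1_ag.AS.FDefs
import Pool.Agent.Lib.MP_813db1_ag.AS.PfA
import Pool.Agent.Lib.MP_813db1_ag.HS.RepA
import Pool.Agent.Lib.MP_813db1_ag.HS.Mat
import Pool.Agent.Lib.MP_813db1_ag.HS.Vol

/-! The top power of a Kaehler form does not vanish in cohomology. -/

namespace Pool.Agent.Lib.MP_813db1_ag.AS

open Pool.Agent.Lib.MP_813db1_ag.HS Pool.Agent.Lib.MP_813db1_ag.HS.RepA Pf
open MeasureTheory Filter Topology Set Function Matrix
open scoped ContDiff ComplexOrder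

namespace F3

noncomputable section

variable {ι X : Type} [Fintype ι] [DecidableEq ι] [TopologicalSpace X]

/-- the real basis of the model space. -/
def bs (ι : Type) [Fintype ι] : Module.Basis (ι × Fin 2) ℝ (V ι) :=
  (Pi.basis fun _ : ι => Complex.basisOneI).reindex (Equiv.sigmaEquivProd ι (Fin 2))

/-- the derivative of a one-form in the preferred chart. -/
def nab (M : Atl ι X) (a : X → Cv ι) (x : X) : Bil (V ι) :=
  fderiv ℝ (rep1 M a (M.ch x)) (M.ch x x)

/-- smooth one-forms. -/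
def Sm (M : Atl ι X) (a : X → Cv ι) (U : Set X) : Prop :=
  ∀ e ∈ M.A, ∀ z ∈ e.target, e.symm z ∈ U → ContDiffAt ℝ ∞ (rep1 M a e) z

/-- the differential of a function. -/
def dd (M : Atl ι X) (u : X → ℝ) (x : X) : Cv ι := fderiv ℝ (u ∘ (M.ch x).symm) (M.ch x x)

/-- the density of a product of two-forms. -/
def den (g : X → Mat ι) (B : X → ι → Bil (V ι)) (x : X) : ℝ := P (B x) (bs ι) / (g x).det.re

end

variable {ι X : Type} [Fintype ι] [DecidableEq ι] [TopologicalSpace X] {M : Atl ι X}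
  {g : X → Mat ι} {e e' : Ch ι X} {x : X}

theorem ip_bs (p q : ι × Fin 2) : (ipV 1 (bs ι p) (bs ι q)).im = -1 * jm p q := by
  obtain ⟨i, s⟩ := p
  obtain ⟨j, t⟩ := q
  simp only [bs, Module.Basis.reindex_apply, Equiv.sigmaEquivProd_symm_apply, Pi.basis_apply,
    Mat.ip_eq, one_mulVec, single_dotProduct, jm, Pi.star_apply, Pi.single_apply]
  by_cases h : i = j
  · fin_cases s <;> fin_cases t <;> simp [h]
  · simp [h]

theorem P_pull {B C : ι → Bil (V ι)} {v w : ι × Fin 2 → V ι}
    (h : ∀ k p q, B k (v p) (v q) - B k (v q) (v p) = C k (w p) (w q) - C k (w q) (w p)) :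
    P B v = P C w := by
  rw [P_alt B, P_alt C]
  simp only [P, alt_apply, h]

theorem P_form {H : Mat ι} (hH : H.PosDef) {B : Bil (V ι)}
    (h : ∀ u v, B u v - B v u = (ipV H u v).im) :
    P (fun _ => B) (bs ι) / H.det.re = (-1 / 2) ^ Fintype.card ι * c0 ι := by
  obtain ⟨S, hS⟩ := Mat.fac hH.posSemidef
  have e1 : H = pull (S.map star) 1 := by
    rw [hS, pull, mul_one]
    congr 1
    ext i j
    simp
  have e2 : H.det = (‖(S.map star).det‖ ^ 2 : ℝ) := by
    conv_lhs => rw [e1, det_pull, det_one, mul_one]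
  have hd : (S.map star).det ≠ 0 := fun c => hH.det_pos.ne' (by rw [e2, c]; simp)
  let A : V ι →ₗ[ℝ] V ι := (toLin' (S.map star)⁻¹).restrictScalars ℝ
  have e3 : LinearMap.det A = (H.det.re)⁻¹ := by
    rw [LinearMap.det_restrictScalars, LinearMap.det_toLin', Algebra.norm_complex_apply, e2,
      det_nonsing_inv, Ring.inverse_eq_inv', map_inv₀, Complex.normSq_eq_norm_sq, Complex.ofReal_re]
  rw [div_eq_inv_mul, ← e3, ← P_lin, ← P_std B _ (-1) fun p q => ?_]
  rw [h, ← ip_bs, e1, (mat.pull_pd ι _ _ hd).2.2.2.2.2.2]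
  simp only [A, LinearMap.restrictScalars_apply, toLin'_apply, mulVec_mulVec,
    mul_nonsing_inv _ (isUnit_iff_ne_zero.2 hd), one_mulVec]

omit [DecidableEq ι] in
theorem tr_cd (he : e ∈ M.A) (he' : e' ∈ M.A) (hx : x ∈ e.source) (hx' : x ∈ e'.source) :
    ContDiffAt ℝ ∞ (e' ∘ e.symm) (e x) := cd_an (M.hol e he e' he' x hx hx')

omit [DecidableEq ι] in
theorem chain {F : Type} [NormedAddCommGroup F] [NormedSpace ℝ F] {h : X → F} (he : e ∈ M.A)
    (he' : e' ∈ M.A) (hx : x ∈ e.source) (hx' : x ∈ e'.source)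
    (hh : DifferentiableAt ℝ (h ∘ e'.symm) (e' x)) : fderiv ℝ (h ∘ e.symm) (e x) =
      (fderiv ℝ (h ∘ e'.symm) (e' x)).comp (fderiv ℝ (e' ∘ e.symm) (e x)) := by
  rw [← tr_apply e' hx] at hh ⊢
  rw [← fderiv_comp _ hh (df (tr_cd he he' hx hx'))]
  exact EventuallyEq.fderiv_eq ((ev_src hx hx').mono fun w k => congrArg h (e'.left_inv k.2).symm)

omit [DecidableEq ι] in
theorem rep1_ev (a : X → Cv ι) (he : e ∈ M.A) (he' : e' ∈ M.A) (hx : x ∈ e.source)
    (hx' : x ∈ e'.source) : rep1 M a e =ᶠ[𝓝 (e x)]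
      fun z => (rep1 M a e' ((e' ∘ e.symm) z)).comp (fderiv ℝ (e' ∘ e.symm) z) := by
  filter_upwards [ev_src hx hx'] with z hz
  have h1 := e.map_target hz.1
  have := chain he he' h1 hz.2 (df (tr_cd he' (M.ch_mem _) hz.2 (M.mem _)))
  rw [e.right_inv hz.1] at this
  rw [rep1, rep1, this, Function.comp_apply, e'.left_inv hz.2, ContinuousLinearMap.comp_assoc]

theorem rep1_dd {u : X → ℝ} (hu : M.Ck ∞ u) (he : e ∈ M.A) {z : V ι} (hz : z ∈ e.target) :
    rep1 M (dd M u) e z = fderiv ℝ (u ∘ e.symm) z := by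
  have := chain (h := u) he (M.ch_mem _) (e.map_target hz) (M.mem _)
    (df (contDiffAt_ofReal.1 (hu _ (M.ch_mem _) _ ((M.ch _).map_source (M.mem _)))))
  rw [e.right_inv hz] at this
  rw [this, rep1, dd]

omit [DecidableEq ι] in
theorem Sm.at {a : X → Cv ι} {U : Set X} (h : Sm M a U) (he : e ∈ M.A) (hx : x ∈ e.source)
    (hU : x ∈ U) : ContDiffAt ℝ ∞ (rep1 M a e) (e x) :=
  h e he _ (e.map_source hx) (by rwa [e.left_inv hx])

theorem den_chart {B : X → ι → Bil (V ι)} {c : ι → X → Cv ι} {U : Set X} (hc : ∀ k, Sm M (c k) U)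
    (he : e ∈ M.A) (hx : x ∈ e.source) (hU : x ∈ U) (hB : ∀ k, Alt (B x k) (nab M (c k) x)) :
    den g B x = P (fun k => fderiv ℝ (rep1 M (c k) e) (e x)) (bs ι) /
      (M.repF g e (e x)).det.re := by
  have an := M.hol e he _ (M.ch_mem x) x hx (M.mem x)
  have e1 : P (fun k => fderiv ℝ (rep1 M (c k) e) (e x)) (bs ι) = P (B x) fun p =>
      (fderiv ℝ (M.ch x ∘ e.symm) (e x) : V ι →ₗ[ℝ] V ι) (bs ι p) := P_pull fun k p q => by
    rw [(rep1_ev (c k) he (M.ch_mem x) hx (M.mem x)).fderiv_eq, alt_pull (by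
      rw [tr_apply _ hx]; exact df ((hc k).at (M.ch_mem x) (M.mem x) hU))
      (tr_cd he (M.ch_mem x) hx (M.mem x)), tr_apply _ hx, hB k]
    rfl
  have e2 : LinearMap.det (fderiv ℝ (M.ch x ∘ e.symm) (e x) : V ι →ₗ[ℝ] V ι) =
      ‖(tj e (M.ch x) x).det‖ ^ 2 := by
    rw [an.differentiableAt.fderiv_restrictScalars ℝ]
    exact Vol.det_real _ _
  rw [e1, P_lin, e2, repF_apply M g hx, det_pull, Complex.re_ofReal_mul, mul_div_mul_left, den]
  exact pow_ne_zero _ (norm_ne_zero_iff.2 (tj_det M e he _ (M.ch_mem x) x hx (M.mem x)))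

omit [DecidableEq ι] in
theorem nab_zero {η : X → Cv ι} {K : Set X} (hK : IsClosed K) (h0 : ∀ y ∉ K, η y = 0)
    (hx : x ∉ K) : nab M η x = 0 := by
  have h := ((M.ch x).continuousAt_symm ((M.ch x).map_source (M.mem x))).eventually_mem
    (s := Kᶜ) (hK.isOpen_compl.mem_nhds (by rwa [(M.ch x).left_inv (M.mem x)]))
  have e : rep1 M η (M.ch x) =ᶠ[𝓝 (M.ch x x)] fun _ => 0 :=
    h.mono fun z hz => by simp [rep1, h0 _ hz]
  rw [nab, e.fderiv_eq]
  simp

theorem zero_int [CompactSpace X] [MeasurableSpace X] [BorelSpace X] {μ : Measure X}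
    (hv : VolA' M g μ) (hg : M.IsK g) (he : e ∈ M.A) {U K : Set X} (hU : IsOpen U)
    (hK : IsClosed K) (hs : K ⊆ e.source ∩ U) {B : X → ι → Bil (V ι)} {c : ι → X → Cv ι}
    (hc : ∀ k, Sm M (c k) U) (hB : ∀ x ∈ U, ∀ k, Alt (B x k) (nab M (c k) x)) {η : X → Cv ι}
    (hη : Sm M η U) (h0 : ∀ y ∉ K, η y = 0) (k0 : ι) :
    Continuous (den g fun x => update (B x) k0 (nab M η x)) ∧
      ∫ x, den g (fun x => update (B x) k0 (nab M η x)) x ∂μ = 0 := by
  have hc' : ∀ k, Sm M (update c k0 η k) U := fun k => by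
    rcases eq_or_ne k k0 with rfl | h
    · rwa [update_self]
    · rw [update_of_ne h]; exact hc k
  have ch : ∀ y ∈ e.source ∩ U, den g (fun x => update (B x) k0 (nab M η x)) y =
      P (fun k => fderiv ℝ (rep1 M (update c k0 η k) e) (e y)) (bs ι) /
        (M.repF g e (e y)).det.re := fun y hy => den_chart hc' he hy.1 hy.2 fun k => by
    rcases eq_or_ne k k0 with rfl | h
    · rw [update_self, update_self]; exact fun _ _ => rfl
    · rw [update_of_ne h, update_of_ne h]; exact hB y hy.2 k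
  have z0 : ∀ y ∉ K, den g (fun x => update (B x) k0 (nab M η x)) y = 0 := fun y hy => by
    rw [den, nab_zero hK h0 hy, P_symm _ _ (fun _ _ => rfl), zero_div]
  have pos : ∀ z ∈ e.target, (M.repF g e z).det.re ≠ 0 := fun z hz =>
    (Mat.det' ((hg e he).2 z hz)).1.ne'
  have hO := e.isOpen_inter_preimage_symm hU
  refine ⟨continuous_iff_continuousAt.2 fun y => ?_, ?_⟩
  · by_cases hy : y ∈ K
    · have hy := hs hy
      have d1 : ContinuousAt (fun z => P (fun k => fderiv ℝ (rep1 M (update c k0 η k) e) z) (bs ι))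
          (e y) := (P_cont _).continuousAt.comp (continuousAt_pi.2 fun k =>
            (cdf ((hc' k).at he hy.1 hy.2)).continuousAt)
      have d2 : ContinuousAt (fun z => (M.repF g e z).det.re) (e y) :=
        Complex.continuous_re.continuousAt.comp ((hg e he).1.1.det (e.map_source hy.1)).continuousAt
      refine ((d1.div d2 (pos _ (e.map_source hy.1))).comp (e.continuousAt hy.1)).congr ?_
      filter_upwards [(e.open_source.inter hU).mem_nhds hy] with w hw
      exact (ch w hw).symm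
    · exact continuousAt_const.congr (mem_of_superset (hK.isOpen_compl.mem_nhds hy)
        fun w hw => (z0 w hw).symm)
  · rw [← setIntegral_eq_integral_of_forall_compl_eq_zero
      (s := e.source ∩ e ⁻¹' (e.target ∩ e.symm ⁻¹' U)) fun y hy => z0 y fun k => hy
        ⟨(hs k).1, e.map_source (hs k).1, by rw [mem_preimage, e.left_inv (hs k).1]; exact (hs k).2⟩,
      hv.intR e he _ hO.measurableSet inter_subset_left,
      setIntegral_congr_fun (g := fun z => P (fun k => fderiv ℝ (rep1 M (update c k0 η k) e) z) (bs ι))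
        hO.measurableSet fun z hz => by
          simp only
          rw [ch _ ⟨e.map_target hz.1, hz.2⟩, e.right_inv hz.1, mul_div_cancel₀ _ (pos z hz.1)]]
    refine stokes volume (K := e '' K) hO (hK.isCompact.image_of_continuousOn
      (e.continuousOn.mono fun y k => (hs k).1)) ?_ (fun k z hz => hc' k e he z hz.1 hz.2) k0
      (fun z hz hk => ?_) _
    · rintro _ ⟨y, k, rfl⟩
      exact ⟨e.map_source (hs k).1, by rw [mem_preimage, e.left_inv (hs k).1]; exact (hs k).2⟩
    · rw [update_self, rep1, h0 _ fun k => hk ⟨_, k, e.right_inv hz.1⟩]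
      simp

theorem ker {κ E : Type} [Fintype κ] [NormedAddCommGroup E] [NormedSpace ℝ E]
    [FiniteDimensional ℝ E] (ξ : κ → E →L[ℝ] ℝ) {S : Set κ} {j0 : κ} (hj : j0 ∈ S)
    (hS : S.ncard ≤ Module.finrank ℝ E) (h0 : ∀ j ∉ S, ξ j = 0) (hs : ∑ j, ξ j = 0) :
    ∃ w ≠ 0, ∀ j, ξ j w = 0 := by
  classical
  let L : E →ₗ[ℝ] (↥(S \ {j0}) → ℝ) := LinearMap.pi fun j => (ξ j : E →ₗ[ℝ] ℝ)
  obtain ⟨w, h1, h2⟩ := (Submodule.ne_bot_iff _).1 (LinearMap.ker_ne_bot_of_finrank_lt (f := L) (by
    rw [Module.finrank_fintype_fun_eq_card, ← Nat.card_eq_fintype_card, Nat.card_coe_set_eq]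
    exact (ncard_sdiff_singleton_lt_of_mem hj).trans_le hS))
  have h3 : ∀ j, j ≠ j0 → ξ j w = 0 := fun j h => by
    by_cases c : j ∈ S
    · exact congrFun (LinearMap.mem_ker.1 h1) ⟨j, c, h⟩
    · simp [h0 j c]
  refine ⟨w, h2, fun j => ?_⟩
  rcases eq_or_ne j j0 with rfl | h
  · rw [← Finset.sum_eq_single (s := Finset.univ) j (fun k _ => h3 k) (by simp),
      ← _root_.sum_apply, hs]
    rfl
  · exact h3 j h

omit [Fintype ι] [DecidableEq ι] in
theorem ev_zero {χ : X → ℝ} {U : Set X} (h : tsupport χ ⊆ U) {z : V ι} (hz : z ∈ e.target)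
    (hU : e.symm z ∉ U) : χ ∘ e.symm =ᶠ[𝓝 z] fun _ => 0 :=
  ((e.continuousAt_symm hz).eventually_mem ((isClosed_tsupport χ).isOpen_compl.mem_nhds
    fun k => hU (h k))).mono fun _ k => image_eq_zero_of_notMem_tsupport (f := χ) k

end F3

open F3 in
theorem f3S (hp : PouS) : F3S := by
  intro ι X κ _ _ _ _ _ _ _ M g U a f hg hU hc hm ha hf
  classical
  borelize X
  obtain ⟨⟨μ, hμ⟩, hv⟩ := volS (repA mat) mat ι X M g hg
  have hv := hv μ hμ
  obtain ⟨χ, x1, x2⟩ := hp ι X M κ U hU hc
  choose i hi using hc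
  have mt : ∀ x, M.ch x x ∈ (M.ch x).target := fun x => (M.ch x).map_source (M.mem x)
  have li : ∀ x, (M.ch x).symm (M.ch x x) = x := fun x => (M.ch x).left_inv (M.mem x)
  let γ : X → Cv ι := fun x => ∑ j, χ j x • a j x + ∑ j, ∑ k, (χ k x * f j k x) • dd M (χ j) x
  have rg : ∀ e ∈ M.A, ∀ z ∈ e.target, rep1 M γ e =ᶠ[𝓝 z] fun y =>
      ∑ j, (χ j ∘ e.symm) y • rep1 M (a j) e y +
        ∑ j, ∑ k, ((χ k ∘ e.symm) y * (f j k ∘ e.symm) y) • fderiv ℝ (χ j ∘ e.symm) y := by
    intro e he z hz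
    filter_upwards [e.open_target.mem_nhds hz] with y hy
    simp only [← fun j => rep1_dd (x1 j).1 he hy]
    simp only [rep1, γ, ContinuousLinearMap.add_comp, ContinuousLinearMap.finsetSum_comp,
      ContinuousLinearMap.smul_comp, Function.comp_apply]
  have loc := fun e (he : e ∈ M.A) z (hz : z ∈ e.target) => loc_alt (χ := fun j => χ j ∘ e.symm)
    (a := fun j => rep1 M (a j) e) (f := fun j k => f j k ∘ e.symm) (z := z)
    (S := fun j => e.symm z ∈ U j) (w := fun u v => (ipV (M.repF g e z) u v).im)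
    (fun j => contDiffAt_ofReal.1 ((x1 j).1 e he z hz)) (fun y => x2 _)
    (fun j h => ev_zero (x1 j).2.2 hz h) (fun j h => ha j e he z hz h)
    fun j k h h' => hf j k e he z hz ⟨h, h'⟩
  have sγ : ∀ T, Sm M γ T := fun T e he z hz _ =>
    (loc e he z hz).1.congr_of_eventuallyEq (rg e he z hz)
  have sa : ∀ j, Sm M (a j) (U j) := fun j e he z hz h => (ha j e he z hz h).1
  have aW : ∀ j, ∀ x ∈ U j, ∀ u v, nab M (a j) x u v - nab M (a j) x v u = (ipV (g x) u v).im :=
    fun j x hx u v => by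
      rw [← repF_self M g x]
      exact (ha j _ (M.ch_mem x) _ (mt x) (by rwa [li])).2 u v
  have van : ∀ x, P (fun _ => nab M (a (i x)) x - nab M γ x) (bs ι) = 0 := fun x => by
    obtain ⟨-, l2, l3⟩ := loc _ (M.ch_mem x) _ (mt x)
    obtain ⟨w, h1, h2⟩ := ker _ (S := {j | x ∈ U j}) (hi x) (by
      rw [Module.finrank_eq_card_basis (bs ι), Fintype.card_prod, Fintype.card_fin, mul_comm]
      exact hm x) (fun j h => by
        rw [(ev_zero (x1 j).2.2 (mt x) (by rwa [li])).fderiv_eq]; simp) l2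
    refine P_zero _ _ h1 fun _ u => ?_
    have h3 := l3 w u h2
    rw [← (rg _ (M.ch_mem x) _ (mt x)).fderiv_eq, repF_self, ← aW _ x (hi x)] at h3
    simp only [_root_.sub_apply, nab] at h3 ⊢
    linarith
  have op : ∀ y, IsOpen ((M.ch y).source ∩ U (i y)) := fun y => (M.ch y).open_source.inter (hU _)
  obtain ⟨t, ht⟩ := isCompact_univ.elim_finite_subcover _ op fun x _ =>
    mem_iUnion.2 ⟨x, M.mem x, hi x⟩
  obtain ⟨ψ, y1, y2⟩ := hp ι X M t (fun s => (M.ch s).source ∩ U (i s)) (fun s => op s) fun x => by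
    obtain ⟨s, s1, s2⟩ := mem_iUnion₂.1 (ht (mem_univ x))
    exact ⟨⟨s, s1⟩, s2⟩
  have sη : ∀ s T, Sm M (fun x => ψ s x • γ x) T := fun s T e he z hz h =>
    (contDiffAt_ofReal.1 ((y1 s).1 e he z hz)).smul (sγ T e he z hz h)
  have sn : ∀ x, nab M γ x = ∑ s, nab M (fun x => ψ s x • γ x) x := fun x => by
    simp only [nab]
    rw [← fderiv_fun_sum fun s _ => df ((sη s univ).at (M.ch_mem x) (M.mem x) trivial)]
    congr 1
    funext z
    simp only [rep1, ← ContinuousLinearMap.finsetSum_comp, ← Finset.sum_smul, y2, one_smul]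
  let B : Finset ι → X → ι → Bil (V ι) := fun S x =>
    S.piecewise (fun _ => nab M (a (i x)) x - nab M γ x) fun _ => nab M (a (i x)) x
  have := hv.fin
  have ig : ∀ {F : X → ℝ}, Continuous F → Integrable F μ := fun h =>
    h.integrable_of_hasCompactSupport (HasCompactSupport.of_compactSpace _)
  have key : ∀ S, (Continuous fun x => den g (B ∅) x - den g (B S) x) ∧
      ∫ x, den g (B ∅) x - den g (B S) x ∂μ = 0 := by
    intro S
    induction S using Finset.induction_on with
    | empty => simp [continuous_const]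
    | insert k S hk ih =>
      have Z := fun s : t => zero_int hv hg (M.ch_mem s) (hU (i s)) (isClosed_tsupport (ψ s))
        (y1 s).2.2 (B := B S)
        (c := S.piecewise (fun _ x => a (i s) x - γ x) fun _ => a (i s)) (fun l => by
          by_cases c : l ∈ S
          · rw [Finset.piecewise_eq_of_mem _ _ _ c]
            exact fun e he z hz h => (sa _ e he z hz h).sub (sγ _ e he z hz h)
          · rw [Finset.piecewise_eq_of_notMem _ _ _ c]
            exact sa _) (fun x hx l u v => by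
          have h1 := aW _ x hx u v
          have h2 := aW _ x (hi x) u v
          by_cases c : l ∈ S
          · have h3 : nab M (fun x => a (i s) x - γ x) x = nab M (a (i s)) x - nab M γ x :=
              fderiv_fun_sub (df ((sa _).at (M.ch_mem x) (M.mem x) hx))
                (df ((sγ univ).at (M.ch_mem x) (M.mem x) trivial))
            simp only [B, Finset.piecewise_eq_of_mem _ _ _ c, h3, _root_.sub_apply]
            linarith
          · simp only [B, Finset.piecewise_eq_of_notMem _ _ _ c]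
            linarith) (sη s _)
        (fun y hy => by simp [image_eq_zero_of_notMem_tsupport hy]) k
      have e : (fun x => den g (B ∅) x - den g (B (insert k S)) x) = fun x =>
          (den g (B ∅) x - den g (B S) x) + ∑ s : t,
            den g (fun x => update (B S x) k (nab M (fun x => ψ s x • γ x) x)) x := funext fun x => by
        have h1 : B S x = update (B S x) k (nab M (a (i x)) x) := by
          rw [← Finset.piecewise_eq_of_notMem S (fun _ => nab M (a (i x)) x - nab M γ x)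
            (fun _ => nab M (a (i x)) x) hk, update_eq_self]
        have h2 : B (insert k S) x = update (B S x) k (nab M (a (i x)) x - nab M γ x) :=
          Finset.piecewise_insert _ _ _ _
        have h3 := P_sub (B S x) k (nab M (a (i x)) x) (nab M (a (i x)) x - nab M γ x) (bs ι)
        rw [← h1, ← h2, _root_.sub_sub_cancel (nab M (a (i x)) x), sn, P_sum] at h3
        simp only [den, ← Finset.sum_div, ← h3]
        ring
      have c2 := continuous_finsetSum Finset.univ fun s _ => (Z s).1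
      rw [e, integral_add (ig ih.1) (ig c2), ih.2, integral_finsetSum _ fun s _ => ig (Z s).1]
      exact ⟨ih.1.add c2, by simp only [fun s => (Z s).2, Finset.sum_const_zero, add_zero]⟩
  have h := (key Finset.univ).2
  have e : ∀ x, den g (B ∅) x - den g (B Finset.univ) x = (-1 / 2) ^ Fintype.card ι * c0 ι :=
    fun x => by
      simp only [den, B, Finset.piecewise_empty, Finset.piecewise_univ, van, zero_div, sub_zero]
      refine P_form ?_ (aW _ x (hi x))
      rw [← repF_self M g x]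
      exact (hg _ (M.ch_mem x)).2 _ (mt x)
  have := hv.pos
  simp only [e, integral_const, smul_eq_mul] at h
  exact mul_ne_zero (ENNReal.toReal_pos (isOpen_univ.measure_pos μ univ_nonempty).ne'
    (measure_ne_top μ _)).ne' (mul_ne_zero (pow_ne_zero _ (by norm_num)) c0_pos.ne') h

end Pool.Agent.Lib.MP_813db1_ag.AS
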