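import Pool.Agent.Lib.MP_813db1_ag.AS.StmtG

/-! Block D5 of project AS: the invariant set `T` in a central extension of `G` by `ℝ`. -/

namespace Pool.Agent.Lib.MP_813db1_ag.AS

namespace CanA

open Subgroup Function

/-- In a centre-by-finite group the elements of finite order are closed under products. -/
theorem tors_mul {B : Type*} [Group B] [(center B).FiniteIndex] {x y : B}
    (hx : IsOfFinOrder x) (hy : IsOfFinOrder y) : IsOfFinOrder (x * y) := by
  have h1 := (MonoidHom.transferCenterPow B).isOfFinOrder hx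
  have h2 := (MonoidHom.transferCenterPow B).isOfFinOrder hy
  have h3 : IsOfFinOrder (MonoidHom.transferCenterPow B (x * y)) := by
    rw [map_mul]
    refine Commute.isOfFinOrder_mul (Subtype.ext ?_) h1 h2
    exact mem_center_iff.1 (MonoidHom.transferCenterPow B y).2 _
  have h4 := (center B).subtype.isOfFinOrder h3
  rw [coe_subtype, MonoidHom.transferCenterPow_apply] at h4
  exact h4.of_pow FiniteIndex.index_ne_zero

variable {G E : Type*} [Group G] [Group E]

/-- The preimage of `Z` is central in the preimage of `G1`. -/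
theorem lift_central (π : E →* G) (hs : Surjective π) (i : Multiplicative ℝ →* E)
    (hi : Injective i) (hr : i.range = π.ker) (hc : ∀ t x, i t * x = x * i t)
    (Z G1 : Subgroup G) (hcen : ∀ z ∈ Z, ∀ g ∈ G1, z * g = g * z)
    (hH : Z = ⊥ ∨ ∀ f : G1 →* Multiplicative ℝ, f = 1) {x y : E} (hx : π x ∈ Z)
    (hy : π y ∈ G1) : x * y = y * x := by
  rcases hH with hH | hH
  · have : x ∈ i.range := by
      rw [hr, MonoidHom.mem_ker]; simpa [hH] using hx
    obtain ⟨t, rfl⟩ := this
    exact hc t y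
  · have key : ∀ y : G1.comap π, ∃ t, i t = x * y * x⁻¹ * (y : E)⁻¹ := by
      intro y
      have : x * y * x⁻¹ * (y : E)⁻¹ ∈ i.range := by
        rw [hr, MonoidHom.mem_ker]
        simp only [map_mul, map_inv]
        rw [hcen _ hx _ y.2]; group
      exact this
    choose c hcc using key
    let φ : G1.comap π →* Multiplicative ℝ := MonoidHom.mk' c (by
      intro a b
      apply hi
      rw [map_mul, hcc, hcc a]
      have h1 := hc (c b) (a : E)⁻¹
      rw [mul_assoc (x * a * x⁻¹), ← h1, hcc b]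
      simp only [coe_mul]; group)
    let p : G1.comap π →* G1 := π.subgroupComap G1
    have hp : Surjective p := π.subgroupComap_surjective_of_surjective G1 hs
    have hk : p.ker ≤ φ.ker := by
      intro a ha
      have h1 : (a : E) ∈ i.range := by
        rw [hr, MonoidHom.mem_ker]
        exact congrArg Subtype.val (MonoidHom.mem_ker.1 ha)
      obtain ⟨t, ht⟩ := h1
      rw [MonoidHom.mem_ker]
      apply hi
      change i (c a) = _
      rw [hcc, map_one, ← ht, ← hc t x]; group
    have h2 := MonoidHom.liftOfRightInverse_comp_apply p (surjInv hp) (rightInverse_surjInv hp)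
      ⟨φ, hk⟩ ⟨y, hy⟩
    rw [hH (MonoidHom.liftOfRightInverse p (surjInv hp) (rightInverse_surjInv hp) ⟨φ, hk⟩)] at h2
    have h3 : c ⟨y, hy⟩ = 1 := h2.symm
    have h4 := hcc ⟨y, hy⟩
    rw [h3, map_one] at h4
    have : x * y = (x * y * x⁻¹ * y⁻¹) * (y * x) := by group
    rw [this, ← h4, one_mul]

/-- An invariant complement of the central `ℝ` inside an abelian normal subgroup `A` that is
centralised by a subgroup `B` of finite index. -/
theorem exists_compl (i : Multiplicative ℝ →* E) (hi : Injective i)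
    (hc : ∀ t x, i t * x = x * i t) (A B : Subgroup E) [hA : A.Normal] [B.FiniteIndex]
    (hiA : ∀ t, i t ∈ A) (hAB : A ≤ B) (hcen : ∀ x ∈ A, ∀ y ∈ B, x * y = y * x) :
    ∃ K : Subgroup E, K.Normal ∧ (∀ t, i t ∈ K → t = 1) ∧ ∀ x ∈ A, ∃ t, x * i t ∈ K := by
  classical
  let : CommGroup A := { (inferInstance : Group A) with
    mul_comm := fun a b => Subtype.ext (hcen _ a.2 _ (hAB b.2)) }
  let j : ℝ →+ Additive A := MonoidHom.toAdditiveRight (i.codRestrict A hiA)
  have hj : Injective j := by
    intro a b h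
    have h1 : i (Multiplicative.ofAdd a) = i (Multiplicative.ofAdd b) :=
      congrArg (fun u : Additive A => ((Additive.toMul u : A) : E)) h
    exact Multiplicative.ofAdd.injective (hi h1)
  obtain ⟨r, hr⟩ := (Module.Baer.of_divisible ℝ).extension_property_addMonoidHom j hj
    (AddMonoidHom.id ℝ)
  have hmem : ∀ (x : A) (c : E), c⁻¹ * x * c ∈ A := fun x c => hA.conj_mem' _ x.2 c
  let F : A → E → ℝ := fun x c => r (Additive.ofMul ⟨c⁻¹ * x * c, hmem x c⟩)
  have hF : ∀ x c d, c⁻¹ * d ∈ B → F x c = F x d := by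
    intro x c d h
    simp only [F]
    congr 3
    have h1 := hcen _ (hmem x c) _ h
    calc c⁻¹ * x * c = (c⁻¹ * d)⁻¹ * ((c⁻¹ * d) * (c⁻¹ * x * c)) := by group
      _ = (c⁻¹ * d)⁻¹ * (c⁻¹ * x * c * (c⁻¹ * d)) := by rw [h1]
      _ = d⁻¹ * x * d := by group
  let : Fintype (E ⧸ B) := Fintype.ofFinite _
  let S : A → ℝ := fun x => ∑ q : E ⧸ B, F x q.out
  have hFmul : ∀ x y c, F (x * y) c = F x c + F y c := by
    intro x y c
    simp only [F]
    rw [← map_add, ← ofMul_mul]
    congr 2
    apply Subtype.ext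
    simp only [coe_mul]; group
  have hSmul : ∀ x y, S (x * y) = S x + S y := by
    intro x y
    simp only [S, hFmul, Finset.sum_add_distrib]
  have hSi : ∀ t : ℝ, S ⟨i (Multiplicative.ofAdd t), hiA _⟩ = Fintype.card (E ⧸ B) * t := by
    intro t
    have : ∀ c, F ⟨i (Multiplicative.ofAdd t), hiA _⟩ c = t := by
      intro c
      have h1 : r (j t) = t := DFunLike.congr_fun hr t
      simp only [F]
      rw [← h1]
      congr 1
      change Additive.ofMul _ = Additive.ofMul (⟨i (Multiplicative.ofAdd t), hiA _⟩ : A)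
      congr 1
      apply Subtype.ext
      simp only [h1]
      rw [mul_assoc, hc]; group
    simp only [S, this, Finset.sum_const, Finset.card_univ, nsmul_eq_mul]
  have hSc : ∀ (x : A) (g : E), S ⟨g * x * g⁻¹, hA.conj_mem _ x.2 g⟩ = S x := by
    intro x g
    simp only [S]
    rw [← Equiv.sum_comp (MulAction.toPerm g)]
    refine Finset.sum_congr rfl fun q _ => ?_
    have h1 : ((MulAction.toPerm g q : E ⧸ B).out)⁻¹ * (g * q.out) ∈ B := by
      rw [← QuotientGroup.eq, QuotientGroup.out_eq', MulAction.toPerm_apply, ← smul_eq_mul,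
        ← MulAction.Quotient.smul_mk, QuotientGroup.out_eq']
    rw [hF _ _ _ h1]
    simp only [F]
    congr 3
    group
  let σ : A →* Multiplicative ℝ := MonoidHom.mk' (fun x => Multiplicative.ofAdd (S x)) (by
    intro a b
    rw [hSmul, ofAdd_add])
  have hcard : (Fintype.card (E ⧸ B) : ℝ) ≠ 0 := by
    exact_mod_cast Fintype.card_ne_zero
  have hK : ∀ x, x ∈ σ.ker.map A.subtype ↔ ∃ h : x ∈ A, S ⟨x, h⟩ = 0 := by
    intro x
    constructor
    · rintro ⟨a, ha, rfl⟩
      exact ⟨a.2, ha⟩
    · rintro ⟨h, h0⟩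
      exact ⟨⟨x, h⟩, h0, rfl⟩
  refine ⟨σ.ker.map A.subtype, ⟨?_⟩, ?_, ?_⟩
  · intro x hx g
    obtain ⟨h, h0⟩ := (hK x).1 hx
    exact (hK _).2 ⟨hA.conj_mem _ h g, (hSc ⟨x, h⟩ g).trans h0⟩
  · intro t ht
    obtain ⟨h, h0⟩ := (hK _).1 ht
    have h1 := hSi (Multiplicative.toAdd t)
    have h2 : (Fintype.card (E ⧸ B) : ℝ) * Multiplicative.toAdd t = 0 := h1.symm.trans h0
    rcases mul_eq_zero.1 h2 with h3 | h3
    · exact absurd h3 hcard
    · exact h3
  · intro x hx
    refine ⟨Multiplicative.ofAdd (-S ⟨x, hx⟩ / Fintype.card (E ⧸ B)),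
      (hK _).2 ⟨A.mul_mem hx (hiA _), ?_⟩⟩
    have h1 := hSmul ⟨x, hx⟩ ⟨_, hiA (Multiplicative.ofAdd (-S ⟨x, hx⟩ / Fintype.card (E ⧸ B)))⟩
    rw [hSi] at h1
    refine h1.trans ?_
    field_simp
    ring

/-- **D5.** -/
theorem algD5 (π : E →* G) (hs : Surjective π) (i : Multiplicative ℝ →* E)
    (hi : Injective i) (hr : i.range = π.ker) (hc : ∀ t x, i t * x = x * i t)
    (Z G1 : Subgroup G) [Z.Normal] [G1.FiniteIndex] (hZ : Z ≤ G1)
    (hcen : ∀ z g, π z ∈ Z → π g ∈ G1 → z * g = g * z) :
    ∃ T : Set E, (∀ x ∈ T, ∀ y, y * x * y⁻¹ ∈ T) ∧ Set.InjOn π T ∧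
      ∀ H : Subgroup G, Z.relIndex H ≠ 0 → ∃ τ : H →* E, ∀ h, τ h ∈ T ∧ π (τ h) = h := by
  have hker : ∀ t, π (i t) = 1 := fun t => by
    have : i t ∈ π.ker := hr ▸ ⟨t, rfl⟩
    exact this
  have : (G1.comap π).FiniteIndex :=
    ⟨by rw [index_comap_of_surjective _ hs]; exact FiniteIndex.index_ne_zero⟩
  obtain ⟨K, hKn, hK1, hK2⟩ := exists_compl i hi hc (Z.comap π) (G1.comap π)
    (fun t => by rw [mem_comap, hker]; exact Z.one_mem) (comap_mono hZ)
    (fun x hx y hy => hcen x y hx hy)
  let q : E →* E ⧸ K := QuotientGroup.mk' K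
  have hq : ∀ x, q x = 1 ↔ x ∈ K := fun x => QuotientGroup.eq_one_iff x
  have hinj : Set.InjOn π {x | IsOfFinOrder (q x)} := by
    intro x hx y hy hxy
    have h1 : x⁻¹ * y ∈ i.range := by
      rw [hr, MonoidHom.mem_ker, map_mul, map_inv, hxy, inv_mul_cancel]
    obtain ⟨t, ht⟩ := h1
    have h2 : Commute (q x)⁻¹ (q y) := by
      have h3 : y = x * i t := by rw [ht]; group
      have h4 : Commute x y := by
        rw [h3]; exact (Commute.refl x).mul_right (hc t x).symm
      exact (h4.map q).inv_left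
    have h5 : IsOfFinOrder (q (i t)) := by
      rw [ht, map_mul, map_inv]
      exact h2.isOfFinOrder_mul (isOfFinOrder_inv_iff.2 hx) hy
    obtain ⟨n, hn, h6⟩ := isOfFinOrder_iff_pow_eq_one.1 h5
    rw [← map_pow, ← map_pow, hq] at h6
    have h7 := hK1 _ h6
    have h8 : (n : ℝ) * Multiplicative.toAdd t = 0 := by
      have := congrArg Multiplicative.toAdd h7
      simpa using this
    have h9 : t = 1 := by
      rcases mul_eq_zero.1 h8 with h | h
      · exact absurd h (by exact_mod_cast hn.ne')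
      · exact h
    rw [h9, map_one] at ht
    exact (inv_mul_eq_one.1 ht.symm)
  refine ⟨{x | IsOfFinOrder (q x)}, ?_, hinj, ?_⟩
  · intro x hx y
    have := (MulAut.conj (q y)).toMonoidHom.isOfFinOrder hx
    simpa [q] using this
  · intro H hH
    have hidx : ((Z.comap π).subgroupOf (H.comap π)).index ≠ 0 := by
      change (Z.comap π).relIndex (H.comap π) ≠ 0
      rwa [relIndex_comap, map_comap_eq_self_of_surjective hs]
    let f : H.comap π →* E ⧸ K := q.comp (H.comap π).subtype
    have : (center f.range).FiniteIndex := by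
      refine ⟨?_⟩
      rw [← index_comap_of_surjective _ f.rangeRestrict_surjective]
      refine fun h0 => hidx (Nat.eq_zero_of_zero_dvd (h0 ▸ index_dvd_of_le ?_))
      intro a ha
      obtain ⟨t, ht⟩ := hK2 a ha
      rw [mem_comap, mem_center_iff]
      rintro ⟨b, b', rfl⟩
      apply Subtype.ext
      have h1 : q a = (q (i t))⁻¹ := by
        rw [eq_inv_iff_mul_eq_one, ← map_mul, hq]; exact ht
      change q b' * q a = q a * q b'
      rw [h1]
      exact ((show Commute (b' : E) (i t) from (hc t b').symm).map q).inv_right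
    let TH : Subgroup E :=
      { carrier := {x | π x ∈ H ∧ IsOfFinOrder (q x)}
        one_mem' := ⟨by simp, by simp⟩
        inv_mem' := by
          rintro x ⟨h1, h2⟩
          exact ⟨by rw [map_inv]; exact H.inv_mem h1, by rw [map_inv]; exact h2.inv⟩
        mul_mem' := by
          rintro x y ⟨h1, h2⟩ ⟨h3, h4⟩
          refine ⟨by rw [map_mul]; exact H.mul_mem h1 h3, ?_⟩
          have hx : IsOfFinOrder (f.rangeRestrict ⟨x, h1⟩) :=
            (f.range.subtype_injective.isOfFinOrder_iff).1 h2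
          have hy : IsOfFinOrder (f.rangeRestrict ⟨y, h3⟩) :=
            (f.range.subtype_injective.isOfFinOrder_iff).1 h4
          have := f.range.subtype.isOfFinOrder (tors_mul hx hy)
          rw [map_mul]
          exact this }
    let p : TH →* H := (π.comp TH.subtype).codRestrict H fun x => x.2.1
    have hp : Bijective p := by
      constructor
      · intro a b hab
        exact Subtype.ext (hinj a.2.2 b.2.2 (congrArg Subtype.val hab))
      · intro h
        obtain ⟨x, hx⟩ := hs h
        have hxH : x ∈ H.comap π := by rw [mem_comap, hx]; exact h.2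
        have h1 := ((Z.comap π).subgroupOf (H.comap π)).pow_index_mem ⟨x, hxH⟩
        set n := ((Z.comap π).subgroupOf (H.comap π)).index
        have h2 : x ^ n ∈ Z.comap π := h1
        obtain ⟨t, ht⟩ := hK2 _ h2
        have hn : (n : ℝ) ≠ 0 := by exact_mod_cast hidx
        let u : Multiplicative ℝ := Multiplicative.ofAdd (Multiplicative.toAdd t / n)
        have hu : u ^ n = t := by
          apply Multiplicative.toAdd.injective
          simp only [u, toAdd_pow, toAdd_ofAdd, nsmul_eq_mul]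
          field_simp
        refine ⟨⟨x * i u, by rw [map_mul, hker, mul_one, hx]; exact h.2, ?_⟩, ?_⟩
        · refine isOfFinOrder_iff_pow_eq_one.2 ⟨n, Nat.pos_of_ne_zero hidx, ?_⟩
          rw [← map_pow, hq, (show Commute x (i u) from (hc u x).symm).mul_pow, ← map_pow, hu]
          exact ht
        · apply Subtype.ext
          change π (x * i u) = h
          rw [map_mul, hker, mul_one, hx]
    let e := MulEquiv.ofBijective p hp
    refine ⟨TH.subtype.comp e.symm.toMonoidHom, fun h => ⟨(e.symm h).2.2, ?_⟩⟩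
    exact congrArg Subtype.val (e.apply_symm_apply h)

end CanA

theorem CE.range_eq {G E : Type} [Group G] [Group E] (c : CE G E) : c.ζ.range = c.π.ker := by
  ext x
  rw [MonoidHom.mem_ker, c.ker, MonoidHom.mem_range]

/-- If `Z` is centralised by `G₁` and `G₁` has no homomorphism to the real line (or `Z` is trivial),
then the lifts commute. -/
theorem CE.lift_comm {G E : Type} [Group G] [Group E] (c : CE G E) (Z G₁ : Subgroup G)
    (hcen : ∀ z ∈ Z, ∀ g ∈ G₁, z * g = g * z)
    (hH : Z = ⊥ ∨ ∀ (φ : G₁ →* Multiplicative ℝ) (g : G₁), φ g = 1) (z g : E) (hz : c.π z ∈ Z)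
    (hg : c.π g ∈ G₁) : z * g = g * z :=
  CanA.lift_central c.π c.surj c.ζ c.inj c.range_eq c.cen Z G₁ hcen
    (hH.imp id fun h f => MonoidHom.ext (h f)) hz hg

theorem canS : CanS := by
  intro G E _ _ c Z G₁ hZ _ hf hle hcen
  obtain ⟨T, h1, h2, h3⟩ := CanA.algD5 c.π c.surj c.ζ c.inj c.range_eq c.cen Z G₁ hle hcen
  refine ⟨T, h1, fun x hx y hy h => h2 hx hy h, fun H hH => ?_⟩
  obtain ⟨τ, hτ⟩ := h3 H hH
  exact ⟨τ, fun h => ⟨(hτ h).2, (hτ h).1⟩⟩

end Pool.Agent.Lib.MP_813db1_ag.AS
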