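import Pool.Agent.Lib.MP_813db1_ag.AS.StmtG
import Pool.Agent.Lib.MP_bbd4b9_ag.HR.Fp
import Pool.Agent.Lib.MP_bbd4b9_ag.HR.Mc

/-! Commensurated nilpotent subgroups contain commensurated abelian subgroups. -/

namespace Pool.Agent.Lib.MP_813db1_ag.AS

open Subgroup
open scoped Classical Pointwise

namespace Com

variable {G Q : Type} [Group G] [Group Q]

/-- commensurated subgroups, one-sided form. -/
def Cmm (N : Subgroup G) : Prop :=
  ∀ g : G, (N.map (MulAut.conj g).toMonoidHom).relIndex N ≠ 0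

theorem fi_iff {H : Subgroup G} : H.relIndex ⊤ ≠ 0 ↔ H.FiniteIndex := by
  rw [relIndex_top_right, finiteIndex_iff]

theorem ri_mono {H K L : Subgroup G} (h : H ≤ K) (a : H.relIndex L ≠ 0) : K.relIndex L ≠ 0 :=
  mt (relIndex_eq_zero_of_le_left h) a

theorem ri_le {H K : Subgroup G} (h : K ≤ H) : H.relIndex K ≠ 0 := by
  rw [relIndex_eq_one.2 h]
  exact one_ne_zero

theorem ri_map (f : G →* Q) {H K : Subgroup G} (h : H.relIndex K ≠ 0) :
    (H.map f).relIndex (K.map f) ≠ 0 := by
  rw [← relIndex_comap]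
  exact ri_mono (le_comap_map f H) h

/-- the virtual centraliser. -/
def vc (N : Subgroup G) : Subgroup G where
  carrier := {a | (centralizer {a}).relIndex N ≠ 0}
  one_mem' := ri_le fun x _ => mem_centralizer_singleton_iff.2 (by simp)
  mul_mem' := fun {a b} ha hb => ri_mono (fun x hx => mem_centralizer_singleton_iff.2 (by
    rw [← mul_assoc, mem_centralizer_singleton_iff.1 hx.1, mul_assoc,
      mem_centralizer_singleton_iff.1 hx.2, mul_assoc])) (relIndex_inf_ne_zero ha hb)
  inv_mem' := fun {a} ha => ri_mono (fun x hx => mem_centralizer_singleton_iff.2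
    (Commute.inv_right (mem_centralizer_singleton_iff.1 hx))) ha

theorem vc_normal {N : Subgroup G} (h : Cmm N) : (vc N).Normal := ⟨fun a ha g =>
  relIndex_ne_zero_trans (ri_mono (by
    rintro _ ⟨x, hx, rfl⟩
    refine mem_centralizer_singleton_iff.2 ?_
    have := mem_centralizer_singleton_iff.1 hx
    simp [mul_assoc, ← mul_assoc x a, this]) (ri_map (MulAut.conj g).toMonoidHom ha)) (h g)⟩

theorem cmm_normal (N : Subgroup G) [h : N.Normal] : Cmm N := fun g => ri_le fun x hx =>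
  ⟨g⁻¹ * x * g, h.conj_mem' x hx g, by simp [mul_assoc]⟩

instance : (vc (⊤ : Subgroup G)).Normal := vc_normal (cmm_normal ⊤)

theorem cmm_inf {N M : Subgroup G} (h : Cmm N) (h' : Cmm M) : Cmm (N ⊓ M) := fun g => by
  rw [map_inf _ _ _ (MulAut.conj g).injective]
  exact relIndex_inf_ne_zero (relIndex_ne_zero_trans (h g) (ri_le inf_le_left))
    (relIndex_ne_zero_trans (h' g) (ri_le inf_le_right))

theorem cmm_of {A V : Subgroup G} (le : A ≤ V) (h : A.relIndex V ≠ 0) (c : Cmm V) : Cmm A :=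
  fun g => relIndex_ne_zero_trans (relIndex_ne_zero_trans (ri_map _ h) (c g)) (ri_le le)

theorem cent_fg {A N : Subgroup G} (fg : A.FG) (le : A ≤ vc N) :
    (centralizer (A : Set G)).relIndex N ≠ 0 := by
  obtain ⟨S, rfl⟩ := fg
  rw [centralizer_closure]
  refine ri_mono (fun x hx => mem_centralizer_iff.2 fun s hs => ?_)
    (relIndex_iInf_ne_zero (f := fun s : S => centralizer {(s : G)}) fun s =>
      le (subset_closure s.2))
  exact (mem_centralizer_singleton_iff.1 (mem_iInf.1 hx ⟨s, hs⟩)).symm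

theorem cls_fin {a : G} (h : a ∈ vc ⊤) : (conjugatesOf a).Finite := by
  have := fi_iff.1 h
  refine (Set.finite_range fun q : G ⧸ centralizer {a} => q.out * a * q.out⁻¹).subset ?_
  intro v hv
  obtain ⟨c, rfl⟩ := isConj_iff.1 hv
  obtain ⟨x, hx⟩ := QuotientGroup.mk_out_eq_mul (centralizer {a}) c
  refine ⟨c, ?_⟩
  beta_reduce
  rw [hx, mul_assoc c, mem_centralizer_singleton_iff.1 x.2]
  simp [mul_assoc]

theorem ncl_fg {S : Set G} (f : S.Finite) (h : ∀ a ∈ S, a ∈ vc ⊤) : (normalClosure S).FG :=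
  (fg_iff _).2 ⟨_, rfl, f.biUnion fun a ha => cls_fin (h a ha)⟩

theorem mem_vc_sub {N : Subgroup G} {x : N} : x ∈ vc ⊤ ↔ (x : G) ∈ vc N := by
  have : centralizer {x} = (centralizer {(x : G)}).subgroupOf N := by
    ext y
    simp [mem_centralizer_singleton_iff, mem_subgroupOf, Subtype.ext_iff]
  change (centralizer {x}).relIndex ⊤ ≠ 0 ↔ _
  rw [relIndex_top_right, this]
  rfl

theorem fin_nil (h : Group.IsNilpotent G) (f : Finite (vc (⊤ : Subgroup G))) : Finite G := by
  have key : ∀ n, Subgroup.upperCentralSeries G n ≤ vc ⊤ := by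
    intro n
    induction n with
    | zero => exact bot_le
    | succ n ih =>
      intro a ha
      have : Finite (Subgroup.upperCentralSeries G n) := Finite.of_injective _ (inclusion_injective ih)
      refine fi_iff.2 (finiteIndex_iff_finite_quotient.2 (Finite.of_injective
        (β := Subgroup.upperCentralSeries G n)
        (fun q => ⟨_, Subgroup.mem_upperCentralSeries_succ_iff.1 ha q.out⟩)
        fun p q e => ?_))
      rw [← p.out_eq', ← q.out_eq', QuotientGroup.eq, mem_centralizer_singleton_iff]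
      have := congrArg Subtype.val e
      simp only [commutatorElement_def, mul_assoc, mul_right_inj] at this
      have e2 := congrArg (fun x => p.out⁻¹ * x * q.out) this
      simp only [mul_assoc, inv_mul_cancel_left, inv_mul_cancel, mul_one] at e2
      exact Commute.inv_left_iff.1 (e2.trans (mul_assoc _ _ _).symm : Commute a⁻¹ _) |>.symm
  obtain ⟨n, hn⟩ := h.nilpotent
  have := key n
  rw [hn] at this
  exact Finite.of_injective (fun g => (⟨g, this trivial⟩ : vc ⊤)) fun _ _ e => congrArg Subtype.val e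

theorem fin_vnil (h : Group.IsVirtuallyNilpotent G) (f : Finite (vc (⊤ : Subgroup G))) :
    Finite G := by
  obtain ⟨N, h1, h2⟩ := h
  refine (finite_iff_finite_and_finiteIndex N).2 ⟨fin_nil h1 (Finite.of_injective
    (β := vc (⊤ : Subgroup G)) (fun x => ⟨x.1.1, relIndex_ne_zero_trans (mem_vc_sub.1 x.2)
      (fi_iff.2 h2)⟩) fun _ _ e => Subtype.ext (Subtype.ext (Subtype.mk.inj e))), h2⟩

/-- an infinite commensurated virtually nilpotent subgroup contains an abelian one. -/
theorem ex_ab {N : Subgroup G} (fg : N.FG) (vn : Group.IsVirtuallyNilpotent N) (c : Cmm N)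
    (inf : ¬ Finite N) : ∃ A ≤ N, A.FG ∧ (∀ a ∈ A, ∀ b ∈ A, a * b = b * a) ∧ Cmm A ∧
      ¬ Finite A := by
  have e : (N ⊓ vc N).subgroupOf N = vc ⊤ := by
    ext x
    rw [mem_vc_sub, inf_subgroupOf_left, mem_subgroupOf]
  have f : (N ⊓ vc N).FG := by
    rw [← MP_bbd4b9_ag.HR.Fp.fg_sub inf_le_left, e]
    have s := QuotientGroup.mk'_surjective (vc (⊤ : Subgroup N))
    obtain ⟨R, r1, r2⟩ := MP_bbd4b9_ag.HR.fpS N _ _ ((Group.fg_iff_subgroup_fg _).2 fg) s
      (MP_bbd4b9_ag.HR.Mc.surj _ s vn)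
    rw [QuotientGroup.ker_mk'] at r2
    rw [← r2]
    exact ncl_fg r1 fun a ha => r2 ▸ subset_normalClosure ha
  have r : (N ⊓ vc N ⊓ centralizer (N ⊓ vc N : Subgroup G)).relIndex (N ⊓ vc N) ≠ 0 :=
    relIndex_inf_ne_zero (ri_le le_rfl)
      (relIndex_ne_zero_trans (cent_fg f inf_le_right) (ri_le inf_le_left))
  have := vc_normal c
  refine ⟨N ⊓ vc N ⊓ centralizer (N ⊓ vc N : Subgroup G), inf_le_left.trans inf_le_left, ?_,
    fun a ha b hb => mem_centralizer_iff.1 hb.2 a ha.1,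
    cmm_of inf_le_left r (cmm_inf c (cmm_normal _)), fun a => inf (fin_vnil vn ?_)⟩
  · have := (Group.fg_iff_subgroup_fg _).2 f
    have := finiteIndex_iff.2 r
    rw [← MP_bbd4b9_ag.HR.Fp.fg_sub inf_le_left, ← Group.fg_iff_subgroup_fg]
    infer_instance
  · rw [← e, (subgroupOfEquivOfLe inf_le_left).toEquiv.finite_iff]
    exact (finite_iff_finite_and_finiteIndex _).2
      ⟨(subgroupOfEquivOfLe inf_le_left).toEquiv.finite_iff.2 a, finiteIndex_iff.2 r⟩

theorem cmm_iff {N : Subgroup G} : Cmm N ↔ Cmn N := by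
  refine ⟨fun h g => ⟨h g, ri_mono ?_ (ri_map (MulAut.conj g).toMonoidHom (h g⁻¹))⟩,
    fun h g => (h g).1⟩
  rintro _ ⟨_, ⟨x, hx, rfl⟩, rfl⟩
  simpa [mul_assoc] using hx

end Com

theorem comS : ComS := fun _ _ _ fg vn c inf => by
  obtain ⟨A, a1, a2, a3, a4, a5⟩ := Com.ex_ab fg vn (Com.cmm_iff.2 c) (not_finite_iff_infinite.2 inf)
  exact ⟨A, a1, a2, ⟨⟨fun a b => Subtype.ext (a3 a a.2 b b.2)⟩⟩, Com.cmm_iff.1 a4,
    not_finite_iff_infinite.1 a5⟩

end Pool.Agent.Lib.MP_813db1_ag.AS
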