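import Pool.Agent.Lib.MP_813db1_ag.AS.Rep

/-! The second term of the series of finite conjugacy classes. -/

namespace Pool.Agent.Lib.MP_813db1_ag.AS

open Subgroup

theorem fc2S (h1 : FrS) (h2 : VnS) : Fc2S := by
  intro G Q _ _ f hG hL hf hk a ha
  have a1 : (centralizer {f a}).FiniteIndex := GD.fc_iff.2 ha
  have a2 : ((centralizer {f a}).comap f).FiniteIndex :=
    ⟨by rw [index_comap_of_surjective _ hf]; exact a1.index_ne_zero⟩
  obtain ⟨S, hS, hS'⟩ := (Subgroup.fg_iff _).1
    ((Group.fg_iff_subgroup_fg ((centralizer {f a}).comap f)).1 inferInstance)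
  let c : G → G := fun g => a * g * a⁻¹ * g⁻¹
  obtain ⟨-, C, -, b1, b2⟩ := h2.cent G (c '' S) (hS'.image c) (by
    rintro _ ⟨g, hg, rfl⟩
    have : f g * f a = f a * f g :=
      mem_centralizer_singleton_iff.1 (show g ∈ (centralizer {f a}).comap f from
        hS ▸ subset_closure hg)
    refine hk _ ?_
    simp only [c, map_mul, map_inv]
    rw [← this]; group)
  have hc : ∀ g h, c (g * h) = c g * (g * c h * g⁻¹) := fun g h => by simp only [c]; group
  have hW : ∀ g ∈ closure S, c g ∈ normalClosure (c '' S) := fun g hg => by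
    induction hg using closure_induction with
    | mem x hx => exact subset_normalClosure ⟨x, hx, rfl⟩
    | one => simp [c]
    | mul x y _ _ hx hy => rw [hc]; exact mul_mem hx (Normal.conj_mem inferInstance _ hy _)
    | inv x _ hx =>
      have : c x⁻¹ = x⁻¹ * (c x)⁻¹ * x⁻¹⁻¹ := by simp only [c]; group
      rw [this]; exact Normal.conj_mem inferInstance _ (inv_mem hx) _
  rw [← hS] at a2
  let φ : (closure S ⊓ C :) →* normalClosure (c '' S) :=
    MonoidHom.mk' (fun g => ⟨c g, hW g g.2.1⟩) fun g h => Subtype.ext (by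
      show c (g * h) = c g * c h
      rw [hc, b2 g g.2.2 _ (hW h h.2.1)]; group)
  have b3 : Finite φ.range := h1.ab _ _ φ inferInstance (h1.sub G _ inferInstance hL)
    (finiteIndex_of_le (H := C.subgroupOf _) fun x hx =>
      mem_center_iff.2 fun y => Subtype.ext (b2 x hx y y.2).symm)
  have b4 : (φ.ker.map (Subgroup.subtype _)).FiniteIndex := ⟨by
    rw [index_map_subtype]; exact mul_ne_zero FiniteIndex.index_ne_zero FiniteIndex.index_ne_zero⟩
  refine GD.fc_iff.1 (finiteIndex_of_le (H := φ.ker.map (Subgroup.subtype _)) ?_)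
  rintro _ ⟨x, hx, rfl⟩
  have b5 : a * x * a⁻¹ * (x : G)⁻¹ = 1 := congrArg Subtype.val (MonoidHom.mem_ker.1 hx)
  rw [mul_inv_eq_one, mul_inv_eq_iff_eq_mul] at b5
  exact mem_centralizer_singleton_iff.2 b5.symm

end Pool.Agent.Lib.MP_813db1_ag.AS
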