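import Pool.Agent.Lib.MP_813db1_ag.AS.StmtG

/-! Short elements with finitely many conjugates. -/

namespace Pool.Agent.Lib.MP_813db1_ag.AS

open Filter Topology Set Pool.Agent.Lib.MP_bbd4b9_ag
open scoped Pointwise Classical

namespace FcA

variable {Q : Type} [Group Q] {ν : Q → ℝ} {C δ : ℝ} {d : ℕ}

theorem nonneg (h : NG Q ν C d δ) (g : Q) : 0 ≤ ν g := by
  have := h.mul g g⁻¹
  rw [mul_inv_cancel, h.one, h.inv] at this
  linarith

theorem cos (h : NG Q ν C d δ) (H : Subgroup Q) (t : ℕ) :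
    (∀ g, ∃ w, ν w ≤ t * δ ∧ w⁻¹ * g ∈ H) ∨
      ∃ w : ℕ → Q, (∀ i ≤ t, ν (w i) ≤ t * δ) ∧ ∀ k ≤ t, ∀ i < k, (w i)⁻¹ * w k ∉ H := by
  have hp := h.pos
  induction t with
  | zero => exact Or.inr ⟨fun _ => 1, fun _ _ => by simp [h.one], fun k hk i hi => by omega⟩
  | succ t ih =>
    have hle : (t : ℝ) * δ ≤ ((t + 1 : ℕ) : ℝ) * δ := by push_cast; nlinarith
    rcases ih with h1 | ⟨w, h1, h2⟩
    · exact Or.inl fun g => (h1 g).imp fun w hw => ⟨hw.1.trans hle, hw.2⟩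
    by_cases hc : ∀ g, ν g ≤ ((t + 1 : ℕ) : ℝ) * δ → ∃ i ≤ t, (w i)⁻¹ * g ∈ H
    · refine Or.inl fun g => ?_
      have key : ∀ x ∈ Subgroup.closure {g | ν g < δ}, ∀ y, (∃ i ≤ t, (w i)⁻¹ * y ∈ H) →
          ∃ i ≤ t, (w i)⁻¹ * (x * y) ∈ H := by
        have step : ∀ x, ν x < δ → ∀ y, (∃ i ≤ t, (w i)⁻¹ * y ∈ H) →
            ∃ i ≤ t, (w i)⁻¹ * (x * y) ∈ H := by
          rintro x hx y ⟨i, hi, hy⟩
          obtain ⟨k, hk, hk'⟩ := hc (x * w i) (by
            have := h.mul x (w i)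
            have := h1 i hi
            push_cast
            linarith)
          exact ⟨k, hk, by simpa [mul_assoc] using H.mul_mem hk' hy⟩
        intro x hx
        induction hx using Subgroup.closure_induction'' with
        | mem x hx => exact step x hx
        | inv_mem x hx => exact step x⁻¹ (by rw [h.inv]; exact hx)
        | one => simp
        | mul a b _ _ ha hb => exact fun y hy => by simpa [mul_assoc] using ha _ (hb y hy)
      obtain ⟨i, hi, hg⟩ := key g (h.gen ▸ Subgroup.mem_top g) 1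
        (hc 1 (by rw [h.one]; positivity))
      exact ⟨w i, (h1 i hi).trans hle, by simpa using hg⟩
    · push Not at hc
      obtain ⟨g, g1, g2⟩ := hc
      refine Or.inr ⟨Function.update w (t + 1) g, fun i hi => ?_, fun k hk i hi => ?_⟩
      · by_cases e : i = t + 1
        · subst e
          simpa using g1
        · rw [Function.update_of_ne e]
          exact (h1 i (by omega)).trans hle
      · rw [Function.update_of_ne (show i ≠ t + 1 by omega)]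
        by_cases e : k = t + 1
        · subst e
          simpa using g2 i (by omega)
        · rw [Function.update_of_ne e]
          exact h2 k (by omega) i hi

theorem conj (h : NG Q ν C d δ) {H : Subgroup Q} {a b lam : ℝ} {F : Finset Q} {u : Q}
    (h1 : ∀ g, ∃ w, ν w ≤ a ∧ w⁻¹ * g ∈ H) (ha : a < 1) (hu : u ≠ 1) (hF : u ∈ F)
    (hb : ∀ f ∈ F, ν f ≤ b) (hH : ∀ s ∈ H, ∀ f ∈ F, s * f * s⁻¹ ∈ F) (hl : b + 2 * a < lam) :
    ∃ F : Finset Q, (∃ u ∈ F, u ≠ 1) ∧ (∀ u ∈ F, ν u < lam) ∧ ∀ g, ∀ u ∈ F, g * u * g⁻¹ ∈ F := by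
  have hf : {w | ν w ≤ a}.Finite := h.fin.subset fun w hw => lt_of_le_of_lt hw ha
  have mem : ∀ x, x ∈ Finset.image₂ (fun w f => w * f * w⁻¹) hf.toFinset F ↔
      ∃ w, ν w ≤ a ∧ ∃ f ∈ F, w * f * w⁻¹ = x := fun x => by
    simp [Finset.mem_image₂]
  refine ⟨Finset.image₂ (fun w f => w * f * w⁻¹) hf.toFinset F, ?_, fun x hx => ?_,
    fun g x hx => ?_⟩
  · obtain ⟨w, hw, -⟩ := h1 1
    refine ⟨w * u * w⁻¹, (mem _).2 ⟨w, hw, u, hF, rfl⟩, fun e => hu ?_⟩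
    simpa using e
  · obtain ⟨w, hw, f, hf, rfl⟩ := (mem x).1 hx
    have e1 := h.mul (w * f) w⁻¹
    have e2 := h.mul w f
    rw [h.inv] at e1
    linarith [hb f hf]
  · obtain ⟨w, hw, f, hf, rfl⟩ := (mem x).1 hx
    obtain ⟨v, hv, hv'⟩ := h1 (g * w)
    exact (mem _).2 ⟨v, hv, _, hH _ hv' f hf, by group⟩

theorem ev (x : ℝ) : ∀ᶠ j : ℕ in atTop, x < (j : ℝ) + 1 :=
  (tendsto_natCast_atTop_atTop.eventually_gt_atTop x).mono fun j hj => by linarith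

theorem nsu {G : ℕ → Type} [∀ j, Group (G j)] {ν : ∀ j, G j → ℝ}
    (h : ∀ j, NG (G j) (ν j) C d (1 / ((j : ℝ) + 1) ^ 2)) :
    NSU G fun j g => ((j : ℝ) + 1) * ν j g := by
  have hp : ∀ j : ℕ, (0 : ℝ) < (j : ℝ) + 1 := fun j => by positivity
  refine ⟨fun j => by simp [(h j).one], fun j g => by simp [(h j).inv], fun j g k => ?_,
    fun R => (ev R).mono fun j hj => (h j).fin.subset fun g hg => ?_, fun R ε hε => ?_⟩
  · nlinarith [(h j).mul g k, hp j]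
  · have hg' : ((j : ℝ) + 1) * ν j g ≤ R := hg
    change ν j g < 1
    nlinarith [hp j]
  · refine ⟨⌈C * ((max R ε + 1) / ε) ^ d⌉₊, ?_⟩
    filter_upwards [ev (max R ε + 1), ev (1 / ε)] with j h1 h2
    have h3 := hp j
    obtain ⟨T, t1, t2⟩ := (h j).cov (ε / (j + 1)) ((max R ε + 1) / (j + 1))
      (by
        rw [div_lt_iff₀ hε] at h2
        rw [div_le_div_iff₀ (by positivity) h3]
        nlinarith)
      (by gcongr; linarith [le_max_right R ε]) ((div_le_one h3).2 h1.le)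
    refine ⟨T, ?_, fun g hg => ?_⟩
    · rw [div_div_div_cancel_right₀ h3.ne'] at t1
      exact_mod_cast t1.trans (Nat.le_ceil _)
    · obtain ⟨x, x1, x2⟩ := t2 g (by
        rw [lt_div_iff₀ h3]
        linarith [le_max_left R ε])
      rw [lt_div_iff₀ h3] at x2
      exact ⟨x, x1, by linarith⟩

end FcA

theorem fcU (hM : ModUS) (hS : StrU) (hG : GleU) (hY : HR.YaS) : FcU := by
  intro C d lam hl
  by_contra hc
  have h0 : ∀ j : ℕ, ∃ (Q : Type) (_ : Group Q) (ν : Q → ℝ),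
      NG Q ν C d (1 / ((j : ℝ) + 1) ^ 2) ∧ Nontrivial Q ∧ ¬ ∃ F : Finset Q,
      (∃ u ∈ F, u ≠ 1) ∧ (∀ u ∈ F, ν u < lam) ∧ ∀ g, ∀ u ∈ F, g * u * g⁻¹ ∈ F := fun j => by
    by_contra h
    refine hc ⟨1 / ((j : ℝ) + 1) ^ 2, by positivity, fun Q _ ν a b => ?_⟩
    by_contra c
    exact h ⟨Q, _, ν, a, b, c⟩
  choose G inst ν hN nt no using h0
  obtain ⟨L, _, _, _, _, _, ⟨M⟩⟩ := hM G _ (FcA.nsu hN)
  obtain ⟨A, K, T₁, h1, h2, hout⟩ := hS G _ L M (hY L)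
  obtain ⟨N, h3⟩ := hG K T₁
  obtain ⟨T₂, h4⟩ := h1 N
  obtain ⟨m, h5⟩ := h3 T₂
  obtain ⟨O, hO, h6⟩ := h2 (m + 1)
  obtain ⟨Cc, hC, h7⟩ := M.cpt
  have hp : ∀ j : ℕ, (0 : ℝ) < (j : ℝ) + 1 := fun j => by positivity
  -- the sets are bounded
  obtain ⟨R, hR⟩ : ∃ R, ∀ᶠ j in M.U, ∀ a ∈ A j, ((j : ℝ) + 1) * ν j a ≤ R := by
    have : ∀ j, ∃ g : G j, (A j).Nonempty → g ∈ A j ∧ ∀ a ∈ A j, ν j a ≤ ν j g := fun j => by
      by_cases e : (A j).Nonempty
      · obtain ⟨g, g1, g2⟩ := Finset.exists_max_image (A j) (ν j) e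
        exact ⟨g, fun _ => ⟨g1, g2⟩⟩
      · exact ⟨1, fun c => absurd c e⟩
    choose g hg using this
    obtain ⟨R, hR⟩ := M.bd g (hout g (h4.mono fun j h => (hg j ⟨1, h.one⟩).1))
    refine ⟨R, hR.mono fun j h a ha => le_trans ?_ h⟩
    exact mul_le_mul_of_nonneg_left ((hg j ⟨a, ha⟩).2 a ha) (hp j).le
  -- the subgroups
  have h9 : ∀ j, ∃ H : Subgroup (G j), HR.Str K T₁ N T₂ (A j) →
      (∀ s, HR.Esc (A j) (m + 1) s → s ∈ H) ∧ (H = ⊥ ∨ ∃ (u : G j) (F : Finset (G j)), u ≠ 1 ∧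
        u ∈ F ∧ F ⊆ A j ∧ ∀ s ∈ H, ∀ f ∈ F, s * f * s⁻¹ ∈ F) := fun j => by
    by_cases h : HR.Str K T₁ N T₂ (A j)
    · rcases h5 _ _ h with e | ⟨u, F, a1, a2, a3, a4⟩
      · exact ⟨⊥, fun _ => ⟨fun s hs => by simpa [e] using hs 1 (by omega), Or.inl rfl⟩⟩
      · exact ⟨Subgroup.normalizer (F : Set (G j)), fun _ => ⟨fun s hs =>
          Subgroup.mem_normalizer_fintype (a4 s fun i hi => hs i (by omega)),
          Or.inr ⟨u, F, a1, a2, a3, fun s hs f hf => (hs f).1 hf⟩⟩⟩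
    · exact ⟨⊥, fun c => absurd c h⟩
  choose H hH using h9
  obtain ⟨V, hV, hV'⟩ := exists_nhds_split_inv hO
  obtain ⟨T, -, hT⟩ := hC.elim_nhds_subcover (fun x => {y | y⁻¹ * x ∈ V}) fun x _ =>
    (continuous_inv.mul continuous_const).continuousAt.preimage_mem_nhds (by simpa using hV)
  have h10 : ∀ᶠ j in M.U, ∀ g : G j, ∃ w, ν j w ≤ T.card * (1 / ((j : ℝ) + 1) ^ 2) ∧
      w⁻¹ * g ∈ H j := by
    by_contra hn
    have hn' := Ultrafilter.eventually_not.2 hn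
    have h11 : ∀ j, ∃ w : ℕ → G j, (¬ ∀ g : G j, ∃ w,
        ν j w ≤ T.card * (1 / ((j : ℝ) + 1) ^ 2) ∧ w⁻¹ * g ∈ H j) →
        (∀ i ≤ T.card, ν j (w i) ≤ T.card * (1 / ((j : ℝ) + 1) ^ 2)) ∧
          ∀ k ≤ T.card, ∀ i < k, (w i)⁻¹ * w k ∉ H j := fun j => by
      rcases FcA.cos (hN j) (H j) T.card with a | ⟨w, a⟩
      · exact ⟨1, fun c => absurd a c⟩
      · exact ⟨w, fun _ => a⟩
    choose w hw' using h11
    have hw := hn'.mono hw'
    have tz : ∀ i ≤ T.card, Tendsto (fun j : ℕ => ((j : ℝ) + 1) * ν j (w j i)) M.U (𝓝 0) := by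
      intro i hi
      have t0 : Tendsto (fun j : ℕ => (T.card : ℝ) * (1 / ((j : ℝ) + 1))) M.U (𝓝 0) := by
        simpa using (tendsto_one_div_add_atTop_nhds_zero_nat.const_mul (T.card : ℝ)).mono_left M.le
      refine squeeze_zero' (.of_forall fun j => mul_nonneg (hp j).le (FcA.nonneg (hN j) _))
        (hw.mono fun j hj => ?_) t0
      refine (mul_le_mul_of_nonneg_left (hj.1 i hi) (hp j).le).trans (le_of_eq ?_)
      have := (hp j).ne'
      field_simp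
    have hx : ∀ i : Fin (T.card + 1), ∃ (h : (fun j => w j i) ∈ M.Γ) (x : T),
        (M.π ⟨_, h⟩)⁻¹ * x ∈ V := fun i => by
      obtain ⟨a, b⟩ := h7 (fun j => w j i) (tz i (by omega))
      obtain ⟨x, x1, x2⟩ := mem_iUnion₂.1 (hT b)
      exact ⟨a, ⟨x, x1⟩, x2⟩
    choose hΓ x hx using hx
    have fin : ∀ i k : Fin (T.card + 1), i < k → x i ≠ x k := fun i k hik e => by
      have a1 := hV' _ (hx i) _ (hx k)
      rw [e] at a1
      have a2 : M.π ((⟨_, hΓ i⟩ : M.Γ)⁻¹ * ⟨_, hΓ k⟩) ∈ O := by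
        simpa [div_eq_mul_inv] using a1
      obtain ⟨j, b1, b2, b3⟩ := (h4.and (hw.and (h6 _ a2))).exists
      exact b2.2 k (by omega) i hik ((hH j b1).1 _ b3)
    obtain ⟨i, k, hik, e⟩ := Fintype.exists_ne_map_eq_of_card_lt x (by simp)
    rcases lt_or_gt_of_ne hik with c | c
    · exact fin i k c e
    · exact fin k i c e.symm
  obtain ⟨j, b1, b2, b3, b4, b5⟩ := (h4.and (hR.and (h10.and (M.le
    ((FcA.ev (T.card : ℝ)).and (FcA.ev ((max R 0 + 3 * T.card) / lam))))))).exists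
  have c0 := hp j
  have c1 : (1 : ℝ) ≤ (j : ℝ) + 1 := by linarith [Nat.cast_nonneg (α := ℝ) j]
  have c2 : (0 : ℝ) ≤ T.card := Nat.cast_nonneg _
  have c3 : (T.card : ℝ) * (1 / ((j : ℝ) + 1) ^ 2) ≤ T.card / ((j : ℝ) + 1) := by
    rw [mul_one_div]
    gcongr
    nlinarith
  have c4 : (T.card : ℝ) / ((j : ℝ) + 1) < 1 := (div_lt_one c0).2 b4
  have c5 : max R 0 / ((j : ℝ) + 1) + 3 * (T.card / ((j : ℝ) + 1)) < lam := by
    rw [div_lt_iff₀ hl] at b5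
    rw [← mul_div_assoc, ← add_div, div_lt_iff₀ c0]
    linarith
  have c6 : 0 ≤ max R 0 / ((j : ℝ) + 1) := div_nonneg (le_max_right _ _) c0.le
  have c7 : 0 ≤ (T.card : ℝ) / ((j : ℝ) + 1) := div_nonneg c2 c0.le
  refine no j ?_
  rcases (hH j b1).2 with e | ⟨u, F, a1, a2, a3, a4⟩
  · have := nt j
    obtain ⟨u, hu⟩ := exists_ne (1 : G j)
    refine FcA.conj (hN j) b3 (c3.trans_lt c4) hu (Finset.mem_singleton_self u)
      (b := T.card / ((j : ℝ) + 1)) (fun f _ => ?_) (fun s hs f hf => ?_) (by linarith)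
    · obtain ⟨w, w1, w2⟩ := b3 f
      rw [e, Subgroup.mem_bot, inv_mul_eq_one] at w2
      exact w2 ▸ w1.trans c3
    · rw [e, Subgroup.mem_bot] at hs
      simpa [hs] using hf
  · refine FcA.conj (hN j) b3 (c3.trans_lt c4) a1 a2 (b := max R 0 / ((j : ℝ) + 1))
      (fun f hf => ?_) a4 (by linarith)
    rw [le_div_iff₀ c0]
    linarith [b2 f (a3 hf), le_max_left R 0]

end Pool.Agent.Lib.MP_813db1_ag.AS
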