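import Pool.Agent.Lib.MP_813db1_ag.AS.StmtG

/-! Groups all of whose virtual rational representations have finite image. -/

namespace Pool.Agent.Lib.MP_813db1_ag.AS

open Set

namespace Fr

variable {G : Type} [Group G]

/-- unipotent matrices. -/
def uni : Multiplicative ℚ →* Matrix.GeneralLinearGroup (Fin 2) ℚ where
  toFun t := ⟨!![1, t.toAdd; 0, 1], !![1, -t.toAdd; 0, 1], by
    ext i j; fin_cases i <;> fin_cases j <;> simp [Matrix.mul_apply, Fin.sum_univ_two], by
    ext i j; fin_cases i <;> fin_cases j <;> simp [Matrix.mul_apply, Fin.sum_univ_two]⟩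
  map_one' := by
    ext i j; fin_cases i <;> fin_cases j <;> simp
  map_mul' a b := by
    ext i j; fin_cases i <;> fin_cases j <;> simp [Matrix.mul_apply, Fin.sum_univ_two, add_comm]

theorem uni_inj : Function.Injective uni := fun a b h => by
  have := congrArg (fun M : Matrix.GeneralLinearGroup (Fin 2) ℚ => M.1 0 1) h
  simpa [uni] using this

theorem rat (φ : G →* Multiplicative ℚ) (h : FinRep G) (g : G) : φ g = 1 := by
  have h1 := h ⊤ inferInstance 2 (uni.comp (φ.comp (⊤ : Subgroup G).subtype))
  by_contra hne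
  refine h1.not_infinite (infinite_of_injective_forall_mem
    (f := fun n : ℕ => uni (φ g ^ n)) (fun a b hab => ?_) fun n => ⟨⟨g ^ n, trivial⟩, by simp⟩)
  have h2 := congrArg Multiplicative.toAdd (uni_inj hab)
  have h3 : (φ g).toAdd ≠ 0 := fun e => hne (by simpa using e)
  simp only [toAdd_pow, nsmul_eq_mul] at h2
  exact_mod_cast mul_right_cancel₀ h3 h2

theorem quo (G Q : Type) [Group G] [Group Q] (f : G →* Q) (hf : Function.Surjective f)
    (h : FinRep G) : FinRep Q := fun H hH r ρ => by
  have h1 : (H.comap f).FiniteIndex := ⟨by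
    rw [Subgroup.index_comap_of_surjective _ hf]; exact hH.index_ne_zero⟩
  refine (h (H.comap f) h1 r (ρ.comp (f.subgroupComap H))).subset ?_
  rintro _ ⟨⟨q, hq⟩, rfl⟩
  obtain ⟨g, rfl⟩ := hf q
  exact ⟨⟨g, hq⟩, rfl⟩

theorem sub (G : Type) [Group G] (H : Subgroup G) (hH : H.FiniteIndex) (h : FinRep G) :
    FinRep H := fun K hK r ρ => by
  have h1 : (K.map H.subtype).FiniteIndex := ⟨by
    rw [Subgroup.index_map_subtype]; exact mul_ne_zero hK.index_ne_zero hH.index_ne_zero⟩
  let e := K.equivMapOfInjective H.subtype H.subtype_injective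
  refine (h _ h1 r (ρ.comp e.symm.toMonoidHom)).subset ?_
  rintro _ ⟨k, rfl⟩
  exact ⟨e k, by simp⟩

theorem real (G : Type) [Group G] (φ : G →* Multiplicative ℝ) (h : FinRep G) (g : G) :
    φ g = 1 := by
  have : (φ g).toAdd = 0 := (Module.forall_dual_apply_eq_zero_iff ℚ _).1 fun l => by
    have := rat ((AddMonoidHom.toMultiplicative l.toAddMonoidHom).comp φ) h g
    simpa using congrArg Multiplicative.toAdd this
  simpa using this

theorem comm {A : Type} [CommGroup A] (φ : G →* A) (hG : Group.FG G) (h : FinRep G) :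
    Finite φ.range := by
  have : Group.FG φ.range := Group.fg_range φ
  refine CommGroup.finite_of_fg_isMulTorsion _ ?_
  rintro ⟨_, g, rfl⟩
  by_contra hne
  have h1 : ¬ IsOfFinOrder (φ g) := fun e => hne (Submonoid.isOfFinOrder_coe.1 e)
  have h2 : Function.Injective (zmultiplesHom (Additive A) (Additive.ofMul (φ g))) :=
    fun a b hab => (injective_zpow_iff_not_isOfFinOrder.2 h1)
      (by simpa using congrArg Additive.toMul hab)
  obtain ⟨l, hl⟩ := (Module.Baer.of_divisible ℚ).extension_property_addMonoidHom _ h2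
    (Int.castAddHom ℚ)
  have h3 := rat ((AddMonoidHom.toMultiplicativeRight l).comp φ) h g
  have h4 := DFunLike.congr_fun hl 1
  have h5 := congrArg Multiplicative.toAdd h3
  simp at h4 h5
  rw [h4] at h5
  exact one_ne_zero h5

theorem ab (G W : Type) [Group G] [Group W] (φ : G →* W) (hG : Group.FG G) (h : FinRep G)
    (hW : (Subgroup.center W).FiniteIndex) : Finite φ.range := by
  let H := (Subgroup.center W).comap φ
  have h1 : H.FiniteIndex := ⟨by
    rw [Subgroup.index_comap]; exact Subgroup.FiniteIndex.index_ne_zero⟩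
  let _ : CommGroup (Subgroup.center W) :=
    { (inferInstance : Group (Subgroup.center W)) with
      mul_comm := fun a b => Subtype.ext (Subgroup.mem_center_iff.1 b.2 a) }
  have h2 := comm (φ.subgroupComap (Subgroup.center W)) inferInstance (sub G H h1 h)
  have h3 : (φ.subgroupComap (Subgroup.center W)).ker.index ≠ 0 := by
    rw [Subgroup.index_ker]; exact Nat.card_pos.ne'
  have h4 : φ.ker.index ≠ 0 := by
    refine fun e => mul_ne_zero h3 h1.index_ne_zero ?_
    rw [← Subgroup.index_map_subtype]
    refine Nat.eq_zero_of_zero_dvd (e ▸ Subgroup.index_dvd_of_le ?_)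
    rintro _ ⟨x, hx, rfl⟩
    exact congrArg Subtype.val hx
  rw [Subgroup.index_ker] at h4
  exact Nat.finite_of_card_ne_zero h4

end Fr

theorem frS : FrS := ⟨Fr.quo, Fr.sub, Fr.real, Fr.ab⟩

end Pool.Agent.Lib.MP_813db1_ag.AS
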