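import Pool.Agent.Lib.MP_813db1_ag.AS.StmtG

/-! Cocompact actions on coarsely geodesic spaces: coverings, generation, cosets. -/

namespace Pool.Agent.Lib.MP_813db1_ag.AS

open Filter Topology Set Metric
open scoped Pointwise Classical

namespace GeoP

variable {G Y : Type} [Group G] [MulAction G Y] [PseudoMetricSpace Y] {C : ℝ} {m : ℕ} {δ D : ℝ}

theorem dist_inv_mul (h : Geo G Y C m δ D) (y : Y) (a b : G) :
    dist y ((a⁻¹ * b) • y) = dist (a • y) (b • y) := by
  rw [← h.iso a y, smul_smul, mul_inv_cancel_left]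

theorem dist_inv (h : Geo G Y C m δ D) (y : Y) (a : G) :
    dist y (a⁻¹ • y) = dist y (a • y) := by
  rw [← h.iso a y, smul_smul, mul_inv_cancel, one_smul, dist_comm]

theorem dist_mul (h : Geo G Y C m δ D) (y : Y) (a b : G) :
    dist y ((a * b) • y) ≤ dist y (a • y) + dist y (b • y) := by
  rw [mul_smul, ← h.iso a y (b • y)]
  exact dist_triangle _ _ _

theorem mid (h : Geo G Y C m δ D) (hδ : δ ≤ 1 / 2) (y z : Y) (R : ℝ) (hR : 0 < R)
    (hz : dist y z < R + 1 / 4) : ∃ p, dist y p < R ∧ dist p z < 3 / 4 := by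
  obtain ⟨k, s, h0, hk, hs, hsum⟩ := h.geo y z _ hz
  by_cases hc : ∑ i ∈ Finset.range k, dist (s i) (s (i + 1)) < R
  · refine ⟨z, ?_, by simp⟩
    have := dist_le_range_sum_dist s k
    rw [h0, hk] at this
    linarith
  · have hex : ∃ j, ¬ ∑ i ∈ Finset.range j, dist (s i) (s (i + 1)) < R := ⟨k, hc⟩
    have h1 := Nat.find_spec hex
    have h2 : Nat.find hex ≤ k := Nat.find_min' hex hc
    obtain ⟨j, hj⟩ : ∃ j, Nat.find hex = j + 1 := by
      apply Nat.exists_eq_succ_of_ne_zero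
      intro h3
      rw [h3] at h1
      simp at h1
      linarith
    have h4 : ∑ i ∈ Finset.range j, dist (s i) (s (i + 1)) < R := by
      have := Nat.find_min hex (m := j) (by omega)
      exact not_not.mp this
    rw [hj] at h1 h2
    refine ⟨s j, ?_, ?_⟩
    · have := dist_le_range_sum_dist s j
      rw [h0] at this
      linarith
    · have h5 := dist_le_Ico_sum_dist s h2
      have h6 := Finset.sum_range_add_sum_Ico (fun i => dist (s i) (s (i + 1))) h2
      have h7 := hs j (by omega)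
      have h8 := dist_triangle (s j) (s (j + 1)) (s k)
      rw [← hk]
      linarith [not_lt.mp h1]

theorem chain0 (C : ℝ) (m : ℕ) (r : ℝ) (hr : 0 < r) : ∃ N : ℕ, ∀ (G Y : Type) [Group G]
    [MulAction G Y] [PseudoMetricSpace Y] (δ D : ℝ), Geo G Y C m δ D → ∀ y : Y, ∃ T : Finset Y,
      T.card ≤ N ∧ ball y 1 ⊆ ⋃ t ∈ T, ball t r := by
  refine ⟨⌈C * (1 / min r 1) ^ m⌉₊, fun G Y _ _ _ δ D h y => ?_⟩
  obtain ⟨T, hT, hc⟩ := h.cov y (min r 1) 1 (lt_min hr one_pos) (min_le_right _ _) le_rfl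
  refine ⟨T, ?_, hc.trans ?_⟩
  · exact_mod_cast hT.trans (Nat.le_ceil _)
  · exact iUnion₂_mono fun t _ => ball_subset_ball (min_le_left _ _)

theorem chainN (C : ℝ) (m : ℕ) (n : ℕ) : ∀ r : ℝ, 0 < r → ∃ N : ℕ, ∀ (G Y : Type) [Group G]
    [MulAction G Y] [PseudoMetricSpace Y] (δ D : ℝ), Geo G Y C m δ D → δ ≤ 1 / 2 → ∀ y : Y,
      ∃ T : Finset Y, T.card ≤ N ∧ ball y (1 + n / 4) ⊆ ⋃ t ∈ T, ball t r := by
  induction n with
  | zero =>
    intro r hr
    obtain ⟨N, hN⟩ := chain0 C m r hr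
    refine ⟨N, fun G Y _ _ _ δ D h _ y => ?_⟩
    simpa using hN G Y δ D h y
  | succ n ih =>
    intro r hr
    obtain ⟨N, hN⟩ := chain0 C m r hr
    obtain ⟨M, hM⟩ := ih (1 / 4) (by norm_num)
    refine ⟨M * N, fun G Y _ _ _ δ D h hδ y => ?_⟩
    obtain ⟨T, hT, hc⟩ := hM G Y δ D h hδ y
    choose U hU hUc using hN G Y δ D h
    refine ⟨T.biUnion U, ?_, fun z hz => ?_⟩
    · refine Finset.card_biUnion_le.trans ?_
      refine (Finset.sum_le_card_nsmul _ _ N fun t _ => hU t).trans ?_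
      simpa using Nat.mul_le_mul_right N hT
    · have hz' : dist y z < (1 + n / 4) + 1 / 4 := by
        have := mem_ball'.mp hz
        push_cast at this
        linarith
      obtain ⟨p, hp, hpz⟩ := mid h hδ y z _ (by positivity) hz'
      obtain ⟨t, ht, hpt⟩ := mem_iUnion₂.mp (hc (mem_ball'.mpr hp))
      have hzt : z ∈ ball t 1 := by
        have h1 := mem_ball'.mp hpt
        have h2 := dist_triangle t p z
        exact mem_ball'.mpr (by linarith)
      obtain ⟨u, hu, hzu⟩ := mem_iUnion₂.mp (hUc t hzt)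
      exact mem_iUnion₂.mpr ⟨u, Finset.mem_biUnion.mpr ⟨t, ht, hu⟩, hzu⟩

theorem chain (C : ℝ) (m : ℕ) (R r : ℝ) (hr : 0 < r) : ∃ N : ℕ, ∀ (G Y : Type) [Group G]
    [MulAction G Y] [PseudoMetricSpace Y] (δ D : ℝ), Geo G Y C m δ D → δ ≤ 1 / 2 → ∀ y : Y,
      ∃ T : Finset Y, T.card ≤ N ∧ ball y R ⊆ ⋃ t ∈ T, ball t r := by
  obtain ⟨n, hn⟩ := exists_nat_ge (4 * R)
  obtain ⟨N, hN⟩ := chainN C m n r hr
  refine ⟨N, fun G Y _ _ _ δ D h hδ y => ?_⟩
  obtain ⟨T, hT, hc⟩ := hN G Y δ D h hδ y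
  exact ⟨T, hT, (ball_subset_ball (by linarith)).trans hc⟩

theorem fin (h : Geo G Y C m δ D) (hδ : δ ≤ 1 / 2) (y : Y) (R : ℝ) :
    {g : G | dist y (g • y) < R}.Finite := by
  obtain ⟨r, hr, hd⟩ := h.disc
  obtain ⟨N, hN⟩ := chain C m R (r / 2) (by positivity)
  obtain ⟨T, -, hc⟩ := hN G Y δ D h hδ y
  have hf : (⋃ t ∈ T, {g : G | g • y ∈ ball t (r / 2)}).Finite := by
    refine T.finite_toSet.biUnion fun t _ => Set.Subsingleton.finite fun a ha b hb => ?_
    have h1 : dist y ((a⁻¹ * b) • y) < r := by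
      rw [dist_inv_mul h]
      have h2 := dist_triangle_right (a • y) (b • y) t
      have h3 := mem_ball.mp ha
      have h4 := mem_ball.mp hb
      linarith
    exact inv_mul_eq_one.mp (hd _ _ h1)
  refine hf.subset fun g hg => ?_
  obtain ⟨t, ht, hgt⟩ := mem_iUnion₂.mp (hc (mem_ball'.mpr hg))
  exact mem_iUnion₂.mpr ⟨t, ht, hgt⟩

theorem gen (h : Geo G Y C m δ D) (hδ : δ ≤ 1 / 2) (y : Y) : Hs G y (2 * D + 1) = ⊤ := by
  have hD : 0 ≤ D := by
    obtain ⟨g, hg⟩ := h.diam y y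
    exact dist_nonneg.trans hg
  rw [eq_top_iff]
  intro g _
  obtain ⟨k, s, h0, hk, hs, -⟩ := h.geo y (g • y) _ (lt_add_one _)
  have key : ∀ i ≤ k, ∀ a : G, dist (s i) (a • y) ≤ D → a ∈ Hs G y (2 * D + 1) := by
    intro i
    induction i with
    | zero =>
      intro _ a ha
      rw [h0] at ha
      exact Subgroup.subset_closure (show dist y (a • y) < 2 * D + 1 by linarith)
    | succ i ih =>
      intro hi a ha
      obtain ⟨b, hb⟩ := h.diam (s i) y
      have h1 : b⁻¹ * a ∈ Hs G y (2 * D + 1) := by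
        refine Subgroup.subset_closure (show dist y ((b⁻¹ * a) • y) < 2 * D + 1 from ?_)
        rw [dist_inv_mul h]
        have h2 := dist_triangle4 (b • y) (s i) (s (i + 1)) (a • y)
        have h3 := hs i (by omega)
        rw [dist_comm] at hb
        linarith
      have h4 := Subgroup.mul_mem _ (ih (by omega) b hb) h1
      rwa [mul_inv_cancel_left] at h4
  exact key k le_rfl g (by rw [hk, dist_self]; exact hD)

theorem ng (h : Geo G Y C m δ D) (hδ : δ ≤ 1 / 2) (y : Y) (r : ℝ) (hr : 0 < r) :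
    NG (Hs G y r) (fun g => dist y ((g : G) • y)) (2 ^ m * C) m r where
  pos := hr
  one := by simp
  inv g := dist_inv h y g
  mul a b := dist_mul h y a b
  fin := (fin h hδ y 1).preimage Subtype.val_injective.injOn
  cov ρ R h1 h2 h3 := by
    have hρ : 0 < ρ := hr.trans_le h1
    obtain ⟨T, hT, hc⟩ := h.cov y (ρ / 2) R (by positivity) (by linarith) h3
    have hch : ∀ t : Y, ∃ a : Hs G y r, (∃ b : Hs G y r, (b : G) • y ∈ ball t (ρ / 2)) →
        (a : G) • y ∈ ball t (ρ / 2) := by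
      intro t
      by_cases hb : ∃ b : Hs G y r, (b : G) • y ∈ ball t (ρ / 2)
      · obtain ⟨b, hb⟩ := hb
        exact ⟨b, fun _ => hb⟩
      · exact ⟨1, fun h => absurd h hb⟩
    choose φ hφ using hch
    refine ⟨T.image φ, ?_, fun g hg => ?_⟩
    · have h4 : ((T.image φ).card : ℝ) ≤ T.card := by exact_mod_cast Finset.card_image_le
      have h5 : C * (R / (ρ / 2)) ^ m = 2 ^ m * C * (R / ρ) ^ m := by
        rw [show R / (ρ / 2) = 2 * (R / ρ) by field_simp, mul_pow]
        ring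
      linarith
    · obtain ⟨t, ht, hgt⟩ := mem_iUnion₂.mp (hc (mem_ball'.mpr hg))
      refine ⟨φ t, Finset.mem_image_of_mem φ ht, ?_⟩
      show dist y ((((φ t : G))⁻¹ * (g : G)) • y) < ρ
      rw [dist_inv_mul h]
      have h6 := mem_ball.mp (hφ t ⟨g, hgt⟩)
      have h7 := mem_ball.mp hgt
      have h8 := dist_triangle_right ((φ t : G) • y) ((g : G) • y) t
      linarith
  gen := Subgroup.closure_closure_coe_preimage

theorem conj (h : Geo G Y C m δ D) (y : Y) (r : ℝ) (g : G) :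
    Hs G (g • y) r = MulAut.conj g • Hs G y r := by
  unfold Hs
  rw [Subgroup.smul_closure]
  congr 1
  ext a
  rw [Set.mem_smul_set_iff_inv_smul_mem]
  show dist (g • y) (a • g • y) < r ↔ dist y (((MulAut.conj g)⁻¹ • a) • y) < r
  have : (MulAut.conj g)⁻¹ • a = g⁻¹ * (a * g) := by
    simp [MulAut.smul_def, mul_assoc]
  rw [this, dist_inv_mul h, mul_smul]

/-- the cosets of the words of length at most `k` in `S`. -/
def Wd (H : Subgroup G) (S : Set G) : ℕ → Set (G ⧸ H)
  | 0 => {((1 : G) : G ⧸ H)}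
  | k + 1 => {c | ∃ s ∈ S, ∃ b ∈ Wd H S k, c = s • b}

theorem cos (h : Geo G Y C m δ D) (x y : Y) (R r r' : ℝ) (T : Finset Y) (hxy : dist x y ≤ R)
    (hr : 0 < r') (hT : r' * T.card ≤ 1) (hc : ball y (2 * R + 1) ⊆ ⋃ t ∈ T, ball t (r / 2)) :
    (Hs G y r).relIndex (Hs G x r') ≠ 0 := by
  set H := Hs G y r with hH
  set S : Set G := {g | dist x (g • x) < r'} with hS
  have h1S : (1 : G) ∈ S := by simp [hS, hr]
  have hmono : ∀ k, Wd H S k ⊆ Wd H S (k + 1) := fun k b hb => ⟨1, h1S, b, hb, by simp⟩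
  have hone : ∀ k, ((1 : G) : G ⧸ H) ∈ Wd H S k := by
    intro k
    induction k with
    | zero => exact rfl
    | succ k ih => exact hmono k ih
  have hrep : ∀ k, ∀ c ∈ Wd H S k, ∃ g : G, c = (g : G ⧸ H) ∧
      (dist x (g • x) < k * r' ∨ g = 1) := by
    intro k
    induction k with
    | zero => exact fun c hc => ⟨1, hc, Or.inr rfl⟩
    | succ k ih =>
      rintro c ⟨s, hs, b, hb, rfl⟩
      obtain ⟨g, rfl, hg⟩ := ih b hb
      refine ⟨s * g, rfl, Or.inl ?_⟩
      have h2 := dist_mul h x s g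
      have h3 : dist x (s • x) < r' := hs
      have h4 : dist x (g • x) ≤ k * r' := by
        rcases hg with hg | rfl
        · exact hg.le
        · simp only [one_smul, dist_self]
          positivity
      push_cast
      linarith
  have hch : ∀ t : Y, ∃ c : G ⧸ H, ∀ g : G, g • y ∈ ball t (r / 2) → (g : G ⧸ H) = c := by
    intro t
    by_cases hb : ∃ b : G, b • y ∈ ball t (r / 2)
    · obtain ⟨b, hb⟩ := hb
      refine ⟨b, fun g hg => QuotientGroup.eq.mpr ?_⟩
      refine Subgroup.subset_closure (show dist y ((g⁻¹ * b) • y) < r from ?_)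
      rw [dist_inv_mul h]
      have h6 := mem_ball.mp hg
      have h7 := mem_ball.mp hb
      have h8 := dist_triangle_right (g • y) (b • y) t
      linarith
    · exact ⟨((1 : G) : G ⧸ H), fun g hg => absurd ⟨g, hg⟩ hb⟩
  choose φ hφ using hch
  have hsub : ∀ k ≤ T.card, Wd H S k ⊆ (T.image φ : Finset (G ⧸ H)) := by
    intro k hk c hck
    obtain ⟨g, rfl, hg⟩ := hrep k c hck
    have h2 : dist x (g • x) < 1 := by
      rcases hg with hg | rfl
      · have h3 : (k : ℝ) ≤ T.card := by exact_mod_cast hk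
        nlinarith
      · simp
    have h4 : dist y (g • y) < 2 * R + 1 := by
      have h5 := dist_triangle4 y x (g • x) (g • y)
      rw [h.iso, dist_comm y x] at h5
      linarith
    obtain ⟨t, ht, hgt⟩ := mem_iUnion₂.mp (hc (mem_ball'.mpr h4))
    exact Finset.mem_coe.mpr (Finset.mem_image.mpr ⟨t, ht, (hφ t g hgt).symm⟩)
  have hfin : ∀ k ≤ T.card, (Wd H S k).Finite := fun k hk =>
    (Finset.finite_toSet _).subset (hsub k hk)
  have hst : ∃ k < T.card, Wd H S (k + 1) ⊆ Wd H S k := by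
    by_contra hn
    have hgr : ∀ k ≤ T.card, k + 1 ≤ (Wd H S k).ncard := by
      intro k
      induction k with
      | zero => intro _; simp [Wd]
      | succ k ih =>
        intro hk
        have h2 : Wd H S k ⊂ Wd H S (k + 1) := ⟨hmono k, fun h3 => hn ⟨k, by omega, h3⟩⟩
        have h3 := Set.ncard_lt_ncard h2 (hfin _ hk)
        have h4 := ih (by omega)
        omega
    have h5 := hgr _ le_rfl
    have h6 := Set.ncard_le_ncard (hsub _ le_rfl) (Finset.finite_toSet _)
    rw [Set.ncard_coe_finset] at h6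
    have h7 : (T.image φ).card ≤ T.card := Finset.card_image_le
    omega
  obtain ⟨k, hk, hst⟩ := hst
  have hK : ∀ g ∈ Hs G x r', ∀ b ∈ Wd H S k, g • b ∈ Wd H S k := by
    intro g hg
    refine Subgroup.closure_induction'' (p := fun g _ => ∀ b ∈ Wd H S k, g • b ∈ Wd H S k)
      ?_ ?_ ?_ ?_ hg
    · exact fun s hs b hb => hst ⟨s, hs, b, hb, rfl⟩
    · refine fun s hs b hb => hst ⟨s⁻¹, ?_, b, hb, rfl⟩
      show dist x (s⁻¹ • x) < r'
      rw [dist_inv h]
      exact hs
    · intro b hb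
      simpa using hb
    · intro a a' _ _ ha ha' b hb
      rw [mul_smul]
      exact ha _ (ha' b hb)
  have hW := (hfin k hk.le).to_subtype
  let f : Wd H S k → Hs G x r' ⧸ H.subgroupOf (Hs G x r') := fun c =>
    if hx : ∃ g : Hs G x r', ((g : G) : G ⧸ H) = c.1 then QuotientGroup.mk hx.choose
    else QuotientGroup.mk 1
  have hf : Function.Surjective f := by
    intro q
    obtain ⟨g, rfl⟩ := QuotientGroup.mk_surjective q
    have h2 : ((g : G) : G ⧸ H) ∈ Wd H S k := by
      have h3 := hK g g.2 _ (hone k)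
      rwa [MulAction.Quotient.smul_mk, smul_eq_mul, mul_one] at h3
    refine ⟨⟨_, h2⟩, ?_⟩
    have hx : ∃ g' : Hs G x r', ((g' : G) : G ⧸ H) = ((g : G) : G ⧸ H) := ⟨g, rfl⟩
    simp only [f]
    rw [dif_pos hx]
    exact QuotientGroup.eq.mpr (Subgroup.mem_subgroupOf.mpr (QuotientGroup.eq.mp hx.choose_spec))
  have := Finite.of_surjective f hf
  exact Subgroup.index_ne_zero_of_finite

end GeoP

theorem geoS : GeoS where
  chain := GeoP.chain
  fin _ _ _ _ _ _ _ _ _ h hδ := GeoP.fin h hδ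
  gen _ _ _ _ _ _ _ _ _ h hδ := GeoP.gen h hδ
  ng _ _ _ _ _ _ _ _ _ h hδ := GeoP.ng h hδ
  conj _ _ _ _ _ _ _ _ _ h := GeoP.conj h
  cos _ _ _ _ _ _ _ _ _ h := GeoP.cos h

end Pool.Agent.Lib.MP_813db1_ag.AS
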