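import Pool.Agent.Lib.MP_813db1_ag.AS.StmtG
import Pool.Agent.Lib.MP_bbd4b9_ag.HR.Gle

/-! Almost central elements of strong approximate groups, with their location. -/

namespace Pool.Agent.Lib.MP_813db1_ag.AS

open Filter Topology Set Pool.Agent.Lib.MP_bbd4b9_ag Pool.Agent.Lib.MP_bbd4b9_ag.HR
open scoped Pointwise Classical

theorem gleU (hE : EscS) (hP : ProdS) (hC : HR.ComS) : GleU := by
  intro K T₁
  refine ⟨2 * (T₁ + 1) * (K + 1), fun T₂ => ⟨2 * (K + 1) *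
    (8 * (T₁ + 1) * (T₂ + 1) * (K + 1)) ^ 2 * (T₁ + 1) ^ 2, fun G _ A h0 => ?_⟩⟩
  have h := Gle.str_succ h0
  obtain ⟨e1, -, e3, -, e5⟩ := hE G _ _ _ _ A h (Nat.le_add_left _ _)
  have hp := hP G _ _ _ A (Nat.le_add_left _ _) (Nat.le_add_left _ _) (Nat.le_add_left _ _) h
  have hc := hC G _ _ _ _ A _ (Nat.le_add_left _ _) (by positivity) h hp
  generalize hm : 2 * (K + 1) * (8 * (T₁ + 1) * (T₂ + 1) * (K + 1)) ^ 2 * (T₁ + 1) ^ 2 = m
  have hm1 : 1 ≤ m := hm ▸ Nat.succ_le_of_lt (by positivity)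
  have hm2 : (2 * ((K + 1 : ℕ) : ℝ) * (8 * ((T₁ + 1 : ℕ) : ℝ) * ((T₂ + 1 : ℕ) : ℝ) *
      ((K + 1 : ℕ) : ℝ)) ^ 2 * ((T₁ + 1 : ℕ) : ℝ) ^ 2) = m := by
    rw [← hm]; push_cast; ring
  rw [hm2] at hc
  have hs : ∀ s, Esc A m s → s ∈ A := fun s hs => by simpa using hs 1 hm1
  by_cases h1 : A = {1}
  · exact Or.inl h1
  right
  obtain ⟨u, hu, hmin⟩ := (A.erase 1).exists_min_image (esc A) (by
    by_contra h2
    rcases (Finset.erase_eq_empty_iff _ _).1 (Finset.not_nonempty_iff_eq_empty.1 h2) with h3 | h3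
    · exact Finset.notMem_empty _ (h3 ▸ h.one)
    · exact h1 h3)
  obtain ⟨hu1, huA⟩ := Finset.mem_erase.1 hu
  rcases (e1 u).1.eq_or_lt with h2 | h2
  · refine ⟨u, A.filter (esc A · = 0), hu1, Finset.mem_filter.2 ⟨huA, h2.symm⟩,
      Finset.filter_subset _ _, fun s h3 f hf => ?_⟩
    have h4 : s⁻¹ ∈ A ^ 3 := Finset.subset_pow h.one (by norm_num) (h.inv s (hs s h3))
    have h5 := e5 f _ h4
    rw [inv_inv, (Finset.mem_filter.1 hf).2, mul_zero] at h5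
    exact Finset.mem_filter.2 ⟨(e1 _).2.2.2.1 (h5.trans_lt one_pos), le_antisymm h5 (e1 _).1⟩
  · refine ⟨u, {u}, hu1, Finset.mem_singleton_self u, Finset.singleton_subset_iff.2 huA,
      fun s h3 f hf => ?_⟩
    rw [Finset.mem_singleton] at hf ⊢
    subst hf
    have h4 := hc f huA s (hs s h3)
    have h5 : (m : ℝ) * esc A s < 1 := by
      refine (mul_le_mul_of_nonneg_left ((e3 s m).1 h3) (Nat.cast_nonneg m)).trans_lt ?_
      rw [mul_one_div, div_lt_one (by positivity)]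
      exact lt_add_one _
    have h6 : esc A (f⁻¹ * s⁻¹ * f * s) < esc A f := by
      refine h4.trans_lt ?_
      rw [mul_left_comm]
      exact mul_lt_of_lt_one_right h2 h5
    have h7 : f⁻¹ * s⁻¹ * f * s = 1 := by
      by_contra h7
      exact h6.not_ge (hmin _ (Finset.mem_erase.2 ⟨h7, (e1 _).2.2.2.1 (h6.trans_le (e1 f).2.1)⟩))
    calc s * f * s⁻¹ = s * f * (f⁻¹ * s⁻¹ * f * s) * s⁻¹ := by rw [h7, mul_one]
      _ = f := by group

end Pool.Agent.Lib.MP_813db1_ag.AS
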