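import Pool.Agent.Lib.MP_813db1_ag.AS.StmtG

/-! Lifts of the action groupoids to a central extension. -/

namespace Pool.Agent.Lib.MP_813db1_ag.AS

namespace LiftA

theorem cob {G P : Type} [Group G] [MulAction G P] (δ : G → P → ℝ)
    (h1 : ∀ g g' p, δ (g * g') p = δ g (g' • p) + δ g' p) (h2 : ∀ g p, g • p = p → δ g p = 0) :
    ∃ lam : P → ℝ, ∀ g p, δ g p = lam (g • p) - lam p := by
  have h3 : ∀ p : P, ∃ a : G, a • (Quotient.mk (MulAction.orbitRel G P) p).out = p := fun p =>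
    (MulAction.orbitRel G P).symm (Quotient.mk_out (s := MulAction.orbitRel G P) p)
  choose a ha using h3
  refine ⟨fun p => δ (a p) (Quotient.mk (MulAction.orbitRel G P) p).out, fun g p => ?_⟩
  have e : Quotient.mk (MulAction.orbitRel G P) (g • p) = Quotient.mk (MulAction.orbitRel G P) p :=
    Quotient.sound ⟨g, rfl⟩
  have h4 := ha (g • p)
  have h5 := ha p
  rw [e] at h4
  simp only [e]
  generalize (Quotient.mk (MulAction.orbitRel G P) p).out = o at h4 h5 ⊢
  have h6 : ((g * a p)⁻¹ * a (g • p)) • o = o := by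
    rw [mul_smul, h4, inv_smul_eq_iff, mul_smul, h5]
  have h7 := h1 (g * a p) ((g * a p)⁻¹ * a (g • p)) o
  rw [h6, h2 _ _ h6, h1 g (a p) o, h5, mul_inv_cancel_left] at h7
  linarith

theorem one {G E : Type} [Group G] [Group E] (c : CE G E) {N : Subgroup G} {T : Set E}
    (h : Can c N T) (H : Subgroup G) (hH : N.relIndex H ≠ 0) : ∃ L : G → G ⧸ H → E,
    (∀ g q, c.π (L g q) = g) ∧ (∀ g g' q, L (g * g') q = L g (g' • q) * L g' q) ∧
      ∀ g q, g • q = q → L g q ∈ T := by
  obtain ⟨τ, hτ⟩ := h.sec H hH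
  choose s hs using c.surj
  have hm : ∀ (g : G) (q : G ⧸ H), (g • q).out⁻¹ * (g * q.out) ∈ H := fun g q =>
    QuotientGroup.eq.1 (by
      rw [QuotientGroup.out_eq', ← smul_eq_mul, ← MulAction.Quotient.smul_mk,
        QuotientGroup.out_eq'])
  refine ⟨fun g q => s (g • q).out * τ ⟨_, hm g q⟩ * (s q.out)⁻¹, fun g q => ?_,
    fun g g' q => ?_, fun g q e => ?_⟩
  · simp only [map_mul, map_inv, hs, (hτ _).1]
    group
  · have e : (⟨_, hm (g * g') q⟩ : H) = ⟨_, hm g (g' • q)⟩ * ⟨_, hm g' q⟩ := by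
      apply Subtype.ext
      simp only [Subgroup.coe_mul, mul_smul]
      group
    beta_reduce
    rw [e, map_mul, mul_smul]
    simp only [mul_assoc, inv_mul_cancel_left]
  · have := h.conj _ (hτ ⟨_, hm g q⟩).2 (s q.out)
    simpa only [e] using this

end LiftA

theorem liftS : LiftS := by
  intro G E κ _ _ c N T H h hH
  choose L h1 h2 h3 using fun i => LiftA.one c h (H i) (hH i)
  have h4 : ∀ (i k : κ) (g : G) (p : (G ⧸ H i) × (G ⧸ H k)), ∃ t : ℝ,
      L i g p.1 = L k g p.2 * c.ζ (Multiplicative.ofAdd t) := fun i k g p => by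
    obtain ⟨t, ht⟩ := (c.ker ((L k g p.2)⁻¹ * L i g p.1)).1 (by simp [h1])
    exact ⟨t.toAdd, by simp [ht]⟩
  choose δ hδ using h4
  have h5 : ∀ (x : E) (s t : ℝ), x * c.ζ (Multiplicative.ofAdd s) =
      x * c.ζ (Multiplicative.ofAdd t) → s = t := fun x s t e =>
    Multiplicative.ofAdd.injective (c.inj (mul_left_cancel e))
  choose lam hl using fun i k => LiftA.cob (δ i k) (fun g g' p => by
    refine h5 (L k (g * g') p.2) _ _ ?_
    rw [← hδ, h2, h2, ofAdd_add, map_mul]
    have a := hδ i k g (g' • p)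
    rw [Prod.smul_fst, Prod.smul_snd] at a
    rw [a, hδ i k g' p, mul_assoc, ← mul_assoc (c.ζ _), c.cen]
    simp only [mul_assoc]) (fun g p e => by
    refine h5 (L k g p.2) _ _ ?_
    rw [← hδ, ofAdd_zero, map_one, mul_one]
    exact h.inj _ (h3 i g _ (congrArg Prod.fst e)) _ (h3 k g _ (congrArg Prod.snd e))
      (by rw [h1, h1]))
  refine ⟨L, fun i k q q' => lam i k (q, q'), h1, h2, fun i k g q q' => ?_⟩
  rw [hδ i k g (q, q'), hl]
  rfl

end Pool.Agent.Lib.MP_813db1_ag.AS
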