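import Pool.Agent.Lib.MP_813db1_ag.AS.StmtG

/-! The Margulis lemma with a bound on the rank. -/

namespace Pool.Agent.Lib.MP_813db1_ag.AS

open Subgroup Pool.Agent.Lib.MP_bbd4b9_ag
open scoped Pointwise Classical

theorem mgS (h1 : NgS) (h2 : RkS) (h3 : FcU) (h4 : VnS) (h5 : HR.McS) : MgS := by
  intro d
  induction d with
  | zero =>
    intro C
    obtain ⟨δ, d1, d2⟩ := h1.zero C
    refine ⟨0, min δ 1, lt_min d1 one_pos, min_le_right _ _, fun Q _ ν h => ?_⟩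
    have := d2 Q ν (h1.mono Q ν C 0 _ _ h (min_le_left _ _))
    exact ⟨⟨⊥, inferInstance, inferInstance⟩, h2.fin Q ⊤ inferInstance⟩
  | succ d ih =>
    intro C
    obtain ⟨f₁, δ₁, a1, a2, a3⟩ := ih (3 * 4 ^ (d + 1) * C)
    obtain ⟨f₂, δ₂, b1, -, b3⟩ := ih (3 * 4 ^ (d + 1) * (2 ^ (d + 1) * C))
    obtain ⟨lam, l1, l2, l3⟩ : ∃ lam : ℝ, 0 < lam ∧ 4 * lam ≤ δ₁ ∧ 4 * lam ≤ δ₂ :=
      ⟨min δ₁ δ₂ / 4, by have := lt_min a1 b1; positivity,
        by have := min_le_left δ₁ δ₂; linarith, by have := min_le_right δ₁ δ₂; linarith⟩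
    obtain ⟨δ₀, c1, c2⟩ := h3 C (d + 1) lam l1
    obtain ⟨δ, e1, e2, e3⟩ : ∃ δ : ℝ, 0 < δ ∧ 2 * δ ≤ lam ∧ δ ≤ δ₀ :=
      ⟨min (lam / 2) δ₀, lt_min (by positivity) c1,
        by have := min_le_left (lam / 2) δ₀; linarith, min_le_right _ _⟩
    have e4 : δ ≤ 1 := by linarith
    refine ⟨1 + f₂ + f₁, δ, e1, e4, fun Q _ ν h => ?_⟩
    have fg := h1.fg Q ν C _ δ h e4
    have vn : Group.IsVirtuallyNilpotent Q := h5 Q fg fun Q' _ f hf hQ => by
      obtain ⟨F, ⟨u, u1, u2⟩, -, u3⟩ := c2 Q' _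
        (h1.mono _ _ _ _ _ _ (h1.quo Q Q' f ν C _ δ hf h) e3) hQ
      refine ⟨u, u2, F.finite_toSet.subset fun v hv => ?_⟩
      obtain ⟨g, rfl⟩ := isConj_iff.1 hv
      exact u3 g u u1
    refine ⟨vn, ?_⟩
    obtain ⟨T, _, t1, t2⟩ := h4.max Q fg vn
    have n1 := h1.quo Q (Q ⧸ T) (QuotientGroup.mk' T) ν C _ δ (QuotientGroup.mk'_surjective T) h
    rw [← zero_add (1 + f₂ + f₁)]
    refine h2.ext Q (Q ⧸ T) (QuotientGroup.mk' T) 0 _
      (h2.fin Q _ (by rw [QuotientGroup.ker_mk']; exact t1)) ?_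
    generalize qn (QuotientGroup.mk' T) ν = μ at n1
    rcases subsingleton_or_nontrivial (Q ⧸ T) with hs | hs
    · exact h2.mono _ _ 0 _ (Nat.zero_le _) (h2.fin _ ⊤ inferInstance)
    obtain ⟨F, ⟨u, u1, u2⟩, u3, u4⟩ := c2 _ μ (h1.mono _ _ _ _ _ _ n1 e3) hs
    obtain ⟨g1, g2, g3⟩ := h4.ab _ F u4 t2
    have u5 : u ∈ closure (F : Set (Q ⧸ T)) := subset_closure u1
    have u6 : ¬ IsOfFinOrder u := fun e => u2 (g3 u u5 e)
    let v : closure (F : Set (Q ⧸ T)) := ⟨u, u5⟩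
    have v1 : Infinite (zpowers v) := by
      have : ¬ IsOfFinOrder v := fun e => u6 ((Subgroup.subtype _).isOfFinOrder e)
      exact Set.infinite_coe_iff.2 (infinite_zpowers.2 this)
    have v2 : Infinite (closure (F : Set (Q ⧸ T))) :=
      Infinite.of_injective _ (zpowers v).subtype_injective
    have v3 : (zpowers v).Normal := ⟨fun x hx g => by
      rwa [g2.is_comm.comm g x, mul_inv_cancel_right]⟩
    have n2 := h1.drop _ _ (QuotientGroup.mk' (closure (F : Set (Q ⧸ T)))) μ C d δ lam F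
      (QuotientGroup.mk'_surjective _) n1 e2 u3 (QuotientGroup.ker_mk' _)
      (by rw [QuotientGroup.ker_mk']; exact v2)
    have n3 := h1.sub _ μ C (d + 1) δ lam F n1 e2 u3
    have n4 := h1.drop _ _ (QuotientGroup.mk' (zpowers v)) _ _ d lam (2 * lam) {v}
      (QuotientGroup.mk'_surjective _) n3 le_rfl
      (by rintro _ rfl; have := u3 u u1; show μ u < _; linarith)
      (by rw [QuotientGroup.ker_mk', zpowers_eq_closure])
      (by rw [QuotientGroup.ker_mk']; exact v1)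
    have r1 := (a3 _ _ (h1.mono _ _ _ _ _ _ n2 (by linarith))).2
    have r2 := (b3 _ _ (h1.mono _ _ _ _ _ _ n4 (by linarith))).2
    have r3 := h2.ext _ _ (QuotientGroup.mk' (zpowers v)) 1 f₂
      (by rw [QuotientGroup.ker_mk']; exact h2.cyc _ v) r2
    exact h2.ext _ _ (QuotientGroup.mk' (closure (F : Set (Q ⧸ T)))) _ _
      (by rw [QuotientGroup.ker_mk']; exact (h2.top _ _ _).1 r3) r1

end Pool.Agent.Lib.MP_813db1_ag.AS
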