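import Pool.Agent.Lib.MP_813db1_ag.AS.StmtG

/-! Normed groups with a covering bound: quotients, subgroups and the loss of one dimension. -/

namespace Pool.Agent.Lib.MP_813db1_ag.AS

open Set
open scoped Classical

namespace Ng

variable {Q Q' : Type} [Group Q] [Group Q'] {ν : Q → ℝ} {C : ℝ} {d : ℕ} {δ : ℝ}

theorem nn (h : NG Q ν C d δ) (g : Q) : 0 ≤ ν g := by
  have h1 := h.mul g g⁻¹
  rw [mul_inv_cancel, h.one, h.inv] at h1
  linarith

theorem bdd (h : NG Q ν C d δ) (f : Q →* Q') (q : Q') : BddBelow (ν '' (f ⁻¹' {q})) :=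
  ⟨0, by rintro _ ⟨g, -, rfl⟩; exact nn h g⟩

theorem qn_le (h : NG Q ν C d δ) (f : Q →* Q') (g : Q) : qn f ν (f g) ≤ ν g :=
  csInf_le (bdd h f _) ⟨g, rfl, rfl⟩

theorem qn_lt (h : NG Q ν C d δ) {f : Q →* Q'} (hf : Function.Surjective f) {q : Q'} {a : ℝ}
    (ha : qn f ν q < a) : ∃ g, f g = q ∧ ν g < a := by
  obtain ⟨g₀, hg₀⟩ := hf q
  obtain ⟨_, ⟨g, hg, rfl⟩, h1⟩ := (csInf_lt_iff (bdd h f q) ⟨ν g₀, g₀, hg₀, rfl⟩).1 ha
  exact ⟨g, hg, h1⟩

theorem mono (h : NG Q ν C d δ) {δ' : ℝ} (hδ : δ ≤ δ') : NG Q ν C d δ' :=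
  ⟨h.pos.trans_le hδ, h.one, h.inv, h.mul, h.fin, fun r R h1 => h.cov r R (hδ.trans h1), by
    rw [eq_top_iff, ← h.gen]
    exact Subgroup.closure_mono fun g hg => lt_of_lt_of_le hg hδ⟩

theorem quo (h : NG Q ν C d δ) {f : Q →* Q'} (hf : Function.Surjective f) :
    NG Q' (qn f ν) C d δ := by
  have hi : ∀ q, qn f ν q⁻¹ ≤ qn f ν q := by
    intro q
    refine le_of_forall_gt fun a ha => ?_
    obtain ⟨g, rfl, h1⟩ := qn_lt h hf ha
    rw [← map_inv]
    exact (qn_le h f _).trans_lt (by rwa [h.inv])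
  refine ⟨h.pos, ?_, fun q => le_antisymm (hi q) (by simpa using hi q⁻¹), ?_, ?_, ?_, ?_⟩
  · refine le_antisymm ?_ (Real.sInf_nonneg (by rintro _ ⟨g, -, rfl⟩; exact nn h g))
    have := qn_le h f 1
    rwa [map_one, h.one] at this
  · intro q q'
    refine le_of_forall_pos_le_add fun ε hε => ?_
    obtain ⟨g, rfl, h1⟩ := qn_lt h hf (lt_add_of_pos_right (qn f ν q) (half_pos hε))
    obtain ⟨g', rfl, h2⟩ := qn_lt h hf (lt_add_of_pos_right (qn f ν q') (half_pos hε))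
    have h3 := qn_le h f (g * g')
    have h4 := h.mul g g'
    rw [map_mul] at h3
    linarith
  · refine (h.fin.image f).subset fun q hq => ?_
    obtain ⟨g, h1, h2⟩ := qn_lt h hf hq
    exact ⟨g, h2, h1⟩
  · intro r R h1 h2 h3
    obtain ⟨T, h4, h5⟩ := h.cov r R h1 h2 h3
    refine ⟨T.image f, le_trans (by exact_mod_cast Finset.card_image_le) h4, fun q hq => ?_⟩
    obtain ⟨g, rfl, h6⟩ := qn_lt h hf hq
    obtain ⟨t, ht, h7⟩ := h5 g h6
    refine ⟨f t, Finset.mem_image_of_mem _ ht, ?_⟩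
    rw [← map_inv, ← map_mul]
    exact (qn_le h f _).trans_lt h7
  · rw [eq_top_iff, ← Subgroup.map_top_of_surjective f hf, ← h.gen, MonoidHom.map_closure]
    refine Subgroup.closure_mono ?_
    rintro _ ⟨g, hg, rfl⟩
    exact (qn_le h f g).trans_lt hg

theorem tri (h : NG Q ν C d δ) (t x y : Q) : ν (x⁻¹ * y) ≤ ν (t⁻¹ * x) + ν (t⁻¹ * y) := by
  have h1 := h.mul (t⁻¹ * x)⁻¹ (t⁻¹ * y)
  rw [h.inv] at h1
  have h2 : (t⁻¹ * x)⁻¹ * (t⁻¹ * y) = x⁻¹ * y := by group
  rwa [h2] at h1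

theorem sub (h : NG Q ν C d δ) {lam : ℝ} {S : Set Q} (hl : 2 * δ ≤ lam) (hS : ∀ g ∈ S, ν g < lam) :
    NG (Subgroup.closure S) (fun g => ν g) (2 ^ d * C) d lam := by
  have hδ := h.pos
  refine ⟨by linarith, h.one, fun g => h.inv g, fun g g' => h.mul g g',
    h.fin.preimage (f := fun g : Subgroup.closure S => (g : Q)) Subtype.val_injective.injOn, ?_, ?_⟩
  · intro r R h1 h2 h3
    obtain ⟨T, h4, h5⟩ := h.cov (r / 2) R (by linarith) (by linarith) h3
    have hc : ∀ t : Q, ∃ x : Subgroup.closure S,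
        (∃ y : Subgroup.closure S, ν (t⁻¹ * y) < r / 2) → ν (t⁻¹ * x) < r / 2 := by
      intro t
      by_cases hx : ∃ y : Subgroup.closure S, ν (t⁻¹ * y) < r / 2
      · obtain ⟨y, hy⟩ := hx
        exact ⟨y, fun _ => hy⟩
      · exact ⟨1, fun h' => (hx h').elim⟩
    choose x hx using hc
    refine ⟨T.image x, ?_, fun g hg => ?_⟩
    · have e : C * (R / (r / 2)) ^ d = 2 ^ d * C * (R / r) ^ d := by
        rw [div_div_eq_mul_div, mul_comm R, mul_div_assoc, mul_pow]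
        ring
      exact le_trans (by exact_mod_cast Finset.card_image_le) (h4.trans_eq e)
    · obtain ⟨t, ht, h6⟩ := h5 g hg
      refine ⟨x t, Finset.mem_image_of_mem _ ht, ?_⟩
      have h7 := hx t ⟨g, h6⟩
      have h8 := tri h t (x t) g
      show ν ((x t : Q)⁻¹ * g) < r
      linarith
  · rw [eq_top_iff, ← Subgroup.closure_closure_coe_preimage]
    exact Subgroup.closure_mono fun g hg => hS _ hg

/-- separated points. -/
theorem pack (h : NG Q ν C d δ) {r R : ℝ} (h1 : δ ≤ r / 2) (h2 : r / 2 ≤ R) (h3 : R ≤ 1)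
    {ι : Type} (s : Finset ι) (x : ι → Q) (hx : ∀ i ∈ s, ν (x i) < R)
    (hs : ∀ i ∈ s, ∀ j ∈ s, i ≠ j → r ≤ ν ((x i)⁻¹ * x j)) :
    (s.card : ℝ) ≤ C * (R / (r / 2)) ^ d := by
  obtain ⟨T, h4, h5⟩ := h.cov (r / 2) R h1 h2 h3
  have hc : ∀ i, ∃ t, i ∈ s → t ∈ T ∧ ν (t⁻¹ * x i) < r / 2 := by
    intro i
    by_cases hi : i ∈ s
    · obtain ⟨t, ht⟩ := h5 _ (hx i hi)
      exact ⟨t, fun _ => ht⟩
    · exact ⟨1, fun h' => (hi h').elim⟩
  choose t ht using hc
  have : s.card ≤ T.card := by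
    refine Finset.card_le_card_of_injOn t (fun i hi => (ht i hi).1) fun i hi j hj e => ?_
    by_contra hne
    have a1 := hs i hi j hj hne
    have a2 := (ht i hi).2
    have a3 := (ht j hj).2
    have a4 := tri h (t i) (x i) (x j)
    rw [← e] at a3
    linarith
  exact le_trans (by exact_mod_cast this) h4

/-- an infinite subgroup with short generators meets every shell. -/
theorem shell (h : NG Q ν C d δ) {lam : ℝ} {S : Set Q} (hl : 0 < lam) (hS : ∀ g ∈ S, ν g < lam)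
    (hi : Infinite (Subgroup.closure S)) {a : ℝ} (h0 : 0 ≤ a) (h1 : a ≤ 1) :
    ∃ e ∈ Subgroup.closure S, a ≤ ν e ∧ ν e < a + lam := by
  have key : ∀ x (_ : x ∈ Subgroup.closure S), a ≤ ν x →
      ∃ e ∈ Subgroup.closure S, a ≤ ν e ∧ ν e < a + lam := by
    intro x hx
    induction hx using Subgroup.closure_induction_right with
    | one => exact fun ha => ⟨1, one_mem _, ha, by rw [h.one]; linarith⟩
    | mul_right x hx y hy ih =>
      intro ha
      by_cases hc : a ≤ ν x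
      · exact ih hc
      · refine ⟨x * y, mul_mem hx (Subgroup.subset_closure hy), ha, ?_⟩
        have := h.mul x y
        have := hS y hy
        linarith [not_le.1 hc]
    | mul_inv_cancel x hx y hy ih =>
      intro ha
      by_cases hc : a ≤ ν x
      · exact ih hc
      · refine ⟨x * y⁻¹, mul_mem hx (inv_mem (Subgroup.subset_closure hy)), ha, ?_⟩
        have := h.mul x y⁻¹
        have := hS y hy
        have := h.inv y
        linarith [not_le.1 hc]
  have hinf : (Subgroup.closure S : Set Q).Infinite := Set.infinite_coe_iff.1 hi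
  obtain ⟨x, hx, hx'⟩ := hinf.exists_notMem_finite h.fin
  exact key x hx (h1.trans (not_lt.1 hx'))

theorem shells (h : NG Q ν C d δ) {lam r : ℝ} {S : Set Q} (hl : 0 < lam) (hr : lam ≤ r)
    (hS : ∀ g ∈ S, ν g < lam) (hi : Infinite (Subgroup.closure S)) (J : ℕ) {R : ℝ} (hR : R ≤ 1)
    (hJ : ∀ j < J, (2 * (j : ℝ) + 1) * r ≤ R) :
    ∃ e : ℕ → Q, (∀ j < J, e j ∈ Subgroup.closure S ∧ ν (e j) < R) ∧
      ∀ j < J, ∀ k < J, j ≠ k → r ≤ ν ((e j)⁻¹ * e k) := by
  have hc : ∀ j : ℕ, ∃ e, j < J → e ∈ Subgroup.closure S ∧ 2 * j * r ≤ ν e ∧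
      ν e < (2 * j + 1) * r := by
    intro j
    by_cases hj : j < J
    · have a1 := hJ j hj
      have a2 : (0 : ℝ) ≤ j := Nat.cast_nonneg _
      obtain ⟨e, b1, b2, b3⟩ := shell h hl hS hi (a := 2 * j * r) (by nlinarith) (by nlinarith)
      exact ⟨e, fun _ => ⟨b1, b2, by linarith⟩⟩
    · exact ⟨1, fun h' => (hj h').elim⟩
  choose e he using hc
  have key : ∀ j < J, ∀ k < J, j < k → r ≤ ν ((e j)⁻¹ * e k) := by
    intro j hj k hk hjk
    have a1 := (he j hj).2.2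
    have a2 := (he k hk).2.1
    have a3 := h.mul (e j) ((e j)⁻¹ * e k)
    rw [mul_inv_cancel_left] at a3
    have a4 : (j : ℝ) + 1 ≤ k := by exact_mod_cast hjk
    nlinarith
  refine ⟨e, fun j hj => ⟨(he j hj).1, (he j hj).2.2.trans_le (hJ j hj)⟩, fun j hj k hk hne => ?_⟩
  rcases lt_or_gt_of_ne hne with h1 | h1
  · exact key j hj k hk h1
  · have := key k hk j hj h1
    rwa [← h.inv, mul_inv_rev, inv_inv] at this

/-- a maximal separated subset. -/
theorem net {α : Type} (B : Finset α) (n : α → α → Prop) (hr : ∀ a, n a a)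
    (hs : ∀ a b, n a b → n b a) :
    ∃ T ⊆ B, (∀ a ∈ T, ∀ b ∈ T, a ≠ b → ¬ n a b) ∧ ∀ b ∈ B, ∃ t ∈ T, n t b := by
  obtain ⟨P, hP⟩ : ∃ P : Finset α → Prop, ∀ T, P T ↔ ∀ a ∈ T, ∀ b ∈ T, a ≠ b → ¬ n a b :=
    ⟨_, fun _ => Iff.rfl⟩
  obtain ⟨T, hT, hm⟩ := Finset.exists_max_image (B.powerset.filter P) Finset.card
    ⟨∅, Finset.mem_filter.2 ⟨by simp, (hP _).2 (by simp)⟩⟩
  obtain ⟨h1, h2⟩ := Finset.mem_filter.1 hT
  rw [Finset.mem_powerset] at h1
  rw [hP] at h2
  refine ⟨T, h1, h2, fun b hb => ?_⟩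
  by_contra hc
  have h3 : ∀ t ∈ T, ¬ n t b := fun t ht h' => hc ⟨t, ht, h'⟩
  have h4 : b ∉ T := fun h' => h3 b h' (hr b)
  have h5 := hm (insert b T) (Finset.mem_filter.2 ⟨Finset.mem_powerset.2
    (Finset.insert_subset hb h1), (hP _).2 fun x hx y hy hne => by
      rcases Finset.mem_insert.1 hx with rfl | hx' <;> rcases Finset.mem_insert.1 hy with rfl | hy'
      · exact (hne rfl).elim
      · exact fun h' => h3 y hy' (hs _ _ h')
      · exact h3 x hx'
      · exact h2 x hx' y hy' hne⟩)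
  rw [Finset.card_insert_of_notMem h4] at h5
  omega

theorem drop (h : NG Q ν C (d + 1) δ) {f : Q →* Q'} (hf : Function.Surjective f) {lam : ℝ}
    {S : Set Q} (hl : 2 * δ ≤ lam) (hS : ∀ g ∈ S, ν g < lam) (hk : f.ker = Subgroup.closure S)
    (hi : Infinite f.ker) :
    NG Q' (fun q => 2 * qn f ν q) (3 * 4 ^ (d + 1) * C) d (2 * lam) := by
  have hδ := h.pos
  have hq := quo h hf
  have hfin : ∀ R : ℝ, R ≤ 1 → {q | 2 * qn f ν q < R}.Finite := fun R hR =>
    hq.fin.subset fun q (h' : 2 * qn f ν q < R) => by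
      have := nn hq q
      show qn f ν q < 1
      linarith
  refine ⟨by linarith, by rw [hq.one, mul_zero], fun q => by rw [hq.inv], fun q q' => by
    have := hq.mul q q'
    linarith, hfin 1 le_rfl, ?_, ?_⟩
  · intro r R h1 h2 h3
    have hr : 0 < r := by linarith
    obtain ⟨T, t1, t2, t3⟩ := net (hfin R h3).toFinset (fun a b => 2 * qn f ν (a⁻¹ * b) < r)
      (fun a => by rw [inv_mul_cancel, hq.one]; linarith)
      (fun a b h' => by rwa [← hq.inv, mul_inv_rev, inv_inv] at h')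
    refine ⟨T, ?_, fun q hq' => t3 q ((hfin R h3).mem_toFinset.2 hq')⟩
    have hc : ∀ q : Q', ∃ g, q ∈ T → f g = q ∧ ν g < R / 2 := by
      intro q
      by_cases hq' : q ∈ T
      · have a1 : 2 * qn f ν q < R := (hfin R h3).mem_toFinset.1 (t1 hq')
        obtain ⟨g, hg⟩ := qn_lt h hf (a := R / 2) (q := q) (by linarith)
        exact ⟨g, fun _ => hg⟩
      · exact ⟨1, fun h' => (hq' h').elim⟩
    choose g hg using hc
    obtain ⟨x, hx⟩ : ∃ x, x = R / r := ⟨_, rfl⟩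
    have hx1 : 1 ≤ x := by rw [hx, le_div_iff₀ hr]; linarith
    have hx2 : R = x * r := by rw [hx]; field_simp
    have j1 : (⌊(x + 1) / 2⌋₊ : ℝ) ≤ (x + 1) / 2 := Nat.floor_le (by linarith)
    have j2 : (x + 1) / 2 < (⌊(x + 1) / 2⌋₊ : ℝ) + 1 := Nat.lt_floor_add_one _
    have j3 : (1 : ℝ) ≤ (⌊(x + 1) / 2⌋₊ : ℝ) := by
      have : 1 ≤ ⌊(x + 1) / 2⌋₊ := Nat.le_floor (by push_cast; linarith)
      exact_mod_cast this
    generalize ⌊(x + 1) / 2⌋₊ = J at j1 j2 j3
    obtain ⟨e, e1, e2⟩ := shells h (lam := lam) (r := r / 2) (by linarith) (by linarith) hS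
      (hk ▸ hi) J (R := R / 2) (by linarith) (fun j hj => by
        have : (j : ℝ) + 1 ≤ J := by exact_mod_cast hj
        rw [hx2]
        nlinarith)
    have hp := pack h (r := r / 2) (R := R) (by linarith) (by linarith) h3 (T ×ˢ Finset.range J)
      (fun p => g p.1 * e p.2) (fun p hp => by
        obtain ⟨a1, a2⟩ := Finset.mem_product.1 hp
        have := h.mul (g p.1) (e p.2)
        have := (hg _ a1).2
        have := (e1 _ (Finset.mem_range.1 a2)).2
        linarith) (fun p hp p' hp' hne => by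
        obtain ⟨a1, a2⟩ := Finset.mem_product.1 hp
        obtain ⟨a3, a4⟩ := Finset.mem_product.1 hp'
        rw [Finset.mem_range] at a2 a4
        by_cases hc : p.1 = p'.1
        · have a5 : p.2 ≠ p'.2 := fun h' => hne (Prod.ext hc h')
          have a6 : (g p.1 * e p.2)⁻¹ * (g p'.1 * e p'.2) = (e p.2)⁻¹ * e p'.2 := by
            rw [hc]; group
          rw [a6]
          exact e2 _ a2 _ a4 a5
        · have a5 := not_lt.1 (t2 _ a1 _ a3 hc)
          have a6 := qn_le h f ((g p.1 * e p.2)⁻¹ * (g p'.1 * e p'.2))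
          have a7 : f (e p.2) = 1 := MonoidHom.mem_ker.1 (hk ▸ (e1 _ a2).1)
          have a8 : f (e p'.2) = 1 := MonoidHom.mem_ker.1 (hk ▸ (e1 _ a4).1)
          rw [map_mul, map_inv, map_mul, map_mul, a7, a8, (hg _ a1).1, (hg _ a3).1, mul_one,
            mul_one] at a6
          linarith)
    have e3 : R / (r / 2 / 2) = 4 * x := by
      rw [div_eq_iff (by positivity), hx2]
      ring
    rw [e3, Finset.card_product, Finset.card_range, Nat.cast_mul] at hp
    rw [← hx]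
    have h4 : (T.card : ℝ) * x ≤ 3 * 4 ^ (d + 1) * C * x ^ d * x := by
      have a1 : (0 : ℝ) ≤ T.card := Nat.cast_nonneg _
      calc (T.card : ℝ) * x ≤ T.card * (3 * J) :=
            mul_le_mul_of_nonneg_left (by linarith) a1
        _ = 3 * (T.card * J) := by ring
        _ ≤ 3 * (C * (4 * x) ^ (d + 1)) := by linarith
        _ = _ := by ring
    exact le_of_mul_le_mul_right h4 (by linarith)
  · rw [eq_top_iff, ← hq.gen]
    refine Subgroup.closure_mono fun q (h' : qn f ν q < δ) => ?_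
    show 2 * qn f ν q < 2 * lam
    linarith

theorem zero (C : ℝ) :
    ∃ δ > (0 : ℝ), ∀ (Q : Type) [Group Q] (ν : Q → ℝ), NG Q ν C 0 δ → Finite Q := by
  have hn : (0 : ℝ) ≤ ⌈C⌉₊ := Nat.cast_nonneg _
  have hC := Nat.le_ceil C
  generalize ⌈C⌉₊ = n at hn hC
  obtain ⟨δ, hδ, h1⟩ : ∃ δ : ℝ, 0 < δ ∧ (2 * (n : ℝ) + 1) * (2 * δ) = 1 :=
    ⟨1 / (2 * (2 * n + 1)), by positivity, by field_simp⟩
  refine ⟨δ, hδ, fun Q _ ν h => ?_⟩
  by_contra hc
  have hi : Infinite (Subgroup.closure {g | ν g < δ}) := by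
    rw [h.gen]
    have := not_finite_iff_infinite.1 hc
    exact Infinite.of_injective _ Subgroup.topEquiv.symm.injective
  obtain ⟨e, e1, e2⟩ := shells h (r := 2 * δ) hδ (by linarith) (fun g hg => hg) hi (n + 1)
    (R := 1) le_rfl (fun j hj => by
      have : (j : ℝ) ≤ n := by exact_mod_cast Nat.lt_succ_iff.1 hj
      nlinarith)
  have hp := pack h (r := 2 * δ) (R := 1) (by linarith) (by nlinarith) le_rfl
    (Finset.range (n + 1)) e (fun j hj => (e1 j (Finset.mem_range.1 hj)).2)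
    (fun j hj k hk => e2 j (Finset.mem_range.1 hj) k (Finset.mem_range.1 hk))
  rw [Finset.card_range, pow_zero] at hp
  push_cast at hp
  linarith

end Ng

theorem ngS : NgS where
  mono := fun _ _ _ _ _ _ _ h h' => Ng.mono h h'
  fg := fun _ _ _ _ _ _ h h' => Group.fg_iff.2
    ⟨_, h.gen, h.fin.subset fun _ hg => lt_of_lt_of_le hg h'⟩
  quo := fun _ _ _ _ _ _ _ _ _ hf h => Ng.quo h hf
  sub := fun _ _ _ _ _ _ _ _ h h1 h2 => Ng.sub h h1 h2
  drop := fun _ _ _ _ _ _ _ _ _ _ _ hf h h1 h2 h3 h4 => Ng.drop h hf h1 h2 h3 h4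
  zero := Ng.zero

end Pool.Agent.Lib.MP_813db1_ag.AS
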