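import Pool.Agent.Lib.MP_813db1_ag.AS.StmtG
import Pool.Agent.Lib.MP_bbd4b9_ag.HR.Mc

/-! Groups all of whose rational linear images are finite: commensurated abelian subgroups. -/

namespace Pool.Agent.Lib.MP_813db1_ag.AS

namespace GD

open Subgroup
open scoped TensorProduct Pointwise

/-- homomorphisms from finite index subgroups to rational linear groups have finite image. -/
def Lf (G : Type) [Group G] : Prop := FinRep G

variable {G : Type} [Group G]

/-- the conjugate subgroup of the elements `x` with `g * x * g⁻¹` in `N`. -/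
def cj (g : G) (N : Subgroup G) : Subgroup G := N.comap (MulAut.conj g).toMonoidHom

theorem mem_cj {g x : G} {N : Subgroup G} : x ∈ cj g N ↔ g * x * g⁻¹ ∈ N := Iff.rfl

/-- commensurated subgroups. -/
def Cm (N : Subgroup G) : Prop := ∀ g : G, (cj g N).relIndex N ≠ 0

theorem Lf.ker (hL : Lf G) (H : Subgroup G) (hH : H.FiniteIndex) {V : Type} [AddCommGroup V]
    [Module ℚ V] [Module.Finite ℚ V] (ρ : H →* Module.End ℚ V) : ρ.ker.FiniteIndex := by
  let e := LinearMap.toMatrixAlgEquiv (Module.finBasis ℚ V)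
  let σ : H →* GL (Fin (Module.finrank ℚ V)) ℚ := (e.toMonoidHom.comp ρ).toHomUnits
  have h1 : Finite σ.range := (hL H hH _ σ).to_subtype
  have h2 : σ.ker ≤ ρ.ker := fun x hx => by
    have h3 : e (ρ x) = 1 := congrArg Units.val (MonoidHom.mem_ker.1 hx)
    exact MonoidHom.mem_ker.2 (e.injective (h3.trans (map_one e).symm))
  exact finiteIndex_of_le h2

theorem Lf.quot {Q : Type} [Group Q] (hL : Lf G) (f : G →* Q) (hf : Function.Surjective f) :
    Lf Q := fun H hH r ρ => by
  have h1 : (H.comap f).FiniteIndex := ⟨by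
    rw [index_comap_of_surjective _ hf]; exact hH.index_ne_zero⟩
  refine (hL _ h1 r (ρ.comp (f.subgroupComap H))).subset ?_
  rintro _ ⟨x, rfl⟩
  obtain ⟨g, hg⟩ := hf x
  exact ⟨⟨g, show f g ∈ H from hg ▸ x.2⟩, congrArg ρ (Subtype.ext hg)⟩

section ten

variable {B : Type} [CommGroup B]

/-- the class of an element in the rational vector space spanned by the group. -/
noncomputable def tn (b : B) : ℚ ⊗[ℤ] Additive B := (1 : ℚ) ⊗ₜ Additive.ofMul b

theorem tn_mul (a b : B) : tn (a * b) = tn a + tn b := by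
  simp only [tn, ofMul_mul, TensorProduct.tmul_add]

theorem tn_pow (a : B) (k : ℕ) : tn (a ^ k) = (k : ℚ) • tn a := by
  induction k with
  | zero => simp [tn]
  | succ k ih => rw [pow_succ, tn_mul, ih, Nat.cast_succ, add_smul, one_smul]

theorem tn_eq {a b : B} (h : tn a = tn b) : ∃ k : ℕ, 0 < k ∧ a ^ k = b ^ k := by
  have h1 : TensorProduct.mk ℤ ℚ (Additive B) 1 (Additive.ofMul a - Additive.ofMul b) = 0 := by
    rw [map_sub]; exact sub_eq_zero.2 h
  obtain ⟨s, hs⟩ := (IsLocalizedModule.eq_zero_iff (nonZeroDivisors ℤ) _).1 h1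
  have h2 : (s : ℤ) ≠ 0 := nonZeroDivisors.coe_ne_zero s
  have h3 : a ^ (s : ℤ) = b ^ (s : ℤ) := by
    have h4 : (s : ℤ) • Additive.ofMul a = (s : ℤ) • Additive.ofMul b := by
      rw [← sub_eq_zero, ← smul_sub]; exact hs
    exact congrArg Additive.toMul h4
  refine ⟨(s : ℤ).natAbs, Int.natAbs_pos.2 h2, ?_⟩
  rcases Int.natAbs_eq (s : ℤ) with h5 | h5
  · rw [← zpow_natCast, ← zpow_natCast, ← h5, h3]
  · rw [h5, zpow_neg, zpow_neg, inv_inj, zpow_natCast, zpow_natCast] at h3; exact h3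

theorem tn_ext {W : Type} [AddCommGroup W] [Module ℚ W] {f g : ℚ ⊗[ℤ] Additive B →ₗ[ℚ] W}
    (h : ∀ b, f (tn b) = g (tn b)) : f = g := by
  refine TensorProduct.AlgebraTensorModule.ext fun x y => ?_
  have h1 : x ⊗ₜ[ℤ] y = x • tn (Additive.toMul y) := by
    simp [tn, TensorProduct.smul_tmul']
  rw [h1, map_smul, map_smul, h]

theorem tn_fin (hB : Group.FG B) : Module.Finite ℚ (ℚ ⊗[ℤ] Additive B) := by
  have : Module.Finite ℤ (Additive B) := Module.Finite.iff_addGroup_fg.2 inferInstance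
  infer_instance

end ten

/-- homomorphisms to commutative groups are virtually trivial. -/
theorem Lf.comm (hG : Group.FG G) (hL : Lf G) (H : Subgroup G) (hH : H.FiniteIndex) {A : Type}
    [CommGroup A] (φ : H →* A) : φ.ker.FiniteIndex := by
  have h1 : Group.FG φ.range := Group.fg_range φ
  have h2 := tn_fin h1
  let ψ := φ.rangeRestrict
  let ρ : H →* Module.End ℚ ((ℚ ⊗[ℤ] Additive φ.range) × ℚ) :=
    { toFun := fun h => 1 + (LinearMap.inl ℚ _ ℚ).comp
        ((LinearMap.toSpanSingleton ℚ _ (tn (ψ h))).comp (LinearMap.snd ℚ _ ℚ))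
      map_one' := by
        have : tn (1 : φ.range) = 0 := by simp [tn]
        rw [map_one, this]; ext <;> simp
      map_mul' := fun a b => by
        rw [map_mul, tn_mul]
        refine LinearMap.ext fun v => ?_
        ext <;> simp [add_comm, add_left_comm] }
  have h3 := hL.ker H hH ρ
  have h4 : IsMulTorsion φ.range := fun b => by
    obtain ⟨h, rfl⟩ := φ.rangeRestrict_surjective b
    obtain ⟨k, k1, -, k2⟩ := exists_pow_mem_of_index_ne_zero h3.index_ne_zero h
    have h5 := congrArg Prod.fst (LinearMap.congr_fun (MonoidHom.mem_ker.1 k2) (0, 1))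
    have h6 : tn (ψ (h ^ k)) = tn 1 := by simpa [ρ, tn] using h5
    obtain ⟨l, l1, l2⟩ := tn_eq h6
    rw [map_pow, ← pow_mul, one_pow] at l2
    exact isOfFinOrder_iff_pow_eq_one.2 ⟨_, Nat.mul_pos k1 l1, l2⟩
  have h5 : Finite φ.range := CommGroup.finite_of_fg_isMulTorsion _ h4
  infer_instance

/-- the elements with finitely many conjugates. -/
def fc (G : Type) [Group G] : Subgroup G where
  carrier := {x | (centralizer {x}).FiniteIndex}
  one_mem' := by
    have : centralizer ({1} : Set G) = ⊤ := by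
      ext x; simp [mem_centralizer_singleton_iff]
    show (centralizer {1}).FiniteIndex
    rw [this]; infer_instance
  mul_mem' := fun {a b} ha hb => by
    have h1 : (centralizer {a}).FiniteIndex := ha
    have h2 : (centralizer {b}).FiniteIndex := hb
    refine finiteIndex_of_le (H := centralizer {a} ⊓ centralizer {b}) fun x hx => ?_
    have h3 := mem_centralizer_singleton_iff.1 hx.1
    have h4 := mem_centralizer_singleton_iff.1 hx.2
    rw [mem_centralizer_singleton_iff, ← mul_assoc, h3, mul_assoc, h4, mul_assoc]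
  inv_mem' := fun {a} ha => by
    have h1 : (centralizer {a}).FiniteIndex := ha
    refine finiteIndex_of_le (H := centralizer {a}) fun x hx => ?_
    have h3 : Commute x a := mem_centralizer_singleton_iff.1 hx
    exact mem_centralizer_singleton_iff.2 h3.inv_right

theorem mem_fc {x : G} : x ∈ fc G ↔ (centralizer {x}).FiniteIndex := Iff.rfl

theorem cent_cj (g x : G) : centralizer {g * x * g⁻¹} = cj g⁻¹ (centralizer {x}) := by
  ext y
  rw [mem_cj, mem_centralizer_singleton_iff, mem_centralizer_singleton_iff, inv_inv]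
  constructor
  · intro h
    calc g⁻¹ * y * g * x = g⁻¹ * (y * (g * x * g⁻¹)) * g := by group
      _ = x * (g⁻¹ * y * g) := by rw [h]; group
  · intro h
    calc y * (g * x * g⁻¹) = g * (g⁻¹ * y * g * x) * g⁻¹ := by group
      _ = g * x * g⁻¹ * y := by rw [h]; group

instance fc_normal : (fc G).Normal := ⟨fun x hx g => by
  rw [mem_fc, cent_cj]
  exact ⟨by
    rw [cj, index_comap_of_surjective _ (MulAut.conj g⁻¹).surjective]
    exact (mem_fc.1 hx).index_ne_zero⟩⟩

theorem fc_iff {x : G} : x ∈ fc G ↔ {v | IsConj x v}.Finite := by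
  constructor
  · intro h
    have h1 := mem_fc.1 h
    refine (Set.finite_range fun q : G ⧸ centralizer {x} => q.out * x * q.out⁻¹).subset ?_
    intro v hv
    obtain ⟨g, rfl⟩ := isConj_iff.1 hv
    obtain ⟨c, hc⟩ := QuotientGroup.mk_out_eq_mul (centralizer {x}) g
    refine ⟨(g : G ⧸ centralizer {x}), ?_⟩
    have h2 := mem_centralizer_singleton_iff.1 c.2
    show _ * x * _ = _
    rw [hc]
    calc g * c * x * (g * c)⁻¹ = g * (c * x) * (c : G)⁻¹ * g⁻¹ := by group
      _ = g * x * g⁻¹ := by rw [h2]; group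
  · intro h
    obtain ⟨C, h1, h2⟩ := MP_bbd4b9_ag.HR.Mc.cent x h
    exact finiteIndex_of_le (H := C) fun c hc =>
      mem_centralizer_singleton_iff.2 (h2 c hc x (subset_normalClosure rfl))

/-- a finite set of elements whose centralisers have finite relative index. -/
theorem cent_fin {S : Set G} (hS : S.Finite) (N : Subgroup G)
    (h : ∀ s ∈ S, (centralizer {s}).relIndex N ≠ 0) : (centralizer S).relIndex N ≠ 0 := by
  induction S, hS using Set.Finite.induction_on with
  | empty =>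
    have : centralizer (∅ : Set G) = ⊤ := eq_top_iff.2 fun _ _ _ h => h.elim
    rw [this]; simp
  | @insert a S _ _ ih =>
    have h1 := relIndex_inf_ne_zero (h a (Or.inl rfl)) (ih fun s hs => h s (Or.inr hs))
    refine fun h0 => h1 (relIndex_eq_zero_of_le_left (fun x hx => ?_) h0)
    rintro y (rfl | hy)
    · exact hx.1 y rfl
    · exact hx.2 y hy

/-- step D1, for an embedded commutative group. -/
theorem d1' (hG : Group.FG G) (hL : Lf G) {B : Type} [CommGroup B] (hB : Group.FG B)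
    [Infinite B] (j : B →* G) (hj : Function.Injective j)
    (hm : ∀ q : G, ∃ m : ℕ, 0 < m ∧ ∀ b, q * j b ^ m * q⁻¹ ∈ j.range) :
    ∃ b, ¬ IsOfFinOrder (j b) ∧ j b ∈ fc G := by
  have h0 : ∀ q : G, ∃ m : ℕ, 0 < m ∧ ∃ φ : B →* B, ∀ b, j (φ b) = q * j b ^ m * q⁻¹ := fun q => by
    obtain ⟨m, m1, m2⟩ := hm q
    let ψ : B →* G := (MulAut.conj q).toMonoidHom.comp (j.comp (powMonoidHom m))
    have h1 : ∀ b, ψ b = q * j b ^ m * q⁻¹ := fun b => by simp [ψ]
    refine ⟨m, m1, (MonoidHom.ofInjective hj).symm.toMonoidHom.comp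
      (ψ.codRestrict j.range fun b => h1 b ▸ m2 b), fun b => ?_⟩
    rw [← h1]
    exact MonoidHom.apply_ofInjective_symm hj _
  choose m m1 φ hφ using h0
  have h2 := tn_fin hB
  let r : G → Module.End ℚ (ℚ ⊗[ℤ] Additive B) := fun q =>
    (m q : ℚ)⁻¹ • LinearMap.baseChange ℚ (MonoidHom.toAdditive (φ q)).toIntLinearMap
  have h3 : ∀ q b, r q (tn b) = (m q : ℚ)⁻¹ • tn (φ q b) := fun q b => by simp [r, tn]
  have h4 : ∀ q a b (k : ℕ), j b = q * j a ^ k * q⁻¹ → (k : ℚ) • r q (tn a) = tn b := by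
    intro q a b k h
    have h5 : φ q a ^ k = b ^ m q := hj (by
      rw [map_pow, map_pow, hφ, h, conj_pow, conj_pow, ← pow_mul, ← pow_mul, mul_comm k])
    have h6 : (m q : ℚ) ≠ 0 := Nat.cast_ne_zero.2 (m1 q).ne'
    rw [h3, smul_comm, ← tn_pow, h5, tn_pow, smul_smul, inv_mul_cancel₀ h6, one_smul]
  let ρ : G →* Module.End ℚ (ℚ ⊗[ℤ] Additive B) :=
    { toFun := r
      map_one' := tn_ext fun b => by simpa using h4 1 b b 1 (by simp)
      map_mul' := fun p q => tn_ext fun b => by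
        have h6 : ((m q * m p : ℕ) : ℚ) ≠ 0 := Nat.cast_ne_zero.2 (Nat.mul_pos (m1 q) (m1 p)).ne'
        refine smul_right_injective _ h6 ?_
        have h7 := h4 (p * q) b (φ p (φ q b)) (m q * m p) (by
          rw [hφ, hφ, conj_pow, ← pow_mul]; group)
        show _ • _ = _ • r p (r q (tn b))
        rw [h7, Nat.cast_mul, mul_comm, mul_smul, ← map_smul, h4 q b _ _ (hφ q b),
          h4 p _ _ _ (hφ p _)] }
  have h5 := hL.ker ⊤ inferInstance (ρ.comp (⊤ : Subgroup G).subtype)
  have h6 : ρ.ker.FiniteIndex := ⟨fun h => h5.index_ne_zero (by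
    rw [← MonoidHom.comap_ker, index_comap_of_surjective _
      (fun x => ⟨⟨x, mem_top x⟩, rfl⟩)]; exact h)⟩
  obtain ⟨b, hb⟩ : ∃ b : B, ¬ IsOfFinOrder b := by
    by_contra h
    have := CommGroup.finite_of_fg_isMulTorsion B fun b => not_not.1 fun h' => h ⟨b, h'⟩
    exact not_finite B
  have h7 : ∀ q ∈ ρ.ker, ∃ k : ℕ, 0 < k ∧ Commute q (j b ^ k) := fun q hq => by
    have h8 := h4 q b _ _ (hφ q b)
    have h9 : r q = 1 := MonoidHom.mem_ker.1 hq
    rw [h9, Module.End.one_apply, ← tn_pow] at h8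
    obtain ⟨k, k1, k2⟩ := tn_eq h8
    refine ⟨m q * k, Nat.mul_pos (m1 q) k1, ?_⟩
    have h10 := congrArg j k2
    rw [map_pow, map_pow, map_pow, hφ, conj_pow, ← pow_mul] at h10
    exact mul_inv_eq_iff_eq_mul.1 h10.symm
  obtain ⟨S, s1, s2⟩ := (fg_iff _).1 ((Group.fg_iff_subgroup_fg ρ.ker).1 inferInstance)
  have h8 : ∀ T : Set G, T.Finite → T ⊆ ρ.ker → ∃ k : ℕ, 0 < k ∧ ∀ q ∈ T, Commute q (j b ^ k) := by
    intro T hT
    induction T, hT using Set.Finite.induction_on with
    | empty => exact fun _ => ⟨1, one_pos, fun _ h => h.elim⟩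
    | @insert a T _ _ ih =>
      intro h
      obtain ⟨k, k1, k2⟩ := ih fun x hx => h (Or.inr hx)
      obtain ⟨l, l1, l2⟩ := h7 a (h (Or.inl rfl))
      refine ⟨k * l, Nat.mul_pos k1 l1, ?_⟩
      rintro q (rfl | hq)
      · rw [mul_comm, pow_mul]; exact l2.pow_right k
      · rw [pow_mul]; exact (k2 q hq).pow_right l
  obtain ⟨k, k1, k2⟩ := h8 S s2 (s1 ▸ subset_closure)
  refine ⟨b ^ k, fun h => hb ?_, finiteIndex_of_le (H := ρ.ker) ?_⟩
  · exact (hj.isOfFinOrder_iff.1 h).of_pow k1.ne'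
  · rw [← s1, closure_le, map_pow]
    exact fun q hq => mem_centralizer_singleton_iff.2 (k2 q hq)

/-- step D1. -/
theorem d1 (hG : Group.FG G) (hL : Lf G) (A : Subgroup G) (hi : Infinite A) (hf : A.FG)
    (hc : ∀ a ∈ A, ∀ b ∈ A, a * b = b * a) (hm : Cm A) :
    ∃ a ∈ A, ¬ IsOfFinOrder a ∧ a ∈ fc G := by
  letI : CommGroup A :=
    { (inferInstance : Group A) with mul_comm := fun a b => Subtype.ext (hc a a.2 b b.2) }
  obtain ⟨b, h1, h2⟩ := d1' hG hL ((Group.fg_iff_subgroup_fg A).2 hf) A.subtype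
    A.subtype_injective fun q => ⟨((cj q A).relIndex A).factorial, Nat.factorial_pos _, fun b => by
      rw [range_subtype]
      exact (pow_mem_of_relIndex_ne_zero_of_dvd (hm q) b.2
        fun m m1 m2 => Nat.dvd_factorial m1 m2).1⟩
  exact ⟨b, b.2, h1, h2⟩

theorem cj_eq (g : G) (A : Subgroup G) : cj g A = MulAut.conj g⁻¹ • A := by
  ext x
  rw [mem_cj, mem_pointwise_smul_iff_inv_smul_mem]
  simp

theorem cm_iff {A : Subgroup G} : Cm A ↔ Cmn A := by
  refine ⟨fun h g => ⟨?_, ?_⟩, fun h g => cj_eq g A ▸ (h g⁻¹).1⟩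
  · have := h g⁻¹
    rwa [cj_eq, inv_inv] at this
  · have := h g
    rwa [cj, relIndex_comap] at this

end GD

theorem repS : RepS := fun _ _ A hG hL hf hc hm hi => by
  obtain ⟨a, h1, h2, h3⟩ := GD.d1 hG hL A hi hf
    (fun a ha b hb => congrArg Subtype.val (hc.is_comm.comm (⟨a, ha⟩ : A) ⟨b, hb⟩))
    (GD.cm_iff.2 hm)
  exact ⟨a, h1, h2, GD.fc_iff.1 h3⟩

end Pool.Agent.Lib.MP_813db1_ag.AS
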