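import Pool.Agent.Lib.MP_813db1_ag.AS.StmtG

/-! The rank of a group, measured by chains of subgroups. -/

namespace Pool.Agent.Lib.MP_813db1_ag.AS

open Subgroup
open scoped Pointwise Classical

namespace Rk0

variable {Q : Type} [Group Q]

theorem of_cover {H K : Subgroup Q} {F : Set Q} (hF : F.Finite)
    (h : ∀ x ∈ K, ∃ y ∈ F, y⁻¹ * x ∈ H) : H.relIndex K ≠ 0 := by
  let φ : K ⧸ H.subgroupOf K → Q ⧸ H := fun q => ((q.out : K) : Q)
  have h1 : Function.Injective φ := fun p q e => by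
    rw [← QuotientGroup.out_eq' p, ← QuotientGroup.out_eq' q]
    exact QuotientGroup.eq.2 (QuotientGroup.eq.1 e : _ ∈ H)
  have h2 : (Set.range φ).Finite := (hF.image QuotientGroup.mk).subset (by
    rintro _ ⟨q, rfl⟩
    obtain ⟨y, y1, y2⟩ := h q.out q.out.2
    exact ⟨y, y1, QuotientGroup.eq.2 y2⟩)
  have := h2.to_subtype
  have : Finite (K ⧸ H.subgroupOf K) := Finite.of_injective_finite_range h1
  exact index_ne_zero_of_finite

theorem cover {H K : Subgroup Q} (h : H.relIndex K ≠ 0) :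
    ∃ F : Set Q, F.Finite ∧ (∀ y ∈ F, y ∈ K) ∧ ∀ x ∈ K, ∃ y ∈ F, y⁻¹ * x ∈ H := by
  have : Finite (K ⧸ H.subgroupOf K) := Nat.finite_of_card_ne_zero h
  refine ⟨Set.range fun q : K ⧸ H.subgroupOf K => ((q.out : K) : Q), Set.finite_range _, ?_,
    fun x hx => ⟨_, ⟨((⟨x, hx⟩ : K) : K ⧸ H.subgroupOf K), rfl⟩, ?_⟩⟩
  · rintro _ ⟨q, rfl⟩
    exact q.out.2
  · exact (QuotientGroup.eq.1
      (QuotientGroup.out_eq' ((⟨x, hx⟩ : K) : K ⧸ H.subgroupOf K)) : _ ∈ H.subgroupOf K)

theorem of_finite {H K : Subgroup Q} (h : Finite K) : H.relIndex K ≠ 0 :=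
  index_ne_zero_of_finite

theorem ext {Q' : Type} [Group Q'] (f : Q →* Q') {H K : Subgroup Q} (h : H ≤ K)
    (h1 : (H ⊓ f.ker).relIndex (K ⊓ f.ker) ≠ 0) (h2 : (H.map f).relIndex (K.map f) ≠ 0) :
    H.relIndex K ≠ 0 := by
  obtain ⟨A, a1, -, a3⟩ := cover h1
  obtain ⟨B, b1, b2, b3⟩ := cover h2
  choose! l l1 l2 using b2
  refine of_cover ((b1.image l).mul a1) fun x hx => ?_
  obtain ⟨y, y1, z, z1, z2⟩ := b3 (f x) ⟨x, hx, rfl⟩
  obtain ⟨w, w1, w2⟩ := a3 ((l y)⁻¹ * x * z⁻¹) ⟨K.mul_mem (K.mul_mem (K.inv_mem (l1 y y1)) hx)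
    (K.inv_mem (h z1)), by
      show f _ = 1
      rw [map_mul, map_mul, map_inv, map_inv, l2 y y1, z2, mul_inv_cancel]⟩
  refine ⟨l y * w, Set.mul_mem_mul ⟨y, y1, rfl⟩ w1, ?_⟩
  have h3 := H.mul_mem w2.1 z1
  rwa [show w⁻¹ * ((l y)⁻¹ * x * z⁻¹) * z = (l y * w)⁻¹ * x by group] at h3

theorem cyc {u : Q} {H : Subgroup Q} (h : H ≤ zpowers u) (h0 : H.relIndex (zpowers u) = 0) :
    H = ⊥ := by
  refine (eq_bot_iff_forall H).2 fun x hx => ?_
  obtain ⟨k, rfl⟩ := mem_zpowers_iff.1 (h hx)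
  by_contra h1
  have h2 : k ≠ 0 := fun e => h1 (by rw [e, zpow_zero])
  refine of_cover (((Set.finite_Ico (0 : ℤ) |k|).image fun i => u ^ i)) (fun y hy => ?_) h0
  obtain ⟨i, rfl⟩ := mem_zpowers_iff.1 hy
  refine ⟨_, ⟨i % k, ⟨Int.emod_nonneg _ h2, Int.emod_lt_abs _ h2⟩, rfl⟩, ?_⟩
  have h3 : (u ^ (i % k))⁻¹ * u ^ i = (u ^ k) ^ (i / k) := by
    rw [← zpow_neg, ← zpow_add, ← zpow_mul]
    congr 1
    have := Int.emod_add_mul_ediv i k
    omega
  rw [h3]
  exact H.zpow_mem hx _

end Rk0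

theorem rkS : RkS where
  fin := fun Q _ K hK s T h0 ha h => by
    rw [Nat.le_zero, Finset.card_eq_zero, Finset.eq_empty_iff_forall_notMem]
    intro i hi
    have h1 : s i ≤ K := (ha (Nat.zero_le i)).trans h0
    exact Rk0.of_finite (Finite.of_injective _ (inclusion_injective h1)) (h i hi)
  cyc := fun Q _ u s T h0 ha h => by
    have h1 : ∀ i ∈ T, ∀ j ∈ T, ¬ i < j := fun i hi j hj hij => by
      have h2 : s (i + 1) = ⊥ := Rk0.cyc ((ha (Nat.zero_le _)).trans h0)
        (relIndex_eq_zero_of_le_right ((ha (Nat.zero_le _)).trans h0) (h i hi))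
      have h3 : s j = ⊥ := le_bot_iff.1 (h2 ▸ ha hij)
      exact Rk0.of_finite (h3 ▸ inferInstance) (h j hj)
    exact Finset.card_le_one.2 fun i hi j hj =>
      le_antisymm (not_lt.1 (h1 j hj i hi)) (not_lt.1 (h1 i hi j hj))
  ext := fun Q Q' _ _ f a b h1 h2 s T _ ha h => by
    let p : ℕ → Prop := fun i => (s (i + 1) ⊓ f.ker).relIndex (s i ⊓ f.ker) = 0
    have h3 := h1 (fun i => s i ⊓ f.ker) (T.filter p) inf_le_right
      (fun i j hij => inf_le_inf_right _ (ha hij)) fun i hi => (Finset.mem_filter.1 hi).2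
    have h4 := h2 (fun i => (s i).map f) (T.filter fun i => ¬ p i) le_top
      (fun i j hij => map_mono (ha hij)) fun i hi => by
        by_contra h5
        exact Rk0.ext f (ha (Nat.le_succ i)) (Finset.mem_filter.1 hi).2 h5
          (h i (Finset.mem_filter.1 hi).1)
    have h5 := Finset.card_filter_add_card_filter_not (s := T) p
    omega
  top := fun Q _ K n => by
    refine ⟨fun h s T h0 ha h1 => ?_, fun h s T _ ha h1 => ?_⟩
    · refine h (fun i => (s i).subgroupOf K) T le_top (fun i j hij => comap_mono (ha hij))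
        fun i hi => ?_
      rw [relIndex_subgroupOf ((ha (Nat.zero_le i)).trans h0)]
      exact h1 i hi
    · refine h (fun i => (s i).map K.subtype) T (map_subtype_le _)
        (fun i j hij => map_mono (ha hij)) fun i hi => ?_
      rw [relIndex_map_map_of_injective _ _ K.subtype_injective]
      exact h1 i hi
  virt := fun Q _ K K' n h0 h s T h1 ha h2 => by
    refine h (fun i => s i ⊓ K) T inf_le_right (fun i j hij => inf_le_inf_right _ (ha hij))
      fun i hi => ?_
    by_contra h3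
    have h4 : (s i ⊓ K).relIndex (s i) ≠ 0 := by
      rw [inf_relIndex_left]
      exact fun e => h0 (relIndex_eq_zero_of_le_right ((ha (Nat.zero_le i)).trans h1) e)
    exact relIndex_ne_zero_trans h3 h4 (relIndex_eq_zero_of_le_left inf_le_left (h2 i hi))
  lt := fun Q _ K K' n h0 h1 => by
    have key : ∀ s : ℕ → Subgroup Q, s 0 ≤ K' → Antitone s →
        Antitone fun i : ℕ => (Nat.casesOn i K s : Subgroup Q) := fun s s0 ha =>
      antitone_nat_of_succ_le fun i => by
        cases i with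
        | zero => exact s0.trans h0
        | succ i => exact ha (Nat.le_succ i)
    refine ⟨fun h s T s0 ha h2 => ?_, fun h => ?_⟩
    · have h3 := h _ (insert 0 (T.image Nat.succ)) le_rfl (key s s0 ha) fun i hi => by
        rcases Finset.mem_insert.1 hi with rfl | hi
        · exact relIndex_eq_zero_of_le_left s0 h1
        · obtain ⟨j, hj, rfl⟩ := Finset.mem_image.1 hi
          exact h2 j hj
      rw [Finset.card_insert_of_notMem (by simp),
        Finset.card_image_of_injective _ Nat.succ_injective] at h3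
      omega
    · have h3 := h _ {0} le_rfl (key (fun _ => K') le_rfl antitone_const) fun i hi => by
        rw [Finset.mem_singleton.1 hi]
        exact h1
      simp at h3
  conj := fun Q _ K g n h s T h0 ha h1 => by
    refine h (fun i => (s i).comap (MulAut.conj g).toMonoidHom) T
      (fun x hx => smul_mem_pointwise_smul_iff.1 (h0 hx)) (fun i j hij => comap_mono (ha hij))
      fun i hi => ?_
    rw [relIndex_comap, map_comap_eq_self_of_surjective (MulAut.conj g).surjective]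
    exact h1 i hi
  mono := fun Q _ K n n' h h1 s T h0 ha h2 => (h1 s T h0 ha h2).trans h

end Pool.Agent.Lib.MP_813db1_ag.AS
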