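import Pool.Agent.Lib.MP_813db1_ag.AS.StmtG

/-! The choice of the scale. -/

namespace Pool.Agent.Lib.MP_813db1_ag.AS

open Set Metric Subgroup
open scoped Pointwise Classical

namespace Sc

theorem step (h1 : GeoS) (C : ℝ) (m : ℕ) (R r : ℝ) (hr : 0 < r) : ∃ r', 0 < r' ∧ r' ≤ r ∧
    ∀ (G Y : Type) [Group G] [MulAction G Y] [PseudoMetricSpace Y] (δ D : ℝ), Geo G Y C m δ D →
      δ ≤ 1 / 2 → ∀ x y : Y, dist x y ≤ R → (Hs G y r).relIndex (Hs G x r') ≠ 0 := by
  obtain ⟨N, hN⟩ := h1.chain C m (2 * R + 1) (r / 2) (half_pos hr)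
  have p : 0 < min r (1 / ((N : ℝ) + 1)) := lt_min hr (by positivity)
  refine ⟨_, p, min_le_left _ _, fun G Y _ _ _ δ D g hδ x y h => ?_⟩
  obtain ⟨T, t1, t2⟩ := hN G Y δ D g hδ y
  refine h1.cos G Y C m δ D g x y R r _ T h p ?_ t2
  have : (T.card : ℝ) ≤ N + 1 := by exact_mod_cast t1.trans N.le_succ
  calc _ ≤ 1 / ((N : ℝ) + 1) * (N + 1) := by gcongr; exact min_le_right _ _
    _ = 1 := by field_simp

theorem stab (M : ℕ → ℕ) (h : Antitone M) : ∃ j ≤ M 0, M (2 * j + 2) = M (2 * j) := by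
  by_contra! n
  have : ∀ j ≤ M 0 + 1, M (2 * j) + j ≤ M 0 := fun j hj => by
    induction j with
    | zero => simp
    | succ j ih =>
      have := ih (by omega)
      have := lt_of_le_of_ne (h (by omega : 2 * j ≤ 2 * j + 2)) (n j (by omega))
      rw [mul_add, mul_one]
      omega
  have := this _ le_rfl
  omega

variable {G : Type} [Group G]

theorem ri_conj (g : G) (A B : Subgroup G) :
    (MulAut.conj g • A).relIndex (MulAut.conj g • B) = A.relIndex B :=
  relIndex_map_map_of_injective A B (MulAction.injective (MulAut.conj g))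

theorem cmn {N : Subgroup G} {S : Set G} (hS : closure S = ⊤)
    (h : ∀ g ∈ S, Commensurable (MulAut.conj g • N) N) : Cmn N := fun g => by
  have c : ∀ (g : G) {A B : Subgroup G}, Commensurable A B →
      Commensurable (MulAut.conj g • A) (MulAut.conj g • B) := fun g _ _ p =>
    ⟨by rw [ri_conj]; exact p.1, by rw [ri_conj]; exact p.2⟩
  induction hS.ge (mem_top g) using closure_induction with
  | mem g p => exact h g p
  | one => simpa using Commensurable.refl N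
  | mul a b _ _ p q =>
    rw [map_mul, mul_smul]
    exact (c a q).trans p
  | inv a _ p => simpa [← mul_smul, ← map_mul] using (c a⁻¹ p).symm

theorem ri_le {A B : Subgroup G} (h : A ≤ B) : B.relIndex A ≠ 0 :=
  (relIndex_eq_one.2 h).trans_ne one_ne_zero

theorem hs_mono {Y : Type} [MulAction G Y] [PseudoMetricSpace Y] (y : Y) {r r' : ℝ} (h : r ≤ r') :
    Hs G y r ≤ Hs G y r' := closure_mono fun _ p => p.trans_le h

/-- a subgroup of the same rank has finite index. -/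
theorem ri_of (h2 : RkS) {A K : Subgroup G} {n : ℕ} (h : K.relIndex A ≠ 0) (hK : Rk K n)
    (hA : ∀ n' < n, ¬ Rk A n') : A.relIndex K ≠ 0 := fun e => by
  rw [← inf_relIndex_right] at e
  cases n with
  | zero => exact (h2.lt G K _ 0 inf_le_right e).2 hK
  | succ n =>
    exact hA n n.lt_succ_self (h2.virt G (A ⊓ K) A n (by rwa [inf_relIndex_left])
      ((h2.lt G K _ n inf_le_right e).1 hK))

end Sc

open Sc in
theorem scS (h1 : GeoS) (h2 : RkS) (h3 : MgS) : ScS := by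
  intro C D m
  obtain ⟨f, δ₀, p0, -, h3⟩ := h3 m (2 ^ m * C)
  choose! nx n1 n2 n3 using step h1 C m (2 * D + 1)
  let r : ℕ → ℝ := fun i => nx^[i] δ₀
  have rs : ∀ i, r (i + 1) = nx (r i) := fun i => Function.iterate_succ_apply' _ _ _
  have r0 : ∀ i, 0 < r i := fun i => by
    induction i with
    | zero => exact p0
    | succ i ih => exact rs i ▸ n1 _ ih
  have ra : Antitone r := antitone_nat_of_succ_le fun i => rs i ▸ n2 _ (r0 i)
  have w0 : 0 < r (2 * f + 1) / 10 := div_pos (r0 _) (by norm_num)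
  obtain ⟨N₀, hN⟩ := h1.chain C m (D + 1) _ w0
  refine ⟨_, w0, N₀, fun G Y _ _ _ ⟨y₀⟩ δ g hδ => ?_⟩
  have fg : ∀ y s, (Hs G y s).FG := fun (y : Y) s =>
    (fg_iff _).2 ⟨_, rfl, h1.fin G Y C m δ D g hδ y s⟩
  have gen := h1.gen G Y C m δ D g hδ y₀
  have cj := h1.conj G Y C m δ D g
  have mg : ∀ (y : Y) i, Group.IsVirtuallyNilpotent (Hs G y (r i)) ∧ Rk (Hs G y (r i)) f :=
    fun y i => by
      have a := h1.ng G Y C m δ D g hδ y _ (r0 i)
      have b : r i ≤ δ₀ := ra (Nat.zero_le i)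
      have := h3 _ _ ⟨p0, a.one, a.inv, a.mul, a.fin, fun s R p => a.cov s R (b.trans p),
        eq_top_iff.2 (a.gen.ge.trans (closure_mono fun _ p => p.trans_le b))⟩
      exact ⟨this.1, (h2.top G _ f).1 this.2⟩
  have nr : ∀ x y : Y, ∃ a : G, dist x (a • y) ≤ 2 * D + 1 := fun x y => by
    obtain ⟨a, ha⟩ := g.diam x y
    exact ⟨a, by linarith [dist_nonneg.trans ha]⟩
  have vi : ∀ i (x y : Y), dist x y ≤ 2 * D + 1 →
      (Hs G y (r i)).relIndex (Hs G x (r (i + 1))) ≠ 0 := fun i x y h =>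
    rs i ▸ n3 _ (r0 i) G Y δ D g hδ x y h
  have ex : ∀ i, ∃ n, ∀ y : Y, Rk (Hs G y (r i)) n := fun i => ⟨f, fun y => (mg y i).2⟩
  obtain ⟨j, j1, j2⟩ := stab (fun i => Nat.find (ex i)) fun i i' h => Nat.find_min' _ fun y =>
    h2.virt G _ _ _ (ri_le (hs_mono y (ra h))) (Nat.find_spec (ex i) y)
  have j3 : j ≤ f := j1.trans (Nat.find_min' _ fun y => (mg y 0).2)
  have co : ∀ x y : Y, dist x y ≤ 2 * D + 1 →
      Commensurable (Hs G y (r (2 * j))) (Hs G x (r (2 * j + 1))) := fun x y h =>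
    ⟨vi _ x y h, ri_of h2 (vi _ x y h) (Nat.find_spec (ex _) y) fun n hn p =>
      Nat.find_min (ex (2 * j + 2)) (hn.trans_eq j2.symm) fun z => by
        obtain ⟨a, ha⟩ := nr z x
        exact h2.virt G _ _ n (vi _ z _ ha) (cj x _ a ▸ h2.conj G _ a n p)⟩
  have d0 : ∀ y : Y, dist y y ≤ 2 * D + 1 := fun y => by
    obtain ⟨a, ha⟩ := nr y y
    exact (dist_self y).trans_le (dist_nonneg.trans ha)
  have cm : Cmn (Hs G y₀ (r (2 * j))) := cmn gen fun a ha => by
    rw [← cj]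
    exact (co _ _ (d0 _)).trans (co _ y₀ (dist_comm y₀ _ ▸ le_of_lt ha)).symm
  refine ⟨(Group.fg_def).2 (gen ▸ fg y₀ _), ?_, _, fg y₀ _, (mg y₀ _).1, cm, fun y => ?_⟩
  · obtain ⟨T, t1, t2⟩ := hN G Y δ D g hδ y₀
    obtain ⟨e⟩ := Function.Embedding.nonempty_of_card_le (α := T) (β := Fin N₀) (by simpa using t1)
    refine ⟨Function.extend e Subtype.val fun _ => y₀, fun z => ?_⟩
    obtain ⟨a, ha⟩ := g.diam y₀ z
    obtain ⟨t, t3, t4⟩ := mem_iUnion₂.1 (t2 (mem_ball'.2 (ha.trans_lt (lt_add_one D))))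
    exact ⟨e ⟨t, t3⟩, a, by rw [e.injective.extend_apply]; exact mem_ball'.1 t4⟩
  · obtain ⟨a, ha⟩ := nr y y₀
    have := (co y _ ha).1
    rw [cj] at this
    refine relIndex_ne_zero_trans (relIndex_ne_zero_trans (cm a).2 this) (ri_le (hs_mono y ?_))
    rw [mul_div_cancel₀ _ (by norm_num)]
    exact ra (by omega)

end Pool.Agent.Lib.MP_813db1_ag.AS
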