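import Pool.Agent.Lib.MP_813db1_ag.AS.StmtG
import Pool.Agent.Lib.MP_bbd4b9_ag.HR.Str

/-! Strong approximate groups in a good model of a sequence of normed groups. -/

namespace Pool.Agent.Lib.MP_813db1_ag.AS

open Filter Topology Set Pool.Agent.Lib.MP_bbd4b9_ag Pool.Agent.Lib.MP_bbd4b9_ag.HR
  Pool.Agent.Lib.MP_bbd4b9_ag.HR.StrA
open scoped Pointwise Classical

namespace StrB

/-- an eventual universal statement can be checked on sequences. -/
theorem ev_allU {α : ℕ → Type} [∀ j, Nonempty (α j)] (U : Ultrafilter ℕ) (P Q : ∀ j, α j → Prop)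
    (h : ∀ g : ∀ j, α j, (∀ᶠ j in U, P j (g j)) → ∀ᶠ j in U, Q j (g j)) :
    ∀ᶠ j in U, ∀ x, P j x → Q j x := by
  by_contra hn
  have h1 : ∀ᶠ j in U, ∃ x, P j x ∧ ¬ Q j x :=
    (Ultrafilter.eventually_not.2 hn).mono fun j hj => by
      by_contra h2
      exact hj fun x hx => by_contra fun h3 => h2 ⟨x, hx, h3⟩
  obtain ⟨g, hg⟩ := skolem.1 h1
  obtain ⟨j, h2, h3⟩ := (hg.and (h g (hg.mono fun j hj => hj.1))).exists
  exact h2.2 h3

section Mod

variable {G : ℕ → Type} [∀ j, Group (G j)] {n : ∀ j, G j → ℝ} {L : Type} [Group L]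
  [TopologicalSpace L] (M : ModU G n L)

/-- sequences with the property `P` are mapped into `O`. -/
def OutU (P : ∀ j, G j → Prop) (O : L → Prop) : Prop :=
  ∀ g : ∀ j, G j, (∀ᶠ j in M.U, P j (g j)) → ∃ h : g ∈ M.Γ, O (M.π ⟨g, h⟩)

variable {M}

theorem OutU.mono {P P' : ∀ j, G j → Prop} {O O' : L → Prop} (h : OutU M P O)
    (hP : ∀ j x, P' j x → P j x) (hO : ∀ x, O x → O' x) : OutU M P' O' := fun g hg => by
  obtain ⟨h1, h2⟩ := h g (hg.mono fun j => hP j _)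
  exact ⟨h1, hO _ h2⟩

theorem outU_one [T2Space L] : OutU M (fun _ x => x = 1) (· = 1) := by
  intro g hg
  have key : ∀ W : Set L, IsOpen W → 1 ∈ W → ∃ h : g ∈ M.Γ, M.π ⟨g, h⟩ ∈ W := by
    intro W hW h1
    obtain ⟨A, h2, h3⟩ := M.int {1} W isCompact_singleton hW (singleton_subset_iff.2 h1)
    refine h3 g ((hg.and (h2 1 (by simp))).mono fun j hj => ?_)
    rw [hj.1]
    exact hj.2
  obtain ⟨h, -⟩ := key univ isOpen_univ trivial
  refine ⟨h, by_contra fun hne => ?_⟩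
  obtain ⟨_, h2⟩ := key {M.π ⟨g, h⟩}ᶜ isOpen_compl_singleton fun e => hne (Eq.symm e)
  exact h2 rfl

theorem outU_eq [T2Space L] (a : M.Γ) : OutU M (fun j x => x = a.1 j) (· = M.π a) := by
  intro g hg
  obtain ⟨h, h1⟩ := outU_one (M := M) (a.1⁻¹ * g) (hg.mono fun j hj => by simp [hj])
  have h2 : g ∈ M.Γ := by simpa using M.Γ.mul_mem a.2 h
  refine ⟨h2, ?_⟩
  have h3 : (⟨g, h2⟩ : M.Γ) = a * ⟨_, h⟩ := Subtype.ext (by simp)
  show M.π _ = _
  rw [h3, map_mul, show M.π ⟨_, h⟩ = 1 from h1, mul_one]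

theorem OutU.pr [T2Space L] {P : ∀ j, G j → Prop} {O : L → Prop} (h : OutU M P O) (p : ℕ) :
    OutU M (fun j => Pr p (P j)) (Pr p O) := by
  have h0 : ∀ q, OutU M (fun _ x => x = 1) (Pr q O) := fun q =>
    outU_one.mono (fun _ _ h => h) fun x hx => ⟨[], by simp, by simp, hx.symm⟩
  induction p with
  | zero =>
    refine (h0 0).mono ?_ fun _ h => h
    rintro j x ⟨l, h1, -, rfl⟩
    rw [List.length_eq_zero_iff.1 (Nat.le_zero.1 h1)]
    rfl
  | succ p ih =>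
    intro g hg
    rcases Ultrafilter.eventually_or.1 (hg.mono fun j hj => pr_succ hj) with h1 | h1
    · exact h0 _ g h1
    · obtain ⟨y, hy⟩ := skolem.1 h1
      obtain ⟨ha, h2⟩ := h (fun j => (y j).1) (hy.mono fun j hj => hj.1)
      obtain ⟨hb, l, h3, h4, h5⟩ := ih (fun j => (y j).2) (hy.mono fun j hj => hj.2.1)
      obtain ⟨h6, h7⟩ := outU_eq (⟨_, ha⟩ * ⟨_, hb⟩ : M.Γ) g (hy.mono fun j hj => hj.2.2)
      refine ⟨h6, M.π ⟨_, ha⟩ :: l, by simpa using h3, ?_, ?_⟩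
      · intro a ha'
        rcases List.mem_cons.1 ha' with rfl | ha'
        · exact h2
        · exact h4 a ha'
      · rw [List.prod_cons, h5, ← map_mul]
        exact Eq.symm h7

theorem OutU.esc {B : ∀ j, Finset (G j)} {C O : Set L} (h : OutU M (fun j x => x ∈ B j) (· ∈ C))
    {T : ℕ} (hT : 1 ≤ T) (hO : ∀ x : L, (∀ i ≤ T, x ^ i ∈ C) → x ∈ O) :
    OutU M (fun j => Esc (B j) T) (· ∈ O) := by
  intro g hg
  obtain ⟨h1, -⟩ := h g (hg.mono fun j hj => by simpa using hj 1 hT)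
  refine ⟨h1, hO _ fun i hi => ?_⟩
  obtain ⟨h2, h3⟩ := h (g ^ i) (hg.mono fun j hj => hj i hi)
  rw [← map_pow]
  exact h3

end Mod

end StrB

open StrB in
/-- strong approximate groups in a good model. -/
theorem strU : StrU := by
  intro G _ n L _ _ _ _ _ M ⟨K, W, hK, hW, hKW, hab⟩
  have hinv : ∀ {O : Set L}, (K : Set L) ⊆ O → (K : Set L) ⊆ O ∩ O⁻¹ := fun h =>
    subset_inter h fun x hx => h (K.inv_mem hx)
  obtain ⟨C, hC, hKC, hCW⟩ := exists_compact_between hK (hW.inter hW.inv) (hinv hKW)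
  obtain ⟨V, hV, hKV, hVC⟩ := nbd K hK 7 _ isOpen_interior hKC
  obtain ⟨D, hD, hKD, hDV⟩ := exists_compact_between hK hV hKV
  obtain ⟨A', hin', hout'⟩ := M.int D V hD hV hDV
  set A : ∀ j, Finset (G j) := fun j => (A' j).filter fun a => a⁻¹ ∈ A' j with hA
  set U : Set L := interior D ∩ (interior D)⁻¹ with hU
  have hUo : IsOpen U := isOpen_interior.inter isOpen_interior.inv
  have hKU : (K : Set L) ⊆ U := hinv hKD
  have hin : ∀ g : M.Γ, M.π g ∈ U → ∀ᶠ j in M.U, g.1 j ∈ A j := fun g hg =>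
    ((hin' g (interior_subset hg.1)).and
      (hin' g⁻¹ (by rw [map_inv]; exact interior_subset hg.2))).mono fun j hj =>
      Finset.mem_filter.2 ⟨hj.1, hj.2⟩
  have hout : OutU M (fun j x => x ∈ A j) (· ∈ V) := fun g hg =>
    hout' g (hg.mono fun j hj => (Finset.mem_filter.1 hj).1)
  have hpow : ∀ i ≤ 7, OutU M (fun j x => x ∈ A j ^ i) (· ∈ C) := fun i hi =>
    (hout.pr 7).mono (fun j x hx => pr_pow hi hx) fun x hx => interior_subset (hVC x hx)
  obtain ⟨t, ht⟩ := hC.elim_finite_subcover (fun g : M.Γ => (fun z => (M.π g)⁻¹ * z) ⁻¹' U)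
    (fun g => hUo.preimage (continuous_const.mul continuous_id)) fun z _ => by
      obtain ⟨g, rfl⟩ := M.surj z
      exact mem_iUnion.2 ⟨g, by simpa using hKU K.one_mem⟩
  obtain ⟨T₁, hT₁, hT₁'⟩ := trap hab hC hCW hUo hKU
  refine ⟨A, t.card, T₁, fun N => ?_, fun m => ?_, fun g hg => (hout g hg).1⟩
  · obtain ⟨O, hO, hKO, hOU⟩ := nbd K hK N U hUo hKU
    obtain ⟨T₂, hT₂, hT₂'⟩ := trap hab hC hCW hO hKO
    have e1 := hin 1 (by simpa using hKU K.one_mem)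
    have e2 := ev_allU M.U (fun j x => x ∈ A j ^ 3) (fun j x => ∃ g ∈ t, (g.1 j)⁻¹ * x ∈ A j)
      fun x hx => by
        obtain ⟨h1, h2⟩ := hpow 3 (by omega) x hx
        obtain ⟨g, hg, h3⟩ := mem_iUnion₂.1 (ht h2)
        exact (hin (g⁻¹ * ⟨x, h1⟩) (by simpa using h3)).mono fun j hj => ⟨g, hg, hj⟩
    have e3 := ev_allU M.U (fun j => Esc (A j ^ 7) T₁) (fun j x => x ∈ A j) fun x hx => by
      obtain ⟨h1, h2⟩ := (hpow 7 le_rfl).esc hT₁ hT₁' x hx
      exact hin _ h2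
    have e4 := ev_allU M.U (fun j => Pr N (Esc (A j ^ 7) T₂)) (fun j x => x ∈ A j) fun x hx => by
      obtain ⟨h1, h2⟩ := ((hpow 7 le_rfl).esc hT₂ hT₂').pr N x hx
      exact hin _ (hOU _ h2)
    refine ⟨T₂, (e1.and (e2.and (e3.and e4))).mono fun j ⟨h1, h2, h3, h4⟩ =>
      ⟨h1, fun a ha => ?_, ?_, h3, fun l h5 h6 => h4 _ ⟨l, h5, h6, rfl⟩⟩⟩
    · obtain ⟨h5, h6⟩ := Finset.mem_filter.1 ha
      exact Finset.mem_filter.2 ⟨h6, by simpa using h5⟩
    · refine (Finset.card_le_card (t := t.biUnion fun g => (A j).image fun a => g.1 j * a)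
        fun x hx => ?_).trans (Finset.card_biUnion_le_card_mul _ _ _ fun _ _ => Finset.card_image_le)
      obtain ⟨g, hg, h5⟩ := h2 x hx
      exact Finset.mem_biUnion.2 ⟨g, hg, Finset.mem_image.2 ⟨_, h5, by simp⟩⟩
  · obtain ⟨O, hO, hKO, hOU⟩ := nbd K hK m U hUo hKU
    refine ⟨O, hO.mem_nhds (hKO K.one_mem), fun g hg => ?_⟩
    exact (eventually_all_finite (finite_le_nat m)).2 fun i hi =>
      hin (g ^ i) (by rw [map_pow]; exact hOU _ (pr_rep hi hg))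

end Pool.Agent.Lib.MP_813db1_ag.AS
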