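import Pool.Agent.Lib.MP_813db1_ag.AS.Rep
import Pool.Agent.Lib.MP_813db1_ag.AS.Com

/-! Facts on virtually nilpotent groups and on finite conjugacy classes. -/

namespace Pool.Agent.Lib.MP_813db1_ag.AS

open Subgroup Pool.Agent.Lib.MP_bbd4b9_ag
open scoped Classical Pointwise commutatorElement

namespace Vn

variable {Q : Type} [Group Q]

theorem max (h : HR.FpS) (fg : Group.FG Q) (vn : Group.IsVirtuallyNilpotent Q) :
    ∃ (T : Subgroup Q) (_ : T.Normal), Finite T ∧
      ∀ N : Subgroup (Q ⧸ T), N.Normal → Finite N → N = ⊥ := by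
  let B : Set (Subgroup Q) := {N | N.Normal ∧ Finite N}
  obtain ⟨T, -, ⟨hT, h1⟩, h2⟩ := zorn_le_nonempty₀ B (fun c hc ch y hy => by
    have hn : (sSup c).Normal := ⟨fun x hx g => by
      obtain ⟨K, k1, k2⟩ := (mem_sSup_of_directedOn ⟨y, hy⟩ ch.directedOn).1 hx
      exact le_sSup k1 ((hc k1).1.conj_mem x k2 g)⟩
    refine ⟨sSup c, ⟨hn, ?_⟩, fun z hz => le_sSup hz⟩
    obtain ⟨S, s1, s2⟩ := h Q _ (QuotientGroup.mk' (sSup c)) fg (QuotientGroup.mk'_surjective _)
      (HR.Mc.surj _ (QuotientGroup.mk'_surjective _) vn)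
    rw [QuotientGroup.ker_mk'] at s2
    obtain ⟨K, k1, k2⟩ := HR.Mc.fin_sub ch hy s1 fun x hx => s2 ▸ subset_normalClosure hx
    obtain ⟨k3, k4⟩ := hc k1
    have k5 : sSup c ≤ K := s2 ▸ normalClosure_le_normal k2
    exact Finite.of_injective _ (inclusion_injective k5)) ⊥ ⟨inferInstance, inferInstance⟩
  refine ⟨T, hT, h1, fun N n1 n2 => (eq_bot_iff_forall N).2 fun q hq => ?_⟩
  have h3 : Finite (N.comap (QuotientGroup.mk' T)) := by
    refine Set.Finite.to_subtype (Set.Finite.preimage' (f := QuotientGroup.mk' T)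
      (Set.toFinite (N : Set (Q ⧸ T))) ?_)
    intro b _
    obtain ⟨g, rfl⟩ := QuotientGroup.mk_surjective b
    refine ((Set.toFinite (T : Set Q)).image fun t => g * t).subset fun x hx => ?_
    exact ⟨g⁻¹ * x, QuotientGroup.eq.1 (Eq.symm hx), mul_inv_cancel_left g x⟩
  have h4 : T ≤ N.comap (QuotientGroup.mk' T) := fun x hx => by
    show QuotientGroup.mk' T x ∈ N
    rw [show QuotientGroup.mk' T x = 1 from (QuotientGroup.eq_one_iff x).2 hx]
    exact one_mem _
  obtain ⟨g, rfl⟩ := QuotientGroup.mk_surjective q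
  exact (QuotientGroup.eq_one_iff g).2 (h2 ⟨inferInstance, h3⟩ h4 hq)

theorem mem_vc {u : Q} (h : {v | IsConj u v}.Finite) : u ∈ Com.vc (⊤ : Subgroup Q) :=
  Com.fi_iff.2 (GD.fc_iff.2 h)

theorem cent (S : Set Q) (hS : S.Finite) (h : ∀ u ∈ S, {v | IsConj u v}.Finite) :
    (normalClosure S).FG ∧ ∃ C : Subgroup Q, C.Normal ∧ C.FiniteIndex ∧
      ∀ c ∈ C, ∀ x ∈ normalClosure S, c * x = x * c := by
  have h1 := Com.ncl_fg hS fun u hu => mem_vc (h u hu)
  refine ⟨h1, centralizer (normalClosure S), inferInstance, Com.fi_iff.1 (Com.cent_fg h1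
    (normalClosure_le_normal fun u hu => mem_vc (h u hu))), fun c hc x hx => (hc x hx).symm⟩

theorem fin_comm (E : Type) [Group E] [(center E).FiniteIndex] : Finite (commutatorSet E) := by
  refine ((Set.finite_range fun p : (E ⧸ center E) × (E ⧸ center E) =>
    ⁅p.1.out, p.2.out⁆).subset ?_).to_subtype
  rintro _ ⟨x, y, rfl⟩
  obtain ⟨a, ha⟩ := QuotientGroup.mk_out_eq_mul (center E) x
  obtain ⟨b, hb⟩ := QuotientGroup.mk_out_eq_mul (center E) y
  refine ⟨((x : E ⧸ center E), (y : E ⧸ center E)), ?_⟩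
  have h1 := mem_center_iff.1 a.2
  have h2 := mem_center_iff.1 b.2
  show ⁅_, _⁆ = _
  rw [ha, hb, commutatorElement_def, commutatorElement_def]
  calc x * a * (y * b) * (x * a)⁻¹ * (y * b)⁻¹
      = x * (a * (y * b)) * (a : E)⁻¹ * x⁻¹ * (b : E)⁻¹ * y⁻¹ := by group
    _ = x * y * (b * x⁻¹) * (b : E)⁻¹ * y⁻¹ := by rw [← h1]; group
    _ = x * y * x⁻¹ * y⁻¹ := by rw [← h2]; group

theorem ab (F : Finset Q) (hF : ∀ g, ∀ u ∈ F, g * u * g⁻¹ ∈ F)
    (h : ∀ N : Subgroup Q, N.Normal → Finite N → N = ⊥) :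
    (closure (F : Set Q)).Normal ∧ IsMulCommutative (closure (F : Set Q)) ∧
      ∀ u ∈ closure (F : Set Q), IsOfFinOrder u → u = 1 := by
  have h1 : normalClosure (F : Set Q) = closure (F : Set Q) := by
    refine le_antisymm (closure_mono fun v hv => ?_) closure_le_normalClosure
    obtain ⟨a, a1, a2⟩ := Group.mem_conjugatesOfSet_iff.1 hv
    obtain ⟨g, rfl⟩ := isConj_iff.1 a2
    exact hF g a a1
  have h2 : ∀ u ∈ (F : Set Q), {v | IsConj u v}.Finite := fun u hu =>
    F.finite_toSet.subset fun v hv => by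
      obtain ⟨g, rfl⟩ := isConj_iff.1 hv
      exact hF g u hu
  obtain ⟨-, C, -, c1, c2⟩ := cent (F : Set Q) F.finite_toSet h2
  have h3 : normalClosure (F : Set Q) ≤ Com.vc ⊤ :=
    normalClosure_le_normal fun u hu => mem_vc (h2 u hu)
  have hn : (closure (F : Set Q)).Normal := h1 ▸ inferInstance
  rw [h1] at c2 h3
  generalize closure (F : Set Q) = E at *
  have h4 : (center E).FiniteIndex := finiteIndex_of_le (H := C.subgroupOf E) fun x hx =>
    mem_center_iff.2 fun y => Subtype.ext (c2 x hx y y.2).symm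
  have h5 := fin_comm E
  have h6 : (_root_.commutator E).map E.subtype = ⊥ := h _ inferInstance
    (Finite.of_surjective _ (E.subtype.subgroupMap_surjective _))
  have h7 : ∀ a ∈ E, ∀ b ∈ E, a * b = b * a := fun a ha b hb => by
    have h8 : ⁅a, b⁆ ∈ (_root_.commutator E).map E.subtype :=
      ⟨⁅(⟨a, ha⟩ : E), ⟨b, hb⟩⁆, commutator_mem_commutator (mem_top _) (mem_top _), rfl⟩
    rw [h6] at h8
    exact commutatorElement_eq_one_iff_mul_comm.1 (mem_bot.1 h8)
  refine ⟨hn, ⟨⟨fun a b => Subtype.ext (h7 a a.2 b b.2)⟩⟩, fun u hu hf => ?_⟩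
  obtain ⟨n, n1, n2⟩ := isOfFinOrder_iff_pow_eq_one.1 hf
  let K : Subgroup Q :=
    { carrier := {x | x ∈ E ∧ x ^ n = 1}
      one_mem' := ⟨one_mem _, one_pow n⟩
      mul_mem' := fun {a b} ha hb => ⟨mul_mem ha.1 hb.1, by
        rw [Commute.mul_pow (h7 a ha.1 b hb.1), ha.2, hb.2, one_mul]⟩
      inv_mem' := fun {a} ha => ⟨inv_mem ha.1, by rw [inv_pow, ha.2, inv_one]⟩ }
  have k1 : K.Normal := ⟨fun x hx g => ⟨hn.conj_mem x hx.1 g, by
    rw [conj_pow, hx.2, mul_one, mul_inv_cancel]⟩⟩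
  have k2 : normalClosure ({u} : Set Q) ≤ K := normalClosure_le_normal (by
    rintro _ rfl; exact ⟨hu, n2⟩)
  have k3 := (Group.fg_iff_subgroup_fg _).2 (Com.ncl_fg (Set.finite_singleton u) (by
    rintro _ rfl; exact h3 hu))
  letI : CommGroup (normalClosure ({u} : Set Q)) :=
    { (inferInstance : Group (normalClosure ({u} : Set Q))) with
      mul_comm := fun a b => Subtype.ext (h7 a (k2 a.2).1 b (k2 b.2).1) }
  have k4 := h _ inferInstance (CommGroup.finite_of_fg_isMulTorsion (normalClosure ({u} : Set Q))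
    fun x => isOfFinOrder_iff_pow_eq_one.2 ⟨n, n1, Subtype.ext (k2 x.2).2⟩)
  exact mem_bot.1 (k4 ▸ subset_normalClosure rfl)

theorem cen_step (fg : Group.FG Q) (h : Finite (center Q)) : Finite (center (Q ⧸ center Q)) := by
  obtain ⟨S, s1⟩ := fg.out
  have h1 : ∀ (q : center (Q ⧸ center Q)) (s : Q), ⁅(q : Q ⧸ center Q).out, s⁆ ∈ center Q :=
    fun q s => (QuotientGroup.eq_one_iff _).1 (by
      have h2 := map_commutatorElement (QuotientGroup.mk' (center Q)) (q : Q ⧸ center Q).out s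
      refine h2.trans (commutatorElement_eq_one_iff_mul_comm.2 ?_)
      rw [QuotientGroup.mk'_apply, QuotientGroup.out_eq']
      exact (mem_center_iff.1 q.2 _).symm)
  refine Finite.of_injective (fun (q : center (Q ⧸ center Q)) (s : S) =>
    (⟨_, h1 q s⟩ : center Q)) fun p q e => Subtype.ext ?_
  rw [← QuotientGroup.out_eq' (p : Q ⧸ center Q), ← QuotientGroup.out_eq' (q : Q ⧸ center Q)]
  refine QuotientGroup.eq.2 (mem_center_iff.2 fun g => ?_)
  have h2 : closure (S : Set Q) ≤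
      centralizer {((p : Q ⧸ center Q).out)⁻¹ * (q : Q ⧸ center Q).out} := by
    refine (closure_le _).2 fun s hs => mem_centralizer_singleton_iff.2 ?_
    have h3 : ⁅(p : Q ⧸ center Q).out, s⁆ = ⁅(q : Q ⧸ center Q).out, s⁆ :=
      congrArg Subtype.val (congrFun e ⟨s, hs⟩)
    generalize (p : Q ⧸ center Q).out = x at h3 ⊢
    generalize (q : Q ⧸ center Q).out = y at h3 ⊢
    rw [commutatorElement_def, commutatorElement_def, mul_left_inj] at h3
    calc s * (x⁻¹ * y) = x⁻¹ * (x * s * x⁻¹) * y := by group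
      _ = x⁻¹ * y * s := by rw [h3]; group
  exact mem_centralizer_singleton_iff.1 (h2 (s1 ▸ mem_top g))

theorem cen (fg : Group.FG Q) (h : Group.IsNilpotent Q) (hi : Infinite Q) :
    Infinite (center Q) := by
  refine not_finite_iff_infinite.1 fun hf => not_finite_iff_infinite.2 hi ?_
  revert fg hf
  clear hi
  refine Group.nilpotent_center_quotient_ind
    (P := fun G _ _ => Group.FG G → Finite (center G) → Finite G) Q ?_ ?_
  · exact fun G _ _ _ _ => inferInstance
  · intro G _ _ ih fg hf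
    have := ih inferInstance (cen_step fg hf)
    exact Finite.of_subgroup_quotient (center G)

end Vn

theorem vnS (h : HR.FpS) : VnS :=
  ⟨fun _ _ => Vn.max h, fun _ _ => Vn.cent, fun _ _ => Vn.ab, fun _ _ => Vn.cen⟩

end Pool.Agent.Lib.MP_813db1_ag.AS
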