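import Pool.Agent.Lib.MP_813db1_ag.AS.Can
import Pool.Agent.Lib.MP_bbd4b9_ag.HR.Mc

/-! Commensurated virtually nilpotent subgroups are virtually central; the algebraic part. -/

namespace Pool.Agent.Lib.MP_813db1_ag.AS

open Subgroup Function Pool.Agent.Lib.MP_bbd4b9_ag
open scoped Pointwise

namespace ZA

variable {G Q : Type} [Group G] [Group Q]

/-- the elements with finitely many conjugates. -/
def FC (G : Type) [Group G] : Subgroup G where
  carrier := {g | {v | IsConj g v}.Finite}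
  one_mem' := by
    refine (Set.finite_singleton (1 : G)).subset fun v hv => ?_
    exact (isConj_one_right.1 hv)
  mul_mem' := by
    intro a b ha hb
    refine (ha.mul hb).subset fun v hv => ?_
    obtain ⟨c, rfl⟩ := isConj_iff.1 hv
    exact ⟨c * a * c⁻¹, isConj_iff.2 ⟨c, rfl⟩, c * b * c⁻¹, isConj_iff.2 ⟨c, rfl⟩, by group⟩
  inv_mem' := by
    intro a ha
    refine ha.inv.subset fun v hv => ?_
    obtain ⟨c, rfl⟩ := isConj_iff.1 hv
    exact isConj_iff.2 ⟨c, by group⟩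

instance : (FC G).Normal := ⟨fun a ha g => by
  refine Set.Finite.subset ha fun v hv => ?_
  exact (isConj_iff.2 ⟨g, rfl⟩ : IsConj a (g * a * g⁻¹)).trans hv⟩

theorem rel_map (f : G →* Q) {H K : Subgroup G} (h : H.relIndex K ≠ 0) :
    (H.map f).relIndex (K.map f) ≠ 0 := by
  rw [← relIndex_comap]
  exact fun h0 => h (relIndex_eq_zero_of_le_left (le_comap_map f H) h0)

theorem map_conj (f : G →* Q) (N : Subgroup G) (g : G) :
    (MulAut.conj g • N).map f = MulAut.conj (f g) • N.map f := by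
  ext x
  simp only [mem_map, mem_smul_pointwise_iff_exists, MulAut.smul_def, MulAut.conj_apply]
  constructor
  · rintro ⟨_, ⟨n, hn, rfl⟩, rfl⟩
    exact ⟨f n, ⟨n, hn, rfl⟩, by simp⟩
  · rintro ⟨_, ⟨n, hn, rfl⟩, rfl⟩
    exact ⟨_, ⟨n, hn, rfl⟩, by simp⟩

theorem cmn_map (f : G →* Q) (hf : Surjective f) {N : Subgroup G} (h : Cmn N) :
    Cmn (N.map f) := by
  intro q
  obtain ⟨g, rfl⟩ := hf q
  rw [← map_conj]
  exact ⟨rel_map f (h g).1, rel_map f (h g).2⟩

theorem fg_map (f : G →* Q) {N : Subgroup G} (h : N.FG) : (N.map f).FG := by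
  classical
  obtain ⟨S, rfl⟩ := h
  exact ⟨S.image f, by rw [Finset.coe_image, MonoidHom.map_closure]⟩

end ZA

theorem zS (h0 : FrS) (h1 : RepS) (h2 : ComS) (h3 : Fc2S) (h4 : VnS) : ZS := by
  intro G _ N hG hL hN hV hC
  let f : G →* G ⧸ ZA.FC G := QuotientGroup.mk' _
  have hf : Surjective f := QuotientGroup.mk'_surjective _
  have hk : ∀ g, f g = 1 ↔ g ∈ ZA.FC G := fun g => QuotientGroup.eq_one_iff g
  have hfin : Finite (N.map f) := by
    by_contra hinf
    obtain ⟨A, -, hA1, hA2, hA3, hA4⟩ := h2 _ (N.map f) (ZA.fg_map f hN)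
      (HR.Mc.surj (f.subgroupMap N) (f.subgroupMap_surjective N) hV) (ZA.cmn_map f hf hC)
      (not_finite_iff_infinite.1 hinf)
    obtain ⟨a, -, ha1, ha2⟩ := h1 _ A (Group.fg_of_surjective hf) (h0.quo _ _ f hf hL) hA1 hA2
      hA3 hA4
    obtain ⟨b, rfl⟩ := hf a
    have := h3 G _ f hG hL hf (fun g hg => (hk g).1 hg) b ha2
    exact ha1 (by rw [(hk b).2 this]; exact IsOfFinOrder.one)
  have hidx : (ZA.FC G).relIndex N ≠ 0 := by
    have : ZA.FC G = (⊥ : Subgroup _).comap f := (QuotientGroup.ker_mk' _).symm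
    rw [this, relIndex_comap, relIndex_bot_left]
    exact Nat.card_pos.ne'
  have hfg : (ZA.FC G ⊓ N).FG := by
    have : Group.FG N := (Group.fg_iff_subgroup_fg N).2 hN
    have : ((ZA.FC G).subgroupOf N).FiniteIndex := ⟨hidx⟩
    have h5 : ((ZA.FC G).subgroupOf N).FG :=
      (Group.fg_iff_subgroup_fg _).1 (fg_of_index_ne_zero _)
    have h6 := ZA.fg_map N.subtype h5
    rwa [subgroupOf_map_subtype] at h6
  obtain ⟨S, hS⟩ := hfg
  have hSm : ∀ u ∈ (S : Set G), u ∈ ZA.FC G ⊓ N := fun u hu => hS ▸ subset_closure hu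
  obtain ⟨-, C, hC1, hC2, hC3⟩ := h4.cent G S S.finite_toSet fun u hu => (hSm u hu).1
  refine ⟨normalClosure (S : Set G) ⊓ C, C, inferInstance, hC1, hC2, inf_le_right,
    fun z hz g hg => (hC3 g hg z hz.1).symm, relIndex_inf_ne_zero ?_ ?_⟩
  · intro h
    have h5 := relIndex_eq_zero_of_le_left (closure_le_normalClosure (s := (S : Set G))) h
    rw [hS, inf_relIndex_right] at h5
    exact hidx h5
  · exact (instFiniteIndex_subgroupOf C N).index_ne_zero

theorem Can.of_rel {G E : Type} [Group G] [Group E] {c : CE G E} {Z N : Subgroup G} {T : Set E}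
    (h : Can c Z T) (hZ : Z.relIndex N ≠ 0) : Can c N T :=
  ⟨h.conj, h.inj, fun H hH => h.sec H (relIndex_ne_zero_trans hZ hH)⟩

theorem algS (h0 : FrS) (h1 : ComS) (h2 : ZS) (h3 : CanS) : AlgS := by
  intro G E _ _ c N hG hL hN hV hC
  rcases hL with hL | hL
  · have hfin : Finite N := by
      by_contra hinf
      obtain ⟨A, -, hA1, hA2, hA3, hA4⟩ := h1 G N hN hV hC (not_finite_iff_infinite.1 hinf)
      exact not_finite_iff_infinite.2 hA4 (hL A hA1 hA2 hA3)
    obtain ⟨T, hT⟩ := h3 G E c ⊥ ⊤ inferInstance inferInstance inferInstance bot_le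
      (c.lift_comm ⊥ ⊤ (fun z hz g _ => by rw [mem_bot.1 hz, one_mul, mul_one]) (Or.inl rfl))
    refine ⟨T, hT.of_rel ?_⟩
    rw [relIndex_bot_left]
    exact Nat.card_pos.ne'
  · obtain ⟨Z, G₁, hZ, hG₁, hf, hle, hcen, hrel⟩ := h2 G N hG hL hN hV hC
    obtain ⟨T, hT⟩ := h3 G E c Z G₁ hZ hG₁ hf hle
      (c.lift_comm Z G₁ hcen (Or.inr fun φ => h0.real G₁ φ (h0.sub G G₁ hf hL)))
    exact ⟨T, hT.of_rel hrel⟩

end Pool.Agent.Lib.MP_813db1_ag.AS
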