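import Pool.Agent.Lib.MP_bbd4b9_ag.HR.All
import Pool.Agent.Lib.MP_813db1_ag.AS.Can
import Pool.Agent.Lib.MP_813db1_ag.AS.Com
import Pool.Agent.Lib.MP_813db1_ag.AS.Fc2
import Pool.Agent.Lib.MP_813db1_ag.AS.FcU
import Pool.Agent.Lib.MP_813db1_ag.AS.Fr
import Pool.Agent.Lib.MP_813db1_ag.AS.Geo
import Pool.Agent.Lib.MP_813db1_ag.AS.Gle
import Pool.Agent.Lib.MP_813db1_ag.AS.Lift
import Pool.Agent.Lib.MP_813db1_ag.AS.Mg
import Pool.Agent.Lib.MP_813db1_ag.AS.ModU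
import Pool.Agent.Lib.MP_813db1_ag.AS.Ng
import Pool.Agent.Lib.MP_813db1_ag.AS.Rep
import Pool.Agent.Lib.MP_813db1_ag.AS.Rk
import Pool.Agent.Lib.MP_813db1_ag.AS.Sc
import Pool.Agent.Lib.MP_813db1_ag.AS.StrU
import Pool.Agent.Lib.MP_813db1_ag.AS.Vn
import Pool.Agent.Lib.MP_813db1_ag.AS.Z

/-! The group theoretic steps together. -/

namespace Pool.Agent.Lib.MP_813db1_ag.AS

open Pool.Agent.Lib.MP_bbd4b9_ag

theorem vnAll : VnS := vnS HR.fpS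

theorem fcAll : FcU :=
  fcU modUS strU
    (gleU HR.escS (HR.prodS HR.escS HR.convS HR.lipS) (HR.comS HR.escS HR.convS HR.lipS))
    (HR.yaS HR.ftS (HR.pwS HR.sepS))

theorem mgAll : MgS := mgS ngS rkS fcAll vnAll (HR.mcS HR.fpS)

theorem scAll : ScS := scS geoS rkS mgAll

theorem algAll : AlgS := algS frS comS (zS frS repS comS (fc2S frS vnAll) vnAll) canS

end Pool.Agent.Lib.MP_813db1_ag.AS
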