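import Pool.Agent.Lib.MP_bbd4b9_ag.LC.All

/-! One step of the iteration with an auxiliary Monge-Ampere equation. -/

namespace Pool.Agent.Lib.MP_813db1_ag.AS

open Pool.Agent.Lib.MP_813db1_ag.HS Pool.Agent.Lib.MP_bbd4b9_ag
open MeasureTheory Complex Matrix Filter Topology Set Metric
open scoped ContDiff ComplexOrder

/-- one step of the iteration. -/
def OneS : Prop := ∀ (ι X : Type) [Fintype ι] [DecidableEq ι] [Nonempty ι] [TopologicalSpace X]
  [T2Space X] [CompactSpace X] [Nonempty X] [MeasurableSpace X] [BorelSpace X] (M : Atl ι X)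
  (h : X → Mat ι) (ν : Measure X) (Ψ : X → ℝ) (s A φ k : ℝ), M.IsK h → M.IsVol h ν →
  UpperSemicontinuous Ψ → BddBelow (range Ψ) → 0 ≤ A → 0 < φ → 0 < k →
  9 * φ * (1 + A / k) ^ Fintype.card ι ≤ 1 → ν.real {y | s ≤ Ψ y} ≤ φ * ν.real univ →
  (∀ y, s ≤ Ψ y → ∃ β : V ι → ℝ, ContDiffAt ℝ 2 β (M.ch y y) ∧ β (M.ch y y) = Ψ y ∧
    (∀ᶠ z in 𝓝 (M.ch y y), β z ≤ Ψ ((M.ch y).symm z)) ∧
    -A ≤ trm (h y) (levi (fun z => (β z : ℂ)) (M.ch y y))) →
  ∃ η x0, M.Ck ∞ η ∧ M.IsK (fun x => h x + M.ddc η x) ∧ (∀ x, η x ≤ η x0) ∧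
    ∀ y, Ψ y - s < k * (η x0 - η y)

namespace One

variable {ι : Type} [Fintype ι] [DecidableEq ι]

omit [DecidableEq ι] in
theorem prod_le {d : ι → ℝ} (hd : ∀ i, 0 ≤ d i) {c : ℝ} (hc : 0 < c)
    (h : ∑ i, d i ≤ Fintype.card ι * c) : ∏ i, d i ≤ c ^ Fintype.card ι := by
  have h1 : ∏ i, d i / c ≤ ∏ i, Real.exp (d i / c - 1) :=
    Finset.prod_le_prod (fun i _ => div_nonneg (hd i) hc.le) fun i _ => by
      linarith [Real.add_one_le_exp (d i / c - 1)]
  rw [← Real.exp_sum, Finset.prod_div_distrib, Finset.prod_const, Finset.card_univ,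
    Finset.sum_sub_distrib, ← Finset.sum_div, Finset.sum_const, Finset.card_univ, nsmul_eq_mul,
    mul_one] at h1
  have h2 : (∑ i, d i) / c - Fintype.card ι ≤ 0 := by
    rw [sub_nonpos, div_le_iff₀ hc]; exact h
  exact (div_le_one (pow_pos hc _)).1 (h1.trans (Real.exp_le_one_iff.2 h2))

theorem det_le {G H : Mat ι} (hG : G.PosDef) (hH : H.PosSemidef) {c : ℝ} (hc : 0 < c)
    (h : trm G H ≤ Fintype.card ι * c) : H.det.re / G.det.re ≤ c ^ Fintype.card ι := by
  have h0 := (Mat.det' hG).1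
  rw [div_le_iff₀ h0]
  obtain ⟨T, d, hT, hd, rfl, rfl⟩ := Mat.sim hG hH
  have e : (Tᴴ * diagonal (fun i => (d i : ℂ)) * T).det = ((∏ i, d i : ℝ) : ℂ) * (Tᴴ * T).det := by
    rw [det_mul, det_mul, det_mul, det_diagonal, Complex.ofReal_prod]
    ring
  rw [Mat.trm_diag hT] at h
  rw [e, re_ofReal_mul]
  exact mul_le_mul_of_nonneg_right (prod_le hd hc h) h0.le

variable {X : Type} [TopologicalSpace X] [T2Space X] [CompactSpace X] [MeasurableSpace X]
  [BorelSpace X]

/-- a smooth positive function that is large on a small closed set and has small integral. -/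
theorem bump (M : Atl ι X) (ν : Measure X) [IsFiniteMeasure ν] {E : Set X} (hE : IsClosed E)
    {φ : ℝ} (hφ : 0 < φ) (hV : 0 < ν.real univ) (h : ν.real E ≤ φ * ν.real univ) :
    ∃ f : X → ℝ, M.Ck ∞ f ∧ (∀ x, 0 < f x) ∧ (∀ x ∈ E, 1 / (3 * φ) ≤ f x) ∧
      ∫ x, f x ∂ν ≤ ν.real univ := by
  have : SecondCountableTopology X := by
    let _ : ChartedSpace (ι → ℂ) X := ⟨range M.ch, M.ch, M.mem, fun x => ⟨x, rfl⟩⟩
    exact ChartedSpace.secondCountable_of_sigmaCompact (ι → ℂ) X
  have A := AY.repA' ι X M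
  have B := AY.repB' ι X M
  have hlt : ν E < ENNReal.ofReal (3 / 2 * φ * ν.real univ) := by
    rw [← ofReal_measureReal, ENNReal.ofReal_lt_ofReal_iff (by positivity)]
    nlinarith [mul_pos hφ hV]
  obtain ⟨U, hEU, hU, hνU⟩ := E.exists_isOpen_lt_of_lt _ hlt
  have hU' : ν.real U ≤ 3 / 2 * φ * ν.real univ :=
    ENNReal.toReal_le_of_le_ofReal (by positivity) hνU.le
  obtain ⟨χ, hχ, h1⟩ := LC.All.pouS ι X M Bool (fun b => if b then U else Eᶜ)
    (fun b => by cases b <;> simp [hU, hE]) (fun x => by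
      by_cases hx : x ∈ E
      · exact ⟨true, hEU hx⟩
      · exact ⟨false, hx⟩)
  have h2 : ∀ x, χ true x + χ false x = 1 := fun x => by simpa using h1 x
  have c1 : Continuous (χ true) := A.cont _ (LC.Cmp.ck_zero (hχ true).1)
  refine ⟨fun x => 1 / 2 + 1 / (3 * φ) * χ true x, LC.Aub.ck_lin B (LC.Aub.ck_const _ _)
    (hχ true).1 _, fun x => ?_, fun x hx => ?_, ?_⟩
  · have := (hχ true).2.1 x
    positivity
  · have h3 : χ false x = 0 := by
      by_contra h4
      exact (hχ false).2.2 (subset_tsupport _ h4) hx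
    have h4 : χ true x = 1 := by linarith [h2 x]
    simp only [h4]
    linarith
  · have i1 : Integrable (χ true) ν :=
      c1.integrable_of_hasCompactSupport (HasCompactSupport.of_compactSpace _)
    have h3 : ∫ x, χ true x ∂ν ≤ ν.real U := by
      rw [← integral_indicator_one hU.measurableSet]
      refine integral_mono i1 ((integrable_const (1 : ℝ)).indicator hU.measurableSet) fun x => ?_
      by_cases hx : x ∈ U
      · rw [indicator_of_mem hx]
        have := (hχ false).2.1 x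
        have := h2 x
        simp only [Pi.one_apply]
        linarith
      · rw [indicator_of_notMem hx]
        by_contra h4
        exact hx ((hχ true).2.2 (subset_tsupport _ fun h5 => h4 (le_of_eq h5)))
    rw [integral_add (integrable_const _) (i1.const_mul _), integral_const, integral_const_mul,
      smul_eq_mul]
    have h4 : 1 / (3 * φ) * ∫ x, χ true x ∂ν ≤ 1 / (3 * φ) * (3 / 2 * φ * ν.real univ) :=
      mul_le_mul_of_nonneg_left (h3.trans hU') (by positivity)
    have h5 : 1 / (3 * φ) * (3 / 2 * φ * ν.real univ) = ν.real univ / 2 := by field_simp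
    linarith

end One

theorem oneS : OneS := by
  intro ι X _ _ _ _ _ _ _ _ _ M h ν Ψ s A φ k hh hν hΨ hb hA hφ hk hc hE hβ
  have RA := AY.repA' ι X M
  have RB := AY.repB' ι X M
  have hv := (AY.volS' ι X M h hh).2 ν hν
  have := hv.fin
  have := hv.pos
  have hp := ((RA.isK_iff h).1 hh).2
  have hV : 0 < ν.real univ :=
    ENNReal.toReal_pos (isOpen_univ.measure_pos ν univ_nonempty).ne' (measure_ne_top _ _)
  obtain ⟨f, f1, f2, f3, f4⟩ := One.bump M ν (hΨ.isClosed_preimage s) hφ hV hE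
  obtain ⟨lo, hlo⟩ := hb
  obtain ⟨x1, -, hx1⟩ := (hΨ.upperSemicontinuousOn univ).exists_isMaxOn univ_nonempty
    isCompact_univ
  have hhi : ∀ y, Ψ y ≤ Ψ x1 := fun y => isMaxOn_iff.1 hx1 y (mem_univ _)
  have hlo' : ∀ y, lo ≤ Ψ y := fun y => hlo ⟨y, rfl⟩
  have hD : 0 < Ψ x1 - lo + 1 := by linarith [hlo' x1]
  obtain ⟨η, e1, e2, e3⟩ := LC.All.aub ι X M h (k / (Ψ x1 - lo + 1)) (fun x => Real.log (f x)) hh
    (div_pos hk hD) (RB.ck_comp ⊤ f Real.log f1 fun x => Real.contDiffAt_log.2 (f2 x).ne')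
  set lam := k / (Ψ x1 - lo + 1) with hlam
  have hl : 0 < lam := div_pos hk hD
  have e4 : ∀ x, rat (fun y => h y + M.ddc η y) h x = Real.exp (lam * η x) * f x := fun x => by
    rw [e3, Real.exp_add, Real.exp_log (f2 x)]
  have cη : Continuous η := RA.cont η (LC.Cmp.ck_zero e1)
  have cf : Continuous f := RA.cont f (LC.Cmp.ck_zero f1)
  obtain ⟨x0, -, hx0⟩ := isCompact_univ.exists_isMaxOn univ_nonempty cη.continuousOn
  have hm : ∀ x, η x ≤ η x0 := fun x => isMaxOn_iff.1 hx0 x (mem_univ _)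
  have h0 : 0 ≤ η x0 := by
    have i0 := inv AY.repA' AY.repB' AY.divS' AY.curvS' AY.volS' ι X M h h ν η hh hν
      ((RA.isK_iff h).1 hh).1 e1
    have i1 : ∀ x, rat h h x = 1 := fun x => div_self (Mat.det' (hp x)).1.ne'
    simp only [e4, i1, integral_const, smul_eq_mul, mul_one] at i0
    have i2 : ∫ x, Real.exp (lam * η x) * f x ∂ν ≤ ∫ x, Real.exp (lam * η x0) * f x ∂ν :=
      integral_mono (((continuous_const.mul cη).rexp.mul cf).integrable_of_hasCompactSupport
        (HasCompactSupport.of_compactSpace _))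
        ((continuous_const.mul cf).integrable_of_hasCompactSupport
          (HasCompactSupport.of_compactSpace _)) fun x =>
        mul_le_mul_of_nonneg_right (Real.exp_le_exp.2 (mul_le_mul_of_nonneg_left (hm x) hl.le))
          (f2 x).le
    rw [i0, integral_const_mul] at i2
    have i3 := i2.trans (mul_le_mul_of_nonneg_left f4 (Real.exp_pos _).le)
    have i4 : 1 ≤ Real.exp (lam * η x0) := le_of_mul_le_mul_right (by linarith) hV
    exact le_of_mul_le_mul_left (by simpa using Real.one_le_exp_iff.1 i4) hl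
  have h1 : UpperSemicontinuous fun x => Ψ x + k * η x :=
    hΨ.add (continuous_const.mul cη).upperSemicontinuous
  obtain ⟨y, -, hy⟩ := (h1.upperSemicontinuousOn univ).exists_isMaxOn univ_nonempty isCompact_univ
  have hy' : ∀ z, Ψ z + k * η z ≤ Ψ y + k * η y := fun z => isMaxOn_iff.1 hy z (mem_univ _)
  have h2 : Ψ y < s := by
    by_contra h3
    rw [not_lt] at h3
    obtain ⟨β, b1, b2, b3, b4⟩ := hβ y h3
    have d2 : ContDiffAt ℝ 2 (fn η (M.ch y)) (M.ch y y) :=
      (e1 _ (M.ch_mem y) _ ((M.ch y).map_source (M.mem y))).of_le (WithTop.coe_le_coe.2 (le_top : (2 : ℕ∞) ≤ ⊤))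
    have h4 : IsLocalMax (fun z => β z + k * η ((M.ch y).symm z)) (M.ch y y) := by
      filter_upwards [b3] with z hz
      have := hy' ((M.ch y).symm z)
      rw [(M.ch y).left_inv (M.mem y), b2]
      linarith
    have h5 := Mat.trm_nonneg (hp y)
      (maxS.loc ι _ _ (b1.add (contDiffAt_const.mul (contDiffAt_ofReal.1 d2))) h4)
    have e : (fun z => ((β z + k * η ((M.ch y).symm z) : ℝ) : ℂ)) =
        fun z => (β z : ℂ) + (k : ℂ) * fn η (M.ch y) z := funext fun z => by simp [fn]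
    rw [e, levi_add (contDiffAt_ofReal.2 b1) (contDiffAt_const.mul d2), levi_cmul _ d2,
      Apr.trm_neg, Apr.trm_add, Apr.trm_smul] at h5
    have h6 : trm (h y) (M.ddc η y) ≤ A / k := by
      rw [le_div_iff₀ hk]
      have : trm (h y) (M.ddc η y) = trm (h y) (levi (fn η (M.ch y)) (M.ch y y)) := rfl
      rw [this]
      linarith
    have hn : (1 : ℝ) ≤ Fintype.card ι := by exact_mod_cast Fintype.card_pos
    have hAk : 0 ≤ A / k := div_nonneg hA hk.le
    have h7 := One.det_le (hp y) (((RA.isK_iff _).1 e2).2 y).posSemidef (c := 1 + A / k)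
      (by linarith) (by rw [Apr.trm_add, LC.Aub.trm_self (hp y)]; nlinarith)
    have h8 : Real.exp (lam * η y) * f y ≤ (1 + A / k) ^ Fintype.card ι := (e4 y).symm.trans_le h7
    have h9 : -1 < lam * η y := by
      have a1 := hy' x0
      have a2 : -(Ψ x1 - lo + 1) < k * η y := by nlinarith [hlo' x0, hhi y]
      rw [hlam, div_mul_eq_mul_div, lt_div_iff₀ hD]
      linarith
    have h10 : 1 / 3 < Real.exp (lam * η y) := by
      refine lt_trans ?_ (Real.exp_lt_exp.2 h9)
      rw [Real.exp_neg, one_div]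
      exact inv_strictAnti₀ (Real.exp_pos _) (Real.exp_one_lt_d9.trans (by norm_num))
    have h11 : 1 / 3 * (1 / (3 * φ)) < Real.exp (lam * η y) * f y :=
      mul_lt_mul h10 (f3 y h3) (by positivity) (Real.exp_pos _).le
    have h12 : 9 * φ * (1 / 3 * (1 / (3 * φ))) = 1 := by field_simp; norm_num
    nlinarith [mul_lt_mul_of_pos_left (h11.trans_le h8) (show 0 < 9 * φ by positivity)]
  refine ⟨η, x0, e1, e2, hm, fun z => ?_⟩
  nlinarith [hy' z, mul_le_mul_of_nonneg_left (hm y) hk.le]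

end Pool.Agent.Lib.MP_813db1_ag.AS
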