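import Pool.Agent.Lib.MP_813db1_ag.HS.AYAll

/-! The volume measures of two Kaehler forms. -/

namespace Pool.Agent.Lib.MP_813db1_ag.AS

open Pool.Agent.Lib.MP_813db1_ag.HS
open MeasureTheory Complex Matrix Filter Topology Set Metric
open scoped ContDiff ComplexOrder

variable {ι X : Type} [Fintype ι] [DecidableEq ι] [TopologicalSpace X] [T2Space X]
  [CompactSpace X] [MeasurableSpace X] [BorelSpace X] {M : Atl ι X} {g h : X → Mat ι}
  {μ ν : Measure X}

omit [T2Space X] [CompactSpace X] [MeasurableSpace X] [BorelSpace X] in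
theorem rat_cont (hg : M.IsK g) (hh : M.IsK h) : Continuous (rat h g) :=
  (AY.repA' ι X M).cont _ fun e he z hz =>
    ((AY.repA' ι X M).ck_rat h g (fun e he => (hh e he).1.1) hg e he z hz).of_le zero_le

omit [T2Space X] [CompactSpace X] [MeasurableSpace X] [BorelSpace X] in
theorem rat_pos (hg : M.IsK g) (hh : M.IsK h) (x : X) : 0 < rat h g x :=
  div_pos (Mat.det' ((((AY.repA' ι X M).isK_iff h).1 hh).2 x)).1
    (Mat.det' ((((AY.repA' ι X M).isK_iff g).1 hg).2 x)).1

theorem vol_eq (hg : M.IsK g) (hh : M.IsK h) (hμ : M.IsVol g μ) (hν : M.IsVol h ν) :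
    ν = μ.withDensity fun x => ENNReal.ofReal (rat h g x) := by
  have A := AY.repA' ι X M
  have Vg := (AY.volS' ι X M g hg).2 μ hμ
  have Vh := (AY.volS' ι X M h hh).2 ν hν
  refine (Vh.uniq _ fun x => ?_).symm
  have he := M.ch_mem x
  set e := M.ch x
  have hs : e.source ∩ e ⁻¹' e.target = e.source :=
    inter_eq_left.2 fun y hy => e.map_source hy
  ext S hS
  have h1 := Vg.lint e he e.target e.open_target.measurableSet Subset.rfl
    (S.indicator fun y => ENNReal.ofReal (rat h g y))
  have h2 := Vh.lint e he e.target e.open_target.measurableSet Subset.rfl (S.indicator 1)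
  rw [hs] at h1 h2
  rw [lintegral_indicator_one hS] at h2
  rw [restrict_withDensity e.open_source.measurableSet, withDensity_apply _ hS,
    ← lintegral_indicator hS, h1, h2]
  refine setLIntegral_congr_fun e.open_target.measurableSet fun z hz => ?_
  by_cases hz' : e.symm z ∈ S
  · have h3 := A.rat_rep h g e he _ (e.map_target hz)
    rw [e.right_inv hz] at h3
    have h4 := (Mat.det' ((hg e he).2 z hz)).1
    simp only [indicator_of_mem hz', Pi.one_apply, mul_one]
    rw [← h3, ← ENNReal.ofReal_mul h4.le, mul_div_cancel₀ _ h4.ne']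
  · simp only [indicator_of_notMem hz', mul_zero]

theorem vol_int (hg : M.IsK g) (hh : M.IsK h) (hμ : M.IsVol g μ) (hν : M.IsVol h ν)
    (f : X → ℝ) : ∫ x, f x ∂ν = ∫ x, f x * rat h g x ∂μ := by
  rw [vol_eq hg hh hμ hν, integral_withDensity_eq_integral_toReal_smul
    (rat_cont hg hh).measurable.ennreal_ofReal (Eventually.of_forall fun _ => ENNReal.ofReal_lt_top)]
  refine integral_congr_ae (Eventually.of_forall fun x => ?_)
  simp only [ENNReal.toReal_ofReal (rat_pos hg hh x).le, smul_eq_mul, mul_comm]

theorem vol_real (hg : M.IsK g) (hh : M.IsK h) (hμ : M.IsVol g μ) (hν : M.IsVol h ν)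
    {S : Set X} (hS : MeasurableSet S) : ν.real S = ∫ x in S, rat h g x ∂μ := by
  rw [← integral_indicator_one hS, vol_int hg hh hμ hν, ← integral_indicator hS]
  refine integral_congr_ae (Eventually.of_forall fun x => ?_)
  by_cases hx : x ∈ S
  · simp only [indicator_of_mem hx, Pi.one_apply, one_mul]
  · simp only [indicator_of_notMem hx, zero_mul]

/-- comparison of the two measures. -/
theorem vol_le (hg : M.IsK g) (hh : M.IsK h) (hμ : M.IsVol g μ) (hν : M.IsVol h ν) {C : ℝ}
    (hC : ∀ x, rat h g x ≤ C) {S : Set X} (hS : MeasurableSet S) : ν.real S ≤ C * μ.real S := by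
  have := ((AY.volS' ι X M g hg).2 μ hμ).fin
  rw [vol_real hg hh hμ hν hS, mul_comm, ← smul_eq_mul, ← setIntegral_const]
  exact setIntegral_mono ((rat_cont hg hh).integrable_of_hasCompactSupport
    (HasCompactSupport.of_compactSpace _)).integrableOn (integrable_const _).integrableOn hC

end Pool.Agent.Lib.MP_813db1_ag.AS
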