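import Pool.Agent.Lib.MP_813db1_ag.AS.IterDefs
import Pool.Agent.Lib.MP_813db1_ag.AS.One
import Pool.Agent.Lib.MP_813db1_ag.AS.VolR
import Pool.Agent.Lib.MP_813db1_ag.HS.Weight
import Pool.Agent.Lib.MP_813db1_ag.HS.Den

/-! The iteration, the relative uniform estimate and the gap estimate. -/

namespace Pool.Agent.Lib.MP_813db1_ag.AS

open Pool.Agent.Lib.MP_813db1_ag.HS
open MeasureTheory Complex Matrix Filter Topology Set Metric
open scoped ContDiff ComplexOrder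

namespace Iter

/-- the choice of the constants. -/
theorem seq (n : ℕ) {A a B τ : ℝ} (hA : 0 ≤ A) (ha : 0 < a) (hB : 0 < B) (hτ : 0 < τ) :
    ∃ t ≥ (1 : ℝ), ∃ k : ℕ → ℝ, (∀ j, 0 < k j) ∧
      (∀ j : ℕ, 9 * (B * Real.exp (-(a * (t * (j + 1))))) * (1 + A / k j) ^ n ≤ 1) ∧
      ∀ N, ∑ j ∈ Finset.range N, k j * (1 + t * (j + 2)) ≤ τ := by
  set c := 4 * (1 + 4 * A / τ) with hc
  have c0 : 0 ≤ 4 * A / τ := by positivity
  have h1 : Tendsto (fun t : ℝ => (c / a) ^ n * ((a * t) ^ n * Real.exp (-(a * t)))) atTop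
      (𝓝 ((c / a) ^ n * 0)) :=
    ((Real.tendsto_pow_mul_exp_neg_atTop_nhds_zero n).comp
      (tendsto_id.const_mul_atTop ha)).const_mul _
  rw [mul_zero] at h1
  have p : 0 < min 1 (1 / (9 * B)) := lt_min one_pos (by positivity)
  obtain ⟨t, t1, t2⟩ := ((eventually_ge_atTop (1 : ℝ)).and (h1.eventually (gt_mem_nhds p))).exists
  have t0 : 0 < t := by linarith
  have e1 : (c / a) ^ n * ((a * t) ^ n * Real.exp (-(a * t))) =
      (c * t) ^ n * Real.exp (-(a * t)) := by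
    rw [← mul_assoc, ← mul_pow]
    congr 2
    field_simp
  rw [e1] at t2
  refine ⟨t, t1, fun j => τ / (4 * t * (j + 2) * 2 ^ j), fun j => by positivity, fun j => ?_,
    fun N => ?_⟩
  · have h2 : ((j : ℝ) + 2) * 2 ^ j ≤ 4 ^ (j + 1) := by
      have h3 : (j : ℝ) + 1 ≤ 2 ^ j := by exact_mod_cast Nat.lt_two_pow_self
      have h4 : (4 : ℝ) ^ (j + 1) = 4 * 2 ^ j * 2 ^ j := by
        rw [pow_succ, show (4 : ℝ) = 2 * 2 by norm_num, mul_pow]; ring
      rw [h4]
      have h5 : (0 : ℝ) ≤ j := Nat.cast_nonneg j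
      exact mul_le_mul_of_nonneg_right (by linarith) (by positivity)
    have h3 : (1 : ℝ) ≤ 4 ^ (j + 1) := one_le_pow₀ (by norm_num)
    have h4 : 1 ≤ (1 + 4 * A / τ) * t := by nlinarith
    have h5 : 1 + A / (τ / (4 * t * (j + 2) * 2 ^ j)) ≤ (c * t) ^ (j + 1) := by
      have e2 : A / (τ / (4 * t * (j + 2) * 2 ^ j)) = 4 * A / τ * t * ((j + 2) * 2 ^ j) := by
        field_simp
      have e3 : (c * t) ^ (j + 1) = ((1 + 4 * A / τ) * t) ^ (j + 1) * 4 ^ (j + 1) := by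
        rw [← mul_pow, hc]; congr 1; ring
      have h6 : (1 + 4 * A / τ) * t ≤ ((1 + 4 * A / τ) * t) ^ (j + 1) :=
        le_self_pow₀ h4 (Nat.succ_ne_zero j)
      have h7 := mul_le_mul_of_nonneg_left h2 (mul_nonneg c0 t0.le)
      have h8 := mul_le_mul_of_nonneg_right h6 (zero_le_one.trans h3)
      rw [e2, e3]
      nlinarith
    have h6 : (1 + A / (τ / (4 * t * (j + 2) * 2 ^ j))) ^ n ≤ ((c * t) ^ n) ^ (j + 1) := by
      rw [← pow_mul, mul_comm n, pow_mul]
      exact pow_le_pow_left₀ (by positivity) h5 n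
    have h7 : Real.exp (-(a * (t * (j + 1)))) = Real.exp (-(a * t)) ^ (j + 1) := by
      rw [← Real.exp_nat_mul]; congr 1; push_cast; ring
    have h8 : ((c * t) ^ n * Real.exp (-(a * t))) ^ (j + 1) ≤ (c * t) ^ n * Real.exp (-(a * t)) :=
      pow_le_of_le_one (by positivity) (t2.le.trans (min_le_left _ _)) (Nat.succ_ne_zero j)
    have h9 := (le_div_iff₀ (by positivity)).1 (h8.trans (t2.le.trans (min_le_right _ _)))
    rw [mul_pow] at h9
    have h10 := mul_le_mul_of_nonneg_left h6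
      (show 0 ≤ 9 * (B * Real.exp (-(a * t)) ^ (j + 1)) by positivity)
    rw [h7]
    exact h10.trans (by linarith)
  · calc ∑ j ∈ Finset.range N, τ / (4 * t * (j + 2) * 2 ^ j) * (1 + t * (j + 2))
        ≤ ∑ j ∈ Finset.range N, τ / 2 * (1 / 2) ^ j := by
          refine Finset.sum_le_sum fun j _ => ?_
          have h5 : (0 : ℝ) ≤ j := Nat.cast_nonneg j
          have h2 : 1 + t * (j + 2) ≤ 2 * (t * (j + 2)) := by nlinarith
          refine (mul_le_mul_of_nonneg_left h2 (by positivity)).trans (le_of_eq ?_)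
          rw [one_div, inv_pow]
          field_simp
          ring
      _ ≤ τ / 2 * 2 := by
          rw [← Finset.mul_sum]
          exact mul_le_mul_of_nonneg_left (sum_geometric_two_le N) (by positivity)
      _ = τ := by ring

variable {ι X : Type} [Fintype ι] [DecidableEq ι] [Nonempty ι] [TopologicalSpace X] [T2Space X]
  [CompactSpace X] [MeasurableSpace X] [BorelSpace X]

/-- the tail bound for potentials relative to `h`. -/
def Tl (M : Atl ι X) (h : X → Mat ι) (ν : Measure X) (a B m : ℝ) : Prop :=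
  ∀ η x0, M.Ck ∞ η → M.IsK (fun x => h x + M.ddc η x) → (∀ x, η x ≤ η x0) → ∀ T ≥ (0 : ℝ),
    ν.real {y | m + T ≤ η x0 - η y} ≤ B * Real.exp (-(a * T)) * ν.real univ

/-- the iteration. -/
theorem iter [Nonempty X] (M : Atl ι X) {A a B τ : ℝ} (hA : 0 ≤ A) (ha : 0 < a) (hB : 0 < B)
    (hτ : 0 < τ) : ∃ φ > (0 : ℝ), ∀ (h : X → Mat ι) (ν : Measure X) (m : ℝ) (Ψ : X → ℝ) (s : ℝ),
      M.IsK h → M.IsVol h ν → 0 ≤ m → Tl M h ν a B m → UpperSemicontinuous Ψ →
      BddBelow (range Ψ) → (∀ y, s ≤ Ψ y → Barr M h Ψ A y) →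
      ν.real {y | s ≤ Ψ y} ≤ φ * ν.real univ → ν {y | s + τ * (m + 1) ≤ Ψ y} = 0 := by
  obtain ⟨t, t1, k, k0, k1, k2⟩ := seq (Fintype.card ι) hA ha hB hτ
  refine ⟨B * Real.exp (-(a * (t * ((0 : ℕ) + 1)))), by positivity,
    fun h ν m Ψ s hK hV hm hT hu hb hβ h0 => ?_⟩
  have := ((AY.volS' ι X M h hK).2 ν hV).fin
  have p : ∀ j : ℕ, 0 ≤ t * (j + 2) := fun j => by positivity
  have h1 : ∀ j : ℕ, ν.real {y | s + ∑ i ∈ Finset.range j, k i * (m + t * (i + 2)) ≤ Ψ y} ≤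
      B * Real.exp (-(a * (t * (j + 1)))) * ν.real univ := fun j => by
    induction j with
    | zero => simpa using h0
    | succ j ih =>
      have h2 : 0 ≤ ∑ i ∈ Finset.range j, k i * (m + t * (i + 2)) :=
        Finset.sum_nonneg fun i _ => mul_nonneg (k0 i).le (add_nonneg hm (p i))
      obtain ⟨η, x0, e1, e2, e3, e4⟩ := oneS ι X M h ν Ψ _ A _ (k j) hK hV hu hb hA
        (by positivity) (k0 j) (k1 j) ih fun y hy => hβ y (by linarith)
      refine (measureReal_mono fun y hy => ?_).trans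
        ((hT η x0 e1 e2 e3 _ (p j)).trans (le_of_eq ?_))
      · have h3 := e4 y
        rw [mem_ofPred_eq, Finset.sum_range_succ] at hy
        exact le_of_mul_le_mul_left (by linarith) (k0 j)
      · congr 4; push_cast; ring
  have h2 : ∀ j : ℕ, ν.real {y | s + τ * (m + 1) ≤ Ψ y} ≤
      B * Real.exp (-(a * (t * (j + 1)))) * ν.real univ := fun j => by
    refine (measureReal_mono fun y hy => ?_).trans (h1 j)
    have h3 : ∑ i ∈ Finset.range j, k i * (m + t * (i + 2)) ≤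
        (∑ i ∈ Finset.range j, k i * (1 + t * (i + 2))) * (m + 1) := by
      rw [Finset.sum_mul]
      refine Finset.sum_le_sum fun i _ => ?_
      rw [mul_assoc]
      exact mul_le_mul_of_nonneg_left (by nlinarith [p i]) (k0 i).le
    have h4 := mul_le_mul_of_nonneg_right (k2 j) (show 0 ≤ m + 1 by linarith)
    rw [mem_ofPred_eq] at hy ⊢
    linarith
  have h3 : Tendsto (fun j : ℕ => B * Real.exp (-(a * (t * (j + 1)))) * ν.real univ) atTop
      (𝓝 (B * 0 * ν.real univ)) :=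
    ((Real.tendsto_exp_neg_atTop_nhds_zero.comp
      (((tendsto_atTop_add_const_right _ 1 tendsto_natCast_atTop_atTop).const_mul_atTop
        (by linarith : 0 < t)).const_mul_atTop ha)).const_mul _).mul_const _
  rw [mul_zero, zero_mul] at h3
  exact (measureReal_eq_zero_iff (measure_ne_top _ _)).1
    (le_antisymm (ge_of_tendsto' h3 h2) measureReal_nonneg)

omit [Nonempty ι] [T2Space X] [MeasurableSpace X] [BorelSpace X] in
theorem exL (M : Atl ι X) {g : X → Mat ι} (hK : M.IsK g) : ∃ L : ℝ, ∀ ε ≤ (1 : ℝ), ∀ χ,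
    M.IsK (M.hm g ε χ) → ∀ x, ((L : ℂ) • g x + M.ddc χ x).PosSemidef := by
  have ha := AY.repA' ι X M
  have pd := ((ha.isK_iff g).1 hK).2
  have hR := (AY.repB' ι X M).ric_cl g hK
  have sm : M.SmF fun x => M.ricF g x * (g x)⁻¹ * M.ricF g x := fun e he z hz i j => by
    refine ((((hR e he).1.mul ((hK e he).1.1.inv fun w hw => ((hK e he).2 w hw).det_pos.ne')).mul
      (hR e he).1) z hz i j).congr_of_eventuallyEq ?_
    filter_upwards [e.open_target.mem_nhds hz] with w hw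
    rw [ha.repF_mul _ _ _ e he w hw]
  obtain ⟨T, hT⟩ := isCompact_univ.exists_bound_of_continuousOn
    (Den.cont ha (ha.ck_trm g _ hK sm)).continuousOn
  refine ⟨(1 + T) / 2 + 1, fun ε hε χ hH x => ?_⟩
  have := ((((ha.isK_iff _).1 hH).2 x).posSemidef.add ((pd x).posSemidef.smul
    (zero_le_real.2 (sub_nonneg.2 hε)))).add
    (Den.psd_low mat (pd x) (ha.herm _ hR x) ((le_abs_self _).trans (hT x (mem_univ x))))
  convert this using 1
  ext i j
  simp only [Atl.hm, Matrix.add_apply, Matrix.sub_apply, Matrix.smul_apply, smul_eq_mul]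
  push_cast
  ring

omit [Nonempty ι] in
/-- the tails for the normalised volume of the twisted metrics. -/
theorem tail [ConnectedSpace X] (ht : TailH) (M : Atl ι X) {g : X → Mat ι} (hK : M.IsK g) :
    ∃ a > (0 : ℝ), ∃ B > (0 : ℝ), ∀ ε ≤ (1 : ℝ), ∀ u ν, M.Sol g ε u → M.IsVol (M.hm g ε u) ν →
      ∀ χ x1, M.Ck ∞ χ → M.IsK (M.hm g ε χ) → (∀ x, χ x ≤ χ x1) → ∀ T ≥ (0 : ℝ),
        ν.real {y | T ≤ χ x1 - χ y} ≤ B * Real.exp (-(a * T)) * ν.real univ := by
  have hA := AY.repA' ι X M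
  obtain ⟨⟨μ, hμ⟩, hv⟩ := AY.volS' ι X M g hK
  have := (hv μ hμ).fin
  have := (hv μ hμ).pos
  obtain ⟨L, hL⟩ := exL M hK
  obtain ⟨a, ha, B, hB, h1⟩ := ht ι X M g μ L hK hμ
  obtain ⟨W, hW⟩ := weight AY.repA' AY.repB' AY.volS' mat ι X M g μ L hK hμ
  have hp : 0 < μ.real univ :=
    ENNReal.toReal_pos (isOpen_univ.measure_ne_zero μ univ_nonempty) (measure_ne_top μ _)
  refine ⟨a, ha, Real.exp (W / μ.real univ) / μ.real univ * B, by positivity,
    fun ε hε u ν hS hν χ x1 c1 c2 c3 T hT => ?_⟩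
  obtain ⟨hu, hH, he⟩ := hS
  have := ((AY.volS' ι X M _ hH).2 ν hν).fin
  have := ((AY.volS' ι X M _ hH).2 ν hν).pos
  have hq : 0 < ν.real univ :=
    ENNReal.toReal_pos (isOpen_univ.measure_ne_zero ν univ_nonempty) (measure_ne_top ν _)
  have cu := Den.cont hA hu
  have cχ := Den.cont hA c1
  obtain ⟨x0, -, hx0⟩ := isCompact_univ.exists_isMaxOn univ_nonempty cu.continuousOn
  have hx : ∀ x, u x ≤ u x0 := fun x => hx0 (mem_univ x)
  have e1 := vol_real hK hH hμ hν MeasurableSet.univ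
  simp only [he, Measure.restrict_univ] at e1
  obtain ⟨k2, -⟩ := Den.expb (μ := μ) (w := fun x => u x - Real.log (ν.real univ)) (B := W)
    (s := u x0 - Real.log (ν.real univ)) (by fun_prop) hp
    (by simp only [Real.exp_sub, Real.exp_log hq]; rw [integral_div, ← e1, div_self hq.ne'])
    (fun x => by linarith [hx x])
    (by simpa only [sub_sub_sub_cancel_right] using hW u hu (hL ε hε u hH) x0 hx)
  rw [Real.exp_sub, Real.exp_log hq, div_le_iff₀ hq] at k2
  have k3 := vol_le hK hH hμ hν (fun x => (he x).le.trans ((Real.exp_le_exp.2 (hx x)).trans k2))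
    (S := {y | T ≤ χ x1 - χ y}) (isClosed_le (by fun_prop) (by fun_prop)).measurableSet
  refine k3.trans ((mul_le_mul_of_nonneg_left (h1 χ c1 (hL ε hε χ c2) x1 c3 T hT)
    (by positivity)).trans (le_of_eq (by ring)))

omit [Nonempty ι] [T2Space X] [CompactSpace X] [MeasurableSpace X] [BorelSpace X] in
theorem barr (M : Atl ι X) {g : X → Mat ι} {ε c : ℝ} {u χ : X → ℝ} (hu : M.Ck ∞ u)
    (hχ : M.Ck ∞ χ) (h1 : M.IsK (M.hm g ε u)) (h2 : M.IsK (M.hm g ε χ)) (y : X) :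
    Barr M (M.hm g ε u) (fun x => χ x + -1 * u x + c) (Fintype.card ι) y := by
  have hA := AY.repA' ι X M
  have hB := AY.repB' ι X M
  have u2 : M.Ck 2 u := Den.ck_le hu (by norm_cast)
  have χ2 : M.Ck 2 χ := Den.ck_le hχ (by norm_cast)
  have k0 : ∀ c : ℝ, M.Ck 2 fun _ => c := fun c e he z hz => contDiffAt_const
  have k1 : M.Ck 2 fun x => χ x + -1 * u x :=
    (hB.ck_add 2 _ _ χ2 (hB.ck_add 2 _ _ (k0 _) u2).2).1
  have k2 : M.Ck 2 fun x => χ x + -1 * u x + c := (hB.ck_add 2 _ _ k1 (k0 c)).1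
  have k3 := k2 _ (M.ch_mem y) _ ((M.ch y).map_source (M.mem y))
  have k4 : M.ddc (fun x => χ x + -1 * u x + c) y = M.hm g ε χ y - M.hm g ε u y := by
    have := hB.ddc_add _ _ k1 (k0 c) 1 y
    simp only [one_mul] at this
    rw [this, hB.ddc_add _ _ χ2 u2, hB.ddc_const]
    simp [Atl.hm, sub_eq_add_neg]
    abel
  refine ⟨fun z => χ ((M.ch y).symm z) + -1 * u ((M.ch y).symm z) + c,
    (reCLM.contDiff.contDiffAt.comp _ k3).congr_of_eventuallyEq (.of_forall fun z => rfl),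
    by simp only [(M.ch y).left_inv (M.mem y)], .of_forall fun z => le_rfl, ?_⟩
  have p1 := ((hA.isK_iff _).1 h1).2 y
  have p2 := mat.trm_nonneg ι _ _ p1 (((hA.isK_iff _).1 h2).2 y).posSemidef
  have p3 : IsUnit (M.hm g ε u y).det := (isUnit_iff_isUnit_det _).1 p1.isUnit
  refine le_of_le_of_eq ?_ (congrArg (trm (M.hm g ε u y)) k4).symm
  simp only [trm, Matrix.sub_mul, mul_nonsing_inv _ p3, trace_sub, trace_one, sub_re,
    natCast_re] at p2 ⊢
  linarith

/-- the relative uniform estimate. -/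
theorem sup [ConnectedSpace X] (ht : TailH) (M : Atl ι X) {g : X → Mat ι} (hK : M.IsK g) :
    ∃ a > (0 : ℝ), ∃ B > (0 : ℝ), ∃ m ≥ (0 : ℝ), ∀ ε ≤ (1 : ℝ), ∀ u ν, M.Sol g ε u →
      M.IsVol (M.hm g ε u) ν → Tl M (M.hm g ε u) ν a B m := by
  have hA := AY.repA' ι X M
  have hB := AY.repB' ι X M
  obtain ⟨a, ha, B, hB0, h1⟩ := tail ht M hK
  obtain ⟨φ, hφ, h2⟩ := iter M (Nat.cast_nonneg (Fintype.card ι)) ha hB0 one_half_pos
  have h3 : Tendsto (fun s : ℝ => B * Real.exp (-(a * s))) atTop (𝓝 (B * 0)) :=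
    (Real.tendsto_exp_neg_atTop_nhds_zero.comp (tendsto_id.const_mul_atTop ha)).const_mul _
  rw [mul_zero] at h3
  obtain ⟨s, s0, s1⟩ := ((eventually_ge_atTop (0 : ℝ)).and (h3.eventually (gt_mem_nhds hφ))).exists
  refine ⟨a, ha, B, hB0, 2 * s + 1, by linarith, fun ε hε u ν hS hν => ?_⟩
  have h4 := h1 ε hε u ν hS hν
  obtain ⟨hu, hH, -⟩ := hS
  have := ((AY.volS' ι X M _ hH).2 ν hν).fin
  have := ((AY.volS' ι X M _ hH).2 ν hν).pos
  have cu := Den.cont hA hu
  obtain ⟨x0, -, hx0⟩ := isCompact_univ.exists_isMaxOn univ_nonempty cu.continuousOn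
  have hx : ∀ x, u x ≤ u x0 := fun x => hx0 (mem_univ x)
  obtain ⟨x2, -, hx2⟩ := isCompact_univ.exists_isMinOn univ_nonempty cu.continuousOn
  set P : Set ℝ := {r | ∃ χ x1 y, M.Ck ∞ χ ∧ M.IsK (M.hm g ε χ) ∧ (∀ x, χ x ≤ χ x1) ∧
    r = χ y + -1 * u y + (u x0 - χ x1)} with hP
  have p1 : BddAbove P := ⟨u x0 - u x2, by
    rintro _ ⟨χ, x1, y, -, -, c, rfl⟩
    have : u x2 ≤ u y := hx2 (mem_univ y)
    linarith [c y]⟩
  have p2 : (0 : ℝ) ∈ P := ⟨u, x0, x0, hu, hH, hx, by ring⟩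
  have p3 : Tl M (M.hm g ε u) ν a B (sSup P) := fun η x3 e1 e2 e3 T hT => by
    have c1 : M.Ck ∞ fun x => u x + η x := (hB.ck_add ⊤ _ _ hu e1).1
    have c2 : M.IsK (M.hm g ε fun x => u x + η x) := by
      convert e2 using 2 with x
      have := hB.ddc_add _ _ (Den.ck_le hu (by norm_cast)) (Den.ck_le e1 (by norm_cast)) 1 x
      simp only [one_mul, ofReal_one, one_smul] at this
      simp only [Atl.hm, this, add_assoc]
    obtain ⟨x1, -, hx1⟩ :=
      isCompact_univ.exists_isMaxOn univ_nonempty (Den.cont hA c1).continuousOn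
    have c3 : ∀ x, u x + η x ≤ u x1 + η x1 := fun x => hx1 (mem_univ x)
    refine (measureReal_mono fun y hy => ?_).trans (h4 _ x1 c1 c2 c3 T hT)
    have c4 := le_csSup p1 ⟨_, x1, x3, c1, c2, c3, rfl⟩
    rw [mem_ofPred_eq] at hy ⊢
    linarith [hx y]
  have p4 : sSup P ≤ s + 1 / 2 * (sSup P + 1) := csSup_le ⟨0, p2⟩ <| by
    rintro _ ⟨χ, x1, y, c1, c2, c3, rfl⟩
    have cχ := Den.cont hA c1
    have c4 : Continuous fun x => χ x + -1 * u x + (u x0 - χ x1) := by fun_prop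
    have c5 := h2 _ ν _ _ s hH hν (le_csSup p1 p2) p3 c4.upperSemicontinuous
      (isCompact_range c4).bddBelow (fun y _ => barr M hu c1 hH c2 y)
      ((measureReal_mono fun y hy => ?_).trans ((h4 u x0 hu hH hx s s0).trans
        (mul_le_mul_of_nonneg_right s1.le measureReal_nonneg)))
    · by_contra h
      exact (isOpen_lt continuous_const c4).measure_ne_zero ν ⟨y, not_le.1 h⟩
        (measure_mono_null (fun z hz => mem_ofPred_eq ▸ le_of_lt hz) c5)
    · rw [mem_ofPred_eq] at hy ⊢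
      linarith [c3 y]
  refine fun η x3 e1 e2 e3 T hT => (measureReal_mono fun y hy => ?_).trans (p3 η x3 e1 e2 e3 T hT)
  rw [mem_ofPred_eq] at hy ⊢
  linarith

end Iter

theorem gapS (ht : TailH) : GapS := by
  intro ι X _ _ _ _ _ _ _ _ _ M g hK A δ hA hδ
  obtain ⟨a, ha, B, hB, m, hm, h1⟩ := Iter.sup ht M hK
  obtain ⟨φ, hφ, h2⟩ := Iter.iter M hA ha hB (show 0 < δ / (m + 1) by positivity)
  refine ⟨φ, hφ, fun ε hε u ν hS hν Ψ s p1 p2 p3 p4 => ?_⟩
  have := h2 _ ν m Ψ s hS.2.1 hν hm (h1 ε hε.2 u ν hS hν) p1 p2 p3 p4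
  rwa [div_mul_cancel₀ _ (by positivity)] at this

end Pool.Agent.Lib.MP_813db1_ag.AS
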