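import Pool.Agent.Lib.MP_813db1_ag.AS.MetDefs

/-! The barrier function. -/

namespace Pool.Agent.Lib.MP_813db1_ag.AS

open Pool.Agent.Lib.MP_813db1_ag.HS Pool.Agent.Lib.MP_bbd4b9_ag Pool.Agent.Lib.MP_bbd4b9_ag.LC
open MeasureTheory Filter Topology Set Metric
open scoped ContDiff ComplexOrder

theorem brS (hB : LC.BarS) (hM : LC.MinS) (hD : LC.DcS) : BrS := by
  intro ι X _ _ _ _ _ M h c hh hc hr x
  have c0 : ∀ p q, 0 ≤ c p q := fun p q => by
    by_cases e : p = q
    · rw [e, hc.zero]
    · exact (hc.pos p q e).le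
  filter_upwards [hB ι X M h c 1 1 1 hh hc zero_le_one one_pos, eventually_gt_atTop 0]
    with k kB k0
  obtain ⟨m1, m2, -, m4, -, m6⟩ := hM X Unit c (fun _ _ => 1) k x 1 hc.cont c0 k0
    fun s _ _ i _ => ⟨univ, univ_mem, univ_mem, fun _ _ _ _ _ _ => rfl⟩
  set ρ := rho c (fun _ _ => (1 : Unit)) k x 1
  refine ⟨fun y => 1 - ρ y 1, fun y t ht => ?_, fun y => ?_, ?_, fun y hy => ?_⟩
  · filter_upwards [m6 y 1 (1 - t) (by linarith)] with z hz
    have : 1 - t < ρ z 1 := hz
    linarith
  · have := m1 y 1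
    constructor <;> linarith [this.1, this.2]
  · have a : Continuous fun y => (k : ℝ) * c x y :=
      continuous_const.mul (hc.cont.comp (continuous_const.prodMk continuous_id))
    have b : ∀ᶠ y in 𝓝 x, (k : ℝ) * c x y < 1 / 2 :=
      a.continuousAt.eventually_lt continuousAt_const (by rw [hc.zero]; norm_num)
    filter_upwards [b] with y hy
    obtain ⟨k', e⟩ := Nat.exists_eq_add_of_le' (Nat.succ_le_of_lt k0)
    have h1 := m2 (fun i => if i = 0 then x else y) (if_pos rfl)
    have h2 : act c k (fun i => if i = 0 then x else y) = c x y := by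
      rw [e, act, Finset.sum_range_succ']
      simp [hc.zero]
    rw [h2, if_neg k0.ne'] at h1
    have : ρ y 1 ≤ k * c x y := h1
    linarith
  · obtain ⟨s, s0, rfl, -, se, smin⟩ := m4 y 1 (by linarith)
    have sR : k * act c k s ≤ 1 := by linarith
    refine ⟨?_, s, s0, rfl, sR⟩
    obtain ⟨Y, -, Y0, Ys, Fc, Fl, -⟩ := kB s (by linarith) (fun i _ => by simpa using hr (s i)) smin
    refine ⟨fun z => 1 - k * act c k (Y z), contDiffAt_const.sub Fc, by simp only [Ys, se],
      Eventually.of_forall fun z => ?_, ?_⟩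
    · have h4 := m2 (Y z) ((Y0 z).1.trans s0)
      rw [(Y0 z).2] at h4
      have : ρ ((M.ch (s k)).symm z) 1 ≤ k * act c k (Y z) := h4
      linarith
    · have e := hD.br3 ι (fun z => k * act c k (Y z)) (fun t => 1 - t) _ Fc (by fun_prop)
      have d1 : deriv (fun t : ℝ => 1 - t) = fun _ => -1 := by
        funext t
        simp
      rw [d1] at e
      simp only [deriv_const', Complex.ofReal_zero, zero_smul, add_zero, Complex.ofReal_neg,
        Complex.ofReal_one, neg_smul, one_smul] at e
      rw [e]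
      unfold trm at Fl ⊢
      rw [neg_mul, Matrix.trace_neg, Complex.neg_re]
      linarith

end Pool.Agent.Lib.MP_813db1_ag.AS
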