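import Pool.Agent.Lib.MP_813db1_ag.AS.MetDefs

/-! The covering bound for the metric on the covering space. -/

namespace Pool.Agent.Lib.MP_813db1_ag.AS

open Pool.Agent.Lib.MP_813db1_ag.HS Pool.Agent.Lib.MP_bbd4b9_ag Pool.Agent.Lib.MP_bbd4b9_ag.LC
open MeasureTheory Filter Topology Set Metric
open scoped ContDiff ComplexOrder

namespace MetCov

/-- a bound for separated sets gives a covering. -/
theorem cover {Y : Type} [PseudoMetricSpace Y] (y : Y) {r R B : ℝ} (hr : 0 < r)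
    (h : ∀ T : Finset Y, (∀ t ∈ T, t ∈ ball y R) →
      (∀ t ∈ T, ∀ t' ∈ T, dist t t' < r → t = t') → (T.card : ℝ) ≤ B) :
    ∃ T : Finset Y, (T.card : ℝ) ≤ B ∧ ball y R ⊆ ⋃ t ∈ T, ball t r := by
  classical
  by_contra hn
  have key : ∀ n : ℕ, ∃ T : Finset Y, T.card = n ∧ (∀ t ∈ T, t ∈ ball y R) ∧
      ∀ t ∈ T, ∀ t' ∈ T, dist t t' < r → t = t' := by
    intro n
    induction n with
    | zero => exact ⟨∅, rfl, by simp, by simp⟩
    | succ n ih =>
      obtain ⟨T, h1, h2, h3⟩ := ih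
      have h4 : ¬ ball y R ⊆ ⋃ t ∈ T, ball t r := fun h5 => hn ⟨T, h T h2 h3, h5⟩
      obtain ⟨z, hz, hz'⟩ := not_subset.1 h4
      have h6 : ∀ t ∈ T, ¬ dist z t < r := fun t ht h7 => hz' (mem_iUnion₂.2 ⟨t, ht, h7⟩)
      have h7 : z ∉ T := fun h8 => h6 z h8 (by rwa [dist_self])
      refine ⟨insert z T, by rw [Finset.card_insert_of_notMem h7, h1], fun t ht => ?_,
        fun t ht t' ht' hd => ?_⟩
      · rcases Finset.mem_insert.1 ht with rfl | ht
        exacts [hz, h2 t ht]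
      · rcases Finset.mem_insert.1 ht with e | q <;> rcases Finset.mem_insert.1 ht' with e' | q'
        · rw [e, e']
        · exact absurd (e ▸ hd) (h6 _ q')
        · exact absurd (by rwa [dist_comm, e'] at hd) (h6 _ q)
        · exact h3 t q t' q' hd
  obtain ⟨n, hn'⟩ := exists_nat_gt B
  obtain ⟨T, h1, h2, h3⟩ := key n
  have := h T h2 h3
  rw [h1] at this
  linarith

/-- counting disjoint images. -/
theorem sum_le {α G : Type} (T : Finset α) (S : α → Set G) {S' : Set G} (hS' : S'.Finite)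
    (f : α → G → G) (hf : ∀ t, Function.Injective (f t)) (hm : ∀ t ∈ T, ∀ b ∈ S t, f t b ∈ S')
    (hi : ∀ t ∈ T, ∀ t' ∈ T, ∀ b ∈ S t, ∀ b' ∈ S t', f t b = f t' b' → t = t') :
    ∑ t ∈ T, (S t).ncard ≤ S'.ncard := by
  classical
  have e : ∀ t ∈ T, (S t).ncard = (hS'.toFinset.filter (· ∈ f t '' S t)).card := by
    intro t ht
    rw [← Set.ncard_image_of_injective _ (hf t), ← Set.ncard_coe_finset]
    congr 1
    ext b
    simp only [Finset.coe_filter, Set.Finite.mem_toFinset, mem_ofPred_eq]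
    exact ⟨fun hb => ⟨by obtain ⟨u, hu, rfl⟩ := hb; exact hm t ht u hu, hb⟩, fun hb => hb.2⟩
  rw [Finset.sum_congr rfl e, ← Finset.card_biUnion, Set.ncard_eq_toFinset_card _ hS']
  · exact Finset.card_le_card (Finset.biUnion_subset.2 fun t _ => Finset.filter_subset _ _)
  · intro t ht t' ht' hne
    refine Finset.disjoint_left.2 fun b hb hb' => hne ?_
    obtain ⟨u, hu, rfl⟩ := (Finset.mem_filter.1 hb).2
    obtain ⟨u', hu', e'⟩ := (Finset.mem_filter.1 hb').2
    exact hi t ht t' ht' u hu u' hu' e'.symm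

variable {ι X : Type} [Fintype ι] [DecidableEq ι] [TopologicalSpace X] {M : Atl ι X}
  {h : X → Mat ι} {c : X → X → ℝ} {l : ℝ}

theorem cost_smul (hc : Cost M h c) (hl : 0 < l) :
    Cost M (fun x => (l : ℂ) • h x) fun p q => l * c p q where
  zero x := by rw [hc.zero, mul_zero]
  pos x y hxy := mul_pos hl (hc.pos x y hxy)
  cont := continuous_const.mul hc.cont
  sm e he e' he' z hz w hw := contDiffAt_const.mul (hc.sm e he e' he' z hz w hw)
  jet e he z hz := by
    obtain ⟨C, hC⟩ := hc.jet e he z hz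
    refine ⟨l * C, hC.mono fun q hq => ?_⟩
    have e1 : nV (M.repF (fun x => (l : ℂ) • h x) e q.1) (q.2 - q.1) =
        l * nV (M.repF h e q.1) (q.2 - q.1) := by
      simp only [nV, ipV, Atl.repF, pull, Matrix.mul_smul, Matrix.smul_mul, Matrix.smul_apply,
        smul_eq_mul, mul_assoc, ← Finset.mul_sum, Complex.re_ofReal_mul]
    rw [e1, show fn2 (fun p q => l * c p q) e e q = l * fn2 c e e q from rfl, ← mul_sub, abs_mul,
      abs_of_pos hl, mul_assoc]
    exact mul_le_mul_of_nonneg_left hq hl.le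

omit [TopologicalSpace X] in
theorem act_smul (l : ℝ) (k : ℕ) (s : ℕ → X) :
    act (fun p q => l * c p q) k s = l * act c k s := by
  simp only [act, Finset.mul_sum]

theorem isK_smul (hA : RepA) (hh : M.IsK h) (hl : 0 < l) : M.IsK fun x => (l : ℂ) • h x := by
  obtain ⟨k1, k2⟩ := ((hA ι X M).isK_iff h).mp hh
  exact ((hA ι X M).isK_iff _).mpr
    ⟨(hA ι X M).clF_smul _ _ k1, fun x => (k2 x).smul (Complex.zero_lt_real.2 hl)⟩

theorem ric_smul (hA : RepA) (hB : RepB) (hM : MatS) (hh : M.IsK h) (hl : 0 < l) (x : X) :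
    M.ricF (fun x => (l : ℂ) • h x) x = M.ricF h x := by
  have k2 := (((hA ι X M).isK_iff h).mp hh).2
  have e1 : (fun y => Real.log (rat (fun x => (l : ℂ) • h x) h y)) =
      fun _ => Real.log (l ^ Fintype.card ι) := by
    funext y
    rw [rat, Matrix.det_smul, ← Complex.ofReal_pow, Complex.re_ofReal_mul,
      mul_div_assoc, div_self (hM.det ι _ (k2 y)).1.ne', mul_one]
  rw [(hB ι X M).ric_rat _ h (isK_smul hA hh hl) hh, e1, (hB ι X M).ddc_const, sub_zero]

end MetCov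

open MetCov in
theorem covS (hB : AF.Bish2) (hA : RepA) (hR : RepB) (hm : MatS) (hV : VolS) : CovS := by
  intro ι _ _ _
  obtain ⟨C, C0, hB⟩ := hB ι
  refine ⟨C * 240 ^ (2 * Fintype.card ι), ?_⟩
  intro X G _ _ _ _ _ _ M h c a δ _ hh hc hric hcoh D y r R hr hrR hR1
  have hR0 : 0 < R := hr.trans_le hrR
  refine cover y hr fun T hT hsep => ?_
  rcases T.eq_empty_or_nonempty with rfl | hne
  · rw [Finset.card_empty, Nat.cast_zero]
    positivity
  set l : ℝ := ((48 * R) ^ 2)⁻¹ with hl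
  have hl0 : 0 < l := by positivity
  set r0 : ℝ := r / (240 * R) with hr0
  have r0p : 0 < r0 := by positivity
  have r0s : r0 ≤ 1 / 240 := by
    rw [hr0, div_le_div_iff₀ (by positivity) (by norm_num)]
    linarith
  have hs : r0 ^ 2 < 1 ^ 2 := pow_lt_pow_left₀ (by linarith) r0p.le two_ne_zero
  have hb : (1 : ℝ) ^ 2 / 4 < 1 ^ 2 := by norm_num
  have k2 := (((hA ι X M).isK_iff h).mp hh).2
  have hh1 := isK_smul hA hh hl0
  have hc1 := cost_smul hc hl0
  set h1 : X → Mat ι := fun x => (l : ℂ) • h x with hh1d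
  set c1 : X → X → ℝ := fun p q => l * c p q with hc1d
  obtain ⟨⟨μ, hμ⟩, hV'⟩ := hV ι X M h1 hh1
  have hfin := (hV' μ hμ).fin
  have hpos := (hV' μ hμ).pos
  have hrat : ∀ y, 0 < rat h1 h1 y := fun y =>
    div_pos (hm.det ι _ ((((hA ι X M).isK_iff h1).1 hh1).2 y)).1
      (hm.det ι _ ((((hA ι X M).isK_iff h1).1 hh1).2 y)).1
  have z1 : M.Ck ∞ fun _ => (0 : ℝ) := fun e _ z _ => contDiffAt_const
  have z2 : ∀ y, M.grad h1 (fun _ => (0 : ℝ)) (fun _ => (0 : ℝ)) y ≤ 1 := by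
    intro y
    have := (hR ι X M).dfn_comp (fun _ => (0 : ℝ)) (fun _ => (0 : ℝ)) y
      (fun e _ z _ => contDiffAt_const) (differentiableAt_const _)
    simp only [deriv_const', Complex.ofReal_zero, zero_smul] at this
    simp [Atl.grad, this, grL]
  have z3 : ∀ y, (M.ricF h1 y + ((((1 : ℝ) ^ 2)⁻¹ : ℝ) : ℂ) • h1 y).PosSemidef := by
    intro y
    have e2 : 0 ≤ l - (48 ^ 2 : ℝ)⁻¹ := by
      rw [sub_nonneg, hl]
      exact inv_anti₀ (by positivity) (pow_le_pow_left₀ (by positivity) (by linarith) 2)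
    have h9 := (hric y).add ((k2 y).posSemidef.smul (Complex.zero_le_real.2 e2))
    rw [hh1d, ric_smul hA hR hm hh hl0]
    convert h9 using 1
    push_cast
    module
  have hall := (eventually_all_finset T).2 fun t (_ : t ∈ T) =>
    hB X G M h1 h1 μ c1 a (fun _ => 0) t.1 1 r0 hh1 hh1 hμ hc1 z1 z2 le_rfl r0p (by linarith)
      fun y _ => ⟨hcoh y, z3 y⟩
  obtain ⟨k, hk, dle, dge, hk0⟩ :=
    (hall.and ((D.le (r ^ 2)).and ((D.ge (3 * R)).and (eventually_gt_atTop 0)))).exists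
  obtain ⟨t0, ht0, hmin⟩ := T.exists_min_image
    (fun t => ∫ y, (AF.cnt c1 a k t.1 1 (r0 ^ 2) y : ℝ) * rat h1 h1 y ∂μ) hne
  obtain ⟨b1, b2, -, b4, b5⟩ := hk t0 ht0
  have near : ∀ t ∈ T, ∀ z γ, rho c1 a k t.1 1 z γ ≤ r0 ^ 2 →
      dist t (Tot.mk z (t.2 * γ)) ≤ 2 * (r / 5) := by
    intro t ht z γ hγ
    obtain ⟨s, s0, rfl, rfl, hs'⟩ := (hk t ht).2.2.1 z γ (hγ.trans_lt hs)
    rw [← hs', hc1d, act_smul, mul_left_comm, hl, inv_mul_le_iff₀ (by positivity)] at hγ
    have e : (48 * R) ^ 2 * r0 ^ 2 = (r / 5) ^ 2 := by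
      rw [hr0]
      field_simp
      norm_num
    rw [e] at hγ
    have h2 := dle s t.2 (hγ.trans (pow_le_pow_left₀ (by positivity) (by linarith) 2))
    rw [s0] at h2
    refine h2.trans (mul_le_mul_of_nonneg_left ?_ zero_le_two)
    exact Real.sqrt_le_iff.2 ⟨by positivity, hγ⟩
  have ptw : ∀ z, ∑ t ∈ T, AF.cnt c1 a k t.1 1 (r0 ^ 2) z ≤ AF.cnt c1 a k t0.1 1 (1 ^ 2 / 4) z := by
    intro z
    refine sum_le T (fun t => {γ | rho c1 a k t.1 1 z γ ≤ r0 ^ 2})
      ((b1 z).subset fun γ hγ => lt_of_le_of_lt hγ hb) (fun t γ => t0.2⁻¹ * (t.2 * γ))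
      (fun t γ γ' e => mul_left_cancel (mul_left_cancel e)) (fun t ht γ hγ => ?_)
      fun t ht t' ht' γ hγ γ' hγ' e => hsep t ht t' ht' ?_
    · have h2 : dist t0 (Tot.mk z (t.2 * γ)) < 3 * R := by
        have h3 := dist_triangle4 t0 y t (Tot.mk z (t.2 * γ))
        have h4 := mem_ball.1 (hT t0 ht0)
        have h5 := mem_ball'.1 (hT t ht)
        have h6 := near t ht z γ hγ
        linarith
      obtain ⟨s, s0, rfl, e, hs'⟩ := dge t0.1 z t0.2 (t.2 * γ) h2
      show rho c1 a k t0.1 1 (s k) (t0.2⁻¹ * (t.2 * γ)) ≤ 1 ^ 2 / 4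
      rw [← e, inv_mul_cancel_left]
      refine (b2 s s0).trans ?_
      rw [hc1d, act_smul, mul_left_comm, hl, inv_mul_le_iff₀ (by positivity)]
      refine hs'.trans (le_of_eq ?_)
      ring
    · have h3 := near t ht z γ hγ
      have h4 := near t' ht' z γ' hγ'
      rw [← mul_left_cancel e] at h4
      have h5 := dist_triangle_right t t' (Tot.mk z (t.2 * γ))
      linarith
  have hI : 0 < ∫ y, (AF.cnt c1 a k t0.1 1 (r0 ^ 2) y : ℝ) * rat h1 h1 y ∂μ := by
    rw [integral_pos_iff_support_of_nonneg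
      (fun y => mul_nonneg (Nat.cast_nonneg _) (hrat y).le) (b4 _ hs)]
    have hcy : Continuous fun y => (k : ℝ) * c1 t0.1 y :=
      continuous_const.mul (hc1.cont.comp (continuous_const.prodMk continuous_id))
    have hO : IsOpen {y | (k : ℝ) * c1 t0.1 y < r0 ^ 2} := isOpen_lt hcy continuous_const
    refine (hO.measure_pos μ ⟨t0.1, ?_⟩).trans_le (measure_mono fun y hy => ?_)
    · show (k : ℝ) * c1 t0.1 t0.1 < r0 ^ 2
      rw [hc1.zero, mul_zero]
      positivity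
    · refine mul_ne_zero (Nat.cast_ne_zero.2 ?_) (hrat y).ne'
      obtain ⟨κ', hκ'⟩ := Nat.exists_eq_add_of_le' (Nat.succ_le_of_lt hk0)
      have h2 := b2 (fun i => if i = 0 then t0.1 else y) (if_pos rfl)
      have h3 : act c1 k (fun i => if i = 0 then t0.1 else y) = c1 t0.1 y := by
        rw [hκ', act, Finset.sum_range_succ']
        simp [hc1.zero]
      rw [h3, if_neg hk0.ne'] at h2
      exact Set.ncard_ne_zero_of_mem (h2.trans (le_of_lt hy))
        ((b1 y).subset fun γ hγ => lt_of_le_of_lt hγ hs)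
  have h2 : ∑ t ∈ T, ∫ y, (AF.cnt c1 a k t.1 1 (r0 ^ 2) y : ℝ) * rat h1 h1 y ∂μ ≤
      ∫ y, (AF.cnt c1 a k t0.1 1 (1 ^ 2 / 4) y : ℝ) * rat h1 h1 y ∂μ := by
    rw [← integral_finsetSum _ fun t ht => (hk t ht).2.2.2.1 _ hs]
    refine integral_mono (integrable_finsetSum _ fun t ht => (hk t ht).2.2.2.1 _ hs)
      (b4 _ hb) fun z => ?_
    show ∑ t ∈ T, _ * _ ≤ _ * _
    rw [← Finset.sum_mul]
    refine mul_le_mul_of_nonneg_right ?_ (hrat z).le
    rw [← Nat.cast_sum]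
    exact Nat.cast_le.2 (ptw z)
  have h3 := Finset.card_nsmul_le_sum T _ _ hmin
  rw [nsmul_eq_mul] at h3
  refine (le_of_mul_le_mul_right ((h3.trans h2).trans b5) hI).trans (le_of_eq ?_)
  have e : 1 / r0 = 240 * (R / r) := by
    rw [hr0]
    field_simp
  rw [e, mul_pow, mul_assoc]

end Pool.Agent.Lib.MP_813db1_ag.AS
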