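import Pool.Agent.Lib.MP_813db1_ag.AS.MetDefs
import Pool.Agent.Lib.MP_bbd4b9_ag.AF.Coar

/-! The metric defined by chains. -/

namespace Pool.Agent.Lib.MP_813db1_ag.AS

open Pool.Agent.Lib.MP_bbd4b9_ag Pool.Agent.Lib.MP_bbd4b9_ag.LC
open Filter Topology Set Metric

namespace Dm

variable {X G : Type} [Group G] {c : X → X → ℝ} {a : X → X → G} {δ η : ℝ}

/-- chains with short steps. -/
def Chn (c : X → X → ℝ) (a : X → X → G) (η : ℝ) (x y : X) (γ : G) (L : ℝ) : Prop :=
  ∃ (k : ℕ) (s : ℕ → X), s 0 = x ∧ s k = y ∧ lab a s k = γ ∧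
    (∀ i < k, ell c (s i) (s (i + 1)) ≤ η) ∧ act (ell c) k s ≤ L

theorem ell_comm (p q : X) : ell c p q = ell c q p := by rw [ell, ell, add_comm]

theorem ell_nonneg (p q : X) : 0 ≤ ell c p q := Real.sqrt_nonneg _

theorem act_nonneg (k : ℕ) (s : ℕ → X) : 0 ≤ act (ell c) k s :=
  Finset.sum_nonneg fun _ _ => ell_nonneg _ _

theorem Chn.nonneg {x y : X} {γ : G} {L : ℝ} (h : Chn c a η x y γ L) : 0 ≤ L := by
  obtain ⟨k, s, -, -, -, -, h⟩ := h
  exact (act_nonneg k s).trans h

theorem Chn.mono {x y : X} {γ : G} {L L' : ℝ} (h : Chn c a η x y γ L) (hL : L ≤ L') :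
    Chn c a η x y γ L' := by
  obtain ⟨k, s, h0, hk, hl, hs, h⟩ := h
  exact ⟨k, s, h0, hk, hl, hs, h.trans hL⟩

theorem Chn.nil (x : X) : Chn c a η x x 1 0 :=
  ⟨0, fun _ => x, rfl, rfl, rfl, fun _ h => absurd h (Nat.not_lt_zero _), by simp [act]⟩

theorem Chn.one {p q : X} (h : ell c p q ≤ η) : Chn c a η p q (a p q) (ell c p q) :=
  ⟨1, fun i => if i = 0 then p else q, by simp, by simp, by simp [lab], fun i hi => by
    obtain rfl : i = 0 := by omega
    simpa using h, by simp [act]⟩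

theorem Chn.cat {x y z : X} {γ γ' : G} {L L' : ℝ} (h : Chn c a η x y γ L)
    (h' : Chn c a η y z γ' L') : Chn c a η x z (γ * γ') (L + L') := by
  obtain ⟨k, s, h0, hk, hl, hs, hA⟩ := h
  obtain ⟨k', s', h0', hk', hl', hs', hA'⟩ := h'
  have e1 : ∀ i ≤ k, (fun i => if i ≤ k then s i else s' (i - k)) i = s i := fun i hi => if_pos hi
  have e2 : (fun i => (fun i => if i ≤ k then s i else s' (i - k)) (k + i)) = s' := by
    funext i
    rcases Nat.eq_zero_or_pos i with rfl | hi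
    · simp [hk, h0']
    · have : ¬ k + i ≤ k := by omega
      simp [this]
  refine ⟨k + k', fun i => if i ≤ k then s i else s' (i - k), ?_, ?_, ?_, fun i hi => ?_, ?_⟩
  · rw [e1 0 k.zero_le, h0]
  · rw [← hk']; exact congrFun e2 k'
  · rw [Rob.lab_add, e2, Rob.lab_congr a _ s k e1, hl, hl']
  · rcases lt_or_ge i k with h | h
    · rw [e1 i h.le, e1 (i + 1) h]
      exact hs i h
    · obtain ⟨j, rfl⟩ := Nat.exists_eq_add_of_le h
      have := hs' j (by omega)
      rw [← e2] at this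
      exact this
  · rw [Rob.act_add, e2, Rob.act_congr _ _ s k e1]
    exact add_le_add hA hA'

theorem Chn.ind {x : X} (P : X → G → ℝ → Prop) (h0 : P x 1 0)
    (hs : ∀ y z γ L, P y γ L → ell c y z ≤ η → P z (γ * a y z) (L + ell c y z))
    (hm : ∀ y γ L L', P y γ L → L ≤ L' → P y γ L') {y : X} {γ : G} {L : ℝ}
    (h : Chn c a η x y γ L) : P y γ L := by
  obtain ⟨k, s, rfl, rfl, rfl, h1, h2⟩ := h
  refine hm _ _ _ _ ?_ h2
  clear h2
  induction k with
  | zero => simpa [lab, act] using h0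
  | succ k ih =>
    rw [lab, act, Finset.sum_range_succ]
    exact hs _ _ _ _ (ih fun i hi => h1 i (hi.trans k.lt_succ_self)) (h1 k k.lt_succ_self)

variable [TopologicalSpace X]

theorem c_nonneg (h : LM c a δ) (p q : X) : 0 ≤ c p q := by
  by_cases e : p = q
  · rw [e, h.zero]
  · exact (h.sep p q e).le

theorem c_le (h : LM c a δ) (p q : X) : c p q ≤ ell c p q ^ 2 := by
  have h1 := c_nonneg h p q
  have h2 := c_nonneg h q p
  rw [ell, Real.sq_sqrt (by linarith)]
  linarith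

theorem a_self (h : LM c a δ) (p : X) : a p p = 1 :=
  (h.merge (fun _ => p) 0 (by simpa [act] using h.pos.le)).2

theorem a_inv (h : LM c a δ) {p q : X} (hpq : ell c p q ≤ δ / 2) : a q p = (a p q)⁻¹ := by
  have h1 := (h.merge (fun i => if i = 1 then q else p) 2 (by
    simp only [act, Finset.sum_range_succ, Finset.sum_range_zero]
    norm_num
    rw [ell_comm q p]
    linarith)).2
  simp only [lab] at h1
  norm_num at h1
  rw [a_self h] at h1
  exact eq_inv_of_mul_eq_one_right h1.symm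

theorem Chn.rev (h : LM c a δ) {x y : X} {γ : G} {L : ℝ} (h1 : Chn c a (δ / 2) x y γ L) :
    Chn c a (δ / 2) y x γ⁻¹ L := by
  refine h1.ind (fun y γ L => Chn c a (δ / 2) y x γ⁻¹ L) (by simpa using Chn.nil x)
    (fun y z γ L h2 h3 => ?_) fun _ _ _ _ => Chn.mono
  have h4 := (Chn.one (a := a) (ell_comm (c := c) y z ▸ h3)).cat h2
  rwa [a_inv h h3, ← mul_inv_rev, add_comm, ell_comm] at h4

theorem Chn.sub (h : LM c a δ) (hη : 0 < η) {x y : X} {γ : G} {L : ℝ}
    (h1 : Chn c a (δ / 2) x y γ L) : Chn c a η x y γ (2 * L) := by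
  refine h1.ind (fun y γ L => Chn c a η x y γ (2 * L)) (by simpa using Chn.nil x)
    (fun y z γ L h2 h3 => ?_) fun _ _ _ _ h2 h3 => h2.mono (by linarith)
  have d0 := h.pos
  obtain ⟨m, hm⟩ := exists_nat_gt (δ / η)
  have m0 : (0 : ℝ) < m := (div_pos d0 hη).trans hm
  obtain ⟨t, t0, tm, ht⟩ := h.div y z (by linarith) m (Nat.cast_pos.1 m0)
  have h4 : act (ell c) m t ≤ 2 * ell c y z := by
    refine (Finset.sum_le_card_nsmul _ _ _ fun i hi => ht i (Finset.mem_range.1 hi)).trans ?_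
    rw [Finset.card_range, nsmul_eq_mul, mul_div_cancel₀ _ m0.ne']
  have h5 := (h.merge t m (by linarith)).2
  rw [t0, tm] at h5
  rw [mul_add]
  refine h2.cat ⟨m, t, t0, tm, h5.symm, fun i hi => (ht i hi).trans ?_, h4⟩
  rw [div_lt_iff₀ hη] at hm
  rw [div_le_iff₀ m0]
  linarith

theorem coarse (h : LM c a δ) (hη : 0 ≤ η) (h2 : 2 * η ≤ δ) (k : ℕ) : ∀ (m : ℕ) (u : ℕ → X),
    (∀ i < m, ell c (u i) (u (i + 1)) ≤ η) → act (ell c) m u ≤ k * η →
    Rch c a k (u 0) (u m) (lab a u m) (k * (16 * η ^ 2)) := by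
  induction k with
  | zero =>
    intro m u _ h1
    rw [Nat.cast_zero, zero_mul] at h1
    obtain ⟨h3, h4⟩ := h.merge u m (h1.trans h.pos.le)
    have h5 : u 0 = u m := by
      by_contra e
      have h6 := h.sep _ _ e
      have h7 := c_le h (u 0) (u m)
      have h8 : ell c (u 0) (u m) = 0 := le_antisymm (by linarith) (ell_nonneg _ _)
      rw [h8] at h7
      linarith
    exact ⟨fun _ => u 0, rfl, h5, by rw [← h4, ← h5, a_self h]; rfl, by simp [act]⟩
  | succ k ih =>
    intro m u h1 h3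
    obtain ⟨v, j, rfl, h4, h5⟩ : ∃ v j, m = v + j ∧ act (ell c) v u ≤ 2 * η ∧
        act (ell c) j (fun i => u (v + i)) ≤ k * η := by
      by_cases e : act (ell c) m u ≤ η
      · exact ⟨m, 0, rfl, by linarith, by simp only [act, Finset.sum_range_zero]; positivity⟩
      have ex : ∃ v, η < act (ell c) v u := ⟨m, not_le.1 e⟩
      have e1 := Nat.find_spec ex
      obtain ⟨j, hj⟩ := Nat.exists_eq_add_of_le (Nat.find_min' ex (not_le.1 e))
      refine ⟨_, j, hj, ?_, ?_⟩
      · obtain ⟨w, hw⟩ := Nat.exists_eq_succ_of_ne_zero (n := Nat.find ex) fun e0 => by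
          rw [e0] at e1
          simp only [act, Finset.sum_range_zero] at e1
          linarith
        have e2 := not_lt.1 (Nat.find_min ex (show w < Nat.find ex by omega))
        have e3 := h1 w (by omega)
        rw [hw, act, Finset.sum_range_succ]
        rw [act] at e2
        linarith
      · rw [hj, Rob.act_add] at h3
        push_cast at h3
        linarith
    obtain ⟨h6, h7⟩ := h.merge u v (h4.trans h2)
    have h8 := Rob.cat X G c a 1 k _ _ _ _ _ _ _ (AF.Coar.one_step (u 0) (u v) h7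
      (show c (u 0) (u v) ≤ 16 * η ^ 2 from (c_le h _ _).trans
        ((pow_le_pow_left₀ (ell_nonneg _ _) (show _ ≤ 4 * η by linarith) 2).trans_eq (by ring))))
      (ih j (fun i => u (v + i)) (fun i hi => h1 (v + i) (by omega)) h5)
    rw [Rob.lab_add, add_comm k 1]
    convert h8 using 1
    push_cast
    ring

/-- the distance. -/
noncomputable def dd (c : X → X → ℝ) (a : X → X → G) (δ : ℝ) (y y' : Tot X G) : ℝ :=
  sInf {L | Chn c a (δ / 2) y.1 y'.1 (y.2⁻¹ * y'.2) L}

theorem ne (h : LM c a δ) (hc : Conn a) (x y : X) (γ : G) :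
    {L | Chn c a (δ / 2) x y γ L}.Nonempty := by
  have h1 : Continuous fun q : X × X => ell c q.1 q.2 :=
    (h.cont.add (h.cont.comp continuous_swap)).sqrt
  obtain ⟨k, s, h0, hk, hl, hs⟩ := hc (fun p q => ell c p q ≤ δ / 2) (fun x =>
    (h1.continuousAt.eventually_lt_const (by simpa [ell, h.zero] using h.pos)).mono
      fun _ h => h.le) x y γ
  exact ⟨_, k, s, h0, hk, hl, hs, le_rfl⟩

omit [TopologicalSpace X] in
theorem dd_le {y y' : Tot X G} {L : ℝ} (h : Chn c a (δ / 2) y.1 y'.1 (y.2⁻¹ * y'.2) L) :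
    dd c a δ y y' ≤ L := csInf_le ⟨0, fun _ h => Chn.nonneg h⟩ h

theorem of_lt (h : LM c a δ) (hc : Conn a) {y y' : Tot X G} {L : ℝ} (hL : dd c a δ y y' < L) :
    ∃ L' < L, Chn c a (δ / 2) y.1 y'.1 (y.2⁻¹ * y'.2) L' := by
  obtain ⟨L', h1, h2⟩ := exists_lt_of_csInf_lt (ne h hc _ _ _) hL
  exact ⟨L', h2, h1⟩

/-- the pseudo metric space. -/
@[reducible] noncomputable def pm (h : LM c a δ) (hc : Conn a) : PseudoMetricSpace (Tot X G) where
  dist := dd c a δ
  dist_self y := le_antisymm (dd_le (by simpa using Chn.nil y.1))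
    (le_csInf (ne h hc _ _ _) fun _ h => Chn.nonneg h)
  dist_comm y y' := by
    have key : ∀ y y' : Tot X G, dd c a δ y y' ≤ dd c a δ y' y := fun y y' =>
      le_csInf (ne h hc _ _ _) fun L hL => dd_le (by simpa using Chn.rev h hL)
    exact le_antisymm (key _ _) (key _ _)
  dist_triangle y y' y'' := by
    refine le_of_forall_pos_le_add fun ε hε => ?_
    obtain ⟨L, h1, h2⟩ := of_lt h hc (lt_add_of_pos_right (dd c a δ y y') (half_pos hε))
    obtain ⟨L', h3, h4⟩ := of_lt h hc (lt_add_of_pos_right (dd c a δ y' y'') (half_pos hε))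
    have h5 : dd c a δ y y'' ≤ L + L' := dd_le (by simpa [mul_assoc] using h2.cat h4)
    show dd c a δ y y'' ≤ dd c a δ y y' + dd c a δ y' y'' + ε
    linarith

end Dm

open Dm in
theorem dmS : DmS := by
  intro X G _ _ c a δ δ1 h hc
  have d0 := h.pos
  have step : ∀ (p q : X) (γ : G), ell c p q ≤ δ / 2 →
      dd c a δ (Tot.mk p γ) (Tot.mk q (γ * a p q)) ≤ ell c p q := fun p q γ hpq =>
    dd_le (by simpa [Tot.mk] using Chn.one hpq)
  let := pm h hc
  refine ⟨pm h hc, fun g y y' => ?_, fun y y' L hL => ?_, fun y g hg => ?_, step, fun R => ?_,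
    fun L => ?_⟩
  · show dd c a δ _ _ = dd c a δ _ _
    simp only [dd, Tot.smul_fst, Tot.smul_snd, mul_inv_rev, mul_assoc, inv_mul_cancel_left]
  · obtain ⟨L', h1, k, s, h0, hk, hl, hs, hA⟩ := of_lt h hc hL
    have h2 : ∀ i < k, dist (Tot.mk (s i) (y.2 * lab a s i))
        (Tot.mk (s (i + 1)) (y.2 * lab a s (i + 1))) ≤ ell c (s i) (s (i + 1)) := fun i hi => by
      rw [lab, ← mul_assoc]
      exact step _ _ _ (hs i hi)
    refine ⟨k, fun i => Tot.mk (s i) (y.2 * lab a s i), Prod.ext h0 (mul_one _),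
      Prod.ext hk ?_, fun i hi => (h2 i hi).trans ((hs i hi).trans (by linarith)),
      lt_of_le_of_lt ((Finset.sum_le_sum fun i hi => h2 i (Finset.mem_range.1 hi)).trans hA) h1⟩
    show y.2 * lab a s k = y'.2
    rw [hl, mul_inv_cancel_left]
  · obtain ⟨L', h1, k, s, h0, hk, hl, -, hA⟩ := of_lt h hc hg
    have h2 := (h.merge s k (hA.trans h1.le)).2
    rw [h0, hk, hl, Tot.smul_fst, Tot.smul_snd, a_self h, eq_comm, inv_mul_eq_one] at h2
    exact mul_eq_right.1 h2.symm
  · filter_upwards [(tendsto_natCast_atTop_atTop (R := ℝ)).eventually_ge_atTop (R / (δ ^ 2 / 16)),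
      eventually_gt_atTop 0] with k k1 k0 s γ hs
    have kp : (0 : ℝ) < k := Nat.cast_pos.2 k0
    rw [div_le_iff₀ (by positivity)] at k1
    have h1 : act c k s ≤ δ ^ 2 / 16 := le_of_mul_le_mul_left (hs.trans k1) kp
    have h2 : ∀ i < k, c (s i) (s (i + 1)) ≤ δ ^ 2 / 16 := fun i hi =>
      (Finset.single_le_sum (f := fun i => c (s i) (s (i + 1))) (fun _ _ => c_nonneg h _ _)
        (Finset.mem_range.2 hi)).trans h1
    have h3 : ∀ i < k, ell c (s i) (s (i + 1)) ^ 2 ≤ 4 * c (s i) (s (i + 1)) := fun i hi =>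
      h.up _ _ ((h2 i hi).trans (by nlinarith [sq_nonneg δ]))
    refine dd_le ⟨k, s, rfl, rfl, by simp [Tot.mk], fun i hi => ?_, ?_⟩
    · refine abs_le_of_sq_le_sq' ?_ (by positivity) |>.2
      linarith [h2 i hi, h3 i hi]
    · have h4 := sq_sum_le_card_mul_sum_sq (s := Finset.range k)
        (f := fun i => ell c (s i) (s (i + 1)))
      have h5 : ∑ i ∈ Finset.range k, ell c (s i) (s (i + 1)) ^ 2 ≤ 4 * act c k s := by
        rw [act, Finset.mul_sum]
        exact Finset.sum_le_sum fun i hi => h3 i (Finset.mem_range.1 hi)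
      have h6 : 0 ≤ k * act c k s :=
        mul_nonneg kp.le (Finset.sum_nonneg fun _ _ => c_nonneg h _ _)
      rw [Finset.card_range] at h4
      refine abs_le_of_sq_le_sq' ?_ (by positivity) |>.2
      rw [mul_pow, Real.sq_sqrt h6, act]
      nlinarith [mul_le_mul_of_nonneg_left h5 kp.le]
  · filter_upwards [(tendsto_natCast_atTop_atTop (R := ℝ)).eventually_ge_atTop (4 * L / δ),
      eventually_gt_atTop 0] with k k1 k0 x y γ γ' hL
    have kp : (0 : ℝ) < k := Nat.cast_pos.2 k0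
    have L0 : 0 < L := dist_nonneg.trans_lt hL
    rw [div_le_iff₀ d0] at k1
    obtain ⟨L', h1, h2⟩ := of_lt h hc hL
    obtain ⟨m, u, h0, hm, hl, hs, hA⟩ := h2.sub h (show 0 < 2 * L / k by positivity)
    obtain ⟨s, s0, sk, sl, sA⟩ := coarse h (show 0 ≤ 2 * L / k by positivity) (by
      rw [← mul_div_assoc, div_le_iff₀ kp]; linarith) k m u hs (by
      rw [mul_div_cancel₀ _ kp.ne']; linarith)
    refine ⟨s, s0.trans h0, sk.trans hm, ?_,
      (mul_le_mul_of_nonneg_left sA kp.le).trans_eq (by field_simp; ring)⟩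
    rw [sl, hl]
    exact mul_inv_cancel_left _ _

end Pool.Agent.Lib.MP_813db1_ag.AS
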