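import Pool.Agent.Lib.MP_813db1_ag.AS.MetDefs
import Pool.Agent.Lib.MP_bbd4b9_ag.AF.Coar

/-! The local structure of chains. -/

namespace Pool.Agent.Lib.MP_813db1_ag.AS

open Pool.Agent.Lib.MP_813db1_ag.HS Pool.Agent.Lib.MP_bbd4b9_ag Pool.Agent.Lib.MP_bbd4b9_ag.LC
open MeasureTheory Complex Matrix Filter Topology Set Metric
open scoped ContDiff ComplexOrder

namespace Lm

variable {ι X G : Type} [Fintype ι] [DecidableEq ι] [TopologicalSpace X] [Group G]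

theorem near (ha : RepA) (hM : MatS) {M : Atl ι X} {h : X → Mat ι} (hh : M.IsK h) {c : X → X → ℝ}
    (hc : Cost M h c) (x : X) : (h x).PosDef ∧ (∃ c0 > (0 : ℝ), ∀ v, c0 * ‖v‖ ^ 2 ≤ nV (h x) v) ∧
      ∃ W ∈ 𝓝 x, ∀ p ∈ W, ∀ q ∈ W, 3 / 4 * nV (h x) (M.ch x q - M.ch x p) ≤ c p q ∧
        c p q ≤ 5 / 4 * nV (h x) (M.ch x q - M.ch x p) := by
  rw [← (ha ι X M).repF_self h x]
  have me := M.ch_mem x
  have hx := M.mem x
  set e := M.ch x
  have hz := e.map_source hx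
  have pd : (M.repF h e (e x)).PosDef := (hh e me).2 _ hz
  set H := M.repF h e (e x) with hH
  have bd : ∀ A : Mat ι, ∀ i j, ‖A i j‖ ≤ ∑ i, ∑ j, ‖A i j‖ := fun A i j =>
    (Finset.single_le_sum (f := fun j => ‖A i j‖) (fun _ _ => norm_nonneg _)
      (Finset.mem_univ j)).trans (Finset.single_le_sum (f := fun i => ∑ j, ‖A i j‖)
        (fun _ _ => Finset.sum_nonneg fun _ _ => norm_nonneg _) (Finset.mem_univ i))
  obtain ⟨c0, c1, c2⟩ := hM.nv ι (max (∑ i, ∑ j, ‖H i j‖) (∑ i, ∑ j, ‖H⁻¹ i j‖))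
  have c3 := fun v => (c2 H pd (fun i j => (bd H i j).trans (le_max_left _ _))
    (fun i j => (bd H⁻¹ i j).trans (le_max_right _ _)) v).1
  obtain ⟨C, hC⟩ := hc.jet e me _ hz
  have ct : ContinuousAt (M.repF h e) (e x) := continuousAt_pi.2 fun i =>
    continuousAt_pi.2 fun j => ((hh e me).1.1 _ hz i j).continuousAt
  have a2 : ∀ᶠ z in 𝓝 (e x), ∑ i, ∑ j, ‖(((1 : ℝ) : ℂ) • M.repF h e z - H) i j‖ < c0 / 8 ∧
      ∑ i, ∑ j, ‖(((1 : ℝ) : ℂ) • H - M.repF h e z) i j‖ < c0 / 8 := by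
    have t1 : ContinuousAt (fun z => ∑ i, ∑ j, ‖(((1 : ℝ) : ℂ) • M.repF h e z - H) i j‖) (e x) :=
      (show Continuous fun A : Mat ι => ∑ i, ∑ j, ‖(((1 : ℝ) : ℂ) • A - H) i j‖ by
        fun_prop).continuousAt.comp ct
    have t2 : ContinuousAt (fun z => ∑ i, ∑ j, ‖(((1 : ℝ) : ℂ) • H - M.repF h e z) i j‖) (e x) :=
      (show Continuous fun A : Mat ι => ∑ i, ∑ j, ‖(((1 : ℝ) : ℂ) • H - A) i j‖ by
        fun_prop).continuousAt.comp ct
    exact (t1.eventually_lt_const (by simpa [← hH] using c1)).and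
      (t2.eventually_lt_const (by simpa [← hH] using c1))
  have a3 : ∀ᶠ q : V ι × V ι in 𝓝 (e x, e x), C * ‖q.2 - q.1‖ < c0 / 8 :=
    (show Continuous fun q : V ι × V ι => C * ‖q.2 - q.1‖ by
      fun_prop).continuousAt.eventually_lt_const (by simpa using c1)
  have a5 := (continuous_fst.tendsto ((e x, e x) : V ι × V ι)).eventually a2
  have te : Tendsto (fun q : X × X => (e q.1, e q.2)) (𝓝 x ×ˢ 𝓝 x) (𝓝 (e x, e x)) :=
    ((e.continuousAt hx).tendsto.comp tendsto_fst).prodMk_nhds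
      ((e.continuousAt hx).tendsto.comp tendsto_snd)
  obtain ⟨W, hW, k⟩ := mem_prod_self_iff.1 (te.eventually (hC.and (a3.and a5)))
  refine ⟨pd, ⟨c0, c1, c3⟩, W ∩ e.source, inter_mem hW (e.open_source.mem_nhds hx),
    fun p hp q hq => ?_⟩
  obtain ⟨d1, d2, d3, d4⟩ := k (mk_mem_prod hp.1 hq.1)
  simp only [fn2, e.left_inv hp.2, e.left_inv hq.2] at d1 d2 d3 d4
  have n1 := Rob.nV_le (((1 : ℝ) : ℂ) • M.repF h e (e p) - H) (e q - e p)
  have n2 := Rob.nV_le (((1 : ℝ) : ℂ) • H - M.repF h e (e p)) (e q - e p)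
  rw [Rob.nV_lin] at n1 n2
  have p0 : 0 ≤ ‖e q - e p‖ ^ 2 := by positivity
  have m1 := mul_le_mul_of_nonneg_right d2.le p0
  have m2 := mul_le_mul_of_nonneg_right d3.le p0
  have m3 := mul_le_mul_of_nonneg_right d4.le p0
  have m4 := c3 (e q - e p)
  have m5 : C * ‖e q - e p‖ ^ 3 = C * ‖e q - e p‖ * ‖e q - e p‖ ^ 2 := by ring
  obtain ⟨u1, u2⟩ := abs_le.1 d1
  constructor <;> linarith

/-- a coordinate ball on which the cost is comparable with a flat metric. -/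
theorem loc (ha : RepA) (hM : MatS) (hD : DcS) {M : Atl ι X} {h : X → Mat ι} (hh : M.IsK h)
    {c : X → X → ℝ} (hc : Cost M h c) {a : X → X → G} {x : X} (hx : Coh a x) :
    ∃ W, IsOpen W ∧ W ⊆ (M.ch x).source ∧ CohOn a W ∧
      (∀ p ∈ W, ∀ q ∈ W, √(nV (h x) (M.ch x q - M.ch x p)) ≤ ell c p q ∧
        ell c p q ≤ 2 * √(nV (h x) (M.ch x q - M.ch x p)) ∧ ell c p q ^ 2 ≤ 4 * c p q) ∧
      x ∈ W ∧ ∃ ρ > (0 : ℝ), ∀ w ∈ closedBall (M.ch x x) ρ,
        w ∈ (M.ch x).target ∧ (M.ch x).symm w ∈ W := by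
  obtain ⟨pd, -, W1, h1, k⟩ := near ha hM hh hc x
  obtain ⟨W2, h2, hW⟩ := hx
  obtain ⟨W, sW, oW, xW⟩ := mem_nhds_iff.1
    (inter_mem (inter_mem h1 h2) ((M.ch x).open_source.mem_nhds (M.mem x)))
  have hz := (M.ch x).map_source (M.mem x)
  refine ⟨W, oW, fun p hp => (sW hp).2, fun p hp q hq u hu => hW _ (sW hp).1.2 _ (sW hq).1.2 _
    (sW hu).1.2, fun p hp q hq => ?_, xW, ?_⟩
  · obtain ⟨k1, k2⟩ := k _ (sW hp).1.1 _ (sW hq).1.1
    obtain ⟨k3, k4⟩ := k _ (sW hq).1.1 _ (sW hp).1.1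
    have c4 : nV (h x) (M.ch x p - M.ch x q) = nV (h x) (M.ch x q - M.ch x p) := by
      simpa using (hD.tri ι (h x) (M.ch x q - M.ch x p) 0 (-1) pd.posSemidef).2.1
    have n0 := hM.nv_mono ι (h x) (M.ch x q - M.ch x p) pd.posSemidef
    rw [c4] at k3 k4
    refine ⟨Real.sqrt_le_sqrt (by linarith), Real.sqrt_le_iff.2 ⟨by positivity, ?_⟩, ?_⟩
    · rw [mul_pow, Real.sq_sqrt n0]
      linarith
    · rw [ell, Real.sq_sqrt (by linarith)]
      linarith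
  · have := ((M.ch x).open_target.eventually_mem hz).and (((M.ch x).continuousAt_symm hz).eventually
      (oW.eventually_mem (by rw [(M.ch x).left_inv (M.mem x)]; exact xW)))
    exact nhds_basis_closedBall.eventually_iff.1 this

theorem c_le {c : X → X → ℝ} (c0 : ∀ p q, 0 ≤ c p q) {p q : X} {δ : ℝ} (h : ell c p q ≤ δ) :
    c p q ≤ δ ^ 2 := by
  have h1 := pow_le_pow_left₀ (Real.sqrt_nonneg _) h 2
  rw [Real.sq_sqrt (add_nonneg (c0 _ _) (c0 _ _))] at h1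
  linarith [c0 q p]

theorem merge [T2Space X] [CompactSpace X] (hC : CostS) (ha : RepA) (hM : MatS) (hD : DcS)
    {M : Atl ι X} {h : X → Mat ι} (hh : M.IsK h) {c : X → X → ℝ} (hc : Cost M h c)
    (c0 : ∀ p q, 0 ≤ c p q) {a : X → X → G} {x : X} (hx : Coh a x) :
    ∃ δ > (0 : ℝ), ∀ᶠ p in 𝓝 x, ∀ (t : ℕ → X) (m : ℕ), t 0 = p → act (ell c) m t ≤ δ →
      ell c (t 0) (t m) ≤ 2 * act (ell c) m t ∧ a (t 0) (t m) = lab a t m := by
  obtain ⟨pd, ⟨b, b0, hb⟩, -⟩ := near ha hM hh hc x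
  obtain ⟨W, oW, sW, cW, k, xW, ρ, ρ0, hρ⟩ := loc ha hM hD hh hc hx
  have hK : IsCompact ((M.ch x).symm '' closedBall (M.ch x x) ρ) :=
    (isCompact_closedBall _ _).image_of_continuousOn
      ((M.ch x).continuousOn_symm.mono fun w hw => (hρ w hw).1)
  have KW : (M.ch x).symm '' closedBall (M.ch x x) ρ ⊆ W := by
    rintro _ ⟨w, hw, rfl⟩
    exact (hρ w hw).2
  obtain ⟨η, η0, hη⟩ := (hC ι X M h).2 c hc
    (fun p q => p ∈ (M.ch x).symm '' closedBall (M.ch x x) ρ → q ∈ W) fun y => by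
      by_cases hy : y ∈ (M.ch x).symm '' closedBall (M.ch x x) ρ
      · exact ((continuous_snd.tendsto (y, y)).eventually (oW.eventually_mem (KW hy))).mono
          fun q hq _ => hq
      · exact ((continuous_fst.tendsto (y, y)).eventually
          (hK.isClosed.isOpen_compl.eventually_mem hy)).mono fun q hq h' => absurd h' hq
  have b1 := Real.sqrt_pos.2 b0
  refine ⟨min (√η) (√b * (ρ / 2)), lt_min (Real.sqrt_pos.2 η0) (by positivity), ?_⟩
  filter_upwards [oW.mem_nhds xW, ((M.ch x).continuousAt (M.mem x)).eventually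
    (closedBall_mem_nhds _ (half_pos ρ0))] with p hp hp' t m h0 hδ
  subst h0
  have mono : ∀ i ≤ m, act (ell c) i t ≤ min (√η) (√b * (ρ / 2)) := fun i hi =>
    (Finset.sum_le_sum_of_subset_of_nonneg (Finset.range_mono hi) fun _ _ _ =>
      Real.sqrt_nonneg _).trans hδ
  have inK : ∀ q ∈ W, √(nV (h x) (M.ch x q - M.ch x (t 0))) ≤ √b * (ρ / 2) →
      q ∈ (M.ch x).symm '' closedBall (M.ch x x) ρ := fun q hq h1 => by
    refine ⟨M.ch x q, ?_, (M.ch x).left_inv (sW hq)⟩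
    have h2 := (Real.sqrt_le_sqrt (hb (M.ch x q - M.ch x (t 0)))).trans h1
    rw [Real.sqrt_mul b0.le, Real.sqrt_sq (norm_nonneg _)] at h2
    have h3 := le_of_mul_le_mul_left h2 b1
    have h4 := dist_triangle (M.ch x q) (M.ch x (t 0)) (M.ch x x)
    rw [dist_eq_norm (M.ch x q) (M.ch x (t 0))] at h4
    rw [mem_closedBall]
    linarith
  have key : ∀ i ≤ m, t i ∈ W ∧ √(nV (h x) (M.ch x (t i) - M.ch x (t 0))) ≤ act (ell c) i t := by
    intro i
    induction i with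
    | zero => exact fun _ => ⟨hp, by simp [nV, ipV, act]⟩
    | succ i ih =>
      intro hi
      obtain ⟨i1, i2⟩ := ih (by omega)
      have e1 : act (ell c) (i + 1) t = act (ell c) i t + ell c (t i) (t (i + 1)) :=
        Finset.sum_range_succ _ _
      have e2 : 0 ≤ act (ell c) i t := (Real.sqrt_nonneg _).trans i2
      have e3 : ell c (t i) (t (i + 1)) ≤ √η := by
        linarith [(mono _ hi).trans (min_le_left _ _)]
      have i3 : t (i + 1) ∈ W := hη _ _ ((c_le c0 e3).trans_eq (Real.sq_sqrt η0.le))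
        (inK _ i1 (i2.trans ((mono i (by omega)).trans (min_le_right _ _))))
      refine ⟨i3, ?_⟩
      rw [e1, show M.ch x (t (i + 1)) - M.ch x (t 0) = (M.ch x (t i) - M.ch x (t 0)) +
        (M.ch x (t (i + 1)) - M.ch x (t i)) by abel]
      exact (hD.tri ι (h x) _ _ 1 pd.posSemidef).1.trans (add_le_add i2 (k _ i1 _ i3).1)
  refine ⟨(k _ hp _ (key m le_rfl).1).2.1.trans ?_,
    (AF.Coar.lab_eq cW fun i hi => (key i hi).1).symm⟩
  linarith [(key m le_rfl).2]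

theorem div (ha : RepA) (hM : MatS) (hD : DcS) {M : Atl ι X} {h : X → Mat ι} (hh : M.IsK h)
    {c : X → X → ℝ} (hc : Cost M h c) {a : X → X → G} {x : X} (hx : Coh a x) :
    ∀ᶠ q : X × X in 𝓝 (x, x), ∀ m : ℕ, 1 ≤ m → ∃ t : ℕ → X, t 0 = q.1 ∧ t m = q.2 ∧
      ∀ i < m, ell c (t i) (t (i + 1)) ≤ 2 * ell c q.1 q.2 / m := by
  obtain ⟨pd, -, -⟩ := near ha hM hh hc x
  obtain ⟨W, oW, sW, -, k, xW, ρ, ρ0, hρ⟩ := loc ha hM hD hh hc hx
  have h1 := (oW.eventually_mem xW).and (((M.ch x).continuousAt (M.mem x)).eventually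
    (closedBall_mem_nhds _ ρ0))
  filter_upwards [(continuous_fst.tendsto (x, x)).eventually h1,
    (continuous_snd.tendsto (x, x)).eventually h1] with ⟨p, q⟩ hp hq m hm
  have m0 : (0 : ℝ) < m := Nat.cast_pos.2 hm
  have hz : ∀ i ≤ m, M.ch x p + ((i : ℝ) / m) • (M.ch x q - M.ch x p) ∈ closedBall (M.ch x x) ρ :=
    fun i hi => (convex_closedBall _ _).add_smul_sub_mem hp.2 hq.2
      ⟨by positivity, (div_le_one m0).2 (Nat.cast_le.2 hi)⟩
  refine ⟨fun i => (M.ch x).symm (M.ch x p + ((i : ℝ) / m) • (M.ch x q - M.ch x p)), ?_, ?_,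
    fun i hi => ?_⟩
  · simp [(M.ch x).left_inv (sW hp.1)]
  · simp [div_self m0.ne', (M.ch x).left_inv (sW hq.1)]
  · refine (k _ (hρ _ (hz i hi.le)).2 _ (hρ _ (hz (i + 1) hi)).2).2.1.trans ?_
    rw [(M.ch x).right_inv (hρ _ (hz i hi.le)).1, (M.ch x).right_inv (hρ _ (hz (i + 1) hi)).1,
      add_sub_add_left_eq_sub, ← sub_smul, show ((i + 1 : ℕ) : ℝ) / m - i / m = 1 / m by
        push_cast; ring, ← Complex.coe_smul, (hD.tri ι (h x) _ 0 _ pd.posSemidef).2.1,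
      Real.sqrt_mul (sq_nonneg _), Real.sqrt_sq (norm_nonneg _), Complex.norm_real,
      Real.norm_of_nonneg (by positivity), mul_div_assoc, one_div, inv_mul_eq_div]
    gcongr
    exact (k _ hp.1 _ hq.1).1

end Lm

open Lm in
theorem lmS (hC : CostS) (hM : MatS) (hD : DcS) (ha : RepA) : LmS := by
  intro ι X G _ _ _ _ _ _ M h c a hh hc hx
  have c0 : ∀ p q, 0 ≤ c p q := fun p q => by
    by_cases hpq : p = q
    · rw [hpq, hc.zero]
    · exact (hc.pos p q hpq).le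
  have hl : ∀ x, ∀ᶠ q : X × X in 𝓝 (x, x),
      ell c q.1 q.2 ≤ 2 * √(nV (h x) (M.ch x q.2 - M.ch x q.1)) ∧ ell c q.1 q.2 ^ 2 ≤ 4 * c q.1 q.2 :=
    fun x => by
      obtain ⟨W, oW, -, -, k, xW, -⟩ := loc ha hM hD hh hc (hx x)
      filter_upwards [(continuous_fst.tendsto (x, x)).eventually (oW.eventually_mem xW),
        (continuous_snd.tendsto (x, x)).eventually (oW.eventually_mem xW)] with q hp hq
      exact (k _ hp _ hq).2
  refine ⟨?_, fun x => (hl x).mono fun q hq => hq.1⟩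
  obtain ⟨η, η0, hη⟩ := (hC ι X M h).2 c hc (fun p q => ell c p q ^ 2 ≤ 4 * c p q ∧ ∀ m : ℕ,
    1 ≤ m → ∃ t : ℕ → X, t 0 = p ∧ t m = q ∧ ∀ i < m, ell c (t i) (t (i + 1)) ≤ 2 * ell c p q / m)
    fun x =>
    ((hl x).mono fun q hq => hq.2).and (div ha hM hD hh hc (hx x))
  obtain ⟨δ, δ0, hδ⟩ : ∃ δ > (0 : ℝ), ∀ p ∈ (univ : Set X), ∀ (t : ℕ → X) (m : ℕ), t 0 = p →
      act (ell c) m t ≤ δ →
      ell c (t 0) (t m) ≤ 2 * act (ell c) m t ∧ a (t 0) (t m) = lab a t m := by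
    refine isCompact_univ.induction_on ⟨1, one_pos, fun _ hp => hp.elim⟩
      (fun s t hst ⟨δ, δ0, hδ⟩ => ⟨δ, δ0, fun p hp => hδ p (hst hp)⟩)
      (fun s t ⟨δ, δ0, hδ⟩ ⟨δ', δ0', hδ'⟩ => ⟨min δ δ', lt_min δ0 δ0', fun p hp u m h0 h1 => hp.elim
        (fun hp => hδ p hp u m h0 (h1.trans (min_le_left _ _)))
        fun hp => hδ' p hp u m h0 (h1.trans (min_le_right _ _))⟩) fun x _ => ?_
    obtain ⟨δ, δ0, hδ⟩ := merge hC ha hM hD hh hc c0 (hx x)
    exact ⟨_, mem_nhdsWithin_of_mem_nhds hδ, δ, δ0, fun p hp => hp⟩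
  have s0 := Real.sqrt_pos.2 η0
  have d0 : 0 < min 1 (min δ (√η)) := lt_min one_pos (lt_min δ0 s0)
  have d1 : min 1 (min δ (√η)) ^ 2 ≤ η :=
    (pow_le_pow_left₀ d0.le ((min_le_right _ _).trans (min_le_right _ _)) 2).trans_eq
      (Real.sq_sqrt η0.le)
  exact ⟨min 1 (min δ (√η)), min_le_left _ _, d0, hc.zero, hc.pos, hc.cont,
    fun p q h1 => (hη p q (h1.trans d1)).1,
    fun t m h1 => hδ _ (mem_univ _) t m rfl (h1.trans ((min_le_right _ _).trans (min_le_left _ _))),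
    fun p q h1 => (hη p q ((c_le c0 h1).trans d1)).2⟩

end Pool.Agent.Lib.MP_813db1_ag.AS
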