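import Pool.Agent.Lib.MP_813db1_ag.AS.Met
import Pool.Agent.Lib.MP_813db1_ag.AS.MetDm
import Pool.Agent.Lib.MP_813db1_ag.AS.MetLm
import Pool.Agent.Lib.MP_813db1_ag.AS.MetCov
import Pool.Agent.Lib.MP_813db1_ag.AS.MetBr
import Pool.Agent.Lib.MP_bbd4b9_ag.AF.All

/-! The metric on the covering space, unconditionally. -/

namespace Pool.Agent.Lib.MP_813db1_ag.AS

open Pool.Agent.Lib.MP_813db1_ag.HS Pool.Agent.Lib.MP_bbd4b9_ag

open AF.All in
theorem metAll : MetS :=
  metS (lmS cost mat dc AY.repA') dmS (AS.covS bish AY.repA' AY.repB' mat AY.volS')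
    (brS (LC.barS dc (LC.stepS (LC.locS LC.vanS LC.modS AY.curvS') dc cost AY.repA' AY.repB' mat)
      (LC.varS dc) AY.repA') LC.minS dc) cost cal AY.repA' AY.repB' mat

end Pool.Agent.Lib.MP_813db1_ag.AS
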