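import Pool.Agent.Lib.MP_813db1_ag.AS.SolH
import Pool.Agent.Lib.MP_813db1_ag.HS.AYAll
import Pool.Agent.Lib.MP_bbd4b9_ag.LC.Aub
import Pool.Agent.Lib.MP_bbd4b9_ag.LC.Bnd
import Pool.Agent.Lib.MP_bbd4b9_ag.LC.Log

/-! Twisted Kaehler-Einstein metrics for nef canonical classes, without hypotheses. -/

namespace Pool.Agent.Lib.MP_813db1_ag.AS

open Pool.Agent.Lib.MP_813db1_ag.HS AY Pool.Agent.Lib.MP_bbd4b9_ag.LC

theorem bndAll : BndS := bndS repA' repB' repC' mat covS

theorem aubAll : AubS :=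
  aubS (swzS (logS AY.clS) bndAll repA' repB') bndAll repA' repB' mat covS
    (c3 (Pool.Agent.Lib.MP_813db1_ag.HS.calS curvS' mat) AY.clS mat maxS)
    (openS repA' repB' mat hk (regN dqS (regL dqS hk) hk mat) volS' lin2S
      (Pool.Agent.Lib.MP_813db1_ag.HS.stepS repA' repB' mat (nlS mat) iterS))

theorem invAll : InvS := inv repA' repB' divS' curvS' volS'

theorem volPAll : VolPS := volP repA' repB' volS' invAll mat

theorem solA : SolA := solAH aubAll repA' repB' mat

theorem solB : SolB := solBH repA' repB' volS' invAll volPAll mat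

end Pool.Agent.Lib.MP_813db1_ag.AS
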