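import Pool.Agent.Lib.MP_813db1_ag.AS.Tail_A
import Pool.Agent.Lib.MP_813db1_ag.HS.Weight_A

/-! Exponential tails of quasi-plurisubharmonic functions on a compact Kaehler manifold. -/

namespace Pool.Agent.Lib.MP_813db1_ag.AS

open Pool.Agent.Lib.MP_813db1_ag.HS Pool.Agent.Lib.MP_bbd4b9_ag.LC Pool.Agent.Lib.MP_bbd4b9_ag.AF
open MeasureTheory Complex Matrix Filter Topology Set Metric
open scoped ContDiff ComplexOrder

namespace Tail

open Weight

variable {ι : Type} [Fintype ι] [DecidableEq ι]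

theorem cd_nq2 : ContDiff ℝ 2 fun w : V ι => (nq w : ℂ) := by
  rw [nq_eq]
  exact ContDiff.sum fun i _ => (contDiff_apply ℝ ℂ i).mul
    (conjCLE.contDiff.comp (contDiff_apply ℝ ℂ i))

theorem levi_nq (z : V ι) : levi (fun w : V ι => (nq w : ℂ)) z = 1 := by
  ext i j
  have : dzb (fun w : V ι => (nq w : ℂ)) j = fun w => w j :=
    funext fun w => by rw [dzb_ofReal, dz_nq, star_star]
  rw [levi_apply, this, dz_coord, one_apply]
  simp only [eq_comm]

omit [DecidableEq ι] in
theorem nq_bd {s : ℝ} {z : V ι} (hz : z ∈ closedBall (0 : V ι) s) :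
    0 ≤ nq z ∧ nq z ≤ Fintype.card ι * s ^ 2 := by
  rw [mem_closedBall_zero_iff] at hz
  refine ⟨Finset.sum_nonneg fun i _ => normSq_nonneg _, ?_⟩
  rw [← nsmul_eq_mul, ← Finset.card_univ, ← Finset.sum_const]
  refine Finset.sum_le_sum fun i _ => ?_
  rw [normSq_eq_norm_sq]
  exact pow_le_pow_left₀ (norm_nonneg _) ((norm_le_pi_norm z i).trans hz) 2

theorem psd_up (hm : MatS) {G P : Mat ι} {L c : ℝ} (hG : G.PosDef) (hc : (trace G).re ≤ c)
    (hP : ((L : ℂ) • G + P).PosSemidef) : (P + ((|L| * c : ℝ) : ℂ) • (1 : Mat ι)).PosSemidef := by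
  have h1 := hm.le_trm ι 1 G PosDef.one hG.posSemidef
  have e : trm (1 : Mat ι) G = (trace G).re := by rw [trm, inv_one, Matrix.mul_one]
  rw [e] at h1
  have h2 := (PosSemidef.one (n := ι) (R := ℂ)).smul (zero_le_real.2 (sub_nonneg.2 hc))
  have h3 := ((h1.add h2).smul (zero_le_real.2 (abs_nonneg L))).add
    (hG.posSemidef.smul (zero_le_real.2 (sub_nonneg.2 (le_abs_self L))))
  convert hP.add h3 using 1
  ext i j
  simp only [Matrix.add_apply, Matrix.sub_apply, Matrix.smul_apply, smul_eq_mul]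
  push_cast
  ring

variable {X : Type} [TopologicalSpace X] [CompactSpace X] [MeasurableSpace X] [BorelSpace X]
  {M : Atl ι X} {g : X → Mat ι} {μ : Measure X}

theorem chart (hS : SubM) (hD : DcS) (hm : MatS) (a : RepA' M) (b : RepB' M) (v : VolA' M g μ)
    (hg : M.IsK g) (L B0 : ℝ) {e : Ch ι X} (he : e ∈ M.A) {R : ℝ} (hR : 0 < R)
    (hT : closedBall 0 (4 * R) ⊆ e.target) : ∃ c > (0 : ℝ), ∃ B > (0 : ℝ), ∀ ψ, M.Ck ∞ ψ →
    (∀ x, ((L : ℂ) • g x + M.ddc ψ x).PosSemidef) → ∀ s, (∀ x, ψ x ≤ s) →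
    ∫ x, (s - ψ x) ∂μ ≤ B0 → ∀ T : ℝ,
    μ.real {x | (x ∈ e.source ∧ ‖e x‖ < R) ∧ T ≤ s - ψ x} ≤ B * Real.exp (-(c * T)) := by
  have := v.fin
  have hK := isCompact_closedBall (0 : V ι) (4 * R)
  have sm := (hg e he).1.1
  have s3 : closedBall (0 : V ι) (3 * R) ⊆ closedBall 0 (4 * R) :=
    closedBall_subset_closedBall (by linarith)
  have s1 : closedBall (0 : V ι) R ⊆ closedBall 0 (4 * R) :=
    closedBall_subset_closedBall (by linarith)
  obtain ⟨C, hC⟩ := hK.exists_bound_of_continuousOn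
    (f := fun z => (trace (M.repF g e z)).re) fun z hz =>
      (continuous_re.continuousAt.comp (sm.tr (hT hz)).continuousAt).continuousWithinAt
  have cD : ContinuousOn (fun z => (M.repF g e z).det.re) (closedBall (0 : V ι) (4 * R)) :=
    fun z hz => (continuous_re.continuousAt.comp (sm.det (hT hz)).continuousAt).continuousWithinAt
  obtain ⟨D, hD'⟩ := hK.exists_bound_of_continuousOn cD
  have m0 : (0 : V ι) ∈ closedBall (0 : V ι) (4 * R) := mem_closedBall_self (by linarith)
  obtain ⟨z1, hz1, hmin⟩ := hK.exists_isMinOn ⟨0, m0⟩ cD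
  have C0 := (norm_nonneg _).trans (hC 0 m0)
  have d0 : 0 < (M.repF g e z1).det.re := (hm.det ι _ ((hg e he).2 z1 (hT hz1))).1
  have D0 : 0 < D := d0.trans_le ((le_abs_self _).trans (hD' z1 hz1))
  set d := (M.repF g e z1).det.re with hd
  set K := |L| * C with hKd
  set N : ℝ := Fintype.card ι * (4 * R) ^ 2 with hN
  have K0 : 0 ≤ K := mul_nonneg (abs_nonneg _) C0
  have N0 : 0 ≤ N := by positivity
  obtain ⟨c, c0, B, B0', hL⟩ := loc (ι := ι) hS hD hR (A := |B0| / d +
    volume.real (closedBall (0 : V ι) (3 * R)) * (K * N) + 1) (by positivity)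
  refine ⟨c, c0, D * B, by positivity, fun ψ h1 h2 s h3 h4 T => ?_⟩
  have dd : ∀ z ∈ closedBall (0 : V ι) (4 * R), ContDiffAt ℝ 2 (fn ψ e) z := fun z hz =>
    (h1 e he z (hT hz)).of_le (by norm_cast)
  have cψ : ContinuousOn (fun z => s - ψ (e.symm z)) (closedBall (0 : V ι) (4 * R)) :=
    continuousOn_const.sub fun z hz =>
      (contDiffAt_ofReal.1 (dd z hz)).continuousAt.continuousWithinAt
  have cq : Continuous (nq : V ι → ℝ) := cd_nq.continuous
  have i3 : ∀ {f : V ι → ℝ}, ContinuousOn f (closedBall (0 : V ι) (4 * R)) →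
      IntegrableOn f (closedBall (0 : V ι) (3 * R)) := fun hf =>
    (hf.integrableOn_compact hK).mono_set s3
  have ev : (fun z => ((ψ (e.symm z) + K * nq z - (s + K * N) : ℝ) : ℂ)) =
      fun z => fn ψ e z + (K : ℂ) * (nq z : ℂ) - ((s + K * N : ℝ) : ℂ) := by
    funext z
    simp only [fn]
    push_cast
    ring
  have h5 := hL (fun z => ψ (e.symm z) + K * nq z - (s + K * N)) (fun z hz => by
      have k1 : ContDiffAt ℝ 2 (fun z : V ι => (K : ℂ) * (nq z : ℂ)) z :=
        contDiffAt_const.mul cd_nq2.contDiffAt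
      refine ⟨contDiffAt_ofReal.1 ?_, ?_, ?_⟩
      · rw [ev]
        exact ((dd z hz).add k1).sub contDiffAt_const
      · have h5 := b.ddc_rep ψ e he _ (e.map_target (hT hz)) (by
          rw [e.right_inv (hT hz)]; exact dd z hz)
        rw [e.right_inv (hT hz)] at h5
        rw [ev, levi_sub ((dd z hz).add k1) contDiffAt_const, levi_const, sub_zero,
          levi_add (dd z hz) k1, levi_cmul _ cd_nq2.contDiffAt, levi_nq, ← h5]
        refine psd_up hm ((hg e he).2 z (hT hz)) ((le_abs_self _).trans (hC z hz)) ?_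
        convert (h2 (e.symm z)).mul_mul_conjTranspose_same (tj e (M.ch (e.symm z)) (e.symm z))ᵀ
          using 1
        rw [Matrix.mul_add, Matrix.add_mul, Matrix.mul_smul, Matrix.smul_mul]
        rfl
      · linarith [h3 (e.symm z), mul_le_mul_of_nonneg_left (nq_bd hz).2 K0]) (by
      have k1 : d * ∫ z in closedBall (0 : V ι) (3 * R), (s - ψ (e.symm z)) ≤ |B0| := by
        have cc : Continuous fun x => s - ψ x := continuous_const.sub
          (a.cont ψ fun e he z hz => (h1 e he z hz).of_le (by simp))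
        refine le_trans ?_ ((setIntegral_le_integral (s := e.source ∩ e ⁻¹' closedBall 0 (3 * R))
          (cc.integrable_of_hasCompactSupport (HasCompactSupport.of_compactSpace _))
          (.of_forall fun x => sub_nonneg.2 (h3 x))).trans (h4.trans (le_abs_self _)))
        rw [v.intR e he _ measurableSet_closedBall (s3.trans hT), ← integral_const_mul]
        exact setIntegral_mono_on (i3 (continuousOn_const.mul cψ)) (i3 (cD.mul cψ))
          measurableSet_closedBall fun z hz =>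
            mul_le_mul_of_nonneg_right (hmin (s3 hz)) (sub_nonneg.2 (h3 _))
      have k2 := setIntegral_mono_on
        (f := fun z => -(ψ (e.symm z) + K * nq z - (s + K * N)))
        (g := fun z => (s - ψ (e.symm z)) + K * N)
        (i3 (by
          refine (cψ.add (show Continuous fun z : V ι => K * N - K * nq z by
            fun_prop).continuousOn).congr fun z _ => ?_
          simp only [Pi.add_apply]
          ring)) (i3 (cψ.add continuousOn_const)) measurableSet_closedBall fun z hz => by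
          linarith [mul_nonneg K0 (nq_bd hz).1]
      rw [integral_add (i3 cψ) (i3 continuousOn_const), setIntegral_const, smul_eq_mul] at k2
      rw [← le_div_iff₀' d0] at k1
      linarith) T
  set S := {z | z ∈ closedBall (0 : V ι) R ∧ ψ (e.symm z) + K * nq z - (s + K * N) ≤ -T} with hSd
  have sS : S ⊆ closedBall (0 : V ι) (4 * R) := fun z hz => s1 hz.1
  have mS : MeasurableSet S := by
    have k : ContinuousOn (fun z => (s - ψ (e.symm z)) + (K * N - K * nq z))
        (closedBall (0 : V ι) R) :=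
      (cψ.mono s1).add (Continuous.continuousOn (by fun_prop))
    convert (k.preimage_isClosed_of_isClosed isClosed_closedBall
      (isClosed_Ici (a := T))).measurableSet using 1
    ext z
    simp only [hSd, mem_ofPred_eq, mem_inter_iff, mem_preimage, mem_Ici]
    exact and_congr_right fun _ => ⟨fun h => by linarith, fun h => by linarith⟩
  have h6 := v.intR e he S mS (sS.trans hT) fun _ => 1
  have iS : ∀ {f : V ι → ℝ}, ContinuousOn f (closedBall (0 : V ι) (4 * R)) →
      IntegrableOn f S := fun hf => (hf.integrableOn_compact hK).mono_set sS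
  have h7 := setIntegral_mono_on (iS cD) (iS (continuousOn_const (c := D))) mS
    fun z hz => (le_abs_self _).trans (hD' z (sS hz))
  simp only [mul_one, setIntegral_const, smul_eq_mul] at h6 h7
  refine (measureReal_mono (s₂ := e.source ∩ e ⁻¹' S) (fun x hx => ⟨hx.1.1, ?_, ?_⟩)
    (measure_ne_top _ _)).trans ?_
  · exact mem_closedBall_zero_iff.2 hx.1.2.le
  · have := mul_le_mul_of_nonneg_left (nq_bd (s1 (mem_closedBall_zero_iff.2 hx.1.2.le))).2 K0
    rw [e.left_inv hx.1.1]
    linarith [hx.2]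
  · rw [h6, mul_assoc]
    exact h7.trans ((mul_comm _ _).trans_le (mul_le_mul_of_nonneg_left h5 D0.le))

end Tail

/-- uniform exponential tails. -/
def TailS : Prop := ∀ (ι X : Type) [Fintype ι] [DecidableEq ι] [TopologicalSpace X] [T2Space X]
  [CompactSpace X] [ConnectedSpace X] [MeasurableSpace X] [BorelSpace X] (M : Atl ι X)
  (g : X → Mat ι) (μ : Measure X) (L : ℝ), M.IsK g → M.IsVol g μ →
  ∃ a > (0 : ℝ), ∃ B > (0 : ℝ), ∀ ψ, M.Ck ∞ ψ →
    (∀ x, ((L : ℂ) • g x + M.ddc ψ x).PosSemidef) → ∀ x0, (∀ x, ψ x ≤ ψ x0) → ∀ T ≥ (0 : ℝ),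
    μ.real {x | T ≤ ψ x0 - ψ x} ≤ B * Real.exp (-(a * T))

theorem tail (hS : SubM) (hD : DcS) (ha : RepA) (hb : RepB) (hv : VolS) (hc : CovS)
    (hw : WeightS) (hm : MatS) : TailS := by
  intro ι X _ _ _ _ _ _ _ _ M g μ L hg hμ
  have a := ha ι X M
  have v := (hv ι X M g hg).2 μ hμ
  have := v.fin
  obtain ⟨B0, hB0⟩ := hw ι X M g μ L hg hμ
  obtain ⟨C, -⟩ := hc ι X M (fun _ => True) fun x => by
    obtain ⟨e, he, hx, h0⟩ := a.center x
    exact ⟨e, he, trivial, hx, h0⟩
  choose c c0 B B0' h using fun i => Tail.chart hS hD hm a (hb ι X M) v hg L B0 (C.mem i) (C.pos i)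
    (C.sub i)
  have s0 : 0 ≤ ∑ i, (c i)⁻¹ := Finset.sum_nonneg fun i _ => (inv_pos.2 (c0 i)).le
  have s1 : 0 ≤ ∑ i, B i := Finset.sum_nonneg fun i _ => (B0' i).le
  refine ⟨(1 + ∑ i, (c i)⁻¹)⁻¹, by positivity, 1 + ∑ i, B i, by positivity,
    fun ψ h1 h2 x0 h3 T hT => ?_⟩
  refine (measureReal_mono (s₂ := ⋃ i, {x | (x ∈ (C.e i).source ∧ ‖C.e i x‖ < C.r i) ∧
    T ≤ ψ x0 - ψ x}) (fun x hx => ?_) (measure_ne_top _ _)).trans
    ((measureReal_iUnion_fintype_le _).trans ?_)
  · obtain ⟨i, hi⟩ := C.cover x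
    exact mem_iUnion.2 ⟨i, hi, hx⟩
  rw [add_mul, Finset.sum_mul]
  refine le_add_of_nonneg_of_le (by positivity) (Finset.sum_le_sum fun i _ => ?_)
  refine (h i ψ h1 h2 _ h3 (hB0 ψ h1 h2 x0 h3) T).trans
    (mul_le_mul_of_nonneg_left (Real.exp_le_exp.2 (neg_le_neg
      (mul_le_mul_of_nonneg_right ?_ hT))) (B0' i).le)
  rw [inv_le_comm₀ (by positivity) (c0 i)]
  exact le_add_of_nonneg_of_le zero_le_one
    (Finset.single_le_sum (f := fun i => (c i)⁻¹) (fun i _ => (inv_pos.2 (c0 i)).le)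
      (Finset.mem_univ i))

end Pool.Agent.Lib.MP_813db1_ag.AS
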