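import Pool.Agent.Lib.MP_813db1_ag.AS.Main
import Pool.Agent.Lib.MP_813db1_ag.AS.Big
import Pool.Agent.Lib.MP_813db1_ag.AS.MetAll
import Pool.Agent.Lib.MP_813db1_ag.AS.Sol
import Pool.Agent.Lib.MP_813db1_ag.AS.GAll
import Pool.Agent.Lib.MP_813db1_ag.AS.Iter
import Pool.Agent.Lib.MP_813db1_ag.AS.Tail
import Pool.Agent.Lib.MP_813db1_ag.AS.F3

/-! All steps together. -/

namespace Pool.Agent.Lib.MP_813db1_ag.AS

open Pool.Agent.Lib.MP_813db1_ag.HS Pool.Agent.Lib.MP_bbd4b9_ag AY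

theorem pouAll : PouS := pou repA' repB'

theorem gapAll : GapS :=
  gapS (tail (AF.subM AF.All.dc maxS) AF.All.dc repA' repB' volS' HS.covS
    (weight repA' repB' volS' mat) mat)

theorem mainAll : MainS :=
  main (maxAtl repA') repA' volS' solA solB gapAll metAll
    (endS scAll eAllS (vanS extS algAll liftS (f12S repA' mat pouAll) (f3S pouAll))) bigS

end Pool.Agent.Lib.MP_813db1_ag.AS
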