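import Pool.Agent.Lib.MP_813db1_ag.AS.End
import Pool.Agent.Lib.MP_813db1_ag.AS.MetDefs
import Pool.Agent.Lib.MP_813db1_ag.AS.IterDefs
import Pool.Agent.Lib.MP_813db1_ag.AS.Diam
import Pool.Agent.Lib.MP_813db1_ag.AS.SolDefs

/-! The diameter bound and the positivity of the volume. -/

namespace Pool.Agent.Lib.MP_813db1_ag.AS

open Pool.Agent.Lib.MP_813db1_ag.HS Pool.Agent.Lib.MP_bbd4b9_ag.LC MeasureTheory Filter Topology Set
open scoped ComplexOrder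

/-- the Lipschitz clause on the covering space. -/
theorem brg {ι X Y G : Type} [Fintype ι] [DecidableEq ι] [TopologicalSpace X] [TopologicalSpace Y]
    [Group G] {M : Atl ι X} {h : X → Mat ι} {a : X → X → G} {C L A r₁ : ℝ}
    [PseudoMetricSpace (Tot X G)] (hM : Met M h a C L A r₁) {p : Y → X} (hp : Continuous p)
    {γ : Y → G} (ha : ∀ x, Coh a x) (hγ : ∀ y0, ∀ᶠ y in 𝓝 y0, γ y = γ y0 * a (p y0) (p y))
    (y0 : Y) : ∀ᶠ q : Y × Y in 𝓝 (y0, y0), dist (Tot.mk (p q.1) (γ q.1)) (Tot.mk (p q.2) (γ q.2)) ≤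
      L * √(nV (h (p y0)) (M.ch (p y0) (p q.2) - M.ch (p y0) (p q.1))) :=
  tr_near (P := fun x c x' c' => dist (Tot.mk x c) (Tot.mk x' c') ≤
    L * √(nV (h (p y0)) (M.ch (p y0) x' - M.ch (p y0) x))) hp ha hγ y0 (hM.lip (p y0))

/-- the uniform diameter bound. -/
theorem geo_of (hG : GapS) (hV : VolS) {ι X : Type} [Fintype ι] [DecidableEq ι] [Nonempty ι]
    [TopologicalSpace X] [T2Space X] [CompactSpace X] [ConnectedSpace X] [MeasurableSpace X]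
    [BorelSpace X] (M : Atl ι X) {g : X → Mat ι} (hg : M.IsK g) {A : ℝ} (hA : 0 ≤ A) (r₁ : ℝ) :
    ∃ D : ℝ, ∀ ε ∈ Ioc (0 : ℝ) 1, ∀ u ν, M.Sol g ε u → M.IsVol (M.hm g ε u) ν →
      ∀ (G : Type) [Group G] (a : X → X → G) (C L : ℝ) [PseudoMetricSpace (Tot X G)],
        Met M (M.hm g ε u) a C L A r₁ → Geo G (Tot X G) C (2 * Fintype.card ι) (1 / 2) D := by
  obtain ⟨φ, hφ, h1⟩ := hG ι X M g hg A (1 / 4) hA (by norm_num)
  obtain ⟨D, hD⟩ := diam φ r₁ hφ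
  refine ⟨D, fun ε hε u ν hu hν G _ a C L _ hM => ⟨hM.iso, hM.geo, hM.cov, hM.disc, ?_⟩⟩
  have hv := (hV ι X M _ hu.2.1).2 ν hν
  have := hv.fin
  have := hv.pos
  refine hD G (Tot X G) X (fun z => z.1) ν hM.iso hM.geo (fun z z' e => ⟨z'.2 * z.2⁻¹, ?_⟩)
    (ENNReal.toReal_pos (isOpen_univ.measure_pos ν univ_nonempty).ne' (measure_ne_top _ _))
    fun z => ?_
  · exact Prod.ext e.symm (inv_mul_cancel_right _ _).symm
  obtain ⟨Ψ, u1, u2, u3, u4⟩ := hM.bar z.1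
  refine ⟨{y | 1 / 4 ≤ Ψ y}, (u1.isClosed_preimage (1 / 4)).measurableSet, ?_, fun x hx => ?_⟩
  · by_contra hn
    have := h1 ε hε u ν hu hν Ψ (1 / 4) u1 ⟨0, by rintro _ ⟨y, rfl⟩; exact (u2 y).1⟩
      (fun y hy => (u4 y (by linarith)).1) (not_le.1 hn).le
    refine (Measure.measure_pos_of_mem_nhds ν (x := z.1) ?_).ne' this
    filter_upwards [u3] with y hy
    linarith
  · obtain ⟨-, c, hc⟩ := u4 x (lt_of_lt_of_le (by norm_num) hx)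
    refine ⟨z.2 • Tot.mk x c, rfl, ?_⟩
    rw [← hM.iso z.2, Tot.smul_mk, mul_one] at hc
    exact hc.le

/-- the canonical volume is positive. -/
def PosS : Prop := ∀ (ι X Y G : Type) [Fintype ι] [DecidableEq ι] [Nonempty ι]
  [TopologicalSpace X] [T2Space X] [CompactSpace X] [ConnectedSpace X] [MeasurableSpace X]
  [BorelSpace X] [ChartedSpace (ι → ℂ) X] [TopologicalSpace Y] [SimplyConnectedSpace Y] [Group G]
  [MulAction G Y] (K : Kahler ι X) (M : Atl ι X) (g : X → Mat ι) (μ : Measure X) (p : Y → X),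
  atlas (ι → ℂ) X ⊆ M.A → (∀ x, M.ch x = chartAt (ι → ℂ) x) → M.IsK g → M.IsVol g μ →
  (∀ e ∈ atlas (ι → ℂ) X, ∀ z ∈ e.target, M.repF g e z = K.g e z) → IsQuotientCoveringMap p G →
  Exact K p → NoAb G ∨ FinRep G → (∀ ε ∈ Ioc (0 : ℝ) 1, ∃ u, M.Sol g ε u) → 0 < M.vol μ g 0

theorem posS (hB : SolB) (hM : MetS) (hG : GapS) (hE : EndS) (hV : VolS) : PosS := by
  intro ι X Y G _ _ _ _ _ _ _ _ _ _ _ _ _ _ K M g μ p hA hc hg hμ hr hp he hL hS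
  by_contra hn
  obtain ⟨b1, b2⟩ := hB ι X M g μ hg hμ
  obtain ⟨C, L, A, r₁, -, A0, -, hM⟩ := hM ι
  obtain ⟨D, hD⟩ := geo_of hG hV M hg A0 r₁
  obtain ⟨v, hv, hE⟩ := hE ι C D L (2 * Fintype.card ι)
  obtain ⟨ε, hε, b3⟩ := b2 (not_lt.1 hn) v hv
  obtain ⟨u, hu⟩ := hS ε hε
  obtain ⟨ν, hν⟩ := (hV ι X M _ hu.2.1).1
  obtain ⟨a, γ, t1, t2, -, t3, t4⟩ := tr hp
  obtain ⟨d, hd⟩ := hM X G M _ a hu.2.1 (b1 ε hε.1 u hu) t1 t2
  exact (b3 u ν hu hν).not_gt (hE X Y G (Tot X G) K M g _ ν p (fun y => Tot.mk (p y) (γ y)) hA hc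
    hg hr hp he hL hu.2.1 hν (hD ε hε u ν hu hν G a C L hd)
    (fun c y => by rw [Tot.smul_mk, hp.map_smul, t3])
    (brg hd hp.isCoveringMap.continuous t1 t4))

end Pool.Agent.Lib.MP_813db1_ag.AS
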