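import Mathlib

set_option autoImplicit false

namespace Pool.Agent.Lib.MP_813db1_ag.AS

open MeasureTheory Set

namespace ECov

/-- Forgetting coordinates maps a product of copies of a probability measure to such a product. -/
lemma map_comp {N m : ℕ} (μ : Measure ℝ) [IsProbabilityMeasure μ] (I : Fin m ↪ Fin N) :
    Measure.map (fun (t : Fin N → ℝ) (j : Fin m) => t (I j)) (Measure.pi fun _ => μ)
      = Measure.pi fun _ => μ := by
  classical
  have hme : Measurable (fun (t : Fin N → ℝ) (j : Fin m) => t (I j)) :=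
    measurable_pi_lambda _ fun j => measurable_pi_apply _
  symm
  refine Measure.pi_eq fun s hs => ?_
  rw [Measure.map_apply hme (MeasurableSet.univ_pi hs)]
  have h1 : (fun (t : Fin N → ℝ) (j : Fin m) => t (I j)) ⁻¹' (Set.pi univ s)
      = Set.pi univ (Function.extend I s fun _ => univ) := by
    ext t
    simp only [mem_preimage, mem_pi, mem_univ, forall_true_left]
    constructor
    · intro h i
      by_cases hi : ∃ j, I j = i
      · obtain ⟨j, rfl⟩ := hi
        rw [I.injective.extend_apply]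
        exact h j
      · rw [Function.extend_apply' _ _ _ hi]
        trivial
    · intro h j
      have := h (I j)
      rwa [I.injective.extend_apply] at this
  rw [h1, Measure.pi_pi]
  rw [← Finset.prod_subset (Finset.subset_univ (Finset.univ.map I))]
  · rw [Finset.prod_map]
    refine Finset.prod_congr rfl fun j _ => ?_
    rw [I.injective.extend_apply]
  · intro i _ hi
    have hi' : ¬ ∃ j, I j = i := by
      rintro ⟨j, rfl⟩
      exact hi (Finset.mem_map_of_mem I (Finset.mem_univ j))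
    rw [Function.extend_apply' _ _ _ hi']
    exact measure_univ

/-- A point of the cube all of whose coordinate projections avoid small sets. -/
lemma exists_avoid {N m : ℕ} {r : ℝ} (hr : 0 < r) (K : (Fin m ↪ Fin N) → Set (Fin m → ℝ))
    (hK : ∀ I, MeasurableSet (K I))
    (hv : ∑ I, volume (K I) < ENNReal.ofReal (r ^ m)) :
    ∃ t : Fin N → ℝ, (∀ i, t i ∈ Icc r (2 * r)) ∧ ∀ I, (fun j => t (I j)) ∉ K I := by
  classical
  set c : ENNReal := ENNReal.ofReal r with hc
  have hc0 : c ≠ 0 := by simpa [hc] using hr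
  have hct : c ≠ ⊤ := ENNReal.ofReal_ne_top
  set μ : Measure ℝ := c⁻¹ • volume.restrict (Icc r (2 * r)) with hμ
  have : IsProbabilityMeasure μ := by
    refine ⟨?_⟩
    rw [hμ, Measure.smul_apply, Measure.restrict_apply MeasurableSet.univ, univ_inter,
      Real.volume_Icc, show 2 * r - r = r by ring, smul_eq_mul]
    exact ENNReal.inv_mul_cancel hc0 hct
  have hpi : (Measure.pi fun _ : Fin m => μ)
      = (c⁻¹ ^ m) • (volume : Measure (Fin m → ℝ)).restrict (Set.pi univ fun _ => Icc r (2 * r)) := by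
    refine Measure.pi_eq fun s hs => ?_
    rw [Measure.smul_apply, Measure.restrict_apply (MeasurableSet.univ_pi hs), ← Set.pi_inter_distrib,
      volume_pi_pi, smul_eq_mul]
    simp only [hμ, Measure.smul_apply, Measure.restrict_apply (hs _), smul_eq_mul]
    rw [Finset.prod_mul_distrib]
    simp
  have hle : ∀ I, (Measure.pi fun _ : Fin N => μ)
      ((fun (t : Fin N → ℝ) (j : Fin m) => t (I j)) ⁻¹' K I) ≤ c⁻¹ ^ m * volume (K I) := by
    intro I
    have hme : Measurable (fun (t : Fin N → ℝ) (j : Fin m) => t (I j)) :=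
      measurable_pi_lambda _ fun j => measurable_pi_apply _
    rw [← Measure.map_apply hme (hK I), map_comp μ I, hpi, Measure.smul_apply, smul_eq_mul]
    gcongr
    exact Measure.restrict_le_self
  by_contra hno
  push Not at hno
  have hsub : (Set.pi univ fun _ : Fin N => Icc r (2 * r))
      ⊆ ⋃ I, (fun (t : Fin N → ℝ) (j : Fin m) => t (I j)) ⁻¹' K I := by
    intro t ht
    obtain ⟨I, hI⟩ := hno t fun i => ht i trivial
    exact mem_iUnion.2 ⟨I, hI⟩
  have h1 : (Measure.pi fun _ : Fin N => μ) (Set.pi univ fun _ : Fin N => Icc r (2 * r)) = 1 := by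
    rw [Measure.pi_pi]
    refine Finset.prod_eq_one fun i _ => ?_
    rw [hμ, Measure.smul_apply, Measure.restrict_apply measurableSet_Icc, inter_self,
      Real.volume_Icc, show 2 * r - r = r by ring, smul_eq_mul]
    exact ENNReal.inv_mul_cancel hc0 hct
  have h2 : (1 : ENNReal) ≤ c⁻¹ ^ m * ∑ I, volume (K I) := by
    calc (1 : ENNReal) = _ := h1.symm
      _ ≤ _ := measure_mono hsub
      _ ≤ ∑ I, (Measure.pi fun _ : Fin N => μ)
          ((fun (t : Fin N → ℝ) (j : Fin m) => t (I j)) ⁻¹' K I) := measure_iUnion_fintype_le _ _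
      _ ≤ ∑ I, c⁻¹ ^ m * volume (K I) := Finset.sum_le_sum fun I _ => hle I
      _ = _ := by rw [Finset.mul_sum]
  have hcm : ENNReal.ofReal (r ^ m) = c ^ m := ENNReal.ofReal_pow hr.le m
  rw [hcm] at hv
  have h3 : c⁻¹ ^ m * ∑ I, volume (K I) < c⁻¹ ^ m * c ^ m := by
    refine ENNReal.mul_lt_mul_right ?_ ?_ hv
    · exact pow_ne_zero _ (ENNReal.inv_ne_zero.2 hct)
    · exact ENNReal.pow_ne_top (ENNReal.inv_ne_top.2 hc0)
  rw [← mul_pow, ENNReal.inv_mul_cancel hc0 hct, one_pow] at h3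
  exact absurd (h2.trans_lt h3) (lt_irrefl _)

end ECov

/-- Step E without geometry: an open cover of multiplicity at most `m`. -/
theorem eCov {X : Type*} [TopologicalSpace X] [CompactSpace X] {N m : ℕ} {r : ℝ} (hr : 0 < r)
    (ρ : Fin N → X → ℝ) (hρ : ∀ i, Continuous (ρ i)) (hcov : ∀ x, ∃ i, ρ i x < r)
    (hv : ∑ I : Fin m ↪ Fin N, volume (range fun (x : X) (j : Fin m) => ρ (I j) x)
      < ENNReal.ofReal (r ^ m)) :
    ∃ U : Fin N → Set X, (∀ i, IsOpen (U i)) ∧ (∀ x, ∃ i, x ∈ U i) ∧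
      (∀ i, ∀ x ∈ U i, ρ i x < 3 * r) ∧
      ∀ (x : X) (S : Finset (Fin N)), (∀ i ∈ S, x ∈ U i) → S.card ≤ m := by
  classical
  have hcont : ∀ I : Fin m ↪ Fin N, Continuous fun (x : X) (j : Fin m) => ρ (I j) x :=
    fun I => continuous_pi fun j => hρ _
  have hcl : ∀ I : Fin m ↪ Fin N, IsClosed (range fun (x : X) (j : Fin m) => ρ (I j) x) :=
    fun I => (isCompact_range (hcont I)).isClosed
  obtain ⟨t, ht, hav⟩ := ECov.exists_avoid hr _ (fun I => (hcl I).measurableSet) hv
  have hη : ∃ η : ℝ, 0 < η ∧ η ≤ r ∧ ∀ (I : Fin m ↪ Fin N) (x : X),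
      ¬ ∀ j, |ρ (I j) x - t (I j)| < η := by
    have h1 : ∀ I : Fin m ↪ Fin N, ∀ᶠ η in nhdsWithin (0 : ℝ) (Ioi 0), ∀ x : X,
        ¬ ∀ j, |ρ (I j) x - t (I j)| < η := by
      intro I
      obtain ⟨e, he, hb⟩ := Metric.isOpen_iff.1 (hcl I).isOpen_compl _ (hav I)
      filter_upwards [Ioo_mem_nhdsGT he] with η hη x hx
      refine hb (show (fun j => ρ (I j) x) ∈ Metric.ball (fun j => t (I j)) e from ?_) ⟨x, rfl⟩
      rw [Metric.mem_ball, dist_pi_lt_iff he]
      intro j
      rw [Real.dist_eq]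
      exact (hx j).trans hη.2
    obtain ⟨η, h2, h3⟩ := ((Filter.eventually_all.2 h1).and (Ioo_mem_nhdsGT hr)).exists
    exact ⟨η, h3.1, h3.2.le, h2⟩
  obtain ⟨η, hη0, hηr, hη⟩ := hη
  refine ⟨fun i => {x | ρ i x < t i + η} ∩ ⋂ l ∈ Finset.Iio i, {x | t l - η < ρ l x},
    fun i => ?_, fun x => ?_, fun i x hx => ?_, fun x S hS => ?_⟩
  · exact (isOpen_lt (hρ i) continuous_const).inter
      (isOpen_biInter_finset fun l _ => isOpen_lt continuous_const (hρ l))
  · obtain ⟨i0, hi0⟩ := hcov x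
    have hne : (Finset.univ.filter fun i => ρ i x < t i + η).Nonempty :=
      ⟨i0, Finset.mem_filter.2 ⟨Finset.mem_univ _, by linarith [(ht i0).1]⟩⟩
    refine ⟨Finset.min' _ hne, (Finset.mem_filter.1 (Finset.min'_mem _ hne)).2, ?_⟩
    simp only [mem_iInter, mem_ofPred_eq]
    intro l hl
    by_contra hcon
    have : l ∈ Finset.univ.filter fun i => ρ i x < t i + η :=
      Finset.mem_filter.2 ⟨Finset.mem_univ _, by linarith [not_lt.1 hcon]⟩
    exact absurd (Finset.min'_le _ _ this) (not_le.2 (Finset.mem_Iio.1 hl))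
  · have h1 : ρ i x < t i + η := hx.1
    linarith [(ht i).2]
  · by_contra hcon
    have hlt : m < S.card := not_le.1 hcon
    have hne : S.Nonempty := Finset.card_pos.1 (by omega)
    set i1 := S.max' hne with hi1
    have hcard : m ≤ (S.erase i1).card := by
      rw [Finset.card_erase_of_mem (S.max'_mem hne)]
      omega
    obtain ⟨T, hT, hTc⟩ := Finset.exists_subset_card_eq hcard
    refine hη (T.orderEmbOfFin hTc).toEmbedding x fun j => ?_
    have hj : T.orderEmbOfFin hTc j ∈ S.erase i1 := hT (T.orderEmbOfFin_mem hTc j)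
    obtain ⟨hj1, hj2⟩ := Finset.mem_erase.1 hj
    have hlt1 : T.orderEmbOfFin hTc j < i1 := lt_of_le_of_ne (S.le_max' _ hj2) hj1
    have ha : ρ (T.orderEmbOfFin hTc j) x < t (T.orderEmbOfFin hTc j) + η := (hS _ hj2).1
    have hb := (hS i1 (S.max'_mem hne)).2
    simp only [mem_iInter, mem_ofPred_eq] at hb
    have hb' := hb _ (Finset.mem_Iio.2 hlt1)
    show |ρ (T.orderEmbOfFin hTc j) x - t (T.orderEmbOfFin hTc j)| < η
    rw [abs_lt]
    constructor <;> linarith

/-- The same with a uniform bound `v` for the volumes. -/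
theorem eCov' {X : Type*} [TopologicalSpace X] [CompactSpace X] {N m : ℕ} {r v : ℝ} (hr : 0 < r)
    (ρ : Fin N → X → ℝ) (hρ : ∀ i, Continuous (ρ i)) (hcov : ∀ x, ∃ i, ρ i x < r)
    (hv : ∀ I : Fin m → Fin N,
      volume (range fun (x : X) (j : Fin m) => ρ (I j) x) ≤ ENNReal.ofReal v)
    (hs : (N : ℝ) ^ m * v < r ^ m) :
    ∃ U : Fin N → Set X, (∀ i, IsOpen (U i)) ∧ (∀ x, ∃ i, x ∈ U i) ∧
      (∀ i, ∀ x ∈ U i, ρ i x < 3 * r) ∧
      ∀ (x : X) (S : Finset (Fin N)), (∀ i ∈ S, x ∈ U i) → S.card ≤ m := by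
  refine eCov hr ρ hρ hcov ?_
  have hc : Fintype.card (Fin m ↪ Fin N) ≤ N ^ m := by
    have := Fintype.card_le_of_injective (fun I : Fin m ↪ Fin N => (I : Fin m → Fin N))
      DFunLike.coe_injective
    simpa using this
  calc ∑ I : Fin m ↪ Fin N, volume (range fun (x : X) (j : Fin m) => ρ (I j) x)
      ≤ ∑ _I : Fin m ↪ Fin N, ENNReal.ofReal v := Finset.sum_le_sum fun I _ => hv I
    _ = (Fintype.card (Fin m ↪ Fin N) : ENNReal) * ENNReal.ofReal v := by
        simp [Finset.sum_const, Finset.card_univ]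
    _ ≤ ((N ^ m : ℕ) : ENNReal) * ENNReal.ofReal v := by
        gcongr
    _ = ENNReal.ofReal ((N : ℝ) ^ m * v) := by
        rw [ENNReal.ofReal_mul (by positivity), ← ENNReal.ofReal_natCast]
        push_cast
        rfl
    _ < ENNReal.ofReal (r ^ m) := (ENNReal.ofReal_lt_ofReal_iff (by positivity)).2 hs

end Pool.Agent.Lib.MP_813db1_ag.AS
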