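import Pool.Agent.Lib.MP_813db1_ag.AS.EVol
import Pool.Agent.Lib.MP_813db1_ag.AS.ECov

/-! Small volume gives a cover of multiplicity at most `2 n`. -/

set_option autoImplicit false

namespace Pool.Agent.Lib.MP_813db1_ag.AS

open Pool.Agent.Lib.MP_813db1_ag.HS
open MeasureTheory Filter Topology Set

/-- for all `n`, `L`, `r`, `N` there is a volume below which `N` functions that are locally
`L`-Lipschitz for the symmetrised cost and whose `r`-sublevel sets cover `X` give an open cover of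
multiplicity at most `2 n` inside the `3 r`-sublevel sets. -/
theorem eJoin (ι : Type) [Fintype ι] [DecidableEq ι] (L r : ℝ) (hL : 0 ≤ L) (hr : 0 < r) (N₀ : ℕ) :
    ∃ v : ℝ, 0 < v ∧ ∀ (X : Type) [TopologicalSpace X] [T2Space X] [CompactSpace X]
      [MeasurableSpace X] [BorelSpace X] (M : Atl ι X) (g h : X → Mat ι) (μ : Measure X)
      (c : X → X → ℝ), M.IsK g → M.IsK h → M.IsVol g μ → MP_bbd4b9_ag.LC.Cost M h c →
      ∫ x, rat h g x ∂μ ≤ v → ∀ N ≤ N₀, ∀ ρ : Fin N → X → ℝ,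
      (∀ i x, ∀ᶠ q in 𝓝 (x, x), |ρ i q.1 - ρ i q.2| ≤ L * √(c q.1 q.2 + c q.2 q.1)) →
      (∀ x, ∃ i, ρ i x < r) → ∃ U : Fin N → Set X, (∀ i, IsOpen (U i)) ∧ (∀ x, ∃ i, x ∈ U i) ∧
        (∀ i, ∀ x ∈ U i, ρ i x < 3 * r) ∧
        ∀ x (S : Finset (Fin N)), (∀ i ∈ S, x ∈ U i) → S.card ≤ 2 * Fintype.card ι := by
  obtain ⟨C, hC, h1⟩ := eVolC ι
  set m := 2 * Fintype.card ι
  have hK : 0 < (N₀ : ℝ) ^ m * (C * L ^ m) + 1 := by positivity
  refine ⟨r ^ m / ((N₀ : ℝ) ^ m * (C * L ^ m) + 1), by positivity,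
    fun X _ _ _ _ _ M g h μ c hg hh hμ hc hv N hN ρ hρ hcov => ?_⟩
  refine eCov' (v := C * L ^ m * (r ^ m / ((N₀ : ℝ) ^ m * (C * L ^ m) + 1))) hr ρ
    (fun i => continuous_iff_continuousAt.2 fun x => ?_) hcov (fun I => ?_) ?_
  · have t1 : Tendsto (fun y : X => (y, x)) (𝓝 x) (𝓝 (x, x)) :=
      (continuous_id.prodMk continuous_const).tendsto x
    have t2 : Continuous fun y => L * √(c y x + c x y) :=
      continuous_const.mul ((hc.cont.comp (continuous_id.prodMk continuous_const)).add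
        (hc.cont.comp (continuous_const.prodMk continuous_id))).sqrt
    have t3 := t2.tendsto x
    rw [hc.zero, add_zero, Real.sqrt_zero, mul_zero] at t3
    exact tendsto_iff_dist_tendsto_zero.2
      (squeeze_zero' (Eventually.of_forall fun _ => dist_nonneg) (t1.eventually (hρ i x)) t3)
  · refine (h1 X M g h μ c hg hh hμ hc L hL (fun j => ρ (I j)) fun j => hρ (I j)).trans ?_
    exact ENNReal.ofReal_le_ofReal (mul_le_mul_of_nonneg_left hv (by positivity))
  · have a1 : (N : ℝ) ^ m ≤ (N₀ : ℝ) ^ m := by gcongr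
    have a2 : 0 ≤ C * L ^ m := by positivity
    have a3 : 0 < r ^ m := by positivity
    rw [← mul_assoc, ← mul_div_assoc, div_lt_iff₀ hK]
    nlinarith [mul_le_mul_of_nonneg_right a1 (mul_nonneg a2 a3.le)]

end Pool.Agent.Lib.MP_813db1_ag.AS
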