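import Pool.Agent.Lib.MP_813db1_ag.AS.F1
import Pool.Agent.Lib.MP_813db1_ag.AS.StmtG

/-! Local primitives of the Kaehler form with exact differences. -/

namespace Pool.Agent.Lib.MP_813db1_ag.AS

open Pool.Agent.Lib.MP_813db1_ag.HS Filter Topology Set Matrix
open scoped ContDiff

namespace F12

variable {ι X Y G : Type} [Fintype ι] [DecidableEq ι] [TopologicalSpace X] [TopologicalSpace Y]
  [Group G] [MulAction G Y] {p : Y → X} {M : Atl ι X} {e e' : Ch ι X} {z : V ι} {s : V ι → Y}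

/-- local inverses of `e ∘ p`. -/
def Sec (p : Y → X) (e : Ch ι X) (z : V ι) (s : V ι → Y) : Prop :=
  ContinuousAt s z ∧ ∀ᶠ w in 𝓝 z, p (s w) = e.symm w

theorem uniq (hp : IsLocalHomeomorph p) {W : Type} [TopologicalSpace W] {s q : W → Y} {z : W}
    (hs : ContinuousAt s z) (hq : ContinuousAt q z) (h0 : s z = q z)
    (h : ∀ᶠ w in 𝓝 z, p (s w) = p (q w)) : s =ᶠ[𝓝 z] q := by
  obtain ⟨O, hO, hz, hi⟩ := hp.isLocallyInjective (s z)
  filter_upwards [h, hs.eventually (hO.eventually_mem hz),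
    hq.eventually (hO.eventually_mem (h0 ▸ hz))] with w h1 h2 h3 using hi h2 h3 h1

/-- the sheet through `y`, read in the chart `e`. -/
noncomputable def sh (hp : IsLocalHomeomorph p) (y : Y) (e : Ch ι X) (w : V ι) : Y :=
  hp.localInverseAt y (e.symm w)

theorem sh_sec (hp : IsLocalHomeomorph p) {y : Y} (hz : z ∈ e.target)
    (h : e.symm z ∈ (hp.localInverseAt y).source) : Sec p e z (sh hp y e) :=
  ⟨((hp.localInverseAt y).continuousAt h).comp (e.continuousAt_symm hz),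
    (F1.ev hz (hp.localInverseAt y).open_source h).mono fun _ hw =>
      hp.apply_localInverseAt_of_mem hw.2⟩

theorem sh_self (hp : IsLocalHomeomorph p) {y : Y} (h : p y ∈ e.source) :
    Sec p e (e (p y)) (sh hp y e) ∧ sh hp y e (e (p y)) = y :=
  ⟨sh_sec hp (e.map_source h) (by rw [e.left_inv h]; simp), by rw [sh, e.left_inv h]; simp⟩

theorem Sec.eq (hp : IsLocalHomeomorph p) (hz : z ∈ e.target) (hs : Sec p e z s) :
    s =ᶠ[𝓝 z] sh hp (s z) e := by
  have h0 := hs.2.self_of_nhds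
  have h1 := sh_self hp (e := e) (y := s z) (h0 ▸ e.map_target hz)
  rw [h0, e.right_inv hz] at h1
  exact uniq hp hs.1 h1.1.1 h1.2.symm ((hs.2.and h1.1.2).mono fun w hw => hw.1.trans hw.2.symm)

theorem Sec.ev (hp : IsLocalHomeomorph p) (hz : z ∈ e.target) (hs : Sec p e z s) :
    ∀ᶠ w in 𝓝 z, Sec p e w s := by
  have h1 : e.symm z ∈ (hp.localInverseAt (s z)).source := by
    rw [← hs.2.self_of_nhds]; simp
  filter_upwards [(hs.eq hp hz).eventually_nhds, hs.2.eventually_nhds,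
    F1.ev hz (hp.localInverseAt (s z)).open_source h1] with w h2 h3 h4
  exact ⟨(sh_sec hp h4.1 h4.2).1.congr (EventuallyEq.symm h2), h3⟩

theorem Sec.smul (hq : IsQuotientCoveringMap p G) (hs : Sec p e z s) (g : G) :
    Sec p e z fun w => g • s w :=
  ⟨(hq.continuous_const_smul g).continuousAt.comp hs.1,
    hs.2.mono fun _ hw => (hq.map_smul g).trans hw⟩

open Classical in
/-- the group element that moves `y` to `y'`. -/
noncomputable def dl (G : Type) [Group G] [MulAction G Y] (y y' : Y) : G :=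
  if h : ∃ g : G, g • y = y' then h.choose else 1

theorem dl_eq (hq : IsQuotientCoveringMap p G) {y y' : Y} {g : G} (h : g • y = y') :
    dl G y y' = g := by
  have := hq.isCancelSMul
  have h1 : ∃ g : G, g • y = y' := ⟨g, h⟩
  rw [dl, dif_pos h1]
  exact IsCancelSMul.right_cancel _ _ y (h1.choose_spec.trans h.symm)

theorem dl_smul (hq : IsQuotientCoveringMap p G) {y y' : Y} (h : p y' = p y) :
    dl G y y' • y = y' := by
  obtain ⟨g, hg⟩ := hq.apply_eq_iff_mem_orbit.1 h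
  rw [dl_eq hq hg]
  exact hg

/-- the average of a smooth groupoid cocycle. -/
theorem avg [T2Space X] [CompactSpace X] (hP : PouS) (M : Atl ι X) (hq : IsQuotientCoveringMap p G)
    (S : Set (Ch ι X)) (hS : S ⊆ M.A) (U : Set X) (v : G → Y → ℝ)
    (hv : ∀ g g' y, p y ∈ U → v (g * g') y = v g (g' • y) + v g' y)
    (hs : ∀ g, ∀ e ∈ S, ∀ z ∈ e.target, e.symm z ∈ U → ∀ s, Sec p e z s →
      ContDiffAt ℝ ∞ (fun w => v g (s w)) z) :
    ∃ F : Y → ℝ, (∀ (g : G) y, p y ∈ U → F y = F (g • y) + v g y) ∧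
      ∀ e ∈ S, ∀ z ∈ e.target, e.symm z ∈ U → ∀ s, Sec p e z s →
        ContDiffAt ℝ ∞ (fun w => F (s w)) z := by
  have hp := hq.isCoveringMap.isLocalHomeomorph
  obtain ⟨T, hT⟩ := isCompact_univ.elim_finite_subcover (fun y => (hp.localInverseAt y).source)
    (fun y => (hp.localInverseAt y).open_source) fun x _ => by
      obtain ⟨y, rfl⟩ := hq.surjective x
      exact mem_iUnion.2 ⟨y, by simp⟩
  obtain ⟨χ, h1, h2⟩ := hP ι X M T (fun b => (hp.localInverseAt b.1).source)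
    (fun b => (hp.localInverseAt b.1).open_source) fun x => by simpa using hT (mem_univ x)
  refine ⟨fun y => ∑ b : T, χ b (p y) * v (dl G y (hp.localInverseAt b.1 (p y))) y,
    fun g y hy => ?_, fun e he z hz hU s hs' => ContDiffAt.sum fun b _ => ?_⟩
  · rw [← one_mul (v g y), ← h2 (p y), Finset.sum_mul, ← Finset.sum_add_distrib]
    refine Finset.sum_congr rfl fun b _ => ?_
    rw [hq.map_smul]
    by_cases h : χ b (p y) = 0
    · simp [h]
    have h3 := hp.apply_localInverseAt_of_mem ((h1 b).2.2 (subset_tsupport _ h))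
    have h4 := dl_smul hq (h3.trans (hq.map_smul g).symm)
    rw [← mul_add, ← hv _ _ _ hy, dl_eq hq ((mul_smul _ _ _).trans h4)]
  · by_cases h : e.symm z ∈ tsupport (χ b)
    · have h3 := sh_sec hp hz ((h1 b).2.2 h)
      have h4 := dl_smul hq (h3.2.self_of_nhds.trans hs'.2.self_of_nhds.symm)
      have h5 := uniq hp (hs'.smul hq _).1 h3.1 h4
        (((hs'.smul hq _).2.and h3.2).mono fun w hw => hw.1.trans hw.2.symm)
      have h6 : ContDiffAt ℝ ∞ (fun w => χ b (e.symm w)) z :=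
        Complex.reCLM.contDiff.contDiffAt.comp z ((h1 b).1 e (hS he) z hz)
      refine (h6.mul (hs (dl G (s z) (sh hp b.1 e z)) e he z hz hU s hs')).congr_of_eventuallyEq ?_
      filter_upwards [h5, hs'.2] with w h7 h8
      rw [h8, ← dl_eq hq h7]
      rfl
    · refine (contDiffAt_const (c := 0)).congr_of_eventuallyEq ?_
      filter_upwards [hs'.2, (e.continuousAt_symm hz).eventually
        (notMem_tsupport_iff_eventuallyEq.1 h)] with w h7 h8
      rw [h7, h8]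
      simp

/-- descent of the corrected one-form. -/
theorem desc (hq : IsQuotientCoveringMap p G) {S : Set (Ch ι X)} (hS : S ⊆ M.A)
    (hc : ∀ x, M.ch x ∈ S) {α : Ch ι X → Y → Cv ι}
    (h1 : ∀ e ∈ S, ∀ e' ∈ S, ∀ y, p y ∈ e.source → p y ∈ e'.source →
      α e y = (α e' y).comp (fderiv ℝ (e' ∘ e.symm) (e (p y))))
    {U : Set X} {F : Y → ℝ}
    (h2 : ∀ e ∈ S, ∀ z ∈ e.target, e.symm z ∈ U → ∀ s, Sec p e z s →
      ContDiffAt ℝ ∞ (fun w => F (s w)) z)
    (h3 : ∀ e ∈ S, ∀ z ∈ e.target, e.symm z ∈ U → ∀ s, Sec p e z s → ∀ g : G,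
      α e (g • s z) + fderiv ℝ (fun w => F (g • s w)) z = α e (s z) + fderiv ℝ (fun w => F (s w)) z) :
    ∃ a : X → Cv ι, ∀ e ∈ S, ∀ z ∈ e.target, e.symm z ∈ U → ∀ s, Sec p e z s →
      rep1 M a e z = α e (s z) + fderiv ℝ (fun w => F (s w)) z := by
  have hp := hq.isCoveringMap.isLocalHomeomorph
  choose σ hσ using hq.surjective
  refine ⟨fun x => α (M.ch x) (σ x) + fderiv ℝ (fun w => F (sh hp (σ x) (M.ch x) w)) (M.ch x x),
    fun e he z hz hU s hs => ?_⟩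
  have h0 := hs.2.self_of_nhds
  have h4 := dl_smul hq ((hσ _).trans h0.symm)
  rw [← h3 e he z hz hU s hs (dl G (s z) (σ (e.symm z))), h4, rep1]
  have hx := M.mem (e.symm z)
  have h5 := sh_self hp (e := M.ch (e.symm z)) (y := σ (e.symm z)) (by rw [hσ]; exact hx)
  rw [hσ] at h5
  have h6 := h2 _ (hc _) _ ((M.ch _).map_source hx) (by rw [(M.ch _).left_inv hx]; exact hU) _ h5.1
  have h7 := (F1.sm (hS he) (M.ch_mem _) hz hx).differentiableAt (by simp)
  have h8 : (fun w => F (dl G (s z) (σ (e.symm z)) • s w)) =ᶠ[𝓝 z]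
      (fun w => F (sh hp (σ (e.symm z)) (M.ch (e.symm z)) w)) ∘ (M.ch (e.symm z) ∘ e.symm) := by
    filter_upwards [(hs.smul hq (dl G (s z) (σ (e.symm z)))).eq hp hz,
      F1.ev hz (M.ch (e.symm z)).open_source hx] with w h9 h10
    simp only [Function.comp, h9, h4, sh, (M.ch (e.symm z)).left_inv h10.2]
  rw [h8.fderiv_eq, fderiv_comp z (h6.differentiableAt (by simp)) h7, h1 e he _ (hc (e.symm z)) _
    (by rw [hσ]; exact e.map_target hz) (by rw [hσ]; exact hx), hσ, e.right_inv hz,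
    ContinuousLinearMap.add_comp]
  rfl

end F12

open F12 in
theorem f12 (ha : RepA) (hm : MatS) (hP : PouS) {ι X Y G E κ : Type} [Fintype ι] [DecidableEq ι]
    [TopologicalSpace X] [T2Space X] [CompactSpace X] [TopologicalSpace Y] [Group G] [Group E]
    [MulAction G Y] (M : Atl ι X) (g : X → Mat ι) (S : Set (Ch ι X)) (hS : S ⊆ M.A)
    (hc : ∀ x, M.ch x ∈ S) (p : Y → X) (hq : IsQuotientCoveringMap p G) (α : Ch ι X → Y → Cv ι)
    (a1 : ∀ e ∈ S, ∀ e' ∈ S, ∀ y, p y ∈ e.source → p y ∈ e'.source →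
      α e y = (α e' y).comp (fderiv ℝ (e' ∘ e.symm) (e (p y))))
    (a2 : ∀ e ∈ S, ∀ z ∈ e.target, ∀ s : V ι → Y, ContinuousAt s z →
      (∀ᶠ w in 𝓝 z, p (s w) = e.symm w) → ContDiffAt ℝ ∞ (fun w => α e (s w)) z ∧
        ∀ u v, fderiv ℝ (fun w => α e (s w)) z u v - fderiv ℝ (fun w => α e (s w)) z v u =
          (ipV (M.repF g e z) u v).im)
    (c : CE G E) (u : E → Y → ℝ) (u1 : ∀ x x' y, u (x * x') y = u x (c.π x' • y) + u x' y)
    (u2 : ∀ t y, u (c.ζ (Multiplicative.ofAdd t)) y = t)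
    (u3 : ∀ x, ∀ e ∈ S, ∀ z ∈ e.target, ∀ s : V ι → Y, ContinuousAt s z →
      (∀ᶠ w in 𝓝 z, p (s w) = e.symm w) → ContDiffAt ℝ ∞ (fun w => u x (s w)) z ∧
        fderiv ℝ (fun w => u x (s w)) z = α e (c.π x • s z) - α e (s z))
    (H : κ → Subgroup G) (L : ∀ i, G → G ⧸ H i → E) (lam : ∀ i k, G ⧸ H i → G ⧸ H k → ℝ)
    (l1 : ∀ i g q, c.π (L i g q) = g) (l2 : ∀ i g g' q, L i (g * g') q = L i g (g' • q) * L i g' q)
    (l3 : ∀ i k g q q', L i g q =
      L k g q' * c.ζ (Multiplicative.ofAdd (lam i k (g • q) (g • q') - lam i k q q')))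
    (U : κ → Set X) (hU : ∀ i, IsOpen (U i)) (k : ∀ i, Y → G ⧸ H i)
    (k1 : ∀ i (γ : G) y, p y ∈ U i → k i (γ • y) = γ • k i y)
    (k2 : ∀ i y, p y ∈ U i → ∀ᶠ y' in 𝓝 y, k i y' = k i y) :
    ∃ (a : κ → X → Cv ι) (f : κ → κ → X → ℝ), (∀ i, Prim M g (a i) (U i)) ∧
      ∀ i j, Dif M (a i) (a j) (f i j) (U i ∩ U j) := by
  have hp := hq.isCoveringMap.isLocalHomeomorph
  have kev : ∀ i (e : Ch ι X) z s, e.symm z ∈ U i → Sec p e z s →
      ∀ᶠ w in 𝓝 z, k i (s w) = k i (s z) := fun i e z s h hs =>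
    hs.1.eventually (k2 i _ (hs.2.self_of_nhds ▸ h))
  have uev : ∀ i γ (e : Ch ι X) z s, e.symm z ∈ U i → Sec p e z s →
      (fun w => u (L i γ (k i (s w))) (s w)) =ᶠ[𝓝 z] fun w => u (L i γ (k i (s z))) (s w) :=
    fun i γ e z s h hs => (kev i e z s h hs).mono fun w hw => by simp only [hw]
  choose F hF1 hF2 using fun i => avg hP M hq S hS (U i) (fun γ y => u (L i γ (k i y)) y)
    (fun γ γ' y hy => by simp only [l2, u1, l1, k1 i γ' y hy])
    fun γ e he z hz h s hs =>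
      (u3 _ e he z hz s hs.1 hs.2).1.congr_of_eventuallyEq (uev i γ e z s h hs)
  choose a hA using fun i => desc hq hS hc a1 (hF2 i) fun e he z hz h s hs γ => by
    have h1 : (fun w => F i (s w)) =ᶠ[𝓝 z] fun w => F i (γ • s w) + u (L i γ (k i (s z))) (s w) := by
      filter_upwards [uev i γ e z s h hs, hs.2, F1.ev hz (hU i) h] with w h1 h2 h3
      rw [hF1 i γ _ (h2 ▸ h3.2), h1]
    obtain ⟨h2, h3⟩ := u3 (L i γ (k i (s z))) e he z hz s hs.1 hs.2
    rw [h1.fderiv_eq, fderiv_fun_add ((hF2 i e he z hz h _ (hs.smul hq γ)).differentiableAt (by simp))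
      (h2.differentiableAt (by simp)), h3, l1]
    abel
  choose σ hσ using hq.surjective
  have hsec : ∀ x, Sec p (M.ch x) (M.ch x x) (sh hp (σ x) (M.ch x)) := fun x => by
    have := (sh_self hp (e := M.ch x) (y := σ x) (by rw [hσ]; exact M.mem x)).1
    rwa [hσ] at this
  have hz : ∀ x, M.ch x x ∈ (M.ch x).target := fun x => (M.ch x).map_source (M.mem x)
  have hx : ∀ x, (M.ch x).symm (M.ch x x) = x := fun x => (M.ch x).left_inv (M.mem x)
  refine ⟨a, fun i j x => F i (σ x) - F j (σ x) + lam i j (k i (σ x)) (k j (σ x)),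
    fun i => F1.prim_loc ha hm fun x hi => ?_, fun i j => F1.dif_loc fun x hi => ?_⟩
  · have h0 : (M.ch x).symm (M.ch x x) ∈ U i := (hx x).symm ▸ hi
    have h1 : rep1 M (a i) (M.ch x) =ᶠ[𝓝 (M.ch x x)] fun w => α (M.ch x) (sh hp (σ x) (M.ch x) w) +
        fderiv ℝ (fun w => F i (sh hp (σ x) (M.ch x) w)) w := by
      filter_upwards [(hsec x).ev hp (hz x), F1.ev (hz x) (hU i) h0] with w h1 h2
      exact hA i _ (hc x) w h2.1 h2.2 _ h1
    obtain ⟨h2, h3⟩ := a2 _ (hc x) _ (hz x) _ (hsec x).1 (hsec x).2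
    have h4 := hF2 i _ (hc x) _ (hz x) h0 _ (hsec x)
    have h5 : ContDiffAt ℝ ∞ (fderiv ℝ fun w => F i (sh hp (σ x) (M.ch x) w)) (M.ch x x) :=
      h4.fderiv_right (by simp)
    refine ⟨(h2.add h5).congr_of_eventuallyEq h1, fun v w => ?_⟩
    have h6 := h4.isSymmSndFDerivAt (by simp; exact ENat.LEInfty.out) v w
    rw [h1.fderiv_eq, fderiv_fun_add (h2.differentiableAt (by simp)) (h5.differentiableAt (by simp)),
      ← h3]
    simp only [_root_.add_apply, h6]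
    ring
  · have h0 : (M.ch x).symm (M.ch x x) ∈ U i ∩ U j := (hx x).symm ▸ hi
    have inv : ∀ (γ : G) y, p y ∈ U i ∩ U j → F i (γ • y) - F j (γ • y) +
        lam i j (k i (γ • y)) (k j (γ • y)) = F i y - F j y + lam i j (k i y) (k j y) := by
      intro γ y hy
      have h1 := u1 (L j γ (k j y)) (c.ζ (Multiplicative.ofAdd
        (lam i j (γ • k i y) (γ • k j y) - lam i j (k i y) (k j y)))) y
      rw [← l3, (c.ker _).2 ⟨_, rfl⟩, one_smul, u2] at h1
      rw [hF1 i γ y hy.1, hF1 j γ y hy.2, h1, k1 i γ y hy.1, k1 j γ y hy.2]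
      ring
    have h1 : (fun x => F i (σ x) - F j (σ x) + lam i j (k i (σ x)) (k j (σ x))) ∘ (M.ch x).symm
        =ᶠ[𝓝 (M.ch x x)] fun w => F i (sh hp (σ x) (M.ch x) w) - F j (sh hp (σ x) (M.ch x) w) +
          lam i j (k i (sh hp (σ x) (M.ch x) (M.ch x x))) (k j (sh hp (σ x) (M.ch x) (M.ch x x))) := by
      filter_upwards [(hsec x).2, F1.ev (hz x) ((hU i).inter (hU j)) h0,
        kev i _ _ _ h0.1 (hsec x), kev j _ _ _ h0.2 (hsec x)] with w h1 h2 h3 h4
      rw [← h3, ← h4, ← dl_smul hq (h1.trans (hσ _).symm), inv _ _ ((hσ _).symm ▸ h2.2)]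
      rfl
    have h2 := hF2 i _ (hc x) _ (hz x) h0.1 _ (hsec x)
    have h3 := hF2 j _ (hc x) _ (hz x) h0.2 _ (hsec x)
    refine ⟨((h2.sub h3).add contDiffAt_const).congr_of_eventuallyEq h1, ?_⟩
    rw [h1.fderiv_eq, fderiv_add_const, fderiv_fun_sub (h2.differentiableAt (by simp))
      (h3.differentiableAt (by simp)), ← F1.rep1_self (M := M) (a i), ← F1.rep1_self (M := M) (a j),
      hA i _ (hc x) _ (hz x) h0.1 _ (hsec x), hA j _ (hc x) _ (hz x) h0.2 _ (hsec x)]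
    abel

/-- local primitives with exact differences. -/
def F12S : Prop := ∀ (ι X Y G E κ : Type) [Fintype ι] [DecidableEq ι] [TopologicalSpace X]
  [T2Space X] [CompactSpace X] [TopologicalSpace Y] [Group G] [Group E] [MulAction G Y]
  (M : Atl ι X) (g : X → Mat ι) (S : Set (Ch ι X)) (p : Y → X) (α : Ch ι X → Y → Cv ι)
  (c : CE G E) (u : E → Y → ℝ) (H : κ → Subgroup G) (L : ∀ i, G → G ⧸ H i → E)
  (lam : ∀ i k, G ⧸ H i → G ⧸ H k → ℝ) (U : κ → Set X) (k : ∀ i, Y → G ⧸ H i),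
  S ⊆ M.A → (∀ x, M.ch x ∈ S) → IsQuotientCoveringMap p G →
  (∀ e ∈ S, ∀ e' ∈ S, ∀ y, p y ∈ e.source → p y ∈ e'.source →
    α e y = (α e' y).comp (fderiv ℝ (e' ∘ e.symm) (e (p y)))) →
  (∀ e ∈ S, ∀ z ∈ e.target, ∀ s : V ι → Y, ContinuousAt s z →
    (∀ᶠ w in 𝓝 z, p (s w) = e.symm w) → ContDiffAt ℝ ∞ (fun w => α e (s w)) z ∧
      ∀ u v, fderiv ℝ (fun w => α e (s w)) z u v - fderiv ℝ (fun w => α e (s w)) z v u =
        (ipV (M.repF g e z) u v).im) →
  (∀ x x' y, u (x * x') y = u x (c.π x' • y) + u x' y) →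
  (∀ t y, u (c.ζ (Multiplicative.ofAdd t)) y = t) →
  (∀ x, ∀ e ∈ S, ∀ z ∈ e.target, ∀ s : V ι → Y, ContinuousAt s z →
    (∀ᶠ w in 𝓝 z, p (s w) = e.symm w) → ContDiffAt ℝ ∞ (fun w => u x (s w)) z ∧
      fderiv ℝ (fun w => u x (s w)) z = α e (c.π x • s z) - α e (s z)) →
  (∀ i g q, c.π (L i g q) = g) → (∀ i g g' q, L i (g * g') q = L i g (g' • q) * L i g' q) →
  (∀ i k g q q', L i g q =
    L k g q' * c.ζ (Multiplicative.ofAdd (lam i k (g • q) (g • q') - lam i k q q'))) →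
  (∀ i, IsOpen (U i)) → (∀ i (γ : G) y, p y ∈ U i → k i (γ • y) = γ • k i y) →
  (∀ i y, p y ∈ U i → ∀ᶠ y' in 𝓝 y, k i y' = k i y) →
  ∃ (a : κ → X → Cv ι) (f : κ → κ → X → ℝ), (∀ i, Prim M g (a i) (U i)) ∧
    ∀ i j, Dif M (a i) (a j) (f i j) (U i ∩ U j)

theorem f12S (ha : RepA) (hm : MatS) (hP : PouS) : F12S :=
  fun _ _ _ _ _ _ _ _ _ _ _ _ _ _ _ M g S p α c u H L lam U k h1 h2 h3 a1 a2 u1 u2 u3 l1 l2 l3 h4
    k1 k2 => f12 ha hm hP M g S h1 h2 p h3 α a1 a2 c u u1 u2 u3 H L lam l1 l2 l3 U h4 k k1 k2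

end Pool.Agent.Lib.MP_813db1_ag.AS
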