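import Pool.Agent.Lib.MP_813db1_ag.AS.F12
import Pool.Agent.Lib.MP_813db1_ag.AS.Stmt3

/-! Local primitives of a closed two-form with exact differences. -/

namespace Pool.Agent.Lib.MP_813db1_ag.AS

open Pool.Agent.Lib.MP_813db1_ag.HS Filter Topology Set Matrix
open scoped ContDiff

theorem prim2_loc {ι X : Type} [Fintype ι] [DecidableEq ι] [TopologicalSpace X] {M : Atl ι X}
    {W : X → V ι → V ι → ℝ} {a : X → Cv ι} {U : Set X}
    (h : ∀ x ∈ U, ContDiffAt ℝ ∞ (rep1 M a (M.ch x)) (M.ch x x) ∧ ∀ u v,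
      fderiv ℝ (rep1 M a (M.ch x)) (M.ch x x) u v - fderiv ℝ (rep1 M a (M.ch x)) (M.ch x x) v u =
        W x u v) : Prim2 M W a U := by
  refine ⟨fun e he z hz hU => ?_, fun x hx => (h x hx).2⟩
  have he' := M.ch_mem (e.symm z)
  have hz' := M.mem (e.symm z)
  have hev : rep1 M a e =ᶠ[𝓝 z] fun w => (rep1 M a (M.ch (e.symm z))
      ((M.ch (e.symm z) ∘ e.symm) w)).comp (fderiv ℝ (M.ch (e.symm z) ∘ e.symm) w) :=
    (F1.ev hz (M.ch (e.symm z)).open_source hz').mono fun w hw => F1.rep1_tr a he he' hw.1 hw.2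
  exact (F1.d_pull (A := rep1 M a (M.ch (e.symm z))) (φ := M.ch (e.symm z) ∘ e.symm) (h _ hU).1
    (F1.sm he he' hz hz')).1.congr_of_eventuallyEq hev

open F12 in
theorem f12b (hP : PouS) {ι X Y G E κ : Type} [Fintype ι] [DecidableEq ι]
    [TopologicalSpace X] [T2Space X] [CompactSpace X] [TopologicalSpace Y] [Group G] [Group E]
    [MulAction G Y] (M : Atl ι X) (Om : Ch ι X → V ι → V ι → V ι → ℝ) (S : Set (Ch ι X)) (hS : S ⊆ M.A)
    (hc : ∀ x, M.ch x ∈ S) (p : Y → X) (hq : IsQuotientCoveringMap p G) (α : Ch ι X → Y → Cv ι)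
    (a1 : ∀ e ∈ S, ∀ e' ∈ S, ∀ y, p y ∈ e.source → p y ∈ e'.source →
      α e y = (α e' y).comp (fderiv ℝ (e' ∘ e.symm) (e (p y))))
    (a2 : ∀ e ∈ S, ∀ z ∈ e.target, ∀ s : V ι → Y, ContinuousAt s z →
      (∀ᶠ w in 𝓝 z, p (s w) = e.symm w) → ContDiffAt ℝ ∞ (fun w => α e (s w)) z ∧
        ∀ u v, fderiv ℝ (fun w => α e (s w)) z u v - fderiv ℝ (fun w => α e (s w)) z v u =
          Om e z u v)
    (c : CE G E) (u : E → Y → ℝ) (u1 : ∀ x x' y, u (x * x') y = u x (c.π x' • y) + u x' y)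
    (u2 : ∀ t y, u (c.ζ (Multiplicative.ofAdd t)) y = t)
    (u3 : ∀ x, ∀ e ∈ S, ∀ z ∈ e.target, ∀ s : V ι → Y, ContinuousAt s z →
      (∀ᶠ w in 𝓝 z, p (s w) = e.symm w) → ContDiffAt ℝ ∞ (fun w => u x (s w)) z ∧
        fderiv ℝ (fun w => u x (s w)) z = α e (c.π x • s z) - α e (s z))
    (H : κ → Subgroup G) (L : ∀ i, G → G ⧸ H i → E) (lam : ∀ i k, G ⧸ H i → G ⧸ H k → ℝ)
    (l1 : ∀ i g q, c.π (L i g q) = g) (l2 : ∀ i g g' q, L i (g * g') q = L i g (g' • q) * L i g' q)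
    (l3 : ∀ i k g q q', L i g q =
      L k g q' * c.ζ (Multiplicative.ofAdd (lam i k (g • q) (g • q') - lam i k q q')))
    (U : κ → Set X) (hU : ∀ i, IsOpen (U i)) (k : ∀ i, Y → G ⧸ H i)
    (k1 : ∀ i (γ : G) y, p y ∈ U i → k i (γ • y) = γ • k i y)
    (k2 : ∀ i y, p y ∈ U i → ∀ᶠ y' in 𝓝 y, k i y' = k i y) :
    ∃ (a : κ → X → Cv ι) (f : κ → κ → X → ℝ), (∀ i, Prim2 M (fun x => Om (M.ch x) (M.ch x x)) (a i) (U i)) ∧
      ∀ i j, Dif M (a i) (a j) (f i j) (U i ∩ U j) := by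
  have hp := hq.isCoveringMap.isLocalHomeomorph
  have kev : ∀ i (e : Ch ι X) z s, e.symm z ∈ U i → Sec p e z s →
      ∀ᶠ w in 𝓝 z, k i (s w) = k i (s z) := fun i e z s h hs =>
    hs.1.eventually (k2 i _ (hs.2.self_of_nhds ▸ h))
  have uev : ∀ i γ (e : Ch ι X) z s, e.symm z ∈ U i → Sec p e z s →
      (fun w => u (L i γ (k i (s w))) (s w)) =ᶠ[𝓝 z] fun w => u (L i γ (k i (s z))) (s w) :=
    fun i γ e z s h hs => (kev i e z s h hs).mono fun w hw => by simp only [hw]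
  choose F hF1 hF2 using fun i => avg hP M hq S hS (U i) (fun γ y => u (L i γ (k i y)) y)
    (fun γ γ' y hy => by simp only [l2, u1, l1, k1 i γ' y hy])
    fun γ e he z hz h s hs =>
      (u3 _ e he z hz s hs.1 hs.2).1.congr_of_eventuallyEq (uev i γ e z s h hs)
  choose a hA using fun i => desc hq hS hc a1 (hF2 i) fun e he z hz h s hs γ => by
    have h1 : (fun w => F i (s w)) =ᶠ[𝓝 z] fun w => F i (γ • s w) + u (L i γ (k i (s z))) (s w) := by
      filter_upwards [uev i γ e z s h hs, hs.2, F1.ev hz (hU i) h] with w h1 h2 h3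
      rw [hF1 i γ _ (h2 ▸ h3.2), h1]
    obtain ⟨h2, h3⟩ := u3 (L i γ (k i (s z))) e he z hz s hs.1 hs.2
    rw [h1.fderiv_eq, fderiv_fun_add ((hF2 i e he z hz h _ (hs.smul hq γ)).differentiableAt (by simp))
      (h2.differentiableAt (by simp)), h3, l1]
    abel
  choose σ hσ using hq.surjective
  have hsec : ∀ x, Sec p (M.ch x) (M.ch x x) (sh hp (σ x) (M.ch x)) := fun x => by
    have := (sh_self hp (e := M.ch x) (y := σ x) (by rw [hσ]; exact M.mem x)).1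
    rwa [hσ] at this
  have hz : ∀ x, M.ch x x ∈ (M.ch x).target := fun x => (M.ch x).map_source (M.mem x)
  have hx : ∀ x, (M.ch x).symm (M.ch x x) = x := fun x => (M.ch x).left_inv (M.mem x)
  refine ⟨a, fun i j x => F i (σ x) - F j (σ x) + lam i j (k i (σ x)) (k j (σ x)),
    fun i => prim2_loc fun x hi => ?_, fun i j => F1.dif_loc fun x hi => ?_⟩
  · have h0 : (M.ch x).symm (M.ch x x) ∈ U i := (hx x).symm ▸ hi
    have h1 : rep1 M (a i) (M.ch x) =ᶠ[𝓝 (M.ch x x)] fun w => α (M.ch x) (sh hp (σ x) (M.ch x) w) +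
        fderiv ℝ (fun w => F i (sh hp (σ x) (M.ch x) w)) w := by
      filter_upwards [(hsec x).ev hp (hz x), F1.ev (hz x) (hU i) h0] with w h1 h2
      exact hA i _ (hc x) w h2.1 h2.2 _ h1
    obtain ⟨h2, h3⟩ := a2 _ (hc x) _ (hz x) _ (hsec x).1 (hsec x).2
    have h4 := hF2 i _ (hc x) _ (hz x) h0 _ (hsec x)
    have h5 : ContDiffAt ℝ ∞ (fderiv ℝ fun w => F i (sh hp (σ x) (M.ch x) w)) (M.ch x x) :=
      h4.fderiv_right (by simp)
    refine ⟨(h2.add h5).congr_of_eventuallyEq h1, fun v w => ?_⟩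
    have h6 := h4.isSymmSndFDerivAt (by simp; exact ENat.LEInfty.out) v w
    rw [h1.fderiv_eq, fderiv_fun_add (h2.differentiableAt (by simp)) (h5.differentiableAt (by simp)),
      ← h3]
    simp only [_root_.add_apply, h6]
    ring
  · have h0 : (M.ch x).symm (M.ch x x) ∈ U i ∩ U j := (hx x).symm ▸ hi
    have inv : ∀ (γ : G) y, p y ∈ U i ∩ U j → F i (γ • y) - F j (γ • y) +
        lam i j (k i (γ • y)) (k j (γ • y)) = F i y - F j y + lam i j (k i y) (k j y) := by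
      intro γ y hy
      have h1 := u1 (L j γ (k j y)) (c.ζ (Multiplicative.ofAdd
        (lam i j (γ • k i y) (γ • k j y) - lam i j (k i y) (k j y)))) y
      rw [← l3, (c.ker _).2 ⟨_, rfl⟩, one_smul, u2] at h1
      rw [hF1 i γ y hy.1, hF1 j γ y hy.2, h1, k1 i γ y hy.1, k1 j γ y hy.2]
      ring
    have h1 : (fun x => F i (σ x) - F j (σ x) + lam i j (k i (σ x)) (k j (σ x))) ∘ (M.ch x).symm
        =ᶠ[𝓝 (M.ch x x)] fun w => F i (sh hp (σ x) (M.ch x) w) - F j (sh hp (σ x) (M.ch x) w) +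
          lam i j (k i (sh hp (σ x) (M.ch x) (M.ch x x))) (k j (sh hp (σ x) (M.ch x) (M.ch x x))) := by
      filter_upwards [(hsec x).2, F1.ev (hz x) ((hU i).inter (hU j)) h0,
        kev i _ _ _ h0.1 (hsec x), kev j _ _ _ h0.2 (hsec x)] with w h1 h2 h3 h4
      rw [← h3, ← h4, ← dl_smul hq (h1.trans (hσ _).symm), inv _ _ ((hσ _).symm ▸ h2.2)]
      rfl
    have h2 := hF2 i _ (hc x) _ (hz x) h0.1 _ (hsec x)
    have h3 := hF2 j _ (hc x) _ (hz x) h0.2 _ (hsec x)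
    refine ⟨((h2.sub h3).add contDiffAt_const).congr_of_eventuallyEq h1, ?_⟩
    rw [h1.fderiv_eq, fderiv_add_const, fderiv_fun_sub (h2.differentiableAt (by simp))
      (h3.differentiableAt (by simp)), ← F1.rep1_self (M := M) (a i), ← F1.rep1_self (M := M) (a j),
      hA i _ (hc x) _ (hz x) h0.1 _ (hsec x), hA j _ (hc x) _ (hz x) h0.2 _ (hsec x)]
    abel

/-- local primitives with exact differences. -/
def F12S2 : Prop := ∀ (ι X Y G E κ : Type) [Fintype ι] [DecidableEq ι] [TopologicalSpace X]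
  [T2Space X] [CompactSpace X] [TopologicalSpace Y] [Group G] [Group E] [MulAction G Y]
  (M : Atl ι X) (Om : Ch ι X → V ι → V ι → V ι → ℝ) (S : Set (Ch ι X)) (p : Y → X) (α : Ch ι X → Y → Cv ι)
  (c : CE G E) (u : E → Y → ℝ) (H : κ → Subgroup G) (L : ∀ i, G → G ⧸ H i → E)
  (lam : ∀ i k, G ⧸ H i → G ⧸ H k → ℝ) (U : κ → Set X) (k : ∀ i, Y → G ⧸ H i),
  S ⊆ M.A → (∀ x, M.ch x ∈ S) → IsQuotientCoveringMap p G →
  (∀ e ∈ S, ∀ e' ∈ S, ∀ y, p y ∈ e.source → p y ∈ e'.source →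
    α e y = (α e' y).comp (fderiv ℝ (e' ∘ e.symm) (e (p y)))) →
  (∀ e ∈ S, ∀ z ∈ e.target, ∀ s : V ι → Y, ContinuousAt s z →
    (∀ᶠ w in 𝓝 z, p (s w) = e.symm w) → ContDiffAt ℝ ∞ (fun w => α e (s w)) z ∧
      ∀ u v, fderiv ℝ (fun w => α e (s w)) z u v - fderiv ℝ (fun w => α e (s w)) z v u =
        Om e z u v) →
  (∀ x x' y, u (x * x') y = u x (c.π x' • y) + u x' y) →
  (∀ t y, u (c.ζ (Multiplicative.ofAdd t)) y = t) →
  (∀ x, ∀ e ∈ S, ∀ z ∈ e.target, ∀ s : V ι → Y, ContinuousAt s z →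
    (∀ᶠ w in 𝓝 z, p (s w) = e.symm w) → ContDiffAt ℝ ∞ (fun w => u x (s w)) z ∧
      fderiv ℝ (fun w => u x (s w)) z = α e (c.π x • s z) - α e (s z)) →
  (∀ i g q, c.π (L i g q) = g) → (∀ i g g' q, L i (g * g') q = L i g (g' • q) * L i g' q) →
  (∀ i k g q q', L i g q =
    L k g q' * c.ζ (Multiplicative.ofAdd (lam i k (g • q) (g • q') - lam i k q q'))) →
  (∀ i, IsOpen (U i)) → (∀ i (γ : G) y, p y ∈ U i → k i (γ • y) = γ • k i y) →
  (∀ i y, p y ∈ U i → ∀ᶠ y' in 𝓝 y, k i y' = k i y) →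
  ∃ (a : κ → X → Cv ι) (f : κ → κ → X → ℝ), 
    (∀ i, Prim2 M (fun x => Om (M.ch x) (M.ch x x)) (a i) (U i)) ∧
    ∀ i j, Dif M (a i) (a j) (f i j) (U i ∩ U j)

theorem f12S2 (hP : PouS) : F12S2 :=
  fun _ _ _ _ _ _ _ _ _ _ _ _ _ _ _ M g S p α c u H L lam U k h1 h2 h3 a1 a2 u1 u2 u3 l1 l2 l3 h4
    k1 k2 => f12b hP M g S h1 h2 p h3 α a1 a2 c u u1 u2 u3 H L lam l1 l2 l3 U h4 k k1 k2

end Pool.Agent.Lib.MP_813db1_ag.AS
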