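import Pool.Agent.Lib.MP_813db1_ag.AS.F12
import Pool.Agent.Lib.MP_813db1_ag.AS.Ext

/-! The vanishing step, assembled. -/

namespace Pool.Agent.Lib.MP_813db1_ag.AS

open Pool.Agent.Lib.MP_813db1_ag.HS Filter Topology Set
open scoped ContDiff

/-- a cover of small multiplicity by sets with almost nilpotent monodromy does not exist. -/
def VanS : Prop := ∀ (ι X Y G κ : Type) [Fintype ι] [DecidableEq ι] [TopologicalSpace X]
  [T2Space X] [CompactSpace X] [Nonempty X] [ChartedSpace (ι → ℂ) X] [TopologicalSpace Y]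
  [SimplyConnectedSpace Y] [Group G] [MulAction G Y] [Fintype κ] (K : Kahler ι X) (M : Atl ι X)
  (g : X → Mat ι) (p : Y → X) (N : Subgroup G) (H : κ → Subgroup G) (U : κ → Set X)
  (k : ∀ i, Y → G ⧸ H i), atlas (ι → ℂ) X ⊆ M.A → (∀ x, M.ch x = chartAt (ι → ℂ) x) → M.IsK g →
  (∀ e ∈ atlas (ι → ℂ) X, ∀ z ∈ e.target, M.repF g e z = K.g e z) → IsQuotientCoveringMap p G →
  Exact K p → Group.FG G → NoAb G ∨ FinRep G → N.FG → Group.IsVirtuallyNilpotent N → Cmn N →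
  (∀ i, N.relIndex (H i) ≠ 0) → (∀ i, IsOpen (U i)) → (∀ x, ∃ i, x ∈ U i) →
  (∀ x, {i | x ∈ U i}.ncard ≤ 2 * Fintype.card ι) →
  (∀ i (γ : G) y, p y ∈ U i → k i (γ • y) = γ • k i y) →
  (∀ i y, p y ∈ U i → ∀ᶠ y' in 𝓝 y, k i y' = k i y) → False

theorem vanS (h1 : ExtS) (h2 : AlgS) (h3 : LiftS) (h4 : F12S) (h5 : F3S) : VanS := by
  intro ι X Y G κ _ _ _ _ _ _ _ _ _ _ _ _ K M g p N H U k hA hc hg hr hq ⟨α, a1, a2⟩ hG hL n1 n2 n3
    hH u1 u2 u3 k1 k2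
  obtain ⟨E, _, c, u, e1, e2, e3⟩ := h1 ι X Y G M _ p α _ hA
    (fun x => ⟨_, chart_mem_atlas _ x, mem_chart_source _ x⟩) hq a1 a2
  obtain ⟨T, hT⟩ := h2 G E c N hG hL n1 n2 n3
  obtain ⟨L, lam, l1, l2, l3⟩ := h3 G E κ c N T H hT hH
  obtain ⟨a, f, b1, b2⟩ := h4 ι X Y G E κ M g _ p α c u H L lam U k hA
    (fun x => hc x ▸ chart_mem_atlas _ x) hq a1 (fun e he z hz s s1 s2 => by
      rw [hr e he z hz]
      exact a2 e he z hz s s1 s2) e1 e2 e3 l1 l2 l3 u1 k1 k2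
  exact h5 ι X κ M g U a f hg u1 u2 u3 b1 b2

end Pool.Agent.Lib.MP_813db1_ag.AS
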