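import Pool.Agent.Lib.MP_813db1_ag.AS.SolDefs
import Pool.Agent.Lib.MP_813db1_ag.AS.End
import Pool.Agent.Lib.MP_813db1_ag.AS.Diam
import Pool.Agent.Lib.MP_813db1_ag.AS.MetDefs
import Pool.Agent.Lib.MP_813db1_ag.AS.IterDefs
import Pool.Agent.Lib.MP_813db1_ag.HS.Main

/-! Assembly. -/

namespace Pool.Agent.Lib.MP_813db1_ag.AS

open Pool.Agent.Lib.MP_813db1_ag.HS
open MeasureTheory Complex Matrix Filter Topology Set Metric
open scoped ContDiff ComplexOrder Manifold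

theorem main (hmax : MaxAtlS) (ha : RepA) (hv : VolS) (h1 : SolA) (h2 : SolB) (h3 : GapS)
    (h4 : MetS) (h5 : EndS) (h8 : BigS) : MainS := by
  intro ι X Y G _ _ _ _ _ _ _ _ _ _ _ _ _ K p hp hN hE hG
  borelize X
  obtain ⟨M, g, hA, hch, hg, hrep⟩ := hmax ι X K
  have eg : ∀ x, g x = K.g (chartAt (ι → ℂ) x) (chartAt (ι → ℂ) x x) := fun x => by
    rw [← hrep _ (chart_mem_atlas _ x) _ (mem_chart_target _ x), ← hch, (ha ι X M).repF_self]
  have er : ∀ x, M.ricF g x = ric (K.g (chartAt (ι → ℂ) x)) (chartAt (ι → ℂ) x x) := fun x => by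
    rw [Atl.ricF, hch]
    refine Main.ric_cg ?_
    filter_upwards [(chartAt (ι → ℂ) x).open_target.mem_nhds (mem_chart_target _ x)] with w hw
    rw [hrep _ (chart_mem_atlas _ x) w hw]
  have hnef : NefA M g := fun ε hε => by
    obtain ⟨w, h⟩ := hN ε hε
    refine ⟨w, (ha ι X M).ck_loc ⊤ w fun x => ⟨_, hA (chart_mem_atlas _ x), mem_chart_source _ x,
      ?_⟩, fun x => ?_⟩
    · exact ofRealCLM.contDiff.contDiffAt.comp _ (((h _ (chart_mem_atlas _ x)).1).contDiffAt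
        ((chartAt (ι → ℂ) x).open_target.mem_nhds (mem_chart_target _ x)))
    · rw [er, eg, Atl.ddc, hch]
      exact (h _ (chart_mem_atlas _ x)).2 _ (mem_chart_target _ x)
  obtain ⟨⟨μ, hμ⟩, -⟩ := hv ι X M g hg
  have hsol := h1 ι X M g hg hnef
  have hpos : 0 < M.vol μ g 0 := by
    by_contra hle
    obtain ⟨hric, hvol⟩ := h2 ι X M g μ hg hμ
    obtain ⟨C, L, A, r, -, hA0, -, hM⟩ := h4 ι
    obtain ⟨φ, hφ, hgap⟩ := h3 ι X M g hg A (1 / 4) hA0 (by norm_num)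
    obtain ⟨D, hD⟩ := diam φ r hφ
    obtain ⟨v, hv0, hend⟩ := h5 ι C D L (2 * Fintype.card ι)
    obtain ⟨ε, hε, hsm⟩ := hvol (not_lt.1 hle) v hv0
    obtain ⟨u, hu⟩ := hsol ε hε
    obtain ⟨⟨ν, hν⟩, hV⟩ := hv ι X M _ hu.2.1
    have := (hV ν hν).fin
    have := (hV ν hν).pos
    obtain ⟨a, γ, a1, a2, -, a3, a4⟩ := trS X Y G p hp
    obtain ⟨d, m⟩ := hM X G M _ a hu.2.1 (hric ε hε.1 u hu) a1 a2
    have hdi := hD G (Tot X G) X (fun z => z.1) ν m.iso m.geo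
      (fun z z' h => ⟨z'.2 * z.2⁻¹, Prod.ext h.symm (by rw [Tot.smul_snd]; group)⟩)
      (ENNReal.toReal_pos (isOpen_univ.measure_ne_zero ν univ_nonempty) (measure_ne_top _ _))
      fun z => by
        obtain ⟨Ψ, p1, p2, p3, p4⟩ := m.bar z.1
        refine ⟨{y | 1 / 4 ≤ Ψ y}, (p1.isClosed_preimage _).measurableSet, ?_, fun x hx => ?_⟩
        · by_contra hc
          have h0 := hgap ε hε u ν hu hν Ψ (1 / 4) p1 ⟨0, by rintro _ ⟨y, rfl⟩; exact (p2 y).1⟩
            (fun y hy => (p4 y (lt_of_lt_of_le (by norm_num) hy)).1) (not_le.1 hc).le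
          refine (Measure.measure_pos_of_mem_nhds ν (s := {y | 1 / 4 + 1 / 4 ≤ Ψ y}) (x := z.1)
            ?_).ne' h0
          filter_upwards [p3] with y hy
          show 1 / 4 + 1 / 4 ≤ Ψ y
          linarith
        · obtain ⟨c, hc⟩ := (p4 x (lt_of_lt_of_le (by norm_num) hx)).2
          refine ⟨z.2 • Tot.mk x c, rfl, ?_⟩
          rw [← m.iso z.2, Tot.smul_mk, mul_one] at hc
          exact hc.le
    exact (hsm u ν hu hν).not_gt (hend X Y G (Tot X G) K M g _ ν p (fun y => Tot.mk (p y) (γ y))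
      hA hch hg hrep hp hE hG hu.2.1 hν ⟨m.iso, m.geo, m.cov, m.disc, hdi⟩
      (fun c y => by rw [Tot.smul_mk, a3, hp.map_smul]) fun y0 =>
        tr_near hp.continuous a1 a4 (P := fun x c x' c' => dist (Tot.mk x c) (Tot.mk x' c') ≤
          L * √(nV (M.hm g ε u (p y0)) (M.ch (p y0) x' - M.ch (p y0) x))) y0 (m.lip (p y0)))
  obtain ⟨c, hc0, hev⟩ := h8 ι X M g μ hg hμ hsol hpos
  refine ⟨c, hc0, ?_⟩
  filter_upwards [hev] with a ⟨Q, σ, hQ, hσ, hli⟩
  refine ⟨Q, fun j e z => M.rep a (σ j) e z, hQ, fun j => ⟨fun e he => hσ j e (hA he), ?_⟩, ?_⟩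
  · intro e he e' he' x hx hx'
    exact (ha ι X M).rep_tr _ _ e (hA he) e' (hA he') x hx hx'
  · intro d hd
    funext j
    refine Fintype.linearIndependent_iff.1 hli d ?_ j
    funext x
    have h := hd _ (chart_mem_atlas (ι → ℂ) x) _ (mem_chart_target _ x)
    simp only [← hch x, (ha ι X M).rep_self] at h
    simpa using h

end Pool.Agent.Lib.MP_813db1_ag.AS
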