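import Pool.Agent.Lib.MP_813db1_ag.AS.MetDefs
import Pool.Agent.Lib.MP_bbd4b9_ag.AF.Sc
import Pool.Agent.Lib.MP_bbd4b9_ag.LC.Rob

/-! The metric on the covering space. -/

namespace Pool.Agent.Lib.MP_813db1_ag.AS

open Pool.Agent.Lib.MP_813db1_ag.HS Pool.Agent.Lib.MP_bbd4b9_ag Pool.Agent.Lib.MP_bbd4b9_ag.LC
open MeasureTheory Filter Topology Set Metric
open scoped ContDiff ComplexOrder

theorem metS (h1 : LmS) (h2 : DmS) (h3 : CovS) (h4 : BrS) (hK : CostS) (hC : AF.CalS) (hA : RepA)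
    (hB : RepB) (hM : MatS) : MetS := by
  intro ι _ _ _
  obtain ⟨C, h3⟩ := h3 ι
  refine ⟨C, 96, 48 ^ 2 * (Fintype.card ι + 2), 3, by norm_num, by positivity, by norm_num, ?_⟩
  intro X G _ _ _ _ _ _ M h a hh hr ha hc
  have A := hA ι X M
  have hq : (0 : ℝ) < 48 ^ 2 := by norm_num
  obtain ⟨k1, k2⟩ := (A.isK_iff h).mp hh
  obtain ⟨H, hH⟩ : ∃ H : X → Mat ι, H = fun x => ((48 ^ 2 : ℝ) : ℂ) • h x := ⟨_, rfl⟩
  have hH' : ∀ x, H x = ((48 ^ 2 : ℝ) : ℂ) • h x := fun x => by rw [hH]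
  have HK : M.IsK H := hH ▸
    (A.isK_iff _).mpr ⟨A.clF_smul _ _ k1, fun x => (k2 x).smul (Complex.zero_lt_real.2 hq)⟩
  have e1 : (fun y => Real.log (rat H h y)) = fun _ => Real.log ((48 ^ 2) ^ Fintype.card ι) := by
    funext y
    rw [rat, hH', Matrix.det_smul, ← Complex.ofReal_pow, Complex.re_ofReal_mul,
      mul_div_assoc, div_self (hM.det ι _ (k2 y)).1.ne', mul_one]
  have e2 : ∀ x, M.ricF H x = M.ricF h x := fun x => by
    rw [(hB ι X M).ric_rat _ h HK hh, e1, ((hC ι X M).const _ x).2.1, sub_zero]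
  obtain ⟨c, cc⟩ := (hK ι X M H).1 HK
  obtain ⟨⟨δ, δ1, lm⟩, lp⟩ := h1 ι X G M H c a HK cc ha
  obtain ⟨d, dm⟩ := h2 X G c a δ δ1 lm hc
  refine ⟨d, dm.iso, dm.geo, h3 X G M H c a δ HK cc (fun x => ?_) ha dm, ⟨δ, lm.pos, dm.disc⟩,
    fun x => ?_, fun x => ?_⟩
  · rw [e2, hH', smul_smul, ← Complex.ofReal_mul, inv_mul_cancel₀ hq.ne', Complex.ofReal_one,
      one_smul]
    exact hr x
  · have c1 : Continuous fun q : X × X => ell c q.1 q.2 :=
      (lm.cont.add (lm.cont.comp continuous_swap)).sqrt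
    filter_upwards [lp x, (c1.continuousAt (x := (x, x))).eventually_lt_const
      (show ell c x x < δ / 2 by simpa [ell, lm.zero] using lm.pos)] with q q1 q2 γ
    refine (dm.step _ _ γ q2.le).trans (q1.trans_eq ?_)
    have e : nV (H x) (M.ch x q.2 - M.ch x q.1) = 48 ^ 2 * nV (h x) (M.ch x q.2 - M.ch x q.1) := by
      have := Rob.nV_lin (48 ^ 2) (h x) 0 (M.ch x q.2 - M.ch x q.1)
      rw [sub_zero] at this
      rw [hH', this]
      simp [nV, ipV]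
    rw [e, Real.sqrt_mul hq.le, Real.sqrt_sq (by norm_num)]
    ring
  · have hp : ∀ y, (M.ricF H y + H y).PosSemidef := fun y => by
      have h9 := (hr y).add ((k2 y).posSemidef.smul
        (Complex.zero_le_real.2 (show (0 : ℝ) ≤ 48 ^ 2 - 1 by norm_num)))
      rw [e2, hH']
      convert h9 using 1
      push_cast
      module
    obtain ⟨k, ⟨Ψ, p1, p2, p3, p4⟩, k2'⟩ := ((h4 ι X M H c HK cc hp x).and (dm.le 1)).exists
    refine ⟨Ψ, p1, p2, p3, fun y hy => ?_⟩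
    obtain ⟨⟨β, b1, b2, b3, b4⟩, s, rfl, rfl, hs⟩ := p4 y hy
    refine ⟨⟨β, b1, b2, b3, ?_⟩, _, (k2' s 1 hs).trans_lt ?_⟩
    · have e := AF.Sc.trm_both (k2 (s k)) (levi (fun z => (β z : ℂ)) (M.ch (s k) (s k))) hq.ne'
      rw [AF.Sc.trm_smul, ← hH'] at e
      rw [← e]
      linarith
    · linarith [Real.sqrt_le_one.2 hs]

end Pool.Agent.Lib.MP_813db1_ag.AS
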