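import Pool.Agent.Lib.MP_813db1_ag.AS.StmtG
import Pool.Agent.Lib.MP_bbd4b9_ag.HR.Seq

/-! The locally compact model of a sequence of normed groups. -/

namespace Pool.Agent.Lib.MP_813db1_ag.AS

open Filter Topology Set Pool.Agent.Lib.MP_bbd4b9_ag
open scoped Pointwise Classical

noncomputable section

namespace ModA

variable {G : ℕ → Type} [∀ j, Group (G j)] {n : ∀ j, G j → ℝ} {k k' ε δ R : ℝ} {g h x : ∀ j, G j}

theorem choice' {β : ℕ → Type} [∀ j, Nonempty (β j)] {l : Filter ℕ} {r : ∀ j, β j → Prop}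
    (h : ∀ᶠ j in l, ∃ y, r j y) : ∃ f : ∀ j, β j, ∀ᶠ j in l, r j (f j) :=
  ⟨fun j => Classical.epsilon (r j), h.mono fun _ hj => Classical.epsilon_spec hj⟩

/-- bounded sequences. -/
def Bd (n : ∀ j, G j → ℝ) (g : ∀ j, G j) : Prop :=
  ∃ R, ∀ᶠ j in (hyperfilter ℕ : Filter ℕ), n j (g j) ≤ R

/-- internally small sequences. -/
def Sm (n : ∀ j, G j → ℝ) (k ε : ℝ) (g : ∀ j, G j) : Prop :=
  ∀ᶠ j in (hyperfilter ℕ : Filter ℕ), ∀ y, n j y ≤ k → n j (y⁻¹ * g j * y) ≤ ε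

theorem tb (N : NSU G n) (R k ε : ℝ) (hε : 0 < ε) : ∃ F : Finset (∀ j, G j),
    (∀ x ∈ F, Bd n x) ∧ ∀ g : ∀ j, G j, (∀ᶠ j in (hyperfilter ℕ : Filter ℕ), n j (g j) ≤ R) →
      ∃ x ∈ F, Sm n k ε (x⁻¹ * g) := by
  obtain ⟨C1, h1⟩ := N.cov k (ε / 4) (by positivity)
  obtain ⟨C2, h2⟩ := N.cov (R + (k + ε / 4)) (ε / 4) (by positivity)
  have key : ∀ᶠ j in atTop, ∃ z : (Fin C1 → Fin C2 → Prop) → G j, (∀ τ, n j (z τ) ≤ max R 0) ∧
      ∀ g, n j g ≤ R → ∃ τ, ∀ y, n j y ≤ k → n j (y⁻¹ * ((z τ)⁻¹ * g) * y) ≤ ε := by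
    filter_upwards [h1, h2] with j ⟨Y, y1, y2⟩ ⟨X, x1, x2⟩
    obtain ⟨f, hf⟩ := HR.Seq.enum y1
    obtain ⟨f', hf'⟩ := HR.Seq.enum x1
    have : ∀ τ : Fin C1 → Fin C2 → Prop, ∃ z, n j z ≤ max R 0 ∧ ∀ g, n j g ≤ R →
        τ = (fun a b => n j ((f' b)⁻¹ * (g * f a)) ≤ ε / 4) →
        τ = fun a b => n j ((f' b)⁻¹ * (z * f a)) ≤ ε / 4 := fun τ => by
      by_cases h : ∃ g, n j g ≤ R ∧ τ = fun a b => n j ((f' b)⁻¹ * (g * f a)) ≤ ε / 4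
      · obtain ⟨g, g1, g2⟩ := h
        exact ⟨g, le_max_of_le_left g1, fun _ _ _ => g2⟩
      · exact ⟨1, (N.one j).le.trans (le_max_right _ _), fun g g1 g2 => absurd ⟨g, g1, g2⟩ h⟩
    choose z z1 z2 using this
    refine ⟨z, z1, fun g hg => ⟨fun a b => n j ((f' b)⁻¹ * (g * f a)) ≤ ε / 4, fun y hy => ?_⟩⟩
    have e := z2 _ g hg rfl
    generalize z _ = w at e ⊢
    obtain ⟨a, a1, a2⟩ := y2 y hy
    obtain ⟨a, rfl⟩ := hf a a1
    have n1 := N.mul j y ((f a)⁻¹ * y)⁻¹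
    rw [N.inv, show y * ((f a)⁻¹ * y)⁻¹ = f a by group] at n1
    obtain ⟨b, b1, b2⟩ := x2 (g * f a) (by linarith [N.mul j g (f a)])
    obtain ⟨b, rfl⟩ := hf' b b1
    have b3 : n j ((f' b)⁻¹ * (w * f a)) ≤ ε / 4 := (congrFun (congrFun e a) b).mp b2
    have n2 := N.mul j ((f' b)⁻¹ * (w * f a))⁻¹ ((f' b)⁻¹ * (g * f a))
    have n3 := N.mul j ((f a)⁻¹ * y)⁻¹ (((f' b)⁻¹ * (w * f a))⁻¹ * ((f' b)⁻¹ * (g * f a)))
    have n4 := N.mul j (((f a)⁻¹ * y)⁻¹ * (((f' b)⁻¹ * (w * f a))⁻¹ * ((f' b)⁻¹ * (g * f a))))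
      ((f a)⁻¹ * y)
    rw [N.inv] at n2 n3
    rw [show y⁻¹ * (w⁻¹ * g) * y = ((f a)⁻¹ * y)⁻¹ * (((f' b)⁻¹ * (w * f a))⁻¹ *
      ((f' b)⁻¹ * (g * f a))) * ((f a)⁻¹ * y) by group]
    linarith
  obtain ⟨z, hz⟩ := choice' (HR.Seq.top_le key)
  refine ⟨(finite_range fun τ j => z j τ).toFinset, fun x hx => ?_, fun g hg => ?_⟩
  · obtain ⟨τ, rfl⟩ := (Finite.mem_toFinset _).1 hx
    exact ⟨max R 0, hz.mono fun j h => h.1 τ⟩
  · obtain ⟨τ, h⟩ := Ultrafilter.eventually_exists_iff.1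
      ((hz.and hg).mono fun j h => h.1.2 _ h.2)
    exact ⟨_, (Finite.mem_toFinset _).2 ⟨τ, rfl⟩, h⟩

theorem cpl (N : NSU G n) (g : ℕ → ∀ j, G j)
    (h : ∀ m : ℕ, Sm n m ((1 / 2) ^ m) ((g m)⁻¹ * g (m + 1))) :
    ∃ x : ∀ j, G j, ∀ m : ℕ, Sm n m (2 * (1 / 2) ^ m) ((g m)⁻¹ * x) := by
  let B : ℕ → ℕ → Prop := fun j m => ∀ i ≤ m, ∀ y, n j y ≤ i →
    n j (y⁻¹ * ((g i j)⁻¹ * g (i + 1) j) * y) ≤ (1 / 2) ^ i
  refine ⟨fun j => g (Nat.findGreatest (B j) j + 1) j, fun m => ?_⟩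
  have h1 : ∀ᶠ j in (hyperfilter ℕ : Filter ℕ), B j m :=
    (eventually_all_finite (finite_le_nat m)).2 fun i _ => h i
  filter_upwards [h1, HR.Seq.top_le (eventually_ge_atTop m)] with j b1 b2 y hy
  have m1 := Nat.le_findGreatest b2 b1
  have m2 := Nat.findGreatest_spec b2 b1
  change n j (y⁻¹ * ((g m j)⁻¹ * g (Nat.findGreatest (B j) j + 1) j) * y) ≤ _
  generalize Nat.findGreatest (B j) j = M at m1 m2
  have key : ∀ i, m ≤ i → i ≤ M + 1 →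
      n j (y⁻¹ * ((g m j)⁻¹ * g i j) * y) ≤ 2 * (1 / 2) ^ m - 2 * (1 / 2) ^ i := by
    intro i hi
    induction i, hi using Nat.le_induction with
    | base => simp [N.one]
    | succ i hi ih =>
      intro k
      have a := m2 i (by omega) y (hy.trans (by exact_mod_cast hi))
      have b := N.mul j (y⁻¹ * ((g m j)⁻¹ * g i j) * y) (y⁻¹ * ((g i j)⁻¹ * g (i + 1) j) * y)
      rw [show y⁻¹ * ((g m j)⁻¹ * g i j) * y * (y⁻¹ * ((g i j)⁻¹ * g (i + 1) j) * y) =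
        y⁻¹ * ((g m j)⁻¹ * g (i + 1) j) * y by group] at b
      rw [pow_succ]
      linarith [ih (by omega)]
  have : (0 : ℝ) ≤ (1 / 2) ^ (M + 1) := by positivity
  linarith [key (M + 1) (by omega) le_rfl]

theorem sm_mono (H : Sm n k ε g) (hk : k' ≤ k) (he : ε ≤ δ) : Sm n k' δ g :=
  H.mono fun _ hj y hy => (hj y (hy.trans hk)).trans he

variable (N : NSU G n)

include N

theorem sm_one (hε : 0 ≤ ε) : Sm n k ε 1 :=
  Eventually.of_forall fun j y _ => by simpa [N.one] using hε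

theorem sm_mul (H : Sm n k ε g) (H' : Sm n k δ h) : Sm n k (ε + δ) (g * h) := by
  filter_upwards [H, H'] with j h1 h2 y hy
  have e : y⁻¹ * (g * h) j * y = y⁻¹ * g j * y * (y⁻¹ * h j * y) := by
    simp only [Pi.mul_apply]; group
  rw [e]
  exact (N.mul _ _ _).trans (add_le_add (h1 y hy) (h2 y hy))

theorem sm_inv (H : Sm n k ε g) : Sm n k ε g⁻¹ := by
  filter_upwards [H] with j h1 y hy
  have e : y⁻¹ * g⁻¹ j * y = (y⁻¹ * g j * y)⁻¹ := by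
    simp only [Pi.inv_apply]; group
  rw [e, N.inv]
  exact h1 y hy

theorem sm_conj (hx : ∀ᶠ j in (hyperfilter ℕ : Filter ℕ), n j (x j) ≤ R)
    (H : Sm n (R + k) ε g) : Sm n k ε (x * g * x⁻¹) := by
  filter_upwards [hx, H] with j h1 h2 y hy
  have e : y⁻¹ * (x * g * x⁻¹) j * y = ((x j)⁻¹ * y)⁻¹ * g j * ((x j)⁻¹ * y) := by
    simp only [Pi.mul_apply, Pi.inv_apply]; group
  rw [e]
  exact h2 _ ((N.mul _ _ _).trans (add_le_add (by rwa [N.inv]) hy))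

theorem sm_le (H : Sm n k ε g) (hk : 0 ≤ k) :
    ∀ᶠ j in (hyperfilter ℕ : Filter ℕ), n j (g j) ≤ ε :=
  H.mono fun j hj => by simpa using hj 1 (by rwa [N.one])

theorem le_of_sm (hx : ∀ᶠ j in (hyperfilter ℕ : Filter ℕ), n j (x j) ≤ R)
    (H : Sm n k ε (x⁻¹ * g)) (hk : 0 ≤ k) :
    ∀ᶠ j in (hyperfilter ℕ : Filter ℕ), n j (g j) ≤ R + ε := by
  filter_upwards [hx, sm_le N H hk] with j h1 h2
  have e : g j = x j * (x⁻¹ * g) j := by simp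
  rw [e]
  exact (N.mul _ _ _).trans (add_le_add h1 h2)

theorem bd_of_sm (hx : Bd n x) (H : Sm n k ε (x⁻¹ * g)) (hk : 0 ≤ k) : Bd n g :=
  let ⟨_, h1⟩ := hx; ⟨_, le_of_sm N h1 H hk⟩

/-- the group of bounded sequences. -/
def Gam : Subgroup (∀ j, G j) where
  carrier := {g | Bd n g}
  one_mem' := ⟨0, Eventually.of_forall fun j => (N.one j).le⟩
  mul_mem' := fun ⟨R, h1⟩ ⟨R', h2⟩ => ⟨R + R', by
    filter_upwards [h1, h2] with j h3 h4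
    exact (N.mul _ _ _).trans (add_le_add h3 h4)⟩
  inv_mem' := fun ⟨R, h1⟩ => ⟨R, h1.mono fun j hj => by rwa [Pi.inv_apply, N.inv]⟩

/-- the basic neighbourhoods of the identity. -/
@[reducible] def basis : GroupFilterBasis (Gam N) where
  sets := {V | ∃ (k : ℕ) (ε : ℝ), 0 < ε ∧ V = {g : Gam N | Sm n k ε g.1}}
  nonempty := ⟨_, 0, 1, one_pos, rfl⟩
  inter_sets := by
    rintro _ _ ⟨k, ε, h1, rfl⟩ ⟨k', δ, h2, rfl⟩
    exact ⟨_, ⟨max k k', min ε δ, lt_min h1 h2, rfl⟩, fun g hg =>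
      ⟨sm_mono hg (Nat.cast_le.2 (le_max_left _ _)) (min_le_left _ _),
        sm_mono hg (Nat.cast_le.2 (le_max_right _ _)) (min_le_right _ _)⟩⟩
  one' := by
    rintro _ ⟨k, ε, h1, rfl⟩
    exact sm_one N h1.le
  mul' := by
    rintro _ ⟨k, ε, h1, rfl⟩
    refine ⟨_, ⟨k, ε / 2, half_pos h1, rfl⟩, ?_⟩
    rintro _ ⟨a, ha, b, hb, rfl⟩
    exact sm_mono (sm_mul N ha hb) le_rfl (add_halves ε).le
  inv' := by
    rintro _ ⟨k, ε, h1, rfl⟩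
    exact ⟨_, ⟨k, ε, h1, rfl⟩, fun g hg => sm_inv N hg⟩
  conj' := by
    rintro ⟨x, R, hx⟩ _ ⟨k, ε, h1, rfl⟩
    exact ⟨_, ⟨⌈R + k⌉₊, ε, h1, rfl⟩, fun g hg =>
      sm_conj N hx (sm_mono hg (Nat.le_ceil _) le_rfl)⟩

instance top : TopologicalSpace (Gam N) := (basis N).topology

instance grp : IsTopologicalGroup (Gam N) := (basis N).isTopologicalGroup

variable {N} in
theorem mem_nhds {x : Gam N} {S : Set (Gam N)} : S ∈ 𝓝 x ↔
    ∃ (k : ℕ) (ε : ℝ), 0 < ε ∧ ∀ g : Gam N, Sm n k ε (x.1⁻¹ * g.1) → g ∈ S := by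
  rw [((basis N).nhds_hasBasis x).mem_iff]
  constructor
  · rintro ⟨_, ⟨k, ε, h1, rfl⟩, h2⟩
    exact ⟨k, ε, h1, fun g hg => h2 ⟨x⁻¹ * g, hg, by simp⟩⟩
  · rintro ⟨k, ε, h1, h2⟩
    refine ⟨_, ⟨k, ε, h1, rfl⟩, ?_⟩
    rintro _ ⟨s, hs, rfl⟩
    exact h2 _ (by simpa using hs)

/-- closed balls. -/
def ball (R : ℝ) : Set (Gam N) :=
  {g | ∀ ε : ℝ, 0 < ε → ∀ᶠ j in (hyperfilter ℕ : Filter ℕ), n j (g.1 j) ≤ R + ε}

theorem ball_nhds : ball N 1 ∈ 𝓝 (1 : Gam N) :=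
  mem_nhds.2 ⟨0, 1, one_pos, fun g hg ε hε =>
    (sm_le N hg (by simp)).mono fun j hj => by
      have : n j (g.1 j) ≤ 1 := by simpa using hj
      linarith⟩

theorem ball_compact (R : ℝ) : IsCompact (ball N R) := by
  refine isCompact_iff_ultrafilter_le_nhds.2 fun f hf => ?_
  have hb : ball N R ∈ f := le_principal_iff.1 hf
  have h1 : ∀ m : ℕ, ∃ x, Bd n x ∧ {g : Gam N | Sm n m ((1 / 2) ^ m / 2) (x⁻¹ * g.1)} ∈ f := by
    intro m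
    obtain ⟨F, h1, h2⟩ := tb N (R + 1) m ((1 / 2) ^ m / 2) (by positivity)
    obtain ⟨x, h3, h4⟩ := (Ultrafilter.finite_biUnion_mem_iff (f := f) F.finite_toSet
      (s := fun x => {g : Gam N | Sm n m ((1 / 2) ^ m / 2) (x⁻¹ * g.1)})).1
      (mem_of_superset hb fun g hg => by
        obtain ⟨x, h3, h4⟩ := h2 g.1 (hg 1 one_pos)
        exact mem_biUnion h3 h4)
    exact ⟨x, h1 x h3, h4⟩
  choose x h2 h3 using h1
  obtain ⟨z, hz⟩ := cpl N x fun m => by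
    obtain ⟨g, h4, h5⟩ := f.nonempty_of_mem (inter_mem (h3 m) (h3 (m + 1)))
    have h6 := sm_mul N h4 (sm_inv N (sm_mono h5 (k' := m) (by simp) le_rfl))
    have e : (x m)⁻¹ * g.1 * ((x (m + 1))⁻¹ * g.1)⁻¹ = (x m)⁻¹ * x (m + 1) := by group
    rw [e] at h6
    refine sm_mono h6 le_rfl ?_
    have : (0 : ℝ) < (1 / 2) ^ m := by positivity
    rw [pow_succ]
    linarith
  have h4 : (f : Filter (Gam N)) ≤ 𝓝 ⟨z, bd_of_sm N (h2 0) (hz 0) (by simp)⟩ := fun S hS => by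
    obtain ⟨k, ε, h4, h5⟩ := mem_nhds.1 hS
    obtain ⟨m, h6, h7⟩ := ((eventually_ge_atTop k).and ((tendsto_pow_atTop_nhds_zero_of_lt_one
      (r := (1 / 2 : ℝ)) (by norm_num) (by norm_num)).eventually
        (eventually_le_nhds (b := ε / 3) (by positivity)))).exists
    refine mem_of_superset (h3 m) fun g hg => h5 g ?_
    have h8 := sm_mul N (sm_inv N (hz m)) hg
    have e : ((x m)⁻¹ * z)⁻¹ * ((x m)⁻¹ * g.1) = z⁻¹ * g.1 := by group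
    rw [e] at h8
    exact sm_mono h8 (Nat.cast_le.2 h6) (by linarith)
  refine ⟨_, fun ε hε => ?_, h4⟩
  obtain ⟨g, h5, h6⟩ := f.nonempty_of_mem (inter_mem hb (h4 (mem_nhds.2
    ⟨0, ε / 2, half_pos hε, fun g hg => (hg : g ∈ {g : Gam N | Sm n (0 : ℕ) (ε / 2) (z⁻¹ * g.1)})⟩)))
  have h7 := sm_inv N h6
  rw [mul_inv_rev, inv_inv] at h7
  exact (le_of_sm N (h5 _ (half_pos hε)) h7 (by simp)).mono fun j hj => by linarith

theorem int {K W : Set (Gam N)} (hK : IsCompact K) (hW : IsOpen W) (h : K ⊆ W) :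
    ∃ A : ∀ j, Finset (G j), (∀ g ∈ K, ∀ᶠ j in (hyperfilter ℕ : Filter ℕ), g.1 j ∈ A j) ∧
      ∀ g : ∀ j, G j, (∀ᶠ j in (hyperfilter ℕ : Filter ℕ), g j ∈ A j) →
        ∃ h : g ∈ Gam N, (⟨g, h⟩ : Gam N) ∈ W := by
  have h1 : ∀ x : Gam N, ∃ (k : ℕ) (ε : ℝ), 0 < ε ∧
      (x ∈ K → ∀ g : Gam N, Sm n k ε (x.1⁻¹ * g.1) → g ∈ W) := fun x => by
    by_cases hx : x ∈ K
    · obtain ⟨k, ε, h1, h2⟩ := mem_nhds.1 (hW.mem_nhds (h hx))
      exact ⟨k, ε, h1, fun _ => h2⟩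
    · exact ⟨0, 1, one_pos, fun h1 => absurd h1 hx⟩
  choose k ε h2 h3 using h1
  obtain ⟨t, h4, h5⟩ := hK.elim_nhds_subcover
    (fun x => {g : Gam N | Sm n (k x) (ε x) (x.1⁻¹ * g.1)})
    fun x _ => mem_nhds.2 ⟨k x, ε x, h2 x, fun _ hg => hg⟩
  let S : Gam N → ∀ j, Set (G j) := fun x j =>
    {a | ∀ y, n j y ≤ k x → n j (y⁻¹ * ((x.1 j)⁻¹ * a) * y) ≤ ε x}
  have h6 : ∀ᶠ j in (hyperfilter ℕ : Filter ℕ), ∃ B : Finset (G j),
      ∀ a, a ∈ B ↔ a ∈ ⋃ x ∈ (t : Set (Gam N)), S x j := by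
    filter_upwards [HR.Seq.top_le ((eventually_all_finset t).2 fun x _ => N.fin (ε x))] with j hj
    have : (⋃ x ∈ (t : Set (Gam N)), S x j).Finite :=
      t.finite_toSet.biUnion fun x hx => ((hj x hx).image (x.1 j * ·)).subset fun a ha =>
        ⟨(x.1 j)⁻¹ * a, by simpa using ha 1 (by simp [N.one]), by simp⟩
    exact ⟨this.toFinset, fun _ => this.mem_toFinset⟩
  obtain ⟨B, h6⟩ := choice' h6
  refine ⟨B, fun g hg => ?_, fun g hg => ?_⟩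
  · obtain ⟨x, h7, h8⟩ := mem_iUnion₂.1 (h5 hg)
    exact (h6.and h8).mono fun j hj => (hj.1 _).2 (mem_biUnion h7 hj.2)
  · obtain ⟨x, h7, h8⟩ := (Ultrafilter.finite_biUnion_mem_iff (f := hyperfilter ℕ) t.finite_toSet
      (s := fun x => {j | g j ∈ S x j})).1 (mem_of_superset (h6.and hg) fun j hj => by
        obtain ⟨x, h7, h8⟩ := mem_iUnion₂.1 ((hj.1 _).1 hj.2)
        exact mem_biUnion h7 h8)
    have h9 : Sm n (k x) (ε x) (x.1⁻¹ * g) := h8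
    exact ⟨bd_of_sm N x.2 h9 (Nat.cast_nonneg _), h3 x (h4 x h7) _ h9⟩

end ModA

end

theorem modUS : ModUS := by
  intro G _ n N
  have hc : ∀ R, IsCompact (SeparationQuotient.mk '' ModA.ball N R) := fun R =>
    (ModA.ball_compact N R).image SeparationQuotient.continuous_mk
  refine ⟨SeparationQuotient (ModA.Gam N), inferInstance, inferInstance, inferInstance,
    inferInstance, (hc 1).locallyCompactSpace_of_mem_nhds_of_group
      (SeparationQuotient.isOpenMap_mk.image_mem_nhds (ModA.ball_nhds N)),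
    ⟨⟨hyperfilter ℕ, Nat.hyperfilter_le_atTop, ModA.Gam N, SeparationQuotient.mkMonoidHom,
      SeparationQuotient.surjective_mk, fun _ hg => hg,
      ⟨_, hc 0, fun g hg => ⟨⟨1, hg.eventually (ge_mem_nhds one_pos)⟩, _,
        fun ε hε => by simpa using hg.eventually (ge_mem_nhds hε), rfl⟩⟩,
      fun K W hK hW h => ?_⟩⟩⟩
  exact ModA.int N ((SeparationQuotient.isInducing_mk.isCompact_preimage_iff
    (fun x _ => SeparationQuotient.surjective_mk x)).2 hK)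
    (hW.preimage SeparationQuotient.continuous_mk) (preimage_mono h)

end Pool.Agent.Lib.MP_813db1_ag.AS
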