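import Mathlib

/-! The mixed Pfaffian of a family of bilinear forms. -/

namespace Pool.Agent.Lib.MP_813db1_ag.AS.Pf

open Equiv Function Finset

noncomputable section

/-- real bilinear forms. -/
abbrev Bil (E : Type) [NormedAddCommGroup E] [NormedSpace ℝ E] : Type := E →L[ℝ] E →L[ℝ] ℝ

variable {ι E : Type} [Fintype ι] [DecidableEq ι] [NormedAddCommGroup E] [NormedSpace ℝ E]

/-- the sign as a real number. -/
def sg {J : Type} [Fintype J] [DecidableEq J] (σ : Perm J) : ℝ := ((Perm.sign σ : ℤ) : ℝ)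

/-- the mixed Pfaffian. -/
def P (B : ι → Bil E) (v : ι × Fin 2 → E) : ℝ :=
  ∑ σ : Perm (ι × Fin 2), sg σ * ∏ k, B k (v (σ (k, 0))) (v (σ (k, 1)))

/-- equal alternating parts. -/
def Alt (B C : Bil E) : Prop := ∀ u v, B u v - B v u = C u v - C v u

theorem prod_upd (B : ι → Bil E) (v : ι × Fin 2 → E) (p : ι × Fin 2) (x : E) :
    ∏ k, B k (update v p x (k, 0)) (update v p x (k, 1)) =
      B p.1 (update v p x (p.1, 0)) (update v p x (p.1, 1)) *
        ∏ k ∈ univ.erase p.1, B k (v (k, 0)) (v (k, 1)) := by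
  rw [← mul_prod_erase univ _ (mem_univ p.1)]
  congr 1
  refine prod_congr rfl fun k hk => ?_
  have h : ∀ s, (k, s) ≠ p := fun s h => (mem_erase.1 hk).1 (congrArg Prod.fst h)
  rw [update_of_ne (h 0), update_of_ne (h 1)]

/-- the product as a multilinear map. -/
def ml (B : ι → Bil E) : MultilinearMap ℝ (fun _ : ι × Fin 2 => E) ℝ :=
  MultilinearMap.mk' (fun v => ∏ k, B k (v (k, 0)) (v (k, 1)))
    (by
      rintro v ⟨k, s⟩ x y
      simp only [prod_upd]
      fin_cases s <;> simp [add_mul])
    (by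
      rintro v ⟨k, s⟩ c x
      simp only [prod_upd]
      fin_cases s <;> simp [mul_assoc])

theorem P_eq (B : ι → Bil E) (v : ι × Fin 2 → E) :
    P B v = MultilinearMap.alternatization (ml B) v := by
  rw [MultilinearMap.alternatization_apply]
  refine sum_congr rfl fun σ _ => ?_
  rw [Units.smul_def, zsmul_eq_mul]
  rfl

theorem P_det (B : ι → Bil E) (b : Module.Basis (ι × Fin 2) ℝ E) (v : ι × Fin 2 → E) :
    P B v = P B b * b.det v := by
  rw [P_eq, P_eq]
  conv_lhs => rw [(MultilinearMap.alternatization (ml B)).eq_smul_basis_det b]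
  rfl

theorem P_lin (B : ι → Bil E) (b : Module.Basis (ι × Fin 2) ℝ E) (A : E →ₗ[ℝ] E) :
    P B (fun p => A (b p)) = LinearMap.det A * P B b := by
  rw [P_det B b, mul_comm]
  congr 1
  have := b.det_comp A b
  rwa [b.det_self, mul_one] at this

theorem sum_sg {J : Type} [Fintype J] [DecidableEq J] (F : Perm J → ℝ) {p q : J} (h : p ≠ q)
    (hF : ∀ σ, F (σ * swap p q) = F σ) : ∑ σ, sg σ * F σ = 0 := by
  have e := Equiv.sum_comp (Equiv.mulRight (swap p q)) fun σ => sg σ * F σ
  have e' : ∀ σ : Perm J, sg (σ * swap p q) = -sg σ := fun σ => by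
    simp [sg, Perm.sign_swap h]
  simp only [Equiv.coe_mulRight, hF, e', neg_mul, sum_neg_distrib] at e
  linarith

theorem P_upd (B : ι → Bil E) (k : ι) (C : Bil E) (v : ι × Fin 2 → E) :
    P (update B k C) v = ∑ σ : Perm (ι × Fin 2), sg σ * (C (v (σ (k, 0))) (v (σ (k, 1))) *
      ∏ j ∈ univ.erase k, B j (v (σ (j, 0))) (v (σ (j, 1)))) := by
  refine sum_congr rfl fun σ _ => ?_
  rw [← mul_prod_erase univ _ (mem_univ k), update_self]
  congr 2
  exact prod_congr rfl fun j hj => by rw [update_of_ne (mem_erase.1 hj).1]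

theorem P_sub (B : ι → Bil E) (k : ι) (C C' : Bil E) (v : ι × Fin 2 → E) :
    P (update B k C) v - P (update B k C') v = P (update B k (C - C')) v := by
  simp only [P_upd, ← sum_sub_distrib]
  refine sum_congr rfl fun σ _ => ?_
  simp only [_root_.sub_apply]
  ring

theorem P_sum {κ : Type} (s : Finset κ) (B : ι → Bil E) (k : ι) (C : κ → Bil E)
    (v : ι × Fin 2 → E) : P (update B k (∑ t ∈ s, C t)) v = ∑ t ∈ s, P (update B k (C t)) v := by
  simp only [P_upd]
  rw [sum_comm]
  refine sum_congr rfl fun σ _ => ?_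
  simp only [_root_.sum_apply, sum_mul, mul_sum]

theorem P_symm (B : ι → Bil E) (k : ι) {C : Bil E} (h : ∀ u w, C u w = C w u)
    (v : ι × Fin 2 → E) : P (update B k C) v = 0 := by
  rw [P_upd]
  refine sum_sg _ (p := (k, 0)) (q := (k, 1)) (by simp) fun σ => ?_
  simp only [Perm.mul_apply, swap_apply_left, swap_apply_right]
  rw [h]
  congr 1
  refine prod_congr rfl fun j hj => ?_
  have := (mem_erase.1 hj).1
  rw [swap_apply_of_ne_of_ne (by simp [this]) (by simp [this]),
    swap_apply_of_ne_of_ne (by simp [this]) (by simp [this])]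

theorem P_congr {B B' : ι → Bil E} (h : ∀ k, Alt (B k) (B' k)) (v : ι × Fin 2 → E) :
    P B v = P B' v := by
  have key : ∀ s : Finset ι, P (s.piecewise B B') v = P B' v := by
    intro s
    induction s using Finset.induction_on with
    | empty => rw [piecewise_empty]
    | insert k s hk ih =>
      have e : s.piecewise B B' = update (s.piecewise B B') k (B' k) := by
        rw [← piecewise_eq_of_notMem s B B' hk, update_eq_self]
      rw [← ih, piecewise_insert, ← sub_eq_zero]
      conv_lhs => rw [e, update_idem]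
      rw [P_sub]
      refine P_symm _ _ (fun u w => ?_) v
      have := h k u w
      simp only [_root_.sub_apply]
      linarith
  rw [← key univ, piecewise_univ]

/-- the alternating part. -/
def alt (B : Bil E) : Bil E := (1 / 2 : ℝ) • (B - B.flip)

theorem alt_apply (B : Bil E) (u v : E) : alt B u v = 1 / 2 * (B u v - B v u) := by
  simp [alt]

theorem P_alt (B : ι → Bil E) (v : ι × Fin 2 → E) : P B v = P (fun k => alt (B k)) v :=
  P_congr (fun k u w => by simp only [alt_apply]; ring) v

theorem P_zero (B : ι → Bil E) (b : Module.Basis (ι × Fin 2) ℝ E) {w : E} (hw : w ≠ 0)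
    (h : ∀ k u, B k w u = B k u w) : P B b = 0 := by
  obtain ⟨j, hj⟩ : ∃ j, b.repr w j ≠ 0 := by
    by_contra c
    push Not at c
    exact hw (b.repr.map_eq_zero_iff.1 (Finsupp.ext c))
  have e1 : b.det (update b j w) = b.repr w j := by
    rw [b.det_apply, b.toMatrix_update, b.toMatrix_self, ← Matrix.cramer_apply, Matrix.cramer_one]
    rfl
  have e2 : P B (update b j w) = 0 := by
    rw [P_alt]
    refine sum_eq_zero fun σ _ => mul_eq_zero_of_right _ ?_
    obtain ⟨⟨k, s⟩, hk⟩ := σ.surjective j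
    refine prod_eq_zero (mem_univ k) ?_
    rw [alt_apply]
    fin_cases s
    · rw [show σ (k, 0) = j from hk, update_self, h, sub_self, mul_zero]
    · rw [show σ (k, 1) = j from hk, update_self, h, sub_self, mul_zero]
  rw [P_det B b, e1] at e2
  exact (mul_eq_zero.1 e2).resolve_right hj

/-- the standard symplectic matrix. -/
def jm (p q : ι × Fin 2) : ℝ :=
  if p.1 = q.1 then (if p.2 = q.2 then 0 else if p.2 = 0 then 1 else -1) else 0

/-- the mixed Pfaffian of the standard form. -/
def c0 (ι : Type) [Fintype ι] [DecidableEq ι] : ℝ :=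
  ∑ σ : Perm (ι × Fin 2), sg σ * ∏ k, jm (σ (k, 0)) (σ (k, 1))

theorem term_nonneg (σ : Perm (ι × Fin 2)) : 0 ≤ sg σ * ∏ k, jm (σ (k, 0)) (σ (k, 1)) := by
  by_cases h : ∃ k, (σ (k, 0)).1 ≠ (σ (k, 1)).1
  · obtain ⟨k, hk⟩ := h
    rw [prod_eq_zero (mem_univ k) (by rw [jm, if_neg hk]), mul_zero]
  push Not at h
  have h2 : ∀ k, (σ (k, 0)).2 ≠ (σ (k, 1)).2 := fun k c => by
    simpa using σ.injective (Prod.ext (h k) c)
  let ε : ι → Perm (Fin 2) := fun k => if (σ (k, 0)).2 = 0 then 1 else swap 0 1
  have hε : ∀ k s, σ (k, s) = ((σ (k, 0)).1, ε k s) := fun k s => by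
    have := h2 k
    refine Prod.ext ?_ ?_
    · fin_cases s
      · rfl
      · exact (h k).symm
    · simp only [ε]
      split_ifs with c
      · fin_cases s
        · simpa using c
        · simp only [Fin.mk_one, Perm.coe_one, id]
          omega
      · fin_cases s
        · simp only [Fin.zero_eta, swap_apply_left]
          omega
        · simp only [Fin.mk_one, swap_apply_right]
          omega
  have hi : Injective fun k => (σ (k, 0)).1 := fun k k' c => by
    have e : σ (k, (ε k).symm 0) = σ (k', (ε k').symm 0) := by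
      rw [hε k, hε k', apply_symm_apply, apply_symm_apply]
      exact Prod.ext c rfl
    exact congrArg Prod.fst (σ.injective e)
  let π : Perm ι := Equiv.ofBijective _ (Finite.injective_iff_bijective.1 hi)
  have e : σ = (prodCongrLeft fun _ : Fin 2 => π) * prodCongrRight ε := by
    ext ⟨k, s⟩ : 1
    rw [hε k s]
    rfl
  have e1 : sg σ = ∏ k, sg (ε k) := by
    rw [sg, e, Perm.sign_mul, Perm.sign_prodCongrLeft, Perm.sign_prodCongrRight]
    simp [sg]
  have e2 : ∀ k, jm (σ (k, 0)) (σ (k, 1)) = sg (ε k) := fun k => by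
    rw [jm, if_pos (h k), if_neg (h2 k)]
    simp only [ε, sg]
    split_ifs <;> simp
  rw [e1, prod_congr rfl fun k _ => e2 k]
  exact mul_self_nonneg _

theorem c0_pos : 0 < c0 ι :=
  sum_pos' (fun σ _ => term_nonneg σ) ⟨1, mem_univ _, by simp [sg, jm]⟩

theorem P_std (B : Bil E) (v : ι × Fin 2 → E) (t : ℝ)
    (h : ∀ p q, B (v p) (v q) - B (v q) (v p) = t * jm p q) :
    P (fun _ => B) v = (t / 2) ^ Fintype.card ι * c0 ι := by
  rw [P_alt, c0, mul_sum]
  refine sum_congr rfl fun σ _ => ?_
  simp only [alt_apply, h, ← mul_assoc, prod_mul_distrib, prod_const, card_univ]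
  ring

theorem P_cont (v : ι × Fin 2 → E) : Continuous fun B : ι → Bil E => P B v := by
  unfold P
  fun_prop

end

end Pool.Agent.Lib.MP_813db1_ag.AS.Pf
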