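import Pool.Agent.Lib.MP_813db1_ag.AS.S2Stmt
import Pool.Agent.Lib.MP_813db1_ag.AS.SolDefs

/-! Assembly of stage 2 from its steps. -/

namespace Pool.Agent.Lib.MP_813db1_ag.AS

open Pool.Agent.Lib.MP_813db1_ag.HS
open MeasureTheory Complex Matrix Filter Topology Set Metric
open scoped ContDiff ComplexOrder

theorem bigOf (hb : RepB) (h1 : FamTS) (h2 : FixTS) (h3 : PeakTS) (h4 : CntTS) : BigS := by
  intro ι X _ _ _ _ _ _ _ _ _ M g μ hg hμ hs hv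
  obtain ⟨H, φ, hF⟩ := h1 ι X M g μ hg hμ hs hv
  obtain ⟨c0, hc0, hp⟩ := h3 ι X M g μ H φ hg hμ hF
  have hc := h4 ι X M g μ H φ hg hμ hF (c0 / 2) (by positivity)
  obtain ⟨ε, ⟨hp', hc'⟩, hε⟩ := ((hp.and hc).and (Ioc_mem_nhdsGT one_pos)).exists
  obtain ⟨k1, k2⟩ := hF.k ε hε
  refine ⟨c0 / 2 * (1 / 2) ^ Fintype.card ι, by positivity, ?_⟩
  have htd : Tendsto (fun a : ℕ => a - 1) atTop atTop := tendsto_sub_atTop_nat 1
  filter_upwards [htd.eventually hp', htd.eventually hc', eventually_ge_atTop 2] with a q1 q2 ha2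
  obtain ⟨b, rfl⟩ : ∃ b, a = b + 1 := ⟨a - 1, by omega⟩
  rw [Nat.add_sub_cancel] at q1 q2
  obtain ⟨Q, f, hQ, f1, f2, f3⟩ := q1
  have hb0 : (0 : ℝ) < b := by exact_mod_cast (by omega : 0 < b)
  have hφ : M.Ck ∞ fun x => b * φ ε x :=
    (hb ι X M).ck_comp ⊤ (φ ε) (fun t => b * t) k2 fun _ => contDiffAt_const.mul contDiffAt_id
  obtain ⟨σ, hσ1, hσ2⟩ := h2 ι X M g (H ε) _ μ (b / 4) (b + 1) Q
    ⌊c0 / 2 * (b : ℝ) ^ Fintype.card ι⌋₊ f hg k1 hφ hμ (by positivity) f1 f2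
    (fun d => by have := f3 d; rwa [show (b : ℝ) / 16 = b / 4 / 4 by ring] at this)
    fun Q' f' k3 k4 k5 => Nat.le_floor (q2 Q' f' k3 k4 k5)
  refine ⟨_, σ, ?_, hσ1, hσ2⟩
  have hab : (1 / 2 : ℝ) * ((b + 1 : ℕ) : ℝ) ≤ b := by
    have : ((b + 1 : ℕ) : ℝ) ≤ 2 * b := by exact_mod_cast (by omega : b + 1 ≤ 2 * b)
    linarith
  have k6 := pow_le_pow_left₀ (by positivity) hab (Fintype.card ι)
  have k7 := Nat.floor_le (a := c0 / 2 * (b : ℝ) ^ Fintype.card ι) (by positivity)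
  have k8 : (Q : ℝ) - (⌊c0 / 2 * (b : ℝ) ^ Fintype.card ι⌋₊ : ℕ) ≤
      ((Q - ⌊c0 / 2 * (b : ℝ) ^ Fintype.card ι⌋₊ : ℕ) : ℝ) := by
    rw [sub_le_iff_le_add]
    exact_mod_cast le_tsub_add
  rw [mul_pow] at k6
  nlinarith

end Pool.Agent.Lib.MP_813db1_ag.AS
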