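import Pool.Agent.Lib.MP_813db1_ag.HS.AYAll
import Pool.Agent.Lib.MP_813db1_ag.HS.Schw
import Pool.Agent.Lib.MP_813db1_ag.HS.Int
import Pool.Agent.Lib.MP_813db1_ag.HS.Weight
import Pool.Agent.Lib.MP_813db1_ag.HS.Den

/-! The base metric `h + ε g`: the bad set has small volume, and the metric is controlled on a
large set. -/

namespace Pool.Agent.Lib.MP_813db1_ag.AS

open Pool.Agent.Lib.MP_813db1_ag.HS Pool.Agent.Lib.MP_813db1_ag.HS.AY
open MeasureTheory Complex Matrix Filter Topology Set Metric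
open scoped ContDiff ComplexOrder ENNReal

/-- the two metric facts. -/
def Good2S : Prop := ∀ (ι X : Type) [Fintype ι] [DecidableEq ι] [TopologicalSpace X] [T2Space X]
  [CompactSpace X] [ConnectedSpace X] [MeasurableSpace X] [BorelSpace X] (M : Atl ι X)
  (g : X → Mat ι) (μ : Measure X) (u : ℝ → X → ℝ), M.IsK g → M.IsVol g μ →
  (∀ ε ∈ Ioc (0 : ℝ) 1, M.Sol g ε (u ε)) → 0 < M.vol μ g 0 →
  Tendsto (fun ε => ∫ x, ε * trm (M.hm g (2 * ε) (u ε) x) (g x) *
    rat (M.hm g (2 * ε) (u ε)) g x ∂μ) (𝓝[>] 0) (𝓝 0) ∧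
  ∀ (C : Cov M) (a0 : Fin C.n), ∃ L : ℝ, ∃ c > (0 : ℝ), ∀ᶠ ε in 𝓝[>] (0 : ℝ), ∃ O, IsOpen O ∧
    O ⊆ ball 0 (C.r a0) ∧ c ≤ (volume O).toReal ∧ ∀ y ∈ O,
      Bd L (M.repF (M.hm g (2 * ε) (u ε)) (C.e a0) y) ∧
      Bd L (M.repF (M.hm g (2 * ε) (u ε)) (C.e a0) y)⁻¹ ∧
      ε * trm (M.repF (M.hm g (2 * ε) (u ε)) (C.e a0) y) (M.repF g (C.e a0) y) ≤ 1 / 4

namespace G2

variable {ι X : Type} [Fintype ι] [DecidableEq ι] [TopologicalSpace X] {M : Atl ι X}
  {g : X → Mat ι}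

theorem hm_add (s t : ℝ) (u : X → ℝ) (x : X) :
    M.hm g (s + t) u x = M.hm g s u x + (t : ℂ) • g x := by
  simp only [Atl.hm]
  push_cast
  module

theorem hm_two (ε : ℝ) (u : X → ℝ) (x : X) :
    M.hm g (2 * ε) u x = M.hm g ε u x + (ε : ℂ) • g x := by
  rw [two_mul, hm_add]

theorem isK_add {h : X → Mat ι} (hh : M.IsK h) (hg : M.IsK g) {t : ℝ} (ht : 0 ≤ t) :
    M.IsK fun x => h x + (t : ℂ) • g x := by
  have A := repA' ι X M
  obtain ⟨h1, h2⟩ := (A.isK_iff h).1 hh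
  obtain ⟨g1, g2⟩ := (A.isK_iff g).1 hg
  exact (A.isK_iff _).2 ⟨A.clF_add _ _ h1 (A.clF_smul t g g1), fun x =>
    (h2 x).add_posSemidef ((g2 x).posSemidef.smul (zero_le_real.2 ht))⟩

theorem hm_add_isK {s t : ℝ} {u : X → ℝ} (hg : M.IsK g) (hh : M.IsK (M.hm g s u)) (ht : 0 ≤ t) :
    M.IsK (M.hm g (s + t) u) := by
  rw [funext (hm_add s t u)]
  exact isK_add hh hg ht

theorem hm_two_isK {ε : ℝ} {u : X → ℝ} (hg : M.IsK g) (hε : 0 ≤ ε) (hS : M.Sol g ε u) :
    M.IsK (M.hm g (2 * ε) u) := by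
  rw [two_mul]
  exact hm_add_isK hg hS.2.1 hε

omit [TopologicalSpace X] in
theorem rat_ge {h : X → Mat ι} {x : X} (hh : (h x).PosDef) (hg : (g x).PosDef) {t : ℝ}
    (ht : 0 ≤ t) : (1 + t * trm (h x) (g x)) * rat h g x ≤
      rat (fun y => h y + (t : ℂ) • g y) g x := by
  have h1 := (IntL.det_bounds hh hg.posSemidef ht).1
  have h2 := (mat.sq ι _ _ hh hg.posSemidef).2
  have h3 : 0 ≤ t ^ 2 * ((trm (h x) (g x) ^ 2 - trm (h x) (g x * (h x)⁻¹ * g x)) / 2) :=
    mul_nonneg (sq_nonneg t) (by linarith)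
  rw [rat, rat, IntL.det_add hh, mul_div_assoc]
  exact mul_le_mul_of_nonneg_right (by linarith)
    (div_pos (mat.det _ _ hh).1 (mat.det _ _ hg).1).le

theorem cont_trm {h : X → Mat ι} (hh : M.IsK h) (hg : M.IsK g) :
    Continuous fun x => trm (h x) (g x) :=
  Den.cont (repA' ι X M) ((repA' ι X M).ck_trm h g hh fun e he => (hg e he).1.1)

theorem cont_rat {h : X → Mat ι} (hh : M.IsK h) (hg : M.IsK g) : Continuous (rat h g) :=
  Den.cont (repA' ι X M) ((repA' ι X M).ck_rat h g (fun e he => (hh e he).1.1) hg)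

theorem cont_det {D : Set (V ι)} {H : V ι → Mat ι} (hH : SmM H D) :
    ContinuousOn (fun y => (H y).det.re) D := by
  have : ContinuousOn H D := continuousOn_pi.2 fun i => continuousOn_pi.2 fun j y hy =>
    (hH y hy i j).continuousAt.continuousWithinAt
  exact continuous_re.comp_continuousOn ((continuous_id.matrix_det).comp_continuousOn this)

variable [T2Space X] [CompactSpace X] [MeasurableSpace X] [BorelSpace X] {μ : Measure X}

theorem vol_eq (hg : M.IsK g) (hμ : M.IsVol g μ) (s : ℝ) {u : X → ℝ} (hu : M.Ck ∞ u) :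
    ∫ x, rat (M.hm g s u) g x ∂μ = M.vol μ g s := by
  have A := repA' ι X M
  have k1 := A.clF_add _ _ (A.clF_smul s g ((A.isK_iff g).1 hg).1)
    (A.clF_smul (-1) _ ((repB' ι X M).ric_cl g hg))
  have k4 : (fun y => (s : ℂ) • g y + ((-1 : ℝ) : ℂ) • M.ricF g y) =
      fun y => (s : ℂ) • g y - M.ricF g y := by
    funext y
    push_cast
    module
  rw [k4] at k1
  exact inv repA' repB' divS' curvS' volS' ι X M g _ μ u hg hμ k1 hu

theorem vol_cont [Nonempty X] (hg : M.IsK g) (hμ : M.IsVol g μ) : Continuous (M.vol μ g) := by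
  obtain ⟨p, hp, -⟩ := volP repA' repB' volS' (inv repA' repB' divS' curvS' volS') mat ι X M g μ
    hg hμ
  rw [← funext hp]
  exact p.continuous

theorem bad_le (hg : M.IsK g) (hμ : M.IsVol g μ) {s t : ℝ} {u : X → ℝ} (hu : M.Ck ∞ u)
    (hh : M.IsK (M.hm g s u)) (ht : 0 ≤ t) :
    0 ≤ ∫ x, t * trm (M.hm g s u x) (g x) * rat (M.hm g s u) g x ∂μ ∧
    ∫ x, t * trm (M.hm g s u x) (g x) * rat (M.hm g s u) g x ∂μ ≤
      M.vol μ g (s + t) - M.vol μ g s := by
  have A := repA' ι X M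
  have := ((volS' ι X M g hg).2 μ hμ).fin
  have pg := ((A.isK_iff g).1 hg).2
  have ph := ((A.isK_iff _).1 hh).2
  have c1 := cont_trm hh hg
  have c2 := cont_rat hh hg
  have c3 := cont_rat (hm_add_isK hg hh ht) hg
  refine ⟨integral_nonneg fun x => mul_nonneg (mul_nonneg ht
    (mat.trm_nonneg _ _ _ (ph x) (pg x).posSemidef))
    (div_pos (mat.det _ _ (ph x)).1 (mat.det _ _ (pg x)).1).le, ?_⟩
  rw [← vol_eq hg hμ _ hu, ← vol_eq hg hμ _ hu, ← integral_sub (Den.intg c3) (Den.intg c2)]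
  refine integral_mono (Den.intg (by fun_prop)) (Den.intg (c3.sub c2)) fun x => ?_
  have := rat_ge (ph x) (pg x) ht
  rw [← funext (hm_add s t u)] at this
  simp only
  linarith

theorem bad [Nonempty X] {u : ℝ → X → ℝ} (hg : M.IsK g) (hμ : M.IsVol g μ)
    (hu : ∀ ε ∈ Ioc (0 : ℝ) 1, M.Sol g ε (u ε)) :
    Tendsto (fun ε => ∫ x, ε * trm (M.hm g (2 * ε) (u ε) x) (g x) *
      rat (M.hm g (2 * ε) (u ε)) g x ∂μ) (𝓝[>] 0) (𝓝 0) := by
  have c := vol_cont hg hμ
  have c2 : Continuous fun ε : ℝ => M.vol μ g (2 * ε + ε) - M.vol μ g (2 * ε) := by fun_prop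
  have l := (c2.tendsto 0).mono_left (nhdsWithin_le_nhds (s := Ioi 0))
  simp only [mul_zero, add_zero, sub_self] at l
  have ev : ∀ᶠ ε in 𝓝[>] (0 : ℝ), ε ∈ Ioc (0 : ℝ) 1 := Ioc_mem_nhdsGT one_pos
  have k := fun ε (hε : ε ∈ Ioc (0 : ℝ) 1) =>
    bad_le hg hμ (hu ε hε).1 (hm_two_isK hg hε.1.le (hu ε hε)) hε.1.le
  exact tendsto_of_tendsto_of_tendsto_of_le_of_le' tendsto_const_nhds l
    (ev.mono fun ε hε => (k ε hε).1) (ev.mono fun ε hε => (k ε hε).2)

theorem den2 [ConnectedSpace X] (hK : M.IsK g) (hV : M.IsVol g μ) : ∃ B ≥ (0 : ℝ),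
    ∀ ε ∈ Ioc (0 : ℝ) 1, ∀ u, M.Sol g ε u → 0 < M.vol μ g ε ∧
      ∫ x, |u x - Real.log (M.vol μ g ε)| ∂μ ≤ B ∧
      ∫ x, trm (g x) (M.hm g (2 * ε) u x) ∂μ ≤ B := by
  have ha := repA' ι X M
  have hb := repB' ι X M
  have hv := (volS' ι X M g hK).2 μ hV
  have := hv.fin
  have := hv.pos
  have pd := ((ha.isK_iff g).1 hK).2
  have hR := hb.ric_cl g hK
  have hp : 0 < μ.real univ :=
    ENNReal.toReal_pos (isOpen_univ.measure_ne_zero μ univ_nonempty) (measure_ne_top μ _)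
  have sm : M.SmF fun x => M.ricF g x * (g x)⁻¹ * M.ricF g x := fun e he z hz i j => by
    refine ((((hR e he).1.mul ((hK e he).1.1.inv fun w hw => ((hK e he).2 w hw).det_pos.ne')).mul
      (hR e he).1) z hz i j).congr_of_eventuallyEq ?_
    filter_upwards [e.open_target.mem_nhds hz] with w hw
    rw [ha.repF_mul _ _ _ e he w hw]
  have cR := Den.cont ha (ha.ck_trm g _ hK fun e he => (hR e he).1)
  obtain ⟨T, hT⟩ := isCompact_univ.exists_bound_of_continuousOn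
    (Den.cont ha (ha.ck_trm g _ hK sm)).continuousOn
  obtain ⟨S, hS⟩ := isCompact_univ.exists_bound_of_continuousOn cR.continuousOn
  obtain ⟨B, hB⟩ := weight repA' repB' volS' mat ι X M g μ ((1 + T) / 2 + 1) hK hV
  set n : ℝ := (Fintype.card ι : ℝ) with hn
  have n0 : 0 ≤ n := Nat.cast_nonneg _
  set B1 := Real.exp (B / μ.real univ) / μ.real univ with hB1
  set B2 := (B1 + μ.real univ) * μ.real univ + B with hB2
  refine ⟨|B2| + |(2 * n + S) * μ.real univ|, by positivity, fun ε hε u hS' => ?_⟩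
  obtain ⟨hu, hH, hr⟩ := hS'
  have pH := ((ha.isK_iff _).1 hH).2
  have cu := Den.cont ha hu
  obtain ⟨x0, -, hx0⟩ := isCompact_univ.exists_isMaxOn univ_nonempty cu.continuousOn
  have hx : ∀ x, u x ≤ u x0 := fun x => hx0 (mem_univ x)
  have k1 := hB u hu (fun x => by
    have := ((pH x).posSemidef.add ((pd x).posSemidef.smul
      (zero_le_real.2 (sub_nonneg.2 hε.2)))).add
      (Den.psd_low mat (pd x) (ha.herm _ hR x) ((le_abs_self _).trans (hT x (mem_univ x))))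
    convert this using 1
    ext i j
    simp only [Atl.hm, Matrix.add_apply, Matrix.sub_apply, Matrix.smul_apply, smul_eq_mul]
    push_cast
    ring) x0 hx
  have ve : ∫ x, Real.exp (u x) ∂μ = M.vol μ g ε := by
    rw [← vol_eq hK hV ε hu]
    simp only [hr]
  have vp : 0 < M.vol μ g ε := by
    rw [← ve]
    exact integral_exp_pos (Den.intg (by fun_prop))
  obtain ⟨-, k3⟩ := Den.expb (μ := μ) (w := fun x => u x - Real.log (M.vol μ g ε)) (B := B)
    (s := u x0 - Real.log (M.vol μ g ε)) (by fun_prop) hp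
    (by simp only [Real.exp_sub, Real.exp_log vp, integral_div, ve, div_self vp.ne'])
    (fun x => by linarith [hx x]) (by simpa only [sub_sub_sub_cancel_right] using k1)
  have tr : ∀ x, trm (g x) (M.hm g (2 * ε) u x) =
      2 * ε * n - trm (g x) (M.ricF g x) + M.lap g u x := fun x => Den.trm_hm (pd x) _ _ _
  have hS' : ∀ x, |trm (g x) (M.ricF g x)| ≤ S := fun x => hS x (mem_univ x)
  have en : ε * n ≤ n := mul_le_of_le_one_left n0 hε.2
  obtain ⟨c1, -, i0⟩ := Den.green1 ha greenS hK hV hu (v := fun _ => 1)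
    fun e he z hz => contDiffAt_const
  have i1 : ∫ x, M.lap g u x ∂μ = 0 := by
    rw [← i0]
    refine integral_congr_ae (.of_forall fun x => ?_)
    have := (Den.grad_comp hb g hu (differentiable_const (1 : ℝ)) x).1
    simp only [this, deriv_const', zero_mul, one_mul, add_zero]
  have p2 := abs_nonneg B2
  have p3 := abs_nonneg ((2 * n + S) * μ.real univ)
  refine ⟨vp, by linarith [le_abs_self B2], ?_⟩
  have : ∫ x, trm (g x) (M.hm g (2 * ε) u x) ∂μ ≤ ∫ x, (2 * n + S + M.lap g u x) ∂μ := by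
    simp only [tr]
    refine integral_mono (Den.intg (by fun_prop)) (Den.intg (by fun_prop)) fun x => ?_
    have := (abs_le.1 (hS' x)).1
    simp only
    linarith
  rw [integral_add (integrable_const _) (Den.intg c1), i1, integral_const, smul_eq_mul] at this
  linarith [le_abs_self ((2 * n + S) * μ.real univ)]

/-- Chebyshev inequality in a chart. -/
theorem cheb (hg : M.IsK g) (hμ : M.IsVol g μ) {e : Ch ι X} (he : e ∈ M.A) {r g0 : ℝ}
    (hr : ball (0 : V ι) r ⊆ e.target) (g0p : 0 < g0)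
    (hg0 : ∀ y ∈ ball (0 : V ι) r, g0 ≤ (M.repF g e y).det.re) {Ξ : X → ℝ} (Ξc : Continuous Ξ)
    (Ξ0 : ∀ x, 0 ≤ Ξ x) (ΞI : ∫ x, Ξ x ∂μ ≤ g0 * (volume (ball (0 : V ι) r)).toReal / 2) :
    ∃ O, IsOpen O ∧ O ⊆ ball 0 r ∧ (volume (ball (0 : V ι) r)).toReal / 2 ≤ (volume O).toReal ∧
      ∀ y ∈ O, Ξ (e.symm y) < 1 := by
  have hv := (volS' ι X M g hg).2 μ hμ
  have := hv.fin
  have f2 : volume (ball (0 : V ι) r) ≠ ⊤ := measure_ball_lt_top.ne
  have Ξt : ContinuousOn (fun y => Ξ (e.symm y)) (ball 0 r) :=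
    Ξc.comp_continuousOn (e.continuousOn_symm.mono hr)
  obtain ⟨O, hO⟩ : ∃ O, O = ball (0 : V ι) r ∩ (fun y => Ξ (e.symm y)) ⁻¹' Iio 1 := ⟨_, rfl⟩
  have Oo : IsOpen O := hO ▸ Ξt.isOpen_inter_preimage isOpen_ball isOpen_Iio
  have Os : O ⊆ ball 0 r := hO ▸ inter_subset_left
  refine ⟨O, Oo, Os, ?_, fun y hy => (hO ▸ hy).2⟩
  have Sm : MeasurableSet (ball (0 : V ι) r \ O) := measurableSet_ball.diff Oo.measurableSet
  have k1 := hv.lint e he _ Sm (sdiff_subset.trans hr) fun x => ENNReal.ofReal (Ξ x)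
  have k2 : ENNReal.ofReal g0 * volume (ball (0 : V ι) r \ O) ≤ ∫⁻ y in ball (0 : V ι) r \ O,
      ENNReal.ofReal (M.repF g e y).det.re * ENNReal.ofReal (Ξ (e.symm y)) := by
    rw [← setLIntegral_const]
    refine setLIntegral_mono' Sm fun y hy => ?_
    have p1 := hg0 y hy.1
    have p2 : 1 ≤ Ξ (e.symm y) := by
      by_contra hc
      exact hy.2 (hO ▸ ⟨hy.1, not_le.1 hc⟩)
    rw [← ENNReal.ofReal_mul (g0p.le.trans p1)]
    exact ENNReal.ofReal_le_ofReal (p1.trans (le_mul_of_one_le_right (g0p.le.trans p1) p2))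
  have k3 : ENNReal.ofReal g0 * volume (ball (0 : V ι) r \ O) ≤
      ENNReal.ofReal (g0 * (volume (ball (0 : V ι) r)).toReal / 2) := by
    refine k2.trans (k1 ▸ (setLIntegral_le_lintegral _ _).trans ?_)
    rw [← ofReal_integral_eq_lintegral_ofReal (Den.intg Ξc) (Eventually.of_forall Ξ0)]
    exact ENNReal.ofReal_le_ofReal ΞI
  have k4 := ENNReal.toReal_mono ENNReal.ofReal_ne_top k3
  rw [ENNReal.toReal_mul, ENNReal.toReal_ofReal g0p.le,
    ENNReal.toReal_ofReal (by positivity)] at k4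
  have k5 : (volume (ball (0 : V ι) r \ O)).toReal ≤ (volume (ball (0 : V ι) r)).toReal / 2 := by
    refine le_of_mul_le_mul_left (a := g0) ?_ g0p
    linarith
  have k6 : (volume (ball (0 : V ι) r)).toReal =
      (volume O).toReal + (volume (ball (0 : V ι) r \ O)).toReal := by
    rw [← ENNReal.toReal_add (ne_top_of_le_ne_top f2 (measure_mono Os))
      (ne_top_of_le_ne_top f2 (measure_mono sdiff_subset)),
      ← measure_union disjoint_sdiff_right Sm, union_sdiff_cancel Os]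
  linarith

end G2

open G2 in
theorem good2 : Good2S := by
  intro ι X _ _ _ _ _ _ _ _ M g μ u hg hμ hu hv0
  have hbad := bad hg hμ hu
  refine ⟨hbad, fun C a0 => ?_⟩
  have A := repA' ι X M
  have := ((volS' ι X M g hg).2 μ hμ).fin
  have hr := C.pos a0
  have he := C.mem a0
  have cb : closedBall (0 : V ι) (C.r a0) ⊆ (C.e a0).target :=
    (closedBall_subset_closedBall (by linarith)).trans (C.sub a0)
  have bt : ball (0 : V ι) (C.r a0) ⊆ (C.e a0).target := ball_subset_closedBall.trans cb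
  obtain ⟨B, hB0, hB⟩ := den2 hg hμ
  obtain ⟨L0, hL0⟩ := (smo repA' curvS' mat ι X M C 0).1 g hg
  obtain ⟨g0, g0p, hg0⟩ := (isCompact_closedBall (0 : V ι) (C.r a0)).exists_forall_le'
    ((cont_det (hg _ he).1.1).mono cb) (a := 0)
    fun y hy => (mat.det _ _ ((hg _ he).2 y (cb hy))).1
  obtain ⟨v, hv⟩ : ∃ v, v = M.vol μ g 0 := ⟨_, rfl⟩
  have vp : 0 < v := hv ▸ hv0
  have hvl : Tendsto (M.vol μ g) (𝓝[>] 0) (𝓝 v) :=
    hv ▸ ((vol_cont hg hμ).tendsto 0).mono_left nhdsWithin_le_nhds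
  obtain ⟨w, hw⟩ : ∃ w, w = (volume (ball (0 : V ι) (C.r a0))).toReal := ⟨_, rfl⟩
  have wp : 0 < w := hw ▸ ENNReal.toReal_pos (measure_ball_pos _ _ hr).ne' measure_ball_lt_top.ne
  obtain ⟨q, hq⟩ : ∃ q, q = g0 * w := ⟨_, rfl⟩
  have qp : 0 < q := by rw [hq]; positivity
  obtain ⟨Λ, hΛ⟩ : ∃ Λ, Λ = 8 * B / q + 1 := ⟨_, rfl⟩
  have Λp : 0 < Λ := by rw [hΛ]; positivity
  have hBΛ : B / Λ ≤ q / 8 := by
    rw [div_le_iff₀ Λp, hΛ, mul_add, show q / 8 * (8 * B / q) = B by field_simp]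
    linarith
  obtain ⟨ρ, hρ⟩ : ∃ ρ, ρ = Real.exp (-Λ) * (v / 2) := ⟨_, rfl⟩
  have ρp : 0 < ρ := by rw [hρ]; positivity
  have κi : 0 < (ρ * g0)⁻¹ := by positivity
  have a0' := abs_nonneg L0
  obtain ⟨L, hL⟩ := mat.ell' ι (|L0| + Λ + (ρ * g0)⁻¹) (by positivity)
  refine ⟨L, w / 2, half_pos wp, ?_⟩
  have t1 := hbad.const_mul (4 / ρ)
  rw [mul_zero] at t1
  filter_upwards [Ioc_mem_nhdsGT (zero_lt_one' ℝ), hvl.eventually (lt_mem_nhds (half_lt_self vp)),
    t1.eventually (gt_mem_nhds (show 0 < q / 4 by positivity))] with ε hε e1 e2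
  have S := hu ε hε
  obtain ⟨volp, B1, B2⟩ := hB ε hε _ S
  have hK := hm_two_isK hg hε.1.le S
  have pg := ((A.isK_iff g).1 hg).2
  have p0 := ((A.isK_iff _).1 S.2.1).2
  have lo : ∀ x, Real.exp (u ε x) ≤ rat (M.hm g (2 * ε) (u ε)) g x := fun x => by
    have h1 := rat_ge (p0 x) (pg x) hε.1.le
    rw [← funext (hm_two ε (u ε)), S.2.2 x] at h1
    have h2 := mul_nonneg hε.1.le (mat.trm_nonneg _ _ _ (p0 x) (pg x).posSemidef)
    nlinarith [Real.exp_pos (u ε x)]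
  have cu := Den.cont A S.1
  generalize M.hm g (2 * ε) (u ε) = H at *
  have pd := ((A.isK_iff H).1 hK).2
  have T0 : ∀ x, 0 ≤ ε * trm (H x) (g x) := fun x =>
    mul_nonneg hε.1.le (mat.trm_nonneg _ _ _ (pd x) (pg x).posSemidef)
  have n1 : ∀ x, 0 ≤ trm (g x) (H x) / Λ := fun x =>
    div_nonneg (mat.trm_nonneg _ _ _ (pg x) (pd x).posSemidef) Λp.le
  have n2 : ∀ x, 0 ≤ |u ε x - Real.log (M.vol μ g ε)| / Λ := fun x => by positivity
  have n3 : ∀ x, 0 ≤ 4 / ρ * (ε * trm (H x) (g x) * rat H g x) := fun x =>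
    mul_nonneg (by positivity) (mul_nonneg (T0 x) ((Real.exp_pos _).le.trans (lo x)))
  have c1 := cont_trm hg hK
  have c2 : Continuous fun x => |u ε x - Real.log (M.vol μ g ε)| := by fun_prop
  have c3 : Continuous fun x => ε * trm (H x) (g x) * rat H g x :=
    (continuous_const.mul (cont_trm hK hg)).mul (cont_rat hK hg)
  obtain ⟨O, o1, o2, o3, o4⟩ := cheb hg hμ he bt g0p (fun y hy => hg0 y (ball_subset_closedBall hy))
    (Ξ := fun x => trm (g x) (H x) / Λ + |u ε x - Real.log (M.vol μ g ε)| / Λ +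
      4 / ρ * (ε * trm (H x) (g x) * rat H g x))
    (((c1.div_const _).add (c2.div_const _)).add (continuous_const.mul c3))
    (fun x => add_nonneg (add_nonneg (n1 x) (n2 x)) (n3 x)) (by
      have j1 : Integrable (fun x => trm (g x) (H x) / Λ) μ := Den.intg (c1.div_const _)
      have j2 : Integrable (fun x => |u ε x - Real.log (M.vol μ g ε)| / Λ) μ :=
        Den.intg (c2.div_const _)
      have j3 : Integrable (fun x => trm (g x) (H x) / Λ +
        |u ε x - Real.log (M.vol μ g ε)| / Λ) μ := j1.add j2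
      have j4 : Integrable (fun x => 4 / ρ * (ε * trm (H x) (g x) * rat H g x)) μ :=
        (Den.intg c3).const_mul _
      rw [integral_add j3 j4, integral_add j1 j2, integral_div, integral_div, integral_const_mul,
        ← hw, ← hq]
      have i1 := div_le_div_of_nonneg_right B1 Λp.le
      have i2 := div_le_div_of_nonneg_right B2 Λp.le
      linarith)
  refine ⟨O, o1, o2, hw ▸ o3, fun y hy => ?_⟩
  have hy1 := o2 hy
  have yt := bt hy1
  have hz2 : y ∈ ball (0 : V ι) (2 * C.r a0) := ball_subset_ball (by linarith) hy1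
  have lt1 := o4 y hy
  have G1 := A.trm_rep H g _ he _ ((C.e a0).map_target yt)
  have G2 := A.trm_rep g H _ he _ ((C.e a0).map_target yt)
  have G3 := A.rat_rep H g _ he _ ((C.e a0).map_target yt)
  rw [(C.e a0).right_inv yt] at G1 G2 G3
  generalize (C.e a0).symm y = x at *
  have m1 : trm (g x) (H x) < Λ := (div_lt_one Λp).1 (by linarith [n2 x, n3 x])
  have m2 : |u ε x - Real.log (M.vol μ g ε)| < Λ := (div_lt_one Λp).1 (by linarith [n1 x, n3 x])
  have m3 : 4 / ρ * (ε * trm (H x) (g x) * rat H g x) < 1 := by linarith [n1 x, n2 x]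
  have m4 : ρ ≤ rat H g x := by
    refine le_trans ?_ (lo x)
    have h1 : Real.exp (-Λ) ≤ Real.exp (u ε x - Real.log (M.vol μ g ε)) :=
      Real.exp_le_exp.2 (abs_lt.1 m2).1.le
    rw [Real.exp_sub, Real.exp_log volp, le_div_iff₀ volp] at h1
    rw [hρ]
    exact (mul_le_mul_of_nonneg_left e1.le (Real.exp_pos _).le).trans h1
  have gp := hg0 y (ball_subset_closedBall hy1)
  have m6 : ρ * g0 ≤ (M.repF H (C.e a0) y).det.re := by
    rw [← G3, le_div_iff₀ (g0p.trans_le gp)] at m4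
    exact (mul_le_mul_of_nonneg_left gp ρp.le).trans m4
  have bl : L0 ≤ |L0| + Λ + (ρ * g0)⁻¹ := by linarith [le_abs_self L0]
  have := hL _ _ ((hg _ he).2 y yt) ((hK _ he).2 y yt)
    (fun i j => (((hL0 a0).1 i j).1 _ hz2).trans bl)
    (fun i j => (((hL0 a0).2.1 i j).1 _ hz2).trans bl) (by linarith)
    (((inv_le_comm₀ (by positivity) (by positivity)).2 (by linarith)).trans m6)
  refine ⟨this.1, this.2, ?_⟩
  rw [G1]
  rw [div_mul_eq_mul_div, div_lt_one ρp] at m3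
  nlinarith [T0 x, mul_le_mul_of_nonneg_left m4 (T0 x)]

end Pool.Agent.Lib.MP_813db1_ag.AS
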