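import Pool.Agent.Lib.MP_813db1_ag.AS.S2Stmt
import Pool.Agent.Lib.MP_813db1_ag.HS.AYAll
import Pool.Agent.Lib.MP_813db1_ag.HS.Peak
import Pool.Agent.Lib.MP_813db1_ag.HS.PeakX

/-! Many peak sections for the twisted weight. -/

set_option autoImplicit false

namespace Pool.Agent.Lib.MP_813db1_ag.HS

open MeasureTheory Complex Matrix Filter Topology Set Metric
open scoped ContDiff ComplexOrder ENNReal

namespace TPeak

open PeakX

variable {ι X : Type} [Fintype ι] [DecidableEq ι]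

theorem goodR {H : V ι → Mat ι} {F : V ι → ℂ} {D : Set (V ι)} {ψ : V ι → ℝ} (hD : IsOpen D)
    (hH : KOn H D) (hψ : ContinuousOn ψ D) (hF : ContDiff ℝ ∞ F) (hc : HasCompactSupport F)
    (hs : tsupport F ⊆ D) (b : ℕ) :
    Integrable fun y => nV (H y) (shp H F y) * Real.exp (-b * ψ y) := by
  have i := hH.1.1.inv fun y hy => (hH.2 y hy).det_pos.ne'
  have c : ContinuousOn (shp H F) D := continuousOn_pi.2 fun i' =>
    continuousOn_finsetSum _ fun j _ y hy => ((i y hy j i').continuousAt.mul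
      (contDiffAt_dzb_top hF.contDiffAt j).continuousAt).continuousWithinAt
  exact (good (φ := fun y => nV (H y) (shp H F y) * Real.exp (-b * ψ y)) hD hc hs (((FG.cont_nV hH.1.1).comp (continuousOn_id.prodMk c)
    fun y hy => ⟨hy, trivial⟩).mul (continuousOn_const.mul hψ).rexp) fun y hy => by
      rw [shp_zero H hy, nV_zero, zero_mul]).2

theorem shp_congr (H : V ι → Mat ι) {F G : V ι → ℂ} {y : V ι} (h : F =ᶠ[𝓝 y] G) :
    shp H F y = shp H G y := by
  ext i
  simp only [shp, dzb_congr h]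

variable [TopologicalSpace X] [T2Space X] [CompactSpace X] [MeasurableSpace X] [BorelSpace X]
  {M : Atl ι X} {g h : X → Mat ι} {φ : X → ℝ} {μ : Measure X} {e : Ch ι X} {F : V ι → ℂ}

theorem key (hd : DictTS) (hG : GreenTS) (C : Cov M) (hg : M.IsK g) (hμ : M.IsVol g μ)
    (hh : M.IsK h) (hφ : M.Ck ∞ φ) (he : e ∈ M.A) (b : ℕ) (hF : ContDiff ℝ ∞ F)
    (hc : HasCompactSupport F) (hs : tsupport F ⊆ e.target) :
    M.CkS ∞ (b + 1) (M.ext (b + 1) e F) ∧
    M.ip0T μ (b + 1) g h (fun x => b * φ x) (M.ext (b + 1) e F) (M.ext (b + 1) e F) =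
      ((∫ y, ‖F y‖ ^ 2 * Real.exp (-b * M.psi h φ e y) : ℝ) : ℂ) ∧
    (M.ip1T μ (b + 1) g h (fun x => b * φ x) (M.ext (b + 1) e F) (M.ext (b + 1) e F)).re =
      ∫ y, nV (M.repF h e y) (shp (M.repF h e) F y) * Real.exp (-b * M.psi h φ e y) := by
  obtain ⟨K0, -, hx⟩ := extS AY.repA' ι X M C (b + 1) e he _ hc hs
  obtain ⟨x1, x2, -⟩ := hx F fun z hz => image_eq_zero_of_notMem_tsupport hz
  generalize M.ext (b + 1) e F = σ at *
  have hv := (AY.volS' ι X M g hg).2 μ hμ
  have := hv.fin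
  have x3 : ∀ z ∈ e.target, M.rep (b + 1) σ e =ᶠ[𝓝 z] F := fun z hz => by
    have := x1 _ (e.map_target hz)
    rwa [e.right_inv hz] at this
  have x4 : ∀ x ∉ e.source, M.rep (b + 1) σ (M.ch x) =ᶠ[𝓝 (M.ch x x)] fun _ => 0 := fun x hx => by
    have := rep_congr (M := M) (a := b + 1) (τ := fun _ => 0) (M.mem x) (x2 x fun k => (hx k).elim)
    rwa [rep_zero] at this
  have ck : M.CkS ∞ (b + 1) σ := (AY.repA' ι X M).ckS_loc ⊤ _ _ fun x => by
    by_cases k : x ∈ e.source
    · exact ⟨e, he, k, hF.contDiffAt.congr_of_eventuallyEq (x1 x k)⟩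
    · exact ⟨_, M.ch_mem x, M.mem x, contDiffAt_const.congr_of_eventuallyEq (x4 x k)⟩
  have hb : M.Ck ∞ fun x => b * φ x := fun e he z hz =>
    contDiffAt_ofReal.2 (contDiffAt_const.mul (contDiffAt_ofReal.1 (hφ e he z hz)))
  have tr : ∀ (f : X → ℝ) (f' : V ι → ℝ), (∀ x ∉ e.source, f x = 0) → (∀ z ∉ tsupport F, f' z = 0) →
      (∀ z ∈ e.target, (M.repF g e z).det.re * f (e.symm z) = f' z) → ∫ x, f x ∂μ = ∫ z, f' z := by
    intro f f' h1 h2 h3
    rw [← setIntegral_eq_integral_of_forall_compl_eq_zero (s := e.source ∩ e ⁻¹' e.target)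
      fun x hx => h1 x fun k => hx ⟨k, e.map_source k⟩,
      hv.intR e he _ e.open_target.measurableSet subset_rfl,
      setIntegral_congr_fun e.open_target.measurableSet h3,
      setIntegral_eq_integral_of_forall_compl_eq_zero fun z hz => h2 z fun k => hz (hs k)]
  refine ⟨ck, ?_, ?_⟩
  · rw [← tr (fun x => ‖σ x‖ ^ 2 * wtT (b + 1) g h (fun x => b * φ x) x) _
      (fun x hx => by simp [(x2 x fun k => (hx k).elim).self_of_nhds])
      (fun z hz => by simp [image_eq_zero_of_notMem_tsupport hz]) fun z hz => by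
        rw [((hd ι X M g h φ hg hh hφ e he z hz).2.2 b σ).1, (x3 z hz).self_of_nhds],
      Atl.ip0T, ← integral_complex_ofReal]
    refine integral_congr_ae (Eventually.of_forall fun x => ?_)
    simp only [RCLike.star_def, mul_conj, normSq_eq_norm_sq]
    exact (ofReal_mul _ _).symm
  · obtain ⟨-, c1, -⟩ := hG.cont ι X M g h _ (b + 1) σ σ hg hh hb
    have k1 : M.CkS 1 (b + 1) σ := fun e he z hz => (ck e he z hz).of_le (by simp)
    have c2 := (c1 k1 k1 _ fun e he => (hh e he).1.1).integrable_of_hasCompactSupport (μ := μ)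
      (HasCompactSupport.of_compactSpace _)
    rw [Atl.ip1T, ← RCLike.re_to_complex, ← integral_re c2]
    refine tr _ _ (fun x hx => ?_) (fun z hz => by rw [shp_zero _ hz, nV_zero, zero_mul])
      fun z hz => ?_
    · rw [RCLike.re_to_complex, re_mul_ofReal, ← nV, Atl.shpX, shp_congr _ (x4 x hx),
        shp_zero _ (by simp), nV_zero, zero_mul]
    · rw [RCLike.re_to_complex, re_mul_ofReal, ← nV, (((hd ι X M g h φ hg hh hφ e he z hz).2.2 b σ).2
        ((ck e he z hz).of_le (by norm_cast))).1, shp_congr _ (x3 z hz)]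

end TPeak

open TPeak PeakX

theorem peakT (hd : DictTS) (hG : GreenTS) : PeakTS := by
  intro ι X _ _ _ _ _ _ _ _ M g μ H φ hK hμ hF
  obtain ⟨C, -⟩ := covS ι X M (fun _ => True) fun x => by
    obtain ⟨e, h1, h2⟩ := (AY.repA' ι X M).center x
    exact ⟨e, h1, trivial, h2⟩
  obtain ⟨a0, -⟩ := C.cover (Classical.arbitrary X)
  obtain ⟨L, c, c0, hL⟩ := hF.good C a0
  have r0 := C.pos a0
  have he := C.mem a0
  have b4 : ball (0 : V ι) (C.r a0) ⊆ (C.e a0).target :=
    (ball_subset_closedBall.trans (closedBall_subset_closedBall (by linarith))).trans (C.sub a0)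
  obtain ⟨c1, c10, hc⟩ := peak mat ι L (1 / 16) (by norm_num)
  refine ⟨c1 * c, by positivity, ?_⟩
  filter_upwards [hL, Ioc_mem_nhdsGT one_pos] with ε ⟨O, o1, o2, o3, o4⟩ hε
  obtain ⟨hh, hφ⟩ := hF.k ε hε
  have kh := hh _ he
  have dd := hd ι X M g (H ε) (φ ε) hK hh hφ _ he
  filter_upwards [hc O (M.repF (H ε) (C.e a0)) (M.psi (H ε) (φ ε) (C.e a0)) o1
    ((measure_mono o2).trans_lt measure_ball_lt_top).ne (kh.1.1.mono (o2.trans b4)) fun y hy => by
      have m := b4 (o2 hy)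
      have pH := kh.2 y m
      have pG := ((hK _ he).2 y m).posSemidef
      have e := (dd y m).2.1 ε (hF.ric ε hε)
      refine ⟨pH, (o4 y hy).1, (o4 y hy).2.1, (dd y m).1, ?_, ?_⟩
      · have := ((mat.le_trm _ _ _ pH pG).smul (zero_le_real.2 hε.1.le)).add
          (pH.posSemidef.smul (zero_le_real.2 (sub_nonneg.2 (o4 y hy).2.2)))
        rw [e]
        convert this using 1
        ext i j
        simp only [Matrix.sub_apply, Matrix.add_apply, Matrix.smul_apply, smul_eq_mul]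
        push_cast
        ring
      · rw [e, sub_sub_cancel]
        exact pG.smul (zero_le_real.2 hε.1.le)] with b ⟨Q, F, q1, q2, q3⟩
  obtain ⟨n, hn⟩ : ∃ n : Fin Q → ℝ, ∀ j, n j =
    ∫ y, ‖F j y‖ ^ 2 * Real.exp (-b * M.psi (H ε) (φ ε) (C.e a0) y) := ⟨_, fun _ => rfl⟩
  simp only [← hn] at q2
  have n0 : ∀ j, 0 < n j := fun j => (q2 j).2.2.2.1
  have na : ∀ j, ‖(((√(n j))⁻¹ : ℝ) : ℂ)‖ ^ 2 = (n j)⁻¹ := fun j => by
    rw [norm_real, Real.norm_eq_abs, sq_abs, inv_pow, Real.sq_sqrt (n0 j).le]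
  have st : ∀ j, tsupport (F j) ⊆ (C.e a0).target := fun j => (q2 j).2.2.1.trans (o2.trans b4)
  have adm : ∀ d : Fin Q → ℂ, ContDiff ℝ ∞ (fun w => ∑ j, d j * F j w) ∧
      HasCompactSupport (fun w => ∑ j, d j * F j w) ∧
      tsupport (fun w => ∑ j, d j * F j w) ⊆ (C.e a0).target := fun d => by
    have z : ∀ w ∉ ⋃ j, tsupport (F j), ∑ j, d j * F j w = 0 := fun w hw =>
      Finset.sum_eq_zero fun j _ => by
        rw [image_eq_zero_of_notMem_tsupport fun k => hw (mem_iUnion.2 ⟨j, k⟩), mul_zero]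
    have k : IsCompact (⋃ j, tsupport (F j)) := isCompact_iUnion fun j => (q2 j).2.1
    exact ⟨ContDiff.sum fun j _ => contDiff_const.mul (q2 j).1, HasCompactSupport.intro k z,
      (closure_minimal (Function.support_subset_iff'.2 z) k.isClosed).trans (iUnion_subset st)⟩
  have k1 := fun j => key (F := fun w => ((√(n j))⁻¹ : ℝ) * F j w) hd hG C hK hμ hh hφ he b
    (contDiff_const.mul (q2 j).1) (q2 j).2.1.mul_left (tsupport_mul_subset_right.trans (st j))
  refine ⟨Q, fun j => M.ext (b + 1) (C.e a0) fun w => ((√(n j))⁻¹ : ℝ) * F j w,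
    le_trans (by gcongr) q1, fun j => (k1 j).1, fun i j => ?_, fun d => ?_⟩
  · split_ifs with k
    · subst k
      rw [(k1 i).2.1, ← ofReal_one, ← inv_mul_cancel₀ (n0 i).ne']
      congr 1
      conv_rhs => rw [← na, hn, ← integral_const_mul]
      refine integral_congr_ae (Eventually.of_forall fun x => ?_)
      simp only [norm_mul, ← hn]
      ring
    · refine integral_eq_zero_of_ae (Eventually.of_forall fun x => ?_)
      by_cases w : x ∈ (C.e a0).source
      · by_cases t : C.e a0 x ∈ tsupport (F i)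
        · simp [Atl.ext, image_eq_zero_of_notMem_tsupport (disjoint_left.1 (q3 i j k) t)]
        · simp [Atl.ext, image_eq_zero_of_notMem_tsupport t]
      · simp [Atl.ext, w]
  · obtain ⟨a1, a2, a3⟩ := adm fun j => d j * ((√(n j))⁻¹ : ℝ)
    have e : (fun x => ∑ j, d j * M.ext (b + 1) (C.e a0) (fun w => ((√(n j))⁻¹ : ℝ) * F j w) x) =
        M.ext (b + 1) (C.e a0) fun w => ∑ j, d j * ((√(n j))⁻¹ : ℝ) * F j w := by
      funext x
      by_cases w : x ∈ (C.e a0).source
      · simp only [Atl.ext, if_pos w, Finset.mul_sum]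
        exact Finset.sum_congr rfl fun _ _ => by ring
      · simp [Atl.ext, w]
    rw [e, (key hd hG C hK hμ hh hφ he b a1 a2 a3).2.2]
    simp only [nV_sum _ (fun j => (q2 j).1) q3, Finset.sum_mul, mul_assoc (‖_‖ ^ 2)]
    rw [integral_finsetSum _ fun j _ => ((TPeak.goodR (C.e a0).open_target kh
      (fun y hy => (dd y hy).1.continuousAt.continuousWithinAt) (q2 j).1 (q2 j).2.1
      (st j) b).const_mul _), Finset.mul_sum]
    refine Finset.sum_le_sum fun j _ => ?_
    rw [integral_const_mul, norm_mul, mul_pow, na]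
    have h3 := n0 j
    calc _ ≤ ‖d j‖ ^ 2 * (n j)⁻¹ * (1 / 16 * b * n j) := by gcongr; exact (q2 j).2.2.2.2
      _ = b / 16 * ‖d j‖ ^ 2 := by field_simp

end Pool.Agent.Lib.MP_813db1_ag.HS
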