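import Pool.Agent.Lib.MP_813db1_ag.AS.SolDefs
import Pool.Agent.Lib.MP_813db1_ag.HS.Schw
import Pool.Agent.Lib.MP_813db1_ag.HS.Vol
import Pool.Agent.Lib.MP_bbd4b9_ag.LC.Stmt

/-! Twisted Kaehler-Einstein metrics for nef canonical classes. -/

namespace Pool.Agent.Lib.MP_813db1_ag.AS

open Pool.Agent.Lib.MP_813db1_ag.HS Pool.Agent.Lib.MP_bbd4b9_ag
open MeasureTheory Complex Matrix Filter Topology Set Metric
open scoped ContDiff ComplexOrder Manifold

theorem solAH (hAub : LC.AubS) (ha : RepA) (hb : RepB) (hm : MatS) : SolA := by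
  intro ι X _ _ _ _ _ _ _ _ M g hg hn ε hε
  have A := ha ι X M
  have B := hb ι X M
  have gp := ((A.isK_iff g).1 hg).2
  obtain ⟨w, hw, hp⟩ := hn (ε / 2) (half_pos hε.1)
  have pd : ∀ x, (M.hm g ε w x).PosDef := fun x => by
    have h1 : (((ε / 2 : ℝ) : ℂ) • g x).PosDef := (gp x).smul (zero_lt_real.2 (half_pos hε.1))
    have h2 := h1.add_posSemidef (hp x)
    have e : ((ε / 2 : ℝ) : ℂ) • g x + (-M.ricF g x + M.ddc w x + ((ε / 2 : ℝ) : ℂ) • g x) =
        M.hm g ε w x := by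
      rw [Atl.hm]
      push_cast
      module
    rwa [e] at h2
  have hg' : M.IsK (M.hm g ε w) :=
    (A.isK_iff _).2 ⟨A.clF_add _ _ (Schw.clF_sub A B hg ε) (B.ddc_cl w hw), pd⟩
  have rp : ∀ x, 0 < rat (M.hm g ε w) g x := fun x =>
    div_pos (hm.det ι _ (pd x)).1 (hm.det ι _ (gp x)).1
  have hr : M.Ck ∞ (rat (M.hm g ε w) g) := A.ck_rat _ g (fun e he => (hg' e he).1.1) hg
  have hl : M.Ck ∞ fun x => -Real.log (rat (M.hm g ε w) g x) :=
    B.ck_comp ⊤ _ (fun t => -Real.log t) hr fun x => (Real.contDiffAt_log.2 (rp x).ne').neg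
  obtain ⟨ψ, h1, h2, h3⟩ := hAub ι X M _ 1 _ hg' one_pos (B.ck_add ⊤ _ _ hw hl).1
  have e : M.hm g ε (fun x => w x + ψ x) = fun x => M.hm g ε w x + M.ddc ψ x := by
    funext x
    have := B.ddc_add w ψ (Schw.ck_le hw 2) (Schw.ck_le h1 2) 1 x
    simp only [one_mul, ofReal_one, one_smul] at this
    rw [Atl.hm, Atl.hm, this, add_assoc]
  refine ⟨fun x => w x + ψ x, (B.ck_add ⊤ _ _ hw h1).1, by rwa [e], fun x => ?_⟩
  have e2 : rat (fun x => M.hm g ε w x + M.ddc ψ x) g x =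
      rat (fun x => M.hm g ε w x + M.ddc ψ x) (M.hm g ε w) x * rat (M.hm g ε w) g x := by
    have h1 := (hm.det ι _ (pd x)).1.ne'
    unfold rat
    rw [div_mul_div_cancel₀ h1]
  rw [e, e2, h3 x]
  nth_rewrite 2 [← Real.exp_log (rp x)]
  rw [← Real.exp_add]
  congr 1
  ring

/-- the volume measures of two Kaehler forms. -/
theorem vol_dens (ha : RepA) (hv : VolS) (hm : MatS) {ι X : Type} [Fintype ι] [DecidableEq ι]
    [TopologicalSpace X] [T2Space X] [CompactSpace X] [MeasurableSpace X] [BorelSpace X]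
    {M : Atl ι X} {g h : X → Mat ι} {μ ν : Measure X} (hg : M.IsK g) (hh : M.IsK h)
    (hμ : M.IsVol g μ) (hν : M.IsVol h ν) :
    μ.withDensity (fun x => ENNReal.ofReal (rat h g x)) = ν := by
  have A := ha ι X M
  have W := (hv ι X M g hg).2 μ hμ
  have W' := (hv ι X M h hh).2 ν hν
  refine W'.uniq _ fun x => Measure.ext fun B hB => ?_
  have he := M.ch_mem x
  set e := M.ch x
  have mS := Vol.ms_pre e hB
  have eB : B ∩ e.source = e.source ∩ e ⁻¹' (e.symm ⁻¹' B ∩ e.target) := by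
    ext y
    constructor
    · rintro ⟨h1, h2⟩
      exact ⟨h2, by rwa [mem_preimage, e.left_inv h2], e.map_source h2⟩
    · rintro ⟨h1, h2, -⟩
      exact ⟨by rwa [mem_preimage, e.left_inv h1] at h2, h1⟩
  rw [Measure.restrict_apply hB, Measure.restrict_apply hB,
    withDensity_apply _ (hB.inter e.open_source.measurableSet), ← setLIntegral_one, eB,
    W.lint e he _ mS inter_subset_right, W'.lint e he _ mS inter_subset_right]
  refine setLIntegral_congr_fun mS fun z hz => ?_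
  have gp := (hm.det ι _ ((hg e he).2 z hz.2)).1
  have r := A.rat_rep h g e he _ (e.map_target hz.2)
  rw [e.right_inv hz.2] at r
  rw [← r, ← ENNReal.ofReal_mul gp.le, mul_div_cancel₀ _ gp.ne', mul_one]

theorem solBH (ha : RepA) (hb : RepB) (hv : VolS) (hi : InvS) (hp : VolPS) (hm : MatS) : SolB := by
  intro ι X _ _ _ _ _ _ _ _ M g μ hg hμ
  have A := ha ι X M
  have B := hb ι X M
  have gp := ((A.isK_iff g).1 hg).2
  refine ⟨fun ε hε u ⟨_, hh, hr⟩ x => ?_, fun h0 v hv0 => ?_⟩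
  · have e : (fun y => Real.log (rat (M.hm g ε u) g y)) = u := by
      funext y
      rw [hr, Real.log_exp]
    have e2 : M.ricF (M.hm g ε u) x + M.hm g ε u x = (ε : ℂ) • g x := by
      rw [B.ric_rat _ g hh hg x, e, Atl.hm]
      abel
    rw [e2]
    exact ((gp x).smul (zero_lt_real.2 hε)).posSemidef
  obtain ⟨p, h1, -⟩ := hp ι X M g μ hg hμ
  have h2 : ∀ᶠ s in 𝓝[>] (0 : ℝ), p.eval s < v :=
    nhdsWithin_le_nhds (p.continuous.continuousAt.eventually
      (gt_mem_nhds (((h1 0).trans_le h0).trans_lt hv0)))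
  obtain ⟨ε, h3, h4⟩ := (h2.and (Ioc_mem_nhdsGT one_pos)).exists
  refine ⟨ε, h4, fun u ν ⟨hu, hh, hr⟩ hν => ?_⟩
  have := ((hv ι X M g hg).2 μ hμ).fin
  have cr : Continuous (rat (M.hm g ε u) g) :=
    A.cont _ (Schw.ck_le (A.ck_rat _ g (fun e he => (hh e he).1.1) hg) 0)
  have pr : ∀ x, 0 ≤ rat (M.hm g ε u) g x := fun x => by
    rw [hr]
    exact (Real.exp_pos _).le
  rw [← vol_dens ha hv hm hg hh hμ hν, Measure.real, withDensity_apply _ MeasurableSet.univ,
    Measure.restrict_univ, ← ofReal_integral_eq_lintegral_ofReal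
      (cr.integrable_of_hasCompactSupport (HasCompactSupport.of_compactSpace _))
      (Eventually.of_forall pr), ENNReal.toReal_ofReal (integral_nonneg pr)]
  rw [h1, Atl.vol, ← hi ι X M g _ μ u hg hμ (Schw.clF_sub A B hg ε) hu] at h3
  exact h3.le

end Pool.Agent.Lib.MP_813db1_ag.AS
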