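import Pool.Agent.Lib.MP_813db1_ag.AS.Tail
import Pool.Agent.Lib.MP_813db1_ag.HS.Weight
import Pool.Agent.Lib.MP_bbd4b9_ag.AF.Sub
import Pool.Agent.Lib.MP_bbd4b9_ag.LC.All

/-! The exponential tail estimate without hypotheses. -/

namespace Pool.Agent.Lib.MP_813db1_ag.AS

open Pool.Agent.Lib.MP_813db1_ag.HS Pool.Agent.Lib.MP_813db1_ag.HS.AY Pool.Agent.Lib.MP_bbd4b9_ag

theorem tailS : TailS :=
  tail (AF.subM LC.All.dc maxS) LC.All.dc repA' repB' volS' covS (weight repA' repB' volS' mat) mat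

end Pool.Agent.Lib.MP_813db1_ag.AS
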