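import Pool.Agent.Lib.MP_bbd4b9_ag.AF.Ball
import Pool.Agent.Lib.MP_813db1_ag.HS.Mat
import Pool.Agent.Lib.MP_813db1_ag.HS.Calc2

/-! Exponential tails of plurisubharmonic functions on a ball. -/

namespace Pool.Agent.Lib.MP_813db1_ag.AS.Tail

open Pool.Agent.Lib.MP_813db1_ag.HS Pool.Agent.Lib.MP_bbd4b9_ag.LC Pool.Agent.Lib.MP_bbd4b9_ag.AF
open MeasureTheory Complex Matrix Filter Topology Set Metric
open scoped ContDiff ComplexOrder Real

/-- the sub-mean value property for the arcsine law gives convexity. -/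
theorem chord {g : ℝ → ℝ} {a b c : ℝ} (hab : a < b) (hbc : b < c) (hg : Continuous g)
    (h : ∀ t ρ, 0 < ρ → t + ρ ≤ c →
      2 * π * g t ≤ ∫ θ in (0 : ℝ)..2 * π, g (t + ρ * Real.cos θ)) :
    (c - a) * g b ≤ (c - b) * g a + (b - a) * g c := by
  have hca : 0 < c - a := by linarith
  have key : ∀ ε > (0 : ℝ), (c - a) * g b ≤
      (c - b) * g a + (b - a) * g c + ε * ((b - a) * (c - b)) := fun ε hε => by
    obtain ⟨t, ht, hm⟩ := (isCompact_Icc (a := a) (b := c)).exists_isMaxOn ⟨a, le_rfl, by linarith⟩
      (f := fun s => (c - a) * g s - ((c - s) * g a + (s - a) * g c) + ε * ((s - a) * (s - c)))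
      (by fun_prop)
    have hb : (c - a) * g b - ((c - b) * g a + (b - a) * g c) + ε * ((b - a) * (b - c)) ≤
      (c - a) * g t - ((c - t) * g a + (t - a) * g c) + ε * ((t - a) * (t - c)) :=
      hm (show b ∈ Icc a c from ⟨hab.le, hbc.le⟩)
    rcases ht.1.eq_or_lt with h1 | h1
    · subst h1
      linarith
    rcases ht.2.eq_or_lt with h2 | h2
    · subst h2
      linarith
    exfalso
    set ρ := min (t - a) (c - t) with hρ
    have ρ0 : 0 < ρ := lt_min (by linarith) (by linarith)
    have ρ1 : ρ ≤ t - a := min_le_left _ _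
    have ρ2 : ρ ≤ c - t := min_le_right _ _
    have h3 := h t ρ ρ0 (by linarith)
    have h4 : ∫ θ in (0 : ℝ)..2 * π, (c - a) * g (t + ρ * Real.cos θ) ≤ ∫ θ in (0 : ℝ)..2 * π,
        ((c - a) * g t + (g c - g a - ε * (2 * t - a - c)) * ρ * Real.cos θ -
          ε * ρ ^ 2 * Real.cos θ ^ 2) :=
      intervalIntegral.integral_mono_on Real.two_pi_pos.le
        (Continuous.intervalIntegrable (by fun_prop) _ _)
        (Continuous.intervalIntegrable (by fun_prop) _ _) fun θ _ => by
          have k1 := mul_le_mul_of_nonneg_left (Real.cos_le_one θ) ρ0.le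
          have k2 := mul_le_mul_of_nonneg_left (Real.neg_one_le_cos θ) ρ0.le
          have k3 : (c - a) * g (t + ρ * Real.cos θ) - ((c - (t + ρ * Real.cos θ)) * g a +
              (t + ρ * Real.cos θ - a) * g c) +
              ε * ((t + ρ * Real.cos θ - a) * (t + ρ * Real.cos θ - c)) ≤
              (c - a) * g t - ((c - t) * g a + (t - a) * g c) + ε * ((t - a) * (t - c)) :=
            hm (show t + ρ * Real.cos θ ∈ Icc a c from ⟨by linarith, by linarith⟩)
          linarith
    rw [intervalIntegral.integral_const_mul, intervalIntegral.integral_sub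
      (Continuous.intervalIntegrable (by fun_prop) _ _)
      (Continuous.intervalIntegrable (by fun_prop) _ _), intervalIntegral.integral_add
      (Continuous.intervalIntegrable (by fun_prop) _ _)
      (Continuous.intervalIntegrable (by fun_prop) _ _), intervalIntegral.integral_const_mul,
      intervalIntegral.integral_const_mul, intervalIntegral.integral_const_mul, integral_cos,
      integral_cos_sq] at h4
    simp only [intervalIntegral.integral_const, Real.sin_two_pi, Real.sin_zero, sub_zero,
      smul_eq_mul, mul_zero, zero_add, add_zero] at h4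
    have h5 := mul_le_mul_of_nonneg_left h3 hca.le
    have h6 : 0 < ε * ρ ^ 2 * (2 * π / 2) := by positivity
    linarith
  refine le_of_forall_pos_le_add fun ε hε => ?_
  have hp : 0 < (b - a) * (c - b) := mul_pos (by linarith) (by linarith)
  have := key (ε / ((b - a) * (c - b))) (by positivity)
  rwa [div_mul_cancel₀ _ hp.ne'] at this

variable {ι : Type} [Fintype ι] [DecidableEq ι]

omit [DecidableEq ι] in
theorem avg {E : Set (V ι)} (hE : IsCompact E) {f : ℝ → V ι → ℝ}
    (hf : Continuous (Function.uncurry f)) {c : V ι → ℝ} (hc : Continuous c)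
    (h : ∀ w ∈ E, 2 * π * c w ≤ ∫ θ in (0 : ℝ)..2 * π, f θ w) :
    2 * π * ∫ w in E, c w ≤ ∫ θ in (0 : ℝ)..2 * π, ∫ w in E, f θ w := by
  have hI : Integrable (Function.uncurry f)
      ((volume.restrict (uIoc 0 (2 * π))).prod (volume.restrict E)) := by
    rw [Measure.prod_restrict]
    exact (hf.continuousOn.integrableOn_compact (isCompact_uIcc.prod hE)).mono_set
      (prod_mono uIoc_subset_uIcc subset_rfl)
  have hi2 : IntegrableOn (fun w => ∫ θ in (0 : ℝ)..2 * π, f θ w) E := by
    have h := hI.integral_prod_right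
    rw [uIoc_of_le Real.two_pi_pos.le] at h
    simp only [intervalIntegral.integral_of_le Real.two_pi_pos.le]
    exact h
  rw [intervalIntegral_integral_swap hI, ← integral_const_mul]
  exact setIntegral_mono_on ((continuous_const.mul hc).continuousOn.integrableOn_compact hE) hi2
    hE.measurableSet h

omit [DecidableEq ι] in
theorem psd {H : Mat ι} (hH : H.IsHermitian) (h : ∀ v : V ι, 0 ≤ nV H v) : H.PosSemidef :=
  .of_dotProduct_mulVec_nonneg hH fun v => by
    rw [Complex.nonneg_iff, ← Mat.nv_eq]
    exact ⟨h _, (hH.im_star_dotProduct_mulVec_self v).symm⟩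

theorem sub_exp (hS : SubM) (hD : DcS) {v : V ι → ℝ} {z w : V ι} {t ρ : ℝ} (hρ : 0 ≤ ρ)
    (hv : ∀ u : ℂ, ‖u‖ ≤ Real.exp (t + ρ) → ContDiffAt ℝ 2 v (z + u • w) ∧
      (levi (fun x => (v x : ℂ)) (z + u • w)).PosSemidef) :
    2 * π * v (z + cexp t • w) ≤
      ∫ θ in (0 : ℝ)..2 * π, v (z + cexp (t + circleMap 0 1 θ * ρ) • w) := by
  have an : ∀ u : V Unit, AnalyticAt ℂ (fun u : V Unit => z + cexp (u ()) • w) u := fun u =>
    analyticAt_const.add (((ContinuousLinearMap.proj (R := ℂ) (φ := fun _ : Unit => ℂ)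
      ()).analyticAt u).cexp'.smul analyticAt_const)
  have h := hS Unit (fun u => v (z + cexp (u ()) • w)) (fun _ => t) (fun _ => ρ) fun s hs => by
    obtain ⟨h1, h2⟩ := hv (cexp (t + s * ρ)) (by
      rw [norm_exp, Real.exp_le_exp]
      have := (re_le_norm s).trans hs
      simp only [add_re, ofReal_re, mul_re, ofReal_im, mul_zero, sub_zero]
      nlinarith)
    have h3 : ContDiffAt ℝ 2 (fun u : V Unit => v (z + cexp (u ()) • w))
        ((fun _ => (t : ℂ)) + s • fun _ => (ρ : ℂ)) :=
      ContDiffAt.comp (g := v) _ h1 ((an _).contDiffAt.restrict_scalars ℝ)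
    refine ⟨h3, psd (hD.br2 _ _ _ 0 h3).2 fun A => ?_⟩
    rw [← (hD.br2 _ _ _ A h3).1, hD.comp2 _ _ v (fun u : V Unit => z + cexp (u ()) • w) _ A h1
      (an _)]
    exact (Mat.nv_mono h2 _).trans_eq (hD.br2 _ _ _ _ h1).1.symm
  rw [Real.circleAverage_def, smul_eq_mul, ← div_eq_inv_mul, le_div_iff₀' Real.two_pi_pos] at h
  exact h

omit [DecidableEq ι] in
theorem rot {v : V ι → ℝ} (hv : Continuous v) (z : V ι) (R : ℝ) (u s : ℂ) (hs : ‖s‖ = 1) :
    ∫ w in closedBall (0 : V ι) R, v (z + (u * s) • w) =
      ∫ w in closedBall (0 : V ι) R, v (z + u • w) := by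
  have := Ball.int_rot (fun w => v (z + u • w)) 0 R (by fun_prop) s hs
  simpa only [zero_add, sub_zero, smul_smul] using this

omit [DecidableEq ι] in
theorem memb {z w : V ι} {u : ℂ} {s k R : ℝ} (hz : z ∈ closedBall (0 : V ι) s) (hu : ‖u‖ ≤ k)
    (hw : w ∈ closedBall (0 : V ι) R) (h : s + k * R ≤ 3 * R) :
    z + u • w ∈ closedBall (0 : V ι) (3 * R) := by
  rw [mem_closedBall_zero_iff] at hz hw ⊢
  refine (norm_add_le _ _).trans ?_
  rw [norm_smul]
  nlinarith [mul_le_mul hu hw (norm_nonneg _) ((norm_nonneg _).trans hu)]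

/-- the cut off function. -/
noncomputable def cut (R : ℝ) (z : V ι) : ℝ := max 0 (min 1 (2 - ‖z‖ / R))

omit [DecidableEq ι] in
theorem cut_cont (R : ℝ) : Continuous (cut R : V ι → ℝ) := by
  unfold cut
  fun_prop

omit [DecidableEq ι] in
theorem cut_zero {R : ℝ} (hR : 0 < R) {z : V ι} (h : 2 * R ≤ ‖z‖) : cut R z = 0 :=
  max_eq_left ((min_le_right _ _).trans (by rw [sub_nonpos, le_div_iff₀ hR]; exact h))

omit [DecidableEq ι] in
theorem cut_one {R : ℝ} (hR : 0 < R) {z : V ι} (h : ‖z‖ ≤ R) : cut R z = 1 := by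
  have : ‖z‖ / R ≤ 1 := (div_le_one hR).2 h
  rw [cut, min_eq_left (by linarith), max_eq_right zero_le_one]

omit [DecidableEq ι] in
theorem cut_lip {R : ℝ} (hR : 0 < R) (z y : V ι) : cut R z - cut R (z - y) ≤ ‖y‖ / R := by
  have h1 : ‖z - y‖ / R ≤ ‖z‖ / R + ‖y‖ / R := by
    rw [← add_div]
    exact div_le_div_of_nonneg_right (norm_sub_le _ _) hR.le
  have h2 : 0 ≤ ‖y‖ / R := by positivity
  simp only [cut, max_def, min_def]
  split_ifs <;> linarith

omit [DecidableEq ι] in
theorem shift {R A : ℝ} (hR : 0 < R) {v : V ι → ℝ} (hv : Continuous v)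
    (h0 : ∀ w ∈ closedBall (0 : V ι) (3 * R), v w ≤ 0)
    (hA : ∫ w in closedBall (0 : V ι) (3 * R), -v w ≤ A) {y : V ι} {r : ℝ} (hr : r ≤ 1)
    (hy : ‖y‖ ≤ r * R) :
    ∫ z in closedBall (0 : V ι) (3 * R), cut R z * (v (z + y) - v z) ≤ r * A := by
  have hK := isCompact_closedBall (0 : V ι) (3 * R)
  have hc := cut_cont (ι := ι) R
  have r0 : 0 ≤ r := nonneg_of_mul_nonneg_left ((norm_nonneg _).trans hy) hR
  have e : ∫ z in closedBall (0 : V ι) (3 * R), cut R z * v (z + y) =
      ∫ z in closedBall (0 : V ι) (3 * R), cut R (z - y) * v z := by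
    rw [setIntegral_eq_integral_of_forall_compl_eq_zero fun z hz => ?_,
      setIntegral_eq_integral_of_forall_compl_eq_zero fun z hz => ?_,
      ← integral_add_right_eq_self (fun z => cut R (z - y) * v z) y]
    · simp only [add_sub_cancel_right]
    · rw [mem_closedBall_zero_iff, not_le] at hz
      have := norm_sub_norm_le z y
      rw [cut_zero hR (by nlinarith), zero_mul]
    · rw [mem_closedBall_zero_iff, not_le] at hz
      rw [cut_zero hR (by linarith), zero_mul]
  have i : ∀ {f : V ι → ℝ}, Continuous f → IntegrableOn f (closedBall (0 : V ι) (3 * R)) :=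
    fun hf => hf.continuousOn.integrableOn_compact hK
  simp only [mul_sub]
  rw [integral_sub (i (by fun_prop)) (i (by fun_prop)), e,
    ← integral_sub (i (by fun_prop)) (i (by fun_prop))]
  refine le_trans ?_ (mul_le_mul_of_nonneg_left hA r0)
  rw [← integral_const_mul]
  refine setIntegral_mono_on (i (by fun_prop)) (i (by fun_prop)) measurableSet_closedBall
    fun z hz => ?_
  have h1 := (cut_lip hR z y).trans ((div_le_iff₀ hR).2 hy)
  nlinarith [mul_le_mul_of_nonneg_right h1 (neg_nonneg.2 (h0 z hz))]

theorem loc0 (hS : SubM) (hD : DcS) {R A : ℝ} (hR : 0 < R) {v : V ι → ℝ} (hc : Continuous v)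
    (hv : ∀ w ∈ closedBall (0 : V ι) (3 * R), ContDiffAt ℝ 2 v w ∧
      (levi (fun x => (v x : ℂ)) w).PosSemidef ∧ v w ≤ 0)
    (hA : ∫ w in closedBall (0 : V ι) (3 * R), -v w ≤ A) {t T : ℝ} (ht : t < 0)
    (hT : A * (Real.log 2 - t) ≤
      Real.log 2 * (volume.real (closedBall (0 : V ι) R) * (T - 1))) :
    volume.real {z | z ∈ closedBall (0 : V ι) R ∧ v z ≤ -T} ≤ Real.exp t * A := by
  have hB := isCompact_closedBall (0 : V ι) R
  have hK := isCompact_closedBall (0 : V ι) (3 * R)
  have l2 : 0 < Real.log 2 := Real.log_pos one_lt_two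
  set m := volume.real (closedBall (0 : V ι) R) with hm
  have m0 : 0 < m := ENNReal.toReal_pos (measure_closedBall_pos _ _ hR).ne' hB.measure_lt_top.ne
  set G : V ι → ℝ → ℝ := fun z s => ∫ w in closedBall (0 : V ι) R, v (z + cexp s • w) with hG
  have ne : ∀ s : ℝ, ‖cexp s‖ = Real.exp s := fun s => by rw [norm_exp, ofReal_re]
  have r1 : Real.exp t ≤ 1 := Real.exp_le_one_iff.2 ht.le
  have iB : ∀ {f : V ι → ℝ}, Continuous f → IntegrableOn f (closedBall (0 : V ι) R) :=
    fun hf => hf.continuousOn.integrableOn_compact hB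
  have iK : ∀ {f : V ι → ℝ}, Continuous f → IntegrableOn f (closedBall (0 : V ι) (3 * R)) :=
    fun hf => hf.continuousOn.integrableOn_compact hK
  have low : ∀ z ∈ closedBall (0 : V ι) R, -(A * (Real.log 2 - t)) ≤ Real.log 2 * G z t := by
    intro z hz
    have h1 := chord (g := G z) ht l2
      (continuous_parametric_integral_of_continuous (by fun_prop) hB) fun s ρ h1 h2 => by
        refine (avg hB (f := fun θ w => v (z + cexp (s + circleMap 0 1 θ * ρ) • w))
          (by fun_prop) (by fun_prop) fun w hw => sub_exp hS hD h1.le fun u hu => ?_).trans_eq ?_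
        · have := hv _ (memb hz (hu.trans ((Real.exp_le_exp.2 h2).trans_eq (Real.exp_log two_pos)))
            hw (by linarith))
          exact ⟨this.1, this.2.1⟩
        · refine intervalIntegral.integral_congr fun θ _ => ?_
          have e : cexp (s + circleMap 0 1 θ * ρ) =
              cexp ((s + ρ * Real.cos θ : ℝ) : ℂ) * cexp ((ρ * Real.sin θ : ℝ) * I) := by
            rw [← Complex.exp_add, circleMap, exp_mul_I]
            congr 1
            push_cast
            ring
          simp only [e]
          exact rot hc z R _ _ (norm_exp_ofReal_mul_I _)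
    have h2 : G z (Real.log 2) ≤ 0 := setIntegral_nonpos measurableSet_closedBall fun w hw =>
      (hv _ (memb hz ((ne _).trans (Real.exp_log two_pos)).le hw (by linarith))).2.2
    have h3 : -A ≤ G z 0 := by
      have e1 := (measurePreserving_add_left volume z).setIntegral_preimage_emb
        (MeasurableEquiv.addLeft z).measurableEmbedding (fun w => -v w)
        (closedBall (0 : V ι) (3 * R))
      have e2 : ∫ w in closedBall (0 : V ι) R, -v (z + w) ≤
          ∫ w in (fun w => z + w) ⁻¹' closedBall (0 : V ι) (3 * R), -v (z + w) := by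
        refine setIntegral_mono_set (((Homeomorph.addLeft z).isCompact_preimage.2 hK |>
          (show Continuous fun w => -v (z + w) by fun_prop).continuousOn.integrableOn_compact))
          ((ae_restrict_iff' (measurableSet_closedBall.preimage (by fun_prop))).2
            (.of_forall fun w hw => neg_nonneg.2 (hv _ hw).2.2))
          (LE.le.eventuallyLE fun w hw => ?_)
        have := memb (u := 1) (k := 1) hz (by simp) hw (by linarith)
        rwa [one_smul] at this
      rw [e1, integral_neg] at e2
      simp only [hG, ofReal_zero, Complex.exp_zero, one_smul]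
      linarith
    nlinarith [mul_le_mul_of_nonneg_left h3 (show 0 ≤ Real.log 2 - t by linarith),
      mul_le_mul_of_nonneg_left h2 (show 0 ≤ 0 - t by linarith)]
  have up : ∀ z ∈ closedBall (0 : V ι) (2 * R), m * v z ≤ G z t := by
    intro z hz
    have h1 := avg hB (f := fun θ w => v (z + (cexp t * circleMap 0 1 θ) • w)) (c := fun _ => v z)
      (by fun_prop) continuous_const fun w hw => by
        have h := hS ι v z (cexp t • w) fun s hs => by
          rw [smul_smul]
          have := hv _ (memb (u := s * cexp t) (k := 1) hz (by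
            rw [norm_mul, ne]
            exact mul_le_one₀ hs (Real.exp_pos _).le r1) hw (by linarith))
          exact ⟨this.1, this.2.1⟩
        rw [Real.circleAverage_def, smul_eq_mul, ← div_eq_inv_mul,
          le_div_iff₀' Real.two_pi_pos] at h
        simpa only [smul_smul, mul_comm (cexp t)] using h
    rw [intervalIntegral.integral_congr (g := fun _ => G z t)
      fun θ _ => rot hc z R _ _ (by simp), setIntegral_const, intervalIntegral.integral_const,
      sub_zero, smul_eq_mul, smul_eq_mul] at h1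
    exact le_of_mul_le_mul_left h1 Real.two_pi_pos
  have cG : Continuous fun z => cut R z * (G z t - m * v z) :=
    (cut_cont R).mul ((continuous_parametric_integral_of_continuous (by fun_prop) hB).sub
      (by fun_prop))
  have int : ∫ z in closedBall (0 : V ι) (3 * R), cut R z * (G z t - m * v z) ≤
      m * (Real.exp t * A) := by
    have e : ∀ z, cut R z * (G z t - m * v z) =
        ∫ w in closedBall (0 : V ι) R, cut R z * (v (z + cexp t • w) - v z) := fun z => by
      rw [integral_const_mul, integral_sub (iB (by fun_prop)) (iB continuous_const),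
        setIntegral_const, smul_eq_mul]
    have hc' := cut_cont (ι := ι) R
    have hI : Integrable (Function.uncurry fun z w : V ι => cut R z * (v (z + cexp t • w) - v z))
        ((volume.restrict (closedBall (0 : V ι) (3 * R))).prod
          (volume.restrict (closedBall (0 : V ι) R))) := by
      rw [Measure.prod_restrict]
      exact ContinuousOn.integrableOn_compact (hK.prod hB) (Continuous.continuousOn (by
        unfold Function.uncurry
        fun_prop))
    simp only [e]
    rw [integral_integral_swap hI, ← smul_eq_mul m, hm, ← setIntegral_const]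
    refine setIntegral_mono_on hI.integral_prod_right (iB continuous_const)
      measurableSet_closedBall fun w hw => shift hR hc (fun w hw => (hv w hw).2.2) hA r1 ?_
    rw [norm_smul, ne]
    exact mul_le_mul_of_nonneg_left (mem_closedBall_zero_iff.1 hw) (Real.exp_pos _).le
  have hS' : {z | z ∈ closedBall (0 : V ι) R ∧ v z ≤ -T} ⊆ closedBall (0 : V ι) (3 * R) :=
    fun z hz => closedBall_subset_closedBall (by linarith) hz.1
  have hm' : MeasurableSet {z | z ∈ closedBall (0 : V ι) R ∧ v z ≤ -T} :=
    measurableSet_closedBall.inter (isClosed_le hc continuous_const).measurableSet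
  have h1 := setIntegral_mono_set (iK cG) (.of_forall fun z => show 0 ≤ cut R z * _ by
    rcases le_total (2 * R) ‖z‖ with h | h
    · rw [cut_zero hR h, zero_mul]
    · exact mul_nonneg (le_max_left _ _) (sub_nonneg.2 (up z (mem_closedBall_zero_iff.2 h))))
    hS'.eventuallyLE
  have h2 := setIntegral_mono_on ((iK (continuous_const (y := m))).mono_set hS')
    ((iK cG).mono_set hS') hm' fun z hz => by
      rw [cut_one hR (mem_closedBall_zero_iff.1 hz.1), one_mul]
      refine le_of_mul_le_mul_left ?_ l2
      nlinarith [low z hz.1, mul_le_mul_of_nonneg_left hz.2 (mul_pos l2 m0).le]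
  rw [setIntegral_const, smul_eq_mul, mul_comm] at h2
  exact le_of_mul_le_mul_left ((h2.trans h1).trans int) m0

/-- the local tail estimate. -/
theorem loc (hS : SubM) (hD : DcS) {R A : ℝ} (hR : 0 < R) (hA : 0 < A) :
    ∃ a > (0 : ℝ), ∃ B > (0 : ℝ), ∀ v : V ι → ℝ,
    (∀ w ∈ closedBall (0 : V ι) (4 * R), ContDiffAt ℝ 2 v w ∧
      (levi (fun x => (v x : ℂ)) w).PosSemidef ∧ v w ≤ 0) →
    ∫ w in closedBall (0 : V ι) (3 * R), -v w ≤ A → ∀ T : ℝ,
    volume.real {z | z ∈ closedBall (0 : V ι) R ∧ v z ≤ -T} ≤ B * Real.exp (-(a * T)) := by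
  have hB := isCompact_closedBall (0 : V ι) R
  have l2 : 0 < Real.log 2 := Real.log_pos one_lt_two
  set m := volume.real (closedBall (0 : V ι) R) with hm
  have m0 : 0 < m := ENNReal.toReal_pos (measure_closedBall_pos _ _ hR).ne' hB.measure_lt_top.ne
  set a := Real.log 2 * m / A with ha
  have a0 : 0 < a := by positivity
  refine ⟨a, a0, (A + m) * Real.exp (Real.log 2 + a), by positivity, fun v hv hi T => ?_⟩
  rw [mul_assoc, ← Real.exp_add]
  rcases le_or_gt 0 (Real.log 2 + a + -(a * T)) with h | h
  · refine (measureReal_mono (fun z hz => hz.1) hB.measure_lt_top.ne).trans ?_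
    nlinarith [Real.one_le_exp h]
  obtain ⟨u, hu⟩ := ContinuousMap.exists_restrict_eq (Y := ℝ)
    (isClosed_closedBall (x := (0 : V ι)) (ε := 4 * R))
    ⟨_, continuousOn_iff_continuous_domRestrict.1
      fun w hw => (hv w hw).1.continuousAt.continuousWithinAt⟩
  have e : ∀ w ∈ closedBall (0 : V ι) (4 * R), u w = v w := fun w hw =>
    DFunLike.congr_fun hu ⟨w, hw⟩
  have s3 : closedBall (0 : V ι) (3 * R) ⊆ ball 0 (4 * R) := closedBall_subset_ball (by linarith)
  have ev : ∀ w ∈ closedBall (0 : V ι) (3 * R), u =ᶠ[𝓝 w] v := fun w hw =>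
    Filter.mem_of_superset (isOpen_ball.mem_nhds (s3 hw)) fun x hx =>
      e x (ball_subset_closedBall hx)
  have h1 := loc0 hS hD hR u.continuous (A := A) (T := T) (fun w hw => by
      obtain ⟨k1, k2, k3⟩ := hv w (ball_subset_closedBall (s3 hw))
      refine ⟨k1.congr_of_eventuallyEq (ev w hw), ?_, (ev w hw).eq_of_nhds.trans_le k3⟩
      rwa [levi_congr (g := fun x => (v x : ℂ)) ((ev w hw).mono fun x hx => by simp only [hx])])
    (by rwa [setIntegral_congr_fun measurableSet_closedBall (g := fun w => -v w)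
      fun w hw => by simp only [(ev w hw).eq_of_nhds]]) h (by
      have : A * a = Real.log 2 * m := by rw [ha]; field_simp
      nlinarith [congrArg (· * (T - 1)) this])
  have e2 : {z | z ∈ closedBall (0 : V ι) R ∧ v z ≤ -T} =
      {z | z ∈ closedBall (0 : V ι) R ∧ u z ≤ -T} := Set.ext fun z => and_congr_right fun hz => by
    rw [e z (closedBall_subset_closedBall (by linarith) hz)]
  rw [e2]
  nlinarith [mul_pos m0 (Real.exp_pos (Real.log 2 + a + -(a * T)))]

end Pool.Agent.Lib.MP_813db1_ag.AS.Tail
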