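import Pool.Agent.Lib.MP_813db1_ag.HS.Top

/-! Nef canonical bundles, Kaehler forms that become exact on a covering, and two conditions on
groups. -/

namespace Pool.Agent.Lib.MP_813db1_ag.AS

open Pool.Agent.Lib.MP_813db1_ag.HS Filter Topology
open scoped ContDiff ComplexOrder Pointwise

variable {ι X : Type} [Fintype ι] [DecidableEq ι] [TopologicalSpace X] [ChartedSpace (ι → ℂ) X]

/-- the canonical bundle is nef. -/
def NefK (K : Kahler ι X) : Prop :=
  ∀ ε : ℝ, 0 < ε → ∃ w : X → ℝ, ∀ e ∈ atlas (ι → ℂ) X, ContDiffOn ℝ ∞ (w ∘ e.symm) e.target ∧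
    ∀ z ∈ e.target, (-ric (K.g e) z + levi (fun y => (w (e.symm y) : ℂ)) z +
      (ε : ℂ) • K.g e z).PosSemidef

/-- the pull back of the Kaehler form under the covering `p` is the differential of a smooth real
one-form `α`; `α e y` is the value of `α` at `y` in the chart `e ∘ p`, and `s` runs over the local
inverses of `e ∘ p`. -/
def Exact {Y : Type} [TopologicalSpace Y] (K : Kahler ι X) (p : Y → X) : Prop :=
  ∃ α : OpenPartialHomeomorph X (ι → ℂ) → Y → (ι → ℂ) →L[ℝ] ℝ,
    (∀ e ∈ atlas (ι → ℂ) X, ∀ e' ∈ atlas (ι → ℂ) X, ∀ y, p y ∈ e.source → p y ∈ e'.source →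
      α e y = (α e' y).comp (fderiv ℝ (e' ∘ e.symm) (e (p y)))) ∧
    ∀ e ∈ atlas (ι → ℂ) X, ∀ z ∈ e.target, ∀ s : (ι → ℂ) → Y, ContinuousAt s z →
      (∀ᶠ w in 𝓝 z, p (s w) = e.symm w) → ContDiffAt ℝ ∞ (fun w => α e (s w)) z ∧
        ∀ u v, fderiv ℝ (fun w => α e (s w)) z u v - fderiv ℝ (fun w => α e (s w)) z v u =
          (∑ i, ∑ j, K.g e z i j * u i * star (v j)).im

/-- all rational linear representations of all subgroups of finite index have finite image. -/
def FinRep (G : Type) [Group G] : Prop :=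
  ∀ H : Subgroup G, H.FiniteIndex → ∀ (r : ℕ) (ρ : H →* Matrix.GeneralLinearGroup (Fin r) ℚ),
    (Set.range ρ).Finite

/-- the subgroup `A` is commensurable with all its conjugates. -/
def Cmn {G : Type} [Group G] (A : Subgroup G) : Prop :=
  ∀ g : G, Subgroup.Commensurable (MulAut.conj g • A) A

/-- every finitely generated abelian commensurated subgroup is finite. -/
def NoAb (G : Type) [Group G] : Prop :=
  ∀ A : Subgroup G, A.FG → IsMulCommutative A → Cmn A → Finite A

end Pool.Agent.Lib.MP_813db1_ag.AS
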