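import Pool.Agent.Lib.MP_813db1_ag.AS.Top

/-! Closed two-forms of nonzero volume whose class comes from the group of a covering. -/

namespace Pool.Agent.Lib.MP_813db1_ag.AS

open Pool.Agent.Lib.MP_813db1_ag.HS Filter Topology MeasureTheory
open scoped ContDiff

variable {ι X : Type} [Fintype ι] [DecidableEq ι] [TopologicalSpace X] [ChartedSpace (ι → ℂ) X]

/-- the real basis `e_k`, `i e_k`. -/
noncomputable def reB (q : ι × Fin 2) : ι → ℂ := Pi.single q.1 (Complex.I ^ (q.2 : ℕ))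

/-- for a real two-form `B` this is `2 ^ n` times the coefficient of `B ^ n` with respect to
`dx_1 ∧ dy_1 ∧ ... ∧ dx_n ∧ dy_n`. -/
noncomputable def topF (B : (ι → ℂ) → (ι → ℂ) → ℝ) : ℝ :=
  ∑ σ : Equiv.Perm (ι × Fin 2), ((Equiv.Perm.sign σ : ℤ) : ℝ) *
    ∏ k, B (reB (σ (k, 0))) (reB (σ (k, 1)))

/-- there are a real two-form `β` on `X` with `∫ β ^ n ≠ 0`, a smooth real one-form `α` on `Y`
with `d α = p^* β` and smooth functions `u g` on `Y` with `d (u g) = g^* α - α`. Here `β e z` is the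
value of `β` at `z` in the chart `e`, `α e y` is the value of `α` at `y` in the chart `e ∘ p`, and
`s` runs over the local inverses of `e ∘ p`. -/
def Ess [MeasurableSpace X] {Y : Type} [TopologicalSpace Y] (G : Type) [SMul G Y] (K : Kahler ι X)
    (p : Y → X) : Prop :=
  ∃ (β : OpenPartialHomeomorph X (ι → ℂ) → (ι → ℂ) → (ι → ℂ) → (ι → ℂ) → ℝ)
    (α : OpenPartialHomeomorph X (ι → ℂ) → Y → (ι → ℂ) →L[ℝ] ℝ) (u : G → Y → ℝ) (μ : Measure X),
    (∀ e ∈ atlas (ι → ℂ) X, ∀ e' ∈ atlas (ι → ℂ) X, ∀ y, p y ∈ e.source → p y ∈ e'.source →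
      α e y = (α e' y).comp (fderiv ℝ (e' ∘ e.symm) (e (p y)))) ∧
    (∀ e ∈ atlas (ι → ℂ) X, ∀ z ∈ e.target, ∀ s : (ι → ℂ) → Y, ContinuousAt s z →
      (∀ᶠ w in 𝓝 z, p (s w) = e.symm w) → (ContDiffAt ℝ ∞ (fun w => α e (s w)) z ∧
        ∀ a b, fderiv ℝ (fun w => α e (s w)) z a b - fderiv ℝ (fun w => α e (s w)) z b a =
          β e z a b) ∧
        ∀ g, ContDiffAt ℝ ∞ (fun w => u g (s w)) z ∧
          fderiv ℝ (fun w => u g (s w)) z = α e (g • s z) - α e (s z)) ∧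
    K.IsVol μ ∧ ∫ x, topF (β (chartAt (ι → ℂ) x) (chartAt (ι → ℂ) x x)) /
      (K.g (chartAt (ι → ℂ) x) (chartAt (ι → ℂ) x x)).det.re ∂μ ≠ 0

end Pool.Agent.Lib.MP_813db1_ag.AS
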